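import Mathlib

section

attribute [-instance] NonUnitalAlgHomClass.toNonUnitalRingHomClass
  SemilinearMapClass.distribMulActionSemiHomClass CompletePartialOrder.toPartialOrder
  AddQuantale.instAddRightMono NonUnitalAlgSemiHomClass.toMulHomClass WithZero.instDistrib
  IdemSemiring.toCanonicallyOrderedAdd IdemSemiring.toSemiring MonTypeEquivalenceMon.monMonoid
  WithZero.instAddCommMonoid NonUnitalNormedRing.toNormedAddCommGroup
  CommMonTypeEquivalenceCommMon.commMonCommMonoid NeZero.charZero_one BialgHomClass.toMonoidHomClass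
  Quantale.instMulRightMono Group.IsPerfect.subsingleton_of_isMulCommutative instSMulZeroClass
  IdemCommSemiring.toCommSemiring Quantale.instMulLeftMono OmegaCompletePartialOrder.toPartialOrder
  LinearOrder.toDecidableEq NormMulClass.toNoZeroDivisors WithZero.instSemiring

/-! Function fields in one variable over an algebraically closed field: places, divisors. -/

namespace Pool.Agent.MP_855f4c_ag.WD

open WithZero
open scoped IntermediateField

/-- `K/k` is a function field in one variable over the algebraically closed field `k`. -/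
class FF (k K : Type) [Field k] [Field K] [Algebra k K] : Prop where
  closed : IsAlgClosed k
  ex : ∃ t : K, Transcendental k t ∧ FiniteDimensional k⟮t⟯ K

/-- A `k`-rational place: a normalised discrete valuation, trivial on `k`, residue field `k`. -/
@[ext] structure Place (k K : Type) [Field k] [Field K] [Algebra k K] where
  v : Valuation K ℤᵐ⁰
  unif : ∃ t, v t = exp (-1 : ℤ)
  const : ∀ c : k, v (algebraMap k K c) ≤ 1
  res : ∀ f, v f ≤ 1 → ∃ c : k, v (f - algebraMap k K c) < 1

variable {k K : Type} [Field k] [Field K] [Algebra k K]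

namespace Place

variable (x : Place k K)

/-- order of vanishing; `ord 0 = 0`. So `f` is regular at `x` iff `0 ≤ x.ord f`. -/
noncomputable def ord (f : K) : ℤ := - log (x.v f)

open Classical in
/-- value at `x` (junk `0` at a pole). -/
noncomputable def val (f : K) : k := if h : x.v f ≤ 1 then (x.res f h).choose else 0

/-- the valuation ring -/
def O : Subalgebra k K where
  carrier := {f | x.v f ≤ 1}
  mul_mem' {a b} ha hb := by
    change x.v (a * b) ≤ 1; rw [map_mul]; exact mul_le_one' ha hb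
  add_mem' {a b} ha hb := x.v.map_add_le ha hb
  algebraMap_mem' := x.const

variable {x} {f g : K}

lemma v_eq (hf : f ≠ 0) : x.v f = exp (-x.ord f) := by
  simp only [ord, neg_neg, exp_log (x.v.ne_zero_iff.2 hf)]
@[simp] lemma ord_zero : x.ord 0 = 0 := by simp only [ord, map_zero, log_zero, neg_zero]
@[simp] lemma ord_one : x.ord 1 = 0 := by simp only [ord, map_one, log_one, neg_zero]
lemma v_le_exp {m : ℤ} : x.v f ≤ exp m ↔ f = 0 ∨ 0 ≤ x.ord f + m := by
  by_cases hf : f = 0
  · simp only [hf, map_zero, zero_le, ord_zero, zero_add, true_or]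
  · rw [v_eq hf, exp_le_exp]; simp only [hf, false_or]; omega
lemma v_lt_exp {m : ℤ} : x.v f < exp m ↔ f = 0 ∨ 0 < x.ord f + m := by
  by_cases hf : f = 0
  · simp only [hf, map_zero, exp_pos, ord_zero, zero_add, true_or]
  · rw [v_eq hf, exp_lt_exp]; simp only [hf, false_or]; omega
lemma v_le_one : x.v f ≤ 1 ↔ 0 ≤ x.ord f := by
  rw [← exp_zero, v_le_exp]; by_cases hf : f = 0 <;> simp [hf]
lemma v_lt_one : x.v f < 1 ↔ f = 0 ∨ 0 < x.ord f := by
  rw [← exp_zero, v_lt_exp]; simp
lemma v_eq_one : x.v f = 1 ↔ f ≠ 0 ∧ x.ord f = 0 := by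
  by_cases hf : f = 0
  · simp only [hf, map_zero, zero_ne_one, ne_eq, not_true_eq_false, ord_zero, and_true]
  · rw [v_eq hf, exp_eq_one]; simp [hf]
lemma one_lt_v : 1 < x.v f ↔ x.ord f < 0 := by rw [← not_le, v_le_one, not_le]
lemma mem_O' : f ∈ x.O ↔ 0 ≤ x.ord f := v_le_one
lemma ne_zero_of_ord (h : x.ord f ≠ 0) : f ≠ 0 := by rintro rfl; simp at h
lemma ord_mul (hf : f ≠ 0) (hg : g ≠ 0) : x.ord (f * g) = x.ord f + x.ord g := by
  simp only [ord, map_mul, log_mul (x.v.ne_zero_iff.2 hf) (x.v.ne_zero_iff.2 hg)]; ring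
@[simp] lemma ord_inv : x.ord f⁻¹ = -x.ord f := by simp only [ord, map_inv₀, log_inv, neg_neg]
@[simp] lemma ord_neg : x.ord (-f) = x.ord f := by simp only [ord, Valuation.map_neg]
lemma ord_div (hf : f ≠ 0) (hg : g ≠ 0) : x.ord (f / g) = x.ord f - x.ord g := by
  rw [div_eq_mul_inv, ord_mul hf (inv_ne_zero hg), ord_inv]; ring
@[simp] lemma ord_pow (n : ℕ) : x.ord (f ^ n) = n * x.ord f := by simp only [ord, map_pow, log_pow, Int.nsmul_eq_mul, mul_neg]
@[simp] lemma ord_zpow (n : ℤ) : x.ord (f ^ n) = n * x.ord f := by simp only [ord, map_zpow₀, log_zpow, Int.zsmul_eq_mul, mul_neg]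
lemma ord_prod {ι : Type*} (s : Finset ι) (F : ι → K) (h : ∀ i ∈ s, F i ≠ 0) :
    x.ord (∏ i ∈ s, F i) = ∑ i ∈ s, x.ord (F i) := by
  classical
  induction s using Finset.induction_on with
  | empty => simp
  | insert a s ha ih =>
    rw [Finset.prod_insert ha, Finset.sum_insert ha, ord_mul (h a (by simp))
      (Finset.prod_ne_zero_iff.2 fun i hi => h i (by simp [hi])),
      ih fun i hi => h i (by simp [hi])]
lemma v_const {c : k} (hc : c ≠ 0) : x.v (algebraMap k K c) = 1 := by
  refine le_antisymm (x.const c) ?_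
  have h := x.const c⁻¹
  rw [map_inv₀, map_inv₀] at h
  have h0 : x.v (algebraMap k K c) ≠ 0 := by simpa only [ne_eq, map_eq_zero] using hc
  exact (inv_le_one₀ (zero_lt_iff.2 h0)).1 h
@[simp] lemma ord_const (c : k) : x.ord (algebraMap k K c) = 0 := by
  by_cases hc : c = 0
  · simp [hc]
  · simp [ord, v_const hc]
lemma ord_smul {c : k} (hc : c ≠ 0) : x.ord (c • f) = x.ord f := by
  simp only [ord, Algebra.smul_def, map_mul, v_const hc, one_mul]
lemma min_le_ord_add (h : f + g ≠ 0) (hf : f ≠ 0) (hg : g ≠ 0) :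
    min (x.ord f) (x.ord g) ≤ x.ord (f + g) := by
  have := x.v.map_add f g
  rw [v_eq h, v_eq hf, v_eq hg, le_max_iff, exp_le_exp, exp_le_exp] at this
  omega
lemma ord_add_of_lt (hf : f ≠ 0) (h : g = 0 ∨ x.ord f < x.ord g) :
    f + g ≠ 0 ∧ x.ord (f + g) = x.ord f := by
  have h1 : x.v g < x.v f := by
    rw [v_eq hf, v_lt_exp]; rcases h with h | h
    · exact .inl h
    · right; omega
  have h2 := x.v.map_add_eq_of_lt_left h1
  exact ⟨fun h0 => by rw [h0, map_zero] at h2; exact x.v.ne_zero_iff.2 hf h2.symm,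
    by simp only [ord, h2]⟩
lemma exists_ord (x : Place k K) (m : ℤ) : ∃ t : K, t ≠ 0 ∧ x.ord t = m := by
  obtain ⟨t, ht⟩ := x.unif
  have h1 : x.ord t = 1 := by simp [ord, ht]
  exact ⟨t ^ m, zpow_ne_zero _ (ne_zero_of_ord (x := x) (by omega)), by simp [h1]⟩
lemma not_const (h : x.ord f ≠ 0) : f ∉ Set.range (algebraMap k K) := by
  rintro ⟨c, rfl⟩; simp at h

lemma val_spec (h : 0 ≤ x.ord f) : x.v (f - algebraMap k K (x.val f)) < 1 := by
  rw [val, dif_pos (v_le_one.2 h)]; exact (x.res f (v_le_one.2 h)).choose_spec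
lemma val_pole (h : x.ord f < 0) : x.val f = 0 := by
  rw [val, dif_neg (by rw [v_le_one]; omega)]
lemma val_eq {c : k} (h : x.v (f - algebraMap k K c) < 1) : 0 ≤ x.ord f ∧ x.val f = c := by
  have h0 : 0 ≤ x.ord f := by
    rw [← v_le_one, ← sub_add_cancel f (algebraMap k K c)]
    exact x.v.map_add_le h.le (x.const c)
  refine ⟨h0, ?_⟩
  by_contra hne
  have h1 := x.v.map_sub_lt h (val_spec h0)
  rw [sub_sub_sub_cancel_left, ← map_sub, v_const (sub_ne_zero.2 hne)] at h1
  exact lt_irrefl _ h1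
@[simp] lemma val_const (c : k) : x.val (algebraMap k K c) = c := (val_eq (by simp only [sub_self, map_zero, zero_lt_one])).2
@[simp] lemma val_zero : x.val 0 = 0 := by simpa using val_const (x := x) 0
@[simp] lemma val_one : x.val 1 = 1 := by simpa using val_const (x := x) 1
lemma val_add (hf : 0 ≤ x.ord f) (hg : 0 ≤ x.ord g) : x.val (f + g) = x.val f + x.val g := by
  refine (val_eq ?_).2
  have := x.v.map_add_lt (val_spec hf) (val_spec hg)
  rwa [(algebraMap k K).map_add, add_sub_add_comm]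
lemma val_mul (hf : 0 ≤ x.ord f) (hg : 0 ≤ x.ord g) : x.val (f * g) = x.val f * x.val g := by
  refine (val_eq ?_).2
  have e : f * g - algebraMap k K (x.val f * x.val g) = f * (g - algebraMap k K (x.val g)) +
    (f - algebraMap k K (x.val f)) * algebraMap k K (x.val g) := by rw [map_mul]; ring
  rw [e]
  refine x.v.map_add_lt ?_ ?_ <;> rw [map_mul]
  · exact (mul_le_of_le_one_left' (v_le_one.2 hf)).trans_lt (val_spec hg)
  · exact (mul_le_of_le_one_right' (x.const _)).trans_lt (val_spec hf)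

/-- evaluation at `x` as a `k`-algebra map on the valuation ring -/
noncomputable def valHom (x : Place k K) : x.O →ₐ[k] k where
  toFun f := x.val f
  map_one' := val_one
  map_zero' := val_zero
  map_mul' f g := val_mul (mem_O'.1 f.2) (mem_O'.1 g.2)
  map_add' f g := val_add (mem_O'.1 f.2) (mem_O'.1 g.2)
  commutes' := val_const
lemma valHom_apply (f : x.O) : x.valHom f = x.val f := rfl
lemma ord_add_nonneg (hf : 0 ≤ x.ord f) (hg : 0 ≤ x.ord g) : 0 ≤ x.ord (f + g) :=
  mem_O'.1 (add_mem (mem_O'.2 hf) (mem_O'.2 hg))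
lemma ord_sub_nonneg (hf : 0 ≤ x.ord f) (hg : 0 ≤ x.ord g) : 0 ≤ x.ord (f - g) :=
  mem_O'.1 (sub_mem (mem_O'.2 hf) (mem_O'.2 hg))
lemma ord_mul_nonneg (hf : 0 ≤ x.ord f) (hg : 0 ≤ x.ord g) : 0 ≤ x.ord (f * g) :=
  mem_O'.1 (mul_mem (mem_O'.2 hf) (mem_O'.2 hg))
lemma val_neg : x.val (-f) = -x.val f := by
  by_cases hf : 0 ≤ x.ord f
  · exact map_neg x.valHom ⟨f, mem_O'.2 hf⟩
  · rw [val_pole (not_le.1 hf), val_pole (by simpa using hf), neg_zero]
lemma val_sub (hf : 0 ≤ x.ord f) (hg : 0 ≤ x.ord g) : x.val (f - g) = x.val f - x.val g :=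
  map_sub x.valHom ⟨f, mem_O'.2 hf⟩ ⟨g, mem_O'.2 hg⟩
lemma val_pow (hf : 0 ≤ x.ord f) (n : ℕ) : x.val (f ^ n) = x.val f ^ n :=
  map_pow x.valHom ⟨f, mem_O'.2 hf⟩ n
lemma val_smul (hf : 0 ≤ x.ord f) (c : k) : x.val (c • f) = c * x.val f := by
  rw [Algebra.smul_def, val_mul (by simp) hf, val_const]
lemma val_prod {ι : Type*} (s : Finset ι) (F : ι → K) (h : ∀ i ∈ s, 0 ≤ x.ord (F i)) :
    x.val (∏ i ∈ s, F i) = ∏ i ∈ s, x.val (F i) := by
  classical
  induction s using Finset.induction_on with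
  | empty => simp
  | insert a s ha ih =>
    rw [Finset.prod_insert ha, Finset.prod_insert ha, val_mul (h a (by simp))
      (mem_O'.1 (prod_mem fun i hi => mem_O'.2 (h i (by simp [hi])))),
      ih fun i hi => h i (by simp [hi])]
lemma val_sum {ι : Type*} (s : Finset ι) (F : ι → K) (h : ∀ i ∈ s, 0 ≤ x.ord (F i)) :
    x.val (∑ i ∈ s, F i) = ∑ i ∈ s, x.val (F i) := by
  classical
  induction s using Finset.induction_on with
  | empty => simp
  | insert a s ha ih =>
    rw [Finset.sum_insert ha, Finset.sum_insert ha, val_add (h a (by simp))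
      (mem_O'.1 (sum_mem fun i hi => mem_O'.2 (h i (by simp [hi])))),
      ih fun i hi => h i (by simp [hi])]
lemma val_eq_zero (hf : 0 ≤ x.ord f) : x.val f = 0 ↔ f = 0 ∨ 0 < x.ord f := by
  rw [← v_lt_one]
  exact ⟨fun h => by simpa only [h, map_zero, sub_zero] using val_spec hf, fun h => (val_eq (by simpa only [map_zero, sub_zero] using h)).2⟩
lemma val_ne_zero : x.val f ≠ 0 ↔ f ≠ 0 ∧ x.ord f = 0 := by
  by_cases hf : 0 ≤ x.ord f
  · rw [Ne, val_eq_zero hf, not_or]; exact and_congr_right fun _ => by omega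
  · simp [val_pole (not_le.1 hf)]; omega
lemma val_inv (hf : x.ord f = 0) : x.val f⁻¹ = (x.val f)⁻¹ := by
  by_cases h0 : f = 0
  · simp [h0]
  · refine eq_inv_of_mul_eq_one_left ?_
    rw [← val_mul (by simp [hf]) hf.ge, inv_mul_cancel₀ h0, val_one]
lemma val_zpow (hf : x.ord f = 0) (n : ℤ) : x.val (f ^ n) = x.val f ^ n := by
  cases n with
  | ofNat n => simpa using val_pow hf.ge n
  | negSucc n => rw [zpow_negSucc, zpow_negSucc, val_inv (by simp [hf]), val_pow hf.ge]

/-- A valuation with values in `ℤᵐ⁰` whose ring contains `O_x` and is proper is a power of `v_x`. -/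
lemma exists_e (x : Place k K) (w : Valuation K ℤᵐ⁰) (h : ∀ f, x.v f ≤ 1 → w f ≤ 1)
    (hw : ∃ f, 1 < w f) : ∃ e : ℕ, 0 < e ∧ ∀ f, - log (w f) = e * x.ord f := by
  obtain ⟨t, ht0, ht⟩ := x.exists_ord 1
  have hu : ∀ u : K, u ≠ 0 → x.ord u = 0 → w u = 1 := fun u hu0 hu => by
    refine le_antisymm (h u (v_le_one.2 hu.ge)) ?_
    have := h u⁻¹ (v_le_one.2 (by simp [hu]))
    rw [map_inv₀] at this
    exact (inv_le_one₀ (zero_lt_iff.2 (w.ne_zero_iff.2 hu0))).1 this
  have key : ∀ f, - log (w f) = - log (w t) * x.ord f := fun f => by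
    by_cases hf : f = 0
    · simp only [hf, map_zero, log_zero, neg_zero, ord_zero, mul_zero]
    have h1 := hu (f / t ^ x.ord f) (div_ne_zero hf (zpow_ne_zero _ ht0))
      (by rw [ord_div hf (zpow_ne_zero _ ht0)]; simp [ht])
    rw [map_div₀, div_eq_one_iff_eq (w.ne_zero_iff.2 (zpow_ne_zero _ ht0)), map_zpow₀] at h1
    rw [h1, log_zpow]; simp only [Int.zsmul_eq_mul, mul_comm, mul_neg]
  have h0 : 0 ≤ - log (w t) := by
    have := h t (v_le_one.2 (by omega))
    rw [← exp_zero, ← log_le_iff_le_exp (w.ne_zero_iff.2 ht0)] at this; omega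
  obtain ⟨f, hf⟩ := hw
  refine ⟨(- log (w t)).toNat, ?_, fun f => by rw [Int.toNat_of_nonneg h0]; exact key f⟩
  have h2 := key f
  rw [← exp_zero, ← lt_log_iff_exp_lt (zero_lt_one.trans hf).ne'] at hf
  rcases h0.eq_or_lt with h3 | h3
  · rw [← h3] at h2; omega
  · omega
lemma ext_ord {x y : Place k K} (h : ∀ f, x.ord f = y.ord f) : x = y := by
  ext f; by_cases hf : f = 0
  · simp only [hf, map_zero]
  · rw [v_eq hf, v_eq hf, h]
/-- a place is determined by its ring; the rings are maximal. -/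
lemma ext_le {x y : Place k K} (h : ∀ f, 0 ≤ x.ord f → 0 ≤ y.ord f) : x = y := by
  obtain ⟨s, -, hs⟩ := y.exists_ord (-1)
  obtain ⟨e, he, H⟩ := x.exists_e y.v (fun f hf => v_le_one.2 (h f (v_le_one.1 hf)))
    ⟨s, one_lt_v.2 (by omega)⟩
  have h1 : (e : ℤ) * -x.ord s = 1 := by have := H s; rw [ord] at hs; linarith only [hs, this]
  have h2 : (e : ℤ) = 1 := Int.eq_one_of_mul_eq_one_right (by omega) h1
  exact ext_ord fun f => by have := H f; rw [h2, one_mul] at this; exact this.symm

end Place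

/-- divisors -/
abbrev Div (k K : Type) [Field k] [Field K] [Algebra k K] := Place k K →₀ ℤ

/-- degree -/
noncomputable def deg : Div k K →+ ℤ := Finsupp.degree
@[simp] lemma deg_single (x : Place k K) (m : ℤ) : deg (Finsupp.single x m) = m :=
  Finsupp.degree_single x m
lemma deg_eq_sum (D : Div k K) : deg D = ∑ x ∈ D.support, D x := rfl
lemma deg_eq_sum' {D : Div k K} {S : Finset (Place k K)} (h : D.support ⊆ S) :
    deg D = ∑ x ∈ S, D x :=
  Finset.sum_subset h fun _ _ hx => Finsupp.notMem_support_iff.1 hx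
lemma deg_nonneg {D : Div k K} (h : 0 ≤ D) : 0 ≤ deg D := Finset.sum_nonneg fun x _ => h x
lemma deg_mono {D E : Div k K} (h : D ≤ E) : deg D ≤ deg E := by
  have := deg_nonneg (sub_nonneg.2 h); rw [map_sub] at this; omega
lemma eq_of_le_of_deg {D E : Div k K} (h : D ≤ E) (hd : deg E ≤ deg D) : D = E := by
  have h1 : deg (E - D) = 0 := by have := deg_mono h; rw [map_sub]; omega
  have h2 := (Finset.sum_eq_zero_iff_of_nonneg fun x _ => sub_nonneg.2 h x).1 h1
  ext x; by_contra hx
  have : (E - D) x ≠ 0 := fun h0 => hx (by rw [Finsupp.sub_apply] at h0; omega)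
  exact this (h2 x (Finsupp.mem_support_iff.2 this))

variable (k) in
open Classical in
/-- the divisor of `f` (`dv 0 = 0`); `dv_apply` is in `DG`. -/
noncomputable def dv (f : K) : Div k K :=
  if h : (Function.support fun x : Place k K => x.ord f).Finite then
    Finsupp.ofSupportFinite _ h else 0

/-- the Riemann-Roch space -/
def LL (D : Div k K) : Submodule k K where
  carrier := {f | ∀ x : Place k K, x.v f ≤ exp (D x)}
  add_mem' ha hb x := x.v.map_add_le (ha x) (hb x)
  zero_mem' x := by simp only [map_zero, zero_le]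
  smul_mem' c f hf x := by
    rw [Algebra.smul_def, map_mul]; exact (mul_le_of_le_one_left' (x.const c)).trans (hf x)
lemma mem_LL {D : Div k K} {f : K} : f ∈ LL D ↔ f = 0 ∨ ∀ x : Place k K, 0 ≤ x.ord f + D x := by
  change (∀ x : Place k K, x.v f ≤ exp (D x)) ↔ _
  by_cases hf : f = 0 <;> simp only [hf, map_zero, zero_le, implies_true, Place.ord_zero, zero_add, true_or, Place.v_le_exp, false_or]
lemma LL_mono {D E : Div k K} (h : D ≤ E) : LL D ≤ LL E :=
  fun _ hf x => (hf x).trans (exp_le_exp.2 (h x))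
/-- `ℓ(D)` -/
noncomputable def ell (D : Div k K) : ℕ := Module.finrank k (LL D)

/-- `f(D) = ∏ f(x)^(D x)` -/
noncomputable def ev (f : K) (D : Div k K) : k := D.prod fun x m => x.val f ^ m
/-- `f` is a unit at all points of the support of `D` -/
def Off (f : K) (D : Div k K) : Prop := f ≠ 0 ∧ ∀ x : Place k K, D x ≠ 0 → x.ord f = 0

section ev
variable {f g : K} {D E : Div k K}
lemma ev_eq_prod {S : Finset (Place k K)} (h : D.support ⊆ S) :
    ev f D = ∏ x ∈ S, x.val f ^ D x :=
  Finsupp.prod_of_support_subset _ h _ (by simp)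
@[simp] lemma ev_zero : ev f (0 : Div k K) = 1 := by simp [ev]
@[simp] lemma ev_single (x : Place k K) (m : ℤ) : ev f (Finsupp.single x m) = x.val f ^ m := by
  simp [ev]
lemma Off.val_ne (h : Off f D) {x : Place k K} (hx : D x ≠ 0) : x.val f ≠ 0 :=
  Place.val_ne_zero.2 ⟨h.1, h.2 x hx⟩
lemma Off.ev_ne (h : Off f D) : ev f D ≠ 0 :=
  Finset.prod_ne_zero_iff.2 fun _ hx => zpow_ne_zero _ (h.val_ne (Finsupp.mem_support_iff.1 hx))
lemma Off.add (h : Off f D) (h' : Off f E) : Off f (D + E) :=
  ⟨h.1, fun x hx => by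
    by_cases h1 : D x = 0
    · exact h'.2 x (by simpa only [ne_eq, Finsupp.coe_add, Pi.add_apply, h1, zero_add] using hx)
    · exact h.2 x h1⟩
lemma Off.neg (h : Off f D) : Off f (-D) := ⟨h.1, fun x hx => h.2 x (by simpa only [ne_eq, Finsupp.coe_neg, Pi.neg_apply, neg_eq_zero] using hx)⟩
lemma Off.sub (h : Off f D) (h' : Off f E) : Off f (D - E) := by
  rw [sub_eq_add_neg]; exact h.add h'.neg
lemma Off.zsmul (h : Off f D) (n : ℤ) : Off f (n • D) :=
  ⟨h.1, fun x hx => h.2 x fun h0 => hx (by simp [h0])⟩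
lemma Off.nsmul (h : Off f D) (n : ℕ) : Off f (n • D) :=
  ⟨h.1, fun x hx => h.2 x fun h0 => hx (by simp [h0])⟩
lemma Off.mul (h : Off f D) (h' : Off g D) : Off (f * g) D :=
  ⟨mul_ne_zero h.1 h'.1, fun x hx => by rw [Place.ord_mul h.1 h'.1, h.2 x hx, h'.2 x hx, add_zero]⟩
lemma Off.inv (h : Off f D) : Off f⁻¹ D := ⟨inv_ne_zero h.1, fun x hx => by simp [h.2 x hx]⟩
lemma Off.div (h : Off f D) (h' : Off g D) : Off (f / g) D := by
  rw [div_eq_mul_inv]; exact h.mul h'.inv
lemma Off.zpow (h : Off f D) (n : ℤ) : Off (f ^ n) D :=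
  ⟨zpow_ne_zero _ h.1, fun x hx => by simp [h.2 x hx]⟩
lemma Off.pow (h : Off f D) (n : ℕ) : Off (f ^ n) D :=
  ⟨pow_ne_zero _ h.1, fun x hx => by simp [h.2 x hx]⟩
lemma off_const {c : k} (hc : c ≠ 0) : Off (algebraMap k K c) D :=
  ⟨by simpa using hc, fun x _ => by simp⟩
lemma ev_add (h : Off f D) (h' : Off f E) : ev f (D + E) = ev f D * ev f E := by
  classical
  rw [ev_eq_prod Finsupp.support_add, ev_eq_prod (D := D) Finset.subset_union_left,
    ev_eq_prod (D := E) Finset.subset_union_right, ← Finset.prod_mul_distrib]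
  refine Finset.prod_congr rfl fun x hx => zpow_add₀ ?_ _ _
  rcases Finset.mem_union.1 hx with hx | hx
  exacts [h.val_ne (Finsupp.mem_support_iff.1 hx), h'.val_ne (Finsupp.mem_support_iff.1 hx)]
lemma ev_zsmul (n : ℤ) : ev f (n • D) = ev f D ^ n := by
  rw [ev_eq_prod Finsupp.support_smul, ev_eq_prod (D := D) subset_rfl, ← Finset.prod_zpow]
  exact Finset.prod_congr rfl fun x _ => by simp [← zpow_mul, mul_comm]
lemma ev_nsmul (n : ℕ) : ev f (n • D) = ev f D ^ n := by
  rw [← natCast_zsmul, ev_zsmul, zpow_natCast]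
lemma ev_neg : ev f (-D) = (ev f D)⁻¹ := by rw [← neg_one_zsmul, ev_zsmul, zpow_neg_one]
lemma ev_sub (h : Off f D) (h' : Off f E) : ev f (D - E) = ev f D / ev f E := by
  rw [sub_eq_add_neg, ev_add h h'.neg, ev_neg, div_eq_mul_inv]
lemma ev_mul (h : Off f D) (h' : Off g D) : ev (f * g) D = ev f D * ev g D := by
  simp only [ev, Finsupp.prod, ← Finset.prod_mul_distrib]
  refine Finset.prod_congr rfl fun x hx => ?_
  have hx := Finsupp.mem_support_iff.1 hx
  rw [Place.val_mul (h.2 x hx).ge (h'.2 x hx).ge, mul_zpow]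
lemma ev_zpow (h : Off f D) (n : ℤ) : ev (f ^ n) D = ev f D ^ n := by
  simp only [ev, Finsupp.prod, ← Finset.prod_zpow]
  refine Finset.prod_congr rfl fun x hx => ?_
  rw [Place.val_zpow (h.2 x (Finsupp.mem_support_iff.1 hx)), ← zpow_mul, ← zpow_mul, mul_comm]
lemma ev_pow (h : Off f D) (n : ℕ) : ev (f ^ n) D = ev f D ^ n := by
  rw [← zpow_natCast, ev_zpow h, zpow_natCast]
lemma ev_inv (h : Off f D) : ev f⁻¹ D = (ev f D)⁻¹ := by
  rw [← zpow_neg_one, ev_zpow h, zpow_neg_one]
lemma ev_const {c : k} (hc : c ≠ 0) : ev (algebraMap k K c) D = c ^ deg D := by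
  simp only [ev, Finsupp.prod, Place.val_const, deg_eq_sum]
  induction D.support using Finset.cons_induction with
  | empty => simp
  | cons a s ha ih => rw [Finset.prod_cons, Finset.sum_cons, ih, zpow_add₀ hc]
end ev

/-- functions regular off `o` -/
def Rg (o : Place k K) : Subalgebra k K := ⨅ x : {x // x ≠ o}, x.1.O
lemma mem_Rg {o : Place k K} {f : K} : f ∈ Rg o ↔ ∀ x : Place k K, x ≠ o → 0 ≤ x.ord f := by
  simp only [Rg, ne_eq, Algebra.mem_iInf, Place.mem_O', Subtype.forall]
/-- the `k`-point of `Rg o` given by a place `x ≠ o` -/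
noncomputable def pt {o x : Place k K} (h : x ≠ o) : Rg o →ₐ[k] k :=
  x.valHom.comp (Subalgebra.inclusion (iInf_le (fun x : {x // x ≠ o} => x.1.O) ⟨x, h⟩))
@[simp] lemma pt_apply {o x : Place k K} (h : x ≠ o) (a : Rg o) : pt h a = x.val a := rfl

end Pool.Agent.MP_855f4c_ag.WD

end

section

attribute [-instance] IntermediateField.isAlgebraic_tower_top RKHS.instFunLike
  NonUnitalRingHomClass.toMulHomClass CompletePartialOrder.toPartialOrder NeZero.charZero_one
  instCoeOTCOfCoeTC IdemSemiring.toSemiring WithZero.instDistrib SetLike.GradeZero.instSemiring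
  MonTypeEquivalenceMon.monMonoid ContinuousMonoidHom.instCoeOutOfMonoidHomClassOfContinuousMapClass
  AddQuantale.instAddRightMono BialgHomClass.toMonoidHomClass littleWedderburn
  Quantale.instMulLeftMono Group.IsPerfect.subsingleton_of_isMulCommutative
  instNonUnitalAlgHomClassOfNonUnitalAlgEquivClass GeneralizedCoheytingAlgebra.toLattice
  instCharZeroOfIsSemireal CommMonTypeEquivalenceCommMon.commMonCommMonoid
  NonUnitalNonAssocSemiring.toMulZeroClass AddQuantale.instAddLeftMono NormedRing.toRing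
  AddCommMonoidWithOne.toAddMonoidWithOne SetLike.GradeZero.instCommSemiring
  LinearOrder.toDecidableEq OmegaCompletePartialOrder.toPartialOrder NormMulClass.toNoZeroDivisors
  WithZero.instAddCommMonoid IdemSemiring.toCanonicallyOrderedAdd
  ContinuousSemilinearMapClass.toSemilinearMapClass MulCharClass.toMonoidHomClass
  IsometryClass.instCoeOutIsometryEquiv NormedCommRing.toCommRing NonUnitalNonAssocSemiring.toDistrib
  ChainCompletePartialOrder.toPartialOrder
  ContinuousAddMonoidHom.instCoeOutOfAddMonoidHomClassOfContinuousMapClass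
  IdemCommSemiring.toCommSemiring MulDistribMulActionSemiHomClass.toMonoidHomClass
  FunLike.toDecidableEq FloorSemiring.instCharZero HomeomorphClass.instCoeOutHomeomorph
  GrpTypeEquivalenceGrp.grpGroup

/-! Existence of places, weak approximation, finiteness of zeros. -/

namespace Pool.Agent.MP_855f4c_ag.WD

open WithZero Polynomial
open scoped IntermediateField

variable {k K : Type} [Field k] [Field K] [Algebra k K]

namespace RR

lemma transc [FF k K] {f : K} (h : f ∉ Set.range (algebraMap k K)) : Transcendental k f := by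
  have := FF.closed (k := k) (K := K)
  intro ha
  have h1 := IsAlgClosed.degree_eq_one_of_irreducible k (minpoly.irreducible ha.isIntegral)
  exact h (minpoly.mem_range_of_degree_eq_one k f h1)

lemma fin_adjoin [FF k K] {y : K} (hy : Transcendental k y) : FiniteDimensional k⟮y⟯ K := by
  obtain ⟨x, hx, hfin⟩ := FF.ex (k := k) (K := K)
  have h1 : IsAlgebraic k⟮y⟯ x :=
    IntermediateField.isAlgebraic_adjoin_iff.mpr (.adjoin_singleton hx hy
      (IntermediateField.isAlgebraic_adjoin_iff.mp (Algebra.IsAlgebraic.isAlgebraic y)))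
  let Fyx := IntermediateField.restrictScalars k k⟮y⟯⟮x⟯
  let Fxy := IntermediateField.restrictScalars k k⟮x⟯⟮y⟯
  let _ : Algebra k⟮y⟯ Fyx := k⟮y⟯⟮x⟯.algebra
  let _ : Module k⟮y⟯ Fyx := Algebra.toModule
  let _ : SMul k⟮y⟯ Fyx := Algebra.toSMul
  let _ : Algebra k⟮x⟯ Fxy := k⟮x⟯⟮y⟯.algebra
  let _ : Module k⟮x⟯ Fxy := Algebra.toModule
  let _ : SMul k⟮x⟯ Fxy := Algebra.toSMul
  have : FiniteDimensional k⟮y⟯ Fyx :=
    IntermediateField.adjoin.finiteDimensional (isAlgebraic_iff_isIntegral.mp h1)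
  have : FiniteDimensional Fyx K := by
    unfold Fyx
    rw [IntermediateField.adjoin_simple_comm]
    have : IsScalarTower k⟮x⟯ Fxy K := IntermediateField.isScalarTower_mid' k⟮x⟯⟮y⟯
    exact .right k⟮x⟯ Fxy K
  have : IsScalarTower k⟮y⟯ Fyx K := IntermediateField.isScalarTower_mid' k⟮y⟯⟮x⟯
  exact .trans k⟮y⟯ Fyx K

/-- a relation with polynomial coefficients can be made primitive at `0` -/
lemma prim {ι : Type} [Fintype ι] {t : K} (ht : t ≠ 0) (z : ι → K) : ∀ (n : ℕ) (p : ι → k[X])
    (i : ι), p i ≠ 0 → (p i).natDegree = n → ∑ j, aeval t (p j) * z j = 0 →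
    ∃ q : ι → k[X], (∃ j, (q j).coeff 0 ≠ 0) ∧ ∑ j, aeval t (q j) * z j = 0 := by
  intro n
  induction n using Nat.strong_induction_on with
  | _ n ih =>
  intro p i hi hn h
  by_cases h0 : ∃ j, (p j).coeff 0 ≠ 0
  · exact ⟨p, h0, h⟩
  push Not at h0
  have h1 : ∀ j, X * divX (p j) = p j := fun j => by
    have := X_mul_divX_add (p j); rwa [h0 j, C_0, add_zero] at this
  have h2 : divX (p i) ≠ 0 := fun e => hi (by rw [← h1 i, e, mul_zero])
  refine ih _ ?_ (fun j => divX (p j)) i h2 rfl ?_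
  · rw [← hn, ← h1 i, natDegree_X_mul h2, h1 i]; omega
  · refine (mul_eq_zero.1 ?_).resolve_left ht
    rw [Finset.mul_sum, ← h]
    refine Finset.sum_congr rfl fun j _ => ?_
    conv_rhs => rw [← h1 j]
    rw [map_mul, aeval_X, mul_assoc]

lemma poly_rel {ι : Type} [Fintype ι] {t : K} (z : ι → K) (h : ¬ LinearIndependent k⟮t⟯ z) :
    ∃ (p : ι → k[X]) (i : ι), p i ≠ 0 ∧ ∑ j, aeval t (p j) * z j = 0 := by
  classical
  obtain ⟨g, hg, i, hi⟩ := Fintype.not_linearIndependent_iff.1 h
  have h1 : ∀ j, ∃ r s : k[X], aeval t s ≠ 0 ∧ (g j : K) * aeval t s = aeval t r := fun j => by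
    obtain ⟨r, s, e⟩ := (IntermediateField.mem_adjoin_simple_iff k (g j : K)).1 (g j).2
    by_cases hs : aeval t s = 0
    · exact ⟨0, 1, by simp, by simp [e, hs]⟩
    · exact ⟨r, s, hs, by rw [e, div_mul_cancel₀ _ hs]⟩
  choose r s hs e using h1
  have h2 : ∀ j, aeval t (r j * ∏ l ∈ Finset.univ.erase j, s l) = (∏ l, aeval t (s l)) * g j :=
    fun j => by
    rw [map_mul, map_prod, ← e j, ← Finset.mul_prod_erase _ _ (Finset.mem_univ j)]; ring
  refine ⟨fun j => r j * ∏ l ∈ Finset.univ.erase j, s l, i, fun h0 => ?_, ?_⟩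
  · have := h2 i
    rw [show r i * ∏ l ∈ Finset.univ.erase i, s l = 0 from h0, map_zero] at this
    exact mul_ne_zero (Finset.prod_ne_zero_iff.2 fun l _ => hs l)
      (fun h => hi (Subtype.ext h)) this.symm
  · simp only [h2, mul_assoc, ← Finset.mul_sum]
    have : ∑ j, (g j : K) * z j = 0 := hg
    rw [this, mul_zero]

/-- the basic tool: more than `[K : k(t)]` elements are dependent over `k` modulo `t` -/
lemma dep {ι : Type} [Fintype ι] {t : K} (ht : t ≠ 0) [FiniteDimensional k⟮t⟯ K] (z : ι → K)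
    (h : Module.finrank k⟮t⟯ K < Fintype.card ι) : ∃ (c : ι → k) (q : ι → k[X]), (∃ j, c j ≠ 0) ∧
      ∑ j, algebraMap k K (c j) * z j = t * ∑ j, aeval t (q j) * z j := by
  obtain ⟨p, i, hi, hp⟩ := poly_rel (k := k) (t := t) z fun hl =>
    absurd hl.fintype_card_le_finrank (by omega)
  obtain ⟨q, h0, hq⟩ := prim ht z _ p i hi rfl hp
  refine ⟨fun j => (q j).coeff 0, fun j => -divX (q j), h0, ?_⟩
  rw [← sub_eq_zero, Finset.mul_sum, ← Finset.sum_sub_distrib, ← hq]
  refine Finset.sum_congr rfl fun j _ => ?_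
  conv_rhs => rw [← X_mul_divX_add (q j)]
  simp only [map_neg, map_add, map_mul, aeval_X, aeval_C]; ring

section val
variable {Γ : Type} [LinearOrderedCommGroupWithZero Γ] (w : Valuation K Γ)
  (hc : ∀ c : k, w (algebraMap k K c) ≤ 1)
include hc

lemma w_const {c : k} (h : c ≠ 0) : w (algebraMap k K c) = 1 := by
  refine le_antisymm (hc c) ?_
  have h1 := hc c⁻¹
  rw [map_inv₀, map_inv₀] at h1
  have h0 : w (algebraMap k K c) ≠ 0 := by simpa only [ne_eq, map_eq_zero] using h
  exact (inv_le_one₀ (zero_lt_iff.2 h0)).1 h1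

lemma w_aeval {t : K} (ht : w t ≤ 1) (q : k[X]) : w (aeval t q) ≤ 1 := by
  rw [aeval_eq_sum_range]
  refine w.map_sum_le fun i _ => ?_
  rw [Algebra.smul_def, map_mul, map_pow]
  exact mul_le_one' (hc _) (pow_le_one' ht _)

lemma w_dep {ι : Type} [Fintype ι] {t : K} (ht : w t ≤ 1) (z : ι → K) (hz : ∀ j, w (z j) ≤ 1)
    (q : ι → k[X]) : w (t * ∑ j, aeval t (q j) * z j) ≤ w t := by
  rw [map_mul]
  refine mul_le_of_le_one_right' (w.map_sum_le fun j _ => ?_)
  rw [map_mul]
  exact mul_le_one' (w_aeval w hc ht _) (hz j)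

variable [FF k K]

lemma fin_of_lt {t : K} (h0 : t ≠ 0) (ht : w t < 1) : FiniteDimensional k⟮t⟯ K :=
  fin_adjoin (transc (by
    rintro ⟨c, rfl⟩
    exact ht.ne (w_const w hc fun e => h0 (by rw [e, map_zero]))))

lemma w_res {t : K} (h0 : t ≠ 0) (ht : w t < 1) {f : K} (hf : w f ≤ 1) :
    ∃ c : k, w (f - algebraMap k K c) < 1 := by
  have := FF.closed (k := k) (K := K)
  have := fin_of_lt w hc h0 ht
  obtain ⟨c, q, ⟨j, hj⟩, e⟩ := dep (k := k) h0
    (fun i : Fin (Module.finrank k⟮t⟯ K + 1) => f ^ (i : ℕ)) (by simp)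
  have h1 := (w_dep w hc ht.le (fun i : Fin (Module.finrank k⟮t⟯ K + 1) => f ^ (i : ℕ))
    (fun i => by rw [map_pow]; exact pow_le_one' hf _) q).trans_lt ht
  rw [← e] at h1
  set P : k[X] := ∑ i : Fin (Module.finrank k⟮t⟯ K + 1), C (c i) * X ^ (i : ℕ) with hP
  have h2 : P ≠ 0 := fun h => hj (by
    have := congrArg (fun p => p.coeff (j : ℕ)) h
    simpa [hP, finsetSum_coeff, coeff_C_mul, coeff_X_pow, Fin.val_inj] using this)
  have h3 : w (aeval f P) < 1 := by simpa only [hP, map_sum, map_mul, aeval_C, map_pow, aeval_X] using h1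
  by_contra hn
  push Not at hn
  rw [(IsAlgClosed.splits P).eq_prod_roots, map_mul, map_mul, aeval_C,
    w_const w hc (leadingCoeff_ne_zero.2 h2), one_mul, map_multiset_prod, map_multiset_prod,
    Multiset.map_map, Multiset.map_map] at h3
  refine h3.not_ge (Multiset.one_le_prod_of_one_le ?_)
  intro x hx
  obtain ⟨a, -, rfl⟩ := Multiset.mem_map.1 hx
  simpa only [Function.comp_apply, aeval_sub, aeval_X, aeval_C] using hn a

lemma w_wf (hs : Function.Surjective w) : Set.IsWF {x : Γ | 1 ≤ x} := by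
  classical
  rw [Set.isWF_iff_no_descending_seq]
  intro a ha h1
  choose f hf using fun n => hs (a n)⁻¹
  have h2 : ∀ n, 0 < a n := fun n => zero_lt_one.trans_le (h1 n)
  have h3 : StrictMono fun n => w (f n) := fun m n h => by
    simp only [hf]; exact (inv_lt_inv₀ (h2 m) (h2 n)).2 (ha h)
  have h4 : ∀ n, w (f n) ≤ 1 := fun n => by rw [hf]; exact inv_le_one_of_one_le₀ (h1 n)
  have h0 : f 0 ≠ 0 := fun e => by
    have := hf 0; rw [e, map_zero] at this; exact (inv_pos.2 (h2 0)).ne this
  have ht : w (f 0) < 1 := (h3 zero_lt_one).trans_le (h4 1)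
  have := fin_of_lt w hc h0 ht
  obtain ⟨c, q, hj, e⟩ := dep (k := k) h0
    (fun i : Fin (Module.finrank k⟮f 0⟯ K + 1) => f (i + 1)) (by simp)
  have h5 := w_dep w hc ht.le _ (fun i : Fin (Module.finrank k⟮f 0⟯ K + 1) => h4 (i + 1)) q
  rw [← e] at h5
  obtain ⟨j, hj1, hj2⟩ := Finset.exists_max_image (Finset.univ.filter fun j => c j ≠ 0) id
    (by obtain ⟨j, hj⟩ := hj; exact ⟨j, by simpa using hj⟩)
  have hcj : c j ≠ 0 := by simpa using hj1
  rw [w.map_sum_eq_of_lt (Finset.mem_univ j) fun i hi => ?_, map_mul, w_const w hc hcj,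
    one_mul] at h5
  · exact (h3 (Nat.succ_pos j)).not_ge h5
  · rw [map_mul, map_mul, w_const w hc hcj, one_mul]
    by_cases hci : c i = 0
    · rw [hci, map_zero, map_zero, zero_mul]
      exact zero_le.trans_lt (h3 (Nat.succ_pos j))
    · rw [w_const w hc hci, one_mul]
      have h6 : i ≤ j := hj2 i (by simpa using hci)
      have h7 : i ≠ j := by simpa using hi
      exact h3 (Nat.succ_lt_succ (Fin.lt_def.1 (lt_of_le_of_ne h6 h7)))

end val

variable [FF k K]

/-- every proper valuation subring that contains `k` is the ring of a place -/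
theorem place_of_valuationSubring (B : ValuationSubring K) (hk : ∀ c : k, algebraMap k K c ∈ B)
    {t : K} (h0 : t ≠ 0) (ht : t ∈ B.nonunits) :
    ∃ x : Place k K, (∀ f, 0 ≤ x.ord f ↔ f ∈ B) ∧ ∀ f, x.v f < 1 ↔ f ∈ B.nonunits := by
  have hc : ∀ c : k, B.valuation (algebraMap k K c) ≤ 1 := fun c =>
    (B.valuation_le_one_iff _).2 (hk c)
  have ht' : B.valuation t < 1 := (B.mem_nonunits_iff).1 ht
  have : Nontrivial B.ValueGroupˣ :=
    ⟨⟨Units.mk0 _ (B.valuation.ne_zero_iff.2 h0), 1, fun e => ht'.ne (congrArg Units.val e)⟩⟩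
  obtain ⟨e⟩ := (LinearOrderedCommGroupWithZero.wellFoundedOn_setOfPred_le_lt_iff_nonempty_discrete_of_ne_zero
    (G₀ := B.ValueGroup) one_ne_zero).1 (w_wf B.valuation hc B.valuation_surjective)
  let v : Valuation K ℤᵐ⁰ := B.valuation.map e.toMulEquiv.toMonoidWithZeroHom e.toOrderIso.monotone
  have hv : ∀ f, v f = e (B.valuation f) := fun _ => rfl
  have h1 : ∀ f, v f ≤ 1 ↔ B.valuation f ≤ 1 := fun f => by
    rw [hv, ← map_one e]; exact e.toOrderIso.le_iff_le
  have h2 : ∀ f, v f < 1 ↔ B.valuation f < 1 := fun f => by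
    rw [hv, ← map_one e]; exact e.toOrderIso.lt_iff_lt
  refine ⟨⟨v, ?_, fun c => (h1 _).2 (hc c), fun f hf => ?_⟩, fun f => ?_, fun f => ?_⟩
  · obtain ⟨s, hs⟩ := B.valuation_surjective (e.symm (exp (-1 : ℤ)))
    exact ⟨s, by rw [hv, hs]; exact e.apply_symm_apply _⟩
  · obtain ⟨c, h⟩ := w_res B.valuation hc h0 ht' ((h1 f).1 hf)
    exact ⟨c, (h2 _).2 h⟩
  · rw [← Place.v_le_one]; exact (h1 f).trans (B.valuation_le_one_iff f)
  · exact (h2 f).trans B.mem_nonunits_iff.symm

/-- a place that dominates a proper nonzero ideal of a subalgebra -/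
theorem exists_place_dom (R : Subalgebra k K) (I : Ideal R) (hI : I ≠ ⊤) (h0 : I ≠ ⊥) :
    ∃ x : Place k K, (∀ f ∈ R, 0 ≤ x.ord f) ∧ ∀ f : R, f ∈ I → x.v f < 1 := by
  obtain ⟨B, h1, h2⟩ := Ideal.image_subset_nonunits_valuationSubring (A := R.toSubring) I hI
  obtain ⟨t, ht, ht0⟩ := I.ne_bot_iff.1 h0
  obtain ⟨x, hx, hx'⟩ := place_of_valuationSubring (k := k) B
    (fun c => h1 (R.algebraMap_mem c)) (t := t) (fun e => ht0 (Subtype.ext e)) (h2 ⟨t, ht, rfl⟩)
  exact ⟨x, fun f hf => (hx f).2 (h1 hf), fun f hf => (hx' f).2 (h2 ⟨f, hf, rfl⟩)⟩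

theorem exists_zero {f : K} (h : f ∉ Set.range (algebraMap k K)) :
    ∃ x : Place k K, 0 < x.ord f := by
  have ht := transc h
  have h0 : f ≠ 0 := fun e => h ⟨0, by rw [e, map_zero]⟩
  have hm : f ∈ Algebra.adjoin k {f} := Algebra.self_mem_adjoin_singleton k f
  obtain ⟨x, -, hx⟩ := exists_place_dom (Algebra.adjoin k {f}) (Ideal.span {⟨f, hm⟩}) (by
    rw [Ne, Ideal.span_singleton_eq_top, isUnit_iff_exists_inv]
    rintro ⟨⟨b, hb⟩, e⟩
    rw [Algebra.adjoin_singleton_eq_range_aeval] at hb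
    obtain ⟨p, rfl⟩ := hb
    have e1 : f * aeval f p = 1 := congrArg Subtype.val e
    refine ht ⟨X * p - 1, fun e2 => ?_, by simp [e1]⟩
    simpa using congrArg (fun p => p.coeff 0) e2) (by
    rw [Ne, Ideal.span_singleton_eq_bot]; exact fun e => h0 (congrArg Subtype.val e))
  exact ⟨x, (Place.v_lt_one.1 (hx _ (Ideal.mem_span_singleton_self _))).resolve_left h0⟩

theorem exists_pole {f : K} (h : f ∉ Set.range (algebraMap k K)) :
    ∃ x : Place k K, x.ord f < 0 := by
  obtain ⟨x, hx⟩ := exists_zero (k := k) (f := f⁻¹) fun ⟨c, hc⟩ =>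
    h ⟨c⁻¹, by rw [map_inv₀, hc, inv_inv]⟩
  exact ⟨x, by simpa using hx⟩

theorem const_of_reg {f : K} (h : ∀ x : Place k K, 0 ≤ x.ord f) :
    f ∈ Set.range (algebraMap k K) := by
  by_contra hn
  obtain ⟨x, hx⟩ := exists_pole hn
  exact (h x).not_gt hx

omit [FF k K] in
lemma sep2 {x y : Place k K} (h : x ≠ y) : ∃ u : K, 0 < x.ord u ∧ y.ord u < 0 := by
  have h1 : ∀ {x y : Place k K}, x ≠ y → ∃ u : K, 0 ≤ x.ord u ∧ y.ord u < 0 := fun h => by
    by_contra hn
    push Not at hn
    exact h (Place.ext_le hn)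
  obtain ⟨a, a1, a2⟩ := h1 h
  obtain ⟨b, b1, b2⟩ := h1 h.symm
  have ha := Place.ne_zero_of_ord a2.ne
  have hb := Place.ne_zero_of_ord b2.ne
  exact ⟨a / b, by rw [Place.ord_div ha hb]; omega, by rw [Place.ord_div ha hb]; omega⟩

omit [FF k K] in
lemma sep (x : Place k K) (S : Finset (Place k K)) (hx : x ∉ S) :
    ∃ u : K, 0 < x.ord u ∧ ∀ y ∈ S, y.ord u < 0 := by
  classical
  induction S using Finset.induction_on with
  | empty => obtain ⟨t, -, ht⟩ := x.exists_ord 1; exact ⟨t, by omega, by simp⟩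
  | insert y S hy ih =>
    obtain ⟨u, u1, u2⟩ := ih fun h => hx (Finset.mem_insert_of_mem h)
    by_cases h : y.ord u < 0
    · exact ⟨u, u1, fun z hz => (Finset.mem_insert.1 hz).elim (fun e => e ▸ h) (u2 z)⟩
    obtain ⟨z, z1, z2⟩ := sep2 (x := x) (y := y) fun e => hx (e ▸ Finset.mem_insert_self _ _)
    have hu := Place.ne_zero_of_ord u1.ne'
    have hz := Place.ne_zero_of_ord z1.ne'
    obtain ⟨r, hr⟩ : ∃ r : ℕ, 0 < r ∧ ∀ p ∈ S, -p.ord u < r := by
      refine ⟨∑ p ∈ S, (p.ord u).natAbs + 1, by omega, fun p hp => ?_⟩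
      have := Finset.single_le_sum (f := fun p : Place k K => (p.ord u).natAbs)
        (fun _ _ => Nat.zero_le _) hp
      omega
    have hzr : z ^ r ≠ 0 := pow_ne_zero _ hz
    have hr0 : (0 : ℤ) < r := by exact_mod_cast hr.1
    have hy' : y.ord (z ^ r + u) = y.ord (z ^ r) ∧ y.ord (z ^ r) < 0 := by
      have : y.ord (z ^ r) < 0 := by rw [Place.ord_pow]; nlinarith only [z2, hr]
      exact ⟨(Place.ord_add_of_lt hzr (.inr (by omega))).2, this⟩
    refine ⟨z ^ r + u, ?_, fun p hp => ?_⟩
    · have h1 := Place.min_le_ord_add (x := x) (Place.ne_zero_of_ord (x := y) (by omega)) hzr hu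
      have : 0 < x.ord (z ^ r) := by rw [Place.ord_pow]; positivity
      omega
    · rcases Finset.mem_insert.1 hp with rfl | hp
      · omega
      have h1 := u2 p hp
      have h2 := hr.2 p hp
      by_cases h3 : 0 ≤ p.ord z
      · have : 0 ≤ p.ord (z ^ r) := by rw [Place.ord_pow]; positivity
        rw [add_comm, (Place.ord_add_of_lt hu (.inr (by omega))).2]; exact h1
      · have : p.ord (z ^ r) ≤ -r := by rw [Place.ord_pow]; nlinarith only [h3]
        rw [(Place.ord_add_of_lt hzr (.inr (by omega))).2]; omega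

omit [FF k K] in
lemma bump (x : Place k K) (S : Finset (Place k K)) (hx : x ∉ S) (s : ℕ) :
    ∃ b : K, x.v (b - 1) ≤ exp (-s : ℤ) ∧ ∀ y ∈ S, y.v b ≤ exp (-s : ℤ) := by
  obtain ⟨u, u1, u2⟩ := sep x S hx
  have hu := Place.ne_zero_of_ord u1.ne'
  have hp : u ^ (s + 1) ≠ 0 := pow_ne_zero _ hu
  have h1 : (s : ℤ) < x.ord (u ^ (s + 1)) := by rw [Place.ord_pow]; push_cast; nlinarith only [u1]
  obtain ⟨h2, h3⟩ := Place.ord_add_of_lt (x := x) (f := 1) (g := u ^ (s + 1)) one_ne_zero
    (.inr (by rw [Place.ord_one]; omega))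
  refine ⟨(1 + u ^ (s + 1))⁻¹, ?_, fun y hy => ?_⟩
  · have e : (1 + u ^ (s + 1))⁻¹ - 1 = -(u ^ (s + 1) / (1 + u ^ (s + 1))) := by
      field_simp; ring
    rw [e, Place.v_le_exp, Place.ord_neg, Place.ord_div hp h2, h3, Place.ord_one]
    right; omega
  · have h4 : y.ord (u ^ (s + 1)) < -s := by
      have := u2 y hy
      rw [Place.ord_pow]; push_cast; nlinarith only [this]
    rw [Place.v_le_exp, Place.ord_inv, add_comm 1,
      (Place.ord_add_of_lt hp (.inr (by rw [Place.ord_one]; omega))).2]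
    right; omega

omit [FF k K] in
/-- weak approximation -/
theorem approx_v (S : Finset (Place k K)) (a : Place k K → K) (m : Place k K → ℤ) :
    ∃ f : K, ∀ x ∈ S, x.v (f - a x) < exp (m x) := by
  classical
  obtain ⟨s, hs⟩ : ∃ s : ℕ, ∀ x ∈ S, ∀ y ∈ S, exp (-s : ℤ) * x.v (a y) < exp (m x) := by
    refine ⟨∑ x ∈ S, ∑ y ∈ S, (x.ord (a y) + m x).natAbs + 1, fun x hx y hy => ?_⟩
    have h1 := Finset.single_le_sum (f := fun y => (x.ord (a y) + m x).natAbs)
      (fun _ _ => Nat.zero_le _) hy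
    have h2 := Finset.single_le_sum (f := fun x : Place k K => ∑ y ∈ S,
      (x.ord (a y) + m x).natAbs) (fun _ _ => Nat.zero_le _) hx
    by_cases h0 : a y = 0
    · simp only [Nat.cast_add, Nat.cast_sum, Nat.cast_natAbs, Int.cast_abs, Int.cast_add, Int.cast_eq, Nat.cast_one, neg_add_rev, Int.reduceNeg, exp_add, exp_neg, h0, map_zero, mul_zero, exp_pos]
    · rw [Place.v_eq h0, ← exp_add, exp_lt_exp]; omega
  choose b b1 b2 using fun x : Place k K => bump x (S.erase x) (Finset.notMem_erase x S) s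
  refine ⟨∑ y ∈ S, b y * a y, fun x hx => ?_⟩
  rw [← Finset.add_sum_erase _ _ hx, add_sub_right_comm, ← sub_one_mul]
  refine x.v.map_add_lt ?_ (x.v.map_sum_lt exp_ne_zero fun y hy => ?_) <;> rw [map_mul]
  · exact (mul_le_mul_left (b1 x) _).trans_lt (hs x hx x hx)
  · have := Finset.mem_erase.1 hy
    exact (mul_le_mul_left (b2 y x (Finset.mem_erase.2 ⟨this.1.symm, hx⟩)) _).trans_lt
      (hs x hx y this.2)

omit [FF k K] in
theorem approx_ord (S : Finset (Place k K)) (m : Place k K → ℤ) :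
    ∃ f : K, f ≠ 0 ∧ ∀ x ∈ S, x.ord f = m x := by
  rcases S.eq_empty_or_nonempty with rfl | ⟨x0, hx0⟩
  · exact ⟨1, one_ne_zero, by simp⟩
  choose a a0 ha using fun x : Place k K => x.exists_ord (m x)
  obtain ⟨f, hf⟩ := approx_v S a fun x => -m x
  have h : ∀ x ∈ S, f ≠ 0 ∧ x.ord f = m x := fun x hx => by
    have h1 := Place.ord_add_of_lt (x := x) (g := f - a x) (a0 x)
      ((Place.v_lt_exp.1 (hf x hx)).imp_right fun h => by rw [ha]; omega)
    rwa [add_sub_cancel, ha] at h1
  exact ⟨f, (h x0 hx0).1, fun x hx => (h x hx).2⟩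

omit [FF k K] in
/-- the zeros of `t`, counted with multiplicity, are at most `[K : k(t)]` -/
theorem sum_ord_le {t : K} [FiniteDimensional k⟮t⟯ K] (S : Finset (Place k K))
    (hS : ∀ x ∈ S, 0 < x.ord t) : ∑ x ∈ S, x.ord t ≤ Module.finrank k⟮t⟯ K := by
  classical
  rcases S.eq_empty_or_nonempty with rfl | ⟨x0, hx0⟩
  · simp only [Finset.sum_empty, Nat.cast_nonneg]
  have h0 := Place.ne_zero_of_ord (hS x0 hx0).ne'
  by_contra hn
  choose z z0 hz using fun i : (Σ x : S, Fin (x.1.ord t).toNat) =>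
    approx_ord S fun y => if y = i.1.1 then (i.2 : ℕ) else y.ord t
  obtain ⟨c, q, hj, e⟩ := dep (k := k) h0 z (by
    have : ((Fintype.card (Σ x : S, Fin (x.1.ord t).toNat) : ℕ) : ℤ) = ∑ x ∈ S, x.ord t := by
      rw [Fintype.card_sigma, ← Finset.sum_coe_sort S]
      push_cast
      exact Finset.sum_congr rfl fun x _ => by
        rw [Fintype.card_fin, Int.toNat_of_nonneg (hS x x.2).le]
    omega)
  obtain ⟨j, hj1, hj2⟩ := Finset.exists_min_image (Finset.univ.filter fun j => c j ≠ 0)
    (fun j => (j.2 : ℕ)) (by obtain ⟨j, hj⟩ := hj; exact ⟨j, by simpa only [ne_eq, Finset.mem_filter, Finset.mem_univ, true_and] using hj⟩)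
  have hcj : c j ≠ 0 := by simpa only [ne_eq, Finset.mem_filter, Finset.mem_univ, true_and] using hj1
  obtain ⟨⟨x, hx⟩, j⟩ := j
  have hxt := hS x hx
  have hjt : ((j : ℕ) : ℤ) < x.ord t := by have := j.2; simp only at this; omega
  have h5 := w_dep x.v x.const (Place.v_le_one.2 hxt.le) z (fun i => by
    rw [Place.v_le_one, hz i x hx]; split_ifs <;> omega) q
  have h6 : x.ord (z ⟨⟨x, hx⟩, j⟩) = (j : ℕ) := by rw [hz _ x hx, if_pos rfl]
  rw [← e, x.v.map_sum_eq_of_lt (Finset.mem_univ ⟨⟨x, hx⟩, j⟩) fun i hi => ?_, map_mul,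
    Place.v_const hcj, one_mul, Place.v_eq (z0 _), Place.v_eq h0, exp_le_exp] at h5
  · omega
  · rw [map_mul, map_mul, Place.v_const hcj, one_mul, Place.v_eq (z0 ⟨⟨x, hx⟩, j⟩), h6]
    by_cases hci : c i = 0
    · simp only [hci, map_zero, zero_mul, exp_neg, inv_pos, exp_pos]
    rw [Place.v_const hci, one_mul, Place.v_eq (z0 i), exp_lt_exp, hz i x hx]
    obtain ⟨⟨y, hy⟩, i⟩ := i
    split_ifs with h
    · simp only at h
      subst h
      have h7 : (j : ℕ) ≤ i := hj2 ⟨⟨x, hx⟩, i⟩ (by simpa only [ne_eq, Finset.mem_filter, Finset.mem_univ, true_and] using hci)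
      have h8 : (i : ℕ) ≠ j := fun e => by
        rw [Fin.val_inj] at e; subst e; simp only [Finset.mem_sdiff, Finset.mem_univ, Finset.mem_singleton, not_true_eq_false, and_false] at hi
      simp only; omega
    · omega

theorem finite_zeros (f : K) : {x : Place k K | 0 < x.ord f}.Finite := by
  by_contra hn
  obtain ⟨x, hx⟩ := Set.Infinite.nonempty hn
  have := fin_adjoin (transc (Place.not_const (x := x) (f := f) (ne_of_gt hx)))
  obtain ⟨S, h1, h2⟩ := Set.Infinite.exists_subset_card_eq hn (Module.finrank k⟮f⟯ K + 1)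
  have h3 := sum_ord_le S fun x hx => h1 hx
  have h4 := Finset.card_nsmul_le_sum S (fun x => x.ord f) 1 fun x hx => h1 hx
  rw [h2] at h4
  simp at h4
  omega

theorem finite_supp (f : K) : (Function.support fun x : Place k K => x.ord f).Finite :=
  ((finite_zeros (k := k) f).union (finite_zeros (k := k) f⁻¹)).subset fun x hx => by
    have : x.ord f ≠ 0 := hx
    simp only [Set.mem_union, Set.mem_ofPred_eq, Place.ord_inv]; omega

end RR

end Pool.Agent.MP_855f4c_ag.WD

end

section

attribute [-instance] IntermediateField.isAlgebraic_tower_top SubmoduleClass.module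
  SMulZeroClass.toSMul IntermediateField.isSeparable_tower_top
  ContinuousMonoidHom.instCoeOutOfMonoidHomClassOfContinuousMapClass SubalgebraClass.toAlgebra
  Algebra.FiniteType.of_finitePresentation Algebra.Unramified.finiteType
  MonTypeEquivalenceMon.monMonoid LieAlgebra.toModule RightPreLieAlgebra.toModule
  LeftPreLieAlgebra.toModule LieRinehartAlgebra.toIsScalarTower NormedSpace.toModule
  instCoeOTCOfCoeTC SetLike.GradeZero.instCommRing IdemSemiring.toSemiring SetLike.GradeZero.instRing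
  RingConeClass.toSubsemiringClass SetLike.GradeZero.instCommSemiring Torsor.toMulAction
  CoheytingAlgebra.toOrderTop LinearOrderedAddCommGroupWithTop.toOrderTop SemigroupAction.toSMul
  IsometryClass.instCoeOutIsometryEquiv instCharZeroOfIsSemireal NormMulClass.toNoZeroDivisors
  NormedAlgebra.toAlgebra ContinuousAddMonoidHom.instCoeOutOfAddMonoidHomClassOfContinuousMapClass
  HomeomorphClass.instCoeOutHomeomorph

namespace Pool.Agent.MP_855f4c_ag.WD

open WithZero
open scoped IntermediateField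

variable {k K : Type} [Field k] [Field K] [Algebra k K]

/-! Row PL: finiteness of `K/k(a)`, valuation rings are places, separating elements. -/

theorem FF.transc [FF k K] {a : K} (ha : a ∉ Set.range (algebraMap k K)) :
    Transcendental k a := RR.transc ha

theorem FF.fin [FF k K] {a : K} (ha : a ∉ Set.range (algebraMap k K)) :
    FiniteDimensional k⟮a⟯ K := RR.fin_adjoin (RR.transc ha)

theorem FF.exists_not_const (k K : Type) [Field k] [Field K] [Algebra k K] [FF k K] :
    ∃ a : K, a ∉ Set.range (algebraMap k K) := by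
  obtain ⟨t, ht, -⟩ := FF.ex (k := k) (K := K)
  exact ⟨t, fun ⟨c, hc⟩ => ht (hc ▸ isAlgebraic_algebraMap c)⟩

theorem FF.essFiniteType (k K : Type) [Field k] [Field K] [Algebra k K] [FF k K] :
    Algebra.EssFiniteType k K := by
  obtain ⟨t, -, ht⟩ := FF.ex (k := k) (K := K)
  have : Algebra.EssFiniteType k k⟮t⟯ :=
    IntermediateField.essFiniteType_iff.2 (IntermediateField.fg_adjoin_of_finite (by simp))
  exact .comp k k⟮t⟯ K

namespace PL

/-- `k(a)` and `k(φ a)` -/
noncomputable def eqv {K' : Type} [Field K'] [Algebra k K'] (φ : K →ₐ[k] K') (a : K) :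
    k⟮a⟯ ≃ₐ[k] k⟮φ a⟯ :=
  (IntermediateField.equivMap _ φ).trans (IntermediateField.equivOfEq (by
    rw [IntermediateField.adjoin_map, Set.image_singleton]))

lemma fin_iff {K' : Type} [Field K'] [Algebra k K'] [Algebra K K'] [IsScalarTower k K K'] (a : K) :
    FiniteDimensional k⟮a⟯ K' ↔ FiniteDimensional k⟮algebraMap K K' a⟯ K' :=
  ⟨fun _ => Module.Finite.of_equiv_equiv (A₁ := k⟮a⟯) (B₁ := K')
      (eqv (IsScalarTower.toAlgHom k K K') a).toRingEquiv (RingEquiv.refl K') (by ext x; rfl),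
    fun _ => Module.Finite.of_equiv_equiv (A₁ := k⟮algebraMap K K' a⟯) (B₁ := K')
      (eqv (IsScalarTower.toAlgHom k K K') a).symm.toRingEquiv (RingEquiv.refl K') (by
        ext x
        obtain ⟨y, rfl⟩ := (eqv (IsScalarTower.toAlgHom k K K') a).surjective x
        change algebraMap k⟮a⟯ K' ((eqv (IsScalarTower.toAlgHom k K K') a).symm
          (eqv (IsScalarTower.toAlgHom k K K') a y)) = _
        rw [AlgEquiv.symm_apply_apply]; rfl)⟩

lemma not_const {K' : Type} [Field K'] [Algebra k K'] (φ : K →ₐ[k] K') {a : K}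
    (h : a ∉ Set.range (algebraMap k K)) : φ a ∉ Set.range (algebraMap k K') :=
  fun ⟨c, hc⟩ => h ⟨c, φ.injective (by
    change φ (algebraMap k K c) = φ a
    rw [φ.commutes, hc])⟩

lemma mem_of_adjoin (F : Type) [Field F] [Algebra F K] (S : Subfield K)
    (hF : ∀ c : F, algebraMap F K c ∈ S) {t : K} (ht : t ∈ S) {a : K} (ha : a ∈ F⟮t⟯) : a ∈ S :=
  (IntermediateField.adjoin_simple_le_iff (K := S.toIntermediateField hF)).2 ht ha

lemma exists_sep [FF k K] : ∃ s : K, Algebra.IsSeparable k⟮s⟯ K := by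
  have := FF.closed (k := k) (K := K)
  have := FF.essFiniteType k K
  obtain ⟨s, hs, h⟩ := exists_isTranscendenceBasis_and_isSeparable_of_perfectField k K
  obtain ⟨t, ht, hf⟩ := FF.ex (k := k) (K := K)
  have h1 : IsTranscendenceBasis k (fun _ : Unit => t) := by
    rw [AlgebraicIndependent.isTranscendenceBasis_iff_isAlgebraic
      (algebraicIndependent_unique_type_iff.2 ht), ← IntermediateField.isAlgebraic_adjoin_iff_top,
      Set.range_const]
    infer_instance
  have h2 : s.card = 1 := by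
    have := hs.cardinalMk_eq h1
    simpa only [Cardinal.mk_fintype, Fintype.card_coe, Fintype.card_unique, Nat.cast_one, Nat.cast_eq_one] using this
  obtain ⟨a, rfl⟩ := Finset.card_eq_one.1 h2
  rw [Finset.coe_singleton] at h
  exact ⟨a, h⟩

open Polynomial in
/-- `K = K^p(t)` for `t` not a `p`-th power -/
lemma gen [FF k K] (p : ℕ) [hp : Fact p.Prime] [CharP k p] {t : K} (ht : ∀ b : K, b ^ p ≠ t)
    (S : Subfield K) (h1 : t ∈ S) (h2 : ∀ b : K, b ^ p ∈ S) (a : K) : a ∈ S := by
  have := FF.closed (k := k) (K := K)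
  have : CharP K p := charP_of_injective_algebraMap (algebraMap k K).injective p
  obtain ⟨s, hs⟩ := exists_sep (k := k) (K := K)
  let P : Subfield K := (frobenius K p).fieldRange
  have hP : ∀ b : K, b ^ p ∈ P := fun b => ⟨b, rfl⟩
  have hi : ∀ b : K, aeval b (X ^ p - C (⟨b ^ p, hP b⟩ : P)) = 0 := fun b => by
    simp [Subfield.algebraMap_ofSubfield]
  have hm : ∀ b : K, (X ^ p - C (⟨b ^ p, hP b⟩ : P)).Monic := fun b =>
    monic_X_pow_sub_C _ hp.out.ne_zero
  have hint : ∀ b : K, IsIntegral P b := fun b => ⟨_, hm b, hi b⟩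
  have h3 : P⟮s⟯ = ⊤ := by
    refine eq_top_iff.2 fun b _ => ?_
    have : CharP k⟮s⟯ p := charP_of_injective_algebraMap (algebraMap k k⟮s⟯).injective p
    have h4 : b ∈ k⟮s⟯⟮b ^ p⟯ := by
      rw [← IntermediateField.adjoin_simple_eq_adjoin_pow_expChar_of_isSeparable' k⟮s⟯ K b p]
      exact IntermediateField.mem_adjoin_simple_self _ b
    refine mem_of_adjoin k⟮s⟯ P⟮s⟯.toSubfield (fun c => ?_) (P⟮s⟯.algebraMap_mem ⟨_, hP b⟩) h4
    refine mem_of_adjoin k P⟮s⟯.toSubfield (fun c => ?_)
      (IntermediateField.mem_adjoin_simple_self _ s) c.2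
    obtain ⟨d, rfl⟩ := IsAlgClosed.exists_pow_nat_eq c hp.out.pos
    rw [map_pow]
    exact P⟮s⟯.algebraMap_mem ⟨_, hP _⟩
  have h5 : Module.finrank P P⟮s⟯ ≤ p := by
    rw [IntermediateField.adjoin.finrank (hint s)]
    exact (natDegree_le_of_dvd (minpoly.dvd P s (hi s)) (hm s).ne_zero).trans
      natDegree_X_pow_sub_C.le
  have h6 : Module.finrank P P⟮t⟯ = p := by
    rw [IntermediateField.adjoin.finrank (hint t), ← minpoly.eq_of_irreducible_of_monic
      (X_pow_sub_C_irreducible_of_prime hp.out ?_) (hi t) (hm t), natDegree_X_pow_sub_C]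
    rintro ⟨_, b, rfl⟩ e
    exact ht b (frobenius_inj K p (congrArg Subtype.val e))
  have : FiniteDimensional P P⟮s⟯ := IntermediateField.adjoin.finiteDimensional (hint s)
  have h7 : P⟮t⟯ = P⟮s⟯ :=
    IntermediateField.eq_of_le_of_finrank_le (h3 ▸ le_top) (h6 ▸ h5)
  refine mem_of_adjoin P S ?_ h1 (by rw [h7, h3]; trivial)
  rintro ⟨_, b, rfl⟩
  exact h2 b

end PL

/-- a finite extension of a function field -/
theorem FF.of_finite (k K K' : Type) [Field k] [Field K] [Algebra k K] [FF k K] [Field K']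
    [Algebra k K'] [Algebra K K'] [IsScalarTower k K K'] [FiniteDimensional K K'] : FF k K' := by
  obtain ⟨t, ht, hf⟩ := FF.ex (k := k) (K := K)
  exact ⟨FF.closed (K := K), algebraMap K K' t,
    (transcendental_algebraMap_iff (algebraMap K K').injective).2 ht,
    (PL.fin_iff t).1 (.trans k⟮t⟯ K K')⟩

theorem FF.finite_ext (k K K' : Type) [Field k] [Field K] [Algebra k K] [FF k K] [Field K']
    [Algebra k K'] [FF k K'] [Algebra K K'] [IsScalarTower k K K'] : FiniteDimensional K K' := by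
  obtain ⟨a, ha⟩ := FF.exists_not_const k K
  have h1 : FiniteDimensional k⟮a⟯ K' :=
    (PL.fin_iff a).2 (FF.fin (PL.not_const (IsScalarTower.toAlgHom k K K') ha))
  exact .right k⟮a⟯ K K'

theorem exists_place_subring [FF k K] (V : ValuationSubring K)
    (hc : ∀ c : k, algebraMap k K c ∈ V) (hV : V ≠ ⊤) :
    ∃ x : Place k K, ∀ f, 0 ≤ x.ord f ↔ f ∈ V := by
  obtain ⟨f, hf⟩ : ∃ f : K, f ∉ V := by
    by_contra hn
    push Not at hn
    exact hV (eq_top_iff.2 fun f _ => hn f)
  have h0 : f ≠ 0 := fun e => hf (e ▸ V.zero_mem)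
  obtain ⟨x, hx, -⟩ := RR.place_of_valuationSubring (k := k) V hc (inv_ne_zero h0)
    (V.inv_mem_nonunits_iff.2 (.inr hf))
  exact ⟨x, hx⟩

/-- a non-trivial valuation that is trivial on `k` is a place -/
theorem exists_place [FF k K] {Γ : Type*} [LinearOrderedCommGroupWithZero Γ] (w : Valuation K Γ)
    (hc : ∀ c : k, w (algebraMap k K c) ≤ 1) (hw : ∃ f, 1 < w f) :
    ∃ x : Place k K, ∀ f, 0 ≤ x.ord f ↔ w f ≤ 1 := by
  obtain ⟨f, hf⟩ := hw
  exact exists_place_subring w.valuationSubring hc fun e =>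
    hf.not_ge ((w.mem_valuationSubring_iff f).1 (e ▸ trivial))

/-- Chevalley: a place that is regular on `R` and vanishes on `I` -/
theorem exists_place_dom [FF k K] (R : Subalgebra k K) (I : Ideal R) (h1 : I ≠ ⊤) (h0 : I ≠ ⊥) :
    ∃ x : Place k K, (∀ a ∈ R, 0 ≤ x.ord a) ∧ ∀ a ∈ I, x.v (a : K) < 1 :=
  RR.exists_place_dom R I h1 h0

/-- a uniformiser is separating -/
theorem sep_of_ord [FF k K] {x : Place k K} {t : K} (ht : x.ord t = 1) :
    Algebra.IsSeparable k⟮t⟯ K := by
  have : FiniteDimensional k⟮t⟯ K := FF.fin (Place.not_const (x := x) (by omega))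
  obtain _ | ⟨p, hp, _⟩ := CharP.exists' k
  · have : CharZero k⟮t⟯ := algebraRat.charZero _
    infer_instance
  have : CharP K p := charP_of_injective_algebraMap (algebraMap k K).injective p
  let L := separableClosure k⟮t⟯ K
  have : CharP L p := charP_of_injective_algebraMap (algebraMap k L).injective p
  have h1 : ∀ n : ℕ, (∀ a : K, a ^ p ^ n ∈ L) → ∀ a : K, a ∈ L := fun n => by
    induction n with
    | zero => simp
    | succ n ih =>
      refine fun h => ih (PL.gen (k := k) p (t := t) (fun b e => ?_)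
        (L.toSubfield.comap (iterateFrobenius K p n)) ?_ fun b => ?_)
      · have h2 : (p : ℤ) * x.ord b = 1 := by rw [← Place.ord_pow, e, ht]
        exact hp.out.ne_one (by exact_mod_cast Int.eq_one_of_mul_eq_one_right (by omega) h2)
      · exact pow_mem (L.algebraMap_mem ⟨t, IntermediateField.mem_adjoin_simple_self k t⟩) _
      · change (b ^ p) ^ p ^ n ∈ L
        rw [← pow_mul, ← pow_succ']
        exact h b
  rw [← separableClosure.eq_top_iff]
  refine eq_top_iff.2 fun a _ => h1 (IsPurelyInseparable.exponent L K) (fun b => ?_) a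
  obtain ⟨c, hc⟩ := IsPurelyInseparable.exponent_def' L (L := K) p b
  exact hc ▸ c.2

end Pool.Agent.MP_855f4c_ag.WD

end

section

namespace Pool.Agent.MP_855f4c_ag.WD

open WithZero
open scoped IntermediateField

variable {k K : Type} [Field k] [Field K] [Algebra k K]

/-! Row AP: weak approximation (no `FF` needed). -/

theorem exists_ord_eq (S : Finset (Place k K)) (m : Place k K → ℤ) :
    ∃ f : K, f ≠ 0 ∧ ∀ x ∈ S, x.ord f = m x := RR.approx_ord S m

end Pool.Agent.MP_855f4c_ag.WD

end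

section

attribute [-instance] Finsupp.instNonUnitalRing IsPurelyInseparable.isIntegral
  SemilinearMapClass.toAddHomClass IsAddCyclic.isAddCommutative Algebra.WeaklyEtale.flat
  Algebra.Smooth.flat RKHS.instFunLike NeZero.charZero_one IdemSemiring.toSemiring
  CommRing.Pic.instFreeOfSubsingleton Algebra.IsFiniteSplit.instFree
  DistribMulActionSemiHomClass.toAddMonoidHomClass SetLike.GradeZero.instSemiring
  CompletePartialOrder.toPartialOrder Finsupp.tsub AddQuantale.instAddLeftMono NormedSpace.toModule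
  instCoeOTCOfCoeTC LieAlgebra.toModule
  ContinuousMonoidHom.instCoeOutOfMonoidHomClassOfContinuousMapClass RightPreLieAlgebra.toModule
  LeftPreLieAlgebra.toModule instSMulZeroClass Algebra.IsQuadraticExtension.toFree
  NormMulClass.toNoZeroDivisors AddQuantale.instAddRightMono

namespace Pool.Agent.MP_855f4c_ag.WD

open WithZero
open scoped IntermediateField

variable {k K : Type} [Field k] [Field K] [Algebra k K]

/-! Row DG: finiteness of supports, `ℓ(D)`, the degree of a principal divisor; `Pic`. -/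

variable [FF k K] {f g : K} {D E : Div k K}

theorem sum_ord_le (a : K) (S : Finset (Place k K)) (h : ∀ x ∈ S, 0 < x.ord a) :
    ∑ x ∈ S, x.ord a ≤ Module.finrank k⟮a⟯ K := by
  rcases S.eq_empty_or_nonempty with rfl | ⟨x, hx⟩
  · simp only [Finset.sum_empty, Nat.cast_nonneg]
  have := RR.fin_adjoin (RR.transc (Place.not_const (h x hx).ne'))
  exact RR.sum_ord_le S h

theorem finite_ord (f : K) : (Function.support fun x : Place k K => x.ord f).Finite :=
  RR.finite_supp f

@[simp] theorem dv_apply (f : K) (x : Place k K) : dv k f x = x.ord f := by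
  rw [dv, dif_pos (finite_ord f)]; rfl
@[simp] lemma dv_zero : dv k (0 : K) = 0 := by ext; simp
@[simp] lemma dv_one : dv k (1 : K) = 0 := by ext; simp
@[simp] lemma dv_const (c : k) : dv k (algebraMap k K c) = 0 := by ext; simp
lemma dv_mul (hf : f ≠ 0) (hg : g ≠ 0) : dv k (f * g) = dv k f + dv k g := by
  ext; simp [Place.ord_mul hf hg]
@[simp] lemma dv_inv : dv k f⁻¹ = -dv k f := by ext; simp
@[simp] lemma dv_neg : dv k (-f) = dv k f := by ext; simp
lemma dv_div (hf : f ≠ 0) (hg : g ≠ 0) : dv k (f / g) = dv k f - dv k g := by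
  ext; simp [Place.ord_div hf hg]
@[simp] lemma dv_pow (n : ℕ) : dv k (f ^ n) = n • dv k f := by ext; simp
@[simp] lemma dv_zpow (n : ℤ) : dv k (f ^ n) = n • dv k f := by ext; simp
lemma dv_smul {c : k} (hc : c ≠ 0) : dv k (c • f) = dv k f := by ext; simp [Place.ord_smul hc]
lemma dv_prod {ι : Type*} (s : Finset ι) (F : ι → K) (h : ∀ i ∈ s, F i ≠ 0) :
    dv k (∏ i ∈ s, F i) = ∑ i ∈ s, dv k (F i) := by
  ext; simp [Place.ord_prod s F h, Finsupp.finsetSum_apply]
lemma mem_LL' : f ∈ LL D ↔ f = 0 ∨ 0 ≤ dv k f + D := by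
  rw [mem_LL]; simp only [Finsupp.le_def, Finsupp.coe_zero, Pi.zero_apply, Finsupp.coe_add, Pi.add_apply, dv_apply]
lemma Off.symm (h : Off f (dv k g)) (hg : g ≠ 0) : Off g (dv k f) :=
  ⟨hg, fun x hx => by by_contra h0; exact hx (by simpa using h.2 x (by simpa using h0))⟩

theorem exists_pole (h : f ∉ Set.range (algebraMap k K)) : ∃ x : Place k K, x.ord f < 0 :=
  RR.exists_pole h
theorem exists_zero (h : f ∉ Set.range (algebraMap k K)) : ∃ x : Place k K, 0 < x.ord f :=
  RR.exists_zero h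
theorem const_of_reg (h : ∀ x : Place k K, 0 ≤ x.ord f) : f ∈ Set.range (algebraMap k K) :=
  RR.const_of_reg h
theorem const_of_dv (h : dv k f = 0) : f ∈ Set.range (algebraMap k K) :=
  const_of_reg fun x => by rw [← dv_apply, h]; exact le_rfl
/-- two functions with the same divisor differ by a constant -/
theorem eq_smul_of_dv (hf : f ≠ 0) (hg : g ≠ 0) (h : dv k f = dv k g) :
    ∃ c : k, c ≠ 0 ∧ f = c • g := by
  obtain ⟨c, hc⟩ := const_of_dv (k := k) (f := f / g) (by rw [dv_div hf hg, h, sub_self])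
  refine ⟨c, fun e => div_ne_zero hf hg (by rw [← hc, e, map_zero]), ?_⟩
  rw [Algebra.smul_def, hc, div_mul_cancel₀ _ hg]
instance : Infinite (Place k K) := by
  have := FF.closed (k := k) (K := K)
  obtain ⟨t, ht, -⟩ := FF.ex (k := k) (K := K)
  have h1 : ∀ c : k, ∃ x : Place k K, 0 < x.ord (t - algebraMap k K c) := fun c =>
    exists_zero fun ⟨d, hd⟩ => ht (by
      rw [← sub_add_cancel t (algebraMap k K c), ← hd, ← map_add]; exact isAlgebraic_algebraMap _)
  choose x hx using h1
  refine Infinite.of_injective x fun c d h => ?_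
  have h2 := (Place.val_eq (Place.v_lt_one.2 (.inr (hx c)))).2
  have h3 := (Place.val_eq (Place.v_lt_one.2 (.inr (hx d)))).2
  rw [← h2, ← h3, h]

omit [FF k K] in
lemma DG.step (D : Div k K) (x : Place k K) [FiniteDimensional k (LL D)] :
    FiniteDimensional k (LL (D + Finsupp.single x 1)) ∧ ell (D + Finsupp.single x 1) ≤ ell D + 1 := by
  classical
  obtain ⟨t, t0, ht⟩ := x.exists_ord (D x + 1)
  have hr : ∀ f : LL (D + Finsupp.single x 1), 0 ≤ x.ord (f.1 * t) := fun f => by
    by_cases hf : f.1 = 0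
    · simp [hf]
    have := (mem_LL.1 f.2).resolve_left hf x
    rw [Place.ord_mul hf t0, ht]
    simpa only [ge_iff_le, Finsupp.coe_add, Pi.add_apply, Finsupp.single_eq_same] using this
  let φ : LL (D + Finsupp.single x 1) →ₗ[k] k :=
    { toFun := fun f => x.val (f.1 * t)
      map_add' := fun f g => by
        rw [Submodule.coe_add, add_mul, Place.val_add (hr f) (hr g)]
      map_smul' := fun c f => by
        rw [Submodule.coe_smul, smul_mul_assoc, Place.val_smul (hr f)]; rfl }
  have hle : LL D ≤ LL (D + Finsupp.single x 1) :=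
    LL_mono (le_add_of_nonneg_right (Finsupp.single_nonneg.2 zero_le_one))
  have hk : LinearMap.ker φ ≤ (LL D).comap (LL (D + Finsupp.single x 1)).subtype := fun f hf => by
    by_cases h0 : f.1 = 0
    · exact mem_LL.2 (.inl h0)
    have h1 := ((Place.val_eq_zero (hr f)).1 hf).resolve_left (mul_ne_zero h0 t0)
    rw [Place.ord_mul h0 t0, ht] at h1
    refine mem_LL.2 (.inr fun y => ?_)
    by_cases hy : y = x
    · subst hy
      change 0 ≤ y.ord f.1 + D y
      omega
    · simpa only [Submodule.subtype_apply, Finsupp.coe_add, Pi.add_apply, ne_eq, hy, not_false_eq_true, Finsupp.single_eq_of_ne, add_zero] using (mem_LL.1 f.2).resolve_left h0 y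
  have e := Submodule.comapSubtypeEquivOfLe hle
  have : FiniteDimensional k ((LL D).comap (LL (D + Finsupp.single x 1)).subtype) :=
    Module.Finite.equiv e.symm
  have := Submodule.finiteDimensional_of_le hk
  have hf : FiniteDimensional k (LL (D + Finsupp.single x 1)) :=
    ⟨Submodule.fg_of_fg_map_of_fg_inf_ker φ (IsNoetherian.noetherian _) (by
      rw [top_inf_eq]; exact Module.Finite.iff_fg.1 inferInstance)⟩
  refine ⟨hf, ?_⟩
  have h1 := φ.finrank_range_add_finrank_ker
  have h2 := Submodule.finrank_mono hk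
  have h3 := (LinearMap.range φ).finrank_le
  rw [e.finrank_eq] at h2
  rw [Module.finrank_self] at h3
  unfold ell
  omega

omit [FF k K] in
lemma DG.steps (D : Div k K) [FiniteDimensional k (LL D)] : ∀ (n : ℕ) (F : Div k K), 0 ≤ F →
    deg F = n → FiniteDimensional k (LL (D + F)) ∧ ell (D + F) ≤ ell D + n
  | 0, F, h, hn => by
    rw [← eq_of_le_of_deg h (by rw [hn]; simp), add_zero]
    exact ⟨inferInstance, le_rfl⟩
  | n + 1, F, h, hn => by
    classical
    obtain ⟨x, hx⟩ : ∃ x, F x ≠ 0 := by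
      by_contra h0
      push Not at h0
      rw [show F = 0 from Finsupp.ext h0, map_zero] at hn
      omega
    obtain ⟨h1, h2⟩ := DG.steps D n (F - Finsupp.single x 1) (fun y => by
      have h3 : (0 : ℤ) ≤ F y := h y
      by_cases hy : y = x
      · subst hy; simp; omega
      · simpa only [Finsupp.coe_zero, Pi.zero_apply, Finsupp.coe_sub, Pi.sub_apply, ne_eq, hy, not_false_eq_true, Finsupp.single_eq_of_ne, sub_zero, ge_iff_le] using h3) (by rw [map_sub, hn, deg_single]; push_cast; ring)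
    have h3 := DG.step (D + (F - Finsupp.single x 1)) x
    rw [add_assoc, sub_add_cancel] at h3
    exact ⟨h3.1, by omega⟩

lemma LL_zero : LL (0 : Div k K) = Submodule.span k {1} := by
  refine le_antisymm (fun f hf => ?_) (Submodule.span_le.2 ?_)
  · rcases mem_LL.1 hf with rfl | h
    · exact zero_mem _
    obtain ⟨c, rfl⟩ := const_of_reg (k := k) (f := f) fun x => by simpa only [Finsupp.coe_zero, Pi.zero_apply, add_zero] using h x
    rw [Algebra.algebraMap_eq_smul_one]
    exact Submodule.smul_mem _ _ (Submodule.mem_span_singleton_self _)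
  · rintro _ rfl
    exact mem_LL.2 (.inr (by simp))

instance (D : Div k K) : FiniteDimensional k (LL D) := by
  have : FiniteDimensional k (LL (0 : Div k K)) := by rw [LL_zero]; infer_instance
  have h := (DG.steps (0 : Div k K) _ D⁺ (posPart_nonneg D)
    (Int.toNat_of_nonneg (deg_nonneg (posPart_nonneg D))).symm).1
  rw [zero_add] at h
  exact Submodule.finiteDimensional_of_le (LL_mono (le_posPart D))
theorem ell_zero : ell (0 : Div k K) = 1 := by
  rw [ell, LL_zero, finrank_span_singleton one_ne_zero]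
theorem ell_le_of_le (h : D ≤ E) : (ell E : ℤ) + deg D ≤ ell D + deg E := by
  have h0 := Int.toNat_of_nonneg (deg_nonneg (sub_nonneg.2 h))
  have h1 := (DG.steps D _ (E - D) (sub_nonneg.2 h) h0.symm).2
  rw [add_sub_cancel] at h1
  rw [map_sub] at h0 h1
  omega
theorem ell_add_dv (hf : f ≠ 0) : ell (D + dv k f) = ell D := by
  have h : ∀ {f : K} {D : Div k K}, f ≠ 0 → ell (D + dv k f) ≤ ell D := fun {f D} hf => by
    refine LinearMap.finrank_le_finrank_of_injective (f := (LinearMap.mulRight k f).restrict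
      (p := LL (D + dv k f)) (q := LL D) fun g hg => ?_) fun a b e => ?_
    · by_cases h0 : g = 0
      · simp [h0]
      refine mem_LL'.2 (.inr ?_)
      rw [LinearMap.mulRight_apply, dv_mul h0 hf, add_assoc, add_comm (dv k f)]
      exact (mem_LL'.1 hg).resolve_left h0
    · exact Subtype.ext (mul_right_cancel₀ hf (congrArg Subtype.val e))
  refine le_antisymm (h hf) ?_
  simpa using h (D := D + dv k f) (inv_ne_zero hf)
omit [FF k K] in
lemma DG.neg_apply (D : Div k K) (x : Place k K) : D⁻ x = max (-D x) 0 := rfl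
omit [FF k K] in
lemma DG.pos_apply (D : Div k K) (x : Place k K) : D⁺ x = max (D x) 0 := rfl
lemma ell_le_deg (h : 0 ≤ D) : (ell D : ℤ) ≤ deg D + 1 := by
  have := ell_le_of_le h
  rw [ell_zero, map_zero] at this
  omega
/-- Riemann's estimate along the multiples of a pole divisor -/
theorem exists_ell_ge (a : K) (h : a ∉ Set.range (algebraMap k K)) : ∃ γ : ℕ, ∀ m : ℕ,
    (m : ℤ) * Module.finrank k⟮a⟯ K ≤ ell (m • (dv k a)⁻) + γ := by
  have ht := RR.transc h
  have := RR.fin_adjoin ht
  have h0 : a ≠ 0 := fun e => h ⟨0, by rw [e, map_zero]⟩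
  let u := Module.finBasis k⟮a⟯ K
  let C : Div k K := ∑ j, (dv k (u j))⁻
  have hC : 0 ≤ C := Finset.sum_nonneg fun j _ => negPart_nonneg _
  refine ⟨(deg C).toNat, fun m => ?_⟩
  have h1 : LinearIndependent k fun i : ℕ => (IntermediateField.AdjoinSimple.gen k a) ^ i := by
    refine LinearIndependent.of_comp (k⟮a⟯.val.toLinearMap) ?_
    have := (Polynomial.basisMonomials k).linearIndependent.map' (Polynomial.aeval a).toLinearMap
      (LinearMap.ker_eq_bot.2 (transcendental_iff_injective.1 ht))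
    have e : (k⟮a⟯.val.toLinearMap ∘ fun i : ℕ => (IntermediateField.AdjoinSimple.gen k a) ^ i) =
        (Polynomial.aeval a).toLinearMap ∘ Polynomial.basisMonomials k := by
      funext i
      simp
    rw [e]
    exact this
  have h2 := linearIndependent_smul (h1.comp (Fin.val (n := m)) Fin.val_injective)
    u.linearIndependent
  have h3 : ∀ p : Fin m × Fin (Module.finrank k⟮a⟯ K), a ^ (p.1 : ℕ) * u p.2 ∈
      LL (m • (dv k a)⁻ + C) := fun p => by
    refine mem_LL.2 (.inr fun x => ?_)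
    have h4 : (dv k (u p.2))⁻ x ≤ C x :=
      Finset.single_le_sum (f := fun j => (dv k (u j))⁻) (fun j _ => negPart_nonneg _)
        (Finset.mem_univ p.2) x
    have h5 : ((p.1 : ℕ) : ℤ) ≤ m := by exact_mod_cast p.1.2.le
    rw [Place.ord_mul (pow_ne_zero _ h0) (u.ne_zero _), Place.ord_pow, Finsupp.add_apply,
      Finsupp.smul_apply, DG.neg_apply, dv_apply, nsmul_eq_mul]
    rw [DG.neg_apply, dv_apply] at h4
    have h6 := le_max_left (-x.ord (u p.2)) 0
    have h7 := le_max_left (-x.ord a) 0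
    have h8 := le_max_right (-x.ord a) 0
    have h9 : (0 : ℤ) ≤ (p.1 : ℕ) := Int.natCast_nonneg _
    nlinarith only [h4, h5, h6, h7, h8]
  have h4 : LinearIndependent k fun p => (⟨_, h3 p⟩ : LL (m • (dv k a)⁻ + C)) :=
    LinearIndependent.of_comp (Submodule.subtype _) h2
  have h5 := h4.fintype_card_le_finrank
  rw [Fintype.card_prod, Fintype.card_fin, Fintype.card_fin] at h5
  have h6 := ell_le_of_le (le_add_of_nonneg_right hC : m • (dv k a)⁻ ≤ _)
  have h7 : ((m * Module.finrank k⟮a⟯ K : ℕ) : ℤ) ≤ ell (m • (dv k a)⁻ + C) := by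
    exact_mod_cast h5
  rw [map_add] at h6
  rw [Int.toNat_of_nonneg (deg_nonneg hC)]
  push_cast at h7
  omega
lemma DG.deg_pos (a : K) (S : Finset (Place k K)) (hS : ∀ x, x ∈ S ↔ 0 < x.ord a) :
    deg (dv k a)⁺ = ∑ x ∈ S, x.ord a := by
  rw [deg_eq_sum' (S := S) fun x hx => (hS x).2 (by
    have := Finsupp.mem_support_iff.1 hx
    rw [DG.pos_apply, dv_apply] at this; omega)]
  exact Finset.sum_congr rfl fun x hx => by
    rw [DG.pos_apply, dv_apply, max_eq_left ((hS x).1 hx).le]
theorem deg_poles (a : K) (h : a ∉ Set.range (algebraMap k K)) :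
    deg (dv k a)⁻ = Module.finrank k⟮a⟯ K := by
  refine le_antisymm ?_ ?_
  · have hS : ∀ x, x ∈ (RR.finite_zeros (k := k) a⁻¹).toFinset ↔ 0 < x.ord a⁻¹ := fun x =>
      Set.Finite.mem_toFinset _
    have h1 := sum_ord_le a⁻¹ _ fun x hx => (hS x).1 hx
    rw [← DG.deg_pos a⁻¹ _ hS, dv_inv, posPart_neg] at h1
    have e : k⟮a⁻¹⟯ = k⟮a⟯ := le_antisymm
      (IntermediateField.adjoin_simple_le_iff.2
        (inv_mem (IntermediateField.mem_adjoin_simple_self k a)))
      (IntermediateField.adjoin_simple_le_iff.2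
        (inv_mem_iff.1 (IntermediateField.mem_adjoin_simple_self k a⁻¹)))
    rwa [e] at h1
  · obtain ⟨γ, hγ⟩ := exists_ell_ge a h
    have h1 := hγ (γ + 2)
    have h2 := ell_le_deg (nsmul_nonneg (negPart_nonneg (dv k a)) (γ + 2))
    rw [map_nsmul, nsmul_eq_mul] at h2
    push_cast at h1 h2
    by_contra hn
    have h3 : deg (dv k a)⁻ + 1 ≤ Module.finrank k⟮a⟯ K := by omega
    have h4 : (0 : ℤ) ≤ γ := Int.natCast_nonneg _
    nlinarith only [h1, h2, hn]
theorem deg_zeros (a : K) (h : a ∉ Set.range (algebraMap k K)) :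
    deg (dv k a)⁺ = Module.finrank k⟮a⟯ K := by
  have h1 := deg_poles (k := k) a⁻¹ fun ⟨c, hc⟩ => h ⟨c⁻¹, by rw [map_inv₀, hc, inv_inv]⟩
  have e : k⟮a⁻¹⟯ = k⟮a⟯ := le_antisymm
    (IntermediateField.adjoin_simple_le_iff.2
      (inv_mem (IntermediateField.mem_adjoin_simple_self k a)))
    (IntermediateField.adjoin_simple_le_iff.2
      (inv_mem_iff.1 (IntermediateField.mem_adjoin_simple_self k a⁻¹)))
  rwa [dv_inv, negPart_neg, e] at h1
theorem sum_zeros (a : K) (h : a ∉ Set.range (algebraMap k K)) (S : Finset (Place k K))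
    (hS : ∀ x, x ∈ S ↔ 0 < x.ord a) : ∑ x ∈ S, x.ord a = Module.finrank k⟮a⟯ K := by
  rw [← DG.deg_pos a S hS, deg_zeros a h]
@[simp] theorem deg_dv (f : K) : deg (dv k f) = 0 := by
  by_cases h : f ∈ Set.range (algebraMap k K)
  · obtain ⟨c, rfl⟩ := h; simp
  · rw [← posPart_sub_negPart (dv k f), map_sub, deg_zeros f h, deg_poles f h, sub_self]
theorem LL_eq_bot (h : deg D < 0) : LL D = ⊥ := by
  refine (Submodule.eq_bot_iff _).2 fun f hf => (mem_LL'.1 hf).resolve_right fun h1 => ?_
  have := deg_nonneg h1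
  rw [map_add, deg_dv] at this
  omega

variable (k K) in
/-- principal divisors -/
def prin : AddSubgroup (Div k K) where
  carrier := {D | ∃ f : K, f ≠ 0 ∧ dv k f = D}
  zero_mem' := ⟨1, one_ne_zero, dv_one⟩
  add_mem' := by
    rintro _ _ ⟨f, hf, rfl⟩ ⟨g, hg, rfl⟩; exact ⟨f * g, mul_ne_zero hf hg, dv_mul hf hg⟩
  neg_mem' := by rintro _ ⟨f, hf, rfl⟩; exact ⟨f⁻¹, inv_ne_zero hf, dv_inv⟩
variable (k K) in
/-- divisor classes -/
abbrev Pic := Div k K ⧸ prin k K
/-- the class of a divisor -/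
noncomputable def cls : Div k K →+ Pic k K := QuotientAddGroup.mk' _
lemma cls_surj (c : Pic k K) : ∃ D, cls D = c := QuotientAddGroup.mk'_surjective _ c
lemma cls_eq_zero : cls D = 0 ↔ ∃ f : K, f ≠ 0 ∧ dv k f = D := QuotientAddGroup.eq_zero_iff _
lemma cls_eq : cls D = cls E ↔ ∃ f : K, f ≠ 0 ∧ D = E + dv k f := by
  rw [← sub_eq_zero, ← map_sub, cls_eq_zero]
  exact exists_congr fun f => and_congr_right fun _ => by rw [eq_comm, sub_eq_iff_eq_add']
@[simp] lemma cls_dv (f : K) : cls (dv k f) = 0 := by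
  by_cases hf : f = 0
  · simp [hf]
  · exact cls_eq_zero.2 ⟨f, hf, rfl⟩
/-- degree of a class -/
noncomputable def degP : Pic k K →+ ℤ :=
  QuotientAddGroup.lift _ deg (by rintro _ ⟨f, -, rfl⟩; exact deg_dv f)
@[simp] lemma degP_cls (D : Div k K) : degP (cls D) = deg D := rfl
variable (k K) in
/-- `J_n`; its `ZMod n`-module structure is `AddSubgroup.torsionBy.zmodModule`. -/
noncomputable abbrev JJ (n : ℕ) : AddSubgroup (Pic k K) := AddSubgroup.torsionBy (Pic k K) (n : ℤ)
lemma cls_mem_JJ {n : ℕ} : cls D ∈ JJ k K n ↔ ∃ f : K, f ≠ 0 ∧ dv k f = n • D := by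
  rw [AddSubgroup.torsionBy.nsmul_iff, ← map_nsmul, cls_eq_zero]
/-- moving lemma -/
theorem move (D : Div k K) (S : Finset (Place k K)) :
    ∃ f : K, f ≠ 0 ∧ ∀ x ∈ S, (D + dv k f) x = 0 := by
  obtain ⟨f, hf, h⟩ := exists_ord_eq S fun x => -D x
  exact ⟨f, hf, fun x hx => by simp [h x hx]⟩
lemma cls_surj_off (c : Pic k K) (S : Finset (Place k K)) : ∃ D, cls D = c ∧ ∀ x ∈ S, D x = 0 := by
  obtain ⟨D, rfl⟩ := cls_surj c
  obtain ⟨f, -, h⟩ := move D S
  exact ⟨D + dv k f, by simp, h⟩

end Pool.Agent.MP_855f4c_ag.WD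

end

section

attribute [-instance] Finsupp.instNonUnitalRing SemilinearMapClass.toAddHomClass
  Algebra.WeaklyEtale.flat RKHS.instFunLike Finsupp.tsub Algebra.Smooth.flat
  Fintype.decidableForallFintype Nat.instAtLeastTwoHAddOfNat CompletePartialOrder.toPartialOrder
  NormedSpace.toModule

namespace Pool.Agent.MP_855f4c_ag.WD

open WithZero
open scoped IntermediateField

variable {k K : Type} [Field k] [Field K] [Algebra k K]

/-! Row RR: Riemann's theorem; row RG: the ring `A = Rg o`. -/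

variable [FF k K]

variable (k K) in
theorem riemann : ∃ g c : ℕ, (∀ D : Div k K, deg D + 1 ≤ ell D + g) ∧
    ∀ D : Div k K, (c : ℤ) ≤ deg D → (ell D : ℤ) + g = deg D + 1 := by
  classical
  have hne : ∀ D : Div k K, 0 < ell D → ∃ f : K, f ≠ 0 ∧ 0 ≤ dv k f + D := fun D h => by
    by_contra hn
    push Not at hn
    have : LL D = ⊥ := (Submodule.eq_bot_iff _).2 fun f hf => by
      by_contra h0
      exact hn f h0 ((mem_LL'.1 hf).resolve_left h0)
    rw [ell, this, finrank_bot] at h
    omega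
  have hex : ∃ g : ℕ, ∀ D : Div k K, deg D + 1 ≤ ell D + g := by
    obtain ⟨t, ht, -⟩ := FF.ex (k := k) (K := K)
    have h : t ∉ Set.range (algebraMap k K) := fun ⟨c, hc⟩ => ht (hc ▸ isAlgebraic_algebraMap c)
    obtain ⟨γ, hγ⟩ := exists_ell_ge t h
    have := RR.fin_adjoin ht
    have hN : (1 : ℤ) ≤ Module.finrank k⟮t⟯ K := by exact_mod_cast Module.finrank_pos
    refine ⟨γ + 1, fun D => ?_⟩
    have h0 := deg_nonneg (posPart_nonneg D)
    obtain ⟨m, hm⟩ : ∃ m : ℕ, (m : ℤ) = γ + deg D⁺ + 1 := ⟨(γ + deg D⁺ + 1).toNat, by omega⟩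
    have h1 := hγ m
    have h2 := ell_le_of_le (sub_le_self (m • (dv k t)⁻) (posPart_nonneg D))
    rw [map_sub] at h2
    obtain ⟨z, z0, hz⟩ := hne (m • (dv k t)⁻ - D⁺) (by
      have : (m : ℤ) ≤ m * Module.finrank k⟮t⟯ K := by nlinarith only [hN]
      omega)
    have h3 : D + dv k z⁻¹ ≤ m • (dv k t)⁻ := fun x => by
      have h4 := hz x
      have h5 := le_posPart D x
      simp only [dv_inv, Finsupp.add_apply, Finsupp.sub_apply, Finsupp.neg_apply,
        Finsupp.zero_apply] at h4 h5 ⊢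
      omega
    have h4 := ell_le_of_le h3
    rw [ell_add_dv (inv_ne_zero z0), map_add, deg_dv, map_nsmul, deg_poles t h, nsmul_eq_mul] at h4
    push_cast
    omega
  obtain ⟨D0, h0⟩ : ∃ D : Div k K, (ell D : ℤ) + Nat.find hex ≤ deg D + 1 := by
    rcases h : Nat.find hex with _ | g
    · exact ⟨0, by simp [ell_zero]⟩
    · have := Nat.find_min hex (show g < Nat.find hex by omega)
      push Not at this
      obtain ⟨D, hD⟩ := this
      exact ⟨D, by push_cast; omega⟩
  have hg := Nat.find_spec hex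
  refine ⟨Nat.find hex, (deg D0 + Nat.find hex).toNat, hg, fun D hD => le_antisymm ?_ (hg D)⟩
  have h1 := hg (D - D0)
  rw [map_sub] at h1
  obtain ⟨z, z0, hz⟩ := hne (D - D0) (by omega)
  have h2 := ell_le_of_le (D := D0) (E := D + dv k z) (by
    rwa [← sub_nonneg, add_comm, add_sub_assoc])
  rw [ell_add_dv z0, map_add, deg_dv] at h2
  omega

variable (k K) in
theorem R1 : ∃ g : ℕ, ∀ D : Div k K, (g : ℤ) ≤ deg D → ∃ f : K, f ≠ 0 ∧ 0 ≤ dv k f + D := by
  obtain ⟨g, -, hg, -⟩ := riemann k K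
  refine ⟨g, fun D hD => ?_⟩
  by_contra hn
  push Not at hn
  have : LL D = ⊥ := (Submodule.eq_bot_iff _).2 fun f hf => by
    by_contra h0
    exact hn f h0 ((mem_LL'.1 hf).resolve_left h0)
  have h := hg D
  rw [ell, this, finrank_bot] at h
  omega

variable (k K) in
/-- no base points, on any finite set at once -/
theorem R2 : ∃ c : ℕ, ∀ D : Div k K, (c : ℤ) ≤ deg D → ∀ S : Finset (Place k K),
    ∃ f : K, f ≠ 0 ∧ 0 ≤ dv k f + D ∧ ∀ x ∈ S, x.ord f + D x = 0 := by
  classical
  have := FF.closed (k := k) (K := K)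
  obtain ⟨g, c, -, hc⟩ := riemann k K
  refine ⟨c + 1, fun D hD S => ?_⟩
  obtain ⟨x0⟩ : Nonempty (Place k K) := inferInstance
  obtain ⟨f, hf⟩ := Submodule.exists_forall_notMem_of_forall_ne_top
    (fun x : (insert x0 S : Finset (Place k K)) =>
      (LL (D - Finsupp.single x.1 1)).comap (LL D).subtype) fun x h => by
    have h1 := hc D (by push_cast at hD; omega)
    have h2 := hc (D - Finsupp.single x.1 1) (by
      rw [map_sub, deg_single]; push_cast at hD; omega)
    have h3 : ell D ≤ ell (D - Finsupp.single x.1 1) :=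
      Submodule.finrank_mono (Submodule.comap_subtype_eq_top.1 h)
    rw [map_sub, deg_single] at h2
    omega
  have h0 : f.1 ≠ 0 := fun e => hf ⟨x0, Finset.mem_insert_self _ _⟩ (mem_LL.2 (.inl e))
  refine ⟨f, h0, (mem_LL'.1 f.2).resolve_left h0, fun x hx => ?_⟩
  have h1 := (mem_LL.1 f.2).resolve_left h0
  by_contra hn
  refine hf ⟨x, Finset.mem_insert_of_mem hx⟩ (mem_LL.2 (.inr fun y => ?_))
  have h2 := h1 y
  change 0 ≤ y.ord f.1 + (D - Finsupp.single x 1 : Div k K) y
  by_cases hy : y = x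
  · subst hy
    simp only [Finsupp.sub_apply, Finsupp.single_eq_same]
    omega
  · simpa only [Finsupp.coe_sub, Pi.sub_apply, ne_eq, hy, not_false_eq_true, Finsupp.single_eq_of_ne, sub_zero] using h2

end Pool.Agent.MP_855f4c_ag.WD

end

section

namespace Pool.Agent.MP_855f4c_ag.WD

open WithZero
open scoped IntermediateField

variable {k K : Type} [Field k] [Field K] [Algebra k K]

/-! Row RG: the ring `A = Rg o`; the degree of `a ∈ A` is `-o.ord a`. -/

variable [FF k K] {o : Place k K}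

theorem const_of_ord_zero {a : K} (ha : a ∈ Rg o) (h : 0 ≤ o.ord a) :
    a ∈ Set.range (algebraMap k K) :=
  const_of_reg fun x => by
    by_cases hx : x = o
    exacts [hx ▸ h, mem_Rg.1 ha x hx]
theorem ord_nonpos {a : K} (ha : a ∈ Rg o) : o.ord a ≤ 0 := by
  by_contra h
  obtain ⟨c, rfl⟩ := const_of_ord_zero ha (not_le.1 h).le
  simp at h
omit [FF k K] in
theorem mem_LL_single {a : K} {m : ℕ} :
    a ∈ LL (Finsupp.single o (m : ℤ)) ↔ a ∈ Rg o ∧ 0 ≤ o.ord a + m := by
  rw [mem_LL, mem_Rg]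
  refine ⟨?_, fun h => .inr fun x => ?_⟩
  · rintro (rfl | h)
    · simp
    · exact ⟨fun x hx => by simpa only [Finsupp.single_eq_of_ne hx, add_zero] using h x, by simpa only [Finsupp.single_eq_same] using h o⟩
  · by_cases hx : x = o
    · simpa only [hx, Finsupp.single_eq_same] using h.2
    · simpa [Finsupp.single_eq_of_ne hx] using h.1 x hx
/-- all large degrees occur -/
theorem exists_deg (o : Place k K) : ∃ c : ℕ, ∀ m : ℕ, c ≤ m →
    ∃ a ∈ Rg o, a ≠ 0 ∧ o.ord a = -m := by
  obtain ⟨c, hc⟩ := R2 k K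
  refine ⟨c, fun m hm => ?_⟩
  obtain ⟨f, h0, h1, h2⟩ := hc (Finsupp.single o (m : ℤ)) (by simpa using hm) {o}
  have := h2 o (by simp)
  rw [Finsupp.single_eq_same] at this
  exact ⟨f, (mem_LL_single.1 (mem_LL'.2 (.inr h1))).1, h0, by omega⟩
omit [FF k K] in
/-- cancel the leading term -/
lemma RG_cancel {f g : K} (hf : f ≠ 0) (hg : g ≠ 0) (h : o.ord f = o.ord g) :
    ∃ c : k, f - c • g = 0 ∨ o.ord f < o.ord (f - c • g) := by
  have h0 : o.ord (f / g) = 0 := by rw [Place.ord_div hf hg]; omega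
  refine ⟨o.val (f / g), ?_⟩
  have e : f - o.val (f / g) • g = (f / g - algebraMap k K (o.val (f / g))) * g := by
    rw [Algebra.smul_def]; field_simp
  rw [e]
  by_cases h1 : f / g - algebraMap k K (o.val (f / g)) = 0
  · left; rw [h1, zero_mul]
  · have := (Place.v_lt_one.1 (Place.val_spec h0.ge)).resolve_left h1
    right; rw [Place.ord_mul h1 hg]; omega
/-- induction on the degree -/
lemma RG_ind (P : K → Prop) (h0 : P 0) (h : ∀ f ∈ Rg o, f ≠ 0 →
    (∀ g ∈ Rg o, g = 0 ∨ o.ord f < o.ord g → P g) → P f) : ∀ f ∈ Rg o, P f := by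
  suffices H : ∀ n : ℕ, ∀ f ∈ Rg o, -o.ord f < n → P f from
    fun f hf => H ((-o.ord f).toNat + 1) f hf (by omega)
  intro n
  induction n with
  | zero => intro f hf h1; have := ord_nonpos hf; omega
  | succ n ih =>
    intro f hf h1
    by_cases hf0 : f = 0
    · exact hf0 ▸ h0
    · refine h f hf hf0 fun g hg h2 => ?_
      rcases h2 with rfl | h2
      exacts [h0, ih g hg (by omega)]
/-- the set of degrees -/
def Degs (o : Place k K) : Set ℕ := {m | ∃ a ∈ Rg o, a ≠ 0 ∧ o.ord a = -m}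
theorem exists_basis (o : Place k K) : ∃ b : Module.Basis (Degs o) k (Rg o),
    ∀ i, o.ord (b i : K) = -((i : ℕ) : ℤ) := by
  classical
  choose a ha h0 h1 using fun i : Degs o => i.2
  have li : LinearIndependent k fun i => (⟨a i, ha i⟩ : Rg o) := by
    refine LinearIndependent.of_comp (Rg o).val.toLinearMap (linearIndependent_iff'.2 ?_)
    intro s c hs
    by_contra hne
    push Not at hne
    obtain ⟨j, hj, hm⟩ := Finset.exists_max_image (s.filter fun i => c i ≠ 0) (fun i => (i : ℕ))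
      (let ⟨i, hi, hc⟩ := hne; ⟨i, Finset.mem_filter.2 ⟨hi, hc⟩⟩)
    obtain ⟨hjs, hjc⟩ := Finset.mem_filter.1 hj
    rw [← Finset.add_sum_erase _ _ hjs, add_eq_zero_iff_eq_neg] at hs
    have h2 : o.v (∑ i ∈ s.erase j, c i • a i) < exp ((j : ℕ) : ℤ) := by
      refine o.v.map_sum_lt exp_ne_zero fun i hi => Place.v_lt_exp.2 ?_
      by_cases hc : c i = 0
      · simp [hc]
      · have h3 := hm i (Finset.mem_filter.2 ⟨Finset.mem_of_mem_erase hi, hc⟩)
        have h4 : (i : ℕ) ≠ j := fun e => Finset.ne_of_mem_erase hi (Subtype.ext e)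
        right; rw [Place.ord_smul hc, h1]; omega
    have hs' : c j • a j = -∑ i ∈ s.erase j, c i • a i := hs
    rw [← o.v.map_neg, ← hs', Place.v_lt_exp, Place.ord_smul hjc, h1] at h2
    simp [hjc, h0] at h2
  refine ⟨Module.Basis.mk li fun f _ => ?_, fun i => by simp [h1]⟩
  refine RG_ind (o := o) (fun f => ∀ hf : f ∈ Rg o, (⟨f, hf⟩ : Rg o) ∈ Submodule.span k
    (Set.range fun i => (⟨a i, ha i⟩ : Rg o))) (fun _ => Submodule.zero_mem _) ?_ f.1 f.2 f.2
  intro f hf hf0 ih _
  have h2 := ord_nonpos hf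
  let i : Degs o := ⟨(-o.ord f).toNat, f, hf, hf0, by omega⟩
  obtain ⟨c, hc⟩ := RG_cancel hf0 (h0 i) (o := o) (by rw [h1]; simp only [i]; omega)
  have hm := sub_mem hf ((Rg o).smul_mem (ha i) c)
  have := add_mem (ih _ hm hc hm) (Submodule.smul_mem _ c (Submodule.subset_span ⟨i, rfl⟩))
  convert this using 1
  exact Subtype.ext (by simp)
/-- reduction of the degree modulo `a` -/
theorem exists_red (o : Place k K) : ∃ c : ℕ, ∀ a ∈ Rg o, a ≠ 0 → ∀ f ∈ Rg o,
    ∃ q ∈ Rg o, 0 ≤ o.ord (f - q * a) - o.ord a + c := by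
  obtain ⟨c, hc⟩ := exists_deg o
  refine ⟨c, fun a ha ha0 => RG_ind _ ⟨0, zero_mem _, ?_⟩ fun f hf hf0 ih => ?_⟩
  · have := ord_nonpos ha; simp only [zero_mul, sub_self, Place.ord_zero, zero_sub, le_neg_add_iff_add_le, add_zero, ge_iff_le]; omega
  by_cases h : 0 ≤ o.ord f - o.ord a + c
  · exact ⟨0, zero_mem _, by simpa only [zero_mul, sub_zero] using h⟩
  obtain ⟨g, hg, hg0, h1⟩ := hc (o.ord a - o.ord f).toNat (by omega)
  obtain ⟨d, hd⟩ := RG_cancel hf0 (mul_ne_zero hg0 ha0) (o := o)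
    (by rw [Place.ord_mul hg0 ha0]; omega)
  obtain ⟨q, hq, h2⟩ := ih _ (sub_mem hf ((Rg o).smul_mem (mul_mem hg ha) d)) hd
  refine ⟨q + d • g, add_mem hq ((Rg o).smul_mem hg d), ?_⟩
  rwa [add_mul, smul_mul_assoc, add_comm (q * a), ← sub_sub]
theorem finite_adjoin {a : K} (ha : a ∈ Rg o) (h : o.ord a ≠ 0) :
    ∃ s : Finset K, (∀ b ∈ s, b ∈ Rg o) ∧
      ∀ f ∈ Rg o, f ∈ Submodule.span (Algebra.adjoin k {a}) (s : Set K) := by
  obtain ⟨c, hc⟩ := exists_red o
  have h1 := ord_nonpos ha
  have ha0 := Place.ne_zero_of_ord h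
  obtain ⟨s, hs⟩ := (Submodule.fg_top _).1
    (Module.Finite.fg_top (R := k) (M := LL (Finsupp.single o (((-o.ord a).toNat + c : ℕ) : ℤ))))
  have hL : ∀ g ∈ Rg o, 0 ≤ o.ord g - o.ord a + c →
      g ∈ Submodule.span (Algebra.adjoin k {a}) (s : Set K) := fun g hg h2 =>
    Submodule.span_le_restrictScalars k _ _ (hs ▸ mem_LL_single.2 ⟨hg, by omega⟩)
  refine ⟨s, fun b hb => (mem_LL_single.1 (hs ▸ Submodule.subset_span hb)).1,
    RG_ind _ (zero_mem _) fun f hf hf0 ih => ?_⟩
  by_cases h2 : 0 ≤ o.ord f - o.ord a + c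
  · exact hL f hf h2
  obtain ⟨q, hq, h3⟩ := hc a ha ha0 f hf
  have hr := sub_mem hf (mul_mem hq ha)
  have h4 : q = 0 ∨ o.ord f < o.ord q := by
    by_cases hq0 : q = 0
    · exact .inl hq0
    · have h5 := (Place.ord_add_of_lt (x := o) (g := -(f - q * a)) hf0
        (.inr (by rw [Place.ord_neg]; omega))).2
      rw [show f + -(f - q * a) = q * a by ring, Place.ord_mul hq0 ha0] at h5
      right; omega
  have := add_mem (hL _ hr h3) (Submodule.smul_mem _
    (⟨a, Algebra.self_mem_adjoin_singleton k a⟩ : Algebra.adjoin k {a}) (ih q hq h4))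
  convert this using 1
  rw [Subalgebra.smul_def, smul_eq_mul]; ring
instance : Algebra.FiniteType k (Rg o) := by
  classical
  obtain ⟨c, hc⟩ := exists_deg o
  obtain ⟨a, ha, -, h1⟩ := hc (c + 1) (by omega)
  obtain ⟨s, hs, h2⟩ := finite_adjoin ha (by omega)
  refine ⟨(Subalgebra.fg_top _).2 ⟨insert a s, le_antisymm (Algebra.adjoin_le ?_) fun f hf => ?_⟩⟩
  · rintro b hb
    rcases Finset.mem_insert.1 hb with rfl | hb
    exacts [ha, hs b hb]
  · refine Submodule.span_induction (fun x hx => Algebra.subset_adjoin (by simp [hx]))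
      (zero_mem _) (fun _ _ _ _ => add_mem) (fun r x _ hx => ?_) (h2 f hf)
    exact mul_mem (Algebra.adjoin_mono (by simp) r.2) hx
/-- prescribed orders off `o` for an arbitrary divisor -/
lemma RG_ord (o : Place k K) (S : Finset (Place k K)) (hS : o ∉ S) (D : Div k K) :
    ∃ a : K, a ≠ 0 ∧ (∀ x, x ≠ o → D x ≤ x.ord a) ∧ ∀ x ∈ S, x.ord a = D x := by
  obtain ⟨c, hc⟩ := R2 k K
  obtain ⟨f, f0, h1, h2⟩ := hc (Finsupp.single o (c + deg D) - D) (by simp) S
  refine ⟨f, f0, fun x hx => ?_, fun x hx => ?_⟩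
  · have := h1 x
    simp only [Finsupp.coe_zero, Pi.zero_apply, Finsupp.add_apply, Finsupp.sub_apply, dv_apply,
      Finsupp.single_eq_of_ne hx] at this
    omega
  · have := h2 x hx
    simp only [Finsupp.sub_apply, Finsupp.single_eq_of_ne (ne_of_mem_of_not_mem hx hS)] at this
    omega

/-- prescribed orders on a finite set -/
theorem exists_Rg_ord (S : Finset (Place k K)) (hS : o ∉ S) (D : Div k K) (hD : 0 ≤ D) :
    ∃ a ∈ Rg o, a ≠ 0 ∧ (∀ x, x ≠ o → D x ≤ x.ord a) ∧ ∀ x ∈ S, x.ord a = D x := by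
  obtain ⟨a, a0, h1, h2⟩ := RG_ord o S hS D
  exact ⟨a, mem_Rg.2 fun x hx => (hD x).trans (h1 x hx), a0, h1, h2⟩
theorem exists_den (S : Finset (Place k K)) (hS : o ∉ S) (f : K) (hf : ∀ x ∈ S, 0 ≤ x.ord f) :
    ∃ b ∈ Rg o, b ≠ 0 ∧ b * f ∈ Rg o ∧ ∀ x ∈ S, x.ord b = 0 := by
  obtain ⟨b, hb, b0, h1, h2⟩ := exists_Rg_ord S hS (dv k f)⁻ (negPart_nonneg _)
  refine ⟨b, hb, b0, ?_, fun x hx => ?_⟩
  · by_cases f0 : f = 0
    · rw [f0, mul_zero]; exact zero_mem _
    refine mem_Rg.2 fun x hx => ?_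
    have := h1 x hx
    rw [DG.neg_apply, dv_apply] at this
    rw [Place.ord_mul b0 f0]
    omega
  · have := hf x hx
    rw [h2 x hx, DG.neg_apply, dv_apply]
    omega
instance : IsFractionRing (Rg o) K :=
  IsFractionRing.of_field _ _ fun f => by
    obtain ⟨b, hb, b0, h, -⟩ := exists_den (o := o) ∅ (by simp) f (by simp)
    exact ⟨⟨_, h⟩, ⟨b, hb⟩, (mul_div_cancel_left₀ f b0).symm⟩
theorem pt_inj {x y : Place k K} (hx : x ≠ o) (hy : y ≠ o) (h : ∀ a ∈ Rg o, x.val a = y.val a) :
    x = y := by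
  classical
  by_contra hn
  obtain ⟨a, ha, a0, -, h2⟩ := exists_Rg_ord (o := o) {x, y} (by simp [hx.symm, hy.symm])
    (Finsupp.single x 1) (Finsupp.single_nonneg.2 zero_le_one)
  have h3 := h2 x (by simp)
  have h4 := h2 y (by simp)
  rw [Finsupp.single_eq_same] at h3
  rw [Finsupp.single_eq_of_ne (Ne.symm hn)] at h4
  exact Place.val_ne_zero.2 ⟨a0, h4⟩ ((h a ha).symm.trans
    ((Place.val_eq_zero (by omega)).2 (.inr (by omega))))
theorem exists_common_zero (I : Ideal (Rg o)) (hI : I ≠ ⊤) :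
    ∃ x : Place k K, x ≠ o ∧ ∀ a ∈ I, x.val (a : K) = 0 := by
  by_cases h0 : I = ⊥
  · obtain ⟨x, hx⟩ := exists_ne o
    exact ⟨x, hx, fun a ha => by rw [h0, Ideal.mem_bot] at ha; simp [ha]⟩
  obtain ⟨x, h1, h2⟩ := exists_place_dom (Rg o) I hI h0
  refine ⟨x, fun e => ?_, fun a ha =>
    (Place.val_eq_zero (h1 _ a.2)).2 (Place.v_lt_one.1 (h2 a ha))⟩
  obtain ⟨a, ha, a0⟩ := I.ne_bot_iff.1 h0
  have h3 := (Place.v_lt_one.1 (h2 a ha)).resolve_left fun e => a0 (Subtype.ext e)
  refine Place.not_const h3.ne' (const_of_reg fun y => ?_)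
  by_cases hy : y = o
  · rw [hy.trans e.symm]; exact h3.le
  · exact mem_Rg.1 a.2 y hy

end Pool.Agent.MP_855f4c_ag.WD

end

section

set_option linter.unusedSectionVars false

namespace Pool.Agent.MP_855f4c_ag.WD

open WithZero
open scoped IntermediateField

variable {k K : Type} [Field k] [Field K] [Algebra k K]

/-! Row RS: restriction of places along `φ : K →ₐ[k] K'`, pull-back, push-forward, norm. -/

variable {K' K'' : Type} [Field K'] [Algebra k K'] [Field K''] [Algebra k K'']
  [FF k K] [FF k K'] (φ : K →ₐ[k] K')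

omit [Algebra k K'] [FF k K'] in
/-- a valuation of `K` given by a place of an overfield (constants may grow) -/
theorem exists_res' {k' : Type} [Field k'] [Algebra k' K'] (ψ : K →+* K') (x : Place k' K')
    (hc : ∀ c : k, 0 ≤ x.ord (ψ (algebraMap k K c))) (hn : ∃ f, x.ord (ψ f) ≠ 0) :
    ∃ (y : Place k K) (e : ℕ), 0 < e ∧ ∀ f, x.ord (ψ f) = e * y.ord f := by
  have hw : ∃ f, 1 < x.v.comap ψ f := by
    obtain ⟨f, hf⟩ := hn
    rcases lt_or_gt_of_ne hf with h | h
    · exact ⟨f, Place.one_lt_v.2 h⟩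
    · exact ⟨f⁻¹, Place.one_lt_v.2 (by simpa using h)⟩
  obtain ⟨y, hy⟩ := exists_place (x.v.comap ψ) (fun c => Place.v_le_one.2 (hc c)) hw
  exact ⟨y, y.exists_e _ (fun f hf => (hy f).1 (Place.v_le_one.1 hf)) hw⟩

theorem exists_res (x : Place k K') :
    ∃ (y : Place k K) (e : ℕ), 0 < e ∧ ∀ f, x.ord (φ f) = e * y.ord f := by
  refine exists_res' (φ : K →+* K') x (fun c => by simp) ?_
  obtain ⟨a, ha⟩ := FF.exists_not_const k K
  by_cases h : 0 ≤ x.ord (φ a)
  · refine ⟨a - algebraMap k K (x.val (φ a)), ?_⟩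
    have := Place.v_lt_one.1 (Place.val_spec h)
    rw [← φ.commutes, ← map_sub, map_eq_zero, sub_eq_zero] at this
    exact (this.resolve_left fun e => ha ⟨_, e.symm⟩).ne'
  · exact ⟨a, (not_le.1 h).ne⟩

/-- the place below `x` -/
noncomputable def res (x : Place k K') : Place k K := (exists_res φ x).choose
/-- ramification index -/
noncomputable def ee (x : Place k K') : ℕ := (exists_res φ x).choose_spec.choose
lemma ee_pos (x : Place k K') : 0 < ee φ x := (exists_res φ x).choose_spec.choose_spec.1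
lemma ord_res (x : Place k K') (f : K) : x.ord (φ f) = ee φ x * (res φ x).ord f :=
  (exists_res φ x).choose_spec.choose_spec.2 f
theorem val_res (x : Place k K') (f : K) : x.val (φ f) = (res φ x).val f := by
  have he : (0 : ℤ) < ee φ x := by exact_mod_cast ee_pos φ x
  by_cases h : 0 ≤ (res φ x).ord f
  · refine (Place.val_eq ?_).2
    rw [← φ.commutes, ← map_sub, Place.v_lt_one, map_eq_zero, ord_res]
    exact (Place.v_lt_one.1 (Place.val_spec h)).imp_right (mul_pos he)
  · rw [Place.val_pole (not_le.1 h), Place.val_pole]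
    rw [ord_res]; exact mul_neg_of_pos_of_neg he (not_le.1 h)
theorem res_eq {x : Place k K'} {y : Place k K} (h : ∀ f, 0 ≤ y.ord f → 0 ≤ x.ord (φ f)) :
    res φ x = y :=
  (Place.ext_le fun f hf => by
    have := h f hf
    rw [ord_res] at this
    exact (mul_nonneg_iff_of_pos_left (by exact_mod_cast ee_pos φ x)).1 this).symm
theorem res_ee_eq {x : Place k K'} {y : Place k K} {e : ℕ} (he : 0 < e)
    (h : ∀ f, x.ord (φ f) = e * y.ord f) : res φ x = y ∧ ee φ x = e := by
  have h1 : res φ x = y := res_eq φ fun f hf => by rw [h]; positivity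
  obtain ⟨t, -, ht⟩ := y.exists_ord 1
  have := ord_res φ x t
  rw [h, h1, ht] at this
  exact ⟨h1, by omega⟩
theorem res_surj (y : Place k K) : ∃ x, res φ x = y := by
  obtain ⟨t, ht0, ht⟩ := y.exists_ord 1
  obtain ⟨x, hx, -⟩ := exists_place_dom (y.O.map φ)
    (Ideal.span {⟨φ t, t, Place.mem_O'.2 (by omega), rfl⟩}) (by
      rw [Ne, Ideal.span_singleton_eq_top, isUnit_iff_exists_inv]
      rintro ⟨⟨_, s, hs, rfl⟩, h⟩
      have h1 : t * s = 1 := φ.injective (by simpa only [AlgHom.toRingHom_eq_coe, RingHom.coe_coe, map_mul, map_one, MulMemClass.coe_mul, OneMemClass.coe_one] using congrArg Subtype.val h)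
      have h2 := Place.mem_O'.1 hs
      rw [eq_inv_of_mul_eq_one_right h1, Place.ord_inv] at h2; omega) (by
      rw [Ne, Ideal.span_singleton_eq_bot]
      exact fun h => ht0 (by simpa using congrArg Subtype.val h))
  exact ⟨x, res_eq φ fun f hf => hx _ ⟨f, Place.mem_O'.2 hf, rfl⟩⟩
theorem finite_fibre (y : Place k K) : {x | res φ x = y}.Finite := by
  obtain ⟨t, -, ht⟩ := y.exists_ord 1
  refine (finite_ord (φ t)).subset fun x hx => ?_
  have := ee_pos φ x
  rw [Function.mem_support, ord_res, show res φ x = y from hx, ht]; omega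
theorem res_comp [FF k K''] (χ : K' →ₐ[k] K'') (x : Place k K'') :
    res (χ.comp φ) x = res φ (res χ x) ∧ ee (χ.comp φ) x = ee χ x * ee φ (res χ x) :=
  res_ee_eq _ (mul_pos (ee_pos _ _) (ee_pos _ _)) fun f => by
    rw [AlgHom.comp_apply, ord_res, ord_res]; push_cast; ring

theorem finite_pull (D : Div k K) :
    (Function.support fun x : Place k K' => (ee φ x : ℤ) * D (res φ x)).Finite :=
  (D.support.finite_toSet.biUnion fun y _ => finite_fibre φ y).subset fun _ hx =>
    Set.mem_biUnion (Finsupp.mem_support_iff.2 (right_ne_zero_of_mul hx)) rfl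
/-- `φ^*` -/
noncomputable def pull : Div k K →+ Div k K' where
  toFun D := Finsupp.ofSupportFinite _ (finite_pull φ D)
  map_zero' := by ext x; simp [Finsupp.ofSupportFinite_coe]
  map_add' D E := by ext x; simp only [Finsupp.coe_add, Pi.add_apply, mul_add, Finsupp.ofSupportFinite_coe]
lemma pull_apply (D : Div k K) (x : Place k K') : pull φ D x = ee φ x * D (res φ x) := rfl
lemma dv_map (f : K) : dv k (φ f) = pull φ (dv k f) := by ext x; simp [pull_apply, ord_res]
/-- `φ_*` -/
noncomputable def push : Div k K' →+ Div k K := Finsupp.mapDomain.addMonoidHom (res φ)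
@[simp] lemma push_single (x : Place k K') (m : ℤ) :
    push φ (Finsupp.single x m) = Finsupp.single (res φ x) m := Finsupp.mapDomain_single
theorem deg_push (D : Div k K') : deg (push φ D) = deg D := by
  induction D using Finsupp.induction_linear with
  | zero => simp only [map_zero]
  | add a b ha hb => simp only [map_add, ha, hb]
  | single a m => simp
theorem pull_comp [FF k K''] (χ : K' →ₐ[k] K'') (D : Div k K) :
    pull (χ.comp φ) D = pull χ (pull φ D) := by
  ext x; simp only [pull_apply, res_comp]; push_cast; ring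
lemma exists_of_push {D : Div k K'} {y : Place k K} (h : push φ D y ≠ 0) :
    ∃ x, D x ≠ 0 ∧ res φ x = y := by
  classical
  simpa only [ne_eq, Finset.mem_image, Finsupp.mem_support_iff] using Finsupp.mapDomain_support (Finsupp.mem_support_iff.2 h)
omit [FF k K] in
lemma Off.sum {ι : Type*} {f : K} (hf : f ≠ 0) (s : Finset ι) (D : ι → Div k K)
    (h : ∀ i ∈ s, Off f (D i)) :
    Off f (∑ i ∈ s, D i) ∧ ev f (∑ i ∈ s, D i) = ∏ i ∈ s, ev f (D i) := by
  induction s using Finset.cons_induction with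
  | empty => exact ⟨⟨hf, by simp⟩, by simp⟩
  | cons a s ha ih =>
    have h1 := ih fun i hi => h i (by simp [hi])
    rw [Finset.sum_cons, Finset.prod_cons, ev_add (h a (by simp)) h1.1, h1.2]
    exact ⟨(h a (by simp)).add h1.1, rfl⟩
theorem off_map {f : K} {D : Div k K'} (h : Off (φ f) D) {x : Place k K'} (hx : D x ≠ 0) :
    (res φ x).ord f = 0 := by
  have := h.2 x hx
  rw [ord_res] at this
  exact (mul_eq_zero.1 this).resolve_left (by exact_mod_cast (ee_pos φ x).ne')
theorem Off.push {f : K} {D : Div k K'} (h : Off (φ f) D) : Off f (push φ D) :=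
  ⟨fun h0 => h.1 (by simp [h0]), fun y hy => by
    obtain ⟨x, hx, rfl⟩ := exists_of_push φ hy; exact off_map φ h hx⟩
theorem ev_map {f : K} {D : Div k K'} (h : Off (φ f) D) : ev (φ f) D = ev f (push φ D) := by
  have hf : f ≠ 0 := fun h0 => h.1 (by simp [h0])
  have : push φ D = ∑ x ∈ D.support, Finsupp.single (res φ x) (D x) := rfl
  rw [this, (Off.sum hf _ _ fun x hx => ⟨hf, fun y hy => ?_⟩).2]
  · simp only [ev_single]; simp only [ev, Finsupp.prod, val_res]
  · rw [(Finsupp.single_apply_ne_zero.1 hy).1]; exact off_map φ h (Finsupp.mem_support_iff.1 hx)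
/-- the degree of `φ` -/
noncomputable def dgr : ℕ := Module.finrank φ.fieldRange K'
omit [FF k K] [FF k K'] in
theorem finrank_adjoin_map (a : K) :
    Module.finrank k⟮φ a⟯ K' = Module.finrank k⟮a⟯ K * dgr φ := by
  have h1 : k⟮φ a⟯ = k⟮a⟯.map φ := by rw [IntermediateField.adjoin_map]; simp
  rw [h1, dgr, AlgHom.fieldRange_eq_map, ← IntermediateField.relfinrank_mul_finrank_top
    (IntermediateField.map_mono φ le_top), IntermediateField.relfinrank_map_map,
    IntermediateField.relfinrank_top_right]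
omit [FF k K] [FF k K'] in
lemma map_not_const {a : K} (h : a ∉ Set.range (algebraMap k K)) :
    φ a ∉ Set.range (algebraMap k K') := fun ⟨c, hc⟩ =>
  h ⟨c, φ.injective ((φ.commutes c).trans hc)⟩
/-- a function whose only zero is `y` -/
theorem exists_only_zero (y : Place k K) : ∃ a : K, ∀ z : Place k K, 0 < z.ord a ↔ z = y := by
  classical
  obtain ⟨c, hc⟩ := R2 k K
  obtain ⟨f, -, h1, h2⟩ := hc (Finsupp.single y (c + 1)) (by simp only [Finsupp.single_add, map_add, deg_single, le_add_iff_nonneg_right, zero_le_one]) {y}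
  have h3 := h2 y (by simp)
  refine ⟨f⁻¹, fun z => ⟨fun hz => by_contra fun hne => ?_, ?_⟩⟩
  · have := h1 z
    simp only [Finsupp.coe_zero, Pi.zero_apply, Finsupp.single_add, Finsupp.coe_add, Pi.add_apply, dv_apply, Finsupp.single_eq_of_ne hne, add_zero, Place.ord_inv, Int.neg_pos] at this hz; omega
  · rintro rfl; simp only [Finsupp.single_add, Finsupp.coe_add, Pi.add_apply, Finsupp.single_eq_same, Place.ord_inv, Int.neg_pos] at h3 ⊢; omega
theorem sum_ee (y : Place k K) (S : Finset (Place k K')) (hS : ∀ x, x ∈ S ↔ res φ x = y) :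
    ∑ x ∈ S, ee φ x = dgr φ := by
  obtain ⟨a, ha⟩ := exists_only_zero y
  have h0 := (ha y).2 rfl
  have hc := Place.not_const h0.ne'
  have h1 := sum_zeros a hc {y} (by simp [ha])
  have h2 := sum_zeros (φ a) (map_not_const φ hc) S fun x => by
    rw [hS, ord_res, ← ha, mul_pos_iff_of_pos_left (by exact_mod_cast ee_pos φ x)]
  rw [Finset.sum_singleton] at h1
  rw [finrank_adjoin_map, Nat.cast_mul, ← h1, Finset.sum_congr rfl fun x hx => by
    rw [ord_res, (hS x).1 hx], ← Finset.sum_mul, mul_comm] at h2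
  exact_mod_cast mul_left_cancel₀ h0.ne' h2
theorem pull_single (y : Place k K) (m : ℤ) (S : Finset (Place k K'))
    (hS : ∀ x, x ∈ S ↔ res φ x = y) :
    pull φ (Finsupp.single y m) = ∑ x ∈ S, Finsupp.single x (ee φ x * m) := by
  classical
  ext x
  simp only [pull_apply, Finsupp.finsetSum_apply, Finsupp.single_apply, Finset.sum_ite_eq', hS,
    eq_comm (a := y), mul_ite, mul_zero]
theorem push_pull (D : Div k K) : push φ (pull φ D) = dgr φ • D := by
  induction D using Finsupp.induction_linear with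
  | zero => simp
  | add a b ha hb => simp [ha, hb]
  | single y m =>
    have hS : ∀ x, x ∈ (finite_fibre φ y).toFinset ↔ res φ x = y := by simp
    rw [pull_single φ y m _ hS, map_sum, ← sum_ee φ y _ hS, Finset.sum_smul]
    exact Finset.sum_congr rfl fun x hx => by
      rw [push_single, (hS x).1 hx, Finsupp.smul_single, nsmul_eq_mul]
theorem deg_pull (D : Div k K) : deg (pull φ D) = dgr φ * deg D := by
  rw [← deg_push φ, push_pull, map_nsmul, nsmul_eq_mul]
/-- `φ^*` on classes -/
noncomputable def pullP : Pic k K →+ Pic k K' :=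
  QuotientAddGroup.map _ _ (pull φ) (by
    rintro _ ⟨f, hf, rfl⟩; exact ⟨φ f, by simpa using hf, dv_map φ f⟩)
@[simp] lemma pullP_cls (D : Div k K) : pullP φ (cls D) = cls (pull φ D) := rfl

section tower
variable [Algebra K K'] [IsScalarTower k K K']
variable (k K K') in
/-- the inclusion of a tower -/
abbrev inc : K →ₐ[k] K' := IsScalarTower.toAlgHom k K K'
omit [FF k K] [FF k K'] in
@[simp] lemma inc_apply (f : K) : inc k K K' f = algebraMap K K' f := rfl
omit [FF k K] [FF k K'] in
theorem dgr_inc : dgr (inc k K K') = Module.finrank K K' :=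
  (Algebra.finrank_eq_of_equiv_equiv (AlgEquiv.ofInjectiveField (inc k K K')).toRingEquiv
    (RingEquiv.refl K') (by ext; rfl)).symm
end tower

end Pool.Agent.MP_855f4c_ag.WD

end

section

attribute [-instance] IsPurelyInseparable.isIntegral RKHS.instFunLike
  DistribMulActionSemiHomClass.toAddMonoidHomClass AddQuantale.instAddRightMono
  IdemSemiring.toSemiring MonTypeEquivalenceMon.monMonoid
  NonUnitalAlgHomClass.toNonUnitalRingHomClass LieAlgebra.toModule
  CompletePartialOrder.toPartialOrder instCoeOTCOfCoeTC NormedSpace.toModule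
  Group.IsPerfect.subsingleton_of_isMulCommutative RightPreLieAlgebra.toModule
  LeftPreLieAlgebra.toModule ContinuousSemilinearMapClass.toSemilinearMapClass instSMulZeroClass
  Algebra.WeaklyEtale.flat CoalgHomClass.toSemilinearMapClass
  CommMonTypeEquivalenceCommMon.commMonCommMonoid Finsupp.instNonUnitalNonAssocSemiring
  TestFunctionClass.toDFunLike instIsBotZeroClass LinearOrder.toDecidableEq
  AddCommMonoid.toAddCommSemigroup instCoeHTCOfCoeHeadOfCoeOTC ContDiffMapSupportedInClass.toDFunLike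
  BialgHomClass.toAlgHomClass Algebra.Smooth.flat Module.Invertible.instFaithfulSMul
  Algebra.IsFiniteSplit.instFree instNonUnitalAlgHomClassOfNonUnitalAlgEquivClass
  WithZero.instDistrib BialgHomClass.toMonoidHomClass Quantale.instMulRightMono
  MulRingSeminormClass.toMonoidWithZeroHomClass

namespace Pool.Agent.MP_855f4c_ag.WD

open WithZero IntermediateField

variable {k K : Type} [Field k] [Field K] [Algebra k K]

/-! Row NM: the norm. -/

lemma det_tri {I R : Type} [Fintype I] [DecidableEq I] [CommRing R] (b : I → ℕ) (A : Matrix I I R)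
    (h : ∀ i j, i ≠ j → b i ≤ b j → A i j = 0) : A.det = ∏ i, A i i := by
  rw [Matrix.det_apply, Finset.sum_eq_single 1]
  · simp only [Equiv.Perm.sign_one, Equiv.Perm.coe_one, id_eq, one_smul]
  · intro σ _ hσ
    obtain ⟨i, hi, hi'⟩ : ∃ i, σ i ≠ i ∧ b (σ i) ≤ b i := by
      by_contra hc
      push Not at hc
      obtain ⟨j, hj⟩ : ∃ j, σ j ≠ j := by
        by_contra h2
        push Not at h2
        exact hσ (Equiv.ext h2)
      refine (Finset.sum_lt_sum (s := Finset.univ) (fun i _ => ?_) ⟨j, by simp only [Finset.mem_univ], hc j hj⟩).ne'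
        (Equiv.sum_comp σ b)
      by_cases e : σ i = i
      · rw [e]
      · exact (hc i e).le
    rw [Finset.prod_eq_zero (f := fun i => A (σ i) i) (Finset.mem_univ i) (h _ _ hi hi'), smul_zero]
  · simp only [Finset.mem_univ, not_true_eq_false, Equiv.Perm.sign_one, Equiv.Perm.coe_one, id_eq, one_smul, IsEmpty.forall_iff]

lemma zpow_sum' {ι : Type} {a : k} (ha : a ≠ 0) (s : Finset ι) (n : ι → ℤ) :
    a ^ (∑ i ∈ s, n i) = ∏ i ∈ s, a ^ n i := by
  induction s using Finset.cons_induction with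
  | empty => simp
  | cons i s hi ih => rw [Finset.sum_cons, Finset.prod_cons, zpow_add₀ ha, ih]

namespace Place

/-- Functions of order at least `n`. -/
def V (x : Place k K) (n : ℤ) : Submodule k K where
  carrier := {f | x.v f ≤ exp (-n)}
  add_mem' ha hb := x.v.map_add_le ha hb
  zero_mem' := by simp only [exp_neg, Set.mem_ofPred_eq, map_zero, zero_le]
  smul_mem' c f hf := by
    change x.v _ ≤ _
    rw [Algebra.smul_def, map_mul]; exact (mul_le_of_le_one_left' (x.const c)).trans hf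

variable {x : Place k K} {n m : ℤ} {f g : K}

lemma mem_V : f ∈ x.V n ↔ f = 0 ∨ n ≤ x.ord f :=
  v_le_exp.trans (or_congr_right (by omega))
lemma V_of_le (h : n ≤ x.ord f) : f ∈ x.V n := mem_V.2 (.inr h)
lemma V_zero : f ∈ x.V 0 ↔ 0 ≤ x.ord f := by
  rw [mem_V]; by_cases hf : f = 0 <;> simp [hf]
lemma V_one : f ∈ x.V 1 ↔ x.v f < 1 := mem_V.trans v_lt_one.symm
lemma V_mono (hf : f ∈ x.V n) (h : m ≤ n) : f ∈ x.V m :=
  mem_V.2 ((mem_V.1 hf).imp_right h.trans)
lemma V_mul (hf : f ∈ x.V n) (hg : g ∈ x.V m) : f * g ∈ x.V (n + m) := by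
  change x.v _ ≤ _
  rw [map_mul, neg_add, exp_add]
  exact mul_le_mul' hf hg
lemma V_val (hf : 0 ≤ x.ord f) : f - algebraMap k K (x.val f) ∈ x.V 1 := V_one.2 (val_spec hf)
lemma val_of_V {c : k} (h : f - algebraMap k K c ∈ x.V n) (hn : 0 < n) : x.val f = c :=
  (val_eq (V_one.1 (V_mono h hn))).2

lemma aeval_ord (hx : 0 ≤ x.ord f) (p : Polynomial k) : 0 ≤ x.ord (Polynomial.aeval f p) := by
  rw [Polynomial.aeval_eq_sum_range]
  exact mem_O'.1 (sum_mem fun i _ => x.O.smul_mem (pow_mem (mem_O'.2 hx) i) _)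

lemma aeval_divX (f : K) (p : Polynomial k) :
    Polynomial.aeval f p - algebraMap k K (p.coeff 0) = f * Polynomial.aeval f p.divX := by
  have := congrArg (Polynomial.aeval f) p.X_mul_divX_add
  rw [map_add, map_mul, Polynomial.aeval_X, Polynomial.aeval_C] at this
  rw [← this, add_sub_cancel_right]

lemma aeval_sub (hx : 0 ≤ x.ord f) (p : Polynomial k) :
    Polynomial.aeval f p - algebraMap k K (p.coeff 0) ∈ x.V (x.ord f) := by
  simpa [aeval_divX] using V_mul (V_of_le le_rfl) (V_of_le (aeval_ord hx p.divX))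

/-- An element of `k(h)` regular at the zeros of `h` is constant modulo `h`. -/
lemma const_mod {h : K} (hh : h ≠ 0) {S : Finset (Place k K)} (hS : ∀ x ∈ S, 0 < x.ord h) {c : K}
    (hc : c ∈ k⟮h⟯) (h0 : ∀ x ∈ S, 0 ≤ x.ord c) :
    ∃ a : k, ∀ x ∈ S, c - algebraMap k K a ∈ x.V (x.ord h) := by
  rcases S.eq_empty_or_nonempty with rfl | ⟨y, hy⟩
  · exact ⟨0, by simp⟩
  obtain ⟨p, q, e⟩ := (mem_adjoin_simple_iff k _).1 hc
  by_cases hq : Polynomial.aeval h q = 0
  · exact ⟨0, by simp [e, hq]⟩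
  replace e := (eq_div_iff hq).1 e
  induction hn : q.natDegree using Nat.strong_induction_on generalizing p q with
  | _ n ih =>
  by_cases hq0 : q.coeff 0 = 0
  · have hq1 := aeval_sub (hS y hy).le q
    rw [hq0, map_zero, sub_zero] at hq1
    have h1 := V_mul (V_of_le (h0 y hy)) hq1
    rw [e, zero_add] at h1
    have hp0 : p.coeff 0 = 0 := (val_of_V (aeval_sub (hS y hy).le p) (hS y hy)).symm.trans
      (val_of_V (by simpa using h1) (hS y hy))
    have eq := aeval_divX h q
    have ep := aeval_divX h p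
    rw [hq0, map_zero, sub_zero] at eq
    rw [hp0, map_zero, sub_zero] at ep
    have hd : q.natDegree ≠ 0 := fun h2 => hq (by
      rw [Polynomial.eq_C_of_natDegree_eq_zero h2, hq0]; simp)
    refine ih _ ?_ p.divX q.divX (fun h2 => hq (by rw [eq, h2, mul_zero]))
      (mul_left_cancel₀ hh (by rw [← ep, ← e, eq]; ring)) rfl
    rw [Polynomial.natDegree_divX_eq_natDegree_tsub_one]
    omega
  · refine ⟨p.coeff 0 / q.coeff 0, fun x hx => ?_⟩
    have h1 : x.ord (Polynomial.aeval h q) = 0 :=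
      (val_ne_zero.1 (by rwa [val_of_V (aeval_sub (hS x hx).le q) (hS x hx)])).2
    have h2 := V_mul (sub_mem (aeval_sub (hS x hx).le p)
      (Submodule.smul_mem _ (p.coeff 0 / q.coeff 0) (aeval_sub (hS x hx).le q)))
      (V_of_le (f := (Polynomial.aeval h q)⁻¹) (n := 0) (by simp [h1]))
    rwa [add_zero, smul_sub, Algebra.smul_def, Algebra.smul_def, ← map_mul,
      div_mul_cancel₀ _ hq0, sub_sub_sub_cancel_right, ← e, ← sub_mul,
      mul_inv_cancel_right₀ hq] at h2

end Place

open Place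

/-- `S` is a full fibre over a place of the subfield `F` with uniformiser `h`. -/
structure Fib (F : Type) [Field F] [Algebra F K] (h : F) (S : Finset (Place k K)) : Prop where
  pos : ∀ x ∈ S, 0 < x.ord (algebraMap F K h)
  sum : ∑ x ∈ S, x.ord (algebraMap F K h) = Module.finrank F K
  const : ∀ c : F, (∀ x ∈ S, 0 ≤ x.ord (algebraMap F K c)) →
    ∃ a : k, ∀ x ∈ S, algebraMap F K c - algebraMap k K a ∈ x.V (x.ord (algebraMap F K h))

namespace Fib

variable {F : Type} [Field F] [Algebra F K] [FiniteDimensional F K] {h : F}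
  {S : Finset (Place k K)} (H : Fib F h S)

include H

lemma nonempty : S.Nonempty := by
  rw [Finset.nonempty_iff_ne_empty]
  rintro rfl
  have := H.sum
  have := Module.finrank_pos (R := F) (M := K)
  simp only [Finset.sum_empty] at *
  omega

/-- The norm of a function regular on the fibre, modulo `h`. -/
theorem val_norm {g : K} (hg : ∀ x ∈ S, 0 ≤ x.ord g) {y : Place k K} (hy : y ∈ S) :
    0 ≤ y.ord (algebraMap F K (Algebra.norm F g)) ∧ y.val (algebraMap F K (Algebra.norm F g)) =
      ∏ x ∈ S, x.val g ^ x.ord (algebraMap F K h) := by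
  classical
  set t := algebraMap F K h with ht
  have ht0 : t ≠ 0 := ne_zero_of_ord (H.pos y hy).ne'
  let I := (x : S) × Fin (x.1.ord t).toNat
  have hI : ∀ i : I, (i.2 : ℤ) < i.1.1.ord t := fun i => by have := i.2.2; omega
  choose z hz0 hz using fun i : I => exists_ord_eq S fun x => if x = i.1.1 then i.2 else x.ord t
  have hz1 : ∀ i : I, i.1.1.ord (z i) = i.2 := fun i => by rw [hz i _ i.1.2, if_pos rfl]
  have hz2 : ∀ (i : I) (x : S), x ≠ i.1 → x.1.ord (z i) = x.1.ord t := fun i x e => by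
    rw [hz i _ x.2, if_neg fun e' => e (Subtype.ext e')]
  have hz3 : ∀ (i : I), ∀ x ∈ S, z i ∈ x.V 0 := fun i x hx => V_of_le (by
    rw [hz i x hx]; split_ifs; exacts [by omega, (H.pos x hx).le])
  have C : ∀ (a : I → k) (i : I), ∑ j, a j • z j ∈ i.1.1.V (i.2 + 1) → a i = 0 := by
    rintro a ⟨x, j, hj⟩
    induction j using Nat.strong_induction_on with
    | _ j ih =>
    intro hw
    by_contra ha
    rw [← Finset.add_sum_erase _ _ (Finset.mem_univ (⟨x, j, hj⟩ : I))] at hw
    have h1 : ∑ i ∈ Finset.univ.erase (⟨x, j, hj⟩ : I), a i • z i ∈ x.1.V (j + 1) := by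
      refine Submodule.sum_mem _ fun i hi => ?_
      obtain ⟨x', j', hj'⟩ := i
      by_cases e : x = x'
      · subst e
        rcases lt_trichotomy j' j with e | rfl | e
        · rw [ih j' e hj', zero_smul]
          · exact zero_mem _
          rw [Finset.add_sum_erase _ (fun i => a i • z i) (Finset.mem_univ _)] at hw
          exact V_mono hw (by simp only; omega)
        · simp only [Finset.mem_erase, ne_eq, not_true_eq_false, Finset.mem_univ, and_true] at hi
        · exact Submodule.smul_mem _ _ (V_of_le (by rw [hz1 ⟨x, j', hj'⟩]; simp only; omega))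
      · exact Submodule.smul_mem _ _ (V_of_le (by rw [hz2 _ x e]; omega))
    have h2 := (Submodule.smul_mem_iff _ ha).1 ((add_mem_cancel_right h1).1 hw)
    have h3 := (mem_V.1 h2).resolve_left (hz0 _)
    rw [hz1 ⟨x, j, hj⟩] at h3
    simp only [add_le_iff_nonpos_right, Int.reduceLE] at h3
  have D : ∀ c : I → F, (∀ i, ∀ x ∈ S, 0 ≤ x.ord (algebraMap F K (c i))) → ∀ x ∈ S,
      ∑ j, c j • z j - ∑ j, y.val (algebraMap F K (c j)) • z j ∈ x.V (x.ord t) := by
    intro c hc x hx
    rw [← Finset.sum_sub_distrib]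
    refine Submodule.sum_mem _ fun i _ => ?_
    obtain ⟨a, ha⟩ := H.const (c i) (hc i)
    rw [val_of_V (ha y hy) (H.pos y hy), Algebra.smul_def, Algebra.smul_def, ← sub_mul]
    simpa using V_mul (ha x hx) (hz3 i x hx)
  have A : ∀ c : I → F, (∀ x ∈ S, ∑ j, c j • z j ∈ x.V 0) →
      ∀ i, ∀ x ∈ S, 0 ≤ x.ord (algebraMap F K (c i)) := by
    intro c hc
    have key : ∀ N : ℕ, (∀ i, ∀ x ∈ S, 0 ≤ x.ord (algebraMap F K (h ^ N * c i))) →
        ∀ i, ∀ x ∈ S, 0 ≤ x.ord (algebraMap F K (c i)) := by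
      intro N
      induction N with
      | zero => simp only [pow_zero, one_mul, imp_self]
      | succ N ih =>
        refine fun hN => ih fun i x hx => ?_
        have h1 : y.val (algebraMap F K (h ^ (N + 1) * c i)) = 0 := by
          refine C (fun j => y.val (algebraMap F K (h ^ (N + 1) * c j))) i ?_
          have h2 := D _ hN i.1.1 i.1.2
          have h3 : ∑ j, (h ^ (N + 1) * c j) • z j ∈ i.1.1.V (i.1.1.ord t) := by
            simp only [mul_smul, ← Finset.smul_sum]
            rw [Algebra.smul_def, map_pow]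
            refine V_mono (V_mul (V_of_le le_rfl) (hc _ i.1.2)) ?_
            have := H.pos _ i.1.2
            rw [ord_pow, ← ht] at *
            push_cast
            nlinarith only [this]
          exact V_mono (by simpa only [map_mul, map_pow, sub_sub_cancel] using sub_mem h3 h2) (hI i)
        obtain ⟨a, ha⟩ := H.const _ (hN i)
        rw [← val_of_V (ha y hy) (H.pos y hy), h1, map_zero, sub_zero] at ha
        have h4 := V_mul (V_of_le (f := t⁻¹) le_rfl) (ha x hx)
        rw [ord_inv, neg_add_cancel, pow_succ', mul_assoc, map_mul, inv_mul_cancel_left₀ ht0] at h4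
        exact V_zero.1 h4
    refine key (∑ i, ∑ x ∈ S, (x.ord (algebraMap F K (c i))).natAbs) fun i x hx => ?_
    have h1 := (Finset.single_le_sum (f := fun x => (x.ord (algebraMap F K (c i))).natAbs)
      (fun _ _ => Nat.zero_le _) hx).trans (Finset.single_le_sum
        (f := fun i => ∑ x ∈ S, (x.ord (algebraMap F K (c i))).natAbs) (fun _ _ => Nat.zero_le _)
        (Finset.mem_univ i))
    rw [map_mul, map_pow]
    refine V_zero.1 (V_mono (V_mul (V_of_le le_rfl) (V_of_le le_rfl)) ?_)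
    have := H.pos x hx
    rw [ord_pow, ← ht] at *
    generalize ∑ i, ∑ x ∈ S, (x.ord (algebraMap F K (c i))).natAbs = N at *
    nlinarith only [neg_abs_le (x.ord (algebraMap F K (c i))), this, h1]
  have hli : LinearIndependent F z := by
    refine Fintype.linearIndependent_iff.2 fun c hc i => by_contra fun hi => ?_
    have hi' : algebraMap F K (c i) ≠ 0 := by simpa using hi
    have := A (fun j => h ^ (-(|y.ord (algebraMap F K (c i))| + 1)) * c j) (fun x _ => by
      simp only [mul_smul, ← Finset.smul_sum, hc, smul_zero, zero_mem]) i y hy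
    rw [map_mul, map_zpow₀, ord_mul (zpow_ne_zero _ ht0) hi', ord_zpow] at this
    nlinarith only [H.pos y hy, le_abs_self (y.ord (algebraMap F K (c i))), abs_nonneg (y.ord (algebraMap F K (c i))), this]
  have hcard : Fintype.card I = Module.finrank F K := by
    have := H.sum
    rw [← Finset.sum_coe_sort] at this
    rw [Fintype.card_sigma]
    zify
    rw [← this]
    exact Finset.sum_congr rfl fun x _ => by
      rw [Fintype.card_fin, Int.toNat_of_nonneg (H.pos _ x.2).le]
  have : Nonempty I := Fintype.card_pos_iff.1 (hcard ▸ Module.finrank_pos)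
  let b := basisOfLinearIndependentOfCardEqFinrank hli hcard
  have hb : ∀ i, b i = z i := fun i => by simp [b]
  have hM : ∀ i, ∑ j, Algebra.leftMulMatrix b g j i • z j = g * z i := fun i => by
    simp only [Algebra.leftMulMatrix_eq_repr_mul, ← hb, b.sum_repr]
  have hM0 : ∀ i j, ∀ x ∈ S, 0 ≤ x.ord (algebraMap F K (Algebra.leftMulMatrix b g j i)) :=
    fun i => A _ fun x hx => by simpa [hM] using V_mul (V_of_le (hg x hx)) (hz3 i x hx)
  let M : Matrix I I y.O := fun j i => ⟨_, mem_O'.2 (hM0 i j y hy)⟩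
  have hdet : algebraMap F K (Algebra.norm F g) = (M.det : y.O) := by
    rw [Algebra.norm_eq_matrix_det b, RingHom.map_det]
    exact (RingHom.map_det y.O.val.toRingHom M).symm
  have tri : ∀ j i : I, j.1 ≠ i.1 ∨ (j.2 : ℕ) ≤ i.2 → y.val (algebraMap F K
      (Algebra.leftMulMatrix b g j i)) = if j = i then i.1.1.val g else 0 := by
    intro j i hji
    refine sub_eq_zero.1 (C (fun j => y.val (algebraMap F K (Algebra.leftMulMatrix b g j i)) -
      if j = i then i.1.1.val g else 0) j ?_)
    simp only [sub_smul, Finset.sum_sub_distrib]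
    rw [Finset.sum_eq_single_of_mem (f := fun j => (if j = i then i.1.1.val g else 0) • z j) i
      (Finset.mem_univ _) fun j _ e => by rw [if_neg e, zero_smul], if_pos rfl]
    have h1 := V_mono (D _ (hM0 i) j.1.1 j.1.2) (hI j)
    rw [hM] at h1
    have h2 : g * z i - i.1.1.val g • z i ∈ j.1.1.V (j.2 + 1) := by
      rw [Algebra.smul_def, ← sub_mul]
      by_cases e : j.1 = i.1
      · have := hji.resolve_left (not_not.2 e)
        have h3 := V_mul (V_val (hg _ i.1.2)) (V_of_le (hz1 i).ge)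
        generalize i.1.1.val g = a at h3 ⊢
        generalize (i.2 : ℕ) = a at h3 this
        rw [← e] at h3
        exact V_mono h3 (by omega)
      · refine V_mono (V_mul (V_of_le (ord_sub_nonneg (hg _ j.1.2) (by simp)))
          (V_of_le (hz2 i _ e).ge)) ?_
        have := hI j
        omega
    simpa only [sub_sub_sub_cancel_left] using sub_mem h2 h1
  rw [hdet]
  refine ⟨mem_O'.1 M.det.2, ?_⟩
  rw [← valHom_apply, AlgHom.map_det, det_tri (fun i : I => (i.2 : ℕ))]
  · refine (Finset.prod_congr rfl fun i _ => (tri i i (.inr le_rfl)).trans (if_pos rfl)).trans ?_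
    rw [← Finset.prod_coe_sort S, Fintype.prod_sigma]
    refine Finset.prod_congr rfl fun x _ => ?_
    dsimp only
    rw [Finset.prod_const, Finset.card_univ, Fintype.card_fin, ← zpow_natCast,
      Int.toNat_of_nonneg (H.pos _ x.2).le]
  · exact fun j i e hji => (tri j i (.inr hji)).trans (if_neg e)

/-- The order of a norm is the sum of the orders along the fibre. -/
theorem ord_norm {g : K} (hg : g ≠ 0) {y : Place k K} (hy : y ∈ S) :
    y.ord (algebraMap F K (Algebra.norm F g)) =
      y.ord (algebraMap F K h) * ∑ x ∈ S, x.ord g := by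
  classical
  have n0 : ∀ {g : K}, g ≠ 0 → algebraMap F K (Algebra.norm F g) ≠ 0 := fun hg => by
    simpa using hg
  choose π hπ0 hπ using fun x : Place k K => exists_ord_eq S fun y => if y = x then 1 else 0
  have key : ∀ {g : K}, g ≠ 0 → y.ord (algebraMap F K (Algebra.norm F g)) =
      ∑ x ∈ S, x.ord g * y.ord (algebraMap F K (Algebra.norm F (π x))) := by
    intro g hg
    have hp : ∏ x ∈ S, π x ^ x.ord g ≠ 0 :=
      Finset.prod_ne_zero_iff.2 fun x _ => zpow_ne_zero _ (hπ0 x)
    have hu : ∀ w ∈ S, w.ord (g / ∏ x ∈ S, π x ^ x.ord g) = 0 := fun w hw => by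
      rw [ord_div hg hp, ord_prod _ _ fun x _ => zpow_ne_zero _ (hπ0 x),
        Finset.sum_eq_single_of_mem w hw fun x _ e => by simp [hπ x w hw, e.symm]]
      simp [hπ w w hw]
    have h1 := (H.val_norm (fun w hw => (hu w hw).ge) hy).2
    have h2 := (val_ne_zero.1 (h1.trans_ne (Finset.prod_ne_zero_iff.2 fun w hw => zpow_ne_zero _
      (val_ne_zero.2 ⟨div_ne_zero hg hp, hu w hw⟩)))).2
    have h3 : ∀ (f : K) (n : ℤ), f ≠ 0 → Algebra.norm F (f ^ n) = Algebra.norm F f ^ n :=
      fun f n _ => by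
        cases n with
        | ofNat n => simp
        | negSucc n => rw [zpow_negSucc, zpow_negSucc, Algebra.norm_inv, map_pow]
    nth_rewrite 1 [← div_mul_cancel₀ g hp]
    rw [map_mul, map_mul, ord_mul (n0 (div_ne_zero hg hp)) (n0 hp), h2, zero_add, map_prod,
      map_prod, ord_prod _ _ fun x _ => n0 (zpow_ne_zero _ (hπ0 x))]
    exact Finset.sum_congr rfl fun x _ => by rw [h3 _ _ (hπ0 x), map_zpow₀, ord_zpow]
  have ge : ∀ x ∈ S, y.ord (algebraMap F K h) ≤ y.ord (algebraMap F K (Algebra.norm F (π x))) := by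
    intro x hx
    have h0 : ∀ w ∈ S, 0 ≤ w.ord (π x) := fun w hw => by rw [hπ x w hw]; split_ifs <;> simp
    obtain ⟨a, ha⟩ := H.const _ fun w hw => (H.val_norm h0 hw).1
    have h1 := (H.val_norm h0 hy).2
    rw [Finset.prod_eq_zero hx (by
      rw [(val_eq_zero (h0 x hx)).2 (.inr (by simp [hπ x x hx])), zero_zpow _ (H.pos x hx).ne']),
      val_of_V (ha y hy) (H.pos y hy)] at h1
    exact (mem_V.1 (by simpa [h1] using ha y hy)).resolve_left (n0 (hπ0 x))
  have h1 := key (ne_zero_of_ord (H.pos y hy).ne')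
  rw [Algebra.norm_algebraMap, map_pow, ord_pow, ← H.sum, Finset.sum_mul] at h1
  have h2 := (Finset.sum_eq_sum_iff_of_le fun x hx =>
    mul_le_mul_of_nonneg_left (ge x hx) (H.pos x hx).le).1 h1
  rw [key hg, Finset.mul_sum]
  exact Finset.sum_congr rfl fun x hx => by
    rw [← mul_left_cancel₀ (H.pos x hx).ne' (h2 x hx), mul_comm]

end Fib

section norm
variable {K' : Type} [Field K'] [Algebra k K'] [FF k K] [FF k K']

lemma push_apply (φ : K →ₐ[k] K') (D : Div k K') {y : Place k K} {S : Finset (Place k K')}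
    (hS : ∀ x, x ∈ S ↔ res φ x = y) : push φ D y = ∑ x ∈ S, D x := by
  classical
  induction D using Finsupp.induction_linear with
  | zero => simp
  | add D E h h' => simp [h, h', Finset.sum_add_distrib]
  | single x m => simp [Finsupp.single_apply, hS]

variable [Algebra K K'] [IsScalarTower k K K']

variable (K') in
lemma exists_fib (y : Place k K) : ∃ (t : K) (S : Finset (Place k K')),
    (∀ x, x ∈ S ↔ res (inc k K K') x = y) ∧
    (∀ x ∈ S, ∀ f, x.ord (algebraMap K K' f) = ee (inc k K K') x * y.ord f) ∧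
    (∀ x ∈ S, x.ord (algebraMap K K' t) = ee (inc k K K') x) ∧ Fib K t S := by
  obtain ⟨t, -, ht⟩ := y.exists_ord 1
  have hS : ∀ x, x ∈ (finite_fibre (inc k K K') y).toFinset ↔ res (inc k K K') x = y := by simp
  have h1 : ∀ x ∈ (finite_fibre (inc k K K') y).toFinset, ∀ f,
      x.ord (algebraMap K K' f) = ee (inc k K K') x * y.ord f :=
    fun x hx f => (hS x).1 hx ▸ ord_res (inc k K K') x f
  have h2 := fun x hx => (h1 x hx t).trans (by rw [ht, mul_one])
  refine ⟨t, _, hS, h1, h2, fun x hx => by simpa [h2 x hx] using ee_pos _ x, ?_, fun c hc => ?_⟩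
  · rw [Finset.sum_congr rfl h2, ← Nat.cast_sum, sum_ee _ y _ hS, dgr_inc]
  · obtain ⟨w, hw⟩ := res_surj (inc k K K') y
    have h3 := hc w ((hS w).2 hw)
    rw [h1 w ((hS w).2 hw)] at h3
    have h4 := V_val (nonneg_of_mul_nonneg_right h3 (by simpa using ee_pos _ w))
    refine ⟨y.val c, fun x hx => ?_⟩
    rw [IsScalarTower.algebraMap_apply k K K', ← map_sub, mem_V, h2 x hx, h1 x hx]
    exact (mem_V.1 h4).imp (fun e => by simp [e]) fun e => le_mul_of_one_le_right (by simp) e

theorem val_norm (y : Place k K) (g : K') (h : ∀ x, res (inc k K K') x = y → 0 ≤ x.ord g) :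
    0 ≤ y.ord (Algebra.norm K g) ∧
      y.val (Algebra.norm K g) = ev g (pull (inc k K K') (Finsupp.single y 1)) := by
  have := FF.finite_ext k K K'
  obtain ⟨t, S, hS, h1, h2, H⟩ := exists_fib K' y
  obtain ⟨w, hw⟩ := H.nonempty
  obtain ⟨h3, h4⟩ := H.val_norm (fun x hx => h x ((hS x).1 hx)) hw
  rw [h1 w hw] at h3
  refine ⟨nonneg_of_mul_nonneg_right h3 (by simpa using ee_pos _ w), ?_⟩
  rw [ev_eq_prod (S := S) fun x hx => (hS x).2 (by
    by_contra e
    simp [pull_apply, Finsupp.single_eq_of_ne e] at hx), ← (hS w).1 hw, ← val_res]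
  exact h4.trans (Finset.prod_congr rfl fun x hx => by
    simp [pull_apply, h2 x hx, (hS x).1 hx, (hS w).1 hw])

theorem dv_norm (g : K') : dv k (Algebra.norm K g) = push (inc k K K') (dv k g) := by
  have := FF.finite_ext k K K'
  rcases eq_or_ne g 0 with rfl | hg
  · simp
  ext y
  obtain ⟨t, S, hS, h1, h2, H⟩ := exists_fib K' y
  obtain ⟨w, hw⟩ := H.nonempty
  have h3 := H.ord_norm hg hw
  rw [h1 w hw, h2 w hw] at h3
  simpa [push_apply _ _ hS] using mul_left_cancel₀ (by simpa using (ee_pos _ w).ne') h3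

theorem ev_norm {g : K'} {D : Div k K} (h : Off g (pull (inc k K K') D)) :
    Off (Algebra.norm K g) D ∧ ev (Algebra.norm K g) D = ev g (pull (inc k K K') D) := by
  have := FF.finite_ext k K K'
  have h1 : ∀ y, D y ≠ 0 → ∀ x, res (inc k K K') x = y → x.ord g = 0 := fun y hy x hx =>
    h.2 x (by simpa [pull_apply, hx, hy] using (ee_pos _ x).ne')
  have h2 : ∀ y, D y ≠ 0 → Off g (pull (inc k K K') (Finsupp.single y 1)) := fun y hy =>
    ⟨h.1, fun x hx => h1 y hy x (by
      by_contra e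
      simp [pull_apply, Finsupp.single_eq_of_ne e] at hx)⟩
  have h3 := fun y hy => (val_norm y g fun x hx => (h1 y hy x hx).ge).2
  refine ⟨⟨by simpa using h.1, fun y hy =>
    (val_ne_zero.1 ((h3 y hy).trans_ne (h2 y hy).ev_ne)).2⟩, ?_⟩
  have key : ∀ T : Finset (Place k K), (∀ y ∈ T, D y ≠ 0) →
      Off g (pull (inc k K K') (∑ y ∈ T, D y • Finsupp.single y 1)) ∧
      ev g (pull (inc k K K') (∑ y ∈ T, D y • Finsupp.single y 1)) =
        ∏ y ∈ T, y.val (Algebra.norm K g) ^ D y := by
    intro T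
    induction T using Finset.cons_induction with
    | empty => exact fun _ => ⟨⟨h.1, by simp⟩, by simp⟩
    | cons y T hy ih =>
      intro hT
      obtain ⟨h4, h5⟩ := ih fun w hw => hT w (by simp [hw])
      have h6 := (h2 y (hT y (by simp))).zsmul (D y)
      rw [Finset.sum_cons, Finset.prod_cons, map_add, map_zsmul, ev_add h6 h4, ev_zsmul, h5,
        h3 y (hT y (by simp))]
      exact ⟨h6.add h4, rfl⟩
  have h7 := (key D.support fun y hy => Finsupp.mem_support_iff.1 hy).2
  rw [ev_eq_prod subset_rfl, ← h7]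
  simp only [Finsupp.smul_single, smul_eq_mul, mul_one]
  exact congrArg (fun E => ev g (pull _ E)) D.sum_single

end norm

end Pool.Agent.MP_855f4c_ag.WD

end

section

attribute [-instance] IsPurelyInseparable.isIntegral Algebra.WeaklyEtale.flat Algebra.Smooth.flat
  RKHS.instFunLike NeZero.charZero_one CommMonTypeEquivalenceCommMon.commMonCommMonoid
  CommRing.Pic.instFreeOfSubsingleton Algebra.IsFiniteSplit.instFree
  IsRightCancelAdd.addRightStrictMono_of_addRightMono CompletePartialOrder.toPartialOrder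
  IdemSemiring.toSemiring SetLike.GradeZero.instCommRing Algebra.IsQuadraticExtension.toFree

namespace Pool.Agent.MP_855f4c_ag.WD

open WithZero IntermediateField Place

variable {k K : Type} [Field k] [Field K] [Algebra k K]

/-! Row RC: Weil reciprocity. -/

lemma RC_rep [IsAlgClosed k] {f : K} (hf : ∀ s : k, f - algebraMap k K s ≠ 0) {r : K} (hr : r ∈ k⟮f⟯)
    (h0 : r ≠ 0) : ∃ (c : k) (m : k →₀ ℤ), c ≠ 0 ∧
      r = algebraMap k K c * m.prod fun s n => (f - algebraMap k K s) ^ n := by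
  have hadd : ∀ m m' : k →₀ ℤ, ((m + m').prod fun s n => (f - algebraMap k K s) ^ n) =
      (m.prod fun s n => (f - algebraMap k K s) ^ n) * m'.prod fun s n => (f - algebraMap k K s) ^ n :=
    fun m m' => Finsupp.prod_add_index' (by simp) fun s => zpow_add₀ (hf s)
  have key : ∀ p : Polynomial k, Polynomial.aeval f p ≠ 0 → ∃ (c : k) (m : k →₀ ℤ), c ≠ 0 ∧
      Polynomial.aeval f p = algebraMap k K c * m.prod fun s n => (f - algebraMap k K s) ^ n := by
    intro p hp
    have hp0 : p ≠ 0 := by rintro rfl; simp at hp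
    obtain ⟨m, hm⟩ : ∃ m : k →₀ ℤ, Polynomial.aeval f (p.roots.map fun a =>
        Polynomial.X - Polynomial.C a).prod = m.prod fun s n => (f - algebraMap k K s) ^ n := by
      induction p.roots using Multiset.induction_on with
      | empty => exact ⟨0, by simp⟩
      | cons a s ih =>
        obtain ⟨m, hm⟩ := ih
        exact ⟨Finsupp.single a 1 + m, by rw [hadd, ← hm]; simp⟩
    refine ⟨p.leadingCoeff, m, by simpa using hp0, ?_⟩
    rw [← hm, ← Polynomial.aeval_C, ← map_mul, ← (IsAlgClosed.splits p).eq_prod_roots]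
  obtain ⟨p, q, rfl⟩ := (mem_adjoin_simple_iff k _).1 hr
  obtain ⟨c, m, hc, e⟩ := key p (div_ne_zero_iff.1 h0).1
  obtain ⟨c', m', hc', e'⟩ := key q (div_ne_zero_iff.1 h0).2
  refine ⟨c / c', m - m', div_ne_zero hc hc', ?_⟩
  have h1 := hadd (m - m') m'
  rw [sub_add_cancel] at h1
  have h2 := (div_ne_zero_iff.1 h0).2
  rw [e'] at h2
  rw [e, e', h1, map_div₀, ← mul_assoc, mul_div_mul_right _ _ (right_ne_zero_of_mul h2),
    div_mul_eq_mul_div]

lemma fib_adjoin [FF k K] {f h : K} (e : k⟮h⟯ = k⟮f⟯) (hh : Transcendental k h) :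
    ∃ (S : Finset (Place k K)) (h' : h ∈ k⟮f⟯), (∀ x, x ∈ S ↔ 0 < x.ord h) ∧
      Fib k⟮f⟯ ⟨h, h'⟩ S := by
  have hS : ∀ x, x ∈ (dv k h).support.filter (fun x => 0 < x.ord h) ↔ 0 < x.ord h := fun x => by
    simp only [Finset.mem_filter, Finsupp.mem_support_iff, dv_apply]; omega
  refine ⟨_, e.le (mem_adjoin_simple_self k h), hS, fun x hx => (hS x).1 hx,
    (sum_zeros h (fun ⟨c, hc⟩ => hh (hc ▸ isAlgebraic_algebraMap c)) _ hS).trans (by rw [e]),
    fun c hc => const_mod ?_ (fun x hx => (hS x).1 hx) (e.ge c.2) hc⟩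
  rintro rfl
  exact hh isAlgebraic_zero

theorem recip_aux [FF k K] {f g : K} (hf' : f ∉ Set.range (algebraMap k K))
    (hg : Off g (dv k f)) : ev f (dv k g) = ev g (dv k f) := by
  classical
  have := FF.closed (k := k) (K := K)
  have := FF.fin hf'
  have hf := FF.transc hf'
  have hs : ∀ s : k, Transcendental k (f - algebraMap k K s) := fun s h =>
    hf (by simpa using h.add (isAlgebraic_algebraMap s))
  have hs0 : ∀ s : k, f - algebraMap k K s ≠ 0 := fun s e => hs s (e ▸ isAlgebraic_zero)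
  have hf0 : f ≠ 0 := by simpa using hs0 0
  have hg' : ∀ x : Place k K, x.ord f ≠ 0 → x.ord g = 0 := fun x hx => hg.2 x (by rwa [dv_apply])
  obtain ⟨c, m, hc, hN⟩ := RC_rep hs0 (Algebra.norm k⟮f⟯ g).2 (by simpa using hg.1)
  choose S hS' hS H using fun s : k => fib_adjoin (f := f) (h := f - algebraMap k K s)
    (le_antisymm (adjoin_simple_le_iff.2 (sub_mem (mem_adjoin_simple_self k f)
      (IntermediateField.algebraMap_mem _ s))) (adjoin_simple_le_iff.2 (by
        simpa using add_mem (mem_adjoin_simple_self k (f - algebraMap k K s))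
          (IntermediateField.algebraMap_mem _ s)))) (hs s)
  obtain ⟨T, hT', hT, G⟩ := fib_adjoin (f := f) (h := f⁻¹)
    (le_antisymm (adjoin_simple_le_iff.2 (inv_mem (mem_adjoin_simple_self k f)))
      (adjoin_simple_le_iff.2 (by simpa using inv_mem (mem_adjoin_simple_self k f⁻¹))))
    fun h => hf (by simpa using h.inv)
  have hv : ∀ s, ∀ x ∈ S s, 0 ≤ x.ord f ∧ x.val f = s := fun s x hx =>
    val_eq (v_lt_one.2 (.inr ((hS s x).1 hx)))
  have hv' : ∀ s, ∀ x ∈ S s, ∀ s', x.val (f - algebraMap k K s') = s - s' := fun s x hx s' => by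
    rw [val_sub (hv s x hx).1 (by simp), (hv s x hx).2, val_const]
  have hord : ∀ x : Place k K, x.ord (Algebra.norm k⟮f⟯ g : K) =
      ∑ s ∈ m.support, m s * x.ord (f - algebraMap k K s) := fun x => by
    have hp := fun s (_ : s ∈ m.support) => zpow_ne_zero (m s) (hs0 s)
    rw [hN, Finsupp.prod, ord_mul (by simpa using hc) (Finset.prod_ne_zero_iff.2 hp),
      ord_prod _ _ hp]
    simp
  have hm : ∀ s, m s = ∑ x ∈ S s, x.ord g := fun s => by
    obtain ⟨y, hy⟩ := (H s).nonempty
    have h1 := (hord y).symm.trans ((H s).ord_norm hg.1 hy)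
    rw [Finset.sum_eq_single s (fun s' _ e => by
      rw [(val_ne_zero.1 ((hv' s y hy s').trans_ne (sub_ne_zero.2 e.symm))).2, mul_zero])
      (fun e => by rw [Finsupp.notMem_support_iff.1 e, zero_mul]), mul_comm] at h1
    exact mul_left_cancel₀ ((hS s y).1 hy).ne' h1
  obtain ⟨y, hy⟩ := (H 0).nonempty
  obtain ⟨w, hw⟩ := G.nonempty
  have hT0 : ∀ x, x ∈ T ↔ x.ord f < 0 := fun x => by rw [hT, ord_inv]; omega
  have hS0 : ∀ x, x ∈ S 0 ↔ 0 < x.ord f := fun x => by simpa using hS 0 x
  have h1 := ((H 0).val_norm (fun x hx => (hg' x ((hS0 x).1 hx).ne').ge) hy).2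
  have h2 := (G.val_norm (fun x hx => (hg' x ((hT0 x).1 hx).ne).ge) hw).2
  have hw1 : ∀ s, w.val ((f - algebraMap k K s) / f) = 1 := fun s => by
    refine (val_eq ?_).2
    rw [map_one, sub_div, div_self hf0, sub_sub_cancel_left, Valuation.map_neg, map_div₀]
    exact (div_lt_one₀ (zero_lt_one.trans (one_lt_v.2 ((hT0 w).1 hw)))).2
      ((w.const s).trans_lt (one_lt_v.2 ((hT0 w).1 hw)))
  have hw2 : ∀ s, w.ord ((f - algebraMap k K s) / f) = 0 := fun s =>
    (val_ne_zero.1 ((hw1 s).trans_ne one_ne_zero)).2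
  have hsum : ∑ s ∈ m.support, m s = 0 := by
    have h3 := (val_ne_zero.1 (h2.trans_ne (Finset.prod_ne_zero_iff.2 fun x hx => zpow_ne_zero _
      (val_ne_zero.2 ⟨hg.1, hg' x ((hT0 x).1 hx).ne⟩)))).2
    replace h3 := (hord w).symm.trans h3
    rw [Finset.sum_congr rfl fun s _ => by
      rw [sub_eq_zero.1 ((ord_div (hs0 s) hf0).symm.trans (hw2 s))], ← Finset.sum_mul] at h3
    exact (mul_eq_zero.1 h3).resolve_right ((hT0 w).1 hw).ne
  have h4 : w.val (Algebra.norm k⟮f⟯ g : K) = c := by
    have : (m.prod fun s n => (f - algebraMap k K s) ^ n) =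
        ∏ s ∈ m.support, ((f - algebraMap k K s) / f) ^ m s := by
      simp only [div_zpow, Finset.prod_div_distrib]
      rw [← zpow_sum' hf0, hsum, zpow_zero, div_one, Finsupp.prod]
    rw [hN, this, ← Algebra.smul_def, val_smul (mem_O'.1 (w.O.prod_mem fun s _ =>
      mem_O'.2 (by simp [hw2 s]))), val_prod _ _ fun s _ => by simp [hw2 s]]
    simp [val_zpow (hw2 _), hw1]
  have hm0 : ∀ s ∈ m.support, s ≠ 0 := by
    rintro s hs rfl
    exact Finsupp.mem_support_iff.1 hs ((hm 0).trans
      (Finset.sum_eq_zero fun x hx => hg' x ((hS0 x).1 hx).ne'))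
  have h5 : y.val (Algebra.norm k⟮f⟯ g : K) = c * ∏ s ∈ m.support, s ^ m s := by
    have ho : ∀ s ∈ m.support, y.ord (f - algebraMap k K s) = 0 := fun s hs =>
      (val_ne_zero.1 ((hv' 0 y hy s).trans_ne (by simpa using hm0 s hs))).2
    rw [hN, ← Algebra.smul_def, Finsupp.prod, val_smul (mem_O'.1 (y.O.prod_mem fun s hs =>
      mem_O'.2 (by simp [ho s hs]))), val_prod _ _ fun s hs => by simp [ho s hs],
      Finset.prod_congr rfl fun s hs => by
        rw [val_zpow (ho s hs), hv' 0 y hy, zero_sub, ← neg_one_mul, mul_zpow],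
      Finset.prod_mul_distrib, ← zpow_sum' (by simp), hsum, zpow_zero, one_mul]
  have h6 : ev g (dv k f) = ∏ s ∈ m.support, s ^ m s := by
    rw [ev_eq_prod (S := S 0 ∪ T) fun x hx => by
      rw [Finsupp.mem_support_iff, dv_apply] at hx
      rw [Finset.mem_union, hS0, hT0]; omega, Finset.prod_union (Finset.disjoint_left.2
        fun x hx hx' => by rw [hS0] at hx; rw [hT0] at hx'; omega)]
    have e1 : ∏ x ∈ S 0, x.val g ^ dv k f x = c * ∏ s ∈ m.support, s ^ m s := by
      rw [← h5]
      exact (Finset.prod_congr rfl fun x _ => by simp [dv_apply]).trans h1.symm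
    have e2 : ∏ x ∈ T, x.val g ^ dv k f x = c⁻¹ := by
      rw [← h4, show (Algebra.norm k⟮f⟯ g : K) = algebraMap _ K (Algebra.norm k⟮f⟯ g) from rfl, h2,
        ← Finset.prod_inv_distrib]
      exact Finset.prod_congr rfl fun x _ => by simp [dv_apply]
    rw [e1, e2, mul_right_comm, mul_inv_cancel₀ hc, one_mul]
  have hu : ∀ x ∈ (dv k g).support, x.ord f = 0 := fun x hx => by_contra fun e =>
    Finsupp.mem_support_iff.1 hx ((dv_apply g x).trans (hg' x e))
  have hm' : ∀ s, m s = ∑ x ∈ (dv k g).support with x.val f = s, x.ord g := fun s => by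
    rw [hm]
    refine (Finset.sum_subset (fun x hx => ?_) fun x hx hx' => ?_).symm
    · rw [Finset.mem_filter] at hx
      rw [hS, ← hx.2]
      exact (v_lt_one.1 (val_spec (hu x hx.1).ge)).resolve_left (hs0 _)
    · by_contra e
      exact hx' (Finset.mem_filter.2 ⟨by rwa [Finsupp.mem_support_iff, dv_apply], (hv s x hx).2⟩)
  rw [h6, ev_eq_prod subset_rfl, ← Finset.prod_fiberwise_of_maps_to
    (t := m.support ∪ (dv k g).support.image fun x => x.val f) (g := fun x => x.val f)
      fun x hx => Finset.mem_union_right _ (Finset.mem_image_of_mem _ hx),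
    Finset.prod_subset (s₁ := m.support) Finset.subset_union_left fun s _ hs => by
      rw [Finsupp.notMem_support_iff.1 hs, zpow_zero]]
  refine Finset.prod_congr rfl fun s hs => ?_
  have : s ≠ 0 := by
    rcases Finset.mem_union.1 hs with hs | hs
    · exact hm0 s hs
    · obtain ⟨x, hx, rfl⟩ := Finset.mem_image.1 hs
      exact val_ne_zero.2 ⟨hf0, hu x hx⟩
  rw [hm', zpow_sum' this]
  exact Finset.prod_congr rfl fun x hx => by rw [(Finset.mem_filter.1 hx).2, dv_apply]

/-- Weil reciprocity. -/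
theorem recip [FF k K] {f g : K} (hg : g ≠ 0) (h : Off f (dv k g)) :
    ev f (dv k g) = ev g (dv k f) := by
  by_cases h1 : f ∈ Set.range (algebraMap k K)
  · obtain ⟨c, rfl⟩ := h1
    rw [ev_const (by simpa using h.1)]
    simp
  · exact recip_aux h1 (h.symm hg)

end Pool.Agent.MP_855f4c_ag.WD

end

section

attribute [-instance] Finsupp.smulZeroClass Semiring.toMonoid SMulWithZero.toSMulZeroClass
  DistribMulActionSemiHomClass.toAddMonoidHomClass Subgroup.instMulAction
  IsAddCyclic.isAddCommutative NonUnitalNormedRing.toNormedAddCommGroup Finsupp.distribSMul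
  MonTypeEquivalenceMon.monMonoid SetLike.GradeZero.instMonoid
  ESeminormedAddCommMonoid.toAddCommMonoid DivisionCommMonoid.toDivisionMonoid CommRing.toRing
  SetLike.GradeZero.instAlgebraSubtypeMemOfNat RingHomClass.toLinearMapClassNNRat
  AlgHom.instNonUnitalAlgHomClassOfAlgHomClass CoalgHomClass.toSemilinearMapClass
  Algebra.ofSubsemiring NonUnitalNonAssocRing.toAddCommGroup MulZeroOneClass.toMulOneClass
  ESeminormedAddMonoid.toAddMonoid NormedAlgebra.toAlgebra QuotientAddGroup.instNormedAddCommGroup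
  AlgHomClass.toRingHomClass IdemSemiring.toSemiring
  PositiveLinearMap.instContinuousLinearMapClassComplexOfLinearMapClassOfOrderHomClass
  MonoidWithZero.toMonoid SetLike.GradeZero.instSemiring SetLike.GradeZero.instCommSemiring
  RKHS.instFunLike SetLike.GradeZero.instRing instSMulZeroClass NormedRing.toRing
  SeminormedAddCommGroup.toAddCommGroup RingHomClass.toLinearMapClassRat Bialgebra.toAlgebra
  AddCommGroupWithOne.toAddGroupWithOne SubsemiringClass.toCommSemiring
  instNonUnitalAlgHomClassOfNonUnitalAlgEquivClass NormedField.toField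
  SemilinearIsometryClass.toSemilinearMapClass TestFunctionClass.toDFunLike
  ContDiffMapSupportedInClass.toDFunLike littleWedderburn
  AlgHom.instContinuousLinearMapClassOfAlgHomClass SeminormedRing.toRing
  SemilinearEquivClass.instSemilinearMapClass NonUnitalSemiring.toNonUnitalNonAssocSemiring
  NonAssocCommSemiring.toNonAssocSemiring instCoeTCOfCoe NonUnitalAlgHomClass.instLinearMapClass
  IdemCommSemiring.toCommSemiring

namespace Pool.Agent.MP_855f4c_ag.WD

open WithZero
open scoped IntermediateField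

variable {k K : Type} [Field k] [Field K] [Algebra k K]

/-! Row SA: automorphisms of `K` that preserve the constants act on places, divisors, classes. -/

variable (k K) in
/-- semilinear automorphisms -/
def SA : Subgroup (K ≃+* K) where
  carrier := {σ | ∀ f, σ f ∈ Set.range (algebraMap k K) ↔ f ∈ Set.range (algebraMap k K)}
  mul_mem' {a b} ha hb f := (ha (b f)).trans (hb f)
  one_mem' _ := Iff.rfl
  inv_mem' {a} ha f := by have := ha (a.symm f); rw [a.apply_symm_apply] at this; exact this.symm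

namespace SA

theorem exists_cst (σ : SA k K) :
    ∃ τ : k ≃+* k, ∀ c, σ.1 (algebraMap k K c) = algebraMap k K (τ c) := by
  have inj := (algebraMap k K).injective
  choose a ha using fun c => (σ.2 (algebraMap k K c)).2 ⟨c, rfl⟩
  choose b hb using fun c => (σ⁻¹.2 (algebraMap k K c)).2 ⟨c, rfl⟩
  have hb' : ∀ c, algebraMap k K (b c) = σ.1.symm (algebraMap k K c) := hb
  exact ⟨{ toFun := a, invFun := b
           left_inv := fun c => inj (by rw [hb', ha, RingEquiv.symm_apply_apply])
           right_inv := fun c => inj (by rw [ha, hb', RingEquiv.apply_symm_apply])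
           map_mul' := fun c d => inj (by simp [ha])
           map_add' := fun c d => inj (by simp only [ha, map_add]) }, fun c => (ha c).symm⟩
/-- the action on the constants -/
noncomputable def cst : SA k K →* (k ≃+* k) where
  toFun σ := (exists_cst σ).choose
  map_one' := RingEquiv.ext fun c => (algebraMap k K).injective
    ((exists_cst 1).choose_spec c).symm
  map_mul' σ τ := RingEquiv.ext fun c => (algebraMap k K).injective (by
    rw [← (exists_cst (σ * τ)).choose_spec c]
    change σ.1 (τ.1 _) = algebraMap k K ((exists_cst σ).choose ((exists_cst τ).choose c))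
    rw [(exists_cst τ).choose_spec, (exists_cst σ).choose_spec])
lemma map_const (σ : SA k K) (c : k) : σ.1 (algebraMap k K c) = algebraMap k K (cst σ c) :=
  (exists_cst σ).choose_spec c
/-- constructor -/
def mk' (σ : K ≃+* K) (τ : k ≃+* k) (h : ∀ c, σ (algebraMap k K c) = algebraMap k K (τ c)) :
    SA k K := ⟨σ, fun f => ⟨fun ⟨c, hc⟩ => ⟨τ.symm c, σ.injective (by
      rw [h, RingEquiv.apply_symm_apply, hc])⟩, fun ⟨c, hc⟩ => ⟨τ c, by rw [← h, hc]⟩⟩⟩
@[simp] lemma mk'_apply (σ : K ≃+* K) (τ : k ≃+* k) (h) (f : K) : (mk' σ τ h).1 f = σ f := rfl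
theorem cst_eq (σ : SA k K) (c d : k) (h : σ.1 (algebraMap k K c) = algebraMap k K d) :
    cst σ c = d := (algebraMap k K).injective (by rw [← map_const, h])
@[simp] lemma cst_mk' (σ : K ≃+* K) (τ : k ≃+* k) (h) : cst (mk' σ τ h) = τ :=
  RingEquiv.ext fun c => cst_eq _ _ _ (h c)
lemma mul_apply (σ τ : SA k K) (f : K) : (σ * τ).1 f = σ.1 (τ.1 f) := rfl
@[simp] lemma apply_inv (σ : SA k K) (f : K) : σ.1 (σ⁻¹.1 f) = f := σ.1.apply_symm_apply f
@[simp] lemma inv_apply_self (σ : SA k K) (f : K) : σ⁻¹.1 (σ.1 f) = f := σ.1.symm_apply_apply f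
variable (k) in
/-- the automorphisms over a subfield `F ⊇ k` (take `F = k` for `K ≃ₐ[k] K`) -/
def ofGal (F : Type) [Field F] [Algebra k F] [Algebra F K] [IsScalarTower k F K] :
    (K ≃ₐ[F] K) →* SA k K where
  toFun h := mk' h.toRingEquiv 1 fun c => by
    change h _ = algebraMap k K c
    rw [IsScalarTower.algebraMap_apply k F K]; exact h.commutes _
  map_one' := rfl
  map_mul' _ _ := rfl
section
variable {F : Type} [Field F] [Algebra k F] [Algebra F K] [IsScalarTower k F K]
@[simp] lemma ofGal_apply (h : K ≃ₐ[F] K) (f : K) : (ofGal k F h).1 f = h f := rfl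
@[simp] theorem cst_ofGal (h : K ≃ₐ[F] K) : cst (ofGal k F h) = 1 :=
  RingEquiv.ext fun c => cst_eq _ c c (by
    rw [IsScalarTower.algebraMap_apply k F K]; exact h.commutes _)
end

noncomputable instance : MulAction (SA k K) (Place k K) where
  smul σ x :=
    { v := x.v.comap (σ.1.symm : K →+* K)
      unif := let ⟨t, ht⟩ := x.unif; ⟨σ.1 t, by simpa only [Valuation.comap_apply, RingHom.coe_coe, RingEquiv.symm_apply_apply, Int.reduceNeg, exp_neg] using ht⟩
      const := fun c => by
        have := x.const (cst σ⁻¹ c); rw [← map_const] at this; exact this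
      res := fun f hf => by
        obtain ⟨c, hc⟩ := x.res _ hf
        exact ⟨cst σ c, by rw [← map_const]; simpa only [Valuation.comap_apply, RingHom.coe_coe, map_sub, RingEquiv.symm_apply_apply] using hc⟩ }
  one_smul _ := rfl
  mul_smul _ _ _ := rfl
variable (σ : SA k K) (x : Place k K) (f : K) (D : Div k K)
lemma v_act : (σ • x).v f = x.v (σ.1.symm f) := rfl
@[simp] theorem ord_act : (σ • x).ord (σ.1 f) = x.ord f := by simp only [Place.ord, v_act, RingEquiv.symm_apply_apply]
@[simp] theorem val_act : (σ • x).val (σ.1 f) = cst σ (x.val f) := by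
  by_cases h : 0 ≤ x.ord f
  · refine (Place.val_eq ?_).2
    rw [← map_const, ← map_sub, v_act, RingEquiv.symm_apply_apply]; exact Place.val_spec h
  · rw [Place.val_pole (not_le.1 h), Place.val_pole (by simpa using h), map_zero]
theorem ord_map : x.ord (σ.1 f) = (σ⁻¹ • x).ord f := by
  rw [← ord_act σ (σ⁻¹ • x), smul_inv_smul]
theorem ord_act' : (σ • x).ord f = x.ord (σ⁻¹.1 f) := by rw [ord_map, inv_inv]

noncomputable instance : DistribMulAction (SA k K) (Div k K) := Finsupp.comapDistribMulAction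
lemma div_apply : (σ • D) x = D (σ⁻¹ • x) := Finsupp.comapSMul_apply σ D x
@[simp] lemma act_single (m : ℤ) : σ • (Finsupp.single x m : Div k K) = Finsupp.single (σ • x) m :=
  Finsupp.comapSMul_single σ x m
@[simp] lemma div_apply_act : (σ • D) (σ • x) = D x := by rw [div_apply, inv_smul_smul]
@[simp] theorem deg_act : deg (σ • D) = deg D := by
  induction D using Finsupp.induction_linear with
  | zero => simp
  | add a b ha hb => rw [smul_add, map_add, map_add, ha, hb]
  | single a m => simp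
theorem act_nonneg {D : Div k K} (h : 0 ≤ D) : 0 ≤ σ • D := fun x => by
  rw [div_apply]; exact h _
theorem act_nsmul (n : ℕ) : σ • (n • D) = n • σ • D :=
  map_nsmul (DistribSMul.toAddMonoidHom (Div k K) σ) n D
theorem act_zsmul (n : ℤ) : σ • (n • D) = n • σ • D :=
  map_zsmul (DistribSMul.toAddMonoidHom (Div k K) σ) n D
theorem dv_act [FF k K] : dv k (σ.1 f) = σ • dv k f := by ext x; rw [div_apply, dv_apply, dv_apply, ord_map]
theorem off_act : Off (σ.1 f) (σ • D) ↔ Off f D := by
  refine and_congr (by simp) ⟨fun h x hx => ?_, fun h x hx => ?_⟩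
  · simpa only [ord_act] using h (σ • x) (by simpa only [Finsupp.comapSMul_apply, inv_smul_smul, ne_eq] using hx)
  · rw [ord_map]; exact h _ (by rwa [div_apply] at hx)
theorem ev_act : ev (σ.1 f) (σ • D) = cst σ (ev f D) := by
  rw [Finsupp.comapSMul_def, ev, Finsupp.prod_mapDomain_index_inj (MulAction.injective σ), ev,
    Finsupp.prod, Finsupp.prod, map_prod]
  simp
theorem mem_LL_act : σ.1 f ∈ LL (σ • D) ↔ f ∈ LL D := by
  rw [mem_LL, mem_LL]
  refine or_congr (by simp) ⟨fun h x => by simpa only [ord_act, Finsupp.comapSMul_apply, inv_smul_smul] using h (σ • x), fun h x => ?_⟩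
  rw [ord_map, div_apply]; exact h _
theorem mem_Rg_act : σ.1 f ∈ Rg (σ • x) ↔ f ∈ Rg x := by
  rw [mem_Rg, mem_Rg]
  refine ⟨fun h y hy => by simpa only [ord_act] using h (σ • y) (by simpa using hy), fun h y hy => ?_⟩
  rw [ord_map]; exact h _ fun e => hy (by rw [← e, smul_inv_smul])

variable [FF k K]
noncomputable instance : DistribMulAction (SA k K) (Pic k K) where
  smul σ := QuotientAddGroup.map _ _ (DistribSMul.toAddMonoidHom (Div k K) σ) (by
    rintro _ ⟨f, hf, rfl⟩; exact ⟨σ.1 f, by simpa using hf, dv_act σ f⟩)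
  one_smul c := by obtain ⟨D, rfl⟩ := cls_surj c; exact congrArg cls (one_smul _ D)
  mul_smul σ τ c := by obtain ⟨D, rfl⟩ := cls_surj c; exact congrArg cls (mul_smul σ τ D)
  smul_zero _ := map_zero (QuotientAddGroup.map _ _ _ _)
  smul_add _ := map_add (QuotientAddGroup.map _ _ _ _)
@[simp] lemma act_cls : σ • cls D = cls (σ • D) := rfl
@[simp] theorem degP_act (c : Pic k K) : degP (σ • c) = degP c := by
  obtain ⟨D, rfl⟩ := cls_surj c; simp only [act_cls, degP_cls, deg_act]
theorem act_mem_JJ {n : ℕ} {c : Pic k K} (h : c ∈ JJ k K n) : σ • c ∈ JJ k K n := by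
  rw [AddSubgroup.torsionBy.nsmul_iff] at *
  have := map_nsmul (DistribSMul.toAddMonoidHom (Pic k K) σ) n c
  rw [h, map_zero] at this; exact this.symm
noncomputable instance (n : ℕ) : Module (ZMod n) (JJ k K n) := AddSubgroup.torsionBy.zmodModule
/-- the action on `J_n` -/
noncomputable def jac (n : ℕ) : JJ k K n →ₗ[ZMod n] JJ k K n :=
  AddMonoidHom.toZModLinearMap n (((DistribSMul.toAddMonoidHom (Pic k K) σ).comp
    (JJ k K n).subtype).codRestrict (JJ k K n) fun c => act_mem_JJ σ c.2)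
@[simp] lemma coe_jac (n : ℕ) (c : JJ k K n) : (jac σ n c : Pic k K) = σ • (c : Pic k K) := rfl

/-- compatibility with `φ` -/
theorem res_act {K' : Type} [Field K'] [Algebra k K'] [FF k K'] (φ : K →ₐ[k] K') (σ' : SA k K')
    (h : ∀ f, σ'.1 (φ f) = φ (σ.1 f)) (z : Place k K') :
    res φ (σ' • z) = σ • res φ z ∧ ee φ (σ' • z) = ee φ z :=
  res_ee_eq φ (ee_pos φ z) fun f => by
    rw [← apply_inv σ f, ← h, ord_act, ord_act, ord_res]
theorem act_pull {K' : Type} [Field K'] [Algebra k K'] [FF k K'] (φ : K →ₐ[k] K') (σ' : SA k K')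
    (h : ∀ f, σ'.1 (φ f) = φ (σ.1 f)) : σ' • pull φ D = pull φ (σ • D) := by
  ext z
  obtain ⟨z, rfl⟩ := MulAction.surjective σ' z
  simp only [div_apply_act, pull_apply, res_act σ φ σ' h z]
/-- an automorphism that fixes infinitely many places and the constants is trivial -/
theorem finite_fixed (hc : cst σ = 1) (h1 : σ ≠ 1) : {x : Place k K | σ • x = x}.Finite := by
  obtain ⟨f, hf⟩ : ∃ f, σ.1 f ≠ f := by
    by_contra h; push Not at h; exact h1 (Subtype.ext (RingEquiv.ext h))
  refine ((finite_ord (k := k) f).union (finite_ord (σ.1 f - f))).subset fun x hx => ?_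
  by_contra h
  simp only [Set.mem_union, Function.mem_support, not_or, not_not] at h
  have h2 : x.ord (σ.1 f) = x.ord f := by conv_lhs => rw [← hx, ord_act]
  have h3 : x.val (σ.1 f) = x.val f := by
    conv_lhs => rw [← hx, val_act, hc]
    rfl
  refine Place.val_ne_zero.2 ⟨sub_ne_zero.2 hf, h.2⟩ ?_
  rw [Place.val_sub (by omega) h.1.ge, h3, sub_self]

end SA

end Pool.Agent.MP_855f4c_ag.WD

end

section

attribute [-instance] SMulWithZero.toSMulZeroClass MonTypeEquivalenceMon.monMonoid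
  SubNegMonoid.toAddMonoid ESeminormedAddMonoid.toAddMonoid Ring.toSemiring RKHS.instFunLike
  ESeminormedAddCommMonoid.toAddCommMonoid Nontrivial.to_nonempty Finsupp.smulZeroClass
  SemilinearMapClass.distribMulActionSemiHomClass littleWedderburn Subgroup.instMulAction
  AddCommMonoidWithOne.toAddMonoidWithOne SubsemiringClass.toCommSemiring NeZero.charZero_one
  MonoidWithZero.toMonoid IdemSemiring.toSemiring SetLike.GradeZero.instCommSemiring CommRing.toRing
  SetLike.GradeZero.instSemiring NormedAlgebra.toAlgebra NonUnitalRingHomClass.toMulHomClass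
  BialgHomClass.toAlgHomClass decidableEq_of_subsingleton CharP.ofCharZero Bialgebra.toAlgebra
  AddCommGroupWithOne.toAddGroupWithOne instSMulZeroClass

namespace Pool.Agent.MP_855f4c_ag.WD

open WithZero
open scoped IntermediateField

section aux
variable {k M : Type} [Field k] [Field M] [Algebra k M]

section core
variable {G : Type} [Group G] [Fintype G] [MulAction G (Place k M)] (σ : G →* (M ≃+* M))
  (hord : ∀ (g : G) (z : Place k M) (f : M), (g • z).ord (σ g f) = z.ord f)

lemma unr_prod_fixed (a : M) (g : G) : σ g (∏ h : G, σ h a) = ∏ h : G, σ h a := by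
  rw [map_prod]
  exact Fintype.prod_equiv (Equiv.mulLeft g) _ _ fun h => by simp

include hord in
lemma unr_ord_prod {a : M} (ha : a ≠ 0) (z : Place k M) :
    z.ord (∏ h : G, σ h a) = ∑ h : G, (h • z).ord a := by
  rw [Place.ord_prod _ _ fun h _ => by simpa using ha]
  refine Fintype.sum_equiv (Equiv.inv G) _ _ fun h => ?_
  have := hord h (h⁻¹ • z) a
  rwa [smul_inv_smul] at this

include hord in
/-- An invariant function that vanishes at `z` to order `#Stab z` and is a unit at finitely many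
given places outside the orbit. -/
lemma unr_exists (z : Place k M) (T : Finset (Place k M)) :
    ∃ f : M, f ≠ 0 ∧ (∀ g, σ g f = f) ∧ z.ord f = Nat.card (MulAction.stabilizer G z) ∧
      ∀ y ∈ T, (∀ g : G, g • y ≠ z) → y.ord f = 0 := by
  classical
  obtain ⟨a, ha, H⟩ := exists_ord_eq
    ((Finset.univ ×ˢ insert z T).image fun p : G × Place k M => p.1 • p.2)
    (fun y => if y = z then 1 else 0)
  have H' : ∀ (g : G), ∀ y ∈ insert z T, (g • y).ord a = if g • y = z then 1 else 0 :=
    fun g y hy => H _ (Finset.mem_image.2 ⟨(g, y), by simp [hy], rfl⟩)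
  refine ⟨∏ h : G, σ h a, Finset.prod_ne_zero_iff.2 fun h _ => by simpa using ha,
    unr_prod_fixed σ a, ?_, fun y hy hne => ?_⟩
  · rw [unr_ord_prod σ hord ha, Finset.sum_congr rfl fun g _ => H' g z (by simp),
      Finset.sum_boole, Nat.card_eq_fintype_card, Fintype.card_subtype]
    simp [MulAction.mem_stabilizer_iff]
  · rw [unr_ord_prod σ hord ha]
    exact Finset.sum_eq_zero fun g _ => by rw [H' g y (by simp [hy]), if_neg (hne g)]

include hord in
/-- Places with the same trace on the invariants are conjugate. -/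
lemma unr_trans (z z' : Place k M)
    (h : ∀ f : M, (∀ g, σ g f = f) → 0 < z.ord f → z'.ord f ≠ 0) : ∃ g : G, g • z' = z := by
  by_contra hne
  push Not at hne
  obtain ⟨f, -, h1, h2, h3⟩ := unr_exists σ hord z {z'}
  refine h f h1 ?_ (h3 z' (by simp) hne)
  rw [h2]; exact_mod_cast Nat.card_pos

end core

/-- If `g` fixes the place `z`, the values at `z`, and a uniformiser at `z`, then `g = 1`. -/
lemma unr_eq_one (z : Place k M) (g : M ≃+* M) (hc : ∀ c : k, g (algebraMap k M c) = algebraMap k M c)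
    (hz : ∀ f, z.ord (g f) = z.ord f) {t : M} (ht : z.ord t = 1) (hg : g t = t) (f : M) :
    g f = f := by
  have ht0 : t ≠ 0 := Place.ne_zero_of_ord (x := z) (by omega)
  have key : ∀ j : ℕ, ∀ f : M, 0 ≤ z.ord f → g f - f = 0 ∨ (j : ℤ) ≤ z.ord (g f - f) := by
    intro j
    induction j with
    | zero => exact fun f hf => .inr (Place.ord_sub_nonneg (by rwa [hz]) hf)
    | succ j ih =>
      intro f hf
      have h1 := Place.v_lt_one.1 (Place.val_spec hf)
      set u := f - algebraMap k M (z.val f) with hu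
      have h2 : 0 ≤ z.ord (u / t) := by
        by_cases h0 : u = 0
        · simp [h0]
        · rw [Place.ord_div h0 ht0]; have := h1.resolve_left h0; omega
      have h3 : g f - f = t * (g (u / t) - u / t) := by
        rw [map_div₀, hg, hu, map_sub, hc]; field_simp; ring
      rcases ih _ h2 with h | h
      · left; rw [h3, h, mul_zero]
      · by_cases h0 : g (u / t) - u / t = 0
        · left; rw [h3, h0, mul_zero]
        · right; rw [h3, Place.ord_mul ht0 h0]; push_cast; omega
  have key2 : ∀ f : M, 0 ≤ z.ord f → g f = f := fun f hf => by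
    rcases key (z.ord (g f - f) + 1).toNat f hf with h | h
    · exact sub_eq_zero.1 h
    · omega
  rcases le_total 0 (z.ord f) with h | h
  · exact key2 f h
  · have := key2 f⁻¹ (by simpa only [Place.ord_inv, Int.neg_nonneg] using h)
    rwa [map_inv₀, inv_inj] at this

end aux

variable {k K : Type} [Field k] [Field K] [Algebra k K]

/-! Row UN: Galois covers. -/

variable {K' : Type} [Field K'] [Algebra k K'] [FF k K] [FF k K'] [Algebra K K']
  [IsScalarTower k K K']

open SA

theorem res_gal (h : K' ≃ₐ[K] K') (x : Place k K') :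
    res (inc k K K') (ofGal k K h • x) = res (inc k K K') x ∧
      ee (inc k K K') (ofGal k K h • x) = ee (inc k K K') x := by
  simpa using res_act 1 (inc k K K') (ofGal k K h) (fun f => h.commutes f) x
theorem gal_pull (h : K' ≃ₐ[K] K') (D : Div k K) :
    ofGal k K h • pull (inc k K K') D = pull (inc k K K') D := by
  simpa using act_pull 1 D (inc k K K') (ofGal k K h) (fun f => h.commutes f)

variable [IsGalois K K']

theorem gal_trans {x x' : Place k K'} (h : res (inc k K K') x = res (inc k K K') x') :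
    ∃ g : K' ≃ₐ[K] K', ofGal k K g • x = x' := by
  have := FF.finite_ext k K K'
  let _ : MulAction (K' ≃ₐ[K] K') (Place k K') := MulAction.compHom _ (ofGal k K)
  refine unr_trans ((SA k K').subtype.comp (ofGal k K))
    (fun g z f => ord_act (ofGal k K g) z f) x' x fun f hf h0 => ?_
  obtain ⟨a, rfl⟩ := (IsGalois.mem_range_algebraMap_iff_fixed (F := K) f).2 hf
  have h1 := ord_res (inc k K K') x a
  have h2 := ord_res (inc k K K') x' a
  have h3 := ee_pos (inc k K K') x
  rw [IsScalarTower.toAlgHom_apply] at h1 h2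
  rw [h1, h]
  rw [h2] at h0
  exact mul_ne_zero (by omega) fun e => by simp [e] at h0
theorem ee_eq_card (x : Place k K') :
    ee (inc k K K') x = Nat.card {g : K' ≃ₐ[K] K' // ofGal k K g • x = x} := by
  classical
  have := FF.finite_ext k K K'
  let _ : MulAction (K' ≃ₐ[K] K') (Place k K') := MulAction.compHom _ (ofGal k K)
  have hS : ∀ z, z ∈ (finite_fibre (inc k K K') (res (inc k K K') x)).toFinset ↔
      res (inc k K K') z = res (inc k K K') x := fun z => by simp
  have h1 := sum_ee _ _ _ hS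
  have ho : MulAction.orbit (K' ≃ₐ[K] K') x = {z | res (inc k K K') z = res (inc k K K') x} := by
    ext z
    exact ⟨by rintro ⟨g, rfl⟩; exact (res_gal g x).1, fun h => gal_trans h.symm⟩
  rw [Finset.sum_congr rfl (g := fun _ => ee (inc k K K') x) (fun z hz => by
      obtain ⟨g, rfl⟩ := gal_trans ((hS z).1 hz).symm
      exact (res_gal g x).2), Finset.sum_const, smul_eq_mul, dgr_inc,
    ← IsGalois.card_aut_eq_finrank, ← Set.ncard_eq_toFinset_card _ (finite_fibre _ _), ← ho,
    ← Subgroup.index_mul_card (MulAction.stabilizer (K' ≃ₐ[K] K') x),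
    MulAction.index_stabilizer] at h1
  refine Nat.eq_of_mul_eq_mul_left ?_ h1
  exact (Set.ncard_pos (ho ▸ finite_fibre _ _)).2 ⟨x, MulAction.mem_orbit_self x⟩
theorem ee_eq_one_iff (x : Place k K') :
    ee (inc k K K') x = 1 ↔ ∀ g : K' ≃ₐ[K] K', ofGal k K g • x = x → g = 1 := by
  rw [ee_eq_card, Nat.card_eq_one_iff_exists]
  constructor
  · rintro ⟨a, ha⟩ g hg
    exact congrArg Subtype.val ((ha ⟨g, hg⟩).trans (ha ⟨1, by simp only [map_one, one_smul]⟩).symm)
  · exact fun h => ⟨⟨1, by simp only [map_one, one_smul]⟩, fun g => Subtype.ext (h g.1 g.2)⟩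
/-- an invariant divisor with unramified support is a pull-back -/
theorem exists_pull (D : Div k K') (h : ∀ g : K' ≃ₐ[K] K', ofGal k K g • D = D)
    (he : ∀ x, D x ≠ 0 → ee (inc k K K') x = 1) : ∃ E, pull (inc k K K') E = D := by
  classical
  choose s hs using res_surj (inc k K K')
  have h1 : ∀ x, D (s (res (inc k K K') x)) = D x := fun x => by
    obtain ⟨g, hg⟩ := gal_trans (hs (res (inc k K K') x))
    conv_rhs => rw [← h g, div_apply, ← hg, inv_smul_smul]
  refine ⟨Finsupp.onFinset (D.support.image (res (inc k K K'))) (fun y => D (s y)) fun y hy =>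
    Finset.mem_image.2 ⟨s y, Finsupp.mem_support_iff.2 hy, hs y⟩, ?_⟩
  ext x
  rw [pull_apply, Finsupp.onFinset_apply, h1]
  by_cases h0 : D x = 0
  · rw [h0, mul_zero]
  · rw [he x h0, Nat.cast_one, one_mul]
omit [FF k K] [FF k K'] [IsGalois K K'] in
/-- TAME: an inertia element of order prime to the characteristic moves every uniformiser -/
theorem tame (g : K' ≃ₐ[K] K') (hg : (orderOf g : k) ≠ 0) (x : Place k K')
    (hx : ofGal k K g • x = x) {t : K'} (ht : x.ord t = 1) (h : x.val (g t / t) = 1) :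
    g = 1 := by
  have ht0 : t ≠ 0 := Place.ne_zero_of_ord (x := x) (by omega)
  have ho : ∀ f, x.ord (g f) = x.ord f := fun f => by
    conv_lhs => rw [← hx]
    exact ord_act (ofGal k K g) x f
  have hv : ∀ f, x.val (g f) = x.val f := fun f => by
    conv_lhs => rw [← hx]
    simpa using val_act (ofGal k K g) x f
  have h0 : x.ord (g t / t) = 0 := (Place.val_ne_zero.1 (h ▸ one_ne_zero)).2
  have h1 : ∀ i : ℕ, x.val ((g ^ i) t / t) = 1 := fun i => by
    induction i with
    | zero => simp [ht0]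
    | succ i ih =>
      have e : (g ^ (i + 1)) t / t = g ((g ^ i) t / t) * (g t / t) := by
        have : g t ≠ 0 := by simpa using ht0
        rw [pow_succ', AlgEquiv.mul_apply, map_div₀]; field_simp
      rw [e, Place.val_mul (by rw [ho, (Place.val_ne_zero.1 (ih ▸ one_ne_zero)).2]) h0.ge, hv, ih,
        h, one_mul]
  set u := ∑ i ∈ Finset.range (orderOf g), (g ^ i) t with hu
  have h2 : x.val (u / t) = orderOf g := by
    rw [hu, Finset.sum_div, Place.val_sum _ _ fun i _ =>
      (Place.val_ne_zero.1 (h1 i ▸ one_ne_zero)).2.ge, Finset.sum_congr rfl fun i _ => h1 i]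
    simp
  have h3 := Place.val_ne_zero.1 (h2 ▸ hg)
  have h4 : x.ord u = 1 := by
    have := h3.2
    rw [Place.ord_div (fun e => h3.1 (by simp [e])) ht0] at this
    omega
  have h5 : g u = u := by
    have e1 := Finset.sum_range_succ (fun i => (g ^ i) t) (orderOf g)
    rw [Finset.sum_range_succ', pow_orderOf_eq_one, pow_zero, add_left_inj] at e1
    rw [hu, map_sum, ← e1]
    exact Finset.sum_congr rfl fun i _ => by rw [pow_succ', AlgEquiv.mul_apply]
  exact AlgEquiv.ext (unr_eq_one x g.toRingEquiv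
    (fun c => by rw [IsScalarTower.algebraMap_apply k K K']; exact g.commutes _) ho h4 h5)

end Pool.Agent.MP_855f4c_ag.WD

end

section



end
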