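import Pool.Agent.MP_855f4c_ag.LP.Alg

section

attribute [-instance] MonTypeEquivalenceMon.monMonoid
  ContinuousSemilinearMapClass.toSemilinearMapClass littleWedderburn
  CoalgHomClass.toSemilinearMapClass instNonUnitalAlgHomClassOfNonUnitalAlgEquivClass
  NonUnitalAlgHomClass.instSemilinearMapClassOfNonUnitalAlgSemiHomClassToMonoidHomRingHom
  NonUnitalNonAssocSemiring.toDistrib SemilinearIsometryClass.toSemilinearMapClass
  SubfieldClass.toSubringClass ESeminormedAddCommMonoid.toAddCommMonoid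
  RingHomClass.toLinearMapClassRat IdemSemiring.toSemiring instCharZeroOfIsSemireal
  RingHomClass.toLinearMapClassNNRat DivisionCommMonoid.toDivisionMonoid NormedField.toField
  NormedRing.toRing MulSemiringAction.toDistribMulAction NonUnitalAlgHomClass.toNonUnitalRingHomClass
  NormedCommRing.toCommRing SetLike.GradeZero.instCommRing
  NonUnitalCStarAlgebra.toNonUnitalNormedRing AlgHomClass.linearMapClass
  RingConeClass.toSubsemiringClass GroupWithZero.toMonoidWithZero SetLike.GradeZero.instRing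
  SubringClass.toSubsemiringClass BialgHomClass.toAlgHomClass SMulWithZero.toSMulZeroClass
  CommMonoidWithZero.toMonoidWithZero NormedField.toNormedCommRing
  SemilinearIsometryEquivClass.toSemilinearEquivClass SeminormedRing.toRing
  SetLike.GradeZero.instCommSemiring Module.FaithfullyFlat.toFlat SetLike.GradeZero.instSemiring
  IdemCommSemiring.toCommSemiring NormedRing.toNonUnitalNormedRing SeminormedCommRing.toCommRing
  Action.FintypeCat.instMulActionObjFiniteOf EuclideanDomain.toCommRing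
  IdemSemiring.toCanonicallyOrderedAdd TestFunctionClass.toDFunLike BooleanRing.toRing instCoeTCOfCoe
  NonUnitalRing.toNonUnitalNonAssocRing AddSubgroup.toAddCommGroup ESeminormedAddMonoid.toAddMonoid
  BialgHomClass.toMonoidHomClass ContDiffMapSupportedInClass.toDFunLike
  NonUnitalSemiring.toNonUnitalNonAssocSemiring NonAssocCommSemiring.toNonAssocSemiring
  NumberField.to_charZero RCLike.charZero_rclike AlgEquivClass.toAlgHomClass
  MulSemiringActionSemiHomClass.toDistribMulActionSemiHomClass AddQuantale.instAddLeftMono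
  LinearOrderedAddCommMonoidWithTop.toAddCommMonoid NonAssocRing.toNonAssocSemiring
  NormedDivisionRing.toDivisionRing IdemSemiring.toMulLeftMono AddCommGroupWithOne.toAddGroupWithOne
  NonUnitalNormedCommRing.toNonUnitalCommRing FunLike.toDecidableEq NumberField.instFiniteDimensional
  BooleanRing.toCommRing LieAdmissibleRing.toNonUnitalNonAssocRing LieRing.toAddCommGroup
  NonUnitalNonAssocCommSemiring.toNonUnitalNonAssocSemiring instCoeTOfCoeDep Algebra.toSMul
  covariant_swap_mul_of_covariant_mul LinearOrderedAddCommGroupWithTop.toAddCommMonoid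
  AddSubmonoidWithOneClass.toAddMonoidWithOne RingEquivClass.toNonUnitalRingHomClass
  CommRing.Pic.instFreeOfSubsingleton Subgroup.normal_of_isMulCommutative DistribLattice.toLattice
  AddCommMonoidWithOne.toAddCommMonoid NonUnitalSeminormedCommRing.toNonUnitalCommRing
  CentroidHomClass.toAddMonoidHomClass CoalgEquivClass.toSemilinearEquivClass
  ValuationClass.toMonoidWithZeroHomClass SemigroupWithZero.toMulZeroClass instSMulZeroClass
  MonoidWithZero.toMonoid DivisionRing.toDivInvMonoid Pi.preorder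
  RingEquivClass.toLinearEquivClassRat MulSemiringActionSemiHomClass.toRingHomClass
  GroupWithZero.toDivisionMonoid IsOrderedMonoid.toMulLeftMono GroupWithZero.toDivInvMonoid
  instIsRightCancelAddOfAddRightReflectLE NonAssocRing.toNonUnitalNonAssocRing
  IsometryClass.instCoeOutIsometryEquiv AddQuantale.instAddRightMono instCoeHTCT
  MulCharClass.toMonoidHomClass AlgEquivClass.toLinearEquivClass LinearOrder.toDecidableEq
  LieRinehartAlgebra.toIsScalarTower instCoeHTC decidableEq_of_subsingleton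
  MulDistribMulActionSemiHomClass.toMonoidHomClass NonUnitalNonAssocRing.toAddCommGroup
  GeneralizedCoheytingAlgebra.toLattice instCoeTC
  ContinuousAddMonoidHom.instCoeOutOfAddMonoidHomClassOfContinuousMapClass Submodule.IsLattice.free
  NonUnitalCommCStarAlgebra.toNonUnitalNormedCommRing HomeomorphClass.instCoeOutHomeomorph
  NonUnitalRing.toNonUnitalSemiring NonUnitalRingHomClass.toAddMonoidHomClass
  NonAssocCommRing.toNonUnitalNonAssocCommRing

namespace Pool.Agent.MP_855f4c_ag.Fx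

open Matrix

section Lin

variable {R A B C : Type} [CommRing R] [AddCommGroup A] [AddCommGroup B] [AddCommGroup C]
  [Module R A] [Module R B] [Module R C]

lemma trace_split [Module.Free R A] [Module.Finite R A] [Module.Free R C] [Module.Finite R C]
    (i : A →ₗ[R] B) (p : B →ₗ[R] C) (s : C →ₗ[R] B) (hi : Function.Injective i)
    (hex : Function.Exact i p) (hs : p ∘ₗ s = LinearMap.id) (a : A →ₗ[R] A) (b : B →ₗ[R] B)
    (hab : b ∘ₗ i = i ∘ₗ a) :
    LinearMap.trace R B b = LinearMap.trace R A a + LinearMap.trace R C (p ∘ₗ b ∘ₗ s) := by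
  obtain ⟨e, he1, he2⟩ := hex.splitSurjectiveEquiv hi ⟨s, hs⟩
  have : Module.Free R B := Module.Free.of_equiv e.symm
  have : Module.Finite R B := Module.Finite.equiv e.symm
  have hps : ∀ c, p (s c) = c := fun c => LinearMap.congr_fun hs c
  have hpi : ∀ x, p (i x) = 0 := fun x => hex.apply_apply_eq_zero x
  let t0 : B →ₗ[R] A := LinearMap.fst R A C ∘ₗ e.toLinearMap
  have ht0 : ∀ x, t0 (i x) = x := by
    intro x
    simp [t0, he1]
  let t : B →ₗ[R] A := t0 ∘ₗ (LinearMap.id - s ∘ₗ p)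
  have ht : ∀ x, t (i x) = x := by
    intro x
    simp [t, hpi, ht0]
  have hid : ∀ y, i (t y) + s (p y) = y := by
    intro y
    obtain ⟨x, hx⟩ := (hex (y - s (p y))).1 (by simp [hps])
    have : t y = x := by
      simp only [t, LinearMap.comp_apply, LinearMap.sub_apply, LinearMap.id_apply, ← hx, ht0]
    rw [this, hx, sub_add_cancel]
  have hb : b = (b ∘ₗ i) ∘ₗ t + (b ∘ₗ s) ∘ₗ p := by
    ext y
    simp only [LinearMap.add_apply, LinearMap.comp_apply, ← map_add, hid]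
  have h1 : t ∘ₗ (b ∘ₗ i) = a := by
    rw [hab]; ext x; simp [ht]
  conv_lhs => rw [hb]
  rw [map_add, LinearMap.trace_comp_comm' t (b ∘ₗ i), LinearMap.trace_comp_comm' p (b ∘ₗ s), h1]

lemma trace_ses [Module.Free R A] [Module.Finite R A] [Module.Free R C] [Module.Finite R C]
    (i : A →ₗ[R] B) (p : B →ₗ[R] C) (hi : Function.Injective i) (hp : Function.Surjective p)
    (hex : Function.Exact i p) (a : A →ₗ[R] A) (b : B →ₗ[R] B) (c : C →ₗ[R] C)
    (hab : b ∘ₗ i = i ∘ₗ a) (hbc : p ∘ₗ b = c ∘ₗ p) :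
    LinearMap.trace R B b = LinearMap.trace R A a + LinearMap.trace R C c := by
  obtain ⟨s, hs⟩ := Module.projective_lifting_property p LinearMap.id hp
  rw [trace_split i p s hi hex hs a b hab, ← LinearMap.comp_assoc, hbc, LinearMap.comp_assoc, hs,
    LinearMap.comp_id]

lemma card_ses (i : A →ₗ[R] B) (p : B →ₗ[R] C) (hi : Function.Injective i)
    (hex : Function.Exact i p) : Nat.card B = Nat.card A * Nat.card (LinearMap.range p) := by
  rw [Submodule.card_eq_card_quotient_mul_card (LinearMap.ker p),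
    Nat.card_congr p.quotKerEquivRange.toEquiv, LinearMap.exact_iff.1 hex,
    ← Nat.card_congr (LinearEquiv.ofInjective i hi).toEquiv]

lemma trace_pi {X : Type} [Fintype X] [DecidableEq X] (T : (X → R) →ₗ[R] (X → R)) :
    LinearMap.trace R _ T = ∑ x, T (Pi.single x 1) x := by
  rw [LinearMap.trace_eq_matrix_trace R (Pi.basisFun R X)]
  simp only [trace, LinearMap.toMatrix_eq_toMatrix', diag_apply, LinearMap.toMatrix'_apply]

lemma card_free (n : ℕ) [NeZero n] [Nontrivial (ZMod n)] (M : Type) [AddCommGroup M]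
    [Module (ZMod n) M] [Module.Free (ZMod n) M] [Module.Finite (ZMod n) M] :
    Nat.card M = n ^ Module.finrank (ZMod n) M := by
  rw [Nat.card_congr (Module.finBasis (ZMod n) M).equivFun.toEquiv]
  simp only [Nat.card_eq_fintype_card, Fintype.card_pi, ZMod.card, Finset.prod_const, Finset.card_univ, Fintype.card_fin]

end Lin

lemma nat_eq_of_zmod {l : ℕ} (hl : 1 < l) {a b : ℕ}
    (h : ∀ m, 0 < m → (a : ZMod (l ^ m)) = (b : ZMod (l ^ m))) : a = b := by
  have h1 := (ZMod.natCast_eq_natCast_iff' _ _ _).1 (h (a + b + 1) (by omega))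
  have h2 : a + b + 1 < l ^ (a + b + 1) := Nat.lt_pow_self hl
  rwa [Nat.mod_eq_of_lt (by omega), Nat.mod_eq_of_lt (by omega)] at h1

lemma cast_eq_zero_of_mul {l n v m : ℕ} (hl : 0 < l) (hm : n + v ≤ m) (hd : l ^ n ∣ l ^ m)
    (S : ZMod (l ^ m)) (h : ((l ^ v : ℕ) : ZMod (l ^ m)) * S = 0) :
    ZMod.castHom hd (ZMod (l ^ n)) S = 0 := by
  have : NeZero (l ^ m) := ⟨(pow_pos hl m).ne'⟩
  obtain ⟨s, rfl⟩ := ZMod.natCast_zmod_surjective S
  rw [← Nat.cast_mul, ZMod.natCast_eq_zero_iff] at h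
  rw [map_natCast, ZMod.natCast_eq_zero_iff]
  have h2 : l ^ v * l ^ n ∣ l ^ v * s := by
    rw [← pow_add]; exact (pow_dvd_pow l (by omega)).trans h
  exact Nat.dvd_of_mul_dvd_mul_left (pow_pos hl v) h2

lemma exists_gens {K H P : Type} [Field K] [AddCommGroup H] [Module K H] [Module.Finite K H]
    (v : P → Module.Dual K H) (hv : ∀ χ, (∀ g, v g χ = 0) → χ = 0) (u : P) (hu : v u ≠ 0) :
    ∃ b : Set P, b.Finite ∧ u ∈ b ∧ Nat.card b = Module.finrank K H ∧
      ∀ χ, (∀ g ∈ b, v g χ = 0) → χ = 0 := by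
  have h1 : LinearIndepOn K v {u} := LinearIndepOn.singleton hu
  have h2 := h1.linearIndepOn_extend (Set.subset_univ _)
  have h3 := h1.subset_extend (Set.subset_univ _)
  have h4 := h1.image_subset_span_image_extend (Set.subset_univ _)
  set b := h1.extend (Set.subset_univ _)
  have hfin : Finite b := LinearIndependent.finite h2
  have hz : ∀ χ, (∀ g ∈ b, v g χ = 0) → χ = 0 := by
    intro χ hχ
    refine hv χ fun g => ?_
    have h5 : v g ∈ Submodule.span K (v '' b) := h4 ⟨g, trivial, rfl⟩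
    refine Submodule.span_induction (p := fun w _ => w χ = 0) ?_ rfl ?_ ?_ h5
    · rintro _ ⟨g, hg, rfl⟩; exact hχ g hg
    · intro x y _ _ hx hy; simp [hx, hy]
    · intro a x _ hx; simp [hx]
  refine ⟨b, Set.toFinite b, h3 rfl, le_antisymm ?_ ?_, hz⟩
  · have := Fintype.ofFinite b
    have := LinearIndependent.fintype_card_le_finrank h2
    rwa [Subspace.dual_finrank_eq, ← Nat.card_eq_fintype_card] at this
  · have := Fintype.ofFinite b
    have hinj : Function.Injective (LinearMap.pi fun g : b => v g : H →ₗ[K] (b → K)) := by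
      rw [injective_iff_map_eq_zero]
      intro χ hχ
      exact hz χ fun g hg => congr_fun hχ ⟨g, hg⟩
    have := LinearMap.finrank_le_finrank_of_injective hinj
    simpa only [Nat.card_eq_fintype_card, Set.fintypeCard_eq_ncard, ge_iff_le, Module.finrank_fintype_fun_eq_card] using this

lemma pgroup_char {Q : Type} [Group Q] [Finite Q] {l : ℕ} [Fact l.Prime] (hQ : IsPGroup l Q)
    (H : Subgroup Q) (hH : H ≠ ⊤) :
    ∃ χ : Q →* Multiplicative (ZMod l), χ ≠ 1 ∧ ∀ g ∈ H, χ g = 1 := by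
  obtain ⟨M, hM, hHM⟩ := (eq_top_or_exists_le_coatom H).resolve_left hH
  have := hQ.isNilpotent
  have : M.Normal := Subgroup.NormalizerCondition.normal_of_coatom M
    Group.normalizerCondition_of_isNilpotent hM
  obtain ⟨k, hk⟩ := (hQ.to_quotient M).exists_card_eq
  have hk0 : k ≠ 0 := by
    rintro rfl
    apply hM.1
    rw [pow_zero, ← Subgroup.index_eq_card, Subgroup.index_eq_one] at hk
    exact hk
  obtain ⟨x, hx⟩ := exists_prime_orderOf_dvd_card' (G := Q ⧸ M) l (hk ▸ dvd_pow_self l hk0)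
  have hx1 : x ≠ 1 := by
    rintro rfl
    rw [orderOf_one] at hx
    exact (Fact.out : l.Prime).one_lt.ne hx
  have htop : (Subgroup.zpowers x).comap (QuotientGroup.mk' M) = ⊤ := by
    refine hM.2 _ (lt_of_le_of_ne (fun g hg => ?_) fun h => ?_)
    · rw [Subgroup.mem_comap, QuotientGroup.mk'_apply, (QuotientGroup.eq_one_iff g).2 hg]
      exact one_mem _
    · obtain ⟨g, rfl⟩ := QuotientGroup.mk_surjective x
      apply hx1
      rw [QuotientGroup.eq_one_iff, h]
      exact Subgroup.mem_zpowers _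
  have htop' : Subgroup.zpowers x = ⊤ := by
    rw [eq_top_iff]
    intro y _
    obtain ⟨g, rfl⟩ := QuotientGroup.mk_surjective y
    have : g ∈ (Subgroup.zpowers x).comap (QuotientGroup.mk' M) := htop ▸ trivial
    exact this
  have hc : Nat.card (Q ⧸ M) = l := by
    rw [← hx, ← Nat.card_zpowers, htop', Subgroup.card_top]
  let e : (Q ⧸ M) ≃* Multiplicative (ZMod l) := mulEquivOfPrimeCardEq hc (by simp)
  refine ⟨e.toMonoidHom.comp (QuotientGroup.mk' M), fun h => ?_, fun g hg => ?_⟩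
  · obtain ⟨g, rfl⟩ := QuotientGroup.mk_surjective x
    apply hx1
    have := DFunLike.congr_fun h g
    simpa using this
  · simp only [MulEquiv.toMonoidHom_eq_coe, MonoidHom.coe_comp, MonoidHom.coe_coe, QuotientGroup.coe_mk', Function.comp_apply, (QuotientGroup.eq_one_iff g).2 (hHM hg), map_one]

lemma padic_lim {l : ℕ} [Fact l.Prime] (x : ∀ n : ℕ, ZMod (l ^ n))
    (hx : ∀ n, ZMod.castHom (pow_dvd_pow l n.le_succ) (ZMod (l ^ n)) (x (n + 1)) = x n) :
    ∃ z : ℤ_[l], ∀ n, PadicInt.toZModPow n z = x n := by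
  have hl : 0 < l := (Fact.out : l.Prime).pos
  have h : ∀ i, (l : ℤ) ^ i ∣ ((x (i + 1)).val : ℤ) - ((x i).val : ℤ) := by
    intro i
    have : NeZero (l ^ i) := ⟨(pow_pos hl i).ne'⟩
    have : NeZero (l ^ (i + 1)) := ⟨(pow_pos hl _).ne'⟩
    have := (ZMod.intCast_zmod_eq_zero_iff_dvd (((x (i + 1)).val : ℤ) - ((x i).val : ℤ))
      (l ^ i)).1 (by
        rw [Int.cast_sub, Int.cast_natCast, Int.cast_natCast, ZMod.natCast_zmod_val, ← hx i,
          ZMod.castHom_apply, ZMod.natCast_val, sub_self])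
    exact_mod_cast this
  refine ⟨_, fun n => (PadicInt.toZModPow_ofIntSeq_of_pow_dvd_sub (fun i => ((x i).val : ℤ)) l h
    n).trans ?_⟩
  have : NeZero (l ^ n) := ⟨(pow_pos hl n).ne'⟩
  rw [Int.cast_natCast, ZMod.natCast_zmod_val]

/-- A filter of admissible subgroups of finite index with a basis of normal subgroups. -/
structure Adm (P : Type) [Group P] where
  adm : Subgroup P → Prop
  top : adm ⊤
  inf : ∀ {M N : Subgroup P}, adm M → adm N → adm (M ⊓ N)
  up : ∀ {M N : Subgroup P}, adm M → M ≤ N → adm N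
  fin : ∀ {M : Subgroup P}, adm M → M.FiniteIndex
  norm : ∀ {M : Subgroup P}, adm M → ∃ N : Subgroup P, N ≤ M ∧ N.Normal ∧ adm N

variable {P : Type} [Group P]

/-- Admissible additive characters of `N` with values in `R`. -/
def Adm.Hm (A : Adm P) (N : Subgroup P) (R : Type) [CommRing R] : Submodule R (N → R) where
  carrier := {χ | (∀ a b, χ (a * b) = χ a + χ b) ∧
    ∃ M, A.adm M ∧ ∀ a : N, (a : P) ∈ M → χ a = 0}
  add_mem' := by
    rintro χ ψ ⟨h1, M, hM, h2⟩ ⟨h3, M', hM', h4⟩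
    refine ⟨fun a b => ?_, M ⊓ M', A.inf hM hM', fun a ha => ?_⟩
    · simp only [Pi.add_apply, h1, h3]; ring
    · simp only [Pi.add_apply, h2 a ha.1, h4 a ha.2, add_zero]
  zero_mem' := ⟨fun _ _ => by simp, ⊤, A.top, fun _ _ => rfl⟩
  smul_mem' := by
    rintro c χ ⟨h1, M, hM, h2⟩
    refine ⟨fun a b => ?_, M, hM, fun a ha => ?_⟩
    · simp only [Pi.smul_apply, h1, smul_eq_mul]; ring
    · simp only [Pi.smul_apply, h2 a ha, smul_zero]

/-- `N` is an admissible normal subgroup with `l`-group quotient. -/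
structure Adm.Lev (A : Adm P) (l : ℕ) (N : Subgroup P) : Prop where
  normal : N.Normal
  adm : A.adm N
  pow : ∀ g : P, ∃ a : ℕ, g ^ l ^ a ∈ N

/-- `T` is the map `χ ↦ (a ↦ χ (h⁻¹ * β a * h))`. -/
def Adm.IsAct (A : Adm P) (N : Subgroup P) (R : Type) [CommRing R] (β : P → P) (h : P)
    (T : Module.End R (A.Hm N R)) : Prop :=
  ∀ (χ : A.Hm N R) (a b : N), (b : P) = h⁻¹ * β a * h → (T χ).1 a = χ.1 b

/-- The number of classes `y` mod `N` with `a * y = β y * b` mod `N`. -/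
noncomputable def cnt (N : Subgroup P) (β : P → P) (a b : P) : ℕ :=
  Nat.card {y : P ⧸ N // (a * y.out)⁻¹ * (β y.out * b) ∈ N}

/-- What the curve side provides: `α` is `g ↦ φ⁻¹ g φ`, `U k` the points fixed by `φ ^ k`, and
`φ ^ k * f k x` fixes a place above `x`. -/
structure Ctx (A : Adm P) (l q : ℕ) (α : P →* P) (u : P) (U : ℕ → Type) [∀ k, Fintype (U k)]
    (f : ∀ k, U k → P) : Prop where
  comap : ∀ M, A.adm M → A.adm (M.comap α)
  free : ∀ N, A.Lev l N → ∀ n m : ℕ, 0 < m → n = l ^ m →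
    Module.Free (ZMod n) (A.Hm N (ZMod n)) ∧ Module.Finite (ZMod n) (A.Hm N (ZMod n))
  tr0 : ∀ N, A.Lev l N → ∀ n m : ℕ, 0 < m → n = l ^ m → ∀ h : P, h ∉ N →
    ∀ T, A.IsAct N (ZMod n) id h T → LinearMap.trace (ZMod n) _ T = 1
  tr : ∀ N, A.Lev l N → (∀ a ∈ N, α a ∈ N) → ∀ n m : ℕ, 0 < m → n = l ^ m → ∀ k, 0 < k →
    ∀ (h : P) T, A.IsAct N (ZMod n) (α^[k]) h T →
      (q : ZMod n) ^ k * LinearMap.trace (ZMod n) _ T =
        (q : ZMod n) ^ k - ∑ x : U k, (cnt N (α^[k]) h (f k x) : ZMod n)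
  hu : ∃ χ : A.Hm ⊤ (ZMod l), χ.1 ⟨u, trivial⟩ ≠ 0
  huq : ∀ N, A.Lev l N → α u ^ q * u⁻¹ ∈ N

/-- A representation that is trivial mod `l` on `P` and has admissible congruence kernels. -/
structure Rep (A : Adm P) (l : ℕ) [Fact l.Prime] {d : Type} [Fintype d] [DecidableEq d]
    (σ : P →* Matrix d d ℤ_[l]) : Prop where
  one : ∀ g a b, (l : ℤ_[l]) ∣ (σ g - 1) a b
  adm : ∀ n : ℕ, ∃ M, A.adm M ∧ ∀ g ∈ M, ∀ a b, (l : ℤ_[l]) ^ n ∣ (σ g - 1) a b

section Ext

variable {N : Subgroup P} {R : Type} [CommRing R]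

open Classical in
/-- Extension by zero. -/
noncomputable def xt (χ : N → R) (g : P) : R := if h : g ∈ N then χ ⟨g, h⟩ else 0

lemma xt_mem (χ : N → R) {g : P} (h : g ∈ N) : xt χ g = χ ⟨g, h⟩ := dif_pos h

lemma xt_coe (χ : N → R) (a : N) : xt χ (a : P) = χ a := dif_pos a.2

lemma xt_add (χ ψ : N → R) (g : P) : xt (χ + ψ) g = xt χ g + xt ψ g := by
  unfold xt; split_ifs <;> simp

lemma xt_smul (c : R) (χ : N → R) (g : P) : xt (c • χ) g = c * xt χ g := by
  unfold xt; split_ifs <;> simp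

variable {A : Adm P}

lemma xt_mul (χ : A.Hm N R) {a b : P} (ha : a ∈ N) (hb : b ∈ N) :
    xt χ.1 (a * b) = xt χ.1 a + xt χ.1 b := by
  rw [xt_mem _ ha, xt_mem _ hb, xt_mem _ (mul_mem ha hb)]
  exact χ.2.1 ⟨a, ha⟩ ⟨b, hb⟩

lemma xt_one (χ : A.Hm N R) : xt χ.1 1 = 0 := by
  have := xt_mul χ (one_mem N) (one_mem N)
  rw [mul_one] at this
  exact left_eq_add.1 this

lemma xt_inv (χ : A.Hm N R) {a : P} (ha : a ∈ N) : xt χ.1 a⁻¹ = -xt χ.1 a := by
  have := xt_mul χ (inv_mem ha) ha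
  rw [inv_mul_cancel, xt_one] at this
  exact eq_neg_of_add_eq_zero_left this.symm

lemma xt_adm (χ : A.Hm N R) : ∃ M : Subgroup P, M.Normal ∧ A.adm M ∧ ∀ g ∈ M, xt χ.1 g = 0 := by
  obtain ⟨M, hM, h⟩ := χ.2.2
  obtain ⟨M', h1, h2, h3⟩ := A.norm hM
  refine ⟨M', h2, h3, fun g hg => ?_⟩
  unfold xt
  split_ifs with hN
  · exact h ⟨g, hN⟩ (h1 hg)
  · rfl

lemma conj_mem' (hN : N.Normal) {a : P} (ha : a ∈ N) (h : P) : h⁻¹ * a * h ∈ N := by
  simpa only [inv_inv] using hN.conj_mem a ha h⁻¹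

/-- The map `χ ↦ (a ↦ χ (h⁻¹ * β a * h))`. -/
noncomputable def act (hN : N.Normal) (β : P →* P) (hβ : ∀ a ∈ N, β a ∈ N)
    (hc : ∀ M, A.adm M → A.adm (M.comap β)) (h : P) : Module.End R (A.Hm N R) where
  toFun χ := ⟨fun a => xt χ.1 (h⁻¹ * β a * h), fun a b => by
      rw [← xt_mul χ (conj_mem' hN (hβ _ a.2) h) (conj_mem' hN (hβ _ b.2) h)]
      congr 1
      simp only [Subgroup.coe_mul, map_mul]; group, by
    obtain ⟨M, h1, h2, h3⟩ := xt_adm χ
    exact ⟨M.comap β, hc M h2, fun a ha => h3 _ (conj_mem' h1 ha h)⟩⟩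
  map_add' χ ψ := by ext a; exact xt_add _ _ _
  map_smul' c χ := by ext a; exact xt_smul _ _ _

lemma act_isAct (hN : N.Normal) (β : P →* P) (hβ : ∀ a ∈ N, β a ∈ N)
    (hc : ∀ M, A.adm M → A.adm (M.comap β)) (h : P) :
    A.IsAct N R β h (act hN β hβ hc h) := by
  intro χ a b hb
  show xt χ.1 (h⁻¹ * β a * h) = _
  rw [← hb, xt_coe]

lemma out_smul_mem (g : P) (y : P ⧸ N) : (g • y).out⁻¹ * (g * y.out) ∈ N := by
  rw [← QuotientGroup.eq, QuotientGroup.out_eq', ← smul_eq_mul, MulAction.Quotient.mk_smul_out]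

lemma smul_of_mem (hN : N.Normal) {g : P} (hg : g ∈ N) (y : P ⧸ N) : g • y = y := by
  obtain ⟨x, rfl⟩ := QuotientGroup.mk_surjective y
  rw [MulAction.Quotient.smul_mk, QuotientGroup.eq, smul_eq_mul]
  have := conj_mem' hN (inv_mem hg) x
  simpa [mul_assoc] using this

/-- Restriction of characters. -/
def res (A : Adm P) (N : Subgroup P) (R : Type) [CommRing R] : A.Hm ⊤ R →ₗ[R] A.Hm N R where
  toFun η := ⟨fun a => η.1 ⟨a, trivial⟩, fun a b => η.2.1 ⟨a, trivial⟩ ⟨b, trivial⟩, by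
    obtain ⟨M, hM, h⟩ := η.2.2
    exact ⟨M, hM, fun a ha => h ⟨a, trivial⟩ ha⟩⟩
  map_add' _ _ := rfl
  map_smul' _ _ := rfl

/-- Transfer of characters. -/
noncomputable def cor [Fintype (P ⧸ N)] (hN : N.Normal) (hA : A.adm N) :
    A.Hm N R →ₗ[R] A.Hm ⊤ R where
  toFun χ := ⟨fun g => ∑ y : P ⧸ N, xt χ.1 (((g : P) • y).out⁻¹ * (g * y.out)), fun a b => by
      beta_reduce
      rw [← Equiv.sum_comp (MulAction.toPerm (b : P))
        (fun y : P ⧸ N => xt χ.1 (((a : P) • y).out⁻¹ * (a * y.out))), ← Finset.sum_add_distrib]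
      refine Finset.sum_congr rfl fun y _ => ?_
      rw [← xt_mul χ (out_smul_mem _ _) (out_smul_mem _ _)]
      congr 1
      simp only [Subgroup.coe_mul, MulAction.toPerm_apply, mul_smul]; group, by
    obtain ⟨M, h1, h2, h3⟩ := xt_adm χ
    refine ⟨M ⊓ N, A.inf h2 hA, fun a ha => Finset.sum_eq_zero fun y _ => h3 _ ?_⟩
    rw [smul_of_mem hN ha.2, ← mul_assoc]
    exact conj_mem' h1 ha.1 _⟩
  map_add' χ ψ := by
    ext a
    simp only [Submodule.coe_add, xt_add, Finset.sum_add_distrib, Pi.add_apply]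
  map_smul' c χ := by
    ext a
    simp only [Submodule.coe_smul, xt_smul, RingHom.id_apply, Pi.smul_apply, smul_eq_mul,
      Finset.mul_sum]

lemma cor_res [Fintype (P ⧸ N)] (hN : N.Normal) (hA : A.adm N) :
    cor hN hA ∘ₗ res A N R = (Fintype.card (P ⧸ N) : R) • LinearMap.id := by
  ext η g
  have h1 : ∀ x : P, x ∈ N → xt (res A N R η).1 x = xt η.1 x := fun x hx => by
    rw [xt_mem _ hx, xt_mem _ (Subgroup.mem_top x)]; rfl
  show ∑ y : P ⧸ N, xt (res A N R η).1 (((g : P) • y).out⁻¹ * (g * y.out)) = _ * η.1 g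
  have h2 : ∀ y : P ⧸ N, xt (res A N R η).1 (((g : P) • y).out⁻¹ * (g * y.out)) =
      -xt η.1 ((g : P) • y).out + (η.1 g + xt η.1 y.out) := fun y => by
    rw [h1 _ (out_smul_mem _ _), xt_mul η trivial trivial, xt_mul η trivial trivial,
      xt_inv η trivial, xt_coe]
  simp only [h2, Finset.sum_add_distrib, Finset.sum_neg_distrib, Finset.sum_const, Finset.card_univ,
    nsmul_eq_mul]
  rw [← Equiv.sum_comp (MulAction.toPerm (g : P)) (fun y : P ⧸ N => xt η.1 y.out)]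
  simp only [MulAction.toPerm_apply]
  ring

lemma res_cor [Fintype (P ⧸ N)] (hN : N.Normal) (hA : A.adm N) :
    res A N R ∘ₗ cor hN hA = ∑ y : P ⧸ N,
      act hN (MonoidHom.id P) (fun _ h => h) (fun M h => by simpa using h) y.out := by
  ext χ a
  simp only [LinearMap.coe_sum, Finset.sum_apply, AddSubmonoidClass.coe_finsetSum]
  show ∑ y : P ⧸ N, xt χ.1 (((a : P) • y).out⁻¹ * (a * y.out)) = _
  refine Finset.sum_congr rfl fun y _ => ?_
  rw [smul_of_mem hN a.2, ← mul_assoc]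
  rfl

lemma act_of_mem (hN : N.Normal) {h : P} (hh : h ∈ N) :
    act (A := A) (R := R) hN (MonoidHom.id P) (fun _ h => h) (fun M h => by simpa using h) h =
      LinearMap.id := by
  ext χ a
  show xt χ.1 (h⁻¹ * a * h) = χ.1 a
  rw [xt_mul χ (mul_mem (inv_mem hh) a.2) hh, xt_mul χ (inv_mem hh) a.2, xt_inv χ hh, xt_coe]
  ring

end Ext

section Rank

variable {A : Adm P} {l q : ℕ} [Fact l.Prime] {α : P →* P} {u : P} {U : ℕ → Type}
  [∀ k, Fintype (U k)] {f : ∀ k, U k → P}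

lemma lev_top (A : Adm P) (l : ℕ) : A.Lev l ⊤ := ⟨inferInstance, A.top, fun _ => ⟨0, trivial⟩⟩

lemma zmod_nontriv {m : ℕ} (hm : 0 < m) : Nontrivial (ZMod (l ^ m)) :=
  ZMod.nontrivial_iff.2 (Nat.one_lt_pow hm.ne' (Fact.out : l.Prime).one_lt).ne'

lemma rank_indep (H : Ctx A l q α u U f) {N : Subgroup P} (hN : A.Lev l N) {m : ℕ} (hm : 0 < m) :
    Module.finrank (ZMod (l ^ m)) (A.Hm N (ZMod (l ^ m))) =
      Module.finrank (ZMod l) (A.Hm N (ZMod l)) := by
  have hl : l.Prime := Fact.out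
  obtain ⟨h1, h2⟩ := H.free N hN _ m hm rfl
  obtain ⟨_, h4⟩ := H.free N hN l 1 one_pos (pow_one l).symm
  have := zmod_nontriv (l := l) hm
  have : NeZero (l ^ m) := ⟨(pow_pos hl.pos m).ne'⟩
  let T : AddSubgroup (ZMod (l ^ m)) := (nsmulAddMonoidHom l).ker
  have hT : Nat.card T = l := by
    rw [IsAddCyclic.card_nsmulAddMonoidHom_ker, Nat.card_zmod]
    exact Nat.gcd_eq_right (dvd_pow_self l hm.ne')
  let e : ZMod l ≃+ T := addEquivOfPrimeCardEq (Nat.card_zmod l) hT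
  have hmem : ∀ x : ZMod (l ^ m), x ∈ T ↔ l • x = 0 := fun x => Iff.rfl
  let e1 : A.Hm N (ZMod l) ≃ {χ : A.Hm N (ZMod (l ^ m)) // ∀ a, χ.1 a ∈ T} :=
    { toFun := fun χ => ⟨⟨fun a => e (χ.1 a), fun a b => by
          beta_reduce; rw [χ.2.1, map_add]; rfl, by
        obtain ⟨M, hM, h⟩ := χ.2.2
        exact ⟨M, hM, fun a ha => by simp only [h a ha, map_zero]; rfl⟩⟩, fun a => (e (χ.1 a)).2⟩
      invFun := fun χ => ⟨fun a => e.symm ⟨χ.1.1 a, χ.2 a⟩, fun a b => by
        beta_reduce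
        rw [← map_add]; exact congrArg e.symm (Subtype.ext (χ.1.2.1 a b)), by
        obtain ⟨M, hM, h⟩ := χ.1.2.2
        refine ⟨M, hM, fun a ha => ?_⟩
        beta_reduce
        rw [← map_zero e.symm]; exact congrArg e.symm (Subtype.ext (h a ha))⟩
      left_inv := fun χ => by ext a; simp
      right_inv := fun χ => by ext a; simp }
  let b := (Module.finBasis (ZMod (l ^ m)) (A.Hm N (ZMod (l ^ m)))).equivFun
  let e2 : {χ : A.Hm N (ZMod (l ^ m)) // ∀ a, χ.1 a ∈ T} ≃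
      {x : Fin (Module.finrank (ZMod (l ^ m)) (A.Hm N (ZMod (l ^ m)))) → ZMod (l ^ m) //
        ∀ i, x i ∈ T} := b.toEquiv.subtypeEquiv fun χ => by
    have h5 : (∀ a, χ.1 a ∈ T) ↔ l • χ = 0 := by
      simp only [hmem]
      exact ⟨fun h => Subtype.ext (funext h), fun h a => congr_fun (congrArg Subtype.val h) a⟩
    rw [h5, ← b.map_eq_zero_iff, map_nsmul]
    exact ⟨fun h i => congr_fun h i, fun h => funext h⟩
  have h6 := Nat.card_congr ((e1.trans e2).trans Equiv.subtypePiEquivPi)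
  rw [Module.natCard_eq_pow_finrank (K := ZMod l), Nat.card_zmod, Nat.card_pi] at h6
  simp only [Finset.prod_const, Finset.card_univ, Fintype.card_fin] at h6
  rw [show Nat.card {x // x ∈ T} = l from hT] at h6
  exact (Nat.pow_right_injective hl.two_le h6).symm

lemma rank_formula (H : Ctx A l q α u U f) {N : Subgroup P} (hN : A.Lev l N) [Fintype (P ⧸ N)] :
    Module.finrank (ZMod l) (A.Hm N (ZMod l)) + Fintype.card (P ⧸ N) =
      Fintype.card (P ⧸ N) * Module.finrank (ZMod l) (A.Hm ⊤ (ZMod l)) + 1 := by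
  classical
  refine nat_eq_of_zmod (Fact.out : l.Prime).one_lt fun m hm => ?_
  obtain ⟨h1, h2⟩ := H.free N hN _ m hm rfl
  obtain ⟨h3, h4⟩ := H.free ⊤ (lev_top A l) _ m hm rfl
  have := zmod_nontriv (l := l) hm
  have h5 := LinearMap.trace_comp_comm' (res A N (ZMod (l ^ m))) (cor hN.normal hN.adm)
  rw [cor_res, res_cor, map_smul, LinearMap.trace_id, map_sum, rank_indep H (lev_top A l) hm,
    ← Finset.add_sum_erase _ _ (Finset.mem_univ ((1 : P) : P ⧸ N)), act_of_mem hN.normal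
      (by have := QuotientGroup.eq.1 (QuotientGroup.out_eq' ((1 : P) : P ⧸ N)).symm
          simpa using this), LinearMap.trace_id, rank_indep H hN hm,
    Finset.sum_congr rfl fun y hy => H.tr0 N hN _ m hm rfl y.out (fun h => by
      apply (Finset.mem_erase.1 hy).1
      rw [← QuotientGroup.out_eq' y, QuotientGroup.eq]; simpa using h) _
      (act_isAct hN.normal (MonoidHom.id P) _ _ y.out)] at h5
  rw [Finset.sum_const, Finset.card_erase_of_mem (Finset.mem_univ _), Finset.card_univ,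
    nsmul_eq_mul, mul_one, Nat.cast_sub Fintype.card_pos, smul_eq_mul] at h5
  push_cast at h5 ⊢
  linear_combination -h5

/-- `γ` generates every admissible `l`-group quotient. -/
def Gen (A : Adm P) (l : ℕ) {I : Type} (γ : I → P) : Prop :=
  ∀ H : Subgroup P, A.Lev l H.normalCore → (∀ i, γ i ∈ H) → H = ⊤

lemma exists_gen (H : Ctx A l q α u U f) : ∃ b : Set P, b.Finite ∧ u ∈ b ∧
    Nat.card b = Module.finrank (ZMod l) (A.Hm ⊤ (ZMod l)) ∧ Gen A l (fun g : b => (g : P)) := by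
  obtain ⟨_, h4⟩ := H.free ⊤ (lev_top A l) l 1 one_pos (pow_one l).symm
  let v : P → Module.Dual (ZMod l) (A.Hm ⊤ (ZMod l)) := fun g =>
    LinearMap.proj (⟨g, trivial⟩ : (⊤ : Subgroup P)) ∘ₗ (A.Hm ⊤ (ZMod l)).subtype
  obtain ⟨b, h1, h2, h3, h5⟩ := exists_gens v (fun χ hχ => Subtype.ext (funext fun a => hχ a)) u
    (by obtain ⟨χ, hχ⟩ := H.hu
        exact fun h => hχ (LinearMap.congr_fun h χ))
  refine ⟨b, h1, h2, h3, fun K hK hγ => ?_⟩
  by_contra hne
  have := A.fin hK.adm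
  have hp : IsPGroup l (P ⧸ K.normalCore) := fun y => by
    obtain ⟨g, rfl⟩ := QuotientGroup.mk_surjective y
    obtain ⟨a, ha⟩ := hK.pow g
    exact ⟨a, by rw [← QuotientGroup.mk_pow, QuotientGroup.eq_one_iff]; exact ha⟩
  obtain ⟨χ, hχ1, hχ2⟩ := pgroup_char hp (K.map (QuotientGroup.mk' _)) (fun h => hne (by
    have h6 := congrArg (Subgroup.comap (QuotientGroup.mk' K.normalCore)) h
    rwa [Subgroup.comap_map_eq, QuotientGroup.ker_mk', Subgroup.comap_top,
      sup_eq_left.2 K.normalCore_le] at h6))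
  let ψ : A.Hm ⊤ (ZMod l) := ⟨fun g => (χ ((g : P) : P ⧸ K.normalCore)).toAdd, fun a b => by
    simp, K.normalCore, hK.adm, fun a ha => by
    beta_reduce
    rw [(QuotientGroup.eq_one_iff _).2 ha, map_one, toAdd_one]⟩
  have h7 := h5 ψ fun g hg => by
    show (χ (g : P ⧸ K.normalCore)).toAdd = 0
    rw [hχ2 (g : P ⧸ K.normalCore) ⟨g, hγ ⟨g, hg⟩, rfl⟩, toAdd_one]
  apply hχ1
  ext g
  exact congr_fun (congrArg Subtype.val h7) ⟨g, trivial⟩

omit [Fact l.Prime] in
/-- The zero set of an admissible cocycle with values killed by a power of `l`. -/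
lemma coc_lev {N : Subgroup P} (hN : A.Lev l N) {V : Type} [AddCommGroup V] (z : P → V)
    (ac : P → V → V) (hz : ∀ g g', z (g * g') = z g + ac g (z g')) (h0 : ∀ g, ac g 0 = 0)
    (ha : ∀ a ∈ N, ∀ g, ac a (z g) = z g) (m : ℕ) (hm : ∀ g, l ^ m • z g = 0)
    (hadm : ∃ M, A.adm M ∧ ∀ g ∈ M, z g = 0) :
    ∃ K : Subgroup P, (∀ g, g ∈ K ↔ z g = 0) ∧ A.Lev l K.normalCore := by
  have h1 : z 1 = 0 := by
    have := hz 1 1
    rw [mul_one, ha 1 (one_mem N)] at this
    exact left_eq_add.1 this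
  let K : Subgroup P :=
    { carrier := {g | z g = 0}
      one_mem' := h1
      mul_mem' := fun {a b} (h2 : z a = 0) (h3 : z b = 0) => by
        show z (a * b) = 0
        rw [hz, h2, h3, h0, add_zero]
      inv_mem' := fun {a} (h2 : z a = 0) => by
        have := hz a⁻¹ a
        rw [inv_mul_cancel, h1, h2, h0, add_zero] at this
        exact this.symm }
  have hp : ∀ b ∈ N, ∀ t : ℕ, z (b ^ t) = t • z b := by
    intro b hb t
    induction t with
    | zero => simp [h1]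
    | succ t ih => rw [pow_succ, hz, ha _ (pow_mem hb t), ih, succ_nsmul]
  refine ⟨K, fun g => Iff.rfl, inferInstance, ?_, fun g => ?_⟩
  · obtain ⟨M, hM, h2⟩ := hadm
    obtain ⟨M', h3, h4, h5⟩ := A.norm hM
    exact A.up h5 (Subgroup.normal_le_normalCore.2 fun g hg => h2 g (h3 hg))
  · obtain ⟨a, h2⟩ := hN.pow g
    refine ⟨a + m, fun x => ?_⟩
    show z _ = 0
    rw [pow_add, pow_mul, ← conj_pow, hp _ (hN.normal.conj_mem _ h2 x), hm]

end Rank

section Y

variable {N : Subgroup P} {R : Type} [CommRing R] {A : Adm P}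

/-- Functions on `P` that change by an admissible character under right translation by `N`. -/
def Adm.Y (A : Adm P) (N : Subgroup P) (R : Type) [CommRing R] : Submodule R (P → R) where
  carrier := {c | ∃ χ : A.Hm N R, ∀ g, ∀ a ∈ N, c (g * a) = c g + xt χ.1 a}
  add_mem' := by
    rintro c c' ⟨χ, h⟩ ⟨χ', h'⟩
    refine ⟨χ + χ', fun g a ha => ?_⟩
    simp only [Pi.add_apply, h g a ha, h' g a ha, Submodule.coe_add, xt_add]; ring
  zero_mem' := ⟨0, fun g a ha => by simp [xt_mem _ ha]⟩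
  smul_mem' := by
    rintro r c ⟨χ, h⟩
    refine ⟨r • χ, fun g a ha => ?_⟩
    simp only [Pi.smul_apply, h g a ha, Submodule.coe_smul, xt_smul, smul_eq_mul]; ring

lemma y_fun (c : A.Y N R) : (fun a : N => c.1 a - c.1 1) ∈ A.Hm N R := by
  obtain ⟨χ, h⟩ := c.2
  have : (fun a : N => c.1 a - c.1 1) = χ.1 := by
    funext a
    have := h 1 a a.2
    rw [one_mul, xt_coe] at this
    rw [this]; ring
  rw [this]; exact χ.2

/-- The character attached to an element of `Y`. -/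
def yp (A : Adm P) (N : Subgroup P) (R : Type) [CommRing R] : A.Y N R →ₗ[R] A.Hm N R where
  toFun c := ⟨fun a => c.1 a - c.1 1, y_fun c⟩
  map_add' c c' := by ext a; simp only [Submodule.coe_add, Pi.add_apply]; ring
  map_smul' r c := by
    ext a; simp only [Submodule.coe_smul, Pi.smul_apply, smul_eq_mul, RingHom.id_apply]; ring

lemma y_mul (c : A.Y N R) (g : P) {a : P} (ha : a ∈ N) :
    c.1 (g * a) = c.1 g + xt (yp A N R c).1 a := by
  obtain ⟨χ, h⟩ := c.2
  have h1 := h 1 a ha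
  rw [one_mul] at h1
  rw [h g a ha, xt_mem (yp A N R c).1 ha]
  show _ = _ + (c.1 a - c.1 1)
  rw [h1]; ring

/-- Functions on the quotient. -/
def yi (A : Adm P) (N : Subgroup P) (R : Type) [CommRing R] : (P ⧸ N → R) →ₗ[R] A.Y N R where
  toFun f := ⟨fun g => f g, 0, fun g a ha => by
    have : ((g * a : P) : P ⧸ N) = g := by rw [QuotientGroup.eq]; simpa using ha
    simp [xt_mem _ ha, this]⟩
  map_add' _ _ := rfl
  map_smul' _ _ := rfl

lemma yi_inj : Function.Injective (yi A N R) := by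
  intro f f' h
  funext y
  obtain ⟨g, rfl⟩ := QuotientGroup.mk_surjective y
  exact congr_fun (congrArg Subtype.val h) g

lemma out_mem (g : P) : (g : P ⧸ N).out⁻¹ * g ∈ N := by
  rw [← QuotientGroup.eq, QuotientGroup.out_eq']

lemma yp_surj : Function.Surjective (yp A N R) := by
  intro χ
  let c : A.Y N R := ⟨fun g => xt χ.1 ((g : P ⧸ N).out⁻¹ * g), χ, fun g a ha => by
    have : ((g * a : P) : P ⧸ N) = g := by rw [QuotientGroup.eq]; simpa using ha
    beta_reduce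
    rw [this, ← mul_assoc, xt_mul χ (out_mem g) ha]⟩
  refine ⟨c, Subtype.ext (funext fun a => ?_)⟩
  have : ((a : P) : P ⧸ N) = (1 : P) := by rw [QuotientGroup.eq]; simp
  show xt χ.1 (((a : P) : P ⧸ N).out⁻¹ * a) - xt χ.1 (((1 : P) : P ⧸ N).out⁻¹ * 1) = _
  have h1 := out_mem (N := N) 1
  rw [mul_one] at h1
  rw [this, xt_mul χ h1 a.2, mul_one, xt_coe]; ring

lemma yi_exact : Function.Exact (yi A N R) (yp A N R) := by
  intro c
  refine ⟨fun h => ⟨fun y => c.1 y.out, Subtype.ext (funext fun g => ?_)⟩, ?_⟩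
  · show c.1 (g : P ⧸ N).out = c.1 g
    have := y_mul c (g : P ⧸ N).out (out_mem g)
    rw [mul_inv_cancel_left, h, xt_mem _ (out_mem g)] at this
    simpa only [ZeroMemClass.coe_zero, Pi.zero_apply, add_zero] using this.symm
  · rintro ⟨f, rfl⟩
    refine Subtype.ext (funext fun a => ?_)
    have : ((a : P) : P ⧸ N) = (1 : P) := by rw [QuotientGroup.eq]; simp
    show f ((a : P) : P ⧸ N) - f ((1 : P) : P ⧸ N) = 0
    rw [this, sub_self]

/-- The map `c ↦ (g ↦ c (β g * h))`. -/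
noncomputable def yT (hN : N.Normal) (β : P →* P) (hβ : ∀ a ∈ N, β a ∈ N)
    (hc : ∀ M, A.adm M → A.adm (M.comap β)) (h : P) : Module.End R (A.Y N R) where
  toFun c := ⟨fun g => c.1 (β g * h), act hN β hβ hc h (yp A N R c), fun g a ha => by
    beta_reduce
    rw [xt_mem _ ha, show β (g * a) * h = β g * h * (h⁻¹ * β a * h) by rw [map_mul]; group,
      y_mul c _ (conj_mem' hN (hβ a ha) h)]
    rfl⟩
  map_add' _ _ := rfl
  map_smul' _ _ := rfl

lemma trace_yT [Fintype (P ⧸ N)] [Module.Free R (A.Hm N R)] [Module.Finite R (A.Hm N R)]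
    (hN : N.Normal) (β : P →* P) (hβ : ∀ a ∈ N, β a ∈ N)
    (hc : ∀ M, A.adm M → A.adm (M.comap β)) (h : P) :
    LinearMap.trace R _ (yT (R := R) hN β hβ hc h) =
      (cnt N β 1 h : R) + LinearMap.trace R _ (act (R := R) hN β hβ hc h) := by
  classical
  let s : P ⧸ N → P ⧸ N := fun y => (β y.out * h : P)
  rw [trace_ses (yi A N R) (yp A N R) yi_inj yp_surj yi_exact (LinearMap.funLeft R R s) _
    (act hN β hβ hc h), trace_pi]
  · congr 1
    simp only [LinearMap.funLeft_apply, Pi.single_apply, Finset.sum_boole, cnt]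
    rw [Nat.card_eq_fintype_card, Fintype.card_subtype]
    congr 2
    ext y
    simp only [Finset.mem_filter, Finset.mem_univ, true_and, one_mul]
    rw [← QuotientGroup.eq, QuotientGroup.out_eq']
    exact eq_comm
  · refine LinearMap.ext fun f => Subtype.ext (funext fun g => ?_)
    show f (β g * h : P) = f (β (g : P ⧸ N).out * h : P)
    congr 1
    rw [eq_comm, QuotientGroup.eq]
    have := conj_mem' hN (hβ _ (out_mem g)) h
    rw [map_mul, map_inv] at this
    convert this using 1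
    group
  · refine LinearMap.ext fun c => Subtype.ext (funext fun a => ?_)
    show c.1 (β a * h) - c.1 (β 1 * h) = xt (yp A N R c).1 (h⁻¹ * β a * h)
    rw [map_one, one_mul, show β a * h = h * (h⁻¹ * β a * h) by group,
      y_mul c _ (conj_mem' hN (hβ a a.2) h)]
    ring

/-- The cocycle attached to an element of `Y`. -/
def dd (c : A.Y N R) (g x : P) : R := c.1 (g⁻¹ * x) - c.1 x

lemma dd_right (c : A.Y N R) (g x : P) {a : P} (ha : a ∈ N) : dd c g (x * a) = dd c g x := by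
  unfold dd
  rw [← mul_assoc, y_mul c _ ha, y_mul c _ ha]; ring

lemma dd_congr (c : A.Y N R) (g : P) {x x' : P} (h : (x : P ⧸ N) = x') : dd c g x = dd c g x' := by
  rw [← dd_right c g x (QuotientGroup.eq.1 h), mul_inv_cancel_left]

lemma dd_mul (c : A.Y N R) (g g' x : P) :
    dd c (g * g') x = dd c g x + dd c g' (g⁻¹ * x) := by
  unfold dd
  rw [_root_.mul_inv_rev, mul_assoc]; ring

lemma dd_adm (hA : A.adm N) (c : A.Y N R) : ∃ M, A.adm M ∧ ∀ g ∈ M, ∀ x, dd c g x = 0 := by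
  obtain ⟨M, h1, h2, h3⟩ := xt_adm (yp A N R c)
  obtain ⟨M', h4, h5, h6⟩ := A.norm (A.inf h2 hA)
  refine ⟨M', h6, fun g hg x => ?_⟩
  have h7 := h4 (conj_mem' h5 (inv_mem hg) x)
  unfold dd
  rw [show g⁻¹ * x = x * (x⁻¹ * g⁻¹ * x) by group, y_mul c _ h7.2, h3 _ h7.1]; ring

/-- Evaluation of the cocycle at the generators. -/
noncomputable def ev (A : Adm P) (N : Subgroup P) (R : Type) [CommRing R] {I : Type} (γ : I → P) :
    A.Y N R →ₗ[R] (I × (P ⧸ N) → R) where
  toFun c := fun t => dd c (γ t.1) t.2.out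
  map_add' c c' := by funext t; simp only [dd, Submodule.coe_add, Pi.add_apply]; ring
  map_smul' r c := by
    funext t
    simp only [dd, Submodule.coe_smul, Pi.smul_apply, smul_eq_mul, RingHom.id_apply]; ring

/-- Constants. -/
def yc (A : Adm P) (N : Subgroup P) (R : Type) [CommRing R] : R →ₗ[R] A.Y N R where
  toFun r := ⟨fun _ => r, 0, fun g a ha => by simp [xt_mem _ ha]⟩
  map_add' _ _ := rfl
  map_smul' _ _ := rfl

lemma yc_inj : Function.Injective (yc A N R) := fun _ _ h => congr_fun (congrArg Subtype.val h) 1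

lemma yc_exact {l m : ℕ} (hN : A.Lev l N) {I : Type} {γ : I → P} (hγ : Gen A l γ) :
    Function.Exact (yc A N (ZMod (l ^ m))) (ev A N (ZMod (l ^ m)) γ) := by
  intro c
  refine ⟨fun h => ?_, ?_⟩
  · obtain ⟨K, h1, h2⟩ := coc_lev hN (fun g x => dd c g x) (fun g v x => v (g⁻¹ * x))
      (fun g g' => funext fun x => dd_mul c g g' x) (fun _ => rfl)
      (fun a ha g => funext fun x => by
        beta_reduce
        rw [show a⁻¹ * x = x * (x⁻¹ * a⁻¹ * x) by group,
          dd_right c g x (conj_mem' hN.normal (inv_mem ha) x)]) m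
      (fun g => funext fun x => by
        rw [Pi.smul_apply, nsmul_eq_mul, ZMod.natCast_self, zero_mul]; rfl)
      (by obtain ⟨M, h1, h2⟩ := dd_adm hN.adm c
          exact ⟨M, h1, fun g hg => funext (h2 g hg)⟩)
    have h3 := hγ K h2 fun i => (h1 _).2 (funext fun x => by
      rw [dd_congr c _ (QuotientGroup.out_eq' (x : P ⧸ N)).symm]
      exact congr_fun h (i, x))
    refine ⟨c.1 1, Subtype.ext (funext fun g => ?_)⟩
    have h4 := congr_fun ((h1 g).1 (h3 ▸ trivial)) g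
    simp only [dd, inv_mul_cancel, Pi.zero_apply] at h4
    exact sub_eq_zero.1 h4
  · rintro ⟨r, rfl⟩
    funext t
    exact sub_self r

end Y

section Level

variable {A : Adm P} {l q : ℕ} [Fact l.Prime] {α : P →* P} {u : P} {U : ℕ → Type}
  [∀ k, Fintype (U k)] {f : ∀ k, U k → P}

lemma ev_surj (H : Ctx A l q α u U f) {N : Subgroup P} (hN : A.Lev l N) [Fintype (P ⧸ N)]
    {I : Type} [Fintype I] {γ : I → P} (hγ : Gen A l γ)
    (hI : Fintype.card I = Module.finrank (ZMod l) (A.Hm ⊤ (ZMod l))) {m : ℕ} (hm : 0 < m) :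
    Function.Surjective (ev A N (ZMod (l ^ m)) γ) := by
  have hl : l.Prime := Fact.out
  obtain ⟨h1, h2⟩ := H.free N hN _ m hm rfl
  have := zmod_nontriv (l := l) hm
  have : NeZero (l ^ m) := ⟨(pow_pos hl.pos m).ne'⟩
  have h3 := card_ses _ _ (yi_inj (A := A) (N := N) (R := ZMod (l ^ m))) yi_exact
  rw [LinearMap.range_eq_top.2 yp_surj, card_ses _ _ yc_inj (yc_exact hN hγ),
    Nat.card_congr Submodule.topEquiv.toEquiv, card_free (l ^ m) (A.Hm N _), rank_indep H hN hm,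
    Nat.card_fun, Nat.card_zmod, Nat.card_eq_fintype_card (α := P ⧸ N), ← pow_add, add_comm,
    rank_formula H hN, pow_succ'] at h3
  have h4 := Nat.eq_of_mul_eq_mul_left (pow_pos hl.pos m) h3
  rw [← LinearMap.range_eq_top, ← Submodule.toAddSubgroup_inj, Submodule.top_toAddSubgroup]
  refine AddSubgroup.eq_top_of_card_eq _ ?_
  rw [Nat.card_fun, Nat.card_zmod, Nat.card_eq_fintype_card (α := I × _), Fintype.card_prod, hI,
    mul_comm]
  exact h4

lemma fox_level (H : Ctx A l q α u U f) {N : Subgroup P} (hN : A.Lev l N) [Fintype (P ⧸ N)]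
    {I : Type} [Fintype I] [DecidableEq I] [DecidableEq (P ⧸ N)] {γ : I → P} (hγ : Gen A l γ)
    (hI : Fintype.card I = Module.finrank (ZMod l) (A.Hm ⊤ (ZMod l))) {m : ℕ} (hm : 0 < m) :
    ∃ c : I → A.Y N (ZMod (l ^ m)),
      (∀ i j x, dd (c j) (γ i) x = if i = j ∧ (x : P ⧸ N) = (1 : P) then 1 else 0) ∧
      ∀ (β : P →* P) (hβ : ∀ a ∈ N, β a ∈ N) (hc : ∀ M, A.adm M → A.adm (M.comap β)) (h : P),
        1 + ∑ y : P ⧸ N, ∑ i, dd (c i) (β (γ i)) (β y.out * h * y.out⁻¹) =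
          (cnt N β 1 h : ZMod (l ^ m)) +
            LinearMap.trace _ _ (act (R := ZMod (l ^ m)) hN.normal β hβ hc h) := by
  obtain ⟨h1, h2⟩ := H.free N hN _ m hm rfl
  have := zmod_nontriv (l := l) hm
  choose c hc using fun j => ev_surj H hN hγ hI hm (Pi.single (j, ((1 : P) : P ⧸ N)) 1)
  have hd : ∀ i j x, dd (c j) (γ i) x = if i = j ∧ (x : P ⧸ N) = (1 : P) then 1 else 0 := by
    intro i j x
    rw [dd_congr _ _ (QuotientGroup.out_eq' (x : P ⧸ N)).symm]
    have := congr_fun (hc j) (i, x)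
    simpa only [ev, LinearMap.coe_mk, AddHom.coe_mk, Pi.single_apply, Prod.mk.injEq] using this
  refine ⟨c, hd, fun β hβ hcm h => ?_⟩
  let c' : I × (P ⧸ N) → A.Y N (ZMod (l ^ m)) := fun t =>
    yT hN.normal (MonoidHom.id P) (fun _ h => h) (fun M h => by simpa using h) t.2.out⁻¹ (c t.1)
  let s := (Pi.basisFun (ZMod (l ^ m)) (I × (P ⧸ N))).constr (ZMod (l ^ m)) c'
  have hs : ∀ t, s (Pi.single t 1) = c' t := fun t => by
    rw [← Pi.basisFun_apply]; exact Module.Basis.constr_basis _ _ _ t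
  rw [← trace_yT, trace_split (yc A N _) (ev A N _ γ) s yc_inj (yc_exact hN hγ) ?_ LinearMap.id
    _ (by ext; rfl), LinearMap.trace_id, Module.finrank_self, Nat.cast_one, trace_pi,
    Fintype.sum_prod_type, Finset.sum_comm]
  · congr 1
    refine Finset.sum_congr rfl fun i _ => Finset.sum_congr rfl fun y _ => ?_
    rw [LinearMap.comp_apply, LinearMap.comp_apply, hs]
    show _ = (c i).1 (β ((γ i)⁻¹ * y.out) * h * y.out⁻¹) - (c i).1 (β y.out * h * y.out⁻¹)
    simp only [dd, map_mul, map_inv, mul_assoc]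
  · refine (Pi.basisFun _ _).ext fun t => funext fun t' => ?_
    rw [Pi.basisFun_apply, LinearMap.comp_apply, hs, LinearMap.id_apply, Pi.single_apply]
    have h3 := hd t'.1 t.1 (t'.2.out * t.2.out⁻¹)
    have h4 : ((t'.2.out * t.2.out⁻¹ : P) : P ⧸ N) = (1 : P) ↔ t'.2 = t.2 := by
      have := hN.normal
      rw [QuotientGroup.mk_mul, QuotientGroup.mk_inv, QuotientGroup.out_eq', QuotientGroup.out_eq',
        QuotientGroup.mk_one, mul_inv_eq_one]
    simp only [h4, ← Prod.ext_iff] at h3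
    rw [← h3]
    show (c t.1).1 ((γ t'.1)⁻¹ * t'.2.out * t.2.out⁻¹) - (c t.1).1 (t'.2.out * t.2.out⁻¹) = _
    simp only [dd, mul_assoc]

end Level

lemma cls {G R : Type} [Group G] [Fintype G] [CommRing R] (β : G → G) (τ a : G → R)
    (hτ : ∀ x y, τ (β y * x * y⁻¹) = τ x) :
    ∑ h, τ h * ∑ y, a (β y * h * y⁻¹) = Fintype.card G * ∑ x, τ x * a x := by
  simp only [Finset.mul_sum]
  rw [Finset.sum_comm, ← Finset.mul_sum, ← nsmul_eq_mul, ← Finset.card_univ, ← Finset.sum_const]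
  refine Finset.sum_congr rfl fun y _ => ?_
  rw [← Equiv.sum_comp ((Equiv.mulLeft (β y)).trans (Equiv.mulRight y⁻¹)) (fun x => τ x * a x)]
  refine Finset.sum_congr rfl fun h _ => ?_
  simp only [Equiv.trans_apply, Equiv.coe_mulLeft, Equiv.coe_mulRight, hτ]

lemma cnt_eq {N : Subgroup P} [N.Normal] [Fintype (P ⧸ N)] [DecidableEq (P ⧸ N)] (R : Type)
    [CommRing R] (β : P → P) (a b : P) : (cnt N β a b : R) =
      ∑ y : P ⧸ N, if ((β y.out : P) : P ⧸ N) * b * y⁻¹ = a then 1 else 0 := by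
  classical
  rw [Finset.sum_boole, cnt, Nat.card_eq_fintype_card, Fintype.card_subtype]
  congr 2
  ext y
  simp only [Finset.mem_filter, Finset.mem_univ, true_and]
  rw [← QuotientGroup.eq, QuotientGroup.mk_mul, QuotientGroup.mk_mul, QuotientGroup.out_eq',
    mul_inv_eq_iff_eq_mul, eq_comm]

section Fin

variable {A : Adm P} {l q : ℕ} [Fact l.Prime] {α : P →* P} {u : P} {U : ℕ → Type}
  [∀ k, Fintype (U k)] {f : ∀ k, U k → P}

/-- Iterates of `α`. -/
def itr (α : P →* P) : ℕ → P →* P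
  | 0 => MonoidHom.id P
  | k + 1 => (itr α k).comp α

lemma itr_succ (α : P →* P) (k : ℕ) : itr α (k + 1) = (itr α k).comp α := rfl

lemma itr_coe (α : P →* P) (k : ℕ) : ⇑(itr α k) = α^[k] := by
  induction k with
  | zero => rfl
  | succ k ih => rw [itr_succ, MonoidHom.coe_comp, ih, Function.iterate_succ]

omit [Fact l.Prime] in
lemma itr_comap (H : Ctx A l q α u U f) (k : ℕ) : ∀ M, A.adm M → A.adm (M.comap (itr α k)) := by
  induction k with
  | zero => exact fun M h => h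
  | succ k ih =>
    intro M h
    rw [itr_succ, ← Subgroup.comap_comap]
    exact H.comap _ (ih M h)

lemma itr_mem {N : Subgroup P} (h : ∀ a ∈ N, α a ∈ N) (k : ℕ) : ∀ a ∈ N, itr α k a ∈ N := by
  induction k with
  | zero => exact fun a h => h
  | succ k ih => intro a ha; rw [itr_succ]; exact ih _ (h a ha)

lemma itr_conj {G : Type} [Group G] {ι : P →* G} {φ : G} (hα : ∀ g, φ * ι (α g) = ι g * φ)
    (k : ℕ) : ∀ g, φ ^ k * ι (itr α k g) = ι g * φ ^ k := by
  induction k with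
  | zero => intro g; rw [pow_zero, one_mul, mul_one]; rfl
  | succ k ih =>
    intro g
    rw [itr_succ, MonoidHom.comp_apply, pow_succ', mul_assoc, ih, ← mul_assoc, hα, mul_assoc]

omit [Fact l.Prime] in
lemma level_trace (H : Ctx A l q α u U f) {N : Subgroup P} (hN : A.Lev l N) [Fintype (P ⧸ N)]
    (hs : ∀ a ∈ N, α a ∈ N) {m : ℕ} (hm : 0 < m) {k : ℕ} (hk : 0 < k) (a τ : P → ZMod (l ^ m))
    (ha : ∀ x x' : P, (x : P ⧸ N) = x' → a x = a x')
    (hτ : ∀ x x' : P, (x : P ⧸ N) = x' → τ x = τ x')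
    (hτ' : ∀ x y, τ (itr α k y * x * y⁻¹) = τ x)
    (h : ∀ h : P, 1 + ∑ y : P ⧸ N, a (itr α k y.out * h * y.out⁻¹) =
      (cnt N (itr α k) 1 h : ZMod (l ^ m)) + LinearMap.trace _ _
        (act (R := ZMod (l ^ m)) hN.normal (itr α k) (itr_mem hs k) (itr_comap H k) h)) :
    (Fintype.card (P ⧸ N) : ZMod (l ^ m)) * (q ^ k * ∑ x : P ⧸ N, τ x.out * a x.out -
      (q ^ k * τ 1 - ∑ x : U k, τ (f k x))) = 0 := by
  classical
  have := hN.normal
  let β : P ⧸ N → P ⧸ N := fun y => (itr α k y.out : P)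
  have hmk : ∀ x y : P ⧸ N, ((itr α k y.out * x.out * y.out⁻¹ : P) : P ⧸ N) = β y * x * y⁻¹ := by
    intro x y
    rw [QuotientGroup.mk_mul, QuotientGroup.mk_mul, QuotientGroup.mk_inv, QuotientGroup.out_eq',
      QuotientGroup.out_eq']
  have hτ2 : ∀ x y : P ⧸ N, τ (β y * x * y⁻¹).out = τ x.out := fun x y => by
    rw [← hτ' x.out y.out]
    exact hτ _ _ (by rw [QuotientGroup.out_eq', hmk])
  have h1 : ∀ x : P ⧸ N, (q : ZMod (l ^ m)) ^ k * ∑ y, a (β y * x * y⁻¹).out =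
      q ^ k * ∑ y, (if β y * x * y⁻¹ = 1 then 1 else 0) -
        ∑ t : U k, ∑ y, if β y * (f k t : P) * y⁻¹ = x then 1 else 0 := by
    intro x
    have h2 := H.tr N hN hs _ m hm rfl k hk x.out _
      (itr_coe α k ▸ act_isAct hN.normal (itr α k) (itr_mem hs k) (itr_comap H k) x.out)
    have h3 := h x.out
    rw [cnt_eq, QuotientGroup.out_eq', QuotientGroup.mk_one] at h3
    simp only [cnt_eq, QuotientGroup.out_eq', ← itr_coe] at h2
    rw [Finset.sum_congr rfl fun y _ => ha _ (β y * x * y⁻¹).out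
      (by rw [QuotientGroup.out_eq', hmk])] at h3
    linear_combination (q : ZMod (l ^ m)) ^ k * h3 + h2
  have h4 := cls β (fun x => τ x.out) (fun x => a x.out) hτ2
  have h5 := cls β (fun x => τ x.out) (fun x => if x = 1 then 1 else 0) hτ2
  have h6 : ∑ x : P ⧸ N, τ x.out * ∑ t : U k, ∑ y, (if β y * (f k t : P) * y⁻¹ = x then 1 else 0) =
      Fintype.card (P ⧸ N) * ∑ t : U k, τ (f k t) := by
    simp only [Finset.mul_sum]
    rw [Finset.sum_comm]
    refine Finset.sum_congr rfl fun t _ => ?_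
    rw [Finset.sum_comm]
    simp only [mul_ite, mul_one, mul_zero, Finset.sum_ite_eq, Finset.mem_univ, if_true, hτ2,
      Finset.sum_const, Finset.card_univ, nsmul_eq_mul]
    rw [hτ _ (f k t) (QuotientGroup.out_eq' _)]
  simp only [mul_ite, mul_one, mul_zero, Finset.sum_ite_eq', Finset.mem_univ, if_true] at h5
  rw [hτ (1 : P ⧸ N).out 1 (QuotientGroup.out_eq' _)] at h5
  have h7 : (q : ZMod (l ^ m)) ^ k * ∑ x : P ⧸ N, τ x.out * ∑ y, a (β y * x * y⁻¹).out =
      q ^ k * ∑ x : P ⧸ N, τ x.out * ∑ y, (if β y * x * y⁻¹ = 1 then 1 else 0) -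
        ∑ x : P ⧸ N, τ x.out * ∑ t : U k, ∑ y, if β y * (f k t : P) * y⁻¹ = x then 1 else 0 := by
    rw [Finset.mul_sum, Finset.mul_sum, ← Finset.sum_sub_distrib]
    refine Finset.sum_congr rfl fun x _ => ?_
    linear_combination τ x.out * h1 x
  rw [h4, h5, h6] at h7
  linear_combination h7

variable {I : Type} [Fintype I] [DecidableEq I] {γ : I → P} {G : Type} [Group G] {ι : P →* G}
  {φ : G} {d : Type} [Fintype d] [DecidableEq d]

lemma fox_fin (H : Ctx A l q α u U f) (hγ : Gen A l γ)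
    (hI : Fintype.card I = Module.finrank (ZMod l) (A.Hm ⊤ (ZMod l)))
    (hα : ∀ g, φ * ι (α g) = ι g * φ) (n : ℕ) (ρ : G →* Matrix d d (ZMod (l ^ n)))
    (hN : A.Lev l (ρ.comp ι).ker) : ∃ E : I → P → Matrix d d (ZMod (l ^ n)),
      (∀ j g g', E j (g * g') = E j g + ρ (ι g) * E j g') ∧
      (∀ i j, E j (γ i) = if i = j then 1 else 0) ∧ (∀ j, ∃ M, A.adm M ∧ ∀ g ∈ M, E j g = 0) ∧
      ∀ k, 0 < k → (q : ZMod (l ^ n)) ^ k * ∑ i, (ρ (φ ^ k) * E i (itr α k (γ i))).trace =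
        q ^ k * (ρ (φ ^ k)).trace - ∑ x : U k, (ρ (φ ^ k * ι (f k x))).trace := by
  classical
  set N := (ρ.comp ι).ker with hNd
  have hl : l.Prime := Fact.out
  have := A.fin hN.adm
  have := hN.normal
  have : Fintype (P ⧸ N) := Fintype.ofFinite _
  have : NeZero (l ^ n) := ⟨(pow_pos hl.pos n).ne'⟩
  have hmem : ∀ g, g ∈ N ↔ ρ (ι g) = 1 := fun g => Iff.rfl
  have hcg : ∀ x x' : P, (x : P ⧸ N) = x' → ρ (ι x) = ρ (ι x') := fun x x' h => by
    rw [← mul_inv_cancel_left x x', map_mul ι x, map_mul, (hmem _).1 (QuotientGroup.eq.1 h),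
      mul_one]
  have hs : ∀ a ∈ N, α a ∈ N := fun a ha => by
    rw [hmem, ← inv_mul_cancel_left φ (ι (α a)), hα, map_mul, map_mul, (hmem a).1 ha, one_mul,
      ← map_mul, inv_mul_cancel, map_one]
  have hp : IsPGroup l (P ⧸ N) := fun y => by
    obtain ⟨g, rfl⟩ := QuotientGroup.mk_surjective y
    obtain ⟨a, ha⟩ := hN.pow g
    exact ⟨a, by rw [← QuotientGroup.mk_pow, QuotientGroup.eq_one_iff]; exact ha⟩
  obtain ⟨v, hv⟩ := hp.exists_card_eq
  have hm : 0 < n + v + 1 := Nat.succ_pos _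
  have hd : l ^ n ∣ l ^ (n + v + 1) := pow_dvd_pow l (by omega)
  obtain ⟨c, hc1, hc2⟩ := fox_level H hN hγ hI hm
  let κ := ZMod.castHom hd (ZMod (l ^ n))
  refine ⟨fun j g => ∑ y : P ⧸ N, κ (dd (c j) g y.out) • ρ (ι y.out), fun j g g' => ?_,
    fun i j => ?_, fun j => ?_, fun k hk => ?_⟩
  · simp only [dd_mul, map_add, add_smul, Finset.sum_add_distrib, Finset.mul_sum]
    congr 1
    rw [← Equiv.sum_comp (MulAction.toPerm g)]
    refine Finset.sum_congr rfl fun y _ => ?_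
    have h1 : ((g • y).out : P ⧸ N) = (g * y.out : P) := QuotientGroup.eq.2 (out_smul_mem g y)
    rw [MulAction.toPerm_apply, hcg _ _ h1, map_mul, map_mul, Matrix.mul_smul,
      dd_congr (c j) g' (x' := y.out)]
    rw [QuotientGroup.mk_mul, h1, ← QuotientGroup.mk_mul, inv_mul_cancel_left]
  · simp only [hc1, QuotientGroup.out_eq']
    by_cases hij : i = j
    · simp only [hij, true_and, apply_ite κ, map_one, map_zero, ite_smul, one_smul, zero_smul,
        if_true]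
      rw [Finset.sum_eq_single ((1 : P) : P ⧸ N) (fun y _ hy => if_neg hy) (by simp only [QuotientGroup.mk_one, Finset.mem_univ, not_true_eq_false, ↓ reduceIte, IsEmpty.forall_iff]), if_pos rfl,
        hcg _ 1 (QuotientGroup.out_eq' _), map_one, map_one]
    · simp [hij]
  · obtain ⟨M, h1, h2⟩ := dd_adm hN.adm (c j)
    exact ⟨M, h1, fun g hg => by simp [h2 g hg]⟩
  · let τ : P → ZMod (l ^ n) := fun h => (ρ (φ ^ k * ι h)).trace
    have hκ : ∀ x : ZMod (l ^ n), κ (x.val : ZMod (l ^ (n + v + 1))) = x := fun x => by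
      rw [map_natCast, ZMod.natCast_zmod_val]
    have h1 := level_trace H hN hs hm hk (fun x => ∑ i, dd (c i) (itr α k (γ i)) x)
      (fun h => ((τ h).val : ZMod (l ^ (n + v + 1))))
      (fun x x' h => Finset.sum_congr rfl fun i _ => dd_congr _ _ h)
      (fun x x' h => by simp only [τ, map_mul, hcg x x' h])
      (fun x y => by
        congr 2
        show (ρ (φ ^ k * ι (itr α k y * x * y⁻¹))).trace = (ρ (φ ^ k * ι x)).trace
        rw [map_mul ι, map_mul ι, ← mul_assoc, ← mul_assoc, itr_conj hα, map_mul,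
          Matrix.trace_mul_comm, ← map_mul, map_inv, mul_assoc (ι y), inv_mul_cancel_left])
      (hc2 _ _ _)
    rw [← Nat.card_eq_fintype_card, hv] at h1
    have h2 := cast_eq_zero_of_mul hl.pos (by omega) hd _ h1
    simp only [map_sub, map_mul, map_pow, map_natCast κ q, map_sum, hκ, κ] at h2
    simp only [τ, map_one, mul_one] at h2
    rw [← sub_eq_zero.1 h2]
    congr 1
    simp only [Finset.mul_sum, Matrix.mul_smul, Matrix.trace_sum, Matrix.trace_smul, smul_eq_mul,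
      map_mul]
    rw [Finset.sum_comm]
    exact Finset.sum_congr rfl fun y _ => Finset.sum_congr rfl fun i _ => mul_comm _ _

/-- Reduction mod `l ^ n`. -/
noncomputable def red (n : ℕ) : Matrix d d ℤ_[l] →+* Matrix d d (ZMod (l ^ n)) :=
  (PadicInt.toZModPow n).mapMatrix

lemma red_eq_zero (n : ℕ) (x : Matrix d d ℤ_[l]) :
    red n x = 0 ↔ ∀ a b, (l : ℤ_[l]) ^ n ∣ x a b := by
  rw [← Matrix.ext_iff]
  refine forall₂_congr fun a b => ?_
  rw [← Ideal.mem_span_singleton, ← PadicInt.ker_toZModPow, RingHom.mem_ker]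
  rfl

lemma red_ext {x y : Matrix d d ℤ_[l]} (h : ∀ n, red n x = red n y) : x = y :=
  Matrix.ext fun a b => PadicInt.ext_of_toZModPow.1 fun n => congr_fun (congr_fun (h n) a) b

lemma red_trace (n : ℕ) (x : Matrix d d ℤ_[l]) :
    PadicInt.toZModPow n x.trace = (red n x).trace := by
  simp only [trace, diag_apply, map_sum, red, RingHom.mapMatrix_apply, map_apply]

lemma pow_dvd_of_dvd (x : Matrix d d ℤ_[l]) (h : ∀ a b, (l : ℤ_[l]) ∣ (x - 1) a b) (n : ℕ)
    (a b : d) : (l : ℤ_[l]) ^ n ∣ (x ^ l ^ n - 1) a b := by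
  choose B hB using h
  have hx : x = 1 + (l : ℤ_[l]) • Matrix.of B := by
    rw [← sub_eq_iff_eq_add']; ext a b; exact hB a b
  obtain ⟨Q, hQ⟩ := dvd_sub_pow_of_dvd_sub (R := Polynomial ℤ_[l]) (p := l)
    (a := 1 + (l : Polynomial ℤ_[l]) * Polynomial.X) (b := 1) (by simp only [add_sub_cancel_left, dvd_mul_right]) n
  have h1 := congrArg (Polynomial.aeval (Matrix.of B)) hQ
  simp only [map_sub, map_pow, map_add, map_one, map_mul, map_natCast, Polynomial.aeval_X,
    one_pow] at h1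
  rw [← nsmul_eq_mul, ← Nat.cast_smul_eq_nsmul ℤ_[l], ← hx, ← Nat.cast_pow, ← nsmul_eq_mul] at h1
  rw [h1, Matrix.smul_apply, nsmul_eq_mul, Nat.cast_pow, pow_succ, mul_assoc]
  exact dvd_mul_right _ _

lemma rep_lev {ρ : G →* Matrix d d ℤ_[l]} (hρ : Rep A l (ρ.comp ι)) (n : ℕ) :
    A.Lev l (((red n).toMonoidHom.comp ρ).comp ι).ker := by
  have hmem : ∀ g, g ∈ (((red n).toMonoidHom.comp ρ).comp ι).ker ↔
      ∀ a b, (l : ℤ_[l]) ^ n ∣ (ρ.comp ι g - 1) a b := fun g => by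
    rw [← red_eq_zero, map_sub, map_one, sub_eq_zero]; rfl
  refine ⟨inferInstance, ?_, fun g => ⟨n, ?_⟩⟩
  · obtain ⟨M, h1, h2⟩ := hρ.adm n
    exact A.up h1 fun g hg => (hmem g).2 (h2 g hg)
  · rw [hmem, map_pow]
    exact pow_dvd_of_dvd _ (hρ.one g) n

omit [Fact l.Prime] [Fintype I] [DecidableEq I] in
lemma mat_lev {n : ℕ} (σ : P →* Matrix d d (ZMod (l ^ n))) (hN : A.Lev l σ.ker)
    (E : P → Matrix d d (ZMod (l ^ n))) (hE : ∀ g g', E (g * g') = E g + σ g * E g')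
    (ha : ∃ M, A.adm M ∧ ∀ g ∈ M, E g = 0) :
    ∃ K : Subgroup P, (∀ g, g ∈ K ↔ E g = 0) ∧ A.Lev l K.normalCore :=
  coc_lev hN E (fun g v => σ g * v) hE (fun _ => mul_zero _)
    (fun a ha g => by rw [show σ a = 1 from ha, one_mul]) n
    (fun g => by ext a b; rw [Matrix.smul_apply, nsmul_eq_mul, ZMod.natCast_self, zero_mul]; rfl) ha

/-- Admissible matrix cocycles over `ℤ_[l]`. -/
structure Coc (A : Adm P) (σ : P → Matrix d d ℤ_[l]) (E : P → Matrix d d ℤ_[l]) : Prop where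
  mul : ∀ g g', E (g * g') = E g + σ g * E g'
  adm : ∀ n, ∃ M, A.adm M ∧ ∀ g ∈ M, red n (E g) = 0

variable {ρ : G →* Matrix d d ℤ_[l]}

lemma Coc.lev (hρ : Rep A l (ρ.comp ι)) {E : P → Matrix d d ℤ_[l]}
    (hE : Coc A (fun g => ρ (ι g)) E) (n : ℕ) :
    ∃ K : Subgroup P, (∀ g, g ∈ K ↔ red n (E g) = 0) ∧ A.Lev l K.normalCore :=
  mat_lev _ (rep_lev hρ n) _ (fun g g' => by rw [hE.mul, map_add, map_mul]; rfl) (hE.adm n)

lemma Coc.zero (hρ : Rep A l (ρ.comp ι)) {E : P → Matrix d d ℤ_[l]}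
    (hE : Coc A (fun g => ρ (ι g)) E) {w : P} (hw : ∀ N, A.Lev l N → w ∈ N) : E w = 0 :=
  red_ext fun n => by
    obtain ⟨K, h1, h2⟩ := hE.lev hρ n
    rw [map_zero]
    exact (h1 w).1 (K.normalCore_le (hw _ h2))

omit [DecidableEq I] in
lemma Coc.univ (hρ : Rep A l (ρ.comp ι)) (hγ : Gen A l γ) {D : I → P → Matrix d d ℤ_[l]}
    (hD : ∀ j, Coc A (fun g => ρ (ι g)) (D j)) (hd : ∀ i (x : I → Matrix d d ℤ_[l]),
      ∑ j, D j (γ i) * x j = x i) {E : P → Matrix d d ℤ_[l]}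
    (hE : Coc A (fun g => ρ (ι g)) E) (g : P) : E g = ∑ j, D j g * E (γ j) := by
  have h1 : Coc A (fun g => ρ (ι g)) (fun g => E g - ∑ j, D j g * E (γ j)) := by
    refine ⟨fun g g' => ?_, fun n => ?_⟩
    · simp only [hE.mul, (hD _).mul, add_mul, Finset.sum_add_distrib, mul_sub, Finset.mul_sum,
        mul_assoc]
      abel
    · obtain ⟨M, h1, h2⟩ := hE.adm n
      have h3 : ∀ s : Finset I, ∃ M, A.adm M ∧ ∀ g ∈ M, ∀ j ∈ s, red n (D j g) = 0 := by
        classical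
        intro s
        induction s using Finset.induction_on with
        | empty => exact ⟨⊤, A.top, by simp only [Subgroup.mem_top, Finset.notMem_empty, IsEmpty.forall_iff, implies_true, imp_self]⟩
        | insert j s _ ih =>
          obtain ⟨M, h1, h2⟩ := ih
          obtain ⟨M', h3, h4⟩ := (hD j).adm n
          refine ⟨M ⊓ M', A.inf h1 h3, fun g hg i hi => ?_⟩
          rcases Finset.mem_insert.1 hi with rfl | hi
          · exact h4 g hg.2
          · exact h2 g hg.1 i hi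
      obtain ⟨M', h3, h4⟩ := h3 Finset.univ
      refine ⟨M ⊓ M', A.inf h1 h3, fun g hg => ?_⟩
      simp only [map_sub, map_sum, map_mul, h2 g hg.1, h4 g hg.2 _ (Finset.mem_univ _), zero_mul,
        Finset.sum_const_zero, sub_zero]
  rw [← sub_eq_zero]
  refine red_ext fun n => ?_
  obtain ⟨K, h2, h3⟩ := h1.lev hρ n
  rw [map_zero]
  refine (h2 g).1 (hγ K h3 (fun i => (h2 _).2 ?_) ▸ trivial)
  rw [hd i fun j => E (γ j), sub_self, map_zero]

lemma fox_lim (H : Ctx A l q α u U f) (hγ : Gen A l γ)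
    (hI : Fintype.card I = Module.finrank (ZMod l) (A.Hm ⊤ (ZMod l)))
    (hα : ∀ g, φ * ι (α g) = ι g * φ) (hρ : Rep A l (ρ.comp ι)) :
    ∃ D : I → P → Matrix d d ℤ_[l], (∀ j, Coc A (fun g => ρ (ι g)) (D j)) ∧
      (∀ i j, D j (γ i) = if i = j then 1 else 0) ∧
      ∀ k, 0 < k → (q : ℤ_[l]) ^ k * ∑ i, (ρ (φ ^ k) * D i (itr α k (γ i))).trace =
        q ^ k * (ρ (φ ^ k)).trace - ∑ x : U k, (ρ (φ ^ k * ι (f k x))).trace := by
  choose E h1 h2 h3 h4 using fun n => fox_fin H hγ hI hα n _ (rep_lev hρ n)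
  have h5 : ∀ n j g, (ZMod.castHom (pow_dvd_pow l n.le_succ) (ZMod (l ^ n))).mapMatrix
      (E (n + 1) j g) = E n j g := by
    intro n j g
    set κ := (ZMod.castHom (pow_dvd_pow l n.le_succ) (ZMod (l ^ n))).mapMatrix (m := d)
    have hκ : ∀ x : Matrix d d ℤ_[l], κ (red (n + 1) x) = red n x := fun x => by
      ext a b; exact PadicInt.cast_toZModPow n (n + 1) n.le_succ _
    obtain ⟨K, h6, h7⟩ := mat_lev _ (rep_lev hρ n) (fun g => κ (E (n + 1) j g) - E n j g)
      (fun g g' => by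
        rw [h1, h1, map_add, map_mul, mul_sub]
        have := hκ (ρ (ι g))
        simp only [MonoidHom.comp_apply, RingHom.toMonoidHom_eq_coe, MonoidHom.coe_coe, this]
        abel)
      (by obtain ⟨M, h8, h9⟩ := h3 n j
          obtain ⟨M', h10, h11⟩ := h3 (n + 1) j
          exact ⟨M ⊓ M', A.inf h8 h10, fun g hg => by rw [h9 g hg.1, h11 g hg.2]; simp⟩)
    rw [← sub_eq_zero]
    refine (h6 g).1 (hγ K h7 (fun i => (h6 _).2 ?_) ▸ trivial)
    rw [h2, h2]
    split_ifs <;> simp only [Nat.succ_eq_add_one, map_one, sub_self, map_zero]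
  choose D hD using fun j g a b => padic_lim (fun n => E n j g a b)
    fun n => congr_fun (congr_fun (h5 n j g) a) b
  have hD' : ∀ n j g, red n (Matrix.of (D j g)) = E n j g := fun n j g => by
    ext a b; exact hD j g a b n
  refine ⟨fun j g => Matrix.of (D j g), fun j => ⟨fun g g' => red_ext fun n => ?_, fun n => ?_⟩,
    fun i j => red_ext fun n => ?_, fun k hk => PadicInt.ext_of_toZModPow.1 fun n => ?_⟩
  · rw [map_add, map_mul, hD', hD', hD', h1]; rfl
  · simpa only [hD'] using h3 n j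
  · rw [hD', h2]; split_ifs <;> simp
  · simp only [map_mul (PadicInt.toZModPow n), map_sub, map_sum, map_pow (PadicInt.toZModPow n),
      map_natCast, red_trace, map_mul (red n), hD']
    exact h4 n k hk

end Fin

section Eig

lemma le_of_pow_sum {R : ℝ} (hR : 0 ≤ R) (b : ℂ) (t : Finset ℂ) : b ∉ t → ∀ (w : ℂ → ℂ) (C : ℝ),
    (∀ k, 0 < k → ‖w b * b ^ k + ∑ μ ∈ t, w μ * μ ^ k‖ ≤ C * R ^ k) → w b ≠ 0 → ‖b‖ ≤ R := by
  classical
  induction t using Finset.induction_on with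
  | empty =>
    intro _ w C h hw
    by_contra! hb
    have h0 : 0 < ‖b‖ := hR.trans_lt hb
    have h1 : 0 < ‖w b‖ := norm_pos_iff.2 hw
    obtain ⟨k, hk⟩ := exists_pow_lt_of_lt_one (div_pos h1 (by positivity : 0 < |C| + 1))
      ((div_lt_one h0).2 hb)
    have h2 := h (k + 1) k.succ_pos
    rw [Finset.sum_empty, add_zero, norm_mul, norm_pow] at h2
    rw [div_pow, div_lt_div_iff₀ (by positivity) (by positivity)] at hk
    have h3 : C * R ^ (k + 1) ≤ R ^ k * (|C| + 1) * ‖b‖ := by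
      rw [pow_succ, ← mul_assoc, mul_comm C]
      gcongr
      linarith [le_abs_self C]
    have h4 := mul_lt_mul_of_pos_right hk h0
    rw [mul_assoc ‖w b‖, ← pow_succ] at h4
    linarith
  | insert ν t hν ih =>
    intro hb w C h hw
    rw [Finset.mem_insert, not_or] at hb
    refine ih hb.2 (fun μ => w μ * (μ - ν)) (C * R + ‖ν‖ * C) (fun k hk => ?_)
      (mul_ne_zero hw (sub_ne_zero.2 hb.1))
    have h1 := h k hk
    have h2 := h (k + 1) k.succ_pos
    rw [Finset.sum_insert hν] at h1 h2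
    have h3 : w b * (b - ν) * b ^ k + ∑ μ ∈ t, w μ * (μ - ν) * μ ^ k =
        (w b * b ^ (k + 1) + (w ν * ν ^ (k + 1) + ∑ μ ∈ t, w μ * μ ^ (k + 1))) -
          ν * (w b * b ^ k + (w ν * ν ^ k + ∑ μ ∈ t, w μ * μ ^ k)) := by
      have : ∑ μ ∈ t, w μ * (μ - ν) * μ ^ k =
          ∑ μ ∈ t, w μ * μ ^ (k + 1) - ν * ∑ μ ∈ t, w μ * μ ^ k := by
        rw [Finset.mul_sum, ← Finset.sum_sub_distrib]
        exact Finset.sum_congr rfl fun μ _ => by ring
      rw [this]; ring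
    rw [h3]
    refine (norm_sub_le _ _).trans ?_
    rw [norm_mul]
    have := mul_le_mul_of_nonneg_left h1 (norm_nonneg ν)
    rw [pow_succ R] at h2
    linarith only [h2, this]

variable {V : Type} [AddCommGroup V] [Module ℂ V] [FiniteDimensional ℂ V]

lemma trace_pow_eq (g : Module.End ℂ V) : ∃ (s : Finset ℂ) (n : ℂ → ℕ),
    (∀ μ, μ ∈ s ↔ g.HasEigenvalue μ) ∧ (∀ μ ∈ s, n μ ≠ 0) ∧
      ∀ k : ℕ, LinearMap.trace ℂ V (g ^ k) = ∑ μ ∈ s, (n μ : ℂ) * μ ^ k := by
  classical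
  have hds := DirectSum.isInternal_submodule_of_iSupIndep_of_iSup_eq_top
    g.independent_maxGenEigenspace g.iSup_maxGenEigenspace_eq_top
  have hfin : {μ | g.maxGenEigenspace μ ≠ ⊥}.Finite :=
    WellFoundedGT.finite_ne_bot_of_iSupIndep g.independent_maxGenEigenspace
  refine ⟨hfin.toFinset, fun μ => Module.finrank ℂ (g.maxGenEigenspace μ), fun μ => ?_,
    fun μ hμ => ?_, fun k => ?_⟩
  · rw [Set.Finite.mem_toFinset]
    exact Module.End.hasUnifEigenvalue_iff_hasUnifEigenvalue_one (k := ⊤) (by simp)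
  · rw [Set.Finite.mem_toFinset] at hμ
    exact fun h => hμ (Submodule.finrank_eq_zero.1 h)
  · have hm : ∀ (k : ℕ) μ, Set.MapsTo (g ^ k) (g.maxGenEigenspace μ) (g.maxGenEigenspace μ) :=
      fun k μ => g.mapsTo_maxGenEigenspace_of_comm ((Commute.refl g).pow_right k) μ
    rw [LinearMap.trace_eq_sum_trace_restrict' hds hfin (hm k)]
    refine Finset.sum_congr rfl fun μ _ => ?_
    have h1 := g.mapsTo_maxGenEigenspace_of_comm (Commute.refl _) μ
    have h2 : IsNilpotent (g.restrict h1 - algebraMap ℂ _ μ) :=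
      g.isNilpotent_restrict_maxGenEigenspace_sub_algebraMap μ
    have h3 : ∀ k : ℕ, LinearMap.trace ℂ _ (g.restrict h1 ^ k) =
        (Module.finrank ℂ (g.maxGenEigenspace μ) : ℂ) * μ ^ k := by
      intro k
      induction k with
      | zero => rw [pow_zero, pow_zero, mul_one, LinearMap.trace_one]
      | succ k ih =>
        rw [pow_succ, Module.End.mul_eq_comp, LinearMap.trace_comp_eq_mul_of_commute_of_isNilpotent
          μ ((Commute.refl _).pow_left k) h2, ih]; ring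
    rw [← h3]
    exact congrArg _ (Module.End.pow_restrict k h1 (hm k μ)).symm

lemma eig_le (g : Module.End ℂ V) {R C : ℝ} (hR : 0 ≤ R)
    (h : ∀ k, 0 < k → ‖LinearMap.trace ℂ V (g ^ k)‖ ≤ C * R ^ k) {b : ℂ} (hb : g.HasEigenvalue b) :
    ‖b‖ ≤ R := by
  classical
  obtain ⟨s, n, h1, h2, h3⟩ := trace_pow_eq g
  refine le_of_pow_sum hR b (s.erase b) (by simp) (fun μ => n μ) C (fun k hk => ?_)
    (Nat.cast_ne_zero.2 (h2 b ((h1 b).2 hb)))
  rw [Finset.add_sum_erase s (fun μ => (n μ : ℂ) * μ ^ k) ((h1 b).2 hb), ← h3]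
  exact h k hk

lemma trace_le (g : Module.End ℂ V) {R : ℝ} (h : ∀ μ, g.HasEigenvalue μ → ‖μ‖ ≤ R) (k : ℕ) :
    ‖LinearMap.trace ℂ V (g ^ k)‖ ≤ Module.finrank ℂ V * R ^ k := by
  obtain ⟨s, n, h1, _, h3⟩ := trace_pow_eq g
  have h4 := h3 0
  simp only [pow_zero, mul_one, LinearMap.trace_one] at h4
  have h5 : (Module.finrank ℂ V : ℝ) = ∑ μ ∈ s, (n μ : ℝ) := by exact_mod_cast h4
  rw [h3, h5, Finset.sum_mul]
  refine (norm_sum_le _ _).trans (Finset.sum_le_sum fun μ hμ => ?_)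
  rw [norm_mul, norm_pow, Complex.norm_natCast]
  gcongr
  exact h μ ((h1 μ).1 hμ)

lemma quot_bound {Z : Type} [AddCommGroup Z] [Module ℂ Z] [FiniteDimensional ℂ Z]
    (F : Module.End ℂ V) (Ψ : Module.End ℂ Z) (Δ : V →ₗ[ℂ] Z) (hΔ : Ψ ∘ₗ Δ = Δ ∘ₗ F) {R C : ℝ}
    (hR : 0 ≤ R) (hK : ∀ (w : V) (μ : ℂ), w ≠ 0 → Δ w = 0 → F w = μ • w → ‖μ‖ ≤ R)
    (htr : ∀ k, 0 < k → ‖LinearMap.trace ℂ Z (Ψ ^ k) - LinearMap.trace ℂ V (F ^ k)‖ ≤ C * R ^ k)
    (Λ : Z →ₗ[ℂ] ℂ) (h0 : Λ ≠ 0) (h1 : Λ ∘ₗ Δ = 0) {b : ℂ} (h2 : Λ ∘ₗ Ψ = b • Λ) : ‖b‖ ≤ R := by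
  have hΔ' : ∀ w, Ψ (Δ w) = Δ (F w) := fun w => LinearMap.congr_fun hΔ w
  have hk : ∀ w ∈ LinearMap.ker Δ, F w ∈ LinearMap.ker Δ := fun w hw => by
    rw [LinearMap.mem_ker, ← hΔ', LinearMap.mem_ker.1 hw, map_zero]
  have hr : ∀ z ∈ LinearMap.range Δ, Ψ z ∈ LinearMap.range Δ := by
    rintro _ ⟨w, rfl⟩; exact ⟨F w, (hΔ' w).symm⟩
  let ΨQ : Module.End ℂ (Z ⧸ LinearMap.range Δ) := (LinearMap.range Δ).mapQ _ Ψ hr
  refine eig_le ΨQ (C := C + Module.finrank ℂ (LinearMap.ker Δ)) hR (fun k hk0 => ?_) ?_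
  · have h3 := trace_ses (LinearMap.ker Δ).subtype Δ.rangeRestrict Subtype.val_injective
      Δ.surjective_rangeRestrict (by rw [LinearMap.exact_iff]; simp) (F.restrict hk ^ k) (F ^ k)
      (Ψ.restrict hr ^ k) (Module.End.commute_pow_left_of_commute (by ext; rfl) k)
      (Module.End.commute_pow_left_of_commute (by ext w; exact hΔ' w) k).symm
    have h4 := trace_ses (LinearMap.range Δ).subtype (LinearMap.range Δ).mkQ Subtype.val_injective
      (Submodule.mkQ_surjective _) (LinearMap.exact_subtype_mkQ _) (Ψ.restrict hr ^ k) (Ψ ^ k)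
      (ΨQ ^ k) (Module.End.commute_pow_left_of_commute (by ext; rfl) k)
      (Module.End.commute_pow_left_of_commute (by ext; rfl) k).symm
    have h5 := trace_le (F.restrict hk) (R := R) (fun μ hμ => by
      obtain ⟨w, hw⟩ := hμ.exists_hasEigenvector
      exact hK w μ (fun h => hw.2 (Subtype.ext h)) w.2 (congrArg Subtype.val hw.apply_eq_smul)) k
    rw [show LinearMap.trace ℂ _ (ΨQ ^ k) = (LinearMap.trace ℂ Z (Ψ ^ k) -
      LinearMap.trace ℂ V (F ^ k)) + LinearMap.trace ℂ _ (F.restrict hk ^ k) by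
        rw [h3, h4]; ring, add_mul]
    exact (norm_add_le _ _).trans (add_le_add (htr k hk0) h5)
  · rw [Module.End.hasEigenvalue_iff, Module.End.eigenspace_def, Ne, LinearMap.ker_eq_bot,
      LinearMap.injective_iff_surjective]
    intro hs
    apply h0
    ext z
    obtain ⟨y, hy⟩ := hs (Submodule.Quotient.mk z)
    obtain ⟨y, rfl⟩ := Submodule.Quotient.mk_surjective _ y
    have h3 : Ψ y - b • y - z ∈ LinearMap.range Δ := by
      rw [← Submodule.Quotient.eq, ← hy]; rfl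
    obtain ⟨w, hw⟩ := h3
    have h4 := LinearMap.congr_fun h1 w
    have h5 := LinearMap.congr_fun h2 y
    simp only [LinearMap.comp_apply, hw, map_sub, map_smul, LinearMap.zero_apply,
      LinearMap.smul_apply] at h4 h5
    rw [h5, sub_self, zero_sub, neg_eq_zero] at h4
    exact h4

end Eig

/-- Orbit count for the curve side. -/
lemma fix_count (N : Subgroup P) [N.FiniteIndex] {X V I : Type} [MulAction P X] [Fintype I]
    (π : X → V) (hN : ∀ (g : P) (y : X), g • y = y ↔ g ∈ N)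
    (horb : ∀ y y', π y = π y' ↔ ∃ g : P, g • y = y') (Φ : X → X) (hΦ : Function.Injective Φ)
    (ΦV : V → V) (hπ : ∀ y, π (Φ y) = ΦV (π y)) (β : P → P) (hβ : ∀ g y, Φ (β g • y) = g • Φ y)
    (e : I → V) (he : Function.Injective e) (hfix : ∀ y, ΦV (π y) = π y → ∃ i, e i = π y)
    (y0 : I → X) (hy0 : ∀ i, π (y0 i) = e i) (f : I → P) (hf : ∀ i, Φ (f i • y0 i) = y0 i)
    (h : P) : Nat.card {y : X // Φ (h • y) = y} = ∑ i, cnt N β h (f i) := by
  have key : ∀ i (g : P), (h * g)⁻¹ * (β g * f i) ∈ N ↔ Φ (h • g • y0 i) = g • y0 i := by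
    intro i g
    rw [← hN _ (y0 i), mul_smul, inv_smul_eq_iff, mul_smul, mul_smul, ← hΦ.eq_iff, hβ, hf, eq_comm]
  have hπ' : ∀ (g : P) y, π (g • y) = π y := fun g y => ((horb _ _).2 ⟨g, rfl⟩).symm
  unfold cnt
  rw [← Nat.card_sigma]
  refine (Nat.card_eq_of_bijective (fun t : Σ i, {y : P ⧸ N // (h * y.out)⁻¹ * (β y.out * f i) ∈ N}
    => (⟨t.2.1.out • y0 t.1, (key _ _).1 t.2.2⟩ : {y : X // Φ (h • y) = y})) ⟨?_, ?_⟩).symm
  · rintro ⟨i, y, hy⟩ ⟨i', y', hy'⟩ h1
    have h2 : y.out • y0 i = y'.out • y0 i' := congrArg Subtype.val h1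
    obtain rfl : i = i' := he (by rw [← hy0, ← hy0, ← hπ' y.out, h2, hπ'])
    obtain rfl : y = y' := by
      rw [← QuotientGroup.out_eq' y, ← QuotientGroup.out_eq' y', QuotientGroup.eq, ← hN _ (y0 i),
        mul_smul, ← h2, inv_smul_smul]
    rfl
  · rintro ⟨y, hy⟩
    obtain ⟨i, hi⟩ := hfix y (by rw [← hπ' h y, ← hπ, hy, hπ'])
    obtain ⟨g, rfl⟩ := (horb _ _).1 ((hy0 i).trans hi)
    have h1 : (g : P ⧸ N).out • y0 i = g • y0 i := by
      rw [← smul_left_cancel_iff (g : P ⧸ N).out⁻¹, inv_smul_smul, ← mul_smul,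
        (hN _ _).2 (out_mem g)]
    exact ⟨⟨i, g, (key _ _).2 (by rw [h1]; exact hy)⟩, Subtype.ext h1⟩

lemma blk_apply {I d : Type} [Fintype I] [DecidableEq I] [Fintype d] [DecidableEq d]
    (M : Matrix I I (Matrix d d ℂ)) (z : I × d → ℂ) (i : I) :
    (fun a => Matrix.toLin' (Matrix.compRingEquiv I d ℂ M) z (i, a)) =
      ∑ t, M i t *ᵥ fun b => z (t, b) := by
  funext a
  simp only [compRingEquiv_apply, toLin'_apply, mulVec, dotProduct, comp_apply, Fintype.sum_prod_type, Finset.sum_apply]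

/-- The output of section IV and of the first line of section V. -/
theorem fox_bound {A : Adm P} {l q : ℕ} [Fact l.Prime] {α : P →* P} {u : P} {U : ℕ → Type}
    [∀ k, Fintype (U k)] {f : ∀ k, U k → P} (H : Ctx A l q α u U f) (hq : 0 < q)
    {G : Type} [Group G] (ι : P →* G) (φ : G) (hα : ∀ g, φ * ι (α g) = ι g * φ)
    {d : Type} [Fintype d] [DecidableEq d] (ρ : G →* Matrix d d ℤ_[l]) (hρ : Rep A l (ρ.comp ι))
    (j : ℤ_[l] →+* ℂ) (R C : ℝ) (hR : 0 ≤ R) (hC : ∀ k, 0 < k → (Fintype.card (U k) : ℝ) ≤ C * q ^ k)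
    (hne : ∃ k, 0 < k ∧ Nonempty (U k))
    (hw : ∀ k, 0 < k → ∀ (x : U k) (μ : ℂ),
      ((ρ (φ ^ k * ι (f k x))).map j).charpoly.IsRoot μ → ‖μ‖ ≤ R ^ k)
    (lam : d → ℂ) (h0 : lam ≠ 0) (a : ℂ) (h1 : lam ᵥ* (ρ (ι u)).map j = lam)
    (h2 : lam ᵥ* (ρ φ).map j = a • lam) : ‖a‖ ≤ q * R := by
  classical
  rcases eq_or_ne a 0 with rfl | ha
  · rw [norm_zero]; positivity
  obtain ⟨b, hb, hub, hI, hγ⟩ := exists_gen H
  have := hb.fintype
  rw [Nat.card_eq_fintype_card] at hI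
  obtain ⟨D, hD, hd, htr⟩ := fox_lim H hγ hI hα hρ
  have hd' : ∀ (i : b) (x : b → Matrix d d ℤ_[l]), ∑ t, D t i * x t = x i := fun i x => by
    simp only [hd, ite_mul, one_mul, zero_mul, Finset.sum_ite_eq, Finset.mem_univ, ↓ reduceIte]
  let J : Matrix d d ℤ_[l] →+* Matrix d d ℂ := j.mapMatrix
  have hJ : ∀ x, x.map j = J x := fun _ => rfl
  simp only [hJ] at h1 h2 hw
  have hσ : Coc A (fun g => ρ (ι g)) (fun g => ρ (ι g) - 1) :=
    ⟨fun g g' => by rw [map_mul, map_mul]; noncomm_ring, fun n => by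
      obtain ⟨M, h3, h4⟩ := hρ.adm n
      exact ⟨M, h3, fun g hg => (red_eq_zero n _).2 (h4 g hg)⟩⟩
  have hE : ∀ k t, Coc A (fun g => ρ (ι g)) (fun g => ρ (φ ^ k) * D t (itr α k g)) := fun k t =>
    ⟨fun g g' => by
      rw [map_mul, (hD t).mul, mul_add, ← mul_assoc, ← mul_assoc, ← map_mul, ← map_mul,
        itr_conj hα], fun n => by
      obtain ⟨M, h3, h4⟩ := (hD t).adm n
      exact ⟨_, itr_comap H k M h3, fun g hg => by rw [map_mul, h4 _ hg, mul_zero]⟩⟩
  let Ψb : Matrix b b (Matrix d d ℂ) := Matrix.of fun i t => J (ρ φ * D t (α i))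
  have hΨ : ∀ (k : ℕ) (i t : b), (Ψb ^ k) i t = J (ρ (φ ^ k) * D t (itr α k i)) := by
    intro k
    induction k with
    | zero =>
      intro i t
      rw [pow_zero, pow_zero, map_one, one_mul, show itr α 0 (i : P) = i from rfl, hd,
        Matrix.one_apply, apply_ite J, map_one, map_zero]
    | succ k ih =>
      intro i t
      rw [pow_succ', Matrix.mul_apply, pow_succ', map_mul ρ, mul_assoc, itr_succ,
        MonoidHom.comp_apply, Coc.univ hρ hγ hD hd' (hE k t) (α i), Finset.mul_sum, map_sum]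
      refine Finset.sum_congr rfl fun s _ => ?_
      rw [ih, ← mul_assoc, map_mul J (ρ φ * _)]; rfl
  let Δ : (d → ℂ) →ₗ[ℂ] (b × d → ℂ) :=
    { toFun := fun w t => (J (ρ (ι t.1) - 1) *ᵥ w) t.2
      map_add' := fun w w' => by funext t; simp only [map_sub, map_one, mulVec_add, Pi.add_apply]
      map_smul' := fun c w => by funext t; simp [Matrix.mulVec_smul] }
  have hΔ : ∀ w (i : b), (fun a => Δ w (i, a)) = J (ρ (ι i) - 1) *ᵥ w := fun _ _ => rfl
  let Λ : (b × d → ℂ) →ₗ[ℂ] ℂ :=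
    { toFun := fun z => lam ⬝ᵥ fun c => z (⟨u, hub⟩, c)
      map_add' := fun z z' => dotProduct_add _ _ _
      map_smul' := fun c z => dotProduct_smul _ _ _ }
  have hq' : (q : ℂ) ≠ 0 := Nat.cast_ne_zero.2 hq.ne'
  have hq0 : (0 : ℝ) < q := Nat.cast_pos.2 hq
  have hv : lam ᵥ* J (ρ (ι (α u))) = lam := by
    apply smul_right_injective _ ha
    show a • _ = a • _
    rw [← Matrix.smul_vecMul, ← h2, Matrix.vecMul_vecMul, ← map_mul, ← map_mul, hα, map_mul,
      map_mul, ← Matrix.vecMul_vecMul, h1]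
  have hpow : ∀ t (n : ℕ), lam ᵥ* J (D t (α u ^ n)) = (n : ℂ) • lam ᵥ* J (D t (α u)) := by
    intro t n
    induction n with
    | zero =>
      rw [pow_zero, (hD t).zero hρ (w := 1) fun N _ => one_mem N]; simp
    | succ n ih =>
      rw [pow_succ', (hD t).mul, map_add, map_mul, Matrix.vecMul_add, ← Matrix.vecMul_vecMul, hv,
        ih, Nat.cast_succ, add_smul, one_smul, add_comm]
  have hu : ∀ t, D t (α u ^ q) = D t u := fun t => by
    have h3 := (hD t).mul (α u ^ q * u⁻¹) u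
    rwa [inv_mul_cancel_right, (hD t).zero hρ H.huq, sub_eq_zero.1 (hσ.zero hρ H.huq), zero_add,
      one_mul] at h3
  have main := quot_bound (Matrix.toLin' (J (ρ φ)))
    (Matrix.toLin' (Matrix.compRingEquiv b d ℂ Ψb)) Δ ?_ (C := C * Fintype.card d) hR ?_ ?_ Λ ?_ ?_
    (b := a / q) ?_
  · rwa [norm_div, Complex.norm_natCast, div_le_iff₀' hq0] at main
  · refine LinearMap.ext fun w => funext fun t => ?_
    have h3 := congr_fun (blk_apply Ψb (Δ w) t.1) t.2
    refine h3.trans (congr_fun (?_ : _ = J (ρ (ι t.1) - 1) *ᵥ (J (ρ φ) *ᵥ w)) t.2)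
    simp only [hΔ, Matrix.mulVec_mulVec, ← Matrix.sum_mulVec, Ψb, Matrix.of_apply, ← map_mul J,
      ← map_sum J, mul_assoc, ← Finset.mul_sum]
    rw [← Coc.univ hρ hγ hD hd' hσ (α t.1), mul_sub, sub_mul, ← map_mul, ← map_mul, hα, mul_one,
      one_mul]
  · intro w μ hw0 hΔw hF
    obtain ⟨k, hk, ⟨x⟩⟩ := hne
    have h3 : ∀ g, J (ρ (ι g)) *ᵥ w = w := fun g => by
      have h4 := Coc.univ hρ hγ hD hd' hσ g
      rw [sub_eq_iff_eq_add.1 h4, map_add, map_sum, Matrix.add_mulVec, Matrix.sum_mulVec, map_one,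
        Matrix.one_mulVec, add_eq_right]
      refine Finset.sum_eq_zero fun i _ => ?_
      rw [map_mul, ← Matrix.mulVec_mulVec, ← hΔ, hΔw]
      exact Matrix.mulVec_zero _
    have h4 : ∀ n : ℕ, J (ρ (φ ^ n)) *ᵥ w = μ ^ n • w := fun n => by
      induction n with
      | zero => simp
      | succ n ih =>
        rw [pow_succ, map_mul, map_mul, ← Matrix.mulVec_mulVec, ← Matrix.toLin'_apply (J (ρ φ)), hF,
          Matrix.mulVec_smul, ih, smul_smul, pow_succ']
    have h5 := hw k hk x (μ ^ k) (by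
      rw [← Matrix.charpoly_toLin', ← Module.End.hasEigenvalue_iff_isRoot_charpoly]
      refine Module.End.hasEigenvalue_of_hasEigenvector (x := w) ⟨?_, hw0⟩
      rw [Module.End.mem_eigenspace_iff, Matrix.toLin'_apply, map_mul, map_mul,
        ← Matrix.mulVec_mulVec, h3, h4])
    rw [norm_pow] at h5
    exact (pow_le_pow_iff_left₀ (norm_nonneg _) hR hk.ne').1 h5
  · intro k hk
    have hJt : ∀ x : Matrix d d ℤ_[l], j x.trace = (J x).trace := fun x => by
      simp only [trace, diag_apply, map_sum, J, RingHom.mapMatrix_apply, map_apply]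
    have h3 := congrArg j (htr k hk)
    simp only [map_mul j, map_sub, map_sum, map_pow j, map_natCast, hJt] at h3
    have h4 : LinearMap.trace ℂ _ (Matrix.toLin' (Matrix.compRingEquiv b d ℂ Ψb) ^ k) =
        ∑ i : b, (J (ρ (φ ^ k) * D i (itr α k i))).trace := by
      rw [← Matrix.toLin'_pow, Matrix.trace_toLin'_eq, ← map_pow]
      simp only [← hΨ, Matrix.trace, Fintype.sum_prod_type]
      rfl
    rw [h4, ← Matrix.toLin'_pow, Matrix.trace_toLin'_eq, ← map_pow, ← map_pow]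
    have h5 : ‖∑ x : U k, (J (ρ (φ ^ k * ι (f k x)))).trace‖ ≤
        C * q ^ k * (Fintype.card d * R ^ k) := by
      refine (norm_sum_le _ _).trans ((Finset.sum_le_card_nsmul _ _ (Fintype.card d * R ^ k)
        fun x _ => ?_).trans ?_)
      · have h6 := trace_le (Matrix.toLin' (J (ρ (φ ^ k * ι (f k x))))) (R := R ^ k) (fun μ hμ =>
          hw k hk x μ (by rwa [← Matrix.charpoly_toLin',
            ← Module.End.hasEigenvalue_iff_isRoot_charpoly])) 1
        rwa [pow_one, pow_one, Matrix.trace_toLin'_eq, Module.finrank_fintype_fun_eq_card] at h6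
      · rw [nsmul_eq_mul, Finset.card_univ]
        gcongr
        exact hC k hk
    rw [← norm_neg, show -∑ x : U k, (J (ρ (φ ^ k * ι (f k x)))).trace = (q : ℂ) ^ k *
      (∑ i : b, (J (ρ (φ ^ k) * D i (itr α k i))).trace - (J (ρ (φ ^ k))).trace) by
        linear_combination -h3, norm_mul, norm_pow, Complex.norm_natCast] at h5
    refine le_of_mul_le_mul_left (h5.trans_eq (by ring)) (pow_pos hq0 k)
  · obtain ⟨c, hc⟩ := Function.ne_iff.1 h0
    intro h
    apply hc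
    have h3 := LinearMap.congr_fun h fun t => (Pi.single c 1 : d → ℂ) t.2
    simpa only [Pi.zero_apply, Λ, LinearMap.coe_mk, AddHom.coe_mk, dotProduct_single, mul_one, LinearMap.zero_apply] using h3
  · refine LinearMap.ext fun w => ?_
    show lam ⬝ᵥ (J (ρ (ι u) - 1) *ᵥ w) = 0
    rw [Matrix.dotProduct_mulVec, map_sub, map_one, Matrix.vecMul_sub, h1, Matrix.vecMul_one,
      sub_self, zero_dotProduct]
  · refine LinearMap.ext fun z => ?_
    show lam ⬝ᵥ (fun c => Matrix.toLin' (Matrix.compRingEquiv b d ℂ Ψb) z (⟨u, hub⟩, c)) =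
      a / q * lam ⬝ᵥ fun c => z (⟨u, hub⟩, c)
    rw [blk_apply, dotProduct_sum]
    have h3 : ∀ t : b, lam ᵥ* Ψb ⟨u, hub⟩ t =
        (a / q) • if (⟨u, hub⟩ : b) = t then lam else 0 := fun t => by
      have h4 := hpow t q
      rw [hu, hd ⟨u, hub⟩ t] at h4
      show lam ᵥ* J (ρ φ * D t (α u)) = _
      rw [map_mul, ← Matrix.vecMul_vecMul, h2, Matrix.smul_vecMul,
        ← div_mul_cancel₀ a hq', mul_smul, ← h4, div_mul_cancel₀ a hq']
      split_ifs <;> simp
    simp only [Matrix.dotProduct_mulVec, h3, smul_dotProduct, smul_eq_mul, ← Finset.mul_sum]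
    rw [Finset.sum_eq_single (⟨u, hub⟩ : b) (fun t _ ht => by rw [if_neg ht.symm, zero_dotProduct])
      (by simp only [Finset.mem_univ, not_true_eq_false, ↓ reduceIte, IsEmpty.forall_iff]), if_pos rfl]

end Pool.Agent.MP_855f4c_ag.Fx

end

section

attribute [-instance] MonTypeEquivalenceMon.monMonoid littleWedderburn
  Action.FintypeCat.instMulActionObjFiniteOf Module.FaithfullyFlat.toFlat
  NonUnitalNormedRing.toNormedAddCommGroup instCharZeroOfIsSemireal IdemSemiring.toSemiring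
  UniformSpace.toTopologicalSpace instCoeHTCOfCoeHeadOfCoeOTC
  ContinuousSemilinearMapClass.toSemilinearMapClass NonUnitalRing.toNonUnitalNonAssocRing
  MulSemiringAction.toDistribMulAction instNonUnitalAlgHomClassOfNonUnitalAlgEquivClass
  BialgHomClass.toMonoidHomClass MonoidWithZeroHomClass.toZeroHomClass
  CoalgHomClass.toSemilinearMapClass NormedCommRing.toCommRing NormedRing.toRing instCoeOTCOfCoeTC
  Unique.instSubsingleton NonAssocSemiring.toAddCommMonoidWithOne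
  LieAdmissibleRing.toNonUnitalNonAssocRing NonUnitalSemiring.toNonUnitalNonAssocSemiring
  NormMulClass.toNoZeroDivisors instSMulZeroClass TestFunctionClass.toDFunLike
  SeminormedCommRing.toCommRing RCLike.charZero_rclike NumberField.to_charZero
  RingHomClass.toLinearMapClassNNRat NormedField.toField NonUnitalNormedCommRing.toNonUnitalCommRing
  ContDiffMapSupportedInClass.toDFunLike RingHomClass.toLinearMapClassRat EuclideanDomain.toCommRing
  BooleanRing.toRing SeminormedRing.toRing Group.IsPerfect.subsingleton_of_isMulCommutative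
  LinearOrderedAddCommMonoidWithTop.toAddCommMonoid AddGroupSeminormClass.toNonnegHomClass
  AddQuantale.instAddLeftMono AddCommMonoidWithOne.toAddCommMonoid
  NonUnitalNonAssocCommSemiring.toNonUnitalNonAssocSemiring SemilatticeInf.toPartialOrder
  SemilinearIsometryClass.toSemilinearMapClass NonUnitalSeminormedCommRing.toNonUnitalCommRing
  NonUnitalAlgHomClass.toNonUnitalRingHomClass IsStrictOrderedRing.noZeroDivisors
  MulCharClass.toMonoidHomClass AddCommGroupWithOne.toAddGroupWithOne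
  CommMonTypeEquivalenceCommMon.commMonCommMonoid MulDistribMulActionSemiHomClass.toMonoidHomClass
  BialgHomClass.toAlgHomClass LieRinehartAlgebra.toIsScalarTower Algebra.WeaklyEtale.flat
  NonAssocCommSemiring.toNonAssocSemiring IdemCommSemiring.toCommSemiring NormedAlgebra.toAlgebra
  IsDedekindDomainDvr.isDedekindDomain IdemSemiring.toCanonicallyOrderedAdd

namespace Pool.Agent.MP_855f4c_ag.Wt

open Matrix Polynomial Module

/-! ### a substitute for the logarithm -/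

lemma one_add_pow {R : Type} [CommRing R] (x : R) (q : ℕ) :
    ∃ g, (1 + x) ^ q = 1 + q * x + x ^ 2 * g := by
  induction q with
  | zero => exact ⟨0, by simp⟩
  | succ q ih =>
    obtain ⟨g, hg⟩ := ih
    exact ⟨q + g + x * g, by rw [pow_succ, hg]; push_cast; ring⟩

lemma add_mul_pow {R : Type} [CommRing R] (c x g : R) (n : ℕ) :
    ∃ g', (c + x * g) ^ n = c ^ n + x * g' := by
  induction n with
  | zero => exact ⟨0, by simp⟩
  | succ n ih =>
    obtain ⟨g', hg⟩ := ih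
    exact ⟨c ^ n * g + g' * c + x * g' * g, by rw [pow_succ, hg]; ring⟩

lemma log_poly {K : Type} [Field K] [CharZero K] {q : ℕ} (hq : 1 < q) (i : ℕ) :
    ∃ h e : K[X], (X + X ^ 2 * h).comp ((1 + X) ^ q - 1) - C (q : K) * (X + X ^ 2 * h) =
      X ^ (i + 2) * e := by
  obtain ⟨g, hg⟩ := one_add_pow (X : K[X]) q
  have hY : ((1 + X) ^ q - 1 : K[X]) = X * (C (q : K) + X * g) := by
    rw [hg, map_natCast]; ring
  induction i with
  | zero => exact ⟨0, g, by simp only [mul_zero, add_zero, X_comp, hY]; ring⟩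
  | succ i ih =>
    obtain ⟨h, e, he⟩ := ih
    obtain ⟨g', hg'⟩ := add_mul_pow (C (q : K)) X g (i + 2)
    have hne : (q : K) ^ (i + 2) - q ≠ 0 := by
      rw [sub_ne_zero]
      have : q ^ 1 < q ^ (i + 2) := Nat.pow_lt_pow_right hq (by omega)
      rw [pow_one] at this
      exact_mod_cast this.ne'
    obtain ⟨c, hc⟩ : ∃ c : K, c * ((q : K) ^ (i + 2) - q) = e.coeff 0 :=
      ⟨e.coeff 0 / _, div_mul_cancel₀ _ hne⟩
    have h1 : C c * (C (q : K) ^ (i + 2) - C (q : K)) = C (e.coeff 0) := by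
      rw [← hc]; simp
    have h2 := e.X_mul_divX_add
    refine ⟨h - C c * X ^ i, e.divX - C c * g', ?_⟩
    have h3 : (X + X ^ 2 * (h - C c * X ^ i)).comp ((1 + X) ^ q - 1) =
        (X + X ^ 2 * h).comp ((1 + X) ^ q - 1) - C c * ((1 + X) ^ q - 1) ^ (i + 2) := by
      simp only [add_comp, mul_comp, sub_comp, pow_comp, X_comp, C_comp]; ring
    rw [h3]
    generalize (X + X ^ 2 * h).comp ((1 + X) ^ q - 1) = Z at he ⊢
    rw [hY, mul_pow, hg']
    linear_combination he - X ^ (i + 2) * h1 - X ^ (i + 2) * h2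

lemma semi_aeval {K A : Type} [Field K] [Ring A] [Algebra K A] {a x y : A} (h : y * a = a * x)
    (f : K[X]) : aeval y f * a = a * aeval x f := by
  induction f using Polynomial.induction_on' with
  | add p r hp hr => rw [map_add, map_add, add_mul, mul_add, hp, hr]
  | monomial n t =>
    have h1 : y ^ n * a = a * x ^ n := ((show SemiconjBy a x y from h.symm).pow_right n).symm
    rw [aeval_monomial, aeval_monomial, mul_assoc, h1, ← mul_assoc, ← mul_assoc,
      Algebra.commutes t a]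

lemma exists_log {K A : Type} [Field K] [CharZero K] [Ring A] [Algebra K A] {q : ℕ} (hq : 1 < q)
    (Φ U : A) (hU : IsNilpotent (U - 1)) (hrel : U * Φ = Φ * U ^ q) :
    ∃ h : K[X], aeval (U - 1) (X + X ^ 2 * h) * Φ =
      (q : K) • (Φ * aeval (U - 1) (X + X ^ 2 * h)) := by
  obtain ⟨n, hn⟩ := hU
  obtain ⟨h, e, he⟩ := log_poly (K := K) hq n
  refine ⟨h, ?_⟩
  have h1 : (U - 1) * Φ = Φ * (U ^ q - 1) := by rw [sub_mul, mul_sub, hrel, one_mul, mul_one]
  have h2 := congrArg (aeval (U - 1)) he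
  rw [map_sub, aeval_comp, map_mul, map_mul, aeval_C, map_pow, aeval_X, pow_add, hn, zero_mul,
    zero_mul, sub_eq_zero] at h2
  have h3 : aeval (U - 1) ((1 + X) ^ q - 1 : K[X]) = U ^ q - 1 := by simp
  rw [semi_aeval h1, ← h3, h2, ← Algebra.smul_def, mul_smul_comm]

/-! ### eigenvectors in stable subspaces -/

section
variable {K V W : Type} [Field K] [AddCommGroup V] [Module K V] [AddCommGroup W] [Module K W]

lemma eig_lift [FiniteDimensional K V] (T : End K V) (S : Submodule K V) (hS : ∀ y ∈ S, T y ∈ S)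
    (p : V →ₗ[K] W) (c : K) (h1 : ∀ y ∈ S, p (T y) = c • p y) (y0 : V) (hy : y0 ∈ S)
    (h0 : p y0 ≠ 0) : ∃ y ∈ S, y ≠ 0 ∧ T y = c • y := by
  by_contra hne
  have hm : ∀ y ∈ S, (T - c • (1 : End K V)) y ∈ S := fun y hy =>
    S.sub_mem (hS y hy) (S.smul_mem c hy)
  have hi : Function.Injective ((T - c • (1 : End K V)).restrict hm) := by
    rw [injective_iff_map_eq_zero]
    intro y h
    by_contra hy0
    exact hne ⟨y, y.2, fun e => hy0 (Subtype.ext e), sub_eq_zero.1 (congrArg Subtype.val h)⟩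
  obtain ⟨y, e⟩ := LinearMap.injective_iff_surjective.1 hi ⟨y0, hy⟩
  have e' : T y - c • (y : V) = y0 := congrArg Subtype.val e
  apply h0
  rw [← e', map_sub, h1 y y.2, map_smul, sub_self]

lemma eig_stable [IsAlgClosed K] [FiniteDimensional K V] (T : End K V) (S : Submodule K V)
    (hS : ∀ y ∈ S, T y ∈ S) (y0 : V) (hy : y0 ∈ S) (h0 : y0 ≠ 0) :
    ∃ (c : K), ∃ y ∈ S, y ≠ 0 ∧ T y = c • y := by
  have : Nontrivial S := ⟨⟨y0, hy⟩, 0, fun e => h0 (congrArg Subtype.val e)⟩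
  obtain ⟨c, hc⟩ := End.exists_eigenvalue (T.restrict hS)
  obtain ⟨y, hy⟩ := hc.exists_hasEigenvector
  exact ⟨c, y, y.2, fun e => hy.2 (Subtype.ext e), congrArg Subtype.val hy.apply_eq_smul⟩

lemma eig_gen (T : End K V) (S : Submodule K V) (hS : ∀ y ∈ S, T y ∈ S) (c : K) (k : ℕ) :
    ∀ y0 ∈ S, y0 ≠ 0 → ((T - c • (1 : End K V)) ^ k) y0 = 0 → ∃ y ∈ S, y ≠ 0 ∧ T y = c • y := by
  induction k with
  | zero => exact fun y0 _ h0 h => absurd h h0
  | succ k ih =>
    intro y0 hy h0 h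
    by_cases e : T y0 - c • y0 = 0
    · exact ⟨y0, hy, h0, sub_eq_zero.1 e⟩
    · exact ih _ (S.sub_mem (hS _ hy) (S.smul_mem c hy)) e (by rw [pow_succ] at h; exact h)

lemma mem_G {T : End K V} {c : K} {y : V} (h : T y = c • y) : y ∈ T.maxGenEigenspace c :=
  (End.mem_maxGenEigenspace _ _ _).2 ⟨1, by simp only [pow_one, LinearMap.sub_apply, h, LinearMap.smul_apply, End.one_apply, sub_self]⟩

lemma G_stab (T : End K V) (c : K) {y : V} (h : y ∈ T.maxGenEigenspace c) :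
    T y ∈ T.maxGenEigenspace c := End.mapsTo_maxGenEigenspace_of_comm (Commute.refl T) c h

variable {Φ N : End K V} {q : K}

lemma N_pow (h : N * Φ = q • (Φ * N)) (r : ℕ) : N ^ r * Φ = q ^ r • (Φ * N ^ r) := by
  induction r with
  | zero => simp
  | succ r ih =>
    rw [pow_succ, mul_assoc, h, mul_smul_comm, ← mul_assoc, ih, smul_mul_assoc, smul_smul,
      mul_assoc, pow_succ']

lemma N_G (h : N * Φ = q • (Φ * N)) (hq : q ≠ 0) {β : K} {x : V}
    (hx : x ∈ Φ.maxGenEigenspace (q * β)) : N x ∈ Φ.maxGenEigenspace β := by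
  rw [End.mem_maxGenEigenspace] at hx ⊢
  obtain ⟨k, hk⟩ := hx
  refine ⟨k, ?_⟩
  have h1 : SemiconjBy N (Φ - (q * β) • (1 : End K V)) (q • (Φ - β • (1 : End K V))) := by
    unfold SemiconjBy
    rw [mul_sub, h, smul_mul_assoc, sub_mul, smul_sub, mul_smul_comm, smul_mul_assoc, mul_smul,
      mul_one, one_mul]
  have h2 := congrArg (fun T : End K V => T x) (h1.pow_right k).eq
  simp only [End.mul_apply, hk, map_zero, _root_.smul_pow, LinearMap.smul_apply] at h2
  exact (smul_eq_zero.1 h2.symm).resolve_left (pow_ne_zero _ hq)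

lemma N_pow_G (h : N * Φ = q • (Φ * N)) (hq : q ≠ 0) (r : ℕ) {β : K} {x : V}
    (hx : x ∈ Φ.maxGenEigenspace (q ^ r * β)) : (N ^ r) x ∈ Φ.maxGenEigenspace β :=
  N_G (N_pow h r) (pow_ne_zero _ hq) hx

/-- `N` maps onto the part of its image inside a generalized eigenspace. -/
lemma range_G [IsAlgClosed K] [FiniteDimensional K V] (h : N * Φ = q • (Φ * N)) (hq : q ≠ 0)
    {β : K} {y : V} (hy : N y ∈ Φ.maxGenEigenspace β) :
    ∃ x ∈ Φ.maxGenEigenspace (q * β), N x = N y := by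
  have h1 : y ∈ Φ.maxGenEigenspace (q * β) ⊔ ⨆ μ ≠ q * β, Φ.maxGenEigenspace μ := by
    rw [← iSup_split_single, End.iSup_maxGenEigenspace_eq_top]; trivial
  obtain ⟨x, hx, z, hz, rfl⟩ := Submodule.mem_sup.1 h1
  refine ⟨x, hx, ?_⟩
  have h2 : (⨆ μ ≠ q * β, Φ.maxGenEigenspace μ) ≤
      (⨆ μ ≠ β, Φ.maxGenEigenspace μ).comap N := iSup₂_le fun μ hμ t ht => by
    have e : q * (μ / q) = μ := mul_div_cancel₀ _ hq
    exact Submodule.mem_iSup_of_mem (μ / q) (Submodule.mem_iSup_of_mem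
      (fun e' => hμ (by rw [← e', e])) (N_G h hq (e.symm ▸ ht)))
  have h3 : N z ∈ Φ.maxGenEigenspace β := by
    have := Submodule.sub_mem _ hy (N_G h hq hx)
    rwa [map_add, add_sub_cancel_left] at this
  rw [map_add, Submodule.disjoint_def.1 (Φ.independent_maxGenEigenspace β) _ h3 (h2 hz), add_zero]

/-- Bound on eigenvalues at the ends of `N`-chains. -/
def BdE (v : K → ℝ) (q c : ℝ) (Φ N : End K V) : Prop :=
  ∀ (r : ℕ) (x : V) (γ : K), (N ^ r) x ≠ 0 → N ((N ^ r) x) = 0 → Φ ((N ^ r) x) = γ • (N ^ r) x →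
    q ^ r * v γ ^ 2 ≤ c

/-- Bound on generalized eigenvectors killed by a power of `N`. -/
def BdA (v : K → ℝ) (q c : ℝ) (Φ N : End K V) : Prop :=
  ∀ (r : ℕ) (β : K), ∀ x ∈ Φ.maxGenEigenspace β, x ≠ 0 → (N ^ (r + 1)) x = 0 → v β ^ 2 ≤ c * q ^ r

/-- Bound on generalized eigenvectors outside the image of a power of `N`. -/
def BdB (v : K → ℝ) (q c : ℝ) (Φ N : End K V) : Prop :=
  ∀ (r : ℕ) (β : K), ∀ x ∈ Φ.maxGenEigenspace β, (∀ y, (N ^ (r + 1)) y ≠ x) →
    c ≤ q ^ r * v β ^ 2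

lemma bdA {v : K →*₀ ℝ} {p c : ℝ} (h : N * Φ = q • (Φ * N)) (hq : q ≠ 0) (hv : v q = p)
    (hp : 1 ≤ p) (hc : 0 ≤ c) (H : BdE v p c Φ N) : BdA v p c Φ N := by
  intro r β x hx h0
  have main : ∀ r : ℕ, (N ^ r) x ≠ 0 → (N ^ (r + 1)) x = 0 → v β ^ 2 ≤ c * p ^ r := by
    intro r h1 h2
    have e : q ^ r * (β / q ^ r) = β := mul_div_cancel₀ _ (pow_ne_zero _ hq)
    obtain ⟨k, hk⟩ := (End.mem_maxGenEigenspace _ _ _).1 (N_pow_G h hq r (e.symm ▸ hx))
    obtain ⟨y, ⟨hy1, z, rfl⟩, hy2, hy3⟩ := eig_gen Φ (LinearMap.ker N ⊓ LinearMap.range (N ^ r))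
      (by
        rintro _ ⟨hy, z, rfl⟩
        refine ⟨?_, (q ^ r)⁻¹ • Φ z, ?_⟩
        · have := congrArg (fun T : End K V => T ((N ^ r) z)) h
          simp only [End.mul_apply, LinearMap.smul_apply] at this
          rw [SetLike.mem_coe, LinearMap.mem_ker] at hy ⊢
          rw [this, hy, map_zero, smul_zero]
        · have := congrArg (fun T : End K V => T z) (N_pow h r)
          simp only [End.mul_apply, LinearMap.smul_apply] at this
          rw [map_smul, this, smul_smul, inv_mul_cancel₀ (pow_ne_zero _ hq), one_smul])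
      _ k _ ⟨by rw [pow_succ'] at h2; exact h2, x, rfl⟩ h1 hk
    have h3 := H r z _ hy2 hy1 hy3
    have hp0 : 0 < p ^ r := by positivity
    rw [← e, map_mul, map_pow, hv]
    calc (p ^ r * v (β / q ^ r)) ^ 2 = p ^ r * v (β / q ^ r) ^ 2 * p ^ r := by ring
      _ ≤ c * p ^ r := mul_le_mul_of_nonneg_right h3 hp0.le
  induction r with
  | zero => exact main 0 h0
  | succ r ih =>
    intro h2
    by_cases h1 : (N ^ (r + 1)) x = 0
    · exact (ih h1).trans (mul_le_mul_of_nonneg_left (pow_le_pow_right₀ hp (by omega)) hc)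
    · exact main _ h1 h2

lemma chain_end [FiniteDimensional K V] (f : ℕ → K) (hf : Function.Injective f)
    (h0 : Φ.maxGenEigenspace (f 0) ≠ ⊥) :
    ∃ n, Φ.maxGenEigenspace (f n) ≠ ⊥ ∧ Φ.maxGenEigenspace (f (n + 1)) = ⊥ := by
  by_contra hne
  have h1 : ∀ n, Φ.maxGenEigenspace (f n) ≠ ⊥ := fun n => by
    induction n with
    | zero => exact h0
    | succ n ih => exact fun e => hne ⟨n, ih, e⟩
  exact Set.infinite_of_injective_forall_mem hf h1
    (WellFoundedGT.finite_ne_bot_of_iSupIndep Φ.independent_maxGenEigenspace)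

/-- Weights are integers that do not depend on the absolute value. -/
lemma wt_int [IsAlgClosed K] [CharZero K] [FiniteDimensional K V] {n : ℕ} (hn : 1 < n)
    (h : N * Φ = (n : K) • (Φ * N)) {β : K} (hβ : β ≠ 0) (h0 : Φ.maxGenEigenspace β ≠ ⊥) :
    ∃ a : ℤ, ∀ (v : K →*₀ ℝ) (c : ℝ), v n = n → BdA v n c Φ N → BdB v n c Φ N →
      v β ^ 2 = c * (n : ℝ) ^ a := by
  have hq : (n : K) ≠ 0 := by exact_mod_cast (by omega : n ≠ 0)
  have hinj : ∀ a b : ℕ, (n : K) ^ a = (n : K) ^ b → a = b := fun a b e =>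
    Nat.pow_right_injective hn (by exact_mod_cast e)
  obtain ⟨a, a1, a2⟩ := chain_end (Φ := Φ) (fun i => β / (n : K) ^ i) (fun a b e =>
    hinj _ _ (inv_injective (mul_left_cancel₀ hβ (by simpa only [div_eq_mul_inv] using e))))
    (by simpa only [pow_zero, div_one, ne_eq] using h0)
  obtain ⟨γ, hγ⟩ : ∃ γ, γ = β / (n : K) ^ a := ⟨_, rfl⟩
  have hγ0 : γ ≠ 0 := hγ ▸ div_ne_zero hβ (pow_ne_zero _ hq)
  have e1 : β = (n : K) ^ a * γ := by rw [hγ, mul_div_cancel₀ _ (pow_ne_zero _ hq)]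
  have e2 : β / (n : K) ^ (a + 1) = γ / n := by rw [hγ, pow_succ, div_div]
  simp only [← hγ, e2] at a1 a2
  obtain ⟨L, b1, b2⟩ := chain_end (Φ := Φ) (fun i => (n : K) ^ i * γ) (fun a b e =>
    hinj _ _ (mul_right_cancel₀ hγ0 e)) (by simpa only [pow_zero, one_mul, ne_eq] using a1)
  refine ⟨2 * a - L, fun v c hv hA hB => ?_⟩
  obtain ⟨x, hx, hx0⟩ := Submodule.exists_mem_ne_zero_of_ne_bot b1
  obtain ⟨y, hy, hy0⟩ := Submodule.exists_mem_ne_zero_of_ne_bot a1
  have e3 : (n : K) ^ (L + 1) * (γ / n) = (n : K) ^ L * γ := by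
    rw [pow_succ, mul_assoc, mul_div_cancel₀ _ hq]
  have h1 := hA L _ x hx hx0 (by
    have := N_pow_G h hq (L + 1) (e3.symm ▸ hx)
    rwa [a2, Submodule.mem_bot] at this)
  have h2 := hB L _ y hy fun z hz => by
    obtain ⟨t, ht, e⟩ := range_G (N_pow h (L + 1)) (pow_ne_zero _ hq) (hz.symm ▸ hy)
    rw [b2, Submodule.mem_bot] at ht
    rw [ht, map_zero, hz] at e
    exact hy0 e.symm
  have hn0 : (0 : ℝ) < n := by exact_mod_cast (by omega : 0 < n)
  have hL : (0 : ℝ) < (n : ℝ) ^ L := by positivity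
  rw [map_mul, map_pow, hv] at h1
  have h3 : (n : ℝ) ^ L * v γ ^ 2 = c := le_antisymm (le_of_mul_le_mul_right (by
    calc (n : ℝ) ^ L * v γ ^ 2 * (n : ℝ) ^ L = ((n : ℝ) ^ L * v γ) ^ 2 := by ring
      _ ≤ _ := h1) hL) h2
  rw [e1, map_mul, map_pow, hv, ← h3, zpow_sub₀ hn0.ne', zpow_natCast, two_mul, zpow_add₀ hn0.ne',
    zpow_natCast]
  field_simp

end

/-! ### matrices -/

section
variable {K d : Type} [Field K] [Fintype d] [DecidableEq d]

/-- An invariant tensor attached to the end of a Jordan chain. -/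
lemma inv_tensor (Φ U Ui : Matrix d d K) (q : ℕ) (hU : U * Ui = 1) (hrel : U * Φ = Φ * U ^ q)
    (r : ℕ) (x z : d → K) (γ : K) (hz : z ≠ 0) (hx : (U - 1) ^ r *ᵥ x = z) (h1 : U *ᵥ z = z)
    (h2 : Φ *ᵥ z = γ • z) :
    ∃ y : Matrix d d K, y ≠ 0 ∧ U * y * Uᵀ = y ∧ Φ * y * Φᵀ = ((q : K) ^ r * γ ^ 2) • y := by
  have hU' : Ui * U = 1 := mul_eq_one_comm.1 hU
  have hN : (U - 1) *ᵥ z = 0 := by rw [sub_mulVec, h1, one_mulVec, sub_self]
  have hpow : ∀ (A : Matrix d d K) (c : K) (i : ℕ), A *ᵥ z = c • z → A ^ i *ᵥ z = c ^ i • z := by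
    intro A c i hA
    induction i with
    | zero => simp
    | succ i ih => rw [pow_succ, ← mulVec_mulVec, hA, mulVec_smul, ih, smul_smul, pow_succ']
  have hUi : (-Ui) *ᵥ z = (-1 : K) • z := by
    rw [neg_mulVec, neg_smul, one_smul, neg_inj]
    conv_lhs => rw [← h1, mulVec_mulVec, hU', one_mulVec]
  have hc : Commute (-Ui) (U - 1) :=
    Commute.neg_left (Commute.sub_right (hU'.trans hU.symm) (Commute.one_right _))
  have hN' : ∀ i, (Ui - 1) ^ i = (-Ui) ^ i * (U - 1) ^ i := fun i => by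
    rw [← hc.mul_pow, neg_mul, mul_sub, hU', mul_one, neg_sub]
  have hxr : (U - 1) ^ (r + 1) *ᵥ x = 0 := by rw [pow_succ', ← mulVec_mulVec, hx, hN]
  let S : Submodule K (Matrix d d K) :=
    { carrier := {y | U * y * Uᵀ = y ∧ ∃ c : K, (U - 1) ^ r * y = c • vecMulVec z z}
      add_mem' := by
        rintro a b ⟨a1, c, a2⟩ ⟨b1, c', b2⟩
        exact ⟨by rw [mul_add, add_mul, a1, b1], c + c', by rw [mul_add, a2, b2, add_smul]⟩
      zero_mem' := ⟨by simp, 0, by simp⟩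
      smul_mem' := by
        rintro t a ⟨a1, c, a2⟩
        exact ⟨by rw [Matrix.mul_smul, Matrix.smul_mul, a1], t * c,
          by rw [Matrix.mul_smul, a2, mul_smul]⟩ }
  have hg : (∑ i ∈ Finset.range q, U ^ i) *ᵥ z = (q : K) • z := by
    rw [sum_mulVec, Finset.sum_congr rfl fun i _ => hpow U 1 i (by rw [h1, one_smul])]
    simp only [one_pow, one_smul, Finset.sum_const, Finset.card_range, nsmul_eq_mul, Nat.cast_smul_eq_nsmul]
  have hcg : Commute (∑ i ∈ Finset.range q, U ^ i) (U - 1) :=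
    Commute.sum_left _ _ _ fun i _ =>
      ((Commute.refl U).sub_right (Commute.one_right U)).pow_left i
  have hΦ : (U - 1) ^ r * Φ = Φ * ((∑ i ∈ Finset.range q, U ^ i) ^ r * (U - 1) ^ r) := by
    rw [← hcg.mul_pow, geom_sum_mul]
    exact ((show SemiconjBy Φ (U ^ q - 1) (U - 1) by
      unfold SemiconjBy; rw [sub_mul, mul_sub, hrel, one_mul, mul_one]).pow_right r).symm
  have key : ∀ y ∈ S, (U - 1) ^ r * (Φ * y * Φᵀ) = ((q : K) ^ r * γ ^ 2) • ((U - 1) ^ r * y) := by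
    rintro y ⟨-, c, hy⟩
    rw [← mul_assoc, ← mul_assoc, hΦ, mul_assoc Φ, mul_assoc _ _ y, hy, Matrix.mul_smul,
      Matrix.mul_smul, Matrix.smul_mul, mul_vecMulVec, mul_vecMulVec, vecMulVec_mul,
      vecMul_transpose, hpow _ _ r hg, mulVec_smul, h2, smul_vecMulVec, smul_vecMulVec,
      vecMulVec_smul]
    simp only [smul_smul]
    congr 1
    ring
  have hq : ∀ y, U * y * Uᵀ = y → ∀ i, U ^ i * y * (U ^ i)ᵀ = y := fun y hy i => by
    induction i with
    | zero => simp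
    | succ i ih =>
      rw [pow_succ, transpose_mul, mul_assoc (U ^ i), mul_assoc (U ^ i), ← mul_assoc (U * y), hy,
        ← mul_assoc, ih]
  let f : ℕ → ℕ → Matrix d d K := fun i j => vecMulVec ((U - 1) ^ i *ᵥ x) ((Ui - 1) ^ j *ᵥ x)
  have f1 : ∀ k i j, (U - 1) ^ k * f i j = f (k + i) j := fun k i j => by
    simp only [f, mul_vecMulVec, mulVec_mulVec, pow_add]
  have f2 : ∀ i j, f i j * (Ui - 1)ᵀ = f i (j + 1) := fun i j => by
    simp only [f, vecMulVec_mul, vecMul_transpose, mulVec_mulVec, pow_succ']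
  have f3 : ∀ i j, f (r + (i + 1)) j = 0 := fun i j => by
    have : (U - 1) ^ (r + (i + 1)) *ᵥ x = 0 := by
      rw [show r + (i + 1) = i + (r + 1) by ring, pow_add, ← mulVec_mulVec, hxr, mulVec_zero]
    simp only [f, this, zero_vecMulVec]
  have f4 : f 0 (r + 1) = 0 := by
    simp only [f, hN', ← mulVec_mulVec, hxr, mulVec_zero, vecMulVec_zero]
  have f5 : (U - 1) ^ r * ∑ i ∈ Finset.range (r + 1), f i (r - i) =
      (-1 : K) ^ r • vecMulVec z z := by
    rw [Finset.mul_sum, Finset.sum_range_succ', Finset.sum_eq_zero fun i _ => by rw [f1, f3],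
      zero_add, f1]
    simp only [f, add_zero, Nat.sub_zero, hN', ← mulVec_mulVec, hx, hpow _ _ r hUi, vecMulVec_smul]
  have f6 : U * (∑ i ∈ Finset.range (r + 1), f i (r - i)) * Uᵀ =
      ∑ i ∈ Finset.range (r + 1), f i (r - i) := by
    have e1 : (U - 1) * (∑ i ∈ Finset.range (r + 1), f i (r - i)) -
        (∑ i ∈ Finset.range (r + 1), f i (r - i)) * (Ui - 1)ᵀ = 0 := by
      rw [Finset.mul_sum, Finset.sum_mul, ← Finset.sum_sub_distrib,
        Finset.sum_congr rfl (g := fun i => f (i + 1) (r + 1 - (i + 1)) - f i (r + 1 - i)),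
        Finset.sum_range_sub (fun i => f i (r + 1 - i)), Nat.sub_zero, f4, f3 0, sub_zero]
      intro i hi
      have := Finset.mem_range.1 hi
      rw [f2, ← pow_one (U - 1), f1, add_comm 1 i, Nat.add_sub_add_right,
        show r - i + 1 = r + 1 - i by omega]
    generalize ∑ i ∈ Finset.range (r + 1), f i (r - i) = y at e1
    rw [transpose_sub, transpose_one, sub_mul, mul_sub, one_mul, mul_one, sub_sub_sub_cancel_right,
      sub_eq_zero] at e1
    rw [e1, mul_assoc, ← transpose_mul, hU, transpose_one, mul_one]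
  obtain ⟨y, hy, h0, e⟩ := eig_lift
    (LinearMap.mulRight K Φᵀ ∘ₗ LinearMap.mulLeft K Φ) S (fun y hy => by
      obtain ⟨c, hc⟩ := hy.2
      refine ⟨?_, _, (key y hy).trans (by rw [hc, smul_smul])⟩
      change U * (Φ * y * Φᵀ) * Uᵀ = Φ * y * Φᵀ
      rw [← mul_assoc, ← mul_assoc, hrel, mul_assoc _ Φᵀ, ← transpose_mul, hrel, transpose_mul,
        mul_assoc Φ _ y, mul_assoc Φ, ← mul_assoc _ _ Φᵀ, hq y hy.1, mul_assoc])
    (LinearMap.mulLeft K ((U - 1) ^ r)) _ key _ ⟨f6, _, f5⟩ (by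
      change (U - 1) ^ r * _ ≠ 0
      rw [f5]
      exact smul_ne_zero (pow_ne_zero _ (neg_ne_zero.2 one_ne_zero)) (vecMulVec_ne_zero hz hz))
  exact ⟨y, h0, hy.1, e⟩

/-- The bound for invariant tensors of order two. -/
def Inv2 (v : K → ℝ) (c : ℝ) (Φ U : Matrix d d K) : Prop :=
  ∀ (y : Matrix d d K) (a : K), y ≠ 0 → U * y * Uᵀ = y → Φ * y * Φᵀ = a • y → v a ≤ c

lemma bdE {v : K →*₀ ℝ} {c : ℝ} {q : ℕ} (hv : v q = q) {Φ U : Matrix d d K}
    (hU : IsNilpotent (U - 1)) (hrel : U * Φ = Φ * U ^ q) (H : Inv2 v c Φ U) (h : K[X]) :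
    BdE v q c (toLin' Φ) (toLin' (aeval (U - 1) (X + X ^ 2 * h))) := by
  intro r x γ h0 h1 h2
  have hu : IsUnit U := by simpa using hU.isUnit_add_one
  obtain ⟨Ui, hUi⟩ := hu.exists_right_inv
  have e1 : (X + X ^ 2 * h : K[X]) = X * (1 + X * h) := by ring
  have e2 : (X + X ^ 2 * h : K[X]) = (1 + X * h) * X := by ring
  have hE : IsUnit (aeval (U - 1) (1 + X * h : K[X])) := by
    rw [map_add, map_one, map_mul, aeval_X]
    refine IsNilpotent.isUnit_one_add (Commute.isNilpotent_mul_right ?_ hU)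
    exact (semi_aeval rfl h).symm
  rw [← toLin'_pow, toLin'_apply] at h0 h1 h2
  rw [toLin'_apply] at h1 h2
  obtain ⟨y, y0, y1, y2⟩ := inv_tensor Φ U Ui q hUi hrel r
    (aeval (U - 1) (1 + X * h : K[X]) ^ r *ᵥ x) _ γ h0
    (by rw [mulVec_mulVec, e1, ← map_pow (aeval (U - 1)) (X * _), mul_pow, map_mul, map_pow,
      map_pow, aeval_X]) (by
      generalize aeval (U - 1) (X + X ^ 2 * h : K[X]) ^ r *ᵥ x = z at h1
      rw [e2, map_mul, aeval_X, ← mulVec_mulVec] at h1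
      have := mulVec_injective_of_isUnit hE (h1.trans (mulVec_zero _).symm)
      rwa [sub_mulVec, one_mulVec, sub_eq_zero] at this) h2
  have := H y _ y0 y1 y2
  rwa [map_mul, map_pow, map_pow, hv] at this

lemma bdB {v : K →*₀ ℝ} {p c : ℝ} {q : K} (hc : 0 < c) {Φ Φi N : Matrix d d K} (hΦ : Φi * Φ = 1)
    (h : N * Φ = q • (Φ * N)) (hq : q ≠ 0) (H : BdA v p c⁻¹ (toLin' Φiᵀ) (toLin' Nᵀ)) :
    BdB v p c (toLin' Φ) (toLin' N) := by
  intro r β x hx hr
  have hL : toLin' N * toLin' Φ = q • (toLin' Φ * toLin' N) := by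
    rw [End.mul_eq_comp, End.mul_eq_comp, ← toLin'_mul, ← toLin'_mul, h, map_smul]
  obtain ⟨k, hk⟩ := (End.mem_maxGenEigenspace _ _ _).1 hx
  let R := LinearMap.range (toLin' N ^ (r + 1))
  have hR : R ≤ R.comap (toLin' Φ) := by
    rintro _ ⟨z, rfl⟩
    refine ⟨(q ^ (r + 1))⁻¹ • toLin' Φ z, ?_⟩
    have := congrArg (fun T : End K (d → K) => T z) (N_pow hL (r + 1))
    simp only [End.mul_apply, LinearMap.smul_apply] at this
    rw [map_smul, this, smul_smul, inv_mul_cancel₀ (pow_ne_zero _ hq), one_smul]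
  have hlt : R ⊔ LinearMap.range (toLin' Φ - β • (1 : End K (d → K))) < ⊤ := by
    rw [lt_top_iff_ne_top]
    intro htop
    have hs : Function.Surjective (R.mapQ R (toLin' Φ) hR - β • (1 : End K ((d → K) ⧸ R))) := by
      intro t
      obtain ⟨t, rfl⟩ := R.mkQ_surjective t
      obtain ⟨a, ha, _, ⟨b, rfl⟩, rfl⟩ := Submodule.mem_sup.1 (htop ▸ Submodule.mem_top (x := t))
      refine ⟨R.mkQ b, ?_⟩
      rw [map_add, show R.mkQ a = 0 from (Submodule.Quotient.mk_eq_zero R).2 ha, zero_add]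
      rfl
    have hi := LinearMap.injective_iff_surjective.2 hs
    have : ∀ k (x : d → K), ((toLin' Φ - β • (1 : End K (d → K))) ^ k) x ∈ R → x ∈ R := by
      intro k
      induction k with
      | zero => exact fun x hx => hx
      | succ k ih =>
        intro x hx
        rw [pow_succ] at hx
        have h1 := (Submodule.Quotient.mk_eq_zero R).2 (ih _ hx)
        exact (Submodule.Quotient.mk_eq_zero R).1 (hi (h1.trans (map_zero _).symm))
    obtain ⟨y, hy⟩ := this k x (hk ▸ R.zero_mem)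
    exact hr y hy
  obtain ⟨f, f0, hf⟩ := Submodule.exists_dual_map_eq_bot_of_lt_top hlt inferInstance
  have hf' : ∀ t ∈ R ⊔ LinearMap.range (toLin' Φ - β • (1 : End K (d → K))), f t = 0 :=
    fun t ht => (Submodule.mem_bot K).1 (hf ▸ Submodule.mem_map_of_mem ht)
  obtain ⟨ξ, hξ⟩ : ∃ ξ : d → K, ∀ t, f t = ξ ⬝ᵥ t :=
    ⟨fun i => f (Pi.single i 1), fun t => by
      rw [LinearMap.pi_apply_eq_sum_univ f t, dotProduct]
      refine Finset.sum_congr rfl fun i _ => ?_
      rw [smul_eq_mul, mul_comm]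
      congr 2
      funext j
      simp [Pi.single_apply, eq_comm]⟩
  have ξ0 : ξ ≠ 0 := fun e => f0 (LinearMap.ext fun t => by rw [hξ, e]; simp only [zero_dotProduct, LinearMap.zero_apply])
  have hz : ∀ A : Matrix d d K, (∀ t, f (A *ᵥ t) = 0) → Aᵀ *ᵥ ξ = 0 := fun A hA => by
    funext i
    have := hA (Pi.single i 1)
    rw [hξ, dotProduct_mulVec, dotProduct_single, mul_one] at this
    rw [mulVec_transpose]; exact this
  have h1 : (N ^ (r + 1))ᵀ *ᵥ ξ = 0 := hz _ fun t =>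
    hf' _ (Submodule.mem_sup_left ⟨t, by rw [← toLin'_pow, toLin'_apply]⟩)
  have h2 : (Φ - β • (1 : Matrix d d K))ᵀ *ᵥ ξ = 0 := hz _ fun t =>
    hf' _ (Submodule.mem_sup_right ⟨t, by simp only [LinearMap.sub_apply, toLin'_apply, LinearMap.smul_apply, End.one_apply, sub_mulVec, smul_mulVec, one_mulVec]⟩)
  rw [transpose_sub, transpose_smul, transpose_one, sub_mulVec, smul_mulVec, one_mulVec,
    sub_eq_zero] at h2
  have h3 : β • (Φiᵀ *ᵥ ξ) = ξ := by
    rw [← mulVec_smul, ← h2, mulVec_mulVec, ← transpose_mul, mul_eq_one_comm.1 hΦ, transpose_one,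
      one_mulVec]
  have hβ : β ≠ 0 := fun e => ξ0 (by rw [← h3, e, zero_smul])
  have h4 := H r β⁻¹ ξ (mem_G (by
    rw [toLin'_apply]; exact (eq_inv_smul_iff₀ hβ).2 h3)) ξ0
    (by rw [← toLin'_pow, toLin'_apply, ← transpose_pow, h1])
  have hv : 0 < v β ^ 2 := lt_of_le_of_ne (sq_nonneg _) (pow_ne_zero 2 ((map_ne_zero v).2 hβ)).symm
  rw [map_inv₀, inv_pow, inv_mul_eq_div, le_div_iff₀ hc, inv_mul_le_iff₀ hv] at h4
  rwa [mul_comm] at h4

end

end Pool.Agent.MP_855f4c_ag.Wt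

end

section

attribute [-instance] littleWedderburn RKHS.instFunLike
  ContinuousSemilinearMapClass.toSemilinearMapClass Action.FintypeCat.instMulActionObjFiniteOf
  MonTypeEquivalenceMon.monMonoid CoalgHomClass.toSemilinearMapClass
  instNonUnitalAlgHomClassOfNonUnitalAlgEquivClass Complex.instModule
  LieRinehartAlgebra.toIsScalarTower NormedRing.toRing SemilinearIsometryClass.toSemilinearMapClass
  BialgEquivClass.toBialgHomClass NonUnitalNonAssocSemiring.toMulZeroClass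
  Module.FaithfullyFlat.toFlat IdemSemiring.toSemiring EuclideanDomain.toCommRing
  NonUnitalSeminormedCommRing.toNonUnitalCommRing RingHomClass.toLinearMapClassRat
  TestFunctionClass.toDFunLike IdemCommSemiring.toCommSemiring ContDiffMapSupportedInClass.toDFunLike
  NonUnitalAlgHomClass.instSemilinearMapClassOfNonUnitalAlgSemiHomClassToMonoidHomRingHom
  NonUnitalRing.toNonUnitalNonAssocRing

namespace Pool.Agent.MP_855f4c_ag.Wt

open Matrix Polynomial Module Cardinal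

/-! ### embeddings into the complex numbers -/

lemma ext_emb {R K : Type} [CommRing R] [Field K] (hR : #R ≤ ℵ₀) (hK : #K ≤ 𝔠) (f : R →+* K)
    (g : R →+* ℂ) (hf : Function.Injective f) (hg : Function.Injective g) :
    ∃ σ : K →+* ℂ, ∀ r, σ (f r) = g r := by
  let _ : Algebra R K := f.toAlgebra
  let _ : Algebra R ℂ := g.toAlgebra
  have : Nontrivial R := f.domain_nontrivial
  have : FaithfulSMul R K := (faithfulSMul_iff_algebraMap_injective R K).2 hf
  have : FaithfulSMul R ℂ := (faithfulSMul_iff_algebraMap_injective R ℂ).2 hg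
  obtain ⟨s, hs⟩ := exists_isTranscendenceBasis R K
  obtain ⟨t, ht⟩ := exists_isTranscendenceBasis R ℂ
  have h1 := IsAlgClosed.cardinal_eq_cardinal_transcendence_basis_of_aleph0_lt' _ ht hR
    (by rw [Cardinal.mk_complex]; exact aleph0_lt_continuum)
  obtain ⟨e⟩ : Nonempty (s ↪ t) := (Cardinal.le_def _ _).1
    (((mk_set_le s).trans hK).trans (by rw [← h1, Cardinal.mk_complex]))
  have h2 : AlgebraicIndependent R (fun i : s => (e i : ℂ)) := ht.1.comp e e.injective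
  let τ : Algebra.adjoin R (Set.range (Subtype.val : s → K)) →ₐ[R] ℂ :=
    (MvPolynomial.aeval fun i : s => (e i : ℂ)).comp hs.1.aevalEquiv.symm.toAlgHom
  have hτ : Function.Injective τ := fun a b e =>
    hs.1.aevalEquiv.symm.injective (algebraicIndependent_iff_injective_aeval.1 h2 e)
  have := hs.isAlgebraic
  let _ : Algebra (Algebra.adjoin R (Set.range (Subtype.val : s → K))) ℂ := τ.toRingHom.toAlgebra
  have : Module.IsTorsionFree (Algebra.adjoin R (Set.range (Subtype.val : s → K))) ℂ :=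
    Module.isTorsionFree_iff_algebraMap_injective.2 hτ
  have : Module.IsTorsionFree (Algebra.adjoin R (Set.range (Subtype.val : s → K))) K :=
    Module.isTorsionFree_iff_algebraMap_injective.2 Subtype.val_injective
  let σ : K →ₐ[Algebra.adjoin R (Set.range (Subtype.val : s → K))] ℂ := IsAlgClosed.lift
  exact ⟨σ.toRingHom, fun r => (σ.commutes (algebraMap R _ r)).trans (τ.commutes r)⟩

lemma mk_poly : #(ℚ[X]) ≤ ℵ₀ := Polynomial.cardinalMk_le_max.trans (by simp)

/-- A number with the same absolute value in all embeddings is a Weil number. -/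
lemma weil_of {β : ℂ} {t : ℝ} (h : ∀ σ : ℂ →+* ℂ, ‖σ β‖ ^ 2 = t) :
    ∃ P : ℚ[X], P ≠ 0 ∧ aeval β P = 0 ∧ ∀ z : ℂ, aeval z P = 0 → ‖z‖ ^ 2 = t := by
  by_cases ha : IsAlgebraic ℚ β
  · have hi := ha.isIntegral
    refine ⟨minpoly ℚ β, minpoly.ne_zero hi, minpoly.aeval ℚ β, fun z hz => ?_⟩
    have : Fact (Irreducible (minpoly ℚ β)) := ⟨minpoly.irreducible hi⟩
    obtain ⟨σ, hσ⟩ := ext_emb ((mk_le_of_surjective (AdjoinRoot.mk_surjective
      (g := minpoly ℚ β))).trans mk_poly) Cardinal.mk_complex.le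
      (AdjoinRoot.lift (algebraMap ℚ ℂ) β (minpoly.aeval ℚ β))
      (AdjoinRoot.lift (algebraMap ℚ ℂ) z hz) (RingHom.injective _) (RingHom.injective _)
    have e := hσ (AdjoinRoot.root _)
    have e1 := AdjoinRoot.lift_root (i := algebraMap ℚ ℂ) (a := β) (minpoly.aeval ℚ β)
    have e2 := AdjoinRoot.lift_root (i := algebraMap ℚ ℂ) (a := z) hz
    rw [← h σ, ← (congrArg σ e1).symm.trans (e.trans e2)]
  · have h3 : Transcendental ℚ (aeval β (C 2 * X : ℚ[X])) :=
      Transcendental.aeval ha _ (by simp) (by simp)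
    obtain ⟨σ, hσ⟩ := ext_emb mk_poly Cardinal.mk_complex.le (aeval β).toRingHom
      (aeval (aeval β (C 2 * X : ℚ[X]))).toRingHom (transcendental_iff_injective.1 ha)
      (transcendental_iff_injective.1 h3)
    have e : σ β = 2 * β := by simpa using hσ X
    have h4 := (h σ).trans (h (RingHom.id ℂ)).symm
    rw [e, norm_mul, RingHom.id_apply, Complex.norm_two] at h4
    have h5 : β = 0 := norm_eq_zero.1 (pow_eq_zero_iff two_ne_zero |>.1 (by linarith))
    exact absurd (h5 ▸ isAlgebraic_zero) ha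

lemma exists_emb (l : ℕ) [Fact l.Prime] : Nonempty (ℚ_[l] →+* ℂ) := by
  have h : #ℚ_[l] ≤ 𝔠 := by
    refine mk_quotient_le.trans ((mk_subtype_le _).trans (le_of_eq ?_))
    simp
  obtain ⟨σ, -⟩ := ext_emb (R := ℚ) (by simp) h (algebraMap ℚ _) (algebraMap ℚ ℂ)
    (RingHom.injective _) (RingHom.injective _)
  exact ⟨σ⟩

/-! ### the weight filtration -/

section
variable {V : Type} [AddCommGroup V] [Module ℂ V] [FiniteDimensional ℂ V]

lemma grade {q : ℕ} (hq : 1 < q) (w : ℤ) {Φ U : End ℂ V} (hU : IsNilpotent (U - 1)) (h : ℂ[X])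
    (hN : aeval (U - 1) (X + X ^ 2 * h) * Φ = (q : ℂ) • (Φ * aeval (U - 1) (X + X ^ 2 * h)))
    (hA : BdA (fun z : ℂ => ‖z‖) q (q ^ w) Φ (aeval (U - 1) (X + X ^ 2 * h)))
    (hB : BdB (fun z : ℂ => ‖z‖) q (q ^ w) Φ (aeval (U - 1) (X + X ^ 2 * h)))
    (hW : ∀ β, Φ.maxGenEigenspace β ≠ ⊥ →
      ∃ a : ℤ, ∀ σ : ℂ →+* ℂ, ‖σ β‖ ^ 2 = (q : ℝ) ^ w * (q : ℝ) ^ a) :
    LP.MwPure q w Φ U := by
  obtain ⟨N, hNd⟩ : ∃ N, N = aeval (U - 1) (X + X ^ 2 * h) := ⟨_, rfl⟩
  rw [← hNd] at hN hA hB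
  have hq1 : (1 : ℝ) < q := by exact_mod_cast hq
  have hq0 : (0 : ℝ) < q := by positivity
  have hqc : (q : ℂ) ≠ 0 := by exact_mod_cast (by omega : q ≠ 0)
  have hmono := zpow_right_strictMono₀ hq1
  let G := Φ.maxGenEigenspace
  let M : ℤ → Submodule ℂ V := fun a => ⨆ β ∈ {β : ℂ | ‖β‖ ^ 2 ≤ (q : ℝ) ^ (a + w)}, G β
  let E : ℤ → Submodule ℂ V := fun a => ⨆ β ∈ {β : ℂ | ‖β‖ ^ 2 = (q : ℝ) ^ (a + w)}, G β
  have hW' : ∀ β, G β ≠ ⊥ → ∃ a : ℤ, ‖β‖ ^ 2 = (q : ℝ) ^ (a + w) := fun β hβ => by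
    obtain ⟨a, ha⟩ := hW β hβ
    exact ⟨a, by rw [add_comm, zpow_add₀ hq0.ne']; exact ha (RingHom.id ℂ)⟩
  have inM : ∀ {β a}, ‖β‖ ^ 2 ≤ (q : ℝ) ^ (a + w) → G β ≤ M a := fun hβ =>
    le_iSup₂_of_le _ hβ le_rfl
  have inE : ∀ {β a}, ‖β‖ ^ 2 = (q : ℝ) ^ (a + w) → G β ≤ E a := fun hβ =>
    le_iSup₂_of_le _ hβ le_rfl
  have mono : Monotone M := fun a b hab => iSup₂_le fun β hβ =>
    inM (le_trans hβ (hmono.monotone (by omega)))
  have EM : ∀ a, E a ≤ M a := fun a => iSup₂_le fun β hβ => inM (le_of_eq hβ)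
  have split : ∀ a, M a ≤ M (a - 1) ⊔ E a := fun a => iSup₂_le fun β hβ => by
    by_cases h0 : G β = ⊥
    · rw [h0]; exact bot_le
    obtain ⟨b, hb⟩ := hW' β h0
    have hba : b + w ≤ a + w := hmono.le_iff_le.1 (hb ▸ hβ)
    rcases eq_or_ne b a with rfl | hne
    · exact le_sup_of_le_right (inE hb)
    · exact le_sup_of_le_left (inM (hb ▸ hmono.monotone (by omega)))
  have disj : ∀ a, Disjoint (M (a - 1)) (E a) := fun a =>
    Φ.independent_maxGenEigenspace.disjoint_biSup_biSup (Set.disjoint_left.2 fun β h1 h2 => by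
      have := hmono.le_iff_le.1 (le_trans (le_of_eq (Eq.symm h2)) h1)
      omega)
  have nrm : ∀ (r : ℕ) (β : ℂ), ‖(q : ℂ) ^ r * β‖ ^ 2 = (q : ℝ) ^ (2 * r : ℤ) * ‖β‖ ^ 2 := by
    intro r β
    rw [norm_mul, norm_pow, Complex.norm_natCast, mul_pow, ← pow_mul, mul_comm r 2]
    norm_cast
  have dv : ∀ (r : ℕ) (β : ℂ), (q : ℂ) ^ r * (β / q ^ r) = β := fun r β =>
    mul_div_cancel₀ _ (pow_ne_zero _ hqc)
  have sh : ∀ (r : ℕ) (a : ℤ), (q : ℝ) ^ (a + w) = q ^ (2 * r : ℤ) * q ^ (a - 2 * r + w) := by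
    intro r a
    rw [← zpow_add₀ hq0.ne']; congr 1; ring
  have NM : ∀ (r : ℕ) a, M a ≤ (M (a - 2 * r)).comap (N ^ r) := fun r a =>
    iSup₂_le fun β hβ x hx => inM (β := β / q ^ r) (le_of_mul_le_mul_left (by
      rw [← nrm, dv, ← sh]; exact hβ) (zpow_pos hq0 (2 * r)))
      (N_pow_G hN hqc r ((dv r β).symm ▸ hx))
  have NE : ∀ (r : ℕ) a, E a ≤ (E (a - 2 * r)).comap (N ^ r) := fun r a =>
    iSup₂_le fun β hβ x hx => inE (β := β / q ^ r) (mul_left_cancel₀ (zpow_pos hq0 (2 * r)).ne' (by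
      rw [← nrm, dv, ← sh]; exact hβ)) (N_pow_G hN hqc r ((dv r β).symm ▸ hx))
  have ΦM : ∀ a, M a ≤ (M a).comap Φ := fun a => iSup₂_le fun β hβ x hx => inM hβ (G_stab Φ β hx)
  have ΦE : ∀ a, E a ≤ (E a).comap Φ := fun a => iSup₂_le fun β hβ x hx => inE hβ (G_stab Φ β hx)
  have inj : ∀ (r : ℕ), ∀ x ∈ E r, (N ^ r) x = 0 → x = 0 := by
    intro r x hx h0
    by_contra hne
    obtain ⟨c, y, ⟨y1, y2⟩, y0, hy⟩ := eig_stable Φ (E r ⊓ LinearMap.ker (N ^ r)) (fun y hy =>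
      ⟨ΦE r hy.1, by
        have := congrArg (fun T : End ℂ V => T y) (N_pow hN r)
        simp only [End.mul_apply, LinearMap.smul_apply] at this
        rw [SetLike.mem_coe, LinearMap.mem_ker, this, LinearMap.mem_ker.1 hy.2, map_zero,
          smul_zero]⟩) x ⟨hx, h0⟩ hne
    by_cases hc : ‖c‖ ^ 2 = (q : ℝ) ^ ((r : ℤ) + w)
    · cases r with
      | zero => exact y0 y2
      | succ r =>
        have := hA r c y (mem_G hy) y0 y2
        rw [hc, ← zpow_natCast, ← zpow_add₀ hq0.ne', hmono.le_iff_le] at this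
        push_cast at this
        omega
    · exact y0 (Submodule.disjoint_def.1 (Φ.independent_maxGenEigenspace.disjoint_biSup
        (y := {β : ℂ | ‖β‖ ^ 2 = (q : ℝ) ^ ((r : ℤ) + w)}) hc) y (mem_G hy) y1)
  have sur : ∀ r : ℕ, E (-r) ≤ (E r).map (N ^ r) := fun r => iSup₂_le fun β hβ x hx => by
    have hβ' : ‖β‖ ^ 2 = (q : ℝ) ^ (-(r : ℤ) + w) := hβ
    obtain ⟨y, rfl⟩ : ∃ y, (N ^ r) y = x := by
      cases r with
      | zero => exact ⟨x, rfl⟩
      | succ r =>
        by_contra hne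
        have := hB r β x hx fun y hy => hne ⟨y, hy⟩
        rw [hβ', ← zpow_natCast, ← zpow_add₀ hq0.ne', hmono.le_iff_le] at this
        push_cast at this
        omega
    obtain ⟨z, hz, e⟩ := range_G (N_pow hN r) (pow_ne_zero _ hqc) hx
    refine ⟨z, inE ?_ hz, e⟩
    rw [nrm, hβ', ← zpow_add₀ hq0.ne']; congr 1; ring
  have hfac : ∀ (i : ℕ) (f : ℂ[X]), ∃ g : ℂ[X],
      aeval (U - 1) (X ^ i * f) = f.coeff 0 • N ^ i + aeval (U - 1) (X ^ (i + 1) * g) := by
    intro i f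
    obtain ⟨g', hg'⟩ := add_mul_pow (1 : ℂ[X]) X h i
    refine ⟨f.divX - C (f.coeff 0) * g', ?_⟩
    rw [hNd, ← map_pow, ← map_smul, ← map_add, smul_eq_C_mul,
      show (X + X ^ 2 * h : ℂ[X]) = X * (1 + X * h) by ring, mul_pow, hg']
    congr 1
    linear_combination (-X ^ i) * f.X_mul_divX_add
  have low : ∀ (i : ℕ) (f : ℂ[X]) (a : ℤ), ∀ x ∈ M a,
      aeval (U - 1) (X ^ i * f) x ∈ M (a - 2 * i) := by
    obtain ⟨n, hn⟩ := hU
    have : ∀ j i : ℕ, n ≤ i + j → ∀ (f : ℂ[X]) (a : ℤ), ∀ x ∈ M a,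
        aeval (U - 1) (X ^ i * f) x ∈ M (a - 2 * i) := by
      intro j
      induction j with
      | zero =>
        intro i hi f a x _
        rw [map_mul, map_pow, aeval_X, pow_eq_zero_of_le (show n ≤ i from hi) hn, zero_mul]
        exact zero_mem _
      | succ j ih =>
        intro i hi f a x hx
        obtain ⟨g, hg⟩ := hfac i f
        rw [hg]
        exact add_mem (Submodule.smul_mem _ _ (NM i a hx))
          (mono (by push_cast; omega) (ih (i + 1) (by omega) g a x hx))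
    exact fun i => this n i (by omega)
  have cmp : ∀ (r : ℕ), ∀ x ∈ M r, ((U - 1) ^ r) x - (N ^ r) x ∈ M (-r - 1) := by
    intro r x hx
    obtain ⟨g, hg⟩ := hfac r 1
    rw [mul_one, map_pow, aeval_X, coeff_one_zero, one_smul] at hg
    rw [hg, LinearMap.add_apply, add_sub_cancel_left]
    exact mono (by push_cast; omega) (low (r + 1) g r x hx)
  have hfin : {β | G β ≠ ⊥}.Finite :=
    WellFoundedGT.finite_ne_bot_of_iSupIndep Φ.independent_maxGenEigenspace
  choose! wt hwt using hW'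
  obtain ⟨lo, hlo⟩ := (hfin.image wt).bddBelow
  obtain ⟨up, hup⟩ := (hfin.image wt).bddAbove
  refine ⟨1, one_pos, M, mono, ⟨lo - 1, le_bot_iff.1 (iSup₂_le fun β hβ => ?_)⟩,
    ⟨up, top_le_iff.1 ?_⟩, fun a x hx => ?_, fun r => ⟨fun x hx h0 => ?_, fun x hx => ?_⟩,
    fun a => ⟨ΦM a, ?_⟩⟩
  · by_contra h0
    have h1 : G β ≠ ⊥ := fun e => h0 (le_of_eq e)
    have h2 := hlo ⟨β, h1, rfl⟩
    have h3 := hmono.le_iff_le.1 (le_trans (le_of_eq (hwt β h1).symm) hβ)
    omega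
  · rw [← Φ.iSup_maxGenEigenspace_eq_top]
    refine iSup_le fun β => ?_
    by_cases h0 : G β = ⊥
    · exact (le_of_eq h0).trans bot_le
    · have h2 := hup ⟨β, h0, rfl⟩
      exact inM (hwt β h0 ▸ hmono.monotone (by omega))
  · simpa only [pow_one, LinearMap.sub_apply, End.one_apply, Nat.cast_one, mul_one, aeval_X] using low 1 1 a x hx
  · rw [pow_one] at h0
    obtain ⟨y, hy, z, hz, rfl⟩ := Submodule.mem_sup.1 (split r hx)
    have h1 : (N ^ r) (y + z) ∈ M (-r - 1) := by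
      simpa only [map_add, sub_sub_cancel] using sub_mem h0 (cmp r _ hx)
    have h2 : (N ^ r) y ∈ M (-r - 1) := mono (by omega) (NM r _ hy)
    have h3 : (N ^ r) z ∈ M (-r - 1) := by simpa only [map_add, add_sub_cancel_left] using sub_mem h1 h2
    have h4 : (N ^ r) z ∈ E (-r) := by
      have := NE r _ hz
      rwa [show (r : ℤ) - 2 * r = -r by ring] at this
    rw [inj r z hz (Submodule.disjoint_def.1 (disj (-r)) _ h3 h4), add_zero]
    exact hy
  · obtain ⟨y, hy, z, hz, rfl⟩ := Submodule.mem_sup.1 (split _ hx)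
    obtain ⟨t, ht, rfl⟩ := sur r hz
    refine ⟨t, EM r ht, ?_⟩
    rw [pow_one, add_sub_assoc]
    exact add_mem hy (by simpa only [neg_sub] using neg_mem (cmp r t (EM r ht)))
  · let S : Submodule ℂ V :=
      { carrier := {x | ∃ P : ℚ[X], P ≠ 0 ∧ (∀ z : ℂ, aeval z P = 0 → ‖z‖ ^ 2 = (q : ℝ) ^ (a + w)) ∧
          aeval Φ (P.map (algebraMap ℚ ℂ)) x = 0}
        add_mem' := by
          rintro x y ⟨P, p0, p1, p2⟩ ⟨Q, q0, q1, q2⟩
          refine ⟨P * Q, mul_ne_zero p0 q0, fun z hz => ?_, ?_⟩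
          · rw [map_mul, mul_eq_zero] at hz
            exact hz.elim (p1 z) (q1 z)
          · rw [map_add, Polynomial.map_mul, map_mul, End.mul_apply _ _ y, q2, map_zero, add_zero,
              ← map_mul, mul_comm, map_mul, End.mul_apply, p2, map_zero]
        zero_mem' := ⟨1, one_ne_zero, by simp, by simp only [Polynomial.map_one, map_one, End.one_apply]⟩
        smul_mem' := by
          rintro c x ⟨P, p0, p1, p2⟩
          exact ⟨P, p0, p1, by rw [map_smul, p2, smul_zero]⟩ }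
    have hES : E a ≤ S := iSup₂_le fun β hβ x hx => by
      by_cases h0 : G β = ⊥
      · rw [h0, Submodule.mem_bot] at hx
        exact hx ▸ S.zero_mem
      obtain ⟨b, hb⟩ := hW β h0
      obtain ⟨P, p0, p1, p2⟩ := weil_of hb
      obtain ⟨k, hk⟩ := (End.mem_maxGenEigenspace _ _ _).1 hx
      refine ⟨P ^ (k + 1), pow_ne_zero _ p0, fun z hz => ?_, ?_⟩
      · rw [map_pow, pow_eq_zero_iff (by omega)] at hz
        exact (p2 z hz).trans ((hb (RingHom.id ℂ)).symm.trans hβ)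
      · obtain ⟨g, hg⟩ : X - C β ∣ P.map (algebraMap ℚ ℂ) :=
          dvd_iff_isRoot.2 (by rw [IsRoot, eval_map_algebraMap, p1])
        rw [Polynomial.map_pow, hg, mul_comm, mul_pow, map_mul, End.mul_apply, map_pow _ (X - C β),
          map_sub, aeval_X, aeval_C, Algebra.algebraMap_eq_smul_one, pow_succ' (Φ - _), End.mul_apply,
          hk, map_zero, map_zero]
    obtain ⟨s, hs⟩ := IsNoetherian.noetherian (E a)
    have : ∀ t : Finset V, (∀ x ∈ t, x ∈ S) → ∃ P : ℚ[X], P ≠ 0 ∧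
        (∀ z : ℂ, aeval z P = 0 → ‖z‖ ^ 2 = (q : ℝ) ^ (a + w)) ∧
          ∀ x ∈ t, aeval Φ (P.map (algebraMap ℚ ℂ)) x = 0 := by
      classical
      intro t
      induction t using Finset.induction_on with
      | empty => exact fun _ => ⟨1, one_ne_zero, by simp, by simp only [Finset.notMem_empty, Polynomial.map_one, map_one, End.one_apply, IsEmpty.forall_iff, implies_true]⟩
      | insert y t _ ih =>
        intro ht
        obtain ⟨P, p0, p1, p2⟩ := ih fun x hx => ht x (Finset.mem_insert_of_mem hx)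
        obtain ⟨Q, q0, q1, q2⟩ := ht y (Finset.mem_insert_self _ _)
        refine ⟨P * Q, mul_ne_zero p0 q0, fun z hz => ?_, fun x hx => ?_⟩
        · rw [map_mul, mul_eq_zero] at hz
          exact hz.elim (p1 z) (q1 z)
        · rcases Finset.mem_insert.1 hx with rfl | hx
          · rw [Polynomial.map_mul, map_mul, End.mul_apply, q2, map_zero]
          · rw [mul_comm, Polynomial.map_mul, map_mul, End.mul_apply, p2 x hx, map_zero]
    obtain ⟨P, p0, p1, p2⟩ := this s fun x hx => hES (hs ▸ Submodule.subset_span hx)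
    refine ⟨P, p0, p1, fun x hx => ?_⟩
    obtain ⟨y, hy, z, hz, rfl⟩ := Submodule.mem_sup.1 (split a hx)
    have hz0 : z ∈ LinearMap.ker (aeval Φ (P.map (algebraMap ℚ ℂ))) :=
      (Submodule.span_le.2 fun x hx => p2 x hx) (hs ▸ hz)
    rw [map_add, LinearMap.mem_ker.1 hz0, add_zero]
    exact aeval_apply_smul_mem_of_le_comap hy _ Φ (ΦM _)

end

/-! ### descent -/

lemma ker_M {F H : Type} [Field F] [CharZero F] [AddCommGroup H] [Module F H] (q : ℝ)
    (hq : 1 < q) (i : ℤ) (ψ : End F H) (M : ℤ → Submodule F H)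
    (hM : Monotone M) (b c : ℤ) (hb : M b = ⊥) (ht : M c = ⊤) (hs : ∀ a, ∀ v ∈ M a, ψ v ∈ M a)
    (h : ∀ a, ∃ P : ℚ[X], (∀ z : ℂ, aeval z P = 0 → ‖z‖ ^ 2 = q ^ (a + i)) ∧
      ∀ v ∈ M a, aeval ψ (P.map (algebraMap ℚ F)) v ∈ M (a - 1)) (a : ℤ) :
    ∃ G : ℚ[X], ∀ v, v ∈ M a ↔ aeval ψ (G.map (algebraMap ℚ F)) v = 0 := by
  obtain ⟨G, g1, g2⟩ := LP.de_drop q i ψ M h a (a - b).toNat
  obtain ⟨K, k1, k2⟩ := LP.de_drop q i ψ M h (a + (c - a).toNat) (c - a).toNat
  refine ⟨G, fun v => ⟨fun hv => ?_, fun hG => ?_⟩⟩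
  · have := hM (show a - (a - b).toNat ≤ b by omega) (g2 v hv)
    rwa [hb, Submodule.mem_bot] at this
  have hK : aeval ψ (K.map (algebraMap ℚ F)) v ∈ M a := by
    have := k2 v (hM (show c ≤ a + (c - a).toNat by omega) (ht ▸ Submodule.mem_top))
    rwa [add_sub_cancel_right] at this
  obtain ⟨x, y, e⟩ : IsCoprime G K := by
    refine (isCoprime_iff_aeval_ne_zero_of_isAlgClosed ℚ ℂ G K).2 fun z => ?_
    by_contra hz
    push Not at hz
    obtain ⟨r, -, r2, r3⟩ := g1 z hz.1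
    obtain ⟨s, s1, -, s3⟩ := k1 z hz.2
    have := (zpow_right_strictMono₀ hq).injective (r3.symm.trans s3)
    omega
  have e2 := congrArg (fun P : ℚ[X] => aeval ψ (P.map (algebraMap ℚ F)) v) e
  simp only [Polynomial.map_add, Polynomial.map_mul, map_add, map_mul, Polynomial.map_one,
    map_one, LinearMap.add_apply, End.mul_apply, End.one_apply, hG, map_zero, zero_add] at e2
  rw [← e2]
  exact aeval_apply_smul_mem_of_le_comap hK _ ψ (hs a)

lemma map_aeval {F K d : Type} [Field F] [CharZero F] [Field K] [CharZero K] [Fintype d]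
    [DecidableEq d] (j : F →+* K) (A : Matrix d d F) (P : ℚ[X]) :
    ∃ B : Matrix d d F, aeval (toLin' A) (P.map (algebraMap ℚ F)) = toLin' B ∧
      aeval (toLin' (A.map j)) (P.map (algebraMap ℚ K)) = toLin' (B.map j) := by
  induction P using Polynomial.induction_on' with
  | add p r hp hr =>
    obtain ⟨B, b1, b2⟩ := hp
    obtain ⟨D, d1, d2⟩ := hr
    exact ⟨B + D, by rw [Polynomial.map_add, map_add, b1, d1, map_add],
      by rw [Polynomial.map_add, map_add, b2, d2, Matrix.map_add _ (map_add j), map_add]⟩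
  | monomial n t =>
    refine ⟨(t : F) • A ^ n, ?_, ?_⟩
    · rw [map_monomial, aeval_monomial, map_smul, toLin'_pow, ← Algebra.smul_def, eq_ratCast]
    · rw [map_monomial, aeval_monomial, ← Algebra.smul_def, ← toLin'_pow, ← map_smul, eq_ratCast,
        ← Matrix.map_pow]
      congr 1
      ext a b
      simp

lemma descend {F K d : Type} [Field F] [CharZero F] [Field K] [CharZero K] [Fintype d]
    [DecidableEq d] (j : F →+* K) {q : ℕ} (hq : 1 < q) (w : ℤ) (Φ U : Matrix d d F)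
    (H : LP.MwPure q w (toLin' (Φ.map j)) (toLin' (U.map j))) :
    LP.MwPure q w (toLin' Φ) (toLin' U) := by
  obtain ⟨m, hm, M, a1, ⟨b, a2⟩, ⟨c, a3⟩, a4, a5, a6⟩ := H
  let _ : Algebra F K := j.toAlgebra
  obtain ⟨p, hp⟩ := (Algebra.linearMap F K).exists_leftInverse_of_injective
    (LinearMap.ker_eq_bot.2 j.injective)
  have hp1 : ∀ t, p (j t) = t := fun t => congrArg (fun T : F →ₗ[F] F => T t) hp
  have he : ∀ (A : Matrix d d F) v, j ∘ toLin' A v = toLin' (A.map j) (j ∘ v) := fun A v =>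
    funext fun i => RingHom.map_mulVec j A v i
  have hr : ∀ (A : Matrix d d F) x, p ∘ toLin' (A.map j) x = toLin' A (p ∘ x) := fun A x => by
    funext i
    simp only [toLin'_apply, Function.comp, mulVec, dotProduct, map_sum, map_apply]
    exact Finset.sum_congr rfl fun k _ => p.map_smul (A i k) (x k)
  have hker := ker_M (q : ℝ) (by exact_mod_cast hq) w _ M a1 b c a2 a3 (fun a => (a6 a).1)
    fun a => (a6 a).2.imp fun P h => h.2
  have hpM : ∀ a, ∀ x ∈ M a, j ∘ p ∘ x ∈ M a := fun a x hx => by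
    obtain ⟨G, hG⟩ := hker a
    obtain ⟨B, -, b2⟩ := map_aeval j Φ G
    rw [hG, b2] at hx ⊢
    rw [← he, ← hr, hx]
    funext i
    simp
  have hY : ∀ r, ((toLin' U ^ m - 1) ^ r : End F (d → F)) = toLin' ((U ^ m - 1) ^ r) := fun r => by
    rw [toLin'_pow, map_sub, toLin'_pow, toLin'_one]; rfl
  have hY' : ∀ r, ((toLin' (U.map j) ^ m - 1) ^ r : End K (d → K)) =
      toLin' (((U ^ m - 1) ^ r).map j) := fun r => by
    rw [Matrix.map_pow, Matrix.map_sub _ (map_sub j), Matrix.map_pow,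
      Matrix.map_one _ (map_zero j) (map_one j), toLin'_pow, map_sub, toLin'_pow, toLin'_one]
    rfl
  let M' : ℤ → Submodule F (d → F) := fun a =>
    { carrier := {v | j ∘ v ∈ M a}
      add_mem' := fun {x y} hx hy => by
        have := (M a).add_mem hx hy
        rwa [show j ∘ x + j ∘ y = j ∘ (x + y) from funext fun i => (map_add j _ _).symm] at this
      zero_mem' := by
        have := (M a).zero_mem
        rwa [show (0 : d → K) = j ∘ (0 : d → F) from funext fun i => (map_zero j).symm] at this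
      smul_mem' := fun t x hx => by
        have := (M a).smul_mem (j t) hx
        rwa [show j t • j ∘ x = j ∘ (t • x) from funext fun i => (map_mul j _ _).symm] at this }
  have mem : ∀ a v, v ∈ M' a ↔ j ∘ v ∈ M a := fun _ _ => Iff.rfl
  refine ⟨m, hm, M', fun _ _ h v hv => a1 h hv, ⟨b, eq_bot_iff.2 fun v hv => ?_⟩,
    ⟨c, eq_top_iff.2 fun v _ => by rw [mem, a3]; trivial⟩, fun a v hv => ?_,
    fun r => ⟨fun v hv h => ?_, fun v hv => ?_⟩, fun a => ⟨fun v hv => ?_, ?_⟩⟩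
  · rw [mem, a2, Submodule.mem_bot] at hv
    exact funext fun i => j.injective ((congrFun hv i).trans (map_zero j).symm)
  · have := a4 a _ hv
    rw [← pow_one (_ - 1), hY', ← he] at this
    rwa [← pow_one (_ - 1), hY]
  · rw [hY, mem, he, ← hY'] at h
    exact (a5 r).1 _ hv h
  · obtain ⟨x, h1, h2⟩ := (a5 r).2 _ hv
    refine ⟨p ∘ x, hpM _ _ h1, ?_⟩
    have h3 := hpM _ _ h2
    rw [hY'] at h3
    rw [hY, ← hr, mem]
    convert h3 using 2
    funext i
    simp only [toLin'_apply, Pi.sub_apply, Function.comp_apply, map_sub, hp1]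
  · rw [mem, he]; exact (a6 a).1 _ hv
  · obtain ⟨P, h1, h2, h3⟩ := (a6 a).2
    obtain ⟨B, b1, b2⟩ := map_aeval j Φ P
    exact ⟨P, h1, h2, fun v hv => by rw [b1, mem, he, ← b2]; exact h3 _ hv⟩

end Pool.Agent.MP_855f4c_ag.Wt

end

section

attribute [-instance] littleWedderburn MonTypeEquivalenceMon.monMonoid
  ContinuousSemilinearMapClass.toSemilinearMapClass RKHS.instFunLike
  MulRingSeminormClass.toMonoidWithZeroHomClass instNonUnitalAlgHomClassOfNonUnitalAlgEquivClass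
  CoalgHomClass.toSemilinearMapClass Module.FaithfullyFlat.toFlat NonUnitalNonAssocSemiring.toDistrib
  NonUnitalAlgSemiHomClass.toMulHomClass NonUnitalAlgHomClass.toNonUnitalRingHomClass
  SemilinearIsometryClass.toSemilinearMapClass IdemSemiring.toSemiring
  RingHomClass.toLinearMapClassNNRat RingHomClass.toLinearMapClassRat
  NonUnitalAlgHomClass.instSemilinearMapClassOfNonUnitalAlgSemiHomClassToMonoidHomRingHom
  NormedField.toField CommGroup.toDivisionCommMonoid BialgHomClass.toAlgHomClass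
  LieAdmissibleRing.toNonUnitalNonAssocRing MulSemiringAction.toDistribMulAction
  TestFunctionClass.toDFunLike ContDiffMapSupportedInClass.toDFunLike
  Group.IsPerfect.subsingleton_of_isMulCommutative CommMonoidWithZero.toMonoidWithZero
  NormedRing.toRing BialgHomClass.toMonoidHomClass AlgHomClass.linearMapClass
  IdemCommSemiring.toCommSemiring

namespace Pool.Agent.MP_855f4c_ag.Wt

open Matrix Polynomial Module Kronecker

/-! ### weights over the complex numbers -/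

/-- The absolute value attached to an endomorphism of `ℂ`. -/
noncomputable def av (σ : ℂ →+* ℂ) : ℂ →*₀ ℝ := normHom.comp σ.toMonoidWithZeroHom

lemma av_apply (σ : ℂ →+* ℂ) (z : ℂ) : av σ z = ‖σ z‖ := rfl

section
variable {d : Type} [Fintype d] [DecidableEq d]

lemma toLin_mul {K : Type} [Field K] (A B : Matrix d d K) :
    toLin' (A * B) = toLin' A * toLin' B := toLin'_mul A B

lemma aeval_tr {K : Type} [Field K] (A : Matrix d d K) (f : K[X]) :
    aeval Aᵀ f = (aeval A f)ᵀ := by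
  induction f using Polynomial.induction_on' with
  | add p r hp hr => rw [map_add, map_add, hp, hr, transpose_add]
  | monomial n t =>
    rw [aeval_monomial, aeval_monomial, ← Algebra.smul_def, ← Algebra.smul_def, transpose_smul,
      transpose_pow]

theorem weights_C {q : ℕ} (hq : 1 < q) (w : ℤ) (Φ Φi U : Matrix d d ℂ) (hΦ : Φi * Φ = 1)
    (hU : IsNilpotent (U - 1)) (hrel : U * Φ = Φ * U ^ q)
    (H1 : ∀ σ, Inv2 (av σ) ((q : ℝ) ^ w) Φ U) (H2 : ∀ σ, Inv2 (av σ) ((q : ℝ) ^ w)⁻¹ Φiᵀ Uᵀ) :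
    LP.MwPure q w (toLin' Φ) (toLin' U) := by
  obtain ⟨h, hh⟩ := exists_log (K := ℂ) hq Φ U hU hrel
  have hΦ' : Φ * Φi = 1 := mul_eq_one_comm.1 hΦ
  have hqc : (q : ℂ) ≠ 0 := by exact_mod_cast (by omega : q ≠ 0)
  have hq1 : (1 : ℝ) ≤ q := by exact_mod_cast hq.le
  have hc : (0 : ℝ) < (q : ℝ) ^ w := by positivity
  have hv : ∀ σ, av σ q = q := fun σ => by rw [av_apply, map_natCast, Complex.norm_natCast]
  have hU' : IsNilpotent (Uᵀ - 1) := by
    rw [← transpose_one, ← transpose_sub]; exact isNilpotent_transpose_iff.2 hU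
  have hrel' : Uᵀ * Φiᵀ = Φiᵀ * Uᵀ ^ q := by
    rw [← transpose_pow, ← transpose_mul, ← transpose_mul]
    congr 1
    calc Φi * U = Φi * (U * Φ) * Φi := by rw [mul_assoc, mul_assoc, hΦ', mul_one]
      _ = U ^ q * Φi := by rw [hrel, ← mul_assoc, hΦ, one_mul]
  have e1 : aeval (Uᵀ - 1) (X + X ^ 2 * h) = (aeval (U - 1) (X + X ^ 2 * h))ᵀ := by
    rw [← aeval_tr, transpose_sub, transpose_one]
  have e2 : aeval (toLin' U - 1 : End ℂ (d → ℂ)) (X + X ^ 2 * h) =
      toLin' (aeval (U - 1) (X + X ^ 2 * h)) := by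
    have := aeval_algHom_apply (toLinAlgEquiv' : Matrix d d ℂ ≃ₐ[ℂ] _) (U - 1) (X + X ^ 2 * h)
    rw [map_sub, map_one] at this
    exact this
  have hE := fun σ => bdE (hv σ) hU hrel (H1 σ) h
  have hE' := fun σ => bdE (hv σ) hU' hrel' (H2 σ) h
  rw [e1] at hE'
  generalize aeval (U - 1) (X + X ^ 2 * h) = N at hh hE hE' e2
  have hL : toLin' N * toLin' Φ = (q : ℂ) • (toLin' Φ * toLin' N) := by
    rw [← toLin_mul, ← toLin_mul, hh, map_smul]
  have hL' : toLin' Nᵀ * toLin' Φiᵀ = (q : ℂ) • (toLin' Φiᵀ * toLin' Nᵀ) := by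
    rw [← toLin_mul, ← toLin_mul, ← map_smul, ← transpose_mul, ← transpose_mul, ← transpose_smul]
    congr 2
    calc Φi * N = Φi * (N * Φ) * Φi := by rw [mul_assoc, mul_assoc, hΦ', mul_one]
      _ = _ := by rw [hh, Matrix.mul_smul, Matrix.smul_mul, ← mul_assoc, hΦ, one_mul]
  have hA := fun σ => bdA hL hqc (hv σ) hq1 hc.le (hE σ)
  have hB := fun σ => bdB hc hΦ hh hqc (bdA hL' hqc (hv σ) hq1 (inv_pos.2 hc).le (hE' σ))
  refine grade hq w ?_ h (e2 ▸ hL) (e2 ▸ hA (RingHom.id ℂ)) (e2 ▸ hB (RingHom.id ℂ))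
    fun β hβ => ?_
  · have := hU.map (toLinAlgEquiv' : Matrix d d ℂ ≃ₐ[ℂ] _)
    rwa [map_sub, map_one] at this
  · have hβ0 : β ≠ 0 := by
      rintro rfl
      obtain ⟨x, hx, h0⟩ := Submodule.exists_mem_ne_zero_of_ne_bot hβ
      obtain ⟨k, hk⟩ := (End.mem_maxGenEigenspace _ _ _).1 hx
      obtain ⟨y, -, y0, hy⟩ := eig_gen _ ⊤ (fun _ _ => trivial) _ k x trivial h0 hk
      rw [zero_smul, toLin'_apply] at hy
      exact y0 (by rw [← one_mulVec y, ← hΦ, ← mulVec_mulVec, hy, mulVec_zero])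
    obtain ⟨a, ha⟩ := wt_int hq hL hβ0 hβ
    exact ⟨a, fun σ => ha (av σ) _ (hv σ) (hA σ) (hB σ)⟩

/-! ### unipotence -/

lemma quasi_unip {q : ℕ} (hq : 1 < q) (Φ Φi U Ui : Matrix d d ℂ) (hΦ : Φi * Φ = 1)
    (hU : Ui * U = 1) (hrel : U * Φ = Φ * U ^ q) : ∃ m > 0, IsNilpotent (U ^ m - 1) := by
  have hpow : ∀ (c : ℂ) (x : d → ℂ) (i : ℕ), U *ᵥ x = c • x → U ^ i *ᵥ x = c ^ i • x := by
    intro c x i hA
    induction i with
    | zero => simp
    | succ i ih => rw [pow_succ, ← mulVec_mulVec, hA, mulVec_smul, ih, smul_smul, pow_succ']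
  let E : Set ℂ := {c | ∃ x ≠ 0, U *ᵥ x = c • x}
  have hfin : E.Finite := (WellFoundedGT.finite_ne_bot_of_iSupIndep
    (End.independent_maxGenEigenspace (toLin' U))).subset (by
      rintro c ⟨x, x0, hx⟩ e
      exact x0 ((Submodule.mem_bot ℂ).1 (e ▸ mem_G (T := toLin' U) hx)))
  have hcl : ∀ c ∈ E, ∀ k, c ^ q ^ k ∈ E := by
    intro c hc k
    induction k with
    | zero => simpa using hc
    | succ k ih =>
      obtain ⟨x, x0, hx⟩ := ih
      refine ⟨Φ *ᵥ x, fun e => x0 ?_, ?_⟩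
      · rw [← one_mulVec x, ← hΦ, ← mulVec_mulVec, e, mulVec_zero]
      · rw [mulVec_mulVec, hrel, ← mulVec_mulVec, hpow _ _ q hx, mulVec_smul, ← pow_mul, pow_succ]
  have hord : ∀ c ∈ E, ∃ m > 0, c ^ m = 1 := by
    intro c hc
    have c0 : c ≠ 0 := by
      rintro rfl
      obtain ⟨x, x0, hx⟩ := hc
      exact x0 (by rw [← one_mulVec x, ← hU, ← mulVec_mulVec, hx, zero_smul, mulVec_zero])
    obtain ⟨a, b, hab, e⟩ := hfin.exists_lt_map_eq_of_forall_mem (hcl c hc)
    have hlt : q ^ a < q ^ b := Nat.pow_lt_pow_right hq hab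
    refine ⟨q ^ b - q ^ a, by omega, mul_left_cancel₀ (pow_ne_zero (q ^ a) c0) ?_⟩
    rw [← pow_add, mul_one, Nat.add_sub_cancel' hlt.le]
    exact e.symm
  choose! o o1 o2 using hord
  refine ⟨∏ c ∈ hfin.toFinset, o c, Finset.prod_pos fun c hc => o1 c (hfin.mem_toFinset.1 hc), ?_⟩
  have hm : ∀ c ∈ E, c ^ ∏ c ∈ hfin.toFinset, o c = 1 := fun c hc => by
    obtain ⟨k, hk⟩ := Finset.dvd_prod_of_mem o (hfin.mem_toFinset.2 hc)
    rw [hk, pow_mul, o2 c hc, one_pow]
  generalize ∏ c ∈ hfin.toFinset, o c = m at hm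
  rw [← isNilpotent_toLin'_iff, End.isNilpotent_iff_of_finite]
  intro x
  have h1 : (⨆ μ, End.maxGenEigenspace (toLin' (U ^ m - 1)) μ) ≤
      End.maxGenEigenspace (toLin' (U ^ m - 1)) 0 := iSup_le fun μ y hy => by
    by_cases y0 : y = 0
    · exact y0 ▸ zero_mem _
    obtain ⟨k, hk⟩ := (End.mem_maxGenEigenspace _ _ _).1 hy
    obtain ⟨z, -, z0, hz⟩ := eig_gen _ ⊤ (fun _ _ => trivial) _ k y trivial y0 hk
    obtain ⟨c, t, ht, t0, e⟩ := eig_stable (toLin' U) (End.eigenspace (toLin' (U ^ m - 1)) μ)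
      (fun t ht => by
        rw [End.mem_eigenspace_iff, toLin'_apply] at ht ⊢
        rw [toLin'_apply, mulVec_mulVec, sub_mul, one_mul, ← pow_succ, ← mulVec_smul, ← ht,
          mulVec_mulVec, mul_sub, mul_one, ← pow_succ']) z (End.mem_eigenspace_iff.2 hz) z0
    rw [End.mem_eigenspace_iff, toLin'_apply, sub_mulVec, hpow c t m e, hm c ⟨t, t0, e⟩, one_smul,
      one_mulVec, sub_self] at ht
    rwa [(smul_eq_zero.1 ht.symm).resolve_right t0] at hy
  rw [End.iSup_maxGenEigenspace_eq_top] at h1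
  simpa only [map_sub, toLin'_pow, toLin'_one, zero_smul, sub_zero] using (End.mem_maxGenEigenspace _ _ _).1 (h1 (Submodule.mem_top (x := x)))

/-- Congruence to the identity matrix. -/
def Cg {R : Type} [CommRing R] (c : R) (Y : Matrix d d R) : Prop := ∀ a b, c ∣ (Y - 1) a b

section
variable {R : Type} [CommRing R] {c : R} {Y Z : Matrix d d R}

omit [Fintype d] in
lemma cg_iff : Cg c Y ↔ ∃ B, Y = 1 + c • B := by
  refine ⟨fun h => ?_, ?_⟩
  · choose B hB using h
    exact ⟨of B, by rw [← sub_eq_iff_eq_add']; ext a b; exact hB a b⟩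
  · rintro ⟨B, rfl⟩ a b
    exact ⟨B a b, by simp⟩

lemma Cg.mul (h : Cg c Y) (h' : Cg c Z) : Cg c (Y * Z) := by
  rw [cg_iff] at *
  obtain ⟨B, rfl⟩ := h
  obtain ⟨D, rfl⟩ := h'
  exact ⟨B + D + c • (B * D), by simp only [mul_add, add_mul, one_mul, mul_one, smul_add,
    Matrix.mul_smul, Matrix.smul_mul]; abel⟩

lemma Cg.pow (h : Cg c Y) (n : ℕ) : Cg c (Y ^ n) := by
  induction n with
  | zero => exact fun a b => by simp
  | succ n ih => rw [pow_succ]; exact ih.mul h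

lemma Cg.inv (h : Cg c Y) (e : Z * Y = 1) : Cg c Z := by
  rw [cg_iff] at *
  obtain ⟨B, rfl⟩ := h
  exact ⟨-(Z * B), by rw [← e, mul_add, mul_one, Matrix.mul_smul, smul_neg, add_neg_cancel_right]⟩

lemma Cg.geom (h : Cg c Y) (n : ℕ) : ∃ B, ∑ i ∈ Finset.range n, Y ^ i = (n : R) • 1 + c • B := by
  induction n with
  | zero => exact ⟨0, by simp only [Finset.range_zero, Finset.sum_empty, Nat.cast_zero, zero_smul, smul_zero, add_zero]⟩
  | succ n ih =>
    obtain ⟨B, hB⟩ := ih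
    obtain ⟨D, hD⟩ := cg_iff.1 (h.pow n)
    refine ⟨B + D, ?_⟩
    rw [Finset.sum_range_succ, hB, hD, Nat.cast_succ, add_smul, one_smul, smul_add]
    abel

lemma Cg.lift {l : ℕ} (h : Cg ((l : R) * c) Y) : Cg ((l : R) * ((l : R) * c)) (Y ^ l) := by
  obtain ⟨D, hD⟩ := h.geom l
  obtain ⟨B, hB⟩ := cg_iff.1 h
  refine cg_iff.2 ⟨(1 + c • D) * B, ?_⟩
  rw [← sub_eq_iff_eq_add', ← geom_sum_mul, hD, hB, add_sub_cancel_left, mul_smul (l : R) c D,
    ← smul_add, Matrix.smul_mul, Matrix.mul_smul, smul_smul]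

end

lemma unip_of {l : ℕ} [Fact l.Prime] (m : ℕ) : ∀ Y : Matrix d d ℤ_[l], Cg ((l : ℤ_[l]) ^ 2) Y →
    0 < m → IsNilpotent (Y ^ m - 1) → IsNilpotent (Y - 1) := by
  have hdet : ∀ (n : ℕ) (B : Matrix d d ℤ_[l]), ¬ l ∣ n →
      ((n : ℤ_[l]) • (1 : Matrix d d ℤ_[l]) + (l : ℤ_[l]) • B).det ≠ 0 := by
    intro n B hn e
    have h1 := congrArg PadicInt.toZMod e
    have h2 : (PadicInt.toZMod (p := l)).mapMatrix
        ((n : ℤ_[l]) • (1 : Matrix d d ℤ_[l]) + (l : ℤ_[l]) • B) = (n : ZMod l) • 1 := by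
      ext a b
      by_cases hab : a = b <;> simp [hab]
    rw [RingHom.map_det, h2, map_zero, det_smul, det_one, mul_one] at h1
    exact hn ((ZMod.natCast_eq_zero_iff _ _).1 (pow_eq_zero_iff'.1 h1).1)
  have canc : ∀ (Y : Matrix d d ℤ_[l]) (n : ℕ), (∑ i ∈ Finset.range n, Y ^ i).det ≠ 0 →
      IsNilpotent (Y ^ n - 1) → IsNilpotent (Y - 1) := by
    rintro Y n hd ⟨k, hk⟩
    have hc : Commute (∑ i ∈ Finset.range n, Y ^ i) (Y - 1) := Commute.sum_left _ _ _ fun i _ =>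
      ((Commute.refl Y).sub_right (Commute.one_right Y)).pow_left i
    rw [← geom_sum_mul, hc.mul_pow] at hk
    exact ⟨k, ((isRegular_of_isLeftRegular_det (IsRegular.of_ne_zero hd).left).pow k).left
      (hk.trans (mul_zero _).symm)⟩
  induction m using Nat.strong_induction_on with
  | _ m ih =>
    intro Y hY hm h
    have hl := (Fact.out : l.Prime)
    by_cases hd : l ∣ m
    · obtain ⟨k, rfl⟩ := hd
      have hk : 0 < k := Nat.pos_of_mul_pos_left hm
      rw [pow_mul] at h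
      refine canc Y l ?_ (ih k (lt_mul_left hk hl.one_lt) _ (hY.pow l) hk h)
      obtain ⟨B, hB⟩ := hY.geom l
      rw [hB, pow_two, mul_smul, ← smul_add, det_smul]
      refine mul_ne_zero (pow_ne_zero _ (Nat.cast_ne_zero.2 hl.ne_zero)) ?_
      simpa only [ne_eq, Nat.cast_one, one_smul] using hdet 1 B (by simpa using hl.ne_one)
    · obtain ⟨B, hB⟩ := hY.geom m
      refine canc Y m ?_ h
      rw [hB, pow_two, mul_smul]
      exact hdet m _ hd

/-! ### Kronecker squares and duals -/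

omit [DecidableEq d] in
lemma vec_kron {K : Type} [CommRing K] (A B y : Matrix d d K) :
    (fun p : d × d => y p.1 p.2) ᵥ* (A ⊗ₖ B) = fun p => (Aᵀ * y * B) p.1 p.2 := by
  funext p
  simp only [vecMul, dotProduct, Fintype.sum_prod_type, kroneckerMap_apply, mul_apply,
    transpose_apply, Finset.sum_mul]
  rw [Finset.sum_comm]
  exact Finset.sum_congr rfl fun b _ => Finset.sum_congr rfl fun a _ => by ring

lemma root_iff {A : Matrix d d ℂ} {z : ℂ} : A.charpoly.IsRoot z ↔ ∃ v ≠ 0, v ᵥ* A = z • v := by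
  rw [IsRoot, eval_charpoly, ← exists_vecMul_eq_zero_iff]
  refine exists_congr fun v => and_congr_right fun _ => ?_
  rw [vecMul_sub, sub_eq_zero, eq_comm, scalar_apply, ← smul_one_eq_diagonal, vecMul_smul,
    vecMul_one]

lemma root_of {A y : Matrix d d ℂ} {z : ℂ} (h0 : y ≠ 0) (h : y * A = z • y) :
    A.charpoly.IsRoot z := by
  obtain ⟨i, hi⟩ := Function.ne_iff.1 h0
  exact root_iff.2 ⟨y i, hi, congrFun h i⟩

lemma kron_bound {A : Matrix d d ℂ} {R : ℝ} (hR : 0 ≤ R)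
    (h : ∀ μ, A.charpoly.IsRoot μ → ‖μ‖ ≤ R) (z : ℂ) (hz : (A ⊗ₖ A).charpoly.IsRoot z) :
    ‖z‖ ≤ R ^ 2 := by
  obtain ⟨v, v0, hv⟩ := root_iff.1 hz
  have h1 := vec_kron A A (of fun a b => v (a, b))
  have h2 : Aᵀ * (of fun a b => v (a, b)) * A = z • of fun a b => v (a, b) := by
    ext a b
    exact (congrFun h1 (a, b)).symm.trans (congrFun hv (a, b))
  obtain ⟨c, y, hy, y0, e⟩ := eig_stable (LinearMap.mulRight ℂ A) (End.eigenspace
    (LinearMap.mulRight ℂ A ∘ₗ LinearMap.mulLeft ℂ Aᵀ) z) (fun t ht => by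
      rw [End.mem_eigenspace_iff] at ht ⊢
      change Aᵀ * (t * A) * A = z • (t * A)
      rw [← Matrix.smul_mul, ← ht, ← mul_assoc]
      rfl) _ (End.mem_eigenspace_iff.2 h2)
    fun e => v0 (funext fun p => congrFun (congrFun e p.1) p.2)
  have e' : y * A = c • y := e
  have hy' : Aᵀ * y * A = z • y := End.mem_eigenspace_iff.1 hy
  rw [mul_assoc, e', Matrix.mul_smul] at hy'
  by_cases c0 : c = 0
  · rw [c0, zero_smul] at hy'
    rw [(smul_eq_zero.1 hy'.symm).resolve_right y0, norm_zero]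
    positivity
  have h3 : yᵀ * A = (c⁻¹ * z) • yᵀ := by
    rw [← transpose_transpose A, ← transpose_mul, ← transpose_smul, mul_smul, ← hy', smul_smul,
      inv_mul_cancel₀ c0, one_smul]
  have h4 := h _ (root_of (fun e => y0 (transpose_eq_zero.1 e)) h3)
  calc ‖z‖ = ‖c‖ * ‖c⁻¹ * z‖ := by rw [← norm_mul, mul_inv_cancel_left₀ c0]
    _ ≤ R * R := mul_le_mul (h _ (root_of y0 e')) h4 (norm_nonneg _) hR
    _ = R ^ 2 := (pow_two R).symm

variable {G R : Type} [Group G] [CommRing R]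

/-- The tensor square of a representation. -/
def sqr (ρ : G →* Matrix d d R) : G →* Matrix (d × d) (d × d) R where
  toFun g := ρ g ⊗ₖ ρ g
  map_one' := by rw [map_one, one_kronecker_one]
  map_mul' g h := by rw [map_mul, mul_kronecker_mul]

/-- The dual of a representation. -/
def dual (ρ : G →* Matrix d d R) : G →* Matrix d d R where
  toFun g := (ρ g⁻¹)ᵀ
  map_one' := by rw [inv_one, map_one, transpose_one]
  map_mul' g h := by rw [_root_.mul_inv_rev, map_mul, transpose_mul]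

lemma sqr_cg {ρ : G →* Matrix d d R} {c : R} {g : G} (h : Cg c (ρ g)) : Cg c (sqr ρ g) := by
  obtain ⟨B, hB⟩ := cg_iff.1 h
  refine cg_iff.2 ⟨B ⊗ₖ 1 + 1 ⊗ₖ B + c • (B ⊗ₖ B), ?_⟩
  change ρ g ⊗ₖ ρ g = _
  rw [hB]
  simp only [add_kronecker, kronecker_add, smul_kronecker, kronecker_smul, one_kronecker_one,
    smul_add]
  abel

lemma dual_cg {ρ : G →* Matrix d d R} {c : R} {g : G} (h : Cg c (ρ g)) : Cg c (dual ρ g) := by
  have h1 : Cg c (ρ g⁻¹) := h.inv (by rw [← map_mul, inv_mul_cancel, map_one])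
  intro a b
  have := h1 b a
  change c ∣ ((ρ g⁻¹)ᵀ - 1) a b
  rwa [← transpose_one, ← transpose_sub]

lemma sqr_map (ρ : G →* Matrix d d R) (j : R →+* ℂ) (g : G) :
    (sqr ρ g).map j = (ρ g).map j ⊗ₖ (ρ g).map j := by
  ext a b
  exact map_mul j _ _

end

section
variable {P : Type} [Group P] {A : Fx.Adm P} {l q : ℕ} [Fact l.Prime] {G : Type} [Group G]

/-- The shape of `fox_bound` with the constant `c`. -/
def FB (A : Fx.Adm P) (l : ℕ) [Fact l.Prime] (ι : P →* G) (φ u : G) (Fr : ℕ → G → Prop)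
    (j : ℤ_[l] →+* ℂ) (c : ℝ) : Prop :=
  ∀ (e : Type) [Fintype e] [DecidableEq e] (τ : G →* Matrix e e ℤ_[l]), Fx.Rep A l (τ.comp ι) →
    ∀ R : ℝ, 0 ≤ R → (∀ k g, Fr k g → ∀ μ, ((τ g).map j).charpoly.IsRoot μ → ‖μ‖ ≤ R ^ k) →
      ∀ (lam : e → ℂ) (a : ℂ), lam ≠ 0 → lam ᵥ* (τ u).map j = lam →
        lam ᵥ* (τ φ).map j = a • lam → ‖a‖ ≤ c * R

variable {ι : P →* G} {φ u : G} {Fr : ℕ → G → Prop} {j : ℤ_[l] →+* ℂ}

lemma rep_of {d e : Type} [Fintype d] [DecidableEq d] [Fintype e] [DecidableEq e]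
    {ρ : G →* Matrix d d ℤ_[l]} {τ : G →* Matrix e e ℤ_[l]} (hρ : Fx.Rep A l (ρ.comp ι))
    (h : ∀ c g, Cg c (ρ g) → Cg c (τ g)) : Fx.Rep A l (τ.comp ι) :=
  ⟨fun g => h _ _ (hρ.one g), fun n => (hρ.adm n).imp fun _ hM =>
    ⟨hM.1, fun g hg => h _ _ (hM.2 g hg)⟩⟩

lemma FB.sq {c : ℝ} (H : FB A l ι φ u Fr j c) {e : Type} [Fintype e] [DecidableEq e]
    (τ : G →* Matrix e e ℤ_[l]) (hτ : Fx.Rep A l (τ.comp ι)) {R : ℝ} (hR : 0 ≤ R)
    (hw : ∀ k g, Fr k g → ∀ μ, ((τ g).map j).charpoly.IsRoot μ → ‖μ‖ ≤ R ^ k)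
    (y : Matrix e e ℂ) (a : ℂ) (h0 : y ≠ 0) (h1 : ((τ u).map j)ᵀ * y * (τ u).map j = y)
    (h2 : ((τ φ).map j)ᵀ * y * (τ φ).map j = a • y) : ‖a‖ ≤ c * R ^ 2 :=
  H _ (sqr τ) (rep_of hτ fun _ _ => sqr_cg) (R ^ 2) (by positivity) (fun k g hg μ hμ => by
      rw [sqr_map] at hμ
      rw [← pow_mul, mul_comm, pow_mul]
      exact kron_bound (by positivity) (hw k g hg) μ hμ) (fun p => y p.1 p.2) a
    (fun e => h0 (Matrix.ext fun a b => congrFun e (a, b)))
    (by rw [sqr_map, vec_kron, h1]) (by rw [sqr_map, vec_kron, h2]; rfl)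

lemma FB.sqrt {c : ℝ} (hc : 0 ≤ c) (H : FB A l ι φ u Fr j (c ^ 2)) : FB A l ι φ u Fr j c := by
  intro e _ _ τ hτ R hR hw lam a h0 h1 h2
  have := H.sq τ hτ hR hw (vecMulVec lam lam) (a ^ 2) (vecMulVec_ne_zero h0 h0)
    (by rw [mul_vecMulVec, vecMulVec_mul, mulVec_transpose, h1])
    (by rw [mul_vecMulVec, vecMulVec_mul, mulVec_transpose, h2, smul_vecMulVec, vecMulVec_smul,
      smul_smul, pow_two])
  rw [norm_pow, ← mul_pow] at this
  exact (pow_le_pow_iff_left₀ (norm_nonneg _) (mul_nonneg hc hR) two_ne_zero).1 this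

lemma FB.one {c : ℝ} (hc : 0 < c) (H : FB A l ι φ u Fr j c) : FB A l ι φ u Fr j 1 := by
  have h1 : ∀ n : ℕ, FB A l ι φ u Fr j (c ^ ((1 / 2 : ℝ) ^ n)) := fun n => by
    induction n with
    | zero => simpa using H
    | succ n ih =>
      refine FB.sqrt (by positivity) ?_
      rwa [← Real.rpow_natCast _ 2, ← Real.rpow_mul hc.le, pow_succ, Nat.cast_ofNat, mul_assoc,
        one_div_mul_cancel two_ne_zero, mul_one]
  intro e _ _ τ hτ R hR hw lam a h0 h2 h3
  have h4 : Filter.Tendsto (fun n : ℕ => c ^ ((1 / 2 : ℝ) ^ n) * R) Filter.atTop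
      (nhds (c ^ (0 : ℝ) * R)) :=
    (tendsto_const_nhds.rpow (tendsto_pow_atTop_nhds_zero_of_lt_one (by norm_num) (by norm_num))
      (Or.inl hc.ne')).mul_const R
  rw [Real.rpow_zero] at h4
  exact ge_of_tendsto' h4 fun n => h1 n e τ hτ R hR hw lam a h0 h2 h3

lemma rel_of {α : P →* P} {u : P} (huq : ∀ N, A.Lev l N → α u ^ q * u⁻¹ ∈ N) {d : Type}
    [Fintype d] [DecidableEq d] (σ : P →* Matrix d d ℤ_[l]) (hσ : Fx.Rep A l σ) :
    σ (α u ^ q * u⁻¹) = 1 := by
  have h1 : ∀ n, Cg ((l : ℤ_[l]) ^ n) (σ (α u ^ q * u⁻¹)) := fun n => by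
    let N : Subgroup P :=
      { carrier := {g | Cg ((l : ℤ_[l]) ^ n) (σ g)}
        mul_mem' := fun {a b} ha hb => by
          have := Cg.mul ha hb
          rwa [← map_mul] at this
        one_mem' := fun a b => by simp only [map_one, Matrix.sub_apply, sub_self, dvd_zero]
        inv_mem' := fun {a} ha => Cg.inv ha (by rw [← map_mul, inv_mul_cancel, map_one]) }
    obtain ⟨M, hM, hM'⟩ := hσ.adm n
    refine huq N ⟨⟨fun a ha g => ?_⟩, A.up hM hM', fun g => ⟨n, ?_⟩⟩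
    · obtain ⟨B, hB⟩ := cg_iff.1 ha
      refine cg_iff.2 ⟨σ g * B * σ g⁻¹, ?_⟩
      rw [map_mul, map_mul, hB, mul_add, add_mul, mul_one, ← map_mul, mul_inv_cancel, map_one,
        Matrix.mul_smul, Matrix.smul_mul]
    · have : ∀ k, Cg ((l : ℤ_[l]) * l ^ k) (σ (g ^ l ^ k)) := fun k => by
        induction k with
        | zero => rw [pow_zero, pow_zero, mul_one, pow_one]; exact hσ.one g
        | succ k ih => rw [pow_succ l, pow_mul, map_pow, pow_succ']; exact ih.lift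
      exact fun a b => (Dvd.intro_left _ rfl).trans (this n a b)
  rw [← sub_eq_zero]
  ext a b
  by_contra hne
  obtain ⟨n, hn⟩ := FiniteMultiplicity.of_prime_left (PadicInt.prime_p (p := l)) hne
  exact hn (h1 _ a b)

end

/-- Section V on top of `fox_bound`. `φ` is arithmetic, so `φ⁻¹` is the geometric Frobenius. -/
theorem wm_of_ctx {P : Type} [Group P] {A : Fx.Adm P} {l q : ℕ} [Fact l.Prime] {α : P →* P}
    {u : P} {U : ℕ → Type} [∀ k, Fintype (U k)] {f : ∀ k, U k → P}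
    (H : Fx.Ctx A l q α u U f) (hq : 1 < q) {G : Type} [Group G] (ι : P →* G) (φ : G)
    (hα : ∀ g, φ * ι (α g) = ι g * φ) {d : Type} [Fintype d] [DecidableEq d]
    (ρ : G →* Matrix d d ℤ_[l]) (hρ : Fx.Rep A l (ρ.comp ι)) (C : ℝ)
    (hC : ∀ k, 0 < k → (Fintype.card (U k) : ℝ) ≤ C * q ^ k) (hne : ∃ k, 0 < k ∧ Nonempty (U k))
    (hu : ∀ a b, (l : ℤ_[l]) ^ 2 ∣ (ρ (ι u) - 1) a b) (w : ℤ)
    (hp : ∀ k, 0 < k → ∀ x : U k, ∃ Q : ℚ[X],
      (∀ z : ℂ, aeval z Q = 0 → ‖z‖ ^ 2 = ((q ^ k : ℕ) : ℝ) ^ w) ∧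
      aeval (toLin' ((ρ (φ ^ k * ι (f k x))⁻¹).map (algebraMap ℤ_[l] ℚ_[l])))
        (Q.map (algebraMap ℚ ℚ_[l])) = 0) :
    LP.MwPure q w (toLin' ((ρ φ⁻¹).map (algebraMap ℤ_[l] ℚ_[l])))
      (toLin' ((ρ (ι u)).map (algebraMap ℤ_[l] ℚ_[l]))) := by
  obtain ⟨j0⟩ := exists_emb l
  refine descend j0 hq w _ _ ?_
  have hq0 : (0 : ℝ) < q := by exact_mod_cast (by omega : 0 < q)
  have hone : ∀ g, ρ g⁻¹ * ρ g = 1 := fun g => by rw [← map_mul, inv_mul_cancel, map_one]
  have hrel : ρ (ι u) * ρ φ⁻¹ = ρ φ⁻¹ * ρ (ι u) ^ q := by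
    have h1 := rel_of H.huq _ hρ
    have h2 : ι (α u) = φ⁻¹ * ι u * φ := by rw [mul_assoc, ← hα, inv_mul_cancel_left]
    have h3 : φ⁻¹ * ι u ^ q = ι (α u ^ q * u⁻¹) * (ι u * φ⁻¹) := by
      rw [map_mul, map_pow, h2, map_inv]
      have := conj_pow (a := φ⁻¹) (b := ι u) (i := q)
      rw [inv_inv] at this
      rw [this]; group
    have h4 : ρ (ι (α u ^ q * u⁻¹)) = 1 := h1
    rw [← map_pow, ← map_mul ρ φ⁻¹, h3, map_mul ρ (ι (α u ^ q * u⁻¹)), h4, one_mul, map_mul]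
  let J : (ℚ_[l] →+* ℂ) → (ℤ_[l] →+* ℂ) := fun j => j.comp (algebraMap ℤ_[l] ℚ_[l])
  have hJ : ∀ (j : ℚ_[l] →+* ℂ) (B : Matrix d d ℤ_[l]),
      (B.map (algebraMap ℤ_[l] ℚ_[l])).map j = B.map (J j) := fun _ _ => rfl
  have hone' : ∀ j g, (ρ g⁻¹).map (J j) * (ρ g).map (J j) = 1 := fun j g => by
    rw [← Matrix.map_mul, hone, Matrix.map_one _ (map_zero _) (map_one _)]
  have hrel' : (ρ (ι u)).map (J j0) * (ρ φ⁻¹).map (J j0) =
      (ρ φ⁻¹).map (J j0) * (ρ (ι u)).map (J j0) ^ q := by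
    rw [← Matrix.map_pow, ← Matrix.map_mul, ← Matrix.map_mul, hrel]
  have hΦ : (ρ φ).map (J j0) * (ρ φ⁻¹).map (J j0) = 1 := mul_eq_one_comm.1 (hone' j0 φ)
  have hU : IsNilpotent ((ρ (ι u)).map (J j0) - 1) := by
    obtain ⟨m, hm, k, hk⟩ := quasi_unip hq _ _ _ _ hΦ (hone' j0 (ι u)) hrel'
    have hi : Function.Injective ((J j0).mapMatrix (m := d)) := Matrix.map_injective
      (j0.injective.comp (IsFractionRing.injective ℤ_[l] ℚ_[l]))
    have := (unip_of m _ hu hm ⟨k, hi (by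
      rw [map_pow, map_sub, map_pow, map_one, map_zero]; exact hk)⟩).map (J j0).mapMatrix
    rwa [map_sub, map_one] at this
  let Fr : ℕ → G → Prop := fun k g => 0 < k ∧ ∃ x, g = φ ^ k * ι (f k x)
  have hFB : ∀ j, FB A l ι φ (ι u) Fr j 1 := fun j => FB.one hq0
    fun e _ _ τ hτ R hR hw lam a h0 h1 h2 => Fx.fox_bound H (by omega) ι φ hα τ hτ j R C hR hC hne
      (fun k hk x => hw k _ ⟨hk, x, rfl⟩) lam h0 a h1 h2
  obtain ⟨R, hR0, hR⟩ : ∃ R : ℝ, 0 < R ∧ R ^ 2 = (q : ℝ) ^ w :=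
    ⟨√((q : ℝ) ^ w), by positivity, Real.sq_sqrt (by positivity)⟩
  have hpure : ∀ j k g, Fr k g → ∀ μ, ((ρ g⁻¹).map (J j)).charpoly.IsRoot μ → ‖μ‖ = R ^ k := by
    rintro j k _ ⟨hk, x, rfl⟩ μ hμ
    obtain ⟨Q, q1, q2⟩ := hp k hk x
    obtain ⟨B, b1, b2⟩ := map_aeval j ((ρ (φ ^ k * ι (f k x))⁻¹).map (algebraMap ℤ_[l] ℚ_[l])) Q
    rw [q2, eq_comm, map_eq_zero_iff _ toLin'.injective] at b1
    rw [b1, Matrix.map_zero _ (map_zero j), map_zero, hJ] at b2
    rw [← charpoly_toLin', ← End.hasEigenvalue_iff_isRoot_charpoly] at hμ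
    obtain ⟨v, hv⟩ := hμ.exists_hasEigenvector
    have h1 := End.aeval_apply_of_hasEigenvector (p := Q.map (algebraMap ℚ ℂ)) hv
    rw [b2, eval_map_algebraMap] at h1
    have h2 := q1 μ ((smul_eq_zero.1 h1.symm).resolve_right hv.2)
    rw [Nat.cast_pow, ← zpow_natCast (q : ℝ), ← _root_.zpow_mul, mul_comm, _root_.zpow_mul, ← hR,
      zpow_natCast, ← pow_mul, mul_comm, pow_mul] at h2
    exact (pow_left_inj₀ (norm_nonneg _) (by positivity) two_ne_zero).1 h2
  have hmap : ∀ (σ : ℂ →+* ℂ) (B : Matrix d d ℤ_[l]) (y : Matrix d d ℂ) (a : ℂ),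
      B.map (J j0) * y * (B.map (J j0))ᵀ = a • y →
      B.map (J (σ.comp j0)) * y.map σ * (B.map (J (σ.comp j0)))ᵀ = σ a • y.map σ := by
    intro σ B y a h
    have := congrArg (fun T => T.map σ) h
    simp only [Matrix.map_mul] at this
    exact this.trans (Matrix.ext fun _ _ => map_mul σ _ _)
  have hy0 : ∀ (σ : ℂ →+* ℂ) (y : Matrix d d ℂ), y ≠ 0 → y.map σ ≠ 0 := fun σ y h e =>
    h (Matrix.map_injective σ.injective (e.trans (Matrix.map_zero _ (map_zero σ)).symm))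
  refine weights_C hq w _ _ _ hΦ hU hrel' (fun σ y a y0 y1 y2 => ?_) fun σ y a y0 y1 y2 => ?_
  · have h1 := hmap σ _ y 1 (y1.trans (one_smul _ _).symm)
    rw [map_one, one_smul] at h1
    have := (hFB (J (σ.comp j0))).sq (dual ρ) (rep_of hρ fun _ _ => dual_cg) hR0.le
      (fun k g hg μ hμ => (hpure (σ.comp j0) k g hg μ (by
        rw [← charpoly_transpose]; exact hμ)).le)
      (y.map σ) (σ a) (hy0 σ y y0) (by
        change (ρ (ι u)⁻¹).map (J (σ.comp j0)) * y.map σ * ((ρ (ι u)⁻¹).map (J (σ.comp j0)))ᵀ = _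
        conv_lhs => rw [← h1, ← mul_assoc, ← mul_assoc, hone', one_mul, mul_assoc,
          ← transpose_mul, hone', transpose_one, mul_one]) (hmap σ _ y a y2)
    rwa [one_mul, hR] at this
  · have h1 := hmap σ (ρ (ι u))ᵀ y 1 (y1.trans (one_smul _ _).symm)
    rw [map_one, one_smul] at h1
    have := (hFB (J (σ.comp j0))).sq ρ hρ (inv_pos.2 hR0).le (fun k g hg μ hμ => by
      obtain ⟨v, v0, hv⟩ := root_iff.1 hμ
      have e : μ • (v ᵥ* (ρ g⁻¹).map (J (σ.comp j0))) = v := by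
        rw [← smul_vecMul, ← hv, vecMul_vecMul, mul_eq_one_comm.1 (hone' _ g), vecMul_one]
      have μ0 : μ ≠ 0 := fun e' => v0 (by rw [← e, e', zero_smul])
      have := hpure _ k g hg μ⁻¹ (root_iff.2 ⟨v, v0, (eq_inv_smul_iff₀ μ0).2 e⟩)
      rw [inv_pow, ← this, norm_inv, inv_inv])
      (y.map σ) (σ a) (hy0 σ y y0) h1 (hmap σ (ρ φ)ᵀ y a y2)
    rwa [one_mul, inv_pow, hR] at this

end Pool.Agent.MP_855f4c_ag.Wt

end
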