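import Pool.Agent.MP_855f4c_ag.LP.Alg
import Pool.Agent.MP_855f4c_ag.WD.F
import Pool.Agent.MP_855f4c_ag.LP.Lisse
import Pool.Agent.MP_855f4c_ag.LP.Transfer
import Pool.Agent.MP_855f4c_ag.WD.A

section

attribute [-instance] IsLocalRing.ResidueField.algebraOfIsIntegral
  IsPrincipalIdealRing.of_isNoetherianRing_of_isBezout
  FunctionField.instFiniteDimensionalSubtypeMemIntermediateFieldOfIsAlgebraic NormedAlgebra.toAlgebra
  Valuation.IsRankOneDiscrete.mk' IsSepClosure.isGalois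
  ContinuousMonoidHom.instCoeOutOfMonoidHomClassOfContinuousMapClass littleWedderburn
  SetLike.GradeZero.instCommSemiring Module.free_of_finite_type_torsion_free' IdemSemiring.toSemiring
  instNontrivialOfCharZero Module.Flat.of_projective MonTypeEquivalenceMon.monMonoid
  Algebra.WeaklyEtale.flat Module.IsReflexive.to_isTorsionFree LieRinehartAlgebra.toIsScalarTower
  SetLike.GradeZero.instSemiring instCoeTCOfCoe ContinuousSemilinearMapClass.toSemilinearMapClass
  NormedSpace.toModule RKHS.instFunLike IsPurelyInseparable.normal CoalgHomClass.toSemilinearMapClass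
  IsDedekindDomain.isPrincipalIdealRing instNonUnitalAlgHomClassOfNonUnitalAlgEquivClass
  Module.Flat.of_free instIsPrincipalIdealRingOfIsSemisimpleRing FloorSemiring.instCharZero
  RightPreLieAlgebra.toModule SemilinearMapClass.distribMulActionSemiHomClass
  SetLike.GradeZero.instRing normalClosure.algebra Module.Free.instFaithfulSMulOfNontrivial
  SetLike.GradeZero.instAlgebraSubtypeMemOfNat GrpTypeEquivalenceGrp.grpGroup

namespace Pool.Agent.MP_855f4c_ag.H7

open Polynomial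

/-- EXT: valuation subrings extend. -/
lemma val_ext {E F : Type} [Field E] [Field F] [Algebra E F] (x : ValuationSubring E) :
    ∃ V : ValuationSubring F, ∀ f : E, algebraMap E F f ∈ V ↔ f ∈ x := by
  obtain ⟨V, h, hl⟩ := IsLocalRing.exists_factor_valuationRing ((algebraMap E F).comp x.subtype)
  refine ⟨V, fun f => ⟨fun hf => ?_, fun hf => h ⟨f, hf⟩⟩⟩
  by_contra hx
  have h0 : f ≠ 0 := fun e => hx (e ▸ x.zero_mem)
  have h1 : f⁻¹ ∈ x := (x.mem_or_inv_mem f).resolve_left hx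
  have h2 : IsUnit (((algebraMap E F).comp x.subtype).codRestrict V.toSubring h ⟨f⁻¹, h1⟩) :=
    IsUnit.of_mul_eq_one ⟨algebraMap E F f, hf⟩ (Subtype.ext (by
      change algebraMap E F f⁻¹ * algebraMap E F f = 1
      rw [← map_mul, inv_mul_cancel₀ h0, map_one]))
  obtain ⟨w, hw⟩ := (hl.map_nonunit _ h2).exists_right_inv
  have h3 : f⁻¹ * (w : E) = 1 := congrArg Subtype.val hw
  have h4 : (w : E) = f := by field_simp at h3; exact h3
  exact hx (h4 ▸ w.2)

lemma val_int {O Ω : Type} [CommRing O] [Field Ω] [Algebra O Ω] (V : ValuationSubring Ω)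
    (hO : ∀ o, algebraMap O Ω o ∈ V) {z : Ω} (hz : IsIntegral O z) : z ∈ V := by
  let _ : Algebra O V := ((algebraMap O Ω).codRestrict V.toSubring hO).toAlgebra
  have : IsScalarTower O V Ω := IsScalarTower.of_algebraMap_eq fun _ => rfl
  obtain ⟨y, hy⟩ := IsIntegrallyClosed.isIntegral_iff.1 (hz.tower_top (A := V))
  exact hy ▸ y.2

section

variable {Ω : Type} [Field Ω] {V : ValuationSubring Ω} {a b : Ω}

lemma nu_add (ha : a ∈ V.nonunits) (hb : b ∈ V.nonunits) : a + b ∈ V.nonunits := by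
  rw [V.mem_nonunits_iff] at *
  exact V.valuation.map_add_lt ha hb

lemma nu_sub (ha : a ∈ V.nonunits) (hb : b ∈ V.nonunits) : a - b ∈ V.nonunits := by
  rw [V.mem_nonunits_iff] at *
  exact V.valuation.map_sub_lt ha hb

lemma nu_mul (ha : a ∈ V.nonunits) (hb : b ∈ V) : a * b ∈ V.nonunits := by
  rw [V.mem_nonunits_iff] at *
  rw [map_mul]
  exact mul_lt_one_of_lt_of_le ha ((V.valuation_le_one_iff b).2 hb)

lemma nu_zero : (0 : Ω) ∈ V.nonunits := V.mem_nonunits_iff_or.2 (Or.inl rfl)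

lemma nu_one : (1 : Ω) ∉ V.nonunits := by simp [V.mem_nonunits_iff]

lemma nu_inv (ha : a ∉ V.nonunits) : a ≠ 0 ∧ a⁻¹ ∈ V := by
  rw [V.mem_nonunits_iff_or] at ha
  push Not at ha
  exact ha

lemma nu_not (h0 : a ≠ 0) (ha : a⁻¹ ∈ V) : a ∉ V.nonunits := by
  rw [V.mem_nonunits_iff_or]
  push Not
  exact ⟨h0, ha⟩

lemma nu_prime (ha : a ∉ V.nonunits) (hb : b ∉ V.nonunits) : a * b ∉ V.nonunits :=
  nu_not (mul_ne_zero (nu_inv ha).1 (nu_inv hb).1)
    (by rw [mul_inv]; exact V.mul_mem _ _ (nu_inv ha).2 (nu_inv hb).2)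

lemma nu_pow {n : ℕ} (ha : a ^ n ∈ V.nonunits) : a ∈ V.nonunits := by
  by_contra h
  induction n with
  | zero => exact nu_one (by simpa using ha)
  | succ n ih => exact nu_prime (fun h' => ih h') h (pow_succ a n ▸ ha)

lemma nu_map {E : Type} [Field E] {x : ValuationSubring E} (g : E →+* Ω)
    (h : ∀ f, g f ∈ V ↔ f ∈ x) (f : E) : g f ∈ V.nonunits ↔ f ∈ x.nonunits := by
  rw [V.mem_nonunits_iff_or, x.mem_nonunits_iff_or, ← map_inv₀, h, map_eq_zero]

end

lemma val_uu {Ω : Type} [Field Ω] (C : Subring Ω) (hC : ∀ z, IsIntegral C z → z ∈ C)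
    (V : ValuationSubring Ω) (z : Ω) (n : ℕ) : ∀ f : C[X], f.natDegree ≤ n → aeval z f = 0 →
      (∃ i, (f.coeff i : Ω) ∉ V.nonunits) →
      ∃ c ∈ C, ∃ d ∈ C, d ∉ V.nonunits ∧ (z * d = c ∨ d = c * z) := by
  induction n with
  | zero =>
    rintro f hf h0 ⟨i, hi⟩
    rw [eq_C_of_natDegree_le_zero hf] at h0 hi
    have h1 : f.coeff 0 = 0 := by simpa using h0
    rw [h1] at hi
    simp at hi
  | succ n ih =>
    rintro f hf h0 ⟨i, hi⟩
    rcases hf.eq_or_lt with e | e
    swap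
    · exact ih f (by omega) h0 ⟨i, hi⟩
    have ha : f.leadingCoeff = f.coeff (n + 1) := by rw [← e]; rfl
    have hb : (f.coeff (n + 1) : Ω) * z ∈ C := hC _ (ha ▸ isIntegral_leadingCoeff_smul f z h0)
    by_cases h1 : (f.coeff (n + 1) : Ω) ∈ V.nonunits
    swap
    · exact ⟨_, hb, _, (f.coeff (n + 1)).2, h1, Or.inl (mul_comm _ _)⟩
    by_cases h2 : (f.coeff (n + 1) : Ω) * z ∈ V.nonunits
    swap
    · exact ⟨_, (f.coeff (n + 1)).2, _, hb, h2, Or.inr rfl⟩
    refine ih (f - monomial (n + 1) (f.coeff (n + 1)) + monomial n ⟨_, hb⟩) ?_ ?_ ⟨i, ?_⟩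
    · rw [natDegree_le_iff_coeff_eq_zero]
      intro N hN
      rw [coeff_add, coeff_sub, coeff_monomial, coeff_monomial, if_neg (by omega : ¬ n = N)]
      split_ifs with h
      · rw [h]; simp
      · rw [coeff_eq_zero_of_natDegree_lt (by omega)]; simp
    · rw [map_add, map_sub, h0, aeval_monomial, aeval_monomial]
      change 0 - (f.coeff (n + 1) : Ω) * z ^ (n + 1) + (f.coeff (n + 1) : Ω) * z * z ^ n = 0
      ring
    · have h3 : ¬ n + 1 = i := fun e => hi (e ▸ h1)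
      rw [coeff_add, coeff_sub, coeff_monomial, coeff_monomial, if_neg h3, sub_zero]
      split_ifs with h
      · intro h4
        have := nu_sub h4 h2
        exact hi (by simpa using this)
      · simpa using hi

lemma val_prim {O Ω : Type} [CommRing O] [IsDomain O] [IsBezout O] [Field Ω] [Algebra O Ω]
    (hinj : Function.Injective (algebraMap O Ω)) {z : Ω} (hz : IsAlgebraic O z) (P : Ideal O)
    (hP : P ≠ ⊤) : ∃ f : O[X], aeval z f = 0 ∧ ∃ i, f.coeff i ∉ P := by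
  obtain ⟨f, f0, hf⟩ := hz
  obtain ⟨d, hd⟩ := IsBezout.isPrincipal_of_FG (Ideal.span (f.coeffs : Set O)) ⟨f.coeffs, rfl⟩
  have h1 : ∀ i, d ∣ f.coeff i := fun i => by
    by_cases h : f.coeff i = 0
    · rw [h]; exact dvd_zero d
    · have : f.coeff i ∈ Ideal.span (f.coeffs : Set O) := Ideal.subset_span (coeff_mem_coeffs h)
      rw [hd] at this
      exact Ideal.mem_span_singleton.1 this
  obtain ⟨g, hg⟩ := (C_dvd_iff_dvd_coeff d f).2 h1
  have d0 : d ≠ 0 := fun e => f0 (by rw [hg, e]; simp)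
  refine ⟨g, ?_, ?_⟩
  · rw [hg, map_mul, aeval_C] at hf
    exact (mul_eq_zero.1 hf).resolve_left fun e => d0 (hinj (e.trans (map_zero _).symm))
  · by_contra h
    push Not at h
    have h2 : Ideal.span (f.coeffs : Set O) ≤ Ideal.span {d} * P := by
      rw [Ideal.span_le]
      intro c hc
      obtain ⟨i, -, rfl⟩ := mem_coeffs_iff.1 hc
      rw [hg, coeff_C_mul]
      exact Ideal.mul_mem_mul (Ideal.mem_span_singleton_self d) (h i)
    have h3 : d ∈ Ideal.span (f.coeffs : Set O) := by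
      rw [hd]; exact Ideal.mem_span_singleton_self d
    obtain ⟨y, hy, e⟩ := Ideal.mem_span_singleton_mul.1 (h2 h3)
    have : y = 1 := mul_left_cancel₀ d0 (e.trans (mul_one d).symm)
    exact hP ((Ideal.eq_top_iff_one P).2 (this ▸ hy))

/-- The centre of a valuation subring. -/
def cen {O Ω : Type} [CommRing O] [Field Ω] (g : O →+* Ω) (V : ValuationSubring Ω)
    (hO : ∀ o, g o ∈ V) : Ideal O where
  carrier := {o | g o ∈ V.nonunits}
  add_mem' ha hb := by
    simp only [Set.mem_ofPred_eq, map_add] at *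
    exact nu_add ha hb
  zero_mem' := by
    simp only [Set.mem_ofPred_eq, map_zero]
    exact nu_zero
  smul_mem' c a ha := by
    simp only [Set.mem_ofPred_eq, smul_eq_mul, map_mul] at *
    rw [mul_comm]
    exact nu_mul ha (hO c)

lemma cen_prime {O Ω : Type} [CommRing O] [Field Ω] (g : O →+* Ω) (V : ValuationSubring Ω)
    (hO : ∀ o, g o ∈ V) : (cen g V hO).IsPrime := by
  refine ⟨fun h => ?_, fun {a b} h => ?_⟩
  · have : g 1 ∈ V.nonunits := (Ideal.eq_top_iff_one _).1 h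
    exact nu_one (map_one g ▸ this)
  · by_contra h'
    push Not at h'
    exact nu_prime h'.1 h'.2 (map_mul g a b ▸ h)

/-- A valuation subring over a Bezout domain is determined by its centre on the integral
closure. -/
lemma val_eq {O Ω : Type} [CommRing O] [IsDomain O] [IsBezout O] [Field Ω] [Algebra O Ω]
    [Algebra.IsAlgebraic O Ω] (hinj : Function.Injective (algebraMap O Ω))
    (V V' : ValuationSubring Ω) (hO : ∀ o, algebraMap O Ω o ∈ V) (hO' : ∀ o, algebraMap O Ω o ∈ V')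
    (hm : ∀ c, IsIntegral O c → (c ∈ V.nonunits ↔ c ∈ V'.nonunits)) : V = V' := by
  have key : ∀ V V' : ValuationSubring Ω, (∀ o, algebraMap O Ω o ∈ V) →
      (∀ o, algebraMap O Ω o ∈ V') → (∀ c, IsIntegral O c → (c ∈ V.nonunits ↔ c ∈ V'.nonunits)) →
      ∀ z ∈ V, z ∈ V' := by
    intro V V' hO hO' hm z hz
    obtain ⟨f, h0, i, hi⟩ := val_prim hinj (Algebra.IsAlgebraic.isAlgebraic (R := O) z) _
      (cen_prime _ V hO).ne_top
    obtain ⟨c, hc, d, hd, h1, h2⟩ := val_uu (integralClosure O Ω).toSubring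
      (fun w hw => isIntegral_trans (A := integralClosure O Ω) w hw) V z _
      (f.map (algebraMap O (integralClosure O Ω))) le_rfl
      ((aeval_map_algebraMap (integralClosure O Ω) z f).trans h0) ⟨i, by rw [coeff_map]; exact hi⟩
    have h3 := nu_inv (mt (hm d hd).2 h1)
    rcases h2 with h2 | h2
    · have : z = c * d⁻¹ := by rw [← h2, mul_inv_cancel_right₀ h3.1]
      exact this ▸ V'.mul_mem _ _ (val_int V' hO' hc) h3.2
    · have h4 : c ∉ V.nonunits := fun h => h1 (h2 ▸ nu_mul h hz)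
      have h5 := nu_inv (mt (hm c hc).2 h4)
      have : z = c⁻¹ * d := by rw [h2, inv_mul_cancel_left₀ h5.1]
      exact this ▸ V'.mul_mem _ _ h5.2 (val_int V' hO' hd)
  exact ValuationSubring.ext _ _ fun z =>
    ⟨key V V' hO hO' hm z, key V' V hO' hO (fun c hc => (hm c hc).symm) z⟩

lemma val_aut {Λ Ω : Type} [CommRing Λ] [IsDomain Λ] [Field Ω] [Algebra Λ Ω]
    [Algebra.IsAlgebraic Λ Ω] (hinj : Function.Injective (algebraMap Λ Ω))
    (γ : integralClosure Λ Ω →ₐ[Λ] integralClosure Λ Ω) :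
    ∃ g : Ω ≃ₐ[Λ] Ω, ∀ c : integralClosure Λ Ω, g c = γ c := by
  have := integralClosure.isFractionRing_of_algebraic (A := Λ) (L := Ω)
    fun x hx => hinj (hx.trans (map_zero _).symm)
  have hγ : Function.Injective ((integralClosure Λ Ω).val.comp γ) := by
    rw [injective_iff_map_eq_zero]
    intro c hc
    have h0 : RingHom.ker ((integralClosure Λ Ω).val.comp γ) = ⊥ :=
      Ideal.eq_bot_of_comap_eq_bot (R := Λ) (eq_bot_iff.2 fun x hx => hinj (by
        rw [map_zero]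
        exact (((integralClosure Λ Ω).val.comp γ).commutes x).symm.trans hx))
    exact h0.le hc
  have : Module.IsTorsionFree Λ Ω := Module.isTorsionFree_iff_algebraMap_injective.2 hinj
  let y : Ω →ₐ[Λ] Ω := IsFractionRing.liftAlgHom hγ
  exact ⟨AlgEquiv.ofBijective y (Algebra.IsAlgebraic.algHom_bijective y),
    fun c => IsFractionRing.lift_algebraMap hγ c⟩

/-- Monic polynomials split in an integrally closed subring of an algebraically closed field. -/
lemma val_splits {C Ω : Type} [CommRing C] [Field Ω] [IsAlgClosed Ω] [Algebra C Ω]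
    (hinj : Function.Injective (algebraMap C Ω))
    (hC : ∀ z : Ω, IsIntegral C z → ∃ c, algebraMap C Ω c = z) (q : C[X]) (hq : q.Monic) :
    q.Splits := by
  have := hinj.isDomain (algebraMap C Ω)
  exact Splits.of_splits_map_of_injective (i := algebraMap C Ω) hinj (IsAlgClosed.splits _)
    fun z hz => hC z ⟨q, hq, by rw [← eval_map]; exact (mem_roots'.1 hz).2⟩

lemma val_conj' {O Ω : Type} [CommRing O] [IsDomain O] [IsBezout O] [Field Ω] [IsAlgClosed Ω]
    [Algebra O Ω] [Algebra.IsAlgebraic O Ω] (hinj : Function.Injective (algebraMap O Ω))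
    (V V' : ValuationSubring Ω) (hO : ∀ o, algebraMap O Ω o ∈ V) (hO' : ∀ o, algebraMap O Ω o ∈ V')
    (hm : ∀ o, algebraMap O Ω o ∈ V.nonunits ↔ algebraMap O Ω o ∈ V'.nonunits) :
    ∃ g : Ω ≃ₐ[O] Ω, ∀ z, g z ∈ V ↔ z ∈ V' := by
  let C := integralClosure O Ω
  have hV : ∀ c : C, C.val.toRingHom c ∈ V := fun c => val_int V hO c.2
  have hV' : ∀ c : C, C.val.toRingHom c ∈ V' := fun c => val_int V' hO' c.2
  let κ := AlgebraicClosure (IsLocalRing.ResidueField V)
  let a : C →+* κ := ((algebraMap _ κ).comp (IsLocalRing.residue V)).comp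
    (C.val.toRingHom.codRestrict V.toSubring hV)
  have ha : ∀ c : C, a c = 0 ↔ (c : Ω) ∈ V.nonunits := fun c => by
    change algebraMap _ κ (IsLocalRing.residue V ⟨c, hV c⟩) = 0 ↔ _
    rw [map_eq_zero, IsLocalRing.residue_eq_zero_iff, ← V.coe_mem_nonunits_iff]
  let Q := cen _ V' hV'
  have hQ : Q.IsPrime := cen_prime _ V' hV'
  obtain ⟨y, hy⟩ := LP.ext_int (algebraMap O (C ⧸ Q))
    (Algebra.IsIntegral.isIntegral (R := O) (A := C ⧸ Q)) (a.comp (algebraMap O C)) fun o ho =>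
      (ha _).2 ((hm o).2 (Ideal.Quotient.eq_zero_iff_mem.1 ho))
  let b : C →+* κ := y.comp (Ideal.Quotient.mk Q)
  have hb : ∀ c : C, b c = 0 ↔ (c : Ω) ∈ V'.nonunits := fun c => by
    have h1 : Q ≤ RingHom.ker b := fun c hc => by
      change y (Ideal.Quotient.mk Q c) = 0
      rw [Ideal.Quotient.eq_zero_iff_mem.2 hc, map_zero]
    refine ⟨fun h => ?_, fun h => h1 h⟩
    by_contra h2
    have h3 : Q < RingHom.ker b := lt_of_le_of_ne h1 fun e => h2 (show c ∈ Q from e ▸ h)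
    obtain ⟨o, h4, h5⟩ := SetLike.exists_of_lt (Ideal.IsIntegral.comap_lt_comap (R := O) h3)
    exact h5 ((hm o).1 ((ha _).1 ((hy o).symm.trans h4)))
  have : Module.Flat O C := by
    rw [Module.Flat.flat_iff_torsion_eq_bot_of_isBezout, eq_bot_iff]
    rintro c ⟨⟨o, ho⟩, e⟩
    have e1 : algebraMap O Ω o * c = 0 := by
      rw [← Algebra.smul_def]; exact congrArg Subtype.val e
    exact Subtype.ext ((mul_eq_zero.1 e1).resolve_left fun e2 =>
      nonZeroDivisors.ne_zero ho (hinj (e2.trans (map_zero _).symm)))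
  obtain ⟨s, hs⟩ := LP.sec (A := O) (val_splits (C := C) Subtype.val_injective
    fun z hz => ⟨⟨z, isIntegral_trans (A := C) z hz⟩, rfl⟩) a b hy
  obtain ⟨g, hg⟩ := val_aut hinj s
  have e : V.comap (g : Ω →+* Ω) = V' := val_eq hinj _ _
    (fun o => by change g _ ∈ V; rw [g.commutes]; exact hO o) hO' fun c hc => by
      rw [← nu_map (V := V) (g : Ω →+* Ω) (fun _ => Iff.rfl), ← hb ⟨c, hc⟩, ← hs, ha, ← hg]
      rfl
  exact ⟨g, fun z => e ▸ Iff.rfl⟩

/-- CONJ: valuation subrings with the same trace are conjugate. -/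
lemma val_conj {E F : Type} [Field E] [Field F] [Algebra E F] [IsAlgClosed F]
    [Algebra.IsAlgebraic E F] (V V' : ValuationSubring F)
    (h : ∀ f : E, algebraMap E F f ∈ V ↔ algebraMap E F f ∈ V') :
    ∃ g : F ≃ₐ[E] F, ∀ z, g z ∈ V ↔ z ∈ V' := by
  let O := V.comap (algebraMap E F)
  let _ : Algebra O F := ((algebraMap E F).comp O.subtype).toAlgebra
  have : IsScalarTower O E F := IsScalarTower.of_algebraMap_eq fun _ => rfl
  have : Algebra.IsAlgebraic O F := (IsFractionRing.comap_isAlgebraic_iff (K := E)).2 ‹_›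
  obtain ⟨g, hg⟩ := val_conj' (O := O) ((algebraMap E F).injective.comp Subtype.val_injective) V V'
    (fun o => o.2) (fun o => (h _).1 o.2) fun o =>
      (nu_map (x := O) (algebraMap E F) (fun _ => Iff.rfl) o).trans
        (nu_map (x := O) (algebraMap E F) (fun f => (h f).symm) o).symm
  refine ⟨{ g.toRingEquiv with commutes' := fun f => ?_ }, hg⟩
  rcases O.mem_or_inv_mem f with hf | hf
  · exact g.commutes ⟨f, hf⟩
  · have h1 : g (algebraMap E F f⁻¹) = algebraMap E F f⁻¹ := g.commutes ⟨f⁻¹, hf⟩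
    rw [map_inv₀, map_inv₀] at h1
    exact inv_injective h1

open IntermediateField in
/-- LEVEL: an open normal subgroup is the group of a finite Galois extension. -/
lemma level {E F : Type} [Field E] [Field F] [Algebra E F] [IsAlgClosed F]
    [Algebra.IsAlgebraic E F] (N : Subgroup (F ≃ₐ[E] F)) [hN : N.Normal] (S : Finset F)
    (hS : ∀ g : F ≃ₐ[E] F, (∀ z ∈ S, g z = z) → g ∈ N) :
    ∃ L : IntermediateField E F, FiniteDimensional E L ∧ IsGalois E L ∧
      ∀ g : F ≃ₐ[E] F, g ∈ N ↔ ∀ z ∈ L, g z = z := by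
  classical
  have : IsAlgClosure E F := ⟨‹_›, ‹_›⟩
  obtain ⟨q, hq⟩ := ExpChar.exists F
  have hq' : ExpChar (separableClosure E F) q :=
    (algebraMap _ F).expChar (algebraMap (separableClosure E F) F).injective q
  choose n hn using (isPurelyInseparable_iff_pow_mem (separableClosure E F) q).1
    (separableClosure.isPurelyInseparable E F)
  let S' : Finset F := S.image fun z => z ^ q ^ n z
  have : FiniteDimensional E (adjoin E (S' : Set F)) :=
    finiteDimensional_adjoin fun z _ => Algebra.IsIntegral.isIntegral z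
  let L0 := normalClosure E (adjoin E (S' : Set F)) F
  have h1 : L0 ≤ separableClosure E F := normalClosure_le_iff_of_normal.2 (adjoin_le_iff.2 (by
    intro w hw
    obtain ⟨z, -, rfl⟩ := Finset.mem_image.1 hw
    obtain ⟨y, hy⟩ := hn z
    exact hy ▸ y.2))
  have : Algebra.IsSeparable E L0 := (le_separableClosure_iff E F L0).1 h1
  have : IsGalois E L0 := ⟨⟩
  let res := AlgEquiv.restrictNormalHom (F := E) (K₁ := F) L0
  have hres : ∀ g (w : L0), (res g w : F) = g w := fun g w => AlgEquiv.restrictNormal_commutes g L0 w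
  have : (N.map res).Normal := hN.map res (AlgEquiv.restrictNormalHom_surjective F)
  let e := liftAlgEquiv (fixedField (N.map res))
  refine ⟨lift (fixedField (N.map res)), e.toLinearEquiv.finiteDimensional, IsGalois.of_algEquiv e,
    fun g => ⟨fun hg z hz => ?_, fun hg => ?_⟩⟩
  · obtain ⟨w, hw, rfl⟩ := hz
    exact (hres g w).symm.trans (congrArg Subtype.val (hw ⟨res g, g, hg, rfl⟩))
  · have h2 : res g ∈ (fixedField (N.map res)).fixingSubgroup := by
      rw [IntermediateField.mem_fixingSubgroup_iff]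
      exact fun w hw => Subtype.ext ((hres g w).trans (hg _ ⟨w, hw, rfl⟩))
    rw [fixingSubgroup_fixedField] at h2
    obtain ⟨m, hm, e2⟩ := h2
    have h3 : m⁻¹ * g ∈ N := hS _ fun z hz => by
      have h4 : z ^ q ^ n z ∈ L0 := le_normalClosure _
        (subset_adjoin E _ (Finset.mem_coe.2 (Finset.mem_image_of_mem _ hz)))
      have h5 : m (z ^ q ^ n z) = g (z ^ q ^ n z) :=
        (hres m ⟨_, h4⟩).symm.trans (e2 ▸ hres g ⟨_, h4⟩)
      rw [map_pow, map_pow, ← sub_eq_zero, ← sub_pow_expChar_pow] at h5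
      rw [AlgEquiv.mul_apply, ← sub_eq_zero.1 (eq_zero_of_pow_eq_zero h5)]
      exact m.symm_apply_apply z
    simpa using N.mul_mem hm h3

end Pool.Agent.MP_855f4c_ag.H7

end

section

attribute [-instance] Algebra.IsAlgebraic.isPurelyInseparable_of_isSepClosed
  SemilinearMapClass.distribMulActionSemiHomClass IntermediateField.isAlgebraic_tower_top
  MonTypeEquivalenceMon.monMonoid ValuationRing.instIsBezout Module.free_of_finite_type_torsion_free'
  BialgHomClass.toAlgHomClass NonUnitalNormedRing.toNormedAddCommGroup IdemSemiring.toSemiring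
  CommMonTypeEquivalenceCommMon.commMonCommMonoid SemilinearMapClass.toAddHomClass
  Algebra.WeaklyEtale.flat IsPurelyInseparable.instOfHasExponent
  IsDedekindDomain.isPrincipalIdealRing instNonUnitalAlgHomClassOfNonUnitalAlgEquivClass
  littleWedderburn LieRinehartAlgebra.toIsScalarTower BialgHomClass.toMonoidHomClass
  TestFunctionClass.toDFunLike NormedRing.toRing IdemCommSemiring.toCommSemiring
  instCharZeroOfIsSemireal ContDiffMapSupportedInClass.toDFunLike
  Group.IsPerfect.subsingleton_of_isMulCommutative NormedSpace.toModule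
  instIsPrincipalIdealRingOfIsSemisimpleRing NonUnitalNonAssocSemiring.toDistrib

namespace Pool.Agent.MP_855f4c_ag.H7

open IntermediateField

/-- `V` is a valuation subring of `E`, not everything, that contains `k` and `T`. -/
structure Pt (k : Type) {K E : Type} [Field k] [Field K] [Field E] [Algebra k E] [Algebra K E]
    (T : Finset K) (V : ValuationSubring E) : Prop where
  ne : V ≠ ⊤
  const : ∀ c : k, algebraMap k E c ∈ V
  reg : ∀ f ∈ T, algebraMap K E f ∈ V

/-- `g` maps `V` onto itself. -/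
def Stab {E : Type} [Field E] (g : E → E) (V : ValuationSubring E) : Prop := ∀ z, g z ∈ V ↔ z ∈ V

/-- An open curve with an arithmetic Frobenius `φ` and an inertia element `u` at a puncture. -/
structure Cv (p q l : ℕ) (k K Ω : Type) [Field k] [Field K] [Field Ω] [Algebra k K] [Algebra K Ω]
    [Algebra k Ω] [IsScalarTower k K Ω] where
  hp : p.Prime
  hl : l.Prime
  hlp : l ≠ p
  char : CharP k p
  closed : IsAlgClosed k
  alg : ∀ c : k, ∃ n, n ≠ 0 ∧ c ^ p ^ n = c
  closedΩ : IsAlgClosed Ω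
  algΩ : Algebra.IsAlgebraic K Ω
  hq : ∃ e, e ≠ 0 ∧ q = p ^ e
  X : K
  tr : Transcendental k X
  fd : FiniteDimensional k⟮X⟯ K
  T : Finset K
  hX : X ∈ T
  hX' : X⁻¹ ∈ T
  φ : Ω ≃+* Ω
  σ : K ≃+* K
  hφ : ∀ f : K, φ (algebraMap K Ω f) = algebraMap K Ω (σ f)
  hk : ∀ c : k, σ (algebraMap k K c) = algebraMap k K c ^ q
  hT : ∀ f ∈ T, σ f = f
  u : Ω ≃ₐ[K] Ω
  V0 : ValuationSubring Ω
  V0ne : V0 ≠ ⊤
  V0k : ∀ c : k, algebraMap k Ω c ∈ V0
  V0φ : Stab φ V0
  V0u : Stab u V0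
  t : K
  ht : ∃ j, t ^ l ^ j = X
  r : Ω
  hr : r ^ l = algebraMap K Ω t
  hur : u r ≠ r

variable {p q l : ℕ} {k K Ω : Type} [Field k] [Field K] [Field Ω] [Algebra k K] [Algebra K Ω]
  [Algebra k Ω] [IsScalarTower k K Ω]

/-- Open subgroups that contain all inertia groups over the open curve. -/
def Cv.adm (D : Cv p q l k K Ω) (M : Subgroup (Ω ≃ₐ[K] Ω)) : Prop :=
  (∃ E : Finset Ω, ∀ g : Ω ≃ₐ[K] Ω, (∀ z ∈ E, g z = z) → g ∈ M) ∧
    ∀ V : ValuationSubring Ω, Pt k D.T V → ∀ g : Ω ≃ₐ[K] Ω, Stab g V → g ∈ M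

lemma orb_fin {E F : Type} [Field E] [Field F] [Algebra E F] [Algebra.IsAlgebraic E F] (z : F) :
    (MulAction.orbit (F ≃ₐ[E] F) z).Finite := by
  refine ((minpoly E z).rootSet_finite F).subset ?_
  rintro _ ⟨g, rfl⟩
  refine Polynomial.mem_rootSet.2 ⟨minpoly.ne_zero (Algebra.IsIntegral.isIntegral z), ?_⟩
  change Polynomial.aeval (g z) _ = 0
  rw [Polynomial.aeval_algHom_apply, minpoly.aeval, map_zero]

lemma comap_ne {E : Type} [Field E] {V : ValuationSubring E} (hV : V ≠ ⊤) (g : E →+* E)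
    (hg : Function.Surjective g) : V.comap g ≠ ⊤ := fun h => hV (eq_top_iff.2 fun z _ => by
  obtain ⟨w, rfl⟩ := hg z
  exact (h.ge trivial : w ∈ V.comap g))

lemma nu_const {k E : Type} [Field k] [Field E] [Algebra k E] {V : ValuationSubring E}
    (hk : ∀ c : k, algebraMap k E c ∈ V) {c : k} (h : algebraMap k E c ∈ V.nonunits) : c = 0 := by
  by_contra hc
  exact nu_not ((map_ne_zero _).2 hc) (map_inv₀ (algebraMap k E) c ▸ hk _) h

lemma mem_of_pow {E : Type} [Field E] {V : ValuationSubring E} {z : E} {n : ℕ} (hn : n ≠ 0)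
    (h : z ^ n ∈ V) : z ∈ V := by
  rw [← V.valuation_le_one_iff] at h ⊢
  rwa [map_pow, pow_le_one_iff hn] at h

lemma Cv.adm_fin (D : Cv p q l k K Ω) {M : Subgroup (Ω ≃ₐ[K] Ω)} (h : D.adm M) :
    M.FiniteIndex := by
  have := D.algΩ
  obtain ⟨⟨E, hE⟩, -⟩ := h
  have : (⨅ z ∈ E, MulAction.stabilizer (Ω ≃ₐ[K] Ω) z).FiniteIndex :=
    Subgroup.finiteIndex_iInf' _ fun z _ => ⟨by
      rw [MulAction.index_stabilizer]
      exact ((Set.ncard_pos (orb_fin z)).2 ⟨z, MulAction.mem_orbit_self z⟩).ne'⟩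
  refine Subgroup.finiteIndex_of_le (H := ⨅ z ∈ E, MulAction.stabilizer (Ω ≃ₐ[K] Ω) z)
    fun g hg => hE g fun z hz => ?_
  exact (Subgroup.mem_iInf.1 (Subgroup.mem_iInf.1 hg z) hz : g • z = z)

lemma Cv.adm_norm (D : Cv p q l k K Ω) {M : Subgroup (Ω ≃ₐ[K] Ω)} (h : D.adm M) :
    ∃ N : Subgroup (Ω ≃ₐ[K] Ω), N ≤ M ∧ N.Normal ∧ D.adm N := by
  classical
  have := D.algΩ
  obtain ⟨⟨E, hE⟩, h⟩ := h
  refine ⟨M.normalCore, M.normalCore_le, inferInstance,
    ⟨E.biUnion fun z => (orb_fin (E := K) z).toFinset, fun g hg b => hE _ fun z hz => ?_⟩,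
    fun V hV g hg b => h (V.comap (b.symm : Ω →+* Ω)) ⟨comap_ne hV.ne _ b.symm.surjective,
      fun c => ?_, fun f hf => ?_⟩ _ fun z => ?_⟩
  · change b (g (b⁻¹ z)) = z
    rw [hg (b⁻¹ z) (Finset.mem_biUnion.2 ⟨z, hz, (Set.Finite.mem_toFinset _).2 ⟨b⁻¹, rfl⟩⟩)]
    exact b.apply_symm_apply z
  · change b.symm _ ∈ V
    rw [IsScalarTower.algebraMap_apply k K Ω, b.symm.commutes, ← IsScalarTower.algebraMap_apply]
    exact hV.const c
  · change b.symm _ ∈ V
    rw [b.symm.commutes]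
    exact hV.reg f hf
  · change b.symm (b (g (b.symm z))) ∈ V ↔ b.symm z ∈ V
    rw [b.symm_apply_apply]
    exact hg _

/-- The filter of admissible subgroups. -/
def Cv.A (D : Cv p q l k K Ω) : Fx.Adm (Ω ≃ₐ[K] Ω) where
  adm := D.adm
  top := ⟨⟨∅, fun _ _ => trivial⟩, fun _ _ _ _ => trivial⟩
  inf := by
    classical
    rintro M N ⟨⟨E, hE⟩, h⟩ ⟨⟨E', hE'⟩, h'⟩
    exact ⟨⟨E ∪ E', fun g hg => ⟨hE g fun z hz => hg z (Finset.mem_union_left _ hz),
      hE' g fun z hz => hg z (Finset.mem_union_right _ hz)⟩⟩,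
      fun V hV g hg => ⟨h V hV g hg, h' V hV g hg⟩⟩
  up := by
    rintro M N ⟨⟨E, hE⟩, h⟩ hle
    exact ⟨⟨E, fun g hg => hle (hE g hg)⟩, fun V hV g hg => hle (h V hV g hg)⟩
  fin := D.adm_fin
  norm := D.adm_norm

/-- `g ↦ φ⁻¹ g φ`. -/
def Cv.α (D : Cv p q l k K Ω) : (Ω ≃ₐ[K] Ω) →* (Ω ≃ₐ[K] Ω) where
  toFun g := { (D.φ.trans g.toRingEquiv).trans D.φ.symm with
    commutes' := fun f => by
      change D.φ.symm (g (D.φ (algebraMap K Ω f))) = _
      rw [D.hφ, g.commutes, ← D.hφ, RingEquiv.symm_apply_apply] }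
  map_one' := AlgEquiv.ext fun z => D.φ.symm_apply_apply z
  map_mul' g h := AlgEquiv.ext fun z => by
    change D.φ.symm (g (h (D.φ z))) = D.φ.symm (g (D.φ (D.φ.symm (h (D.φ z)))))
    rw [RingEquiv.apply_symm_apply]

lemma Cv.α_apply (D : Cv p q l k K Ω) (g : Ω ≃ₐ[K] Ω) (z : Ω) :
    D.α g z = D.φ.symm (g (D.φ z)) := rfl

lemma Cv.φ_pow (D : Cv p q l k K Ω) (m : ℕ) (f : K) :
    (D.φ ^ m) (algebraMap K Ω f) = algebraMap K Ω ((D.σ ^ m) f) := by
  induction m with
  | zero => rfl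
  | succ m ih =>
    rw [pow_succ', pow_succ']
    exact (congrArg D.φ ih).trans (D.hφ _)

lemma Cv.σ_const (D : Cv p q l k K Ω) (m : ℕ) (c : k) :
    (D.σ ^ m) (algebraMap k K c) = algebraMap k K (c ^ q ^ m) := by
  induction m with
  | zero => rw [pow_zero, pow_zero, pow_one]; rfl
  | succ m ih =>
    rw [pow_succ', pow_succ, pow_mul, map_pow, ← D.hk]
    exact congrArg D.σ ih

lemma Cv.σ_T (D : Cv p q l k K Ω) (m : ℕ) {f : K} (hf : f ∈ D.T) : (D.σ ^ m) f = f := by
  induction m with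
  | zero => rfl
  | succ m ih =>
    rw [pow_succ']
    exact (congrArg D.σ ih).trans (D.hT f hf)

lemma Cv.φ_const (D : Cv p q l k K Ω) (m : ℕ) (c : k) :
    (D.φ ^ m) (algebraMap k Ω c) = algebraMap k Ω (c ^ q ^ m) := by
  rw [IsScalarTower.algebraMap_apply k K Ω, D.φ_pow, D.σ_const, ← IsScalarTower.algebraMap_apply]

lemma Cv.per_const (D : Cv p q l k K Ω) (c : k) : ∃ n, n ≠ 0 ∧ c ^ q ^ n = c := by
  obtain ⟨n, hn, h⟩ := D.alg c
  obtain ⟨e, -, rfl⟩ := D.hq
  refine ⟨n, hn, ?_⟩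
  rw [← pow_mul, mul_comm, pow_mul]
  clear D
  induction e with
  | zero => simp
  | succ e ih => rw [pow_succ, pow_mul, ih, h]

lemma Cv.one_lt (D : Cv p q l k K Ω) : 1 < q := by
  obtain ⟨e, he, rfl⟩ := D.hq
  exact Nat.one_lt_pow he D.hp.one_lt

lemma Cv.trΩ (D : Cv p q l k K Ω) : Transcendental k (algebraMap K Ω D.X) :=
  (transcendental_algebraMap_iff (algebraMap K Ω).injective).2 D.tr

lemma Cv.algX (D : Cv p q l k K Ω) (z : Ω) :
    IsAlgebraic (Algebra.adjoin k {algebraMap K Ω D.X}) z := by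
  have := D.algΩ
  have := D.fd
  have h1 : Algebra.IsAlgebraic k⟮D.X⟯ Ω := Algebra.IsAlgebraic.trans k⟮D.X⟯ K Ω
  have h2 : IsAlgebraic (Algebra.adjoin k {D.X}) z := isAlgebraic_adjoin_iff.1 (h1.isAlgebraic z)
  have h3 : ∀ a : Algebra.adjoin k {D.X}, ((algebraMap K Ω).comp (Subalgebra.val _).toRingHom) a ∈
      Algebra.adjoin k {algebraMap K Ω D.X} := by
    rintro ⟨a, ha⟩
    rw [Algebra.adjoin_singleton_eq_range_aeval] at ha
    obtain ⟨f, rfl⟩ := ha
    exact (Polynomial.aeval_algebraMap_apply Ω D.X f) ▸ Polynomial.aeval_mem_adjoin_singleton _ _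
  exact h2.ringHom_of_comp_eq (RingHom.codRestrict _ _ h3) (RingHom.id Ω) (fun a b h =>
    Subtype.ext ((algebraMap K Ω).injective (congrArg Subtype.val h))) rfl

lemma adjoin_mem {k E : Type} [Field k] [Field E] [Algebra k E] {V : ValuationSubring E}
    (hk : ∀ c : k, algebraMap k E c ∈ V) {s : Set E} (hs : ∀ z ∈ s, z ∈ V) {a : E}
    (ha : a ∈ Algebra.adjoin k s) : a ∈ V := by
  induction ha using Algebra.adjoin_induction with
  | mem x hx => exact hs x hx
  | algebraMap c => exact hk c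
  | add x y _ _ hx hy => exact V.add_mem _ _ hx hy
  | mul x y _ _ hx hy => exact V.mul_mem _ _ hx hy

open Polynomial in
/-- RES: the residue field of a place of `Ω` is `k`. -/
lemma Cv.res (D : Cv p q l k K Ω) (V : ValuationSubring Ω) (hV : V ≠ ⊤)
    (hk : ∀ c : k, algebraMap k Ω c ∈ V) (z : Ω) (hz : z ∈ V) :
    ∃ c : k, z - algebraMap k Ω c ∈ V.nonunits := by
  have := D.closed
  by_contra h
  push Not at h
  have h1 : ∀ f : k[X], f ≠ 0 → aeval z f ∉ V.nonunits := fun f hf => by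
    rw [(IsAlgClosed.splits f).eq_prod_roots, map_mul, aeval_C]
    refine nu_prime (fun h => hf (leadingCoeff_eq_zero.1 (nu_const hk h))) ?_
    induction f.roots using Multiset.induction with
    | empty => simpa only [Multiset.map_zero, Multiset.prod_zero, map_one] using nu_one
    | cons a s ih =>
      rw [Multiset.map_cons, Multiset.prod_cons, map_mul, map_sub, aeval_X, aeval_C]
      exact nu_prime (h a) ih
  have h2 : Transcendental k z := fun ⟨f, hf, e⟩ => h1 f hf (e ▸ nu_zero)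
  have h3 := IsAlgebraic.adjoin_singleton D.trΩ h2 (D.algX z)
  refine hV (eq_top_iff.2 fun w _ => ?_)
  have h4 : IsAlgebraic (Algebra.adjoin k {z}) w :=
    IsAlgebraic.adjoin_of_forall_isAlgebraic (fun x hx => hx.1 ▸ h3) (D.algX w)
  obtain ⟨⟨a, ha⟩, a0, hi⟩ := h4.exists_integral_multiple
  have h5 : a * w ∈ V := val_int (O := Algebra.adjoin k {z}) V
    (fun o => adjoin_mem hk (s := {z}) (fun _ hx => hx ▸ hz) o.2) hi
  rw [Algebra.adjoin_singleton_eq_range_aeval] at ha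
  obtain ⟨f, rfl⟩ := ha
  have h6 := nu_inv (h1 f fun e => a0 (Subtype.ext (by simp [e])))
  have := V.mul_mem _ _ h6.2 h5
  rwa [AlgHom.toRingHom_eq_coe, RingHom.coe_coe, inv_mul_cancel_left₀ h6.1] at this

lemma Cv.resK (D : Cv p q l k K Ω) (x : ValuationSubring K) (hx : x ≠ ⊤)
    (hk : ∀ c : k, algebraMap k K c ∈ x) (f : K) (hf : f ∈ x) :
    ∃ c : k, f - algebraMap k K c ∈ x.nonunits := by
  obtain ⟨V, hV⟩ := val_ext (F := Ω) x
  obtain ⟨c, hc⟩ := D.res V (fun e => hx (eq_top_iff.2 fun a _ => (hV a).1 (e.ge trivial)))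
    (fun c => by rw [IsScalarTower.algebraMap_apply k K Ω]; exact (hV _).2 (hk c)) _ ((hV f).2 hf)
  refine ⟨c, (nu_map (algebraMap K Ω) hV _).1 ?_⟩
  rwa [map_sub, ← IsScalarTower.algebraMap_apply]

open Polynomial in
lemma nu_aeval {k E : Type} [Field k] [Field E] [Algebra k E] {V : ValuationSubring E}
    (hk : ∀ c : k, algebraMap k E c ∈ V) {z : E} {c : k} (h : z - algebraMap k E c ∈ V.nonunits)
    (f : k[X]) : aeval z f ∈ V ∧ (aeval z f ∈ V.nonunits ↔ f.eval c = 0) := by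
  have hz : z ∈ V := by simpa using V.add_mem _ _ (V.nonunits_subset h) (hk c)
  have h1 : ∀ g : k[X], aeval z g ∈ V := fun g =>
    adjoin_mem hk (s := {z}) (fun _ hx => hx ▸ hz) (aeval_mem_adjoin_singleton _ _)
  obtain ⟨g, hg⟩ := X_sub_C_dvd_sub_C_eval (a := c) (p := f)
  have h2 : aeval z f - algebraMap k E (f.eval c) ∈ V.nonunits := by
    rw [← aeval_C z, ← map_sub, hg, map_mul, map_sub, aeval_X, aeval_C]
    exact nu_mul h (h1 g)
  refine ⟨h1 f, fun h3 => nu_const hk ?_, fun h3 => by simpa [h3] using h2⟩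
  simpa using nu_sub h3 h2

open Polynomial in
lemma Cv.fib (D : Cv p q l k K Ω) (c : k) : ∃ W : ValuationSubring Ω, ∀ x : ValuationSubring K,
    (∀ c : k, algebraMap k K c ∈ x) → D.X - algebraMap k K c ∈ x.nonunits →
      ∃ g : K →ₐ[k⟮D.X⟯] Ω, ∀ a, a ∈ x ↔ g a ∈ W := by
  have := D.closedΩ
  by_cases h : ∃ x : ValuationSubring K, (∀ c : k, algebraMap k K c ∈ x) ∧
      D.X - algebraMap k K c ∈ x.nonunits
  swap
  · exact ⟨⊤, fun x h1 h2 => absurd ⟨x, h1, h2⟩ h⟩
  obtain ⟨x0, h1, h2⟩ := h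
  have key : ∀ x : ValuationSubring K, (∀ c : k, algebraMap k K c ∈ x) →
      D.X - algebraMap k K c ∈ x.nonunits → ∃ V : ValuationSubring Ω,
        (∀ f, algebraMap K Ω f ∈ V ↔ f ∈ x) ∧ ∀ f : k[X], aeval (algebraMap K Ω D.X) f ∈ V ∧
          (aeval (algebraMap K Ω D.X) f ∈ V.nonunits ↔ f.eval c = 0) := fun x a1 a2 => by
    obtain ⟨V, hV⟩ := val_ext (F := Ω) x
    refine ⟨V, hV, nu_aeval (fun c => ?_) ?_⟩
    · rw [IsScalarTower.algebraMap_apply k K Ω]; exact (hV _).2 (a1 c)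
    · rw [IsScalarTower.algebraMap_apply k K Ω, ← map_sub]; exact (nu_map _ hV _).2 a2
  obtain ⟨W, -, hW⟩ := key x0 h1 h2
  refine ⟨W, fun x a1 a2 => ?_⟩
  obtain ⟨V, hV, hV'⟩ := key x a1 a2
  let O := Algebra.adjoin k {algebraMap K Ω D.X}
  have hO : ∀ o : O, ∃ f : k[X], algebraMap O Ω o = aeval (algebraMap K Ω D.X) f := by
    rintro ⟨o, ho⟩
    obtain ⟨f, rfl⟩ := (Algebra.adjoin_singleton_eq_range_aeval k _).le ho
    exact ⟨f, rfl⟩
  have : IsPrincipalIdealRing O := IsPrincipalIdealRing.of_surjective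
    (algEquivOfTranscendental k _ D.trΩ) (AlgEquiv.surjective _)
  have : Algebra.IsAlgebraic O Ω := ⟨D.algX⟩
  obtain ⟨g, hg⟩ := val_conj' (O := O) Subtype.val_injective W V
    (fun o => by obtain ⟨f, e⟩ := hO o; exact e ▸ (hW f).1)
    (fun o => by obtain ⟨f, e⟩ := hO o; exact e ▸ (hV' f).1)
    (fun o => by obtain ⟨f, e⟩ := hO o; rw [e, (hW f).2, (hV' f).2])
  have h3 : ∀ f : k[X], g (algebraMap K Ω (aeval D.X f)) = algebraMap K Ω (aeval D.X f) :=
    fun f => by
      rw [← aeval_algebraMap_apply]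
      exact g.commutes ⟨_, aeval_mem_adjoin_singleton _ _⟩
  refine ⟨{ (g : Ω →+* Ω).comp (algebraMap K Ω) with commutes' := ?_ },
    fun a => (hV a).symm.trans (hg _).symm⟩
  rintro ⟨a, ha⟩
  obtain ⟨r, s, rfl⟩ := (mem_adjoin_simple_iff k _).1 ha
  change g (algebraMap K Ω (_ / _)) = algebraMap K Ω (_ / _)
  rw [map_div₀, map_div₀, h3, h3]

/-- The points of the open curve fixed by `σ ^ m` (empty for `m = 0`). -/
def Cv.U (D : Cv p q l k K Ω) (m : ℕ) : Type :=
  {x : ValuationSubring K // 0 < m ∧ Pt k D.T x ∧ Stab (D.σ ^ m) x}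

open Polynomial in
lemma Cv.card_U (D : Cv p q l k K Ω) :
    ∃ C : ℕ, ∀ m, Finite (D.U m) ∧ Nat.card (D.U m) ≤ C * q ^ m := by
  classical
  have := D.fd
  choose W hW using D.fib
  refine ⟨Nat.card (K →ₐ[k⟮D.X⟯] Ω), fun m => ?_⟩
  rcases Nat.eq_zero_or_pos m with rfl | hm
  · have : IsEmpty (D.U 0) := ⟨fun x => absurd x.2.1 (lt_irrefl 0)⟩
    exact ⟨inferInstance, by simp only [Nat.card_of_isEmpty, Nat.card_eq_fintype_card, pow_zero, mul_one, zero_le]⟩
  have hq : 1 < q ^ m := Nat.one_lt_pow hm.ne' D.one_lt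
  have h0 := FiniteField.X_pow_card_sub_X_ne_zero k hq
  have h1 : ∀ x : D.U m, ∃ y : (K →ₐ[k⟮D.X⟯] Ω) ×
      (Polynomial.X ^ q ^ m - Polynomial.X : k[X]).roots.toFinset, ∀ a, a ∈ x.1 ↔ y.1 a ∈ W y.2 := by
    rintro ⟨x, -, hx, hs⟩
    obtain ⟨c, hc⟩ := D.resK x hx.ne hx.const D.X (hx.reg _ D.hX)
    obtain ⟨g, hg⟩ := hW c x hx.const hc
    have h2 := (nu_map ((D.σ ^ m : K ≃+* K) : K →+* K) hs _).2 hc
    rw [RingHom.coe_coe, map_sub, D.σ_T m D.hX, D.σ_const] at h2
    have h3 : c ^ q ^ m - c = 0 := nu_const hx.const (by simpa using nu_sub hc h2)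
    exact ⟨(g, ⟨c, Multiset.mem_toFinset.2 ((mem_roots h0).2 (by simpa using h3))⟩), hg⟩
  choose y hy using h1
  have h2 : Function.Injective y := fun a b e =>
    Subtype.ext (ValuationSubring.ext _ _ fun f => by rw [hy, hy, e])
  refine ⟨Finite.of_injective y h2, (Nat.card_le_card_of_injective y h2).trans ?_⟩
  rw [Nat.card_prod, Nat.card_eq_finsetCard]
  refine Nat.mul_le_mul_left _ ((Multiset.toFinset_card_le _).trans ((card_roots' _).trans ?_))
  rw [FiniteField.X_pow_card_sub_X_natDegree_eq k hq]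

noncomputable instance (D : Cv p q l k K Ω) (m : ℕ) : Fintype (D.U m) :=
  @Fintype.ofFinite _ (D.card_U.choose_spec m).1

lemma Cv.ne_U (D : Cv p q l k K Ω) : ∃ m, 0 < m ∧ Nonempty (D.U m) := by
  have := D.fd
  let B := Algebra.adjoin k (D.T : Set K)
  have hB : ¬ IsField B := fun h => by
    let _ := h.toField
    have : Algebra.FiniteType k B := (Subalgebra.fg_iff_finiteType B).1 ⟨D.T, rfl⟩
    have := finite_of_finite_type_of_isJacobsonRing k B
    exact D.tr ((Algebra.IsIntegral.isIntegral (R := k)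
      (⟨D.X, Algebra.subset_adjoin D.hX⟩ : B)).map B.val).isAlgebraic
  obtain ⟨I, h1, h2⟩ := Ring.not_isField_iff_exists_ideal_bot_lt_and_lt_top.1 hB
  obtain ⟨x, h3, h4⟩ := Ideal.image_subset_nonunits_valuationSubring (A := B.toSubring) I h2.ne
  obtain ⟨b, hb, b0⟩ := SetLike.exists_of_lt h1
  have hx : Pt k D.T x := ⟨fun e => nu_not (fun e => b0 (Subtype.ext e)) (e.ge trivial)
    (h4 ⟨b, hb, rfl⟩), fun c => h3 (B.algebraMap_mem c), fun f hf => h3 (Algebra.subset_adjoin hf)⟩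
  obtain ⟨c, hc⟩ := D.resK x hx.ne hx.const _ (hx.reg _ D.hX)
  obtain ⟨n, hn, hc'⟩ := D.per_const c
  obtain ⟨W, hW⟩ := D.fib c
  have h5 : ∀ j, c ^ q ^ (n * j) = c := fun j => by
    induction j with
    | zero => simp
    | succ j ih => rw [Nat.mul_succ, pow_add, pow_mul, ih, hc']
  choose g hg using fun j : ℕ => hW (x.comap ((D.σ ^ (n * j) : K ≃+* K) : K →+* K))
    (fun c => by
      change (D.σ ^ (n * j)) _ ∈ x
      rw [D.σ_const]
      exact hx.const _)
    ((nu_map ((D.σ ^ (n * j) : K ≃+* K) : K →+* K) (fun _ => Iff.rfl) _).1 (by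
      rwa [RingHom.coe_coe, map_sub, D.σ_T _ D.hX, D.σ_const, h5]))
  obtain ⟨i, j, hij, e⟩ := Set.finite_univ.exists_lt_map_eq_of_forall_mem (f := g)
    fun _ => Set.mem_univ _
  obtain ⟨d, rfl⟩ := Nat.exists_eq_add_of_lt hij
  refine ⟨n * (d + 1), by positivity, ⟨x, by positivity, hx, fun z => ?_⟩⟩
  obtain ⟨w, rfl⟩ := (D.σ ^ (n * i)).surjective z
  have h6 : (D.σ ^ (n * (d + 1))) ((D.σ ^ (n * i)) w) = (D.σ ^ (n * (i + d + 1))) w := by
    rw [show n * (i + d + 1) = n * (d + 1) + n * i by ring, pow_add]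
    rfl
  rw [h6]
  exact (hg _ w).trans (e ▸ (hg i w).symm)

lemma Cv.frob (D : Cv p q l k K Ω) (m : ℕ) (x : D.U m) :
    ∃ g : Ω ≃ₐ[K] Ω, ∃ V : ValuationSubring Ω, Pt k D.T V ∧
      (∀ a : K, algebraMap K Ω a ∈ V ↔ a ∈ x.1) ∧ Stab (fun z => (D.φ ^ m) (g z)) V := by
  have := D.closedΩ
  have := D.algΩ
  obtain ⟨x, -, hx, hs⟩ := x
  obtain ⟨V, hV⟩ := val_ext (F := Ω) x
  obtain ⟨g, hg⟩ := val_conj (E := K) (V.comap ((D.φ ^ m : Ω ≃+* Ω) : Ω →+* Ω)) V fun f => by
    change (D.φ ^ m) _ ∈ V ↔ _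
    rw [D.φ_pow, hV, hV]
    exact hs f
  exact ⟨g, V, ⟨fun e => hx.ne (eq_top_iff.2 fun a _ => (hV a).1 (e.ge trivial)),
    fun c => by rw [IsScalarTower.algebraMap_apply k K Ω]; exact (hV _).2 (hx.const c),
    fun f hf => (hV f).2 (hx.reg f hf)⟩, hV, hg⟩

/-- `φ ^ m * f m x` fixes a place of `Ω` above `x`. -/
noncomputable def Cv.f (D : Cv p q l k K Ω) (m : ℕ) (x : D.U m) : Ω ≃ₐ[K] Ω := (D.frob m x).choose

lemma Cv.f_spec (D : Cv p q l k K Ω) (m : ℕ) (x : D.U m) :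
    ∃ V : ValuationSubring Ω, Pt k D.T V ∧ (∀ a : K, algebraMap K Ω a ∈ V ↔ a ∈ x.1) ∧
      Stab (fun z => (D.φ ^ m) (D.f m x z)) V := (D.frob m x).choose_spec

lemma Cv.comap (D : Cv p q l k K Ω) (M : Subgroup (Ω ≃ₐ[K] Ω)) (h : D.A.adm M) :
    D.A.adm (M.comap D.α) := by
  classical
  obtain ⟨⟨E, hE⟩, h⟩ := h
  refine ⟨⟨E.image D.φ, fun g hg => hE _ fun z hz => ?_⟩, fun V hV g hg =>
    h (V.comap (D.φ : Ω →+* Ω)) ⟨comap_ne hV.ne _ D.φ.surjective, fun c => ?_, fun f hf => ?_⟩ _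
      fun z => ?_⟩
  · rw [D.α_apply, hg _ (Finset.mem_image_of_mem _ hz), RingEquiv.symm_apply_apply]
  · have := D.φ_const 1 c
    rw [pow_one] at this
    change D.φ _ ∈ V
    exact this ▸ hV.const _
  · change D.φ _ ∈ V
    rw [D.hφ, D.hT f hf]
    exact hV.reg f hf
  · change D.φ (D.φ.symm (g (D.φ z))) ∈ V ↔ D.φ z ∈ V
    rw [RingEquiv.apply_symm_apply]
    exact hg _

lemma fix_const (g : Ω ≃ₐ[K] Ω) (c : k) : g (algebraMap k Ω c) = algebraMap k Ω c := by
  rw [IsScalarTower.algebraMap_apply k K Ω, g.commutes]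

/-- Stabilisers act trivially on the residue field. -/
lemma Cv.inert (D : Cv p q l k K Ω) {V : ValuationSubring Ω} (hV : V ≠ ⊤)
    (hk : ∀ c : k, algebraMap k Ω c ∈ V) {g : Ω ≃ₐ[K] Ω} (hg : Stab g V) {z : Ω} (hz : z ∈ V) :
    g z - z ∈ V.nonunits := by
  obtain ⟨c, hc⟩ := D.res V hV hk z hz
  have := (nu_map (g : Ω →+* Ω) hg _).2 hc
  rw [RingHom.coe_coe, map_sub, fix_const] at this
  simpa using nu_sub this hc

lemma Cv.l_ne (D : Cv p q l k K Ω) : (l : k) ≠ 0 := fun h => by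
  have := D.char
  exact D.hlp ((Nat.prime_dvd_prime_iff_eq D.hp D.hl).1 ((CharP.cast_eq_zero_iff k p l).1 h)).symm

lemma Cv.hu (D : Cv p q l k K Ω) : ∃ χ : D.A.Hm ⊤ (ZMod l), χ.1 ⟨D.u, trivial⟩ ≠ 0 := by
  have := D.closed
  have : NeZero (l : k) := ⟨D.l_ne⟩
  have : NeZero l := ⟨D.hl.ne_zero⟩
  obtain ⟨ζ, hζ⟩ := HasEnoughRootsOfUnity.exists_primitiveRoot k l
  have hζ' := hζ.map_of_injective (algebraMap k Ω).injective
  obtain ⟨j, hj⟩ := D.ht
  have hX : D.r ^ (l * l ^ j) = algebraMap K Ω D.X := by rw [pow_mul, D.hr, ← map_pow, hj]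
  have hn : l * l ^ j ≠ 0 := by have := D.hl.pos; positivity
  have r0 : D.r ≠ 0 := fun e => D.trΩ (by rw [← hX, e, zero_pow hn]; exact isAlgebraic_zero)
  have h1 : ∀ g : Ω ≃ₐ[K] Ω, ∃ i : ℕ, g D.r = algebraMap k Ω (ζ ^ i) * D.r := fun g => by
    obtain ⟨i, -, hi⟩ := hζ'.eq_pow_of_pow_eq_one (ξ := g D.r / D.r) (by
      rw [div_pow, ← map_pow, D.hr, g.commutes, ← D.hr, div_self (pow_ne_zero _ r0)])
    exact ⟨i, by rw [map_pow, hi, div_mul_cancel₀ _ r0]⟩
  choose i hi using h1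
  have h2 : ∀ a b : ℕ, algebraMap k Ω (ζ ^ a) * D.r = algebraMap k Ω (ζ ^ b) * D.r ↔
      (a : ZMod l) = b := fun a b => by
    rw [mul_left_inj' r0, (algebraMap k Ω).injective.eq_iff, ZMod.natCast_eq_natCast_iff',
      pow_eq_pow_mod a hζ.pow_eq_one, pow_eq_pow_mod b hζ.pow_eq_one]
    exact ⟨hζ.pow_inj (Nat.mod_lt _ D.hl.pos) (Nat.mod_lt _ D.hl.pos), fun e => e ▸ rfl⟩
  have h3 : ∀ g, g D.r = D.r ↔ (i g : ZMod l) = 0 := fun g => by
    rw [← Nat.cast_zero, ← h2, ← hi, pow_zero, map_one, one_mul]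
  refine ⟨⟨fun g => i g, fun a b => ?_, MulAction.stabilizer _ D.r,
    ⟨⟨{D.r}, fun g hg => hg _ (Finset.mem_singleton_self _)⟩, fun V hV g hg => ?_⟩,
    fun a ha => (h3 _).1 ha⟩, fun h => D.hur ((h3 _).2 h)⟩
  · rw [← Nat.cast_add, ← h2, ← hi, Subgroup.coe_mul, AlgEquiv.mul_apply, hi b, map_mul, fix_const,
      hi a, pow_add, map_mul]
    ring
  · have h4 := D.inert hV.ne hV.const hg (mem_of_pow hn (hX ▸ hV.reg _ D.hX))
    have h5 : D.r⁻¹ ∈ V := mem_of_pow hn (by
      rw [inv_pow, hX, ← map_inv₀]; exact hV.reg _ D.hX')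
    have h6 : ζ ^ i g - 1 = 0 := nu_const hV.const (by
      have := nu_mul h4 h5
      rwa [hi, sub_mul, mul_inv_cancel_right₀ r0, mul_inv_cancel₀ r0,
        ← map_one (algebraMap k Ω), ← map_sub] at this)
    change g D.r = D.r
    rw [hi, sub_eq_zero.1 h6, map_one, one_mul]

lemma val_fix {E : Type} [Field E] {V : ValuationSubring E} (ψ : E ≃+* E) (h : Stab ψ V) {z : E}
    (z0 : z ≠ 0) (s : Set E) (hs : s.Finite) (hz : ∀ n : ℕ, (ψ ^ n) z ∈ s) :
    ψ z / z ∈ V ∧ ψ z / z ∉ V.nonunits := by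
  have h1 : ∀ a b, V.valuation a < V.valuation b → V.valuation (ψ a) < V.valuation (ψ b) := by
    intro a b hab
    have b0 : b ≠ 0 := fun e => by simp only [e, map_zero, not_lt_zero] at hab
    have h2 : a / b ∈ V.nonunits := by
      rwa [V.mem_nonunits_iff, map_div₀, div_lt_one₀ (zero_le.trans_lt hab)]
    have h3 := (nu_map (ψ : E →+* E) h _).2 h2
    rwa [RingHom.coe_coe, V.mem_nonunits_iff, map_div₀, map_div₀,
      div_lt_one₀ ((Valuation.pos_iff _).2 ((map_ne_zero ψ).2 b0))] at h3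
  obtain ⟨i, j, hij, e⟩ := hs.exists_lt_map_eq_of_forall_mem hz
  have h2 : ∀ n : ℕ, (ψ ^ (n + 1)) z = ψ ((ψ ^ n) z) := fun n => by rw [pow_succ']; rfl
  have h4 : V.valuation (ψ z) = V.valuation z := by
    rcases lt_trichotomy (V.valuation (ψ z)) (V.valuation z) with h3 | h3 | h3
    · have : StrictAnti fun n : ℕ => V.valuation ((ψ ^ n) z) := strictAnti_nat_of_succ_lt fun n => by
        induction n with
        | zero => exact h3
        | succ n ih => rw [h2 (n + 1), h2 n]; exact h1 _ _ (h2 n ▸ ih)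
      exact absurd (congrArg V.valuation e) (this hij).ne'
    · exact h3
    · have : StrictMono fun n : ℕ => V.valuation ((ψ ^ n) z) := strictMono_nat_of_lt_succ fun n => by
        induction n with
        | zero => exact h3
        | succ n ih => rw [h2 (n + 1), h2 n]; exact h1 _ _ (h2 n ▸ ih)
      exact absurd (congrArg V.valuation e) (this hij).ne
  rw [← V.valuation_le_one_iff, V.mem_nonunits_iff, map_div₀, h4,
    div_self ((Valuation.ne_zero_iff _).2 z0)]
  simp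

open Polynomial in
lemma Cv.φ_orb (D : Cv p q l k K Ω) (z : Ω) :
    ∃ s : Set Ω, s.Finite ∧ ∀ n : ℕ, (D.φ ^ n) z ∈ s := by
  let A : Subalgebra k Ω :=
    { carrier := {w | ∃ n, n ≠ 0 ∧ ∀ j, (D.φ ^ (n * j)) w = w}
      mul_mem' := by
        rintro a b ⟨m, hm, ha⟩ ⟨n, hn, hb⟩
        refine ⟨m * n, mul_ne_zero hm hn, fun j => ?_⟩
        rw [map_mul, mul_assoc, ha, ← mul_assoc, mul_comm m, mul_assoc, hb]
      add_mem' := by
        rintro a b ⟨m, hm, ha⟩ ⟨n, hn, hb⟩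
        refine ⟨m * n, mul_ne_zero hm hn, fun j => ?_⟩
        rw [map_add, mul_assoc, ha, ← mul_assoc, mul_comm m, mul_assoc, hb]
      algebraMap_mem' := fun c => by
        obtain ⟨n, hn, hc⟩ := D.per_const c
        refine ⟨n, hn, fun j => ?_⟩
        rw [D.φ_const]
        congr 1
        induction j with
        | zero => simp
        | succ j ih => rw [Nat.mul_succ, pow_add, pow_mul, ih, hc] }
  have hA : Algebra.adjoin k {algebraMap K Ω D.X} ≤ A := Algebra.adjoin_le (by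
    rintro _ rfl
    exact ⟨1, one_ne_zero, fun j => by rw [D.φ_pow, D.σ_T _ D.hX]⟩)
  obtain ⟨f, f0, hf⟩ := D.algX z
  choose n hn hn' using fun i => hA (f.coeff i).2
  let N := ∏ i ∈ f.support, n i
  have N0 : 0 < N := Finset.prod_pos fun i _ => Nat.pos_of_ne_zero (hn i)
  have h1 : ∀ j, aeval ((D.φ ^ (N * j)) z) f = 0 := fun j => by
    have := congrArg (D.φ ^ (N * j)) hf
    rw [aeval_def, eval₂_eq_sum, sum_def, map_sum, map_zero] at this
    rw [aeval_def, eval₂_eq_sum, sum_def, ← this]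
    refine Finset.sum_congr rfl fun i hi => ?_
    obtain ⟨d, hd⟩ : n i ∣ N := Finset.dvd_prod_of_mem n hi
    rw [map_mul, map_pow]
    congr 1
    rw [hd, mul_assoc]
    exact (hn' i _).symm
  refine ⟨⋃ r ∈ Set.Iio N, (D.φ ^ r : Ω ≃+* Ω) '' f.rootSet Ω, (Set.finite_Iio N).biUnion
    fun r _ => (f.rootSet_finite Ω).image _, fun m => Set.mem_biUnion (Nat.mod_lt m N0)
      ⟨(D.φ ^ (N * (m / N))) z, (mem_rootSet_of_injective Subtype.val_injective f0).2 (h1 _), ?_⟩⟩
  conv_rhs => rw [← Nat.mod_add_div m N, pow_add]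
  rfl

open Polynomial in
lemma eigen {k M : Type} [Field k] [AddCommGroup M] [Module k M] (T : Module.End k M)
    (s : Multiset k) (y : M) (y0 : y ≠ 0) (h : aeval T (s.map fun a => X - C a).prod y = 0) :
    ∃ a ∈ s, ∃ w, w ≠ 0 ∧ T w = a • w := by
  induction s using Multiset.induction with
  | empty => exact absurd (by simpa only [Multiset.map_zero, Multiset.prod_zero, map_one, Module.End.one_apply] using h) y0
  | cons a s ih =>
    by_cases h1 : aeval T (s.map fun a => X - C a).prod y = 0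
    · obtain ⟨b, hb, h2⟩ := ih h1
      exact ⟨b, Multiset.mem_cons_of_mem hb, h2⟩
    · rw [Multiset.map_cons, Multiset.prod_cons, map_mul, Module.End.mul_apply, map_sub, aeval_X,
        aeval_C, LinearMap.sub_apply, Module.algebraMap_end_apply, sub_eq_zero] at h
      exact ⟨a, Multiset.mem_cons_self a s, _, h1, h⟩

/-- The stabiliser of a valuation subring. -/
def St (K : Type) [Field K] [Algebra K Ω] (V : ValuationSubring Ω) : Subgroup (Ω ≃ₐ[K] Ω) where
  carrier := {g | Stab g V}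
  mul_mem' ha hb z := (ha _).trans (hb z)
  one_mem' _ := Iff.rfl
  inv_mem' {a} ha z := (ha _).symm.trans (by
    change a (a.symm z) ∈ V ↔ _
    rw [a.apply_symm_apply])

lemma th_mul {V : ValuationSubring Ω} (hk : ∀ c : k, algebraMap k Ω c ∈ V) {g h : Ω ≃ₐ[K] Ω}
    (hg : Stab g V) {z : Ω} (z0 : z ≠ 0) {a b : k} (ha : g z / z - algebraMap k Ω a ∈ V.nonunits)
    (hb : h z / z - algebraMap k Ω b ∈ V.nonunits) :
    (g * h) z / z - algebraMap k Ω (a * b) ∈ V.nonunits := by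
  have h1 := (nu_map (g : Ω →+* Ω) hg _).2 hb
  rw [RingHom.coe_coe, map_sub, fix_const, map_div₀] at h1
  have h2 : g z / z ∈ V := by simpa using V.add_mem _ _ (V.nonunits_subset ha) (hk a)
  have h3 : g z ≠ 0 := (map_ne_zero g).2 z0
  convert nu_add (nu_mul h1 h2) (nu_mul ha (hk b)) using 1
  rw [map_mul, AlgEquiv.mul_apply]
  field_simp
  ring

lemma Cv.tame (D : Cv p q l k K Ω) (w : Ω) (w0 : w ≠ 0) (a : k)
    (h : (D.α D.u ^ q * D.u⁻¹) w = a • w) : a = 1 := by
  have := D.algΩ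
  have hu : D.u ∈ St K D.V0 := D.V0u
  have hα : D.α D.u ∈ St K D.V0 := fun z => by
    rw [D.α_apply, ← D.V0φ, RingEquiv.apply_symm_apply, D.V0u, D.V0φ]
  have h1 : ∀ g : Ω ≃ₐ[K] Ω, Stab g D.V0 → g w / w ∈ D.V0 ∧ g w / w ∉ D.V0.nonunits := fun g hg =>
    val_fix g.toRingEquiv hg w0 _ (orb_fin (E := K) w) fun n => ⟨g ^ n, by
      induction n with
      | zero => rfl
      | succ n ih => rw [pow_succ', pow_succ']; exact congrArg g ih⟩
  obtain ⟨c, hc⟩ := D.res _ D.V0ne D.V0k _ (h1 _ hα).1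
  have h2 : ∀ n : ℕ, (D.α D.u ^ n) w / w - algebraMap k Ω (c ^ n) ∈ D.V0.nonunits := fun n => by
    induction n with
    | zero => simp [w0]
    | succ n ih => rw [pow_succ', pow_succ']; exact th_mul D.V0k hα w0 hc ih
  have h3 := (nu_map (D.φ : Ω →+* Ω) D.V0φ _).2 hc
  have h4 := D.φ_const 1 c
  rw [pow_one, pow_one] at h4
  rw [RingHom.coe_coe, map_sub, h4, map_div₀, D.α_apply, RingEquiv.apply_symm_apply] at h3
  obtain ⟨s, hs, hs'⟩ := D.φ_orb w
  obtain ⟨h5, h6⟩ := val_fix D.φ D.V0φ w0 s hs hs'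
  have h7 := nu_mul (D.inert D.V0ne D.V0k D.V0u h5) (nu_inv h6).2
  have h8 : D.u w / w - algebraMap k Ω (c ^ q) ∈ D.V0.nonunits := by
    convert nu_sub h3 (nu_mul h7 (h1 _ hu).1) using 1
    have : D.φ w ≠ 0 := (map_ne_zero _).2 w0
    have : D.u w ≠ 0 := (map_ne_zero _).2 w0
    rw [map_div₀]
    field_simp
    ring
  have h9 := th_mul (a := a) D.V0k ((St K D.V0).mul_mem ((St K D.V0).pow_mem hα q)
    ((St K D.V0).inv_mem hu)) w0 (by
      rw [h, Algebra.smul_def, mul_div_cancel_right₀ _ w0, sub_self]; exact nu_zero) h8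
  rw [inv_mul_cancel_right] at h9
  have h10 : (a - 1) * c ^ q = 0 := nu_const D.V0k (by
    convert nu_sub (h2 q) h9 using 1
    rw [sub_mul, map_sub, one_mul]
    ring)
  refine sub_eq_zero.1 ((mul_eq_zero.1 h10).resolve_right fun e => (h1 _ hu).2 ?_)
  simpa [e] using h8

open Polynomial in
lemma Cv.huq (D : Cv p q l k K Ω) (N : Subgroup (Ω ≃ₐ[K] Ω)) (h : D.A.Lev l N) :
    D.α D.u ^ q * D.u⁻¹ ∈ N := by
  have := D.closed
  have := D.closedΩ
  have := D.algΩ
  have := h.normal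
  obtain ⟨⟨E, hE⟩, -⟩ := h.adm
  obtain ⟨L, -, -, hL⟩ := level N E hE
  obtain ⟨a, ha⟩ := h.pow (D.α D.u ^ q * D.u⁻¹)
  have ht := D.tame
  generalize D.α D.u ^ q * D.u⁻¹ = g at *
  refine (hL g).2 fun z hz => ?_
  by_contra hne
  let T : Module.End k Ω := (g.restrictScalars k).toLinearMap
  have hT : ∀ (n : ℕ) y, (T ^ n) y = (g ^ n) y := fun n y => by
    induction n with
    | zero => rfl
    | succ n ih => rw [pow_succ', pow_succ']; exact congrArg g ih
  let F : k[X] := ∑ i ∈ Finset.range (l ^ a), Polynomial.X ^ i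
  have h1 : aeval T F (g z - z) = 0 := by
    have : aeval T (F * (Polynomial.X - 1)) z = 0 := by
      rw [geom_sum_mul, map_sub, map_pow, aeval_X, map_one, LinearMap.sub_apply, hT,
        (hL _).1 ha z hz]
      exact sub_self z
    rwa [map_mul, map_sub, aeval_X, map_one] at this
  have h2 : F.eval 1 ≠ 0 := by
    simpa only [F, eval_finsetSum, eval_pow, eval_X, one_pow, Finset.sum_const, Finset.card_range, nsmul_eq_mul, Nat.cast_pow, mul_one, ne_eq, pow_eq_zero_iff', not_and, Decidable.not_not] using fun e => absurd e D.l_ne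
  have F0 : F ≠ 0 := fun e => h2 (by rw [e, eval_zero])
  rw [(IsAlgClosed.splits F).eq_prod_roots, map_mul, Module.End.mul_apply, aeval_C,
    Module.algebraMap_end_apply, smul_eq_zero, leadingCoeff_eq_zero] at h1
  obtain ⟨b, hb, w, w0, hw⟩ := eigen T _ _ (sub_ne_zero.2 hne) (h1.resolve_left F0)
  exact h2 (ht w w0 b hw ▸ (mem_roots F0).1 hb)

/-- What KUM (helper47) proves. -/
structure Cv.Kum (D : Cv p q l k K Ω) : Prop where
  free : ∀ N, D.A.Lev l N → ∀ n m : ℕ, 0 < m → n = l ^ m →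
    Module.Free (ZMod n) (D.A.Hm N (ZMod n)) ∧ Module.Finite (ZMod n) (D.A.Hm N (ZMod n))
  tr0 : ∀ N, D.A.Lev l N → ∀ n m : ℕ, 0 < m → n = l ^ m → ∀ h, h ∉ N →
    ∀ T, D.A.IsAct N (ZMod n) id h T → LinearMap.trace (ZMod n) _ T = 1
  tr : ∀ N, D.A.Lev l N → (∀ a ∈ N, D.α a ∈ N) → ∀ n m : ℕ, 0 < m → n = l ^ m → ∀ j, 0 < j →
    ∀ h T, D.A.IsAct N (ZMod n) (D.α^[j]) h T →
      (q : ZMod n) ^ j * LinearMap.trace (ZMod n) _ T =
        (q : ZMod n) ^ j - ∑ x : D.U j, (Fx.cnt N (D.α^[j]) h (D.f j x) : ZMod n)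

lemma Cv.ctx (D : Cv p q l k K Ω) (h : D.Kum) : Fx.Ctx D.A l q D.α D.u D.U D.f :=
  ⟨D.comap, h.free, h.tr0, h.tr, D.hu, D.huq⟩

end Pool.Agent.MP_855f4c_ag.H7

end

section

attribute [-instance] DistribMulActionSemiHomClass.toAddMonoidHomClass instCoeTCOfCoe
  ContinuousMonoidHom.instCoeOutOfMonoidHomClassOfContinuousMapClass
  Action.FintypeCat.instMulActionObjFiniteOf MonTypeEquivalenceMon.monMonoid
  LieRinehartAlgebra.toIsScalarTower littleWedderburn AlgEquiv.instCoeOutRingEquiv RKHS.instFunLike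
  IdemSemiring.toSemiring RingHomClass.toLinearMapClassNNRat SetLike.GradeZero.instCommSemiring
  SetLike.GradeZero.instSemiring ContinuousSemilinearMapClass.toSemilinearMapClass
  RingConeClass.toSubsemiringClass ValuationClass.toMonoidWithZeroHomClass
  instCoeHTCTOfCoeTailOfCoeHTC SeminormedCommRing.toCommRing

namespace Pool.Agent.MP_855f4c_ag.H7

open Polynomial CategoryTheory CommAlgCat LP IntermediateField

lemma fin_pts (A S Ω : Type) [CommRing A] [CommRing S] [Field Ω] [Algebra A S] [Algebra A Ω]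
    [Module.Finite A S] [Finite (S →ₐ[A] Ω)] : ∃ E : Finset Ω,
      (∀ (s : S →ₐ[A] Ω) z, s z ∈ Algebra.adjoin A (E : Set Ω)) ∧
      ∀ g : Ω ≃ₐ[A] Ω, ∀ z ∈ E, g z ∈ E := by
  classical
  obtain ⟨B, hB⟩ := (inferInstance : Algebra.FiniteType A S).out
  have := Fintype.ofFinite (S →ₐ[A] Ω)
  refine ⟨Finset.univ.biUnion fun s : S →ₐ[A] Ω => B.image s, fun s z => ?_, fun g z hz => ?_⟩
  · have h1 : s z ∈ (Algebra.adjoin A (B : Set S)).map s := ⟨z, hB.ge trivial, rfl⟩
    rw [AlgHom.map_adjoin] at h1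
    refine Algebra.adjoin_mono ?_ h1
    rintro _ ⟨b, hb, rfl⟩
    exact Finset.mem_biUnion.2 ⟨s, Finset.mem_univ _, Finset.mem_image_of_mem _ hb⟩
  · obtain ⟨s, -, hs⟩ := Finset.mem_biUnion.1 hz
    obtain ⟨b, hb, rfl⟩ := Finset.mem_image.1 hs
    exact Finset.mem_biUnion.2 ⟨(g : Ω →ₐ[A] Ω).comp s, Finset.mem_univ _,
      Finset.mem_image_of_mem _ hb⟩

lemma aeval_conj {F H H' : Type} [Field F] [AddCommGroup H] [Module F H] [AddCommGroup H']
    [Module F H'] (E : H ≃ₗ[F] H') {f : Module.End F H} {f' : Module.End F H'}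
    (h : ∀ v, E (f v) = f' (E v)) (P : F[X]) : aeval f P = 0 ↔ aeval f' P = 0 := by
  have : f' = E.conjAlgEquiv F f := LinearMap.ext fun w => by
    rw [← E.apply_symm_apply w, ← h]
    simp [LinearEquiv.conjAlgEquiv_apply]
  rw [this, aeval_algHom_apply, map_eq_zero_iff _ (E.conjAlgEquiv F).injective]

lemma path_zero {A F : Type} [CommRing A] [Field F] [CharZero F] (L : LocSys A F) {C Ω Ω' : Type}
    [CommRing C] [IsDomain C] [Algebra A C] [Field Ω] [Algebra A Ω] [Field Ω'] [Algebra A Ω']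
    (hC : ∀ q : C[X], q.Monic → q.Splits) (a : C →ₐ[A] Ω) (a' : C →ₐ[A] Ω') (g : Ω ≃ₐ[A] Ω)
    (g' : Ω' ≃ₐ[A] Ω') (c : C →ₐ[A] C) (e1 : ∀ z, a (c z) = g (a z))
    (e2 : ∀ z, a' (c z) = g' (a' z)) (P : F[X]) :
    aeval (rho L g) P = 0 ↔ aeval (rho L g') P = 0 := by
  obtain ⟨α, hα⟩ := pa_path hC a a'
  refine aeval_conj (L.mapIso (Core.isoMk α)).toLinearEquiv (pa_sq L α g g' ?_) P
  ext S b
  obtain ⟨s, rfl⟩ := (pa_bij hC a S.unop).2 b
  have e3 : (g : Ω →ₐ[A] Ω).comp (a.comp s) = a.comp (c.comp s) :=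
    AlgHom.ext fun z => (e1 _).symm
  refine (congrArg (α.hom.app S) e3).trans ((hα S _).trans ?_)
  exact (AlgHom.ext fun z => e2 _).trans (congrArg (g' : Ω' →ₐ[A] Ω').comp (hα S s).symm)

variable {p q l : ℕ} {k K Ω : Type} [Field k] [Field K] [Field Ω] [Algebra k K] [Algebra K Ω]
  [Algebra k Ω] [IsScalarTower k K Ω]

/-- Purity at a place of `Ω` from purity at its residue point. -/
lemma Cv.pure (D : Cv p q l k K Ω) {A F κ : Type} [CommRing A] [Algebra A Ω] [Field F] [CharZero F]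
    [Field κ] (e : k ≃+* κ) (L : LocSys A F) (i : ℤ)
    (hP : ∀ [Algebra A κ], (∀ a, algebraMap A Ω a = 0 → algebraMap A κ a = 0) → Pure L i κ)
    {V : ValuationSubring Ω} (hV : V ≠ ⊤) (hk : ∀ c : k, algebraMap k Ω c ∈ V)
    (hA : ∀ a, algebraMap A Ω a ∈ V) (ψ : Ω ≃ₐ[A] Ω) (hψ : Stab ψ V) {Q : ℕ} (hQ : 1 < Q)
    (hc : ∀ c : k, ψ (algebraMap k Ω c) ^ Q = algebraMap k Ω c) :
    ∃ P : ℚ[X], (∀ z : ℂ, aeval z P = 0 → ‖z‖ ^ 2 = (Q : ℝ) ^ i) ∧
      aeval (rho L ψ) (P.map (algebraMap ℚ F)) = 0 := by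
  have := D.closedΩ
  let j : k →+* V := (algebraMap k Ω).codRestrict V.toSubring hk
  have hj : Function.Surjective ((IsLocalRing.residue V).comp j) := fun w => by
    obtain ⟨z, rfl⟩ := IsLocalRing.residue_surjective w
    obtain ⟨c, hc⟩ := D.res V hV hk z z.2
    refine ⟨c, (sub_eq_zero.1 ?_).symm⟩
    rw [RingHom.comp_apply, ← map_sub, IsLocalRing.residue_eq_zero_iff, ← V.coe_mem_nonunits_iff]
    exact hc
  let E := (RingEquiv.ofBijective _ ⟨RingHom.injective _, hj⟩).symm.trans e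
  let _ : Algebra A V := ((algebraMap A Ω).codRestrict V.toSubring hA).toAlgebra
  let r : V →+* κ := E.toRingHom.comp (IsLocalRing.residue V)
  let _ : Algebra A κ := (r.comp (algebraMap A V)).toAlgebra
  let γ : V ≃+* V :=
    { toFun := fun z => ⟨ψ z, (hψ _).2 z.2⟩
      invFun := fun z => ⟨ψ.symm z, (hψ _).1 ((ψ.apply_symm_apply z).symm ▸ z.2)⟩
      left_inv := fun z => Subtype.ext (ψ.symm_apply_apply z)
      right_inv := fun z => Subtype.ext (ψ.apply_symm_apply z)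
      map_mul' := fun a b => Subtype.ext (map_mul ψ a.1 b.1)
      map_add' := fun a b => Subtype.ext (map_add ψ a.1 b.1) }
  have hγ : ∀ a, γ (algebraMap A V a) = algebraMap A V a := fun a => Subtype.ext (ψ.commutes a)
  let g := (E.symm.trans (IsLocalRing.ResidueField.mapEquiv γ)).trans E
  have hg : ∀ z, g (r z) = r (γ z) := fun z => by
    change E (IsLocalRing.ResidueField.mapEquiv γ (E.symm (E _))) = _
    rw [E.symm_apply_apply]
    rfl
  let ψ' : κ ≃ₐ[A] κ := { g with commutes' := fun a => (hg _).trans (congrArg r (hγ a)) }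
  obtain ⟨P, -, h1, h2⟩ := hP (fun a ha => by
    change r _ = 0
    rw [show algebraMap A V a = 0 from Subtype.ext ha, map_zero]) ψ' Q hQ fun w => by
      obtain ⟨w, rfl⟩ := E.surjective w
      obtain ⟨c, rfl⟩ := hj w
      change g (r (j c)) ^ Q = r (j c)
      rw [hg, ← map_pow]
      exact congrArg r (Subtype.ext (hc c))
  exact ⟨P, h1, (path_zero L (val_splits (C := V) Subtype.val_injective
    fun z hz => IsIntegrallyClosed.isIntegral_iff.1 hz)
    { V.subtype with commutes' := fun _ => rfl } { r with commutes' := fun _ => rfl } ψ ψ'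
    { γ.toRingHom with commutes' := hγ } (fun _ => rfl) (fun z => (hg z).symm) _).2 h2⟩

/-- The theorem for a curve. -/
lemma Cv.main (D : Cv p q l k K Ω) (hD : D.Kum) [Fact l.Prime] {A κ : Type} [CommRing A]
    [Algebra A Ω] [Field κ] (e : k ≃+* κ) (L : LocSys A ℚ_[l]) (i : ℤ)
    (hP : ∀ [Algebra A κ], (∀ a, algebraMap A Ω a = 0 → algebraMap A κ a = 0) → Pure L i κ)
    {d : ℕ} (b : Module.Basis (Fin d) ℚ_[l] (L.obj ⟨FiniteEtale.fiber.{0} A Ω⟩))
    (h1 : ∀ (g : Ω ≃ₐ[A] Ω) x y, ‖LinearMap.toMatrix b b (rho L g) x y‖ ≤ 1)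
    (S : ℕ → (FiniteEtale.{0} A)ᵒᵖ) (h2 : ∀ n (g : Ω ≃ₐ[A] Ω), NatTrans.app (act g).hom (S n) = 𝟙 _ →
      ∀ x y, ‖(LinearMap.toMatrix b b (rho L g) - 1) x y‖ ≤ ‖(l : ℚ_[l]) ^ n‖)
    (hA : ∀ a, algebraMap A Ω a ∈ Algebra.adjoin k (algebraMap K Ω '' D.T))
    (hS : ∀ (s : (S 2).unop →ₐ[A] Ω) z, s z ∈ (algebraMap K Ω).range)
    (φ u : Ω ≃ₐ[A] Ω) (hφ : ∀ z, φ⁻¹ z = D.φ z) (hu : ∀ z, u z = D.u z) :
    MwPure q i (rho L φ) (rho L u) := by
  have hK : ∀ (g : Ω ≃ₐ[K] Ω) a, g (algebraMap A Ω a) = algebraMap A Ω a := fun g a =>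
    (Algebra.adjoin_le (S := AlgHom.equalizer (g.restrictScalars k : Ω →ₐ[k] Ω) (AlgHom.id k Ω))
      (by rintro _ ⟨f, -, rfl⟩; exact g.commutes f)) (hA a)
  let ι : (Ω ≃ₐ[K] Ω) →* (Ω ≃ₐ[A] Ω) :=
    { toFun := fun g => { g.toRingEquiv with commutes' := hK g }
      map_one' := rfl
      map_mul' := fun _ _ => rfl }
  have hV : ∀ V, Pt k D.T V → ∀ a, algebraMap A Ω a ∈ V := fun V h a =>
    adjoin_mem h.const (by rintro _ ⟨f, hf, rfl⟩; exact h.reg f hf) (hA a)
  have hinj : Function.Injective fun M : Matrix (Fin d) (Fin d) ℤ_[l] =>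
      M.map (algebraMap ℤ_[l] ℚ_[l]) := Matrix.map_injective Subtype.val_injective
  let ρ0 : (Ω ≃ₐ[A] Ω) → Matrix (Fin d) (Fin d) ℤ_[l] := fun g x y => ⟨_, h1 g x y⟩
  have hρ : ∀ g, (ρ0 g).map (algebraMap ℤ_[l] ℚ_[l]) = LinearMap.toMatrix b b (rho L g) :=
    fun g => rfl
  let ρ : (Ω ≃ₐ[A] Ω) →* Matrix (Fin d) (Fin d) ℤ_[l] :=
    { toFun := ρ0
      map_one' := hinj (by
        simp only [hρ, pa_one, LinearMap.toMatrix_one]
        exact (Matrix.map_one _ (map_zero _) (map_one _)).symm)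
      map_mul' := fun g h => hinj (by
        simp only [Matrix.map_mul, hρ, pa_mul, LinearMap.toMatrix_mul]) }
  have hE : ∀ g v, b.equivFun (rho L g v) =
      Matrix.toLin' ((ρ g).map (algebraMap ℤ_[l] ℚ_[l])) (b.equivFun v) := fun g v =>
    (LinearMap.toMatrix_mulVec_repr b b (rho L g) v).symm
  have h3 : ∀ n (g : Ω ≃ₐ[K] Ω), (∀ (s : (S n).unop →ₐ[A] Ω) z, g (s z) = s z) →
      ∀ x y, (l : ℤ_[l]) ^ n ∣ (ρ (ι g) - 1) x y := fun n g hg x y => by
    rw [← Ideal.mem_span_singleton, ← PadicInt.norm_le_pow_iff_mem_span_pow, ← Padic.norm_p_pow]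
    convert h2 n (ι g) (by ext s; exact AlgHom.ext (hg s)) x y using 1
    rw [← hρ, PadicInt.norm_def]
    congr 1
    by_cases h : x = y <;> simp [h, ρ]
  have h4 : ∀ g x y, (l : ℤ_[l]) ^ 2 ∣ (ρ (ι g) - 1) x y := fun g => h3 2 g fun s z => by
    obtain ⟨f, hf⟩ := hS s z
    rw [← hf, g.commutes]
  have hpow : ∀ (m : ℕ) z, (φ⁻¹ ^ m) z = (D.φ ^ m) z := fun m z => by
    induction m with
    | zero => rfl
    | succ m ih => rw [pow_succ', pow_succ']; exact (hφ _).trans (congrArg D.φ ih)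
  obtain ⟨C, hC⟩ := D.card_U
  have key := Wt.wm_of_ctx (D.ctx hD) D.one_lt ι φ⁻¹ (fun g => AlgEquiv.ext fun z => by
      change φ⁻¹ (D.φ.symm (g (D.φ z))) = g (φ⁻¹ z)
      rw [hφ, hφ, RingEquiv.apply_symm_apply]) ρ
    ⟨fun g x y => (dvd_pow_self _ two_ne_zero).trans (h4 g x y), fun n => ?_⟩ C
    (fun m _ => by rw [← Nat.card_eq_fintype_card]; exact_mod_cast (hC m).2) D.ne_U (h4 _) i
    fun m hm x => ?_
  · rw [inv_inv, show ι D.u = u from AlgEquiv.ext fun z => (hu z).symm] at key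
    exact pa_tr b.equivFun (hE φ) (hE u) key
  · obtain ⟨E, hE, -⟩ := fin_pts A (S n).unop Ω
    let M : Subgroup (Ω ≃ₐ[K] Ω) :=
      { carrier := {g | ∀ (s : (S n).unop →ₐ[A] Ω) z, g (s z) = s z}
        mul_mem' := fun {g h} hg hh s z => by rw [AlgEquiv.mul_apply, hh, hg]
        one_mem' := fun _ _ => rfl
        inv_mem' := fun {g} hg s z => g.injective (by rw [hg]; exact g.apply_symm_apply _) }
    refine ⟨M, ⟨⟨E, fun g hg s z => ?_⟩, fun V h g hg s z => ?_⟩, h3 n⟩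
    · exact (Algebra.adjoin_le (S := AlgHom.equalizer (ι g : Ω →ₐ[A] Ω) (AlgHom.id A Ω)) hg)
        (hE s z)
    · let _ : Algebra A V := ((algebraMap A Ω).codRestrict V.toSubring (hV V h)).toAlgebra
      have h5 : ∀ (s : (S n).unop →ₐ[A] Ω) z, s z ∈ V := fun s z =>
        val_int V (hV V h) ((Algebra.IsIntegral.isIntegral z).map s)
      let t : ((S n).unop →ₐ[A] Ω) → ((S n).unop →ₐ[A] V) := fun s =>
        { s.toRingHom.codRestrict V.toSubring (h5 s) with
          commutes' := fun a => Subtype.ext (s.commutes a) }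
      have := uq (t ((ι g : Ω →ₐ[A] Ω).comp s)) (t s) (IsLocalRing.residue V) fun z => by
        rw [← sub_eq_zero, ← map_sub, IsLocalRing.residue_eq_zero_iff, ← V.coe_mem_nonunits_iff]
        exact D.inert h.ne h.const hg (h5 s z)
      exact congrArg Subtype.val (DFunLike.congr_fun this z)
  · obtain ⟨V, h, -, hs⟩ := D.f_spec m x
    have h5 : ∀ z, (φ⁻¹ ^ m * ι (D.f m x)) z = (D.φ ^ m) (D.f m x z) := fun z => hpow m _
    generalize φ⁻¹ ^ m * ι (D.f m x) = ψ at h5
    obtain ⟨P, h6, h7⟩ := D.pure e L i hP h.ne h.const (hV V h) ψ⁻¹ (fun z => by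
      have := hs (ψ⁻¹ z)
      simp only [← h5] at this
      exact this.symm.trans (by rw [show ψ (ψ⁻¹ z) = z from ψ.apply_symm_apply z]))
      (Nat.one_lt_pow hm.ne' D.one_lt) fun c => ψ.injective (by
        rw [map_pow, show ψ (ψ⁻¹ _) = _ from ψ.apply_symm_apply _, h5, fix_const, D.φ_const,
          map_pow])
    exact ⟨P, h6, (aeval_conj b.equivFun (hE _) _).1 h7⟩

end Pool.Agent.MP_855f4c_ag.H7

end

section

attribute [-instance] Subfield.instIsScalarTowerSubtypeMem Module.free_of_finite_type_torsion_free'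
  LieRinehartAlgebra.toIsScalarTower StarAlgHom.instCoeAlgHom
  ContinuousMonoidHom.instCoeOutOfMonoidHomClassOfContinuousMapClass MonTypeEquivalenceMon.monMonoid
  Algebra.WeaklyEtale.flat RingHomClass.toLinearMapClassNNRat RingConeClass.toSubsemiringClass
  BialgEquivClass.toBialgHomClass UniformSpace.toTopologicalSpace
  IsPurelyInseparable.instOfHasExponent IdemSemiring.toSemiring SetLike.GradeZero.instCommRing
  SetLike.GradeZero.instSemiring NormMulClass.toNoZeroDivisors NormedSpace.toModule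
  instCoeOutOfCoeFun instCharZeroOfIsSemireal SetLike.GradeZero.instCommSemiring RKHS.instFunLike
  IsometryClass.instCoeOutIsometryEquiv instCoeHTCTOfCoeTailOfCoeHTC
  ContinuousSemilinearMapClass.toSemilinearMapClass LieAdmissibleAlgebra.toModule
  HomeomorphClass.instCoeOutHomeomorph littleWedderburn Algebra.Smooth.flat
  IsAffineAddMonoid.toIsCancelAdd GradedMonoid.GradeZero.smul Algebra.IsFiniteSplit.instFree
  LeftPreLieAlgebra.toModule RightPreLieAlgebra.toModule SetLike.GradeZero.instRing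
  CoalgHomClass.toSemilinearMapClass RingHomClass.toLinearMapClassRat
  instNonUnitalAlgHomClassOfNonUnitalAlgEquivClass
  ContinuousAddMonoidHom.instCoeOutOfAddMonoidHomClassOfContinuousMapClass

namespace Pool.Agent.MP_855f4c_ag.H7

open Polynomial CategoryTheory CommAlgCat LP IntermediateField

lemma per_iff {p : ℕ} [Fact p.Prime] {Ω : Type} [Field Ω] [Algebra (ZMod p) Ω] (c : Ω) :
    IsAlgebraic (ZMod p) c ↔ ∃ n, n ≠ 0 ∧ c ^ p ^ n = c := by
  refine ⟨fun h => ?_, fun ⟨n, hn, h⟩ => ⟨X ^ p ^ n - X,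
    FiniteField.X_pow_card_pow_sub_X_ne_zero _ hn (Fact.out : p.Prime).one_lt, by simp [h]⟩⟩
  have := adjoin.finiteDimensional h.isIntegral
  have : Finite (ZMod p)⟮c⟯ := Module.finite_of_finite (ZMod p)
  have := Fintype.ofFinite (ZMod p)⟮c⟯
  have h1 := FiniteField.pow_card (AdjoinSimple.gen (ZMod p) c)
  rw [Module.card_eq_pow_finrank (K := ZMod p), ZMod.card] at h1
  exact ⟨_, Module.finrank_pos.ne', congrArg Subtype.val h1⟩

lemma alg_sub (R E : Type) [CommRing R] [IsDomain R] [Field E] [IsAlgClosed E] [Algebra R E] :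
    ∃ F : Subfield E, (∀ z, z ∈ F ↔ IsAlgebraic R z) ∧ IsAlgClosed F := by
  let F : Subfield E :=
    { carrier := {z | IsAlgebraic R z}
      mul_mem' := IsAlgebraic.mul
      one_mem' := isAlgebraic_one
      add_mem' := IsAlgebraic.add
      zero_mem' := isAlgebraic_zero
      neg_mem' := IsAlgebraic.neg
      inv_mem' := fun _ => IsAlgebraic.inv }
  refine ⟨F, fun _ => Iff.rfl, IsAlgClosed.of_exists_root _ fun f hf hi => ?_⟩
  let _ : Algebra R F := ((algebraMap R E).codRestrict F isAlgebraic_algebraMap).toAlgebra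
  have : IsScalarTower R F E := IsScalarTower.of_algebraMap_eq fun _ => rfl
  have : Algebra.IsAlgebraic R F :=
    ⟨fun z => (isAlgebraic_algebraMap_iff (A := E) Subtype.val_injective).1 z.2⟩
  obtain ⟨z, hz⟩ := IsAlgClosed.exists_aeval_eq_zero E f (degree_pos_of_irreducible hi).ne'
  refine ⟨⟨z, IsIntegral.trans_isAlgebraic R (S := F) ⟨f, hf, hz⟩⟩, Subtype.ext ?_⟩
  exact (aeval_algebraMap_apply E (⟨z, _⟩ : F) f).symm.trans hz

lemma per_fin {A Ω : Type} [CommRing A] [Field Ω] [Algebra A Ω] (g : Ω ≃ₐ[A] Ω) (E : Finset Ω)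
    (h : ∀ g : Ω ≃ₐ[A] Ω, ∀ z ∈ E, g z ∈ E) : ∃ m, m ≠ 0 ∧ ∀ z ∈ E, (g ^ m) z = z := by
  obtain ⟨i, j, hij, e⟩ := Set.finite_univ.exists_lt_map_eq_of_forall_mem
    (f := fun (n : ℕ) (z : E) => (⟨(g ^ n) z, h _ _ z.2⟩ : E)) fun _ => Set.mem_univ _
  obtain ⟨d, rfl⟩ := Nat.exists_eq_add_of_lt hij
  refine ⟨d + 1, d.succ_ne_zero, fun z hz => (g ^ i).injective ?_⟩
  rw [← AlgEquiv.mul_apply, ← pow_add, ← add_assoc]
  exact (congrArg Subtype.val (congrFun e ⟨z, hz⟩)).symm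

/-- The statement of KUM. -/
def KumAll : Prop := ∀ (p q l : ℕ) (k K Ω : Type) [Field k] [Field K] [Field Ω] [Algebra k K]
  [Algebra K Ω] [Algebra k Ω] [IsScalarTower k K Ω] (D : Cv p q l k K Ω), D.Kum

lemma mid (hk : KumAll) (p l : ℕ) [Fact p.Prime] [Fact l.Prime] (hlp : l ≠ p) {A Ω : Type}
    [CommRing A] [Field Ω] [IsAlgClosed Ω] [Algebra A Ω] [Algebra (ZMod p)[X] Ω]
    [Algebra.IsAlgebraic (ZMod p)[X] Ω] (hinj : Function.Injective (algebraMap (ZMod p)[X] Ω))
    (L : LocSys A ℚ_[l]) (hL : Lisse L) (i : ℤ) (s : Finset A) (hs : ∀ a, algebraMap A Ω a ∈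
      Subring.closure (algebraMap A Ω '' s ∪ {c | ∃ n, n ≠ 0 ∧ c ^ p ^ n = c}))
    (hP : ∀ [Algebra A (AlgebraicClosure (ZMod p))],
      (∀ a, algebraMap A Ω a = 0 → algebraMap A (AlgebraicClosure (ZMod p)) a = 0) →
      Pure L i (AlgebraicClosure (ZMod p)))
    (φ u : Ω ≃ₐ[A] Ω) (Q : ℕ) (hQ : 1 < Q) (V : ValuationSubring Ω) (hV : V ≠ ⊤) (hφV : Stab φ V)
    (huV : Stab u V) (ξ : Ω) (hξ : algebraMap (ZMod p)[X] Ω X = ξ) (hφX : φ ξ = ξ) (huX : u ξ = ξ)
    (hφc : ∀ c n, n ≠ 0 → c ^ p ^ n = c → φ c ^ Q - c ∈ V.nonunits)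
    (huc : ∀ c n, n ≠ 0 → c ^ p ^ n = c → u c - c ∈ V.nonunits)
    (n : ℕ) (x : Ω) (hx : x ^ l ^ n = ξ) (hux : u x ≠ x) : MwPure Q i (rho L φ) (rho L u) := by
  classical
  have hp : p.Prime := Fact.out
  have hl : l.Prime := Fact.out
  let _ : Algebra (ZMod p) Ω := ((algebraMap (ZMod p)[X] Ω).comp C).toAlgebra
  have : CharP Ω p := charP_of_injective_algebraMap (algebraMap (ZMod p) Ω).injective p
  have : IsScalarTower (ZMod p) (ZMod p)[X] Ω := IsScalarTower.of_algebraMap_eq fun _ => rfl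
  have hev : ∀ f : (ZMod p)[X], aeval ξ f = algebraMap (ZMod p)[X] Ω f := fun f => by
    rw [← hξ, aeval_algebraMap_apply, aeval_X_left_apply]
  have ξ0 : ξ ≠ 0 := fun e => X_ne_zero (hinj (hξ.trans (e.trans (map_zero _).symm)))
  obtain ⟨k, hk1, hk2⟩ := alg_sub (ZMod p) Ω
  have hk3 : ∀ z, z ∈ k ↔ ∃ n, n ≠ 0 ∧ z ^ p ^ n = z := fun z => (hk1 z).trans (per_iff z)
  have hk4 : ∀ (g : Ω ≃ₐ[A] Ω), ∀ z ∈ k, g z ∈ k := fun g z hz => by
    obtain ⟨n, hn, h⟩ := (hk3 z).1 hz
    exact (hk3 _).2 ⟨n, hn, by rw [← map_pow, h]⟩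
  have hk5 : ∀ (z : Ω) (N : ℕ), N ≠ 0 → z ^ N = 1 → z ∈ k := fun z N hN h =>
    (hk1 z).2 (IsAlgebraic.of_pow (Nat.pos_of_ne_zero hN) (h ▸ isAlgebraic_one))
  have hVk : ∀ c : k, algebraMap k Ω c ∈ V := fun c => val_int (O := ZMod p) V (fun o => by
    obtain ⟨o, rfl⟩ := ZMod.natCast_zmod_surjective o
    rw [map_natCast]
    exact natCast_mem V o) ((hk1 _).1 c.2).isIntegral
  have hφk : ∀ z ∈ k, φ z ^ Q = z := fun z hz => by
    obtain ⟨n, hn, h⟩ := (hk3 z).1 hz
    exact sub_eq_zero.1 (congrArg Subtype.val (nu_const hVk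
      (c := ⟨_, sub_mem (pow_mem (hk4 φ z hz) Q) hz⟩) (hφc z n hn h)))
  have huk : ∀ z ∈ k, u z = z := fun z hz => by
    obtain ⟨n, hn, h⟩ := (hk3 z).1 hz
    exact sub_eq_zero.1 (congrArg Subtype.val (nu_const hVk
      (c := ⟨_, sub_mem (hk4 u z hz) hz⟩) (huc z n hn h)))
  have hQp : ∃ e, e ≠ 0 ∧ Q = p ^ e := by
    have h : Q = p ^ _ := Nat.eq_prime_pow_of_unique_prime_dvd (by omega) fun {d} hd hdQ => by
      by_contra hne
      have : NeZero (d : Ω) := ⟨fun h =>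
        hne ((Nat.prime_dvd_prime_iff_eq hp hd).1 ((CharP.cast_eq_zero_iff Ω p d).1 h)).symm⟩
      have : NeZero d := ⟨hd.ne_zero⟩
      obtain ⟨ζ, hζ⟩ := HasEnoughRootsOfUnity.exists_primitiveRoot Ω d
      refine hζ.ne_one hd.one_lt ?_
      rw [← hφk ζ (hk5 ζ d hd.ne_zero hζ.pow_eq_one), ← map_pow, (hζ.pow_eq_one_iff_dvd Q).2 hdQ,
        map_one]
    exact ⟨_, fun e => by rw [e, pow_zero] at h; omega, h⟩
  obtain ⟨d, b, h1, h2⟩ := hL
  choose S h2 using h2
  obtain ⟨E, hE, hE'⟩ := fin_pts A (S 2).unop Ω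
  obtain ⟨m, hm, hmE⟩ := per_fin u E hE'
  have hfix : ∀ z, u z = z → ∀ m : ℕ, (u ^ m) z = z := fun z hz m => by
    induction m with
    | zero => rfl
    | succ m ih => rw [pow_succ, AlgEquiv.mul_apply, hz, ih]
  have hpV : ∀ (m : ℕ) z, (u ^ m) z ∈ V ↔ z ∈ V := fun m z => by
    induction m with
    | zero => rfl
    | succ m ih => rw [pow_succ', AlgEquiv.mul_apply, huV, ih]
  have hex : ∃ n, ¬ ∀ r, r ^ l ^ n = ξ → (u ^ m) r = r := by
    refine ⟨m + n, fun h => hux ?_⟩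
    obtain ⟨r, hr⟩ := IsAlgClosed.exists_pow_nat_eq x (pow_pos hl.pos m)
    have h3 : r ^ l ^ (m + n) = ξ := by rw [pow_add, pow_mul, hr, hx]
    have r0 : r ≠ 0 := fun e => ξ0 (by rw [← h3, e, zero_pow (pow_pos hl.pos _).ne'])
    have h4 : (u r / r) ^ l ^ (m + n) = 1 := by rw [div_pow, ← map_pow, h3, huX, div_self ξ0]
    have h5 : ∀ a : ℕ, (u ^ a) r = (u r / r) ^ a * r := fun a => by
      induction a with
      | zero => simp
      | succ a ih =>
        rw [pow_succ', AlgEquiv.mul_apply, ih, map_mul, map_pow,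
          huk _ (hk5 _ _ (pow_pos hl.pos _).ne' h4), pow_succ, mul_assoc, div_mul_cancel₀ _ r0]
    have h6 : (u r / r) ^ m = 1 :=
      mul_right_cancel₀ r0 ((h5 m).symm.trans ((h r h3).trans (one_mul r).symm))
    obtain ⟨a, -, ha⟩ := (Nat.dvd_prime_pow hl).1 (orderOf_dvd_of_pow_eq_one h4)
    have h7 : a ≤ m := (Nat.lt_pow_self hl.one_lt).le.trans
      (Nat.le_of_dvd (Nat.pos_of_ne_zero hm) (ha ▸ orderOf_dvd_of_pow_eq_one h6))
    have h8 : (u r / r) ^ l ^ m = 1 := orderOf_dvd_iff_pow_eq_one.1 (ha ▸ pow_dvd_pow l h7)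
    rw [div_pow, ← map_pow, hr, div_eq_one_iff_eq (hr ▸ pow_ne_zero _ r0)] at h8
    exact h8
  obtain ⟨j, hj⟩ := Nat.exists_eq_succ_of_ne_zero (n := Nat.find hex) fun e =>
    Nat.find_spec hex fun r hr => by
      rw [e, pow_zero, pow_one] at hr
      exact hr ▸ hfix _ (hr ▸ huX) m
  have h3 := Nat.find_spec hex
  have h4 := not_not.1 (Nat.find_min hex (m := j) (by omega))
  rw [hj] at h3
  push Not at h3
  obtain ⟨r, hr, hur⟩ := h3
  have ht : (r ^ l) ^ l ^ j = ξ := by rw [← pow_mul, ← pow_succ', hr]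
  have t0 : r ^ l ≠ 0 := fun e => ξ0 (by rw [← ht, e, zero_pow (pow_pos hl.pos _).ne'])
  let S0 : Set Ω := algebraMap A Ω '' s ∪ E ∪ {ξ, r ^ l}
  let K := adjoin k S0
  have hK : ∀ z ∈ S0, z ∈ K := fun z hz => subset_adjoin k S0 hz
  have hKk : ∀ z ∈ k, z ∈ K := fun z hz => K.algebraMap_mem ⟨z, hz⟩
  have hξK : ξ ∈ K := hK _ (Or.inr (Or.inl rfl))
  have htK : r ^ l ∈ K := hK _ (Or.inr (Or.inr rfl))
  have hst : ∀ g : Ω ≃ₐ[A] Ω, g ξ = ξ → ∀ z ∈ K, g z ∈ K := fun g hg z hz => by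
    induction hz using IntermediateField.adjoin_induction with
    | mem z hz =>
      rcases hz with (⟨a, ha, rfl⟩ | hz) | rfl | rfl
      · rw [g.commutes]; exact hK _ (Or.inl (Or.inl ⟨a, ha, rfl⟩))
      · exact hK _ (Or.inl (Or.inr (hE' g z hz)))
      · rwa [hg]
      · rw [← div_mul_cancel₀ (g _) t0]
        exact mul_mem (hKk _ (hk5 _ _ (pow_pos hl.pos j).ne' (by
          rw [div_pow, ← map_pow, ht, hg, div_self ξ0]))) htK
    | algebraMap c => exact hKk _ (hk4 g c c.2)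
    | add x y _ _ hx hy => rw [map_add]; exact add_mem hx hy
    | inv x _ hx => rw [map_inv₀]; exact inv_mem hx
    | mul x y _ _ hx hy => rw [map_mul]; exact mul_mem hx hy
  have hfK : ∀ z ∈ K, (u ^ m) z = z := fun z hz => by
    induction hz using IntermediateField.adjoin_induction with
    | mem z hz =>
      rcases hz with (⟨a, ha, rfl⟩ | hz) | rfl | rfl
      · exact AlgEquiv.commutes _ a
      · exact hmE z hz
      · exact hfix _ huX m
      · exact h4 _ ht
    | algebraMap c => exact hfix _ (huk c c.2) m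
    | add x y _ _ hx hy => rw [map_add, hx, hy]
    | inv x _ hx => rw [map_inv₀, hx]
    | mul x y _ _ hx hy => rw [map_mul, hx, hy]
  have hφX' : φ.symm ξ = ξ := φ.symm_apply_eq.2 hφX.symm
  let _ : Algebra (ZMod p) k := ((algebraMap (ZMod p) Ω).codRestrict k
    fun c => (hk1 _).2 (isAlgebraic_algebraMap c)).toAlgebra
  have : IsScalarTower (ZMod p) k Ω := IsScalarTower.of_algebraMap_eq fun _ => rfl
  have hka : Algebra.IsAlgebraic (ZMod p) k :=
    ⟨fun z => (isAlgebraic_algebraMap_iff (A := Ω) Subtype.val_injective).1 ((hk1 _).1 z.2)⟩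
  have : IsAlgClosure (ZMod p) k := ⟨hk2, hka⟩
  let XK : K := ⟨ξ, hξK⟩
  have hF : Algebra.IsAlgebraic k⟮XK⟯ Ω := ⟨fun z => by
    let f : (ZMod p)[X] →+* k⟮XK⟯ := eval₂RingHom ((algebraMap k _).comp (algebraMap (ZMod p) k))
      (AdjoinSimple.gen k XK)
    have hf : (algebraMap k⟮XK⟯ Ω).comp f = (RingHom.id Ω).comp (algebraMap (ZMod p)[X] Ω) :=
      Polynomial.ringHom_ext' (RingHom.ext_zmod _ _) (by
        rw [RingHom.comp_apply, coe_eval₂RingHom, eval₂_X]
        exact hξ.symm)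
    exact (Algebra.IsAlgebraic.isAlgebraic z).ringHom_of_comp_eq f (RingHom.id Ω)
      (Function.Injective.of_comp (f := algebraMap k⟮XK⟯ Ω) (by
        rw [← RingHom.coe_comp, hf]; exact hinj)) hf⟩
  let D : Cv p Q l k K Ω :=
    { hp := hp
      hl := hl
      hlp := hlp
      char := inferInstance
      closed := hk2
      alg := fun c => by
        obtain ⟨n, hn, h⟩ := (hk3 c).1 c.2
        exact ⟨n, hn, Subtype.ext h⟩
      closedΩ := inferInstance
      algΩ := Algebra.IsAlgebraic.tower_top (K := k⟮XK⟯) K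
      hq := hQp
      X := XK
      tr := (transcendental_algebraMap_iff (algebraMap K Ω).injective).1
        ((Algebra.IsAlgebraic.transcendental_iff (ZMod p) k).1 fun ⟨f, hf, e⟩ =>
          hf (hinj ((hev f).symm.trans (e.trans (map_zero _).symm))))
      fd := by
        have : Algebra.EssFiniteType k K := essFiniteType_iff.2 (fg_adjoin_of_finite
          (((s.finite_toSet.image _).union E.finite_toSet).union (Set.toFinite _)))
        have := Algebra.EssFiniteType.of_comp k k⟮XK⟯ K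
        have : Algebra.IsAlgebraic k⟮XK⟯ K := Algebra.IsAlgebraic.tower_bot k⟮XK⟯ K Ω
        exact Algebra.finite_of_essFiniteType_of_isAlgebraic
      T := s.attach.image (fun a => ⟨algebraMap A Ω a.1, hK _ (Or.inl (Or.inl ⟨a.1, a.2, rfl⟩))⟩) ∪
        {XK, XK⁻¹}
      hX := by simp only [Finset.union_insert, Finset.union_singleton, Finset.mem_insert, Finset.mem_image, Finset.mem_attach, true_and, Subtype.exists, true_or]
      hX' := by simp only [Finset.union_insert, Finset.union_singleton, Finset.mem_insert, Finset.mem_image, Finset.mem_attach, true_and, Subtype.exists, true_or, or_true]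
      φ := φ.symm.toRingEquiv
      σ :=
        { toFun := fun z => ⟨φ.symm z, hst _ hφX' z z.2⟩
          invFun := fun z => ⟨φ z, hst _ hφX z z.2⟩
          left_inv := fun z => Subtype.ext (φ.apply_symm_apply z)
          right_inv := fun z => Subtype.ext (φ.symm_apply_apply z)
          map_mul' := fun a b => Subtype.ext (map_mul φ.symm a.1 b.1)
          map_add' := fun a b => Subtype.ext (map_add φ.symm a.1 b.1) }
      hφ := fun _ => rfl
      hk := fun c => Subtype.ext (φ.symm_apply_eq.2 ((hφk c c.2).symm.trans (map_pow φ _ _).symm))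
      hT := fun f hf => Subtype.ext (by
        change φ.symm f = f
        simp only [Finset.mem_union, Finset.mem_image, Finset.mem_insert, Finset.mem_singleton]
          at hf
        rcases hf with ⟨a, -, rfl⟩ | rfl | rfl
        · exact φ.symm.commutes _
        · exact hφX'
        · exact (map_inv₀ φ.symm ξ).trans (congrArg _ hφX'))
      u := { (u ^ m).toRingEquiv with commutes' := fun f => hfK f f.2 }
      V0 := V
      V0ne := hV
      V0k := hVk
      V0φ := fun z => (hφV _).symm.trans (by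
        change φ (φ.symm z) ∈ V ↔ _
        rw [φ.apply_symm_apply])
      V0u := hpV m
      t := ⟨r ^ l, htK⟩
      ht := ⟨j, Subtype.ext ht⟩
      r := r
      hr := rfl
      hur := hur }
  have hA : ∀ a, algebraMap A Ω a ∈ Algebra.adjoin k (algebraMap K Ω '' D.T) := fun a =>
    (Subring.closure_le (t := (Algebra.adjoin k (algebraMap K Ω '' D.T)).toSubring)).2 (by
      rintro _ (⟨a, ha, rfl⟩ | hc)
      · exact Algebra.subset_adjoin ⟨_, Finset.mem_union_left _
          (Finset.mem_image_of_mem _ (Finset.mem_attach s ⟨a, ha⟩)), rfl⟩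
      · exact Subalgebra.algebraMap_mem _ (⟨_, (hk3 _).2 hc⟩ : k)) (hs a)
  have hS : ∀ w ∈ Algebra.adjoin A (E : Set Ω), w ∈ K := fun w hw => by
    induction hw using Algebra.adjoin_induction with
    | mem x hx => exact hK _ (Or.inl (Or.inr hx))
    | algebraMap a =>
      exact (Algebra.adjoin_le (S := K.toSubalgebra) (by rintro _ ⟨f, -, rfl⟩; exact f.2)) (hA a)
    | add x y _ _ hx hy => exact add_mem hx hy
    | mul x y _ _ hx hy => exact mul_mem hx hy
  obtain ⟨a, ha, h⟩ := D.main (hk _ _ _ _ _ _ D)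
    (IsAlgClosure.equiv (ZMod p) k (AlgebraicClosure (ZMod p))).toRingEquiv L i hP (b _)
    (fun g => h1 _ (act g)) S (fun n g => h2 n _ (act g)) hA
    (fun t z => ⟨⟨t z, hS _ (hE t z)⟩, rfl⟩) φ (u ^ m) (fun _ => rfl) fun _ => rfl
  rw [rho_pow, ← pow_mul] at h
  exact ⟨m * a, by positivity, h⟩

lemma top (hk : KumAll) (p l : ℕ) [Fact p.Prime] [Fact l.Prime] (hlp : l ≠ p) {A E : Type}
    [CommRing A] [Field E] [IsAlgClosed E] [Algebra A E] [Algebra (ZMod p)[X] E]
    (hinj : Function.Injective (algebraMap (ZMod p)[X] E))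
    (ha : ∀ a, IsAlgebraic (ZMod p)[X] (algebraMap A E a))
    (L : LocSys A ℚ_[l]) (hL : Lisse L) (i : ℤ) (s : Finset A) (hs : ∀ a, algebraMap A E a ∈
      Subring.closure (algebraMap A E '' s ∪ {c | ∃ n, n ≠ 0 ∧ c ^ p ^ n = c}))
    (hP : ∀ [Algebra A (AlgebraicClosure (ZMod p))],
      (∀ a, algebraMap A E a = 0 → algebraMap A (AlgebraicClosure (ZMod p)) a = 0) →
      Pure L i (AlgebraicClosure (ZMod p)))
    (φ u : E ≃ₐ[A] E) (Q : ℕ) (hQ : 1 < Q) (W : ValuationSubring E) (hφW : Stab φ W)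
    (huW : Stab u W) (hX : algebraMap (ZMod p)[X] E X ∈ W.nonunits)
    (hφ1 : ∀ f, φ (algebraMap (ZMod p)[X] E f) = algebraMap (ZMod p)[X] E f)
    (hu1 : ∀ f, u (algebraMap (ZMod p)[X] E f) = algebraMap (ZMod p)[X] E f)
    (hφc : ∀ c n, n ≠ 0 → c ^ p ^ n = c → φ c ^ Q - c ∈ W.nonunits)
    (huc : ∀ c n, n ≠ 0 → c ^ p ^ n = c → u c - c ∈ W.nonunits)
    (n : ℕ) (x : E) (hx : x ^ l ^ n = algebraMap (ZMod p)[X] E X) (hux : u x ≠ x) :
    MwPure Q i (rho L φ) (rho L u) := by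
  have hp : p.Prime := Fact.out
  have hl : l.Prime := Fact.out
  obtain ⟨Ω, hΩ, hΩc⟩ := alg_sub (ZMod p)[X] E
  let _ : Algebra (ZMod p)[X] Ω := ((algebraMap _ E).codRestrict Ω
    fun f => (hΩ _).2 (isAlgebraic_algebraMap f)).toAlgebra
  have : IsScalarTower (ZMod p)[X] Ω E := IsScalarTower.of_algebraMap_eq fun _ => rfl
  have : Algebra.IsAlgebraic (ZMod p)[X] Ω :=
    ⟨fun z => (isAlgebraic_algebraMap_iff (A := E) Subtype.val_injective).1 ((hΩ _).1 z.2)⟩
  let _ : Algebra A Ω := ((algebraMap A E).codRestrict Ω fun a => (hΩ _).2 (ha a)).toAlgebra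
  have hres : ∀ g : E ≃ₐ[A] E, (∀ f, g (algebraMap (ZMod p)[X] E f) = algebraMap (ZMod p)[X] E f) →
      ∃ g' : Ω ≃ₐ[A] Ω, ∀ z : Ω, (g' z : E) = g z := fun g h => by
    let G : E ≃ₐ[(ZMod p)[X]] E := { g.toRingEquiv with commutes' := h }
    exact ⟨{ toFun := fun z => ⟨g z, (hΩ _).2 (((hΩ _).1 z.2).algHom (G : E →ₐ[_] E))⟩
             invFun := fun z => ⟨g.symm z, (hΩ _).2 (((hΩ _).1 z.2).algHom (G.symm : E →ₐ[_] E))⟩
             left_inv := fun z => Subtype.ext (g.symm_apply_apply z)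
             right_inv := fun z => Subtype.ext (g.apply_symm_apply z)
             map_mul' := fun a b => Subtype.ext (map_mul g a.1 b.1)
             map_add' := fun a b => Subtype.ext (map_add g a.1 b.1)
             commutes' := fun a => Subtype.ext (g.commutes a) }, fun _ => rfl⟩
  obtain ⟨φ', hφ'⟩ := hres φ hφ1
  obtain ⟨u', hu'⟩ := hres u hu1
  have hV := nu_map (V := W) (x := W.comap Ω.subtype) Ω.subtype fun _ => Iff.rfl
  refine path_pure L (C := Ω) (fun f _ => IsAlgClosed.splits f)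
    { Ω.subtype with commutes' := fun _ => rfl } (AlgHom.id A Ω) φ u φ' u' φ' u' hφ' hu'
    (fun _ _ _ _ _ _ _ => ⟨rfl, rfl⟩) Q i (mid hk p l hlp (fun f g h =>
      hinj (congrArg Subtype.val h)) L hL i s (fun a => ?_)
      (fun h => hP fun a e => h a (Subtype.ext e)) φ' u' Q hQ (W.comap Ω.subtype) (fun e => ?_)
      (fun z => ?_) (fun z => ?_) _ rfl (Subtype.ext ((hφ' _).trans (hφ1 _)))
      (Subtype.ext ((hu' _).trans (hu1 _))) (fun c m hm h => (hV _).1 ?_)
      (fun c m hm h => (hV _).1 ?_) n ⟨x, (hΩ _).2 (IsAlgebraic.of_pow (pow_pos hl.pos n)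
        (hx ▸ isAlgebraic_algebraMap _))⟩ (Subtype.ext hx)
      fun e => hux ((hu' _).symm.trans (congrArg Subtype.val e)))
  · obtain ⟨y, hy, e⟩ := (Subring.closure_le (t := (Subring.closure (algebraMap A Ω '' s ∪
        {c | ∃ n, n ≠ 0 ∧ c ^ p ^ n = c})).map Ω.subtype)).2 (by
      rintro c (⟨a, ha, rfl⟩ | ⟨m, hm, h⟩)
      · exact ⟨_, Subring.subset_closure (Or.inl ⟨a, ha, rfl⟩), rfl⟩
      · exact ⟨⟨c, (hΩ _).2 ⟨X ^ p ^ m - X, fun e => by
          have := congrArg natDegree e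
          rw [natDegree_sub_eq_left_of_natDegree_lt (by
            simpa using Nat.one_lt_pow hm hp.one_lt), natDegree_X_pow, natDegree_zero] at this
          exact (pow_pos hp.pos m).ne' this, by simp [h]⟩⟩,
          Subring.subset_closure (Or.inr ⟨m, hm, Subtype.ext h⟩), rfl⟩) (hs a)
    exact (Subtype.ext e : y = algebraMap A Ω a) ▸ hy
  · exact nu_not (a := algebraMap (ZMod p)[X] Ω X) (fun h => X_ne_zero (hinj
      ((congrArg Subtype.val h).trans (map_zero _).symm))) (e.ge trivial) ((hV _).1 hX)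
  · change (φ' z : E) ∈ W ↔ _
    rw [hφ']
    exact hφW z
  · change (u' z : E) ∈ W ↔ _
    rw [hu']
    exact huW z
  · change (φ' c : E) ^ Q - c ∈ _
    rw [hφ']
    exact hφc _ m hm (congrArg Subtype.val h)
  · change (u' c : E) - c ∈ _
    rw [hu']
    exact huc _ m hm (congrArg Subtype.val h)

lemma root_one {E : Type} [Field E] {V : ValuationSubring E} {ζ : E} {N : ℕ} (h : ζ ^ N = 1)
    (h1 : ζ - 1 ∈ V.nonunits) (hN : (N : E) ∉ V.nonunits) : ζ = 1 := by
  by_contra hne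
  have hζ : ζ ∈ V := by simpa using V.add_mem _ _ (V.nonunits_subset h1) V.one_mem
  have h2 : ∀ n : ℕ, ∑ i ∈ Finset.range n, ζ ^ i - n ∈ V.nonunits ∧ ζ ^ n - 1 ∈ V.nonunits :=
    fun n => by
      induction n with
      | zero => simp
      | succ n ih =>
        constructor
        · convert nu_add ih.1 ih.2 using 1
          rw [Finset.sum_range_succ]
          push_cast
          ring
        · convert nu_add (nu_mul ih.2 hζ) h1 using 1
          ring
  have h3 := (h2 N).1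
  rw [geom_sum_eq hne, h, sub_self, zero_div] at h3
  exact hN (by simpa only [zero_sub, sub_neg_eq_add, zero_add] using nu_sub nu_zero h3)

/-- Weil II 1.8.4 from KUM. -/
theorem wd_of_kum (hk : KumAll) (p l : ℕ) [Fact p.Prime] [Fact l.Prime] (hlp : l ≠ p) {A : Type}
    [CommRing A] (L : LocSys A ℚ_[l]) (hL : Lisse L) (i : ℤ) [Algebra A (Omp p)]
    (ha : ∀ a, IsAlgebraic (Polynomial (ZMod p)) (algebraMap A (Omp p) a)) (s : Finset A)
    (hs : ∀ a, algebraMap A (Omp p) a ∈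
      Subring.closure (algebraMap A (Omp p) '' s ∪ {c | ∃ n, n ≠ 0 ∧ c ^ p ^ n = c}))
    (hP : ∀ [Algebra A (AlgebraicClosure (ZMod p))],
      (∀ a, algebraMap A (Omp p) a = 0 → algebraMap A (AlgebraicClosure (ZMod p)) a = 0) →
      Pure L i (AlgebraicClosure (ZMod p))) :
    WM L l i (PowerSeries (ZMod p)) (Omp p) := by
  rintro φ u Q hQ ⟨hφ1, hφ2⟩ ⟨hu1, hu2⟩ ⟨n, r, o, hr, hur⟩
  have hp : p.Prime := Fact.out
  have hl : l.Prime := Fact.out
  have := gp_char (p := p)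
  let R := PowerSeries (ZMod p)
  obtain ⟨W, hW, hloc⟩ := IsLocalRing.exists_factor_valuationRing (algebraMap R (Omp p))
  have hnu : ∀ o : R, ¬ IsUnit o → algebraMap R (Omp p) o ∈ W.nonunits := fun o ho =>
    W.coe_mem_nonunits_iff (a := ⟨_, hW o⟩).2 fun h => ho (hloc.map_nonunit o h)
  have hun : ∀ o : R, IsUnit o → algebraMap R (Omp p) o ∉ W.nonunits := by
    rintro _ ⟨o, rfl⟩
    exact nu_not (o.isUnit.map _).ne_zero (map_units_inv (algebraMap R (Omp p)) o ▸ hW _)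
  have hsm : ∀ w, Small R w → w ∈ W.nonunits := by
    rintro w ⟨n, o, c, ho, hc, e⟩
    exact nu_pow (e ▸ nu_mul (hnu o ho) (val_int W hW hc))
  have : Algebra.IsAlgebraic R (Omp p) :=
    (IsFractionRing.comap_isAlgebraic_iff (K := FractionRing R)).2 inferInstance
  have hst : ∀ (g : Omp p ≃ₐ[A] Omp p) (N : ℕ), N ≠ 0 →
      (∀ o, g (algebraMap R (Omp p) o) = algebraMap R (Omp p) o) →
      (∀ z, IsIntegral R z → Small R (g z ^ N - z)) → Stab g W := fun g N hN h1 h2 z => by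
    have e : W.comap (g : Omp p →+* Omp p) = W := val_eq gp_inj _ _
      (fun o => by change g _ ∈ W; rw [h1]; exact hW o) hW fun c hc => by
        rw [← nu_map (V := W) (g : Omp p →+* Omp p) (fun _ => Iff.rfl), RingHom.coe_coe]
        have h3 := hsm _ (h2 c hc)
        refine ⟨fun h => ?_, fun h => nu_pow (n := N) (by simpa using nu_add h3 h)⟩
        obtain ⟨N, rfl⟩ := Nat.exists_eq_succ_of_ne_zero hN
        have h4 := nu_mul h (W.pow_mem (W.nonunits_subset h) N)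
        rw [← pow_succ'] at h4
        simpa using nu_sub h4 h3
    exact SetLike.ext_iff.1 e z
  have hφW := hst φ Q (by omega) hφ1 hφ2
  have huW := hst u 1 one_ne_zero hu1 hu2
  have hper : ∀ (c : Omp p) n, n ≠ 0 → c ^ p ^ n = c → IsIntegral R c := fun c n hn h =>
    ⟨X ^ p ^ n - X, monic_X_pow_sub (by
      rw [degree_X]; exact_mod_cast Nat.one_lt_pow hn hp.one_lt), by simp [h]⟩
  have hev : ∀ f : (ZMod p)[X], algebraMap _ (Omp p) f = algebraMap R (Omp p) (f : R) :=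
    fun f => rfl
  have hX : algebraMap (ZMod p)[X] (Omp p) X = algebraMap R (Omp p) PowerSeries.X := by
    rw [hev, Polynomial.coe_X]
  have hN : l ^ n ≠ 0 := (pow_pos hl.pos n).ne'
  obtain ⟨x, hx⟩ := IsAlgClosed.exists_pow_nat_eq (algebraMap (ZMod p)[X] (Omp p) X)
    (Nat.pos_of_ne_zero hN)
  have x0 : x ≠ 0 := fun e => gp_X (p := p) (by rw [← hX, ← hx, e, zero_pow hN])
  have hux : u x ≠ x := fun e => hur (by
    have o0 : o ≠ 0 := fun e => hur (by
      rw [e, map_zero, pow_eq_zero_iff hN] at hr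
      rw [hr, map_zero])
    obtain ⟨a, ε, rfl⟩ := IsDiscreteValuationRing.eq_unit_mul_pow_irreducible o0
      PowerSeries.X_irreducible
    have h1 : (r / x ^ a) ^ l ^ n = algebraMap R (Omp p) ε := by
      rw [div_pow, hr, ← pow_mul, mul_comm a, pow_mul, hx, hX, map_mul, map_pow,
        mul_div_cancel_right₀ _ (pow_ne_zero _ gp_X)]
    have h2 : IsIntegral R (r / x ^ a) :=
      IsIntegral.of_pow (Nat.pos_of_ne_zero hN) (h1 ▸ isIntegral_algebraMap)
    have h3 := hun _ ε.isUnit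
    have h4 : r / x ^ a ∉ W.nonunits := fun h => h3 (by
      obtain ⟨M, hM⟩ := Nat.exists_eq_succ_of_ne_zero hN
      rw [← h1, hM, pow_succ']
      exact nu_mul h (W.pow_mem (W.nonunits_subset h) M))
    have h5 := nu_mul (hsm _ (hu2 _ h2)) (nu_inv h4).2
    rw [pow_one, sub_mul, mul_inv_cancel₀ (nu_inv h4).1] at h5
    have h6 := root_one (N := l ^ n) (by
      rw [mul_pow, ← map_pow, inv_pow, h1, hu1, mul_inv_cancel₀ (nu_inv h3).1]) h5 (by
        rw [← map_natCast (algebraMap R (Omp p))]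
        refine hun _ ?_
        rw [← map_natCast (PowerSeries.C (R := ZMod p))]
        exact ((ZMod.isUnit_iff_coprime _ _).2
          (((Nat.coprime_primes hl hp).2 hlp).pow_left n)).map _)
    rwa [mul_inv_eq_one₀ (nu_inv h4).1, map_div₀, map_pow, e,
      div_left_inj' (pow_ne_zero _ x0)] at h6)
  exact top hk p l hlp (fun f g h => Polynomial.coe_injective _ (gp_inj h)) ha L hL i s hs hP φ u Q
    hQ W hφW huW (hX ▸ hnu _ PowerSeries.X_prime.not_isUnit) (fun f => hφ1 _) (fun f => hu1 _)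
    (fun c m hm h => hsm _ (hφ2 _ (hper _ m hm h)))
    (fun c m hm h => pow_one (u c) ▸ hsm _ (hu2 _ (hper _ m hm h))) n x hx hux

end Pool.Agent.MP_855f4c_ag.H7

end

section

namespace Pool.Agent.MP_855f4c_ag.H47

open Module

section Exact

variable {R A B C : Type*} [CommRing R] [AddCommGroup A] [AddCommGroup B] [AddCommGroup C]
  [Module R A] [Module R B] [Module R C]

/-- A short exact sequence with free last term splits. -/
lemma exists_split [Module.Free R C] (i : A →ₗ[R] B) (π : B →ₗ[R] C) (hi : Function.Injective i)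
    (hπ : Function.Surjective π) (he : Function.Exact i π) :
    ∃ e : (A × C) ≃ₗ[R] B, (∀ a, e (a, 0) = i a) ∧ ∀ a c, π (e (a, c)) = c := by
  obtain ⟨s, hs⟩ := Module.projective_lifting_property π LinearMap.id hπ
  have hs' : ∀ c, π (s c) = c := fun c => LinearMap.congr_fun hs c
  have h0 : ∀ a, π (i a) = 0 := fun a => he.apply_apply_eq_zero a
  refine ⟨LinearEquiv.ofBijective (i.coprod s) ⟨?_, ?_⟩, ?_, ?_⟩
  · rw [injective_iff_map_eq_zero]
    rintro ⟨a, c⟩ h
    simp only [LinearMap.coprod_apply] at h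
    have hc : c = 0 := by
      have := congrArg π h
      simpa [h0, hs'] using this
    subst hc
    have : a = 0 := hi (by simpa only [map_zero, add_zero] using h)
    simp [this]
  · intro b
    obtain ⟨a, ha⟩ := (he (b - s (π b))).1 (by simp only [map_sub, hs', sub_self])
    exact ⟨(a, π b), by simp [ha]⟩
  · intro a; simp
  · intro a c; simp [h0, hs']

/-- Traces and ranks add in a short exact sequence of finite free modules. -/
lemma trace_add_exact [Module.Free R A] [Module.Finite R A] [Module.Free R C] [Module.Finite R C]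
    (i : A →ₗ[R] B) (π : B →ₗ[R] C) (hi : Function.Injective i)
    (hπ : Function.Surjective π) (he : Function.Exact i π) :
    Module.Free R B ∧ Module.Finite R B ∧
      (Nontrivial R → finrank R B = finrank R A + finrank R C) ∧
      ∀ (fA : A →ₗ[R] A) (fB : B →ₗ[R] B) (fC : C →ₗ[R] C), (∀ a, fB (i a) = i (fA a)) →
        (∀ b, π (fB b) = fC (π b)) →
        LinearMap.trace R B fB = LinearMap.trace R A fA + LinearMap.trace R C fC := by
  obtain ⟨e, he1, he2⟩ := exists_split i π hi hπ he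
  have : Module.Free R B := Module.Free.of_equiv e
  have : Module.Finite R B := Module.Finite.equiv e
  refine ⟨inferInstance, inferInstance, fun _ => ?_, fun fA fB fC h1 h2 => ?_⟩
  · rw [← e.finrank_eq, finrank_prod]
  set r : B →ₗ[R] A := LinearMap.fst R A C ∘ₗ e.symm.toLinearMap with hr
  set s : C →ₗ[R] B := e.toLinearMap ∘ₗ LinearMap.inr R A C with hs
  have hri : ∀ a, r (i a) = a := fun a => by simp [hr, ← he1]
  have hπs : ∀ c, π (s c) = c := fun c => by simp [hs, he2]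
  have hid : ∀ b, i (r b) + s (π b) = b := fun b => by
    obtain ⟨⟨a, c⟩, rfl⟩ := e.surjective b
    simp only [hr, hs, he2, LinearMap.comp_apply, LinearEquiv.coe_coe, e.symm_apply_apply,
      LinearMap.fst_apply, LinearMap.inr_apply, ← he1, ← map_add, Prod.mk_add_mk, add_zero,
      zero_add]
  have hB : fB = (fB ∘ₗ i) ∘ₗ r + (fB ∘ₗ s) ∘ₗ π := by
    ext b; simp only [LinearMap.add_apply, LinearMap.comp_apply, ← map_add, hid]
  rw [hB, map_add, LinearMap.trace_comp_comm', LinearMap.trace_comp_comm' π]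
  congr 2
  · ext a; simp [h1, hri]
  · ext c; simp [h2, hπs]

end Exact

section Perm

variable (R : Type*) {S : Type*} [CommRing R] [Fintype S] [DecidableEq S]

/-- The trace of a permutation of coordinates is the number of fixed points. -/
lemma trace_funLeft (σ : S → S) :
    LinearMap.trace R (S → R) (LinearMap.funLeft R R σ) =
      ((Finset.univ.filter fun x => σ x = x).card : R) := by
  rw [LinearMap.trace_eq_matrix_trace R (Pi.basisFun R S), Matrix.trace, Finset.card_filter]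
  push_cast
  refine Finset.sum_congr rfl fun x _ => ?_
  simp [LinearMap.funLeft_apply, Pi.single_apply]

/-- The sum of the coordinates. -/
def sumL (S : Type*) [Fintype S] : (S → R) →ₗ[R] R := ∑ x : S, LinearMap.proj x

omit [DecidableEq S] in
lemma sumL_apply (v : S → R) : sumL R S v = ∑ x, v x := by simp only [sumL, LinearMap.coe_sum, LinearMap.coe_proj, Finset.sum_apply, Function.eval]

lemma free_ker_sumL (x0 : S) : Nonempty (LinearMap.ker (sumL R S) ≃ₗ[R] ({x // x ≠ x0} → R)) := by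
  have key : ∀ v : S → R, ∑ x, v x = v x0 + ∑ x : {x // x ≠ x0}, v x := fun v => by
    rw [← Finset.add_sum_erase _ _ (Finset.mem_univ x0)]
    congr 1
    exact Finset.sum_subtype _ (by simp only [Finset.mem_erase, ne_eq, Finset.mem_univ, and_true, implies_true]) _
  refine ⟨LinearEquiv.ofBijective
    (LinearMap.funLeft R R Subtype.val ∘ₗ (LinearMap.ker (sumL R S)).subtype) ⟨?_, ?_⟩⟩
  · rw [injective_iff_map_eq_zero]
    rintro ⟨v, hv⟩ h
    have h1 : ∀ x : {x // x ≠ x0}, v x = 0 := fun x => congrFun h x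
    rw [LinearMap.mem_ker, sumL_apply, key] at hv
    ext x
    by_cases hx : x = x0
    · subst hx; simpa only [ZeroMemClass.coe_zero, Pi.zero_apply, ne_eq, h1, Finset.sum_const_zero, add_zero] using hv
    · exact h1 ⟨x, hx⟩
  · intro w
    refine ⟨⟨fun x => if h : x = x0 then -∑ y, w y else w ⟨x, h⟩, ?_⟩, ?_⟩
    · rw [LinearMap.mem_ker, sumL_apply, key]
      simp only [dif_pos]
      rw [neg_add_eq_zero]
      exact Finset.sum_congr rfl fun x _ => by rw [dif_neg x.2]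
    · ext x
      simp only [ne_eq, LinearMap.coe_comp, Submodule.coe_subtype, Function.comp_apply, LinearMap.funLeft_apply, Subtype.coe_eta, dif_neg x.2]

/-- The four term sequence `0 → J → M → (S → R) → R → 0`. -/
lemma trace_four {J M : Type*} [AddCommGroup J] [AddCommGroup M] [Module R J] [Module R M]
    [Module.Free R J] [Module.Finite R J] [Nonempty S] (i : J →ₗ[R] M) (π : M →ₗ[R] (S → R))
    (hi : Function.Injective i) (he : Function.Exact i π)
    (hr : ∀ v, (∃ m, π m = v) ↔ ∑ x, v x = 0) :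
    Module.Free R M ∧ Module.Finite R M ∧
      (Nontrivial R → finrank R M + 1 = finrank R J + Fintype.card S) ∧
      ∀ (fJ : J →ₗ[R] J) (fM : M →ₗ[R] M) (σ : S ≃ S), (∀ a, fM (i a) = i (fJ a)) →
        (∀ b x, π (fM b) x = π b (σ x)) →
        LinearMap.trace R M fM + 1 =
          LinearMap.trace R J fJ + ((Finset.univ.filter fun x => σ x = x).card : R) := by
  obtain ⟨x0⟩ := ‹Nonempty S›
  obtain ⟨e⟩ := free_ker_sumL R x0
  have : Module.Free R (LinearMap.ker (sumL R S)) := Module.Free.of_equiv e.symm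
  have : Module.Finite R (LinearMap.ker (sumL R S)) := Module.Finite.equiv e.symm
  have hm : ∀ m, π m ∈ LinearMap.ker (sumL R S) := fun m => by
    rw [LinearMap.mem_ker, sumL_apply]; exact (hr _).1 ⟨m, rfl⟩
  obtain ⟨h1, h2, h3, h4⟩ := trace_add_exact i (π.codRestrict _ hm) hi
    (fun v => by
      obtain ⟨m, hm'⟩ := (hr v.1).2 (by rw [← sumL_apply]; exact v.2)
      exact ⟨m, Subtype.ext hm'⟩)
    (fun m => by rw [← he m, Subtype.ext_iff]; rfl)
  obtain ⟨-, -, h5, h6⟩ := trace_add_exact (LinearMap.ker (sumL R S)).subtype (sumL R S)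
    Subtype.val_injective
    (fun c => ⟨Pi.single x0 c, by simp [sumL_apply]⟩) (LinearMap.exact_subtype_ker_map _)
  refine ⟨h1, h2, fun h => ?_, fun fJ fM σ hJ hπ => ?_⟩
  · have := h5 h
    rw [finrank_self, finrank_fintype_fun_eq_card] at this
    rw [h3 h, this, add_assoc]
  · have hs : ∀ v, sumL R S (LinearMap.funLeft R R σ v) = LinearMap.id (R := R) (sumL R S v) :=
      fun v => by
        simp only [sumL_apply, LinearMap.funLeft_apply, LinearMap.id_apply]
        exact Equiv.sum_comp σ v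
    have hk : ∀ v ∈ LinearMap.ker (sumL R S),
        LinearMap.funLeft R R σ v ∈ LinearMap.ker (sumL R S) := fun v hv => by
      rw [LinearMap.mem_ker] at hv ⊢
      rw [hs, hv, map_zero]
    have e1 := h4 fJ fM ((LinearMap.funLeft R R σ).restrict hk) hJ
      (fun b => Subtype.ext (funext fun x => hπ b x))
    have e2 := h6 ((LinearMap.funLeft R R σ).restrict hk) _ LinearMap.id (fun _ => rfl) hs
    have e3 : LinearMap.trace R R LinearMap.id = 1 := by
      rw [LinearMap.trace_eq_matrix_trace R (Basis.singleton Unit R), LinearMap.toMatrix_id]; simp only [Matrix.trace_one, Fintype.card_unique, Nat.cast_one]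
    rw [trace_funLeft, e3] at e2
    rw [e1, e2]; ring

end Perm

end Pool.Agent.MP_855f4c_ag.H47

end

section

attribute [-instance] SubfieldClass.toSubringClass SetLike.GradeZero.instRing
  SetLike.GradeZero.instCommRing MonTypeEquivalenceMon.monMonoid SetLike.GradeZero.instSemiring
  SetLike.GradeZero.instCommSemiring RingConeClass.toSubsemiringClass SubringClass.toSubsemiringClass
  NormedDivisionRing.toDivisionRing instCharZeroOfIsSemireal
  Action.FintypeCat.instMulActionObjFiniteOf IdemSemiring.toSemiring RKHS.instFunLike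
  NormedCommRing.toCommRing NonUnitalAlgSemiHomClass.toMulHomClass NormedField.toField
  LieRing.toAddCommGroup CommMonTypeEquivalenceCommMon.commMonCommMonoid SubringClass.toRing
  FloorSemiring.instCharZero SubsemiringClass.toSemiring instCoeOTCOfCoeTC
  NonUnitalAlgHomClass.toNonUnitalRingHomClass

namespace Pool.Agent.MP_855f4c_ag.H47

open Fx

variable {P : Type} [Group P] {Ω F : Type} [Field Ω] [Field F] [Algebra F Ω]
  [MulSemiringAction P Ω] {n : ℕ}

/-- `χ` is the Kummer character of `f`. -/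
def Kd (N : Subgroup P) (e : AddChar (ZMod n) Ω) (χ : N → ZMod n) (f : F) : Prop :=
  f ≠ 0 ∧ ∃ y : Ω, y ^ n = algebraMap F Ω f ∧ ∀ a : N, (a : P) • y = e (χ a) * y

/-- Abstract Kummer data for one level. -/
structure KD (A : Adm P) (N : Subgroup P) (e : AddChar (ZMod n) Ω) {X : Type} (ord : X → F → ℤ)
    (S : Finset X) : Prop where
  pos : 0 < n
  inj : Function.Injective e
  root1 : ∀ c : Ω, c ^ n = 1 → ∃ a, e a = c
  efix : ∀ (g : P) a, g • e a = e a
  Ffix : ∀ g ∈ N, ∀ f : F, g • algebraMap F Ω f = algebraMap F Ω f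
  root : ∀ f : F, ∃ y : Ω, y ^ n = algebraMap F Ω f
  fixed : ∀ (y : Ω) (f : F), y ^ n = algebraMap F Ω f → (∀ g ∈ N, g • y = y) →
    ∃ h : F, y = algebraMap F Ω h
  adm : ∀ (y : Ω) (f : F), f ≠ 0 → y ^ n = algebraMap F Ω f → (∀ x ∉ S, (n : ℤ) ∣ ord x f) →
    ∃ M, A.adm M ∧ ∀ g ∈ M, g ∈ N → g • y = y
  kum : ∀ χ : A.Hm N (ZMod n), ∃ f : F, Kd N e χ.1 f ∧ ∀ x ∉ S, (n : ℤ) ∣ ord x f
  ord_mul : ∀ x f g, f ≠ 0 → g ≠ 0 → ord x (f * g) = ord x f + ord x g

variable {A : Adm P} {N : Subgroup P} {e : AddChar (ZMod n) Ω} {X : Type} {ord : X → F → ℤ}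
  {S : Finset X}

lemma Kd.mul {χ χ' : N → ZMod n} {f f' : F} (h : Kd N e χ f) (h' : Kd N e χ' f') :
    Kd N e (χ + χ') (f * f') := by
  obtain ⟨h0, y, hy, h1⟩ := h
  obtain ⟨h0', y', hy', h1'⟩ := h'
  refine ⟨mul_ne_zero h0 h0', y * y', by rw [mul_pow, hy, hy', map_mul], fun a => ?_⟩
  rw [smul_mul', h1, h1', Pi.add_apply, AddChar.map_add_eq_mul]; ring

namespace KD

variable (H : KD A N e ord S)
include H

lemma y_ne {y : Ω} {f : F} (hf : f ≠ 0) (hy : y ^ n = algebraMap F Ω f) : y ≠ 0 := by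
  rintro rfl
  rw [zero_pow H.pos.ne'] at hy
  exact hf ((map_eq_zero _).1 hy.symm)

lemma e_ne (a : ZMod n) : e a ≠ 0 := fun h => by
  have := e.map_add_eq_mul a (-a)
  rw [add_neg_cancel, AddChar.map_zero_eq_one, h, zero_mul] at this
  exact one_ne_zero this

lemma uniq1 {χ : N → ZMod n} {f f' : F} (h : Kd N e χ f) (h' : Kd N e χ f') :
    ∃ r : F, r ≠ 0 ∧ f = f' * r ^ n := by
  obtain ⟨h0, y, hy, h1⟩ := h
  obtain ⟨h0', y', hy', h1'⟩ := h'
  have hy0 := H.y_ne h0 hy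
  have hy0' := H.y_ne h0' hy'
  obtain ⟨r, hr⟩ := H.fixed (y / y') (f / f') (by rw [div_pow, hy, hy', map_div₀]) fun g hg => by
    rw [smul_div₀', h1 ⟨g, hg⟩, h1' ⟨g, hg⟩, mul_div_mul_left _ _ (H.e_ne _)]
  refine ⟨r, fun h => div_ne_zero hy0 hy0' (by rw [hr, h, map_zero]), ?_⟩
  apply (algebraMap F Ω).injective
  rw [map_mul, map_pow, ← hr, ← hy, ← hy', ← mul_pow, mul_div_cancel₀ _ hy0']

lemma uniq2 {χ χ' : N → ZMod n} {f f' r : F} (h : Kd N e χ f) (h' : Kd N e χ' f')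
    (hr : f = f' * r ^ n) : χ = χ' := by
  obtain ⟨h0, y, hy, h1⟩ := h
  obtain ⟨h0', y', hy', h1'⟩ := h'
  have hy0 := H.y_ne h0 hy
  have hy0' := H.y_ne h0' hy'
  have hr0 : algebraMap F Ω r ≠ 0 := fun h => h0 (by
    rw [hr, (map_eq_zero _).1 h, zero_pow H.pos.ne', mul_zero])
  obtain ⟨c, hc⟩ := H.root1 (y / (y' * algebraMap F Ω r)) (by
    rw [div_pow, mul_pow, hy, hy', ← map_pow, ← map_mul, ← hr, div_self (by simpa using h0)])
  rw [eq_div_iff (mul_ne_zero hy0' hr0)] at hc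
  funext a
  apply H.inj
  apply mul_right_cancel₀ hy0
  rw [← h1, ← hc, smul_mul', smul_mul', H.efix, H.Ffix _ a.2, h1']; ring

lemma ex {f : F} (hf : f ≠ 0) (h : ∀ x ∉ S, (n : ℤ) ∣ ord x f) :
    ∃ χ : A.Hm N (ZMod n), Kd N e χ.1 f := by
  obtain ⟨y, hy⟩ := H.root f
  have hy0 := H.y_ne hf hy
  have key : ∀ a : N, ∃ c, (a : P) • y = e c * y := fun a => by
    obtain ⟨c, hc⟩ := H.root1 ((a : P) • y / y) (by
      rw [div_pow, ← smul_pow', hy, H.Ffix _ a.2, div_self (by simpa using hf)])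
    exact ⟨c, by rw [hc, div_mul_cancel₀ _ hy0]⟩
  choose χ hχ using key
  obtain ⟨M, hM, hM'⟩ := H.adm y f hf hy h
  refine ⟨⟨χ, fun a b => ?_, M, hM, fun a ha => ?_⟩, hf, y, hy, hχ⟩
  · apply H.inj
    apply mul_right_cancel₀ hy0
    rw [← hχ, Subgroup.coe_mul, mul_smul, hχ, smul_mul', H.efix, hχ, AddChar.map_add_eq_mul]; ring
  · apply H.inj
    apply mul_right_cancel₀ hy0
    rw [← hχ, hM' _ ha a.2, AddChar.map_zero_eq_one, one_mul]

lemma ord_one (x : X) : ord x 1 = 0 := by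
  have := H.ord_mul x 1 1 one_ne_zero one_ne_zero
  rw [mul_one] at this; omega

lemma ord_pow (x : X) {r : F} (hr : r ≠ 0) (m : ℕ) : ord x (r ^ m) = m * ord x r := by
  induction m with
  | zero => simp [H.ord_one]
  | succ m ih => rw [pow_succ, H.ord_mul x _ _ (pow_ne_zero _ hr) hr, ih]; push_cast; ring

lemma ord_congr {χ : N → ZMod n} {f f' : F} (h : Kd N e χ f) (h' : Kd N e χ f') (x : X) :
    (ord x f : ZMod n) = ord x f' := by
  obtain ⟨r, hr0, hr⟩ := H.uniq1 h h'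
  rw [hr, H.ord_mul x _ _ h'.1 (pow_ne_zero _ hr0), H.ord_pow x hr0]
  push_cast
  simp

/-- The residue map. -/
lemma exists_pi : ∃ π : A.Hm N (ZMod n) →ₗ[ZMod n] (S → ZMod n),
    ∀ χ f, Kd N e χ.1 f → ∀ x : S, π χ x = ord x f := by
  choose g hg _ using H.kum
  refine ⟨AddMonoidHom.toZModLinearMap n (AddMonoidHom.mk' (fun χ x => (ord x (g χ) : ZMod n))
    fun χ χ' => ?_), fun χ f hf x => H.ord_congr (hg χ) hf x⟩
  funext x
  rw [Pi.add_apply, H.ord_congr (hg (χ + χ')) ((hg χ).mul (hg χ')),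
    H.ord_mul _ _ _ (hg χ).1 (hg χ').1]
  push_cast; rfl

end KD

/-- Abstract description of the `n`-torsion of the class group. -/
structure JD (n : ℕ) {X : Type} (ord : X → F → ℤ) (S : Finset X) {J : Type} [AddCommGroup J]
    (cls : F → J → Prop) : Prop where
  ex : ∀ c, ∃ f, cls f c
  dvd : ∀ f c, cls f c → f ≠ 0 ∧ ∀ x, (n : ℤ) ∣ ord x f
  ex' : ∀ f, f ≠ 0 → (∀ x, (n : ℤ) ∣ ord x f) → ∃ c, cls f c
  mul : ∀ f c f' c', cls f c → cls f' c' → cls (f * f') (c + c')
  eq : ∀ f c f' c', cls f c → cls f' c' → (c = c' ↔ ∃ r : F, r ≠ 0 ∧ f = f' * r ^ n)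
  sum : ∀ f, f ≠ 0 → (∀ x ∉ S, (n : ℤ) ∣ ord x f) → ∑ x : S, (ord x f : ZMod n) = 0
  rng : ∀ v : S → ZMod n, ∑ x, v x = 0 →
    ∃ f, f ≠ 0 ∧ (∀ x ∉ S, (n : ℤ) ∣ ord x f) ∧ ∀ x : S, (ord x f : ZMod n) = v x

variable {J : Type} [AddCommGroup J] [Module (ZMod n) J] {cls : F → J → Prop}

lemma exists_i (H : KD A N e ord S) (HJ : JD n ord S cls) :
    ∃ i : J →ₗ[ZMod n] A.Hm N (ZMod n), ∀ c f, cls f c → Kd N e (i c).1 f := by
  choose g hg using HJ.ex
  choose χ hχ using fun c => H.ex (HJ.dvd _ _ (hg c)).1 fun x _ => (HJ.dvd _ _ (hg c)).2 x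
  have key : ∀ c f, cls f c → Kd N e (χ c).1 f := fun c f hf => by
    obtain ⟨χ', h'⟩ := H.ex (HJ.dvd _ _ hf).1 fun x _ => (HJ.dvd _ _ hf).2 x
    obtain ⟨r, -, hr⟩ := (HJ.eq _ _ _ _ (hg c) hf).1 rfl
    rwa [H.uniq2 (hχ c) h' hr]
  refine ⟨AddMonoidHom.toZModLinearMap n (AddMonoidHom.mk' χ fun c c' => Subtype.ext ?_), key⟩
  exact H.uniq2 (r := 1) (key _ _ (HJ.mul _ _ _ _ (hg c) (hg c'))) ((hχ c).mul (hχ c')) (by simp)

/-- The Kummer sequence: freeness and the trace formula. -/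
theorem core [DecidableEq X] (H : KD A N e ord S) (HJ : JD n ord S cls) (hS : S.Nonempty)
    [Module.Free (ZMod n) J] [Module.Finite (ZMod n) J] :
    Module.Free (ZMod n) (A.Hm N (ZMod n)) ∧ Module.Finite (ZMod n) (A.Hm N (ZMod n)) ∧
    ∀ (ψ : Ω ≃+* Ω) (σ : F → F) (Q : ℕ) (τ : S ≃ S) (s : J →ₗ[ZMod n] J)
      (T : Module.End (ZMod n) (A.Hm N (ZMod n))),
      (∀ f, ψ (algebraMap F Ω f) = algebraMap F Ω (σ f)) → (∀ a, ψ (e a) = e a ^ Q) →
      (∀ (x : S) f, ord x (σ f) = ord (τ x) f) → (∀ f c, cls f c → cls (σ f) (s c)) →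
      (∀ a : N, ∃ b : N, (∀ y, (a : P) • ψ y = ψ ((b : P) • y)) ∧ ∀ χ, (T χ).1 a = χ.1 b) →
      (Q : ZMod n) * LinearMap.trace (ZMod n) _ T + 1 =
        LinearMap.trace (ZMod n) J s + ((Finset.univ.filter fun x => τ x = x).card : ZMod n) := by
  obtain ⟨π, hπ⟩ := H.exists_pi
  obtain ⟨i, hi⟩ := exists_i H HJ
  have : Nonempty S := hS.coe_sort
  obtain ⟨h1, h2, -, h4⟩ := trace_four (ZMod n) i π
    (by
      intro c c' h
      obtain ⟨f, hf⟩ := HJ.ex c
      obtain ⟨f', hf'⟩ := HJ.ex c'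
      exact (HJ.eq _ _ _ _ hf hf').2 (H.uniq1 (hi _ _ hf) (h ▸ hi _ _ hf')))
    (by
      intro χ
      constructor
      · intro h
        obtain ⟨f, hf, hf'⟩ := H.kum χ
        obtain ⟨c, hc⟩ := HJ.ex' f hf.1 fun x => by
          by_cases hx : x ∈ S
          · rw [← ZMod.intCast_zmod_eq_zero_iff_dvd, ← hπ χ f hf ⟨x, hx⟩, h]; rfl
          · exact hf' x hx
        exact ⟨c, Subtype.ext (H.uniq2 (r := 1) (hi _ _ hc) hf (by simp))⟩
      · rintro ⟨c, rfl⟩
        obtain ⟨f, hf⟩ := HJ.ex c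
        funext x
        rw [hπ _ f (hi _ _ hf), Pi.zero_apply, ZMod.intCast_zmod_eq_zero_iff_dvd]
        exact (HJ.dvd _ _ hf).2 x)
    (by
      intro v
      constructor
      · rintro ⟨χ, rfl⟩
        obtain ⟨f, hf, hf'⟩ := H.kum χ
        rw [Finset.sum_congr rfl fun x _ => hπ χ f hf x]
        exact HJ.sum f hf.1 hf'
      · intro hv
        obtain ⟨f, hf, h1, h2⟩ := HJ.rng v hv
        obtain ⟨χ, hχ⟩ := H.ex hf h1
        exact ⟨χ, funext fun x => by rw [hπ χ f hχ, h2]⟩)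
  refine ⟨h1, h2, fun ψ σ Q τ s T hσ he hτ hs hT => ?_⟩
  have key : ∀ (χ : A.Hm N (ZMod n)) f, Kd N e χ.1 f →
      Kd N e (((Q : ZMod n) • T) χ).1 (σ f) := by
    rintro χ f ⟨h0, y, hy, hy'⟩
    refine ⟨fun h => h0 ?_, ψ y, by rw [← map_pow, hy, hσ], fun a => ?_⟩
    · have := hσ f
      rw [h, map_zero] at this
      simpa using this
    · obtain ⟨b, hb, hb'⟩ := hT a
      rw [hb, hy', map_mul, he, LinearMap.smul_apply, Submodule.coe_smul, Pi.smul_apply, hb',
        Nat.cast_smul_eq_nsmul, AddChar.map_nsmul_eq_pow]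
  have := h4 s ((Q : ZMod n) • T) τ
    (fun c => by
      obtain ⟨f, hf⟩ := HJ.ex c
      exact Subtype.ext (H.uniq2 (r := 1) (key _ _ (hi _ _ hf)) (hi _ _ (hs _ _ hf)) (by simp)))
    (fun χ x => by
      obtain ⟨f, hf, -⟩ := H.kum χ
      rw [hπ _ _ (key _ _ hf), hπ _ _ hf, hτ])
  rwa [map_smul, smul_eq_mul] at this

end Pool.Agent.MP_855f4c_ag.H47

end

section

attribute [-instance] Module.free_of_finite_type_torsion_free' IntermediateField.normal
  Algebra.WeaklyEtale.flat Algebra.Smooth.flat SemilinearMapClass.distribMulActionSemiHomClass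
  IsPurelyInseparable.isIntegral SMulZeroClass.toSMul Subgroup.instMulAction instCharZeroOfIsSemireal
  MonTypeEquivalenceMon.monMonoid ContinuousMonoidHom.instCoeOutOfMonoidHomClassOfContinuousMapClass
  Algebra.IsQuadraticExtension.toFree CommRing.Pic.instFreeOfSubsingleton IdemSemiring.toSemiring
  FloorSemiring.instCharZero LieRinehartAlgebra.toIsScalarTower RCLike.charZero_rclike
  Algebra.IsFiniteSplit.instFree

namespace Pool.Agent.MP_855f4c_ag.H47

open Polynomial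

/-- A separable element fixed by the group of `E` lies in `E`. -/
lemma mem_of_fixed {K Ω : Type} [Field K] [Field Ω] [Algebra K Ω] [IsAlgClosed Ω]
    [Algebra.IsAlgebraic K Ω] (E : IntermediateField K Ω) (y : Ω) (hs : IsSeparable E y)
    (h : ∀ g : Ω ≃ₐ[K] Ω, (∀ z ∈ E, g z = z) → g y = y) : y ∈ E := by
  have : IsAlgClosure E Ω := ⟨inferInstance, Algebra.IsAlgebraic.tower_top (K := K) E⟩
  have hy : IsAlgebraic E y := Algebra.IsAlgebraic.isAlgebraic y
  have h1 := card_rootSet_eq_natDegree (K := Ω) hs (IsAlgClosed.splits _)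
  have h2 : (minpoly E y).rootSet Ω = {y} := by
    ext z
    rw [mem_rootSet_of_ne (minpoly.ne_zero hy.isIntegral), Set.mem_singleton_iff]
    refine ⟨fun hz => ?_, fun hz => hz ▸ minpoly.aeval E y⟩
    obtain ⟨s, hs⟩ := minpoly.exists_algEquiv_of_root' hy hz
    rw [← hs]
    exact h (s.restrictScalars K) fun z hz => s.commutes ⟨z, hz⟩
  have h3 : (minpoly E y).natDegree = 1 := by
    rw [← h1, ← Nat.card_eq_fintype_card, h2]; simp
  obtain ⟨z, rfl⟩ := minpoly.natDegree_eq_one_iff.1 h3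
  exact z.2

lemma exists_char (k Ω : Type) [Field k] [Field Ω] [Algebra k Ω] [IsAlgClosed k] (n : ℕ)
    (hn : (n : k) ≠ 0) : ∃ e : AddChar (ZMod n) Ω, Function.Injective e ∧
      (∀ c : Ω, c ^ n = 1 → ∃ a, e a = c) ∧ ∀ a, ∃ c : k, e a = algebraMap k Ω c := by
  have : NeZero (n : k) := ⟨hn⟩
  have : NeZero n := ⟨by rintro rfl; simp at hn⟩
  obtain ⟨z, hz⟩ := HasEnoughRootsOfUnity.exists_primitiveRoot k n
  have hz' : IsPrimitiveRoot (algebraMap k Ω z) n := hz.map_of_injective (algebraMap k Ω).injective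
  refine ⟨AddChar.zmodChar n hz'.pow_eq_one, fun a b h => ?_, fun c hc => ?_,
    fun a => ⟨z ^ a.val, by rw [map_pow]; rfl⟩⟩
  · exact ZMod.val_injective n (hz'.pow_inj (ZMod.val_lt a) (ZMod.val_lt b) h)
  · obtain ⟨i, -, hi⟩ := hz'.eq_pow_of_pow_eq_one hc
    exact ⟨i, by rw [AddChar.zmodChar_apply', hi]⟩

/-- The Lagrange resolvent. -/
lemma resolvent {K Ω : Type} [Field K] [Field Ω] [Algebra K Ω] {n : ℕ}
    (N M : Subgroup (Ω ≃ₐ[K] Ω)) [M.FiniteIndex] (E : IntermediateField K Ω) [Normal K E]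
    (hE : ∀ g, g ∈ M ↔ ∀ z ∈ E, g z = z) (e : AddChar (ZMod n) Ω)
    (he : ∀ (g : Ω ≃ₐ[K] Ω) a, g (e a) = e a) (χ : N → ZMod n)
    (hχ : ∀ a b, χ (a * b) = χ a + χ b) (h0 : ∀ a : N, a.1 ∈ M → χ a = 0) (heE : ∀ a, e a ∈ E) :
    ∃ y ∈ E, y ≠ 0 ∧ ∀ a : N, a.1 y = e (χ a) * y := by
  classical
  have : Fintype (N ⧸ M.subgroupOf N) := Fintype.ofFinite _
  let φ : (N ⧸ M.subgroupOf N) → (E →* Ω) := fun c =>
    (c.out.1 : Ω →* Ω).comp (E.val : E →* Ω)
  have hφ : Function.Injective φ := fun c c' h => by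
    rw [← c.out_eq', ← c'.out_eq', QuotientGroup.eq, Subgroup.mem_subgroupOf, hE]
    intro z hz
    have := DFunLike.congr_fun h ⟨z, hz⟩
    change c.out.1 z = c'.out.1 z at this
    change (c.out.1⁻¹ * c'.out.1) z = z
    rw [AlgEquiv.mul_apply, ← this, ← AlgEquiv.mul_apply, inv_mul_cancel, AlgEquiv.one_apply]
  have hli := (linearIndependent_monoidHom E Ω).comp φ hφ
  have hne : ∑ c, e (-χ c.out) • (φ c : E → Ω) ≠ 0 := fun h => by
    have h1 := Fintype.linearIndependent_iff.1 hli _ h (1 : N)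
    have h2 := e.map_add_eq_mul (-χ (Quotient.out ((1 : N) : N ⧸ M.subgroupOf N)))
      (χ (Quotient.out ((1 : N) : N ⧸ M.subgroupOf N)))
    rw [neg_add_cancel, AddChar.map_zero_eq_one, h1, zero_mul] at h2
    exact one_ne_zero h2
  obtain ⟨z, hz⟩ := Function.ne_iff.1 hne
  have hval : (∑ c, e (-χ c.out) • (φ c : E → Ω)) z = ∑ c : N ⧸ M.subgroupOf N,
      e (-χ c.out) * c.out.1 z := by
    rw [Finset.sum_apply]; rfl
  rw [hval] at hz
  refine ⟨_, sum_mem fun c _ => mul_mem (heE _) ?_, hz, fun a => ?_⟩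
  · rw [← E.algebraMap_apply z, ← AlgEquiv.restrictNormal_commutes]
    exact SetLike.coe_mem _
  · rw [map_sum, Finset.mul_sum]
    refine Fintype.sum_equiv (MulAction.toPerm a) _ _ fun c => ?_
    have h1 : ((a • c).out)⁻¹ * (a * c.out) ∈ M.subgroupOf N := by
      rw [← QuotientGroup.eq, QuotientGroup.out_eq', ← smul_eq_mul, ← MulAction.Quotient.smul_coe,
        QuotientGroup.out_eq']
    rw [Subgroup.mem_subgroupOf] at h1
    have h2 := h0 _ h1
    have h3 := (hE _).1 h1 z z.2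
    have h4 : χ (a • c).out = χ a + χ c.out := by
      rw [← hχ, ← add_zero (χ (a • c).out), ← h2, ← hχ, mul_inv_cancel_left]
    have h5 : (a • c).out.1 z = a.1 (c.out.1 z) := by
      conv_lhs => rw [← h3]
      rw [← AlgEquiv.mul_apply, ← Subgroup.coe_mul, mul_inv_cancel_left]; rfl
    rw [map_mul, he, MulAction.toPerm_apply, h4, h5, ← mul_assoc, ← AddChar.map_add_eq_mul]
    congr 2; ring

/-- An inertia element fixes every unit that it multiplies by a constant. -/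
lemma const_eq_one {k Ω : Type} [Field k] [Field Ω] [Algebra k Ω] (V : ValuationSubring Ω)
    (hk : ∀ c : k, algebraMap k Ω c ∈ V) (g : Ω ≃+* Ω) (hg : ∀ z, g z ∈ V ↔ z ∈ V)
    (hgk : ∀ c : k, g (algebraMap k Ω c) = algebraMap k Ω c) {z : Ω} (hz : z⁻¹ ∈ V)
    {c0 c : k} (hr : z - algebraMap k Ω c0 ∈ V.nonunits) (h : g z = algebraMap k Ω c * z) :
    g z = z := by
  have h1 : g z - algebraMap k Ω c0 ∈ V.nonunits := by
    rw [← hgk, ← map_sub, ValuationSubring.mem_nonunits_iff_or, ← map_inv₀, hg, map_eq_zero]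
    exact V.mem_nonunits_iff_or.1 hr
  have h2 := sub_mem h1 hr
  rw [sub_sub_sub_cancel_right] at h2
  rcases V.mem_nonunits_iff_or.1 h2 with h3 | h3
  · exact sub_eq_zero.1 h3
  · exfalso
    apply h3
    have : (g z - z)⁻¹ = algebraMap k Ω (c - 1)⁻¹ * z⁻¹ := by
      rw [h, map_inv₀, map_sub, map_one, ← mul_inv]; congr 1; ring
    rw [this]
    exact mul_mem (hk _) hz

lemma mem_of_pow_mem {Ω : Type} [Field Ω] (V : ValuationSubring Ω) {z : Ω} {n : ℕ} (hn : 0 < n)
    (h : z ^ n ∈ V) : z ∈ V := by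
  rw [← V.valuation_le_one_iff] at h ⊢
  rwa [map_pow, pow_le_one_iff hn.ne'] at h

end Pool.Agent.MP_855f4c_ag.H47

end

section

namespace Pool.Agent.MP_855f4c_ag.H47

open WD

variable {k F : Type} [Field k] [Field F] [Algebra k F] [FF k F]

/-- `dv f = n D` and `c` is the class of `D`. -/
def Cl (n : ℕ) (f : F) (c : JJ k F n) : Prop :=
  f ≠ 0 ∧ ∃ D : Div k F, dv k f = n • D ∧ cls D = c.1

omit [FF k F] in
lemma exists_div {n : ℕ} (E : Div k F) (h : ∀ x, (n : ℤ) ∣ E x) : ∃ D : Div k F, E = n • D := by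
  refine ⟨E.mapRange (· / (n : ℤ)) (by simp), ?_⟩
  ext x
  simp [Int.mul_ediv_cancel' (h x)]

omit [FF k F] in
lemma sum_cast {n : ℕ} (S : Finset (Place k F)) (E : Div k F) (h : ∀ x ∉ S, (n : ℤ) ∣ E x) :
    ∑ x : S, (E x : ZMod n) = deg E := by
  classical
  rw [deg_eq_sum' (S := E.support ∪ S) Finset.subset_union_left, Finset.sum_coe_sort S
    fun x => (E x : ZMod n)]
  push_cast
  exact Finset.sum_subset Finset.subset_union_right fun x _ hx =>
    (ZMod.intCast_zmod_eq_zero_iff_dvd _ _).2 (h x hx)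

lemma jd {n : ℕ} (hn : 0 < n) (S : Finset (Place k F)) (hS : S.Nonempty)
    (hdiv : ∀ E : Div k F, deg E = 0 → ∃ B : Div k F, cls E = cls (n • B)) :
    JD n (fun (x : Place k F) (f : F) => x.ord f) S (Cl (k := k) n) where
  ex c := by
    obtain ⟨D, hD⟩ := cls_surj c.1
    obtain ⟨f, hf, h⟩ := cls_mem_JJ.1 (hD ▸ c.2)
    exact ⟨f, hf, D, h, hD⟩
  dvd f c := by
    rintro ⟨hf, D, h, -⟩
    exact ⟨hf, fun x => by rw [← dv_apply, h]; simp⟩
  ex' f hf h := by
    obtain ⟨D, hD⟩ := exists_div (dv k f) (n := n) fun x => by simpa only [dv_apply] using h x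
    exact ⟨⟨cls D, cls_mem_JJ.2 ⟨f, hf, hD⟩⟩, hf, D, hD, rfl⟩
  mul f c f' c' := by
    rintro ⟨hf, D, h, hc⟩ ⟨hf', D', h', hc'⟩
    exact ⟨mul_ne_zero hf hf', D + D', by rw [dv_mul hf hf', h, h', smul_add],
      by rw [map_add, hc, hc']; rfl⟩
  eq f c f' c' := by
    rintro ⟨hf, D, h, hc⟩ ⟨hf', D', h', hc'⟩
    rw [Subtype.ext_iff, ← hc, ← hc', cls_eq]
    constructor
    · rintro ⟨r, hr, rfl⟩
      obtain ⟨a, ha, hh⟩ := eq_smul_of_dv (k := k) hf (mul_ne_zero hf' (pow_ne_zero n hr))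
        (by rw [dv_mul hf' (pow_ne_zero n hr), h, h', dv_pow, smul_add])
      have := FF.closed (k := k) (K := F)
      obtain ⟨b, rfl⟩ := IsAlgClosed.exists_pow_nat_eq a hn
      refine ⟨b • r, smul_ne_zero (fun h0 => ha (by rw [h0, zero_pow hn.ne'])) hr, ?_⟩
      rw [hh, smul_pow, mul_smul_comm]
    · rintro ⟨r, hr, rfl⟩
      refine ⟨r, hr, ?_⟩
      rw [dv_mul hf' (pow_ne_zero n hr), h', dv_pow, ← smul_add] at h
      ext x
      have := DFunLike.congr_fun h x
      simp only [Finsupp.smul_apply, nsmul_eq_mul] at this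
      exact (mul_left_cancel₀ (by exact_mod_cast hn.ne') this).symm
  sum f hf h := by
    have := sum_cast S (dv k f) (n := n) fun x hx => by simpa using h x hx
    simpa only [Finset.univ_eq_attach, dv_apply, deg_dv, Int.cast_zero] using this
  rng v hv := by
    classical
    have : NeZero n := ⟨hn.ne'⟩
    obtain ⟨o, ho⟩ := hS
    set E : Div k F := ∑ x : S, Finsupp.single x.1 ((v x).val : ℤ) with hE
    have h1 : ∀ x ∉ S, E x = 0 := fun x hx => by
      rw [hE, Finsupp.finsetSum_apply]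
      exact Finset.sum_eq_zero fun y _ => Finsupp.single_eq_of_ne (fun h => hx (h ▸ y.2))
    have h2 : ∀ x : S, (E x : ZMod n) = v x := fun x => by
      rw [hE, Finsupp.finsetSum_apply, Finset.sum_eq_single x]
      · simp
      · exact fun y _ hy => Finsupp.single_eq_of_ne fun h => hy (Subtype.ext h.symm)
      · simp only [Finset.univ_eq_attach, Finset.mem_attach, not_true_eq_false, ZMod.natCast_val, Finsupp.single_eq_same, IsEmpty.forall_iff]
    have h3 : (n : ℤ) ∣ deg E := by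
      rw [← ZMod.intCast_zmod_eq_zero_iff_dvd, ← sum_cast S E fun x hx => by simp [h1 x hx],
        Finset.sum_congr rfl fun x _ => h2 x, hv]
    obtain ⟨m, hm⟩ := h3
    obtain ⟨B, hB⟩ := hdiv (E - n • Finsupp.single o m) (by
      rw [map_sub, map_nsmul, deg_single, hm]; simp)
    obtain ⟨f, hf, h4⟩ := cls_eq.1 hB
    have h5 : ∀ x : Place k F, x.ord f = E x - n * (Finsupp.single o m x + B x) := fun x => by
      have := DFunLike.congr_fun h4 x
      simp only [Finsupp.sub_apply, Finsupp.add_apply, Finsupp.smul_apply, nsmul_eq_mul,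
        dv_apply] at this
      linarith only [this]
    refine ⟨f, hf, fun x hx => ?_, fun x => ?_⟩
    · rw [h5, h1 x hx, zero_sub]; exact (dvd_mul_right _ _).neg_right
    · rw [h5]; push_cast; simp [h2]

lemma Cl.act {n : ℕ} {f : F} {c c' : JJ k F n} (s : SA k F) (h : Cl n f c) (hc : c'.1 = s • c.1) :
    Cl n (s.1 f) c' := by
  obtain ⟨hf, D, h1, h2⟩ := h
  exact ⟨by simpa using hf, s • D, by rw [SA.dv_act, h1, SA.act_nsmul], by rw [hc, ← h2]; rfl⟩

section Ov

variable {Ω : Type} [Field Ω] [Algebra F Ω]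

/-- The valuation ring `V` lies over the place `x`. -/
def Ov (V : ValuationSubring Ω) (x : Place k F) : Prop :=
  ∀ f : F, algebraMap F Ω f ∈ V ↔ 0 ≤ x.ord f

omit [FF k F] in
lemma exists_ov (x : Place k F) : ∃ V : ValuationSubring Ω, Ov V x := by
  obtain ⟨V, hV⟩ := H7.val_ext (F := Ω) x.v.valuationSubring
  exact ⟨V, fun f => by rw [hV, Valuation.mem_valuationSubring_iff, Place.v_le_one]⟩

omit [FF k F] in
lemma Ov.ne_top {V : ValuationSubring Ω} {x : Place k F} (h : Ov V x) : V ≠ ⊤ := by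
  rintro rfl
  obtain ⟨t, -, ht⟩ := x.exists_ord (-1)
  have := (h t).1 trivial
  omega

variable [Algebra k Ω] [IsScalarTower k F Ω]

omit [FF k F] in
lemma Ov.const {V : ValuationSubring Ω} {x : Place k F} (h : Ov V x) (c : k) :
    algebraMap k Ω c ∈ V := by
  rw [IsScalarTower.algebraMap_apply k F Ω, h]; simp

lemma exists_ov' [Algebra.IsAlgebraic F Ω] (V : ValuationSubring Ω) (hV : V ≠ ⊤)
    (hk : ∀ c : k, algebraMap k Ω c ∈ V) : ∃ x : Place k F, Ov V x := by
  obtain ⟨x, hx⟩ := exists_place_subring (k := k) (V.comap (algebraMap F Ω))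
    (fun c => by rw [ValuationSubring.mem_comap, ← IsScalarTower.algebraMap_apply]; exact hk c)
    (fun h => hV (by
      refine eq_top_iff.2 fun z _ => ?_
      have h1 : ∀ f : F, algebraMap F Ω f ∈ V := fun f => by
        rw [← ValuationSubring.mem_comap, h]; trivial
      let _ : Algebra F V := ((algebraMap F Ω).codRestrict V.toSubring h1).toAlgebra
      have : IsScalarTower F V Ω := IsScalarTower.of_algebraMap_eq fun _ => rfl
      have h2 : IsIntegral V z := (Algebra.IsAlgebraic.isAlgebraic (R := F) z).isIntegral.tower_top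
      obtain ⟨y, rfl⟩ := IsIntegrallyClosed.isIntegral_iff.1 h2
      exact y.2))
  exact ⟨x, fun f => by rw [hx, ValuationSubring.mem_comap]⟩

omit [FF k F] [Algebra k Ω] [IsScalarTower k F Ω] in
lemma Ov.act {V V' : ValuationSubring Ω} {x x' : Place k F} (h : Ov V x) (h' : Ov V' x')
    (ψ : Ω → Ω) (s : SA k F) (hs : ∀ f, ψ (algebraMap F Ω f) = algebraMap F Ω (s.1 f))
    (hV : ∀ z, ψ z ∈ V ↔ z ∈ V') : s • x' = x := by
  refine Place.ext_le fun f hf => ?_
  obtain ⟨f, rfl⟩ := s.1.surjective f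
  rw [SA.ord_act, ← h', ← hV, hs, h] at hf
  exact hf

omit [FF k F] [Algebra k Ω] [IsScalarTower k F Ω] in
lemma Ov.map {V' : ValuationSubring Ω} {x' : Place k F} (h' : Ov V' x')
    (ψ : Ω ≃+* Ω) (s : SA k F) (hs : ∀ f, ψ (algebraMap F Ω f) = algebraMap F Ω (s.1 f)) :
    Ov (V'.comap (ψ.symm : Ω →+* Ω)) (s • x') := fun f => by
  obtain ⟨f, rfl⟩ := s.1.surjective f
  rw [SA.ord_act, ← h', ValuationSubring.mem_comap, ← hs]
  simp

end Ov

end Pool.Agent.MP_855f4c_ag.H47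

end

section

namespace Pool.Agent.MP_855f4c_ag.H47

open WD H7

lemma card_split {X : Type} (S : Finset X) (p : X → Prop) [Finite {x // p x}] :
    Nat.card {x // p x} = Nat.card {x : S // p x} + Nat.card {y : {y // y ∉ S} // p y.1} := by
  classical
  let E : {x // p x} ≃ {x : S // p x} ⊕ {y : {y // y ∉ S} // p y.1} :=
    { toFun x := if h : x.1 ∈ S then .inl ⟨⟨x.1, h⟩, x.2⟩ else .inr ⟨⟨x.1, h⟩, x.2⟩
      invFun := Sum.elim (fun a => ⟨a.1.1, a.2⟩) fun a => ⟨a.1.1, a.2⟩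
      left_inv x := by by_cases h : x.1 ∈ S <;> simp [h]
      right_inv := by rintro (⟨⟨a, h⟩, _⟩ | ⟨⟨a, h⟩, _⟩) <;> simp [h] }
  have := Finite.of_equiv _ E
  have h1 := Finite.sum_left (α := {x : S // p x}) {y : {y // y ∉ S} // p y.1}
  have h2 := Finite.sum_right (β := {y : {y // y ∉ S} // p y.1}) {x : S // p x}
  rw [Nat.card_congr E, Nat.card_sum]

variable {k K Ω : Type} [Field k] [Field K] [Field Ω] [Algebra k K] [Algebra K Ω]
  [Algebra k Ω] [IsScalarTower k K Ω]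

section F

variable (F : Type) [Field F] [Algebra k F] [Algebra K F] [FF k F]

variable (k) in
/-- The poles of the elements of `T`. -/
noncomputable def SS (T : Finset K) : Finset (Place k F) :=
  Set.Finite.toFinset (s := {x | ∃ f ∈ T, x.ord (algebraMap K F f) < 0})
    ((T.finite_toSet.biUnion fun f _ => finite_ord (k := k) (algebraMap K F f)).subset
      fun _ ⟨_, hf, h⟩ => Set.mem_biUnion hf h.ne)

variable {F} {T : Finset K} {x : Place k F}

omit [Algebra k K] in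
lemma not_mem_SS : x ∉ SS k F T ↔ ∀ f ∈ T, 0 ≤ x.ord (algebraMap K F f) := by
  simp [SS]

omit [Algebra k K] in
lemma SS_act (s : SA k F) (hs : ∀ f ∈ T, s.1 (algebraMap K F f) = algebraMap K F f) :
    s • x ∈ SS k F T ↔ x ∈ SS k F T := by
  rw [← not_iff_not, not_mem_SS, not_mem_SS]
  exact forall₂_congr fun f hf => by rw [← hs f hf, SA.ord_act, hs f hf]

variable [IsScalarTower k K F] [Algebra F Ω] [IsScalarTower K F Ω] [IsScalarTower k F Ω]

omit [IsScalarTower k K Ω] [IsScalarTower k K F] in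
lemma pt_iff {V : ValuationSubring Ω} (h : Ov V x) : Pt k T V ↔ x ∉ SS k F T := by
  rw [not_mem_SS]
  refine ⟨fun H f hf => ?_, fun H => ⟨h.ne_top, h.const, fun f hf => ?_⟩⟩
  · rw [← h, ← IsScalarTower.algebraMap_apply]; exact H.reg f hf
  · rw [IsScalarTower.algebraMap_apply K F Ω, h]; exact H f hf

variable (k F) in
/-- The action of the absolute group on `F`. -/
noncomputable def rs [Normal K F] : (Ω ≃ₐ[K] Ω) →* SA k F :=
  (SA.ofGal k K).comp (AlgEquiv.restrictNormalHom F)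

variable [Normal K F]

omit [Algebra k Ω] [IsScalarTower k K Ω] [FF k F] [IsScalarTower k F Ω] in
lemma rs_spec (g : Ω ≃ₐ[K] Ω) (f : F) :
    g (algebraMap F Ω f) = algebraMap F Ω ((rs k F g).1 f) :=
  (g.restrictNormal_commutes F f).symm

omit [Algebra k Ω] [IsScalarTower k K Ω] [FF k F] [IsScalarTower k F Ω] in
lemma rs_eq_one (g : Ω ≃ₐ[K] Ω) :
    rs k F g = 1 ↔ ∀ f : F, g (algebraMap F Ω f) = algebraMap F Ω f := by
  refine ⟨fun h f => by rw [rs_spec (k := k), h]; rfl, fun h => Subtype.ext (RingEquiv.ext fun f => ?_)⟩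
  exact (algebraMap F Ω).injective (by rw [← rs_spec, h]; rfl)

omit [Algebra k Ω] [IsScalarTower k K Ω] [FF k F] [IsScalarTower k F Ω] in
lemma rs_alg (g : Ω ≃ₐ[K] Ω) (f : K) : (rs k F g).1 (algebraMap K F f) = algebraMap K F f :=
  (g.restrictNormal F).commutes f

variable [IsAlgClosed Ω] [Algebra.IsAlgebraic K Ω]

omit [Algebra k Ω] [IsScalarTower k K Ω] [FF k F] [IsScalarTower k F Ω] in
lemma rs_surj (g : F ≃ₐ[K] F) : ∃ g' : Ω ≃ₐ[K] Ω, rs k F g' = SA.ofGal k K g := by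
  have : IsAlgClosure K Ω := ⟨inferInstance, inferInstance⟩
  obtain ⟨g', h⟩ := AlgEquiv.restrictNormalHom_surjective (F := K) (K₁ := F) Ω g
  exact ⟨g', congrArg (SA.ofGal k K) h⟩

variable {p q l : ℕ} (D : Cv p q l k K Ω) {M : Subgroup (Ω ≃ₐ[K] Ω)}

/-- The group of an admissible cover acts freely on the open curve. -/
lemma free_act (hM : D.adm M) (h1 : ∀ g, rs k F g = 1 → g ∈ M) (hx : x ∉ SS k F D.T)
    (g : Ω ≃ₐ[K] Ω) (h : rs k F g • x = x) : g ∈ M := by
  have : Algebra.IsAlgebraic F Ω := Algebra.IsAlgebraic.tower_top (K := K) F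
  obtain ⟨V, hV⟩ := exists_ov (Ω := Ω) x
  have h2 := hV.map g.toRingEquiv (rs k F g) (rs_spec g)
  rw [h] at h2
  obtain ⟨g', hg'⟩ := val_conj V _ fun f : F => (hV f).trans (h2 f).symm
  have h3 : g'.restrictScalars K * g ∈ M := hM.2 V ((pt_iff hV).2 hx) _ fun z => by
    change g' (g z) ∈ V ↔ _
    rw [hg', ValuationSubring.mem_comap]
    simp
  exact (M.mul_mem_cancel_left (h1 _ ((rs_eq_one _).2 fun f => g'.commutes f))).1 h3

lemma ee_one [FF k K] [IsGalois K F] (hM : D.adm M) (h1 : ∀ g, g ∈ M ↔ rs k F g = 1)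
    (hx : x ∉ SS k F D.T) : ee (inc k K F) x = 1 := by
  refine (ee_eq_one_iff x).2 fun g hg => ?_
  obtain ⟨g', h⟩ := rs_surj (k := k) (Ω := Ω) g
  have h2 := (h1 _).1 (free_act D hM (fun g => (h1 g).2) hx g' (h ▸ hg))
  rw [h] at h2
  exact AlgEquiv.ext fun f => DFunLike.congr_fun (congrArg Subtype.val h2) f

end F

instance ffL [FF k K] (L : IntermediateField K Ω) [FiniteDimensional K L] : FF k L :=
  FF.of_finite k K L

instance stL (L : IntermediateField K Ω) : IsScalarTower k L Ω :=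
  IsScalarTower.of_algebraMap_eq fun _ => rfl

lemma rs_eq_one' (L : IntermediateField K Ω) [Normal K L] (g : Ω ≃ₐ[K] Ω) :
    rs k L g = 1 ↔ ∀ z ∈ L, g z = z := by
  rw [rs_eq_one]; exact ⟨fun h z hz => h ⟨z, hz⟩, fun h f => h f f.2⟩

variable [IsAlgClosed Ω] [Algebra.IsAlgebraic K Ω] [FF k K] {p q l : ℕ} (D : Cv p q l k K Ω)

/-- Orders off `S` do not change in an admissible cover. -/
lemma dvd_ord {M : Subgroup (Ω ≃ₐ[K] Ω)} (hM : D.adm M) (L L' : IntermediateField K Ω)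
    [FiniteDimensional K L] [FiniteDimensional K L'] [IsGalois K L'] (hle : L ≤ L')
    (h1 : ∀ g, g ∈ M ↔ ∀ z ∈ L', g z = z) {y : Ω} (hy : y ∈ L') {n : ℕ} {f : L}
    (hf : y ^ n = f) {x : Place k L} (hx : x ∉ SS k L D.T) : (n : ℤ) ∣ x.ord f := by
  let ι : L →ₐ[k] L' := (IntermediateField.inclusion hle).restrictScalars k
  obtain ⟨x', rfl⟩ := res_surj ι x
  have hx' : x' ∉ SS k L' D.T := not_mem_SS.2 fun a ha => by
    have := ord_res ι x' (algebraMap K L a)
    have h2 := not_mem_SS.1 hx a ha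
    change x'.ord (algebraMap K L' a) = _ at this
    rw [this]; positivity
  have h2 := ee_one D hM (fun g => (h1 g).trans (rs_eq_one' L' g).symm) hx'
  have h3 := (res_comp (inc k K L) ι x').2
  rw [show ι.comp (inc k K L) = inc k K L' from AlgHom.ext fun _ => rfl, h2] at h3
  have h4 := ord_res ι x' f
  rw [Nat.eq_one_of_mul_eq_one_right h3.symm, show ι f = ⟨y, hy⟩ ^ n from Subtype.ext hf.symm,
    Place.ord_pow, Nat.cast_one, one_mul] at h4
  exact ⟨_, h4.symm⟩

lemma kd {N : Subgroup (Ω ≃ₐ[K] Ω)} (hN : D.adm N) (L : IntermediateField K Ω)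
    [FiniteDimensional K L] [IsGalois K L] (hL : ∀ g, g ∈ N ↔ ∀ z ∈ L, g z = z) {n : ℕ}
    (hn : (n : k) ≠ 0) {e : AddChar (ZMod n) Ω} (e1 : Function.Injective e)
    (e2 : ∀ c : Ω, c ^ n = 1 → ∃ a, e a = c) (e3 : ∀ a, ∃ c : k, e a = algebraMap k Ω c) :
    KD D.A N e (fun (x : Place k L) (f : L) => x.ord f) (SS k L D.T) := by
  have hn0 : 0 < n := Nat.pos_of_ne_zero (by rintro rfl; simp at hn)
  have hk : ∀ (g : Ω ≃ₐ[K] Ω) (c : k), g (algebraMap k Ω c) = algebraMap k Ω c := fun g c => by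
    rw [IsScalarTower.algebraMap_apply k K Ω, g.commutes]
  have he : ∀ (g : Ω ≃ₐ[K] Ω) a, g (e a) = e a := fun g a => by
    obtain ⟨c, hc⟩ := e3 a; rw [hc, hk]
  refine ⟨hn0, e1, e2, he, fun g hg f => (hL g).1 hg f f.2,
    fun f => IsAlgClosed.exists_pow_nat_eq _ hn0, fun y f hy h => ?_, fun y f hf hy h => ?_,
    fun χ => ?_, fun x f g => Place.ord_mul⟩
  · by_cases hf : f = 0
    · exact ⟨0, by simpa [hf, hn0.ne'] using hy⟩
    have hnL : (n : L) ≠ 0 := by
      rw [← map_natCast (algebraMap k L)]; exact (map_ne_zero _).2 hn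
    exact ⟨⟨y, mem_of_fixed L y ((Polynomial.separable_X_pow_sub_C f hnL hf).of_dvd
      (minpoly.dvd _ _ (by simp [hy]))) fun g hg => h g ((hL g).2 hg)⟩, rfl⟩
  · classical
    refine ⟨MulAction.stabilizer _ y, ⟨⟨{y}, fun g hg => hg y (by simp)⟩, fun V hV g hg => ?_⟩,
      fun g hg _ => hg⟩
    have hgN := (hL g).1 (hN.2 V hV g hg)
    obtain ⟨x, hx⟩ := exists_ov' (k := k) (F := L) V hV.ne hV.const
    obtain ⟨m, hm⟩ := h x ((pt_iff hx).1 hV)
    obtain ⟨t, ht0, ht⟩ := x.exists_ord m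
    have h0 : x.ord (f / t ^ n) = 0 := by
      rw [Place.ord_div hf (pow_ne_zero _ ht0), Place.ord_pow, ht, hm, sub_self]
    have ht1 : algebraMap L Ω t ≠ 0 := by simpa using ht0
    have hz : (y / algebraMap L Ω t) ^ n = algebraMap L Ω (f / t ^ n) := by
      rw [div_pow, hy, map_div₀, map_pow]
    have hz0 : y / algebraMap L Ω t ≠ 0 := fun h => by
      rw [h, zero_pow hn0.ne', eq_comm, map_eq_zero] at hz
      exact div_ne_zero hf (pow_ne_zero _ ht0) hz
    obtain ⟨c0, hc0⟩ := D.res V hV.ne hV.const _ (mem_of_pow_mem V hn0 (hz ▸ (hx _).2 h0.ge))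
    obtain ⟨a, ha⟩ := e2 (g (y / algebraMap L Ω t) / (y / algebraMap L Ω t)) (by
      rw [div_pow, ← map_pow, hz, div_eq_one_iff_eq (by rw [← hz]; exact pow_ne_zero _ hz0)]
      exact hgN _ (f / t ^ n).2)
    obtain ⟨c, hc⟩ := e3 a
    have h5 := const_eq_one V hV.const g.toRingEquiv hg (hk g) (mem_of_pow_mem V hn0 (by
      rw [inv_pow, hz, ← map_inv₀, hx, Place.ord_inv, h0, neg_zero])) hc0 (c := c)
      (by rw [← hc, ha, div_mul_cancel₀ _ hz0]; rfl)
    change g _ = _ at h5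
    rw [map_div₀, show g (algebraMap L Ω t) = algebraMap L Ω t from hgN _ t.2,
      div_left_inj' ht1] at h5
    exact h5
  · obtain ⟨hχ, M, hM, h0⟩ := χ.2
    obtain ⟨M', hle, _, hM'⟩ := D.A.norm (D.A.inf hM hN)
    have := D.A.fin hM'
    obtain ⟨E, hE⟩ := hM'.1
    obtain ⟨L', _, _, hL'⟩ := level M' E hE
    have hLL : L ≤ L' := fun z hz => mem_of_fixed L' z
      ((IntermediateField.isSeparable_of_mem_isSeparable K Ω hz).tower_top L')
      fun g hg => (hL g).1 (hle ((hL' g).2 hg)).2 z hz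
    obtain ⟨y, hy, hy0, hy'⟩ := resolvent N M' L' hL' e he χ.1 hχ (fun a ha => h0 a (hle ha).1)
      fun a => by
        obtain ⟨c, hc⟩ := e3 a
        rw [hc, IsScalarTower.algebraMap_apply k K Ω]; exact L'.algebraMap_mem _
    have h1 : y ^ n ∈ L := mem_of_fixed L _
      ((IntermediateField.isSeparable_of_mem_isSeparable K Ω (pow_mem hy n)).tower_top L)
      fun g hg => by
        have : NeZero n := ⟨hn0.ne'⟩
        rw [map_pow, hy' ⟨g, (hL g).2 hg⟩, mul_pow, ← AddChar.map_nsmul_eq_pow, nsmul_eq_mul,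
          ZMod.natCast_self, zero_mul, AddChar.map_zero_eq_one, one_mul]
    exact ⟨⟨_, h1⟩, ⟨fun h => pow_ne_zero n hy0 (congrArg Subtype.val h), y, rfl, hy'⟩,
      fun x hx => dvd_ord D hM' L L' hLL hL' hy rfl hx⟩

end Pool.Agent.MP_855f4c_ag.H47

end

section

attribute [-instance] SMulZeroClass.toSMul isNoetherian_of_isNoetherianRing_of_finite
  MonTypeEquivalenceMon.monMonoid RKHS.instFunLike SemilinearMapClass.toAddHomClass
  SetLike.GradeZero.instSemiring instFiniteOfFinitePresentation NormedDivisionRing.toDivisionRing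
  SetLike.GradeZero.instAlgebraSubtypeMemOfNat SetLike.GradeZero.instRing
  SetLike.GradeZero.instCommRing SetLike.GradeZero.instCommSemiring
  LieRinehartAlgebra.toIsScalarTower IntermediateField.isSeparable_tower_bot IdemSemiring.toSemiring
  DistribMulActionSemiHomClass.toAddMonoidHomClass
  ContinuousMonoidHom.instCoeOutOfMonoidHomClassOfContinuousMapClass instCoeOTCOfCoeTC
  instCharZeroOfIsSemireal SetLike.GradeZero.instMonoid NormedSpace.toModule
  NonUnitalRing.toNonUnitalNonAssocRing SubringClass.toRing GrpTypeEquivalenceGrp.grpGroup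
  NonUnitalSubringClass.toNonUnitalCommRing NormedAlgebra.toAlgebra

namespace Pool.Agent.MP_855f4c_ag.H47

open WD H7

/-- What sections II and III give for all function fields over `k`. -/
structure Inp (p l : ℕ) (k : Type) [Field k] : Prop where
  div : ∀ (F : Type) [Field F] [Algebra k F] [FF k F] (n : ℕ), (n : k) ≠ 0 → ∀ E : Div k F,
    deg E = 0 → ∃ B : Div k F, E - n • B ∈ prin k F
  fin : ∀ (F : Type) [Field F] [Algebra k F] [FF k F] (n : ℕ), (n : k) ≠ 0 → Finite (JJ k F n)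
  free : ∀ (F : Type) [Field F] [Algebra k F] [FF k F] (m n : ℕ), 0 < m → n = l ^ m →
    Module.Free (ZMod n) (JJ k F n)
  tr : ∀ (F : Type) [Field F] [Algebra k F] [FF k F] (m n : ℕ), 0 < m → n = l ^ m →
    ∀ (s : SA k F) (e : ℕ), e ≠ 0 → (∀ c, SA.cst s c = c ^ p ^ e) →
      Finite {x : Place k F // s • x = x} ∧ LinearMap.trace (ZMod n) _ (SA.jac s n) =
        1 + (p ^ e : ℕ) - (Nat.card {x : Place k F // s • x = x} : ZMod n)
  tr0 : ∀ (F : Type) [Field F] [Algebra k F] [FF k F] (m n : ℕ), 0 < m → n = l ^ m →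
    ∀ s : SA k F, SA.cst s = 1 → s ≠ 1 → (∃ a, s ^ l ^ a = 1) →
      LinearMap.trace (ZMod n) _ (SA.jac s n) =
        2 - (Nat.card {x : Place k F // s • x = x} : ZMod n)

variable {k K Ω : Type} [Field k] [Field K] [Field Ω] [Algebra k K] [Algebra K Ω]
  [Algebra k Ω] [IsScalarTower k K Ω]

lemma exists_SA [IsAlgClosed k] (L : IntermediateField K Ω) (ψ : Ω ≃+* Ω)
    (h : ∀ z, ψ z ∈ L ↔ z ∈ L) {Q : ℕ} (hQ : 0 < Q)
    (hc : ∀ c : k, ψ (algebraMap k Ω c) = algebraMap k Ω (c ^ Q)) :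
    ∃ s : SA k L, (∀ f : L, ψ (algebraMap L Ω f) = algebraMap L Ω (s.1 f)) ∧
      ∀ c, SA.cst s c = c ^ Q := by
  let s : L ≃+* L :=
    { toFun z := ⟨ψ z, (h _).2 z.2⟩
      invFun z := ⟨ψ.symm z, (h _).1 (by simp)⟩
      left_inv z := Subtype.ext (by simp)
      right_inv z := Subtype.ext (by simp)
      map_mul' a b := Subtype.ext (by simp)
      map_add' a b := Subtype.ext (by simp only [IntermediateField.coe_add, map_add, AddMemClass.mk_add_mk]) }
  have hs : ∀ c : k, s (algebraMap k L c) = algebraMap k L (c ^ Q) := fun c => Subtype.ext (hc c)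
  refine ⟨⟨s, fun f => ⟨fun ⟨c, hc⟩ => ?_, fun ⟨c, hc⟩ => ⟨c ^ Q, by rw [← hs, hc]⟩⟩⟩,
    fun _ => rfl, fun c => SA.cst_eq _ _ _ (hs c)⟩
  obtain ⟨c, rfl⟩ := IsAlgClosed.exists_pow_nat_eq c hQ
  exact ⟨c, s.injective (by rw [hs, hc])⟩

variable {p q l : ℕ} (D : Cv p q l k K Ω)

lemma pow_α (j : ℕ) (g : Ω ≃ₐ[K] Ω) (z : Ω) : (D.φ ^ j) (D.α^[j] g z) = g ((D.φ ^ j) z) := by
  induction j generalizing z with
  | zero => rfl
  | succ j ih =>
    rw [Function.iterate_succ_apply', D.α_apply, pow_succ]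
    change (D.φ ^ j) (D.φ _) = g ((D.φ ^ j) (D.φ z))
    rw [RingEquiv.apply_symm_apply, ih]

lemma pow_φ (j : ℕ) (f : K) : (D.φ ^ j) (algebraMap K Ω f) = algebraMap K Ω ((D.σ ^ j) f) := by
  induction j generalizing f with
  | zero => rfl
  | succ j ih =>
    rw [pow_succ, pow_succ]
    change (D.φ ^ j) (D.φ _) = algebraMap K Ω ((D.σ ^ j) (D.σ f))
    rw [D.hφ, ih]

lemma pow_k (j : ℕ) (c : k) : (D.φ ^ j) (algebraMap k Ω c) = algebraMap k Ω (c ^ q ^ j) := by
  induction j generalizing c with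
  | zero => simp
  | succ j ih =>
    rw [pow_succ]
    change (D.φ ^ j) (D.φ _) = _
    rw [IsScalarTower.algebraMap_apply k K Ω, D.hφ, D.hk, ← map_pow,
      ← IsScalarTower.algebraMap_apply, ih, ← pow_mul, pow_succ']

lemma pow_T (j : ℕ) (f : K) (hf : f ∈ D.T) : (D.σ ^ j) f = f := by
  induction j with
  | zero => rfl
  | succ j ih =>
    rw [pow_succ]
    change (D.σ ^ j) (D.σ f) = f
    rw [D.hT f hf, ih]

lemma α_surj : Function.Surjective D.α := fun g =>
  ⟨{ (D.φ.symm.trans g.toRingEquiv).trans D.φ with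
      commutes' := fun f => by
        obtain ⟨f, rfl⟩ := D.σ.surjective f
        change D.φ (g (D.φ.symm _)) = _
        rw [← D.hφ, RingEquiv.symm_apply_apply, g.commutes] },
    AlgEquiv.ext fun z => by
      change D.φ.symm (D.φ (g (D.φ.symm (D.φ z)))) = _
      simp⟩

variable [IsAlgClosed Ω] [Algebra.IsAlgebraic K Ω] {N : Subgroup (Ω ≃ₐ[K] Ω)}
  (L : IntermediateField K Ω) [IsGalois K L] (hL : ∀ g, g ∈ N ↔ ∀ z ∈ L, g z = z)
include hL

lemma stable [N.FiniteIndex] (hα : ∀ a ∈ N, D.α a ∈ N) (j : ℕ) (z : Ω) :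
    (D.φ ^ j) z ∈ L ↔ z ∈ L := by
  have h1 : N ≤ N.comap D.α := hα
  have h2 := Subgroup.relIndex_mul_index h1
  rw [Subgroup.index_comap_of_surjective _ (α_surj D)] at h2
  have h3 := Subgroup.relIndex_eq_one.1
    ((mul_eq_right₀ (Subgroup.FiniteIndex.index_ne_zero (H := N))).1 h2)
  have h4 : ∀ z, D.φ z ∈ L ↔ z ∈ L := fun z => by
    constructor
    · intro hz
      have hs := (IntermediateField.isSeparable_of_mem_isSeparable K Ω hz).of_equiv_equiv
        D.σ.symm D.φ.symm (RingHom.ext fun f => by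
          obtain ⟨f, rfl⟩ := D.σ.surjective f
          change algebraMap K Ω (D.σ.symm _) = D.φ.symm (algebraMap K Ω _)
          rw [← D.hφ]; simp)
      rw [RingEquiv.symm_apply_apply] at hs
      refine mem_of_fixed L z (hs.tower_top L) fun g hg => ?_
      obtain ⟨g, rfl⟩ := α_surj D g
      rw [D.α_apply, (hL g).1 (h3 ((hL _).2 hg)) _ hz, RingEquiv.symm_apply_apply]
    · intro hz
      have hs := (IntermediateField.isSeparable_of_mem_isSeparable K Ω hz).of_equiv_equiv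
        D.σ D.φ (RingHom.ext fun f => (D.hφ f).symm)
      refine mem_of_fixed L _ (hs.tower_top L) fun g hg => D.φ.symm.injective ?_
      rw [← D.α_apply, (hL _).1 (hα g ((hL g).2 hg)) z hz, RingEquiv.symm_apply_apply]
  induction j generalizing z with
  | zero => rfl
  | succ j ih => rw [pow_succ]; exact (ih (D.φ z)).trans (h4 z)

variable [FF k K] [FiniteDimensional K L]

lemma main (hI : Inp p l k) (hN : D.adm N) (n m : ℕ) (hm : 0 < m) (hn : n = l ^ m) :
    Module.Free (ZMod n) (D.A.Hm N (ZMod n)) ∧ Module.Finite (ZMod n) (D.A.Hm N (ZMod n)) ∧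
    ∀ (ψ : Ω ≃+* Ω) (s : SA k L) (Q : ℕ) (T : Module.End (ZMod n) (D.A.Hm N (ZMod n))),
      (∀ f, ψ (algebraMap L Ω f) = algebraMap L Ω (s.1 f)) →
      (∀ f ∈ D.T, s.1 (algebraMap K L f) = algebraMap K L f) → (∀ c, SA.cst s c = c ^ Q) →
      (∀ a : N, ∃ b : N, (∀ y, a.1 (ψ y) = ψ (b.1 y)) ∧ ∀ χ, (T χ).1 a = χ.1 b) →
      Finite {x : Place k L // s • x = x} → LinearMap.trace (ZMod n) _ (SA.jac s n) =
        1 + Q - (Nat.card {x : Place k L // s • x = x} : ZMod n) →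
      (Q : ZMod n) * LinearMap.trace (ZMod n) _ T =
        Q - (Nat.card {y : {y // y ∉ SS k L D.T} // s • y.1 = y.1} : ZMod n) := by
  classical
  have := D.char
  have := D.closed
  have hnk : (n : k) ≠ 0 := by
    rw [hn, Nat.cast_pow]
    refine pow_ne_zero _ fun h => D.hlp ?_
    exact ((Nat.prime_dvd_prime_iff_eq D.hp D.hl).1 ((CharP.cast_eq_zero_iff k p l).1 h)).symm
  have hn0 : 0 < n := hn ▸ pow_pos D.hl.pos m
  obtain ⟨e, e1, e2, e3⟩ := exists_char k Ω n hnk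
  have hS : (SS k L D.T).Nonempty := by
    obtain ⟨x, hx⟩ := exists_pole (k := k) (f := algebraMap K L D.X) (by
      rintro ⟨c, hc⟩
      rw [IsScalarTower.algebraMap_apply k K L] at hc
      exact D.tr ((algebraMap K L).injective hc ▸ isAlgebraic_algebraMap c))
    exact ⟨x, by_contra fun h => (not_mem_SS.1 h _ D.hX).not_gt hx⟩
  have := hI.free L m n hm hn
  have := hI.fin L n hnk
  obtain ⟨h1, h2, h3⟩ := core (kd D hN L hL hnk e1 e2 e3) (jd hn0 _ hS fun E hE => by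
    obtain ⟨B, hB⟩ := hI.div L n hnk E hE
    exact ⟨B, by rw [← sub_eq_zero, ← map_sub]; exact cls_eq_zero.2 hB⟩) hS
  refine ⟨h1, h2, fun ψ s Q T hψ hT hc hb hf htr => ?_⟩
  have h4 := h3 ψ s.1 Q ((MulAction.toPerm s⁻¹).subtypeEquiv fun x => by
      rw [MulAction.toPerm_apply, ← SS_act (x := s⁻¹ • x) s hT, smul_inv_smul]) (SA.jac s n) T hψ
    (fun a => by
      obtain ⟨c, h⟩ := e3 a
      rw [h, IsScalarTower.algebraMap_apply k L Ω, hψ, SA.map_const, hc, map_pow, map_pow])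
    (fun x f => SA.ord_map s x f) (fun f c h => h.act s rfl) hb
  rw [← Fintype.card_subtype, ← Nat.card_eq_fintype_card,
    Nat.card_congr (Equiv.subtypeEquivRight (q := fun x : SS k L D.T => s • x.1 = x.1) fun x =>
      Subtype.ext_iff.trans ((inv_smul_eq_iff (g := s)).trans eq_comm)), htr,
    card_split (SS k L D.T)] at h4
  push_cast at h4
  linear_combination h4

end Pool.Agent.MP_855f4c_ag.H47

end

section

attribute [-instance] SMulZeroClass.toSMul SetLike.GradeZero.instCommRing Ring.toSemiring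
  SetLike.GradeZero.instAlgebraSubtypeMemOfNat SetLike.GradeZero.instSemiring
  SetLike.GradeZero.instCommSemiring SetLike.GradeZero.instMonoid MonTypeEquivalenceMon.monMonoid
  NonUnitalRingHomClass.toMulHomClass IsPurelyInseparable.normal LieRinehartAlgebra.toIsScalarTower
  RKHS.instFunLike NormedCommRing.toCommRing littleWedderburn IdemSemiring.toSemiring
  MonoidWithZero.toMonoid NormedSpace.toModule Torsor.toMulAction
  ContinuousMonoidHom.instCoeOutOfMonoidHomClassOfContinuousMapClass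
  NonUnitalAlgSemiHomClass.toMulHomClass SemigroupWithZero.toSemigroup
  NonUnitalNonAssocSemiring.toDistrib AlgHomClass.toRingHomClass instCoeTCOfCoe

namespace Pool.Agent.MP_855f4c_ag.H47

open WD H7

variable {k K Ω : Type} [Field k] [Field K] [Field Ω] [Algebra k K] [Algebra K Ω]
  [Algebra k Ω] [IsScalarTower k K Ω] {p q l : ℕ} (D : Cv p q l k K Ω)

/-- The fixed points on the open cover, counted fibre by fibre. -/
lemma count [IsAlgClosed Ω] [Algebra.IsAlgebraic K Ω] {N : Subgroup (Ω ≃ₐ[K] Ω)}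
    (L : IntermediateField K Ω) [IsGalois K L] (hL : ∀ g, g ∈ N ↔ ∀ z ∈ L, g z = z) [FF k K]
    [FiniteDimensional K L] (hN : D.adm N) (j : ℕ) (hj : 0 < j) (s : SA k L)
    (hs : ∀ f, (D.φ ^ j) (algebraMap L Ω f) = algebraMap L Ω (s.1 f)) (h : Ω ≃ₐ[K] Ω) :
    Nat.card {y : {y // y ∉ SS k L D.T} // (s * rs k L h) • y.1 = y.1} =
      ∑ x : D.U j, Fx.cnt N (D.α^[j]) h (D.f j x) := by
  have := D.A.fin hN
  have hL' : ∀ g, g ∈ N ↔ rs k L g = 1 := fun g => (hL g).trans (rs_eq_one' L g).symm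
  have hsK : ∀ f, s.1 (algebraMap K L f) = algebraMap K L ((D.σ ^ j) f) := fun f =>
    (algebraMap L Ω).injective (by rw [← hs]; exact pow_φ D j f)
  have hsT : ∀ f ∈ D.T, s.1 (algebraMap K L f) = algebraMap K L f := fun f hf => by
    rw [hsK, pow_T D j f hf]
  let _ : MulAction (Ω ≃ₐ[K] Ω) {y // y ∉ SS k L D.T} :=
    { smul g y := ⟨rs k L g • y.1, mt (SS_act _ fun f _ => rs_alg g f).1 y.2⟩
      one_smul y := Subtype.ext (by change rs k L 1 • y.1 = _; rw [map_one, one_smul])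
      mul_smul g g' y := Subtype.ext (by
        change rs k L (g * g') • y.1 = rs k L g • rs k L g' • y.1; rw [map_mul, mul_smul]) }
  have hsm : ∀ (g : Ω ≃ₐ[K] Ω) (y : {y // y ∉ SS k L D.T}), (g • y).1 = rs k L g • y.1 :=
    fun _ _ => rfl
  let π : {y // y ∉ SS k L D.T} → ValuationSubring K := fun y =>
    y.1.v.valuationSubring.comap (algebraMap K L)
  have hπ : ∀ y a, a ∈ π y ↔ 0 ≤ y.1.ord (algebraMap K L a) := fun y a => by
    rw [ValuationSubring.mem_comap, Valuation.mem_valuationSubring_iff, Place.v_le_one]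
  have key : ∀ x : D.U j, ∃ y, π y = x.1 ∧ s • rs k L (D.f j x) • y.1 = y.1 := fun x => by
    obtain ⟨V, hV, h1, h2⟩ := D.f_spec j x
    obtain ⟨y, hy⟩ := exists_ov' (k := k) (F := L) V hV.ne hV.const
    refine ⟨⟨y, (pt_iff hy).1 hV⟩, ValuationSubring.ext _ _ fun a => ?_, ?_⟩
    · rw [hπ, ← hy, ← h1]; rfl
    · rw [← mul_smul]
      exact hy.act hy _ _ (fun f => by rw [rs_spec (k := k), hs]; rfl) h2
  choose y0 hy0 hf using key
  rw [← Fx.fix_count N π
    (fun g y => ⟨fun h => free_act D hN (fun g => (hL' g).2) y.2 g (congrArg Subtype.val h),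
      fun h => Subtype.ext (by rw [hsm, (hL' g).1 h, one_smul])⟩)
    (fun y y' => ⟨fun h => ?_, ?_⟩) (fun y => ⟨s • y.1, mt (SS_act s hsT).1 y.2⟩)
    (fun y y' h => Subtype.ext (MulAction.injective s (congrArg Subtype.val h)))
    (fun V => V.comap ((D.σ ^ j).symm : K →+* K)) (fun y => ValuationSubring.ext _ _ fun a => ?_)
    (D.α^[j]) (fun g y => Subtype.ext ?_) (fun x : D.U j => x.1) Subtype.val_injective
    (fun y hy => ⟨⟨π y, hj, ⟨fun h => ?_, fun c => ?_, fun f hf => ?_⟩, fun z => ?_⟩, rfl⟩)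
    y0 hy0 (D.f j) (fun i => Subtype.ext (hf i)) h]
  · exact Nat.card_congr (Equiv.subtypeEquivRight fun y => by
      rw [Subtype.ext_iff, mul_smul]; rfl)
  · obtain ⟨g, hg⟩ := gal_trans (K := K) (x := y.1) (x' := y'.1) (res_eq _ fun f hf => by
      refine (hπ y f).1 (h ▸ (hπ y' f).2 ?_)
      change 0 ≤ y'.1.ord (inc k K L f)
      rw [ord_res]; positivity)
    obtain ⟨g', hg'⟩ := rs_surj (k := k) (Ω := Ω) g
    exact ⟨g', Subtype.ext (by rw [hsm, hg', hg])⟩
  · rintro ⟨g, rfl⟩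
    refine ValuationSubring.ext _ _ fun a => ?_
    rw [hπ, hπ, hsm, ← SA.ord_act (rs k L g), rs_alg]
  · obtain ⟨a, rfl⟩ := (D.σ ^ j).surjective a
    rw [hπ, ← hsK, SA.ord_act, ValuationSubring.mem_comap, ← hπ, RingHom.coe_coe,
      RingEquiv.symm_apply_apply]
  · change s • rs k L _ • y.1 = rs k L g • s • y.1
    rw [← mul_smul, ← mul_smul]
    congr 1
    refine Subtype.ext (RingEquiv.ext fun f => (algebraMap L Ω).injective ?_)
    rw [SA.mul_apply, SA.mul_apply, ← hs, ← rs_spec, ← rs_spec, ← hs, pow_α]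
  · obtain ⟨t, -, ht⟩ := (res (inc k K L) y.1).exists_ord (-1)
    have h1 := (hπ y t).1 (h ▸ trivial)
    have h2 := ord_res (inc k K L) y.1 t
    have h3 := ee_pos (inc k K L) y.1
    change y.1.ord (algebraMap K L t) = _ at h2
    rw [ht] at h2
    omega
  · rw [hπ, ← IsScalarTower.algebraMap_apply]; simp
  · exact (hπ y f).2 (not_mem_SS.1 y.2 f hf)
  · conv_lhs => rw [← hy, ValuationSubring.mem_comap, RingHom.coe_coe, RingEquiv.symm_apply_apply]

theorem kum_of (hI : Inp p l k) : D.Kum := by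
  have := D.closed
  have := D.closedΩ
  have := D.algΩ
  have : FF k K := ⟨D.closed, D.X, D.tr, D.fd⟩
  have lev : ∀ N, D.A.Lev l N → ∃ L : IntermediateField K Ω, FiniteDimensional K L ∧
      IsGalois K L ∧ ∀ g, g ∈ N ↔ ∀ z ∈ L, g z = z := fun N hN => by
    have := hN.normal
    obtain ⟨E, hE⟩ := hN.adm.1
    exact level N E hE
  refine ⟨fun N hN n m hm hn => ?_, fun N hN n m hm hn h hh T hT => ?_,
    fun N hN hα n m hm hn j hj h T hT => ?_⟩ <;> obtain ⟨L, _, _, hL⟩ := lev N hN <;>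
    obtain ⟨h1, h2, h3⟩ := main D L hL hI hN.adm n m hm hn
  · exact ⟨h1, h2⟩
  · have hL' : ∀ g, g ∈ N ↔ rs k L g = 1 := fun g => (hL g).trans (rs_eq_one' L g).symm
    have hc : SA.cst (rs k L h) = 1 := SA.cst_ofGal _
    have hne : rs k L h ≠ 1 := mt (hL' h).2 hh
    have h4 := h3 h.toRingEquiv (rs k L h) 1 T (rs_spec h) (fun f _ => rs_alg h f)
      (fun c => by rw [hc, pow_one]; rfl)
      (fun a => ⟨⟨h⁻¹ * a * h, hN.normal.conj_mem' _ a.2 h⟩, fun y => by simp only [RingEquiv.coe_mk, AlgEquiv.toEquiv_eq_coe, EquivLike.coe_coe, AlgEquiv.mul_apply, AlgEquiv.coe_inv, AlgEquiv.apply_symm_apply],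
        fun χ => hT χ _ _ rfl⟩) (SA.finite_fixed _ hc hne)
      (by
        obtain ⟨a, ha⟩ := hN.pow h
        rw [hI.tr0 L m n hm hn _ hc hne ⟨a, by rw [← map_pow, ← hL']; exact ha⟩]
        norm_num only [])
    have : IsEmpty {y : {y // y ∉ SS k L D.T} // rs k L h • y.1 = y.1} :=
      ⟨fun y => hh (free_act D hN.adm (fun g => (hL' g).2) y.1.2 h y.2)⟩
    simpa only [Nat.cast_one, one_mul, Nat.card_of_isEmpty, Nat.cast_zero, sub_zero] using h4
  · have := D.A.fin hN.adm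
    obtain ⟨e, he, hq⟩ := D.hq
    have hq0 : 0 < q := hq ▸ pow_pos D.hp.pos e
    obtain ⟨s, hs, hc⟩ := exists_SA L (D.φ ^ j) (stable D L hL hα j) (pow_pos hq0 j) (pow_k D j)
    have hc' : ∀ c, SA.cst (s * rs k L h) c = c ^ q ^ j := fun c => by
      rw [map_mul, show SA.cst (rs k L h) = 1 from SA.cst_ofGal _, mul_one, hc]
    obtain ⟨h5, h6⟩ := hI.tr L m n hm hn (s * rs k L h) (e * j) (mul_ne_zero he hj.ne')
      (by rw [pow_mul, ← hq]; exact hc')
    rw [pow_mul, ← hq] at h6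
    have hαj : ∀ i, ∀ a ∈ N, D.α^[i] a ∈ N := fun i a ha => by
      induction i with
      | zero => exact ha
      | succ i ih => rw [Function.iterate_succ_apply']; exact hα _ ih
    have h4 := h3 (D.φ ^ j * h.toRingEquiv) (s * rs k L h) (q ^ j) T
      (fun f => by rw [SA.mul_apply, ← hs, ← rs_spec]; rfl)
      (fun f hf => (algebraMap L Ω).injective (by
        rw [SA.mul_apply, rs_alg, ← hs]
        exact (pow_φ D j f).trans (by rw [pow_T D j f hf]; rfl))) hc'
      (fun a => ⟨⟨h⁻¹ * D.α^[j] a * h, hN.normal.conj_mem' _ (hαj j _ a.2) h⟩, fun y => by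
        change a.1 ((D.φ ^ j) (h y)) = (D.φ ^ j) (h (h.symm (D.α^[j] a (h y))))
        rw [AlgEquiv.apply_symm_apply, pow_α], fun χ => hT χ _ _ rfl⟩) h5 h6
    rw [count D L hL hN.adm j hj s hs h] at h4
    simpa only [Nat.cast_pow, Nat.cast_sum] using h4

end Pool.Agent.MP_855f4c_ag.H47

end
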