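import Mathlib

section

attribute [-instance] ContinuousSemilinearMapClass.toSemilinearMapClass
  CoalgHomClass.toSemilinearMapClass littleWedderburn
  NonUnitalAlgHomClass.instSemilinearMapClassOfNonUnitalAlgSemiHomClassToMonoidHomRingHom
  LieAdmissibleAlgebra.toIsScalarTower instNonUnitalAlgHomClassOfNonUnitalAlgEquivClass
  RKHS.instFunLike NormedSpace.toModule instCharZeroOfIsSemireal
  isNoetherian_of_isNoetherianRing_of_finite TensorProduct.isScalarTower_right
  SemilinearIsometryClass.toSemilinearMapClass LieAlgebra.toModule instIsIntegralQuotientIdeal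
  AlgHomClass.linearMapClass MonTypeEquivalenceMon.monMonoid RingHomClass.toLinearMapClassNNRat
  RightPreLieAlgebra.toModule LeftPreLieAlgebra.toModule Subalgebra.smulCommClass_right
  LieRinehartAlgebra.toIsScalarTower RingHomClass.toLinearMapClassRat
  NumberField.instFiniteDimensional BialgEquivClass.toBialgHomClass
  MulRingSeminormClass.toMonoidWithZeroHomClass Bialgebra.toAlgebra LeftPreLieAlgebra.toIsScalarTower
  RightPreLieAlgebra.toIsScalarTower NormedField.toField IdemCommSemiring.toCommSemiring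
  KleeneAlgebra.toIdemSemiring MulSemiringActionSemiHomClass.toDistribMulActionSemiHomClass
  Algebra.IsAlgebraic.isPurelyInseparable_of_isSepClosed FloorSemiring.instCharZero
  IdemCommSemiring.toIdemSemiring SubringClass.toRing
  ContinuousMonoidHom.instCoeOutOfMonoidHomClassOfContinuousMapClass RCLike.charZero_rclike
  SubsemiringClass.toCommSemiring IsDedekindDomainDvr.isDedekindDomain NumberField.to_charZero
  BialgHomClass.toAlgHomClass ValuationClass.toMonoidWithZeroHomClass SubringClass.toCommRing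
  NonUnitalAlgHomClass.toNonUnitalRingHomClass AlgEquivClass.toAlgHomClass instCoeTCOfCoe
  Group.IsPerfect.subsingleton_of_isMulCommutative CentroidHomClass.toAddMonoidHomClass
  TestFunctionClass.toDFunLike MulEquivClass.toMonoidWithZeroHomClass DivisionRing.toDivisionSemiring
  SetLike.GradeZero.instRing LinearOrderedAddCommMonoidWithTop.toAddCommMonoid
  SetLike.GradeZero.instSemiring Action.FintypeCat.instMulActionObjFiniteOf
  ContDiffMapSupportedInClass.toDFunLike LieAdmissibleRing.toNonUnitalNonAssocRing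
  BialgHomClass.toMonoidHomClass MulCharClass.toMonoidHomClass SetLike.GradeZero.instCommRing
  SetLike.GradeZero.instCommSemiring instIsRightCancelAddOfAddRightReflectLE
  MulDistribMulActionSemiHomClass.toMonoidHomClass BooleanRing.toRing
  Module.Invertible.instTensorProduct_2 NormedRing.toRing AddCommGroupWithOne.toAddGroupWithOne
  DistribMulActionSemiHomClass.toMulActionSemiHomClass NonUnitalRing.toNonUnitalNonAssocRing
  LinearOrderedAddCommGroupWithTop.toAddCommMonoid NonUnitalNormedRing.toNormedAddCommGroup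
  Torsor.toMulAction CommMonTypeEquivalenceCommMon.commMonCommMonoid
  MulSemiringAction.toDistribMulAction IsometryClass.instCoeOutIsometryEquiv
  NormedCommRing.toCommRing RightPreLieRing.instLieAdmissibleRing IsScalarTower.subalgebra'
  Algebra.instFiniteOfIsQuadraticExtension NormedDivisionRing.toDivisionRing instCoeTOfCoeDep
  LinearEquiv.instEquivLike RingHom.Finite.instFinite
  ContinuousAddMonoidHom.instCoeOutOfAddMonoidHomClassOfContinuousMapClass
  IsSemisimpleModule.instIsNoetherianOfFinite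

section
/-! h86d section II, certificates. -/

namespace Pool.Agent.MP_855f4c_ag.WD.Tor

open scoped TensorProduct
open Filter

/-- Certificate that the ideal `(u, a)` has `n`-th power `(a)`. -/
def TC {B : Type} [CommRing B] (n : ℕ) (a a' u r r' : B) : Prop :=
  a * a' = u ^ n ∧ r * a + r' * a' = 1

/-- Certificate (with all data in `W`) that `(a) = (t) * J ^ n` for the ideal `(t)` of a point. -/
def GC {B ι : Type} [CommRing B] [Fintype ι] (n : ℕ) (t : ι → B) (W : Set B) : Prop :=
  ∃ (a u c : B) (r α β γ : ι → B), a ∈ W ∧ u ∈ W ∧ c ∈ W ∧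
    (∀ j, r j ∈ W ∧ α j ∈ W ∧ β j ∈ W ∧ γ j ∈ W) ∧ (∀ j, t j * u ^ n = a * r j) ∧
    ∑ j, (α j * r j + β j * (t j * a)) = 1 ∧ c * u + ∑ j, γ j * t j = 1

variable {k A : Type} [Field k] [CommRing A] [Algebra k A]

/-- Coordinates of a tensor in the basis `1 ⊗ b i`. -/
noncomputable def cf (F : Type) [CommRing F] [Algebra k F] {κ : Type} (b : Module.Basis κ k A)
    (w : F ⊗[k] A) (i : κ) : F := (Algebra.TensorProduct.basis F b).repr w i

end Pool.Agent.MP_855f4c_ag.WD.Tor
end

section
/-! h86d section II, row RIG: rigidity along the diagonal of `F ⊗ R₀`, then Krull. -/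

namespace Pool.Agent.MP_855f4c_ag.WD.Tor

open scoped TensorProduct

namespace RIG

section ring
variable {Q : Type} [CommRing Q] {m : ℕ}

lemma pow_add_sq {p h : Q} (hh : h ^ 2 = 0) :
    (p + h) ^ (m + 1) = p ^ (m + 1) + (m + 1 : ℕ) * p ^ m * h := by
  obtain ⟨c, hc⟩ := sq_dvd_add_pow_sub_sub h p (m + 1)
  rw [hh, zero_mul, Nat.add_sub_cancel] at hc
  linear_combination hc

lemma s1 {a a' u r r' u0 x h : Q} (H : TC (m + 1) a a' u r r') (ha : a ^ 2 = 0) (hh : h ^ 2 = 0)
    (hu : u = x * u0 + h) (h0 : u0 ^ (m + 1) = 0) : a * u0 = 0 := by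
  have h1 : u0 * u ^ (m + 1) = 0 := by
    rw [hu, pow_add_sq hh, mul_pow, mul_pow]
    linear_combination (u0 * x ^ (m + 1) + (m + 1 : ℕ) * x ^ m * h) * h0
  linear_combination (-(a * u0)) * H.2 + (r' * u0) * H.1 + r' * h1 + (r * u0) * ha

lemma s2 {u u0 x h : Q} (hn : IsUnit ((m + 1 : ℕ) : Q)) (H : u ^ (m + 1) = 0) (hh : h ^ 2 = 0)
    (hu : u = x * u0 + h) (h0 : u0 ^ (m + 1) = 0) (h1 : h * (u - u0) = 0) : u0 ^ m * h = 0 := by
  have h2 : ∀ i : ℕ, (x * u0) ^ i * h = u0 ^ i * h := fun i => by
    induction i with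
    | zero => simp
    | succ i ih =>
      have : x * u0 * h = u0 * h := by rw [hu] at h1; linear_combination h1 - hh
      rw [pow_succ, mul_assoc, this, mul_left_comm, ih]; ring
  rw [hu, pow_add_sq hh, mul_pow, h0, mul_zero, zero_add, mul_assoc, h2] at H
  exact hn.mul_right_eq_zero.1 H

end ring

variable {k A : Type} [Field k] [CommRing A] [Algebra k A] {κ : Type} (b : Module.Basis κ k A)

section cf
variable {R S : Type} [CommRing R] [Algebra k R] [CommRing S] [Algebra k S]

lemma cf_tmul (c : R) (a : A) (i : κ) : cf R b (c ⊗ₜ a) i = b.repr a i • c := by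
  simp [cf, Algebra.TensorProduct.basis_repr_tmul, Algebra.smul_def, mul_comm]

lemma cf_add (v w : R ⊗[k] A) (i : κ) : cf R b (v + w) i = cf R b v i + cf R b w i := by simp [cf]

lemma cf_sub (v w : R ⊗[k] A) (i : κ) : cf R b (v - w) i = cf R b v i - cf R b w i := by simp [cf]

lemma cf_ext {v w : R ⊗[k] A} (h : ∀ i, cf R b v i = cf R b w i) : v = w :=
  (Algebra.TensorProduct.basis R b).repr.injective (Finsupp.ext h)

lemma cf_rT (φ : R →ₗ[k] S) (w : R ⊗[k] A) (i : κ) :
    cf S b (φ.rTensor A w) i = φ (cf R b w i) := by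
  induction w using TensorProduct.induction_on with
  | zero => simp [cf]
  | tmul c a => rw [LinearMap.rTensor_tmul, cf_tmul, cf_tmul, map_smul]
  | add v w hv hw => rw [map_add, cf_add, cf_add, hv, hw, map_add]

lemma cf_map (f : R →ₐ[k] S) (w : R ⊗[k] A) (i : κ) :
    cf S b (Algebra.TensorProduct.map f (AlgHom.id k A) w) i = f (cf R b w i) :=
  cf_rT b f.toLinearMap w i

lemma mem_map (I : Ideal R) (w : R ⊗[k] A) :
    w ∈ I.map (algebraMap R (R ⊗[k] A)) ↔ ∀ i, cf R b w i ∈ I := by
  constructor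
  · intro h i
    have h' : w ∈ I • (⊤ : Submodule R (R ⊗[k] A)) := by rw [Ideal.smul_top_eq_map]; exact h
    refine Submodule.smul_induction_on h' (fun r hr x _ => ?_) fun x y hx hy => ?_
    · simpa only [cf, map_smul, Finsupp.coe_smul, Pi.smul_apply, smul_eq_mul] using I.mul_mem_right _ hr
    · rw [cf_add]; exact I.add_mem hx hy
  · intro h
    rw [← (Algebra.TensorProduct.basis R b).linearCombination_repr w, Finsupp.linearCombination_apply]
    refine Ideal.sum_mem _ fun i _ => ?_
    beta_reduce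
    rw [Algebra.smul_def]
    exact Ideal.mul_mem_right _ _ (Ideal.mem_map_of_mem _ (h i))

end cf

section loc
variable {F R : Type} [Field F] [Algebra k F] [CommRing R] [Algebra k R] [Algebra F R]
  [IsScalarTower k F R]

variable (k A F R) in
/-- extension of the constants -/
noncomputable def sc : F ⊗[k] A →ₐ[k] R ⊗[k] A :=
  Algebra.TensorProduct.map (IsScalarTower.toAlgHom k F R) (AlgHom.id k A)

lemma rT_mul (φ : R →ₗ[F] F) (x : F ⊗[k] A) (w : R ⊗[k] A) :
    (φ.restrictScalars k).rTensor A (sc k A F R x * w) = x * (φ.restrictScalars k).rTensor A w := by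
  induction x using TensorProduct.induction_on with
  | zero => simp
  | add x y hx hy => rw [map_add, add_mul, map_add, hx, hy, add_mul]
  | tmul c a =>
    induction w using TensorProduct.induction_on with
    | zero => simp only [mul_zero, map_zero]
    | add v w hv hw => rw [mul_add, map_add, hv, hw, map_add, mul_add]
    | tmul ρ a' => simp only [sc, Algebra.TensorProduct.map_tmul, IsScalarTower.coe_toAlgHom', AlgHom.coe_id, id_eq, Algebra.TensorProduct.tmul_mul_tmul, ← Algebra.smul_def, LinearMap.rTensor_tmul, LinearMap.coe_restrictScalars, map_smul, smul_eq_mul]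

include b in
lemma mem_iff (I : Ideal R) (w : R ⊗[k] A) : w ∈ I.map (algebraMap R (R ⊗[k] A)) ↔
    ∀ φ : R →ₗ[F] F, (∀ z ∈ I, φ z = 0) → (φ.restrictScalars k).rTensor A w = 0 := by
  rw [mem_map b]
  constructor
  · intro h φ hφ
    refine cf_ext b fun i => ?_
    rw [cf_rT, LinearMap.restrictScalars_apply, hφ _ (h i)]; simp [cf]
  · intro h i
    refine (Subspace.forall_mem_dualAnnihilator_apply_eq_zero_iff (I.restrictScalars F) _).1
      fun φ hφ => ?_
    have := cf_rT b (φ.restrictScalars k) w i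
    rw [h φ ((Submodule.mem_dualAnnihilator φ).1 hφ)] at this
    simpa only [cf, LinearMap.coe_restrictScalars, map_zero, Finsupp.coe_zero, Pi.zero_apply] using this.symm

lemma loc (dg : κ → ℕ) {m : ℕ} (hn : ((m + 1 : ℕ) : k) ≠ 0) {a a' u r r' : F ⊗[k] A}
    (h : TC (m + 1) a a' u r r') (ha : ∀ w, a * w = 0 → w = 0) (d : ℕ)
    (hmin : ∀ w, (∀ i, cf F b w i ≠ 0 → dg i < d) → a ∣ w * u → w = 0)
    {A1 A' U R1 R' : R ⊗[k] A} (H : TC (m + 1) A1 A' U R1 R') (I : Ideal R)
    (h1 : A1 - sc k A F R a ∈ I.map (algebraMap R (R ⊗[k] A)))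
    (h2 : U - sc k A F R u ∈ I.map (algebraMap R (R ⊗[k] A)))
    (h3 : ∀ i, cf R b (A1 - sc k A F R a) i ≠ 0 → dg i < d) (j : ℕ) :
    A1 - sc k A F R a ∈ I.map (algebraMap R (R ⊗[k] A)) ^ (j + 1) ∧
      ∃ x y, U - x * sc k A F R u - y * sc k A F R a ∈ I.map (algebraMap R (R ⊗[k] A)) ^ (j + 1) := by
  induction j with
  | zero => exact ⟨by simpa using h1, 1, 0, by simpa using h2⟩
  | succ j ih =>
    obtain ⟨g1, x, y, g2⟩ := ih
    set M := I.map (algebraMap R (R ⊗[k] A)) with hM
    set a0 := sc k A F R a with ha0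
    set u0 := sc k A F R u with hu0
    set η := U - x * u0 - y * a0 with hη
    have t1 : a0 * sc k A F R a' = u0 ^ (m + 1) := by rw [ha0, ← map_mul, h.1, map_pow]
    have t2 : sc k A F R r * a0 + sc k A F R r' * sc k A F R a' = 1 := by
      rw [ha0, ← map_mul, ← map_mul, ← map_add, h.2, map_one]
    have mm : ∀ {p q}, p ∈ M ^ (j + 1) → q ∈ M → p * q ∈ M ^ (j + 1 + 1) := fun hp hq => by
      rw [pow_succ M (j + 1)]; exact Ideal.mul_mem_mul hp hq
    have le1 : M ^ (j + 1) ≤ M := Ideal.pow_le_self (by omega)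
    let π := Ideal.Quotient.mk (Ideal.span {a0} ⊔ M ^ (j + 1 + 1))
    have z0 : π a0 = 0 :=
      Ideal.Quotient.eq_zero_iff_mem.2 (Ideal.mem_sup_left (Ideal.mem_span_singleton_self _))
    have z1 : ∀ {p}, p ∈ M ^ (j + 1 + 1) → π p = 0 := fun hp =>
      Ideal.Quotient.eq_zero_iff_mem.2 (Ideal.mem_sup_right hp)
    have z2 : ∀ {p}, π p = 0 → ∃ β, p - a0 * β ∈ M ^ (j + 1 + 1) := fun hp => by
      obtain ⟨s, hs, t, ht, e⟩ := Submodule.mem_sup.1 (Ideal.Quotient.eq_zero_iff_mem.1 hp)
      obtain ⟨β, rfl⟩ := Ideal.mem_span_singleton.1 hs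
      exact ⟨β, by rw [← e]; simpa using ht⟩
    have e1 : π η ^ 2 = 0 := by rw [← map_pow, sq]; exact z1 (mm g2 (le1 g2))
    have e2 : π U = π x * π u0 + π η := by simp [hη, z0]
    have e3 : π u0 ^ (m + 1) = 0 := by rw [← map_pow, ← t1, map_mul, z0, zero_mul]
    have k1 : A1 - a0 ∈ M ^ (j + 1 + 1) := by
      have e4 : π A1 ^ 2 = 0 := by
        have := z1 (mm g1 h1)
        rwa [map_mul, map_sub, z0, sub_zero, ← sq] at this
      have e5 := s1 (a' := π A') (r := π R1) (r' := π R')
        ⟨by rw [← map_mul, H.1, map_pow], by rw [← map_mul, ← map_mul, ← map_add, H.2, map_one]⟩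
        e4 e1 e2 e3
      obtain ⟨β, hβ⟩ := z2 (p := u0 * (A1 - a0)) (by
        rw [map_mul, map_sub, z0, sub_zero, mul_comm, e5])
      rw [hM, ← Ideal.map_pow, mem_iff (F := F) b] at hβ ⊢
      intro φ hφ
      have e6 := hβ φ hφ
      rw [map_sub, rT_mul, rT_mul, sub_eq_zero, mul_comm] at e6
      refine hmin _ (fun i hi => h3 i fun e => hi ?_) ⟨_, e6⟩
      rw [cf_rT, e, map_zero]
    refine ⟨k1, ?_⟩
    have e4 : π U ^ (m + 1) = 0 := by
      have := z1 k1
      rw [map_sub, z0, sub_zero] at this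
      rw [← map_pow, ← H.1, map_mul, this, zero_mul]
    have e5 : IsUnit ((m + 1 : ℕ) : (R ⊗[k] A) ⧸ (Ideal.span {a0} ⊔ M ^ (j + 1 + 1))) := by
      simpa only [map_natCast] using ((IsUnit.mk0 _ hn).map (algebraMap k (R ⊗[k] A))).map π
    have e6 := s2 e5 e4 e1 e2 e3 (by rw [← map_sub, ← map_mul]; exact z1 (mm g2 h2))
    obtain ⟨β, hβ⟩ := z2 (p := u0 ^ m * η) (by rw [map_mul, map_pow, e6])
    have k2 : sc k A F R a' * η - u0 * β ∈ M ^ (j + 1 + 1) := by
      have e7 : a0 * (sc k A F R a' * η - u0 * β) ∈ M ^ (j + 1 + 1) := by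
        convert Ideal.mul_mem_left _ u0 hβ using 1
        linear_combination η * t1
      rw [hM, ← Ideal.map_pow, mem_iff (F := F) b] at e7 ⊢
      intro φ hφ
      have e8 := e7 φ hφ
      rw [rT_mul] at e8
      exact ha _ e8
    refine ⟨x + sc k A F R r' * β, y + sc k A F R r * η, ?_⟩
    convert Ideal.mul_mem_left _ (sc k A F R r') k2 using 1
    linear_combination (-η) * t2

end loc

/-- an element whose two images in the tensor product agree near the diagonal is algebraic -/
lemma integral {F : Type} [Field F] [Algebra k F] {s : F ⊗[k] A} (hs : s ≠ 0) (c : F) (c' : A)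
    (h : (c ⊗ₜ 1) * s = (1 ⊗ₜ c') * s) : IsIntegral k c := by
  let T : (F ⊗[k] A) →ₗ[k] (Module.Dual k A →ₗ[k] F) :=
    TensorProduct.lift (LinearMap.mk₂ k
      (fun (x : F) (a : A) => (LinearMap.toSpanSingleton k F x).comp (Module.Dual.eval k A a))
      (fun _ _ _ => by ext; simp) (fun _ _ _ => by ext; simp [smul_smul, mul_comm])
      (fun _ _ _ => by ext; simp only [map_add, LinearMap.coe_comp, Function.comp_apply, LinearMap.add_apply, Module.Dual.eval_apply, LinearMap.toSpanSingleton_apply, add_smul]) (fun _ _ _ => by ext; simp only [map_smul, LinearMap.coe_comp, LinearMap.coe_smul, Function.comp_apply, Pi.smul_apply, Module.Dual.eval_apply, smul_eq_mul, LinearMap.toSpanSingleton_apply, mul_smul, LinearMap.smul_apply]))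
  have hT : ∀ (x : F) (a : A) ψ, T (x ⊗ₜ a) ψ = ψ a • x := fun _ _ _ => rfl
  have h1 : ∀ w ψ, T ((c ⊗ₜ 1) * w) ψ = c * T w ψ := fun w ψ => by
    induction w using TensorProduct.induction_on with
    | zero => simp
    | tmul x a => simp [hT]
    | add v w hv hw => simp only [mul_add, map_add, LinearMap.add_apply, hv, hw]
  have h2 : ∀ w ψ, T ((1 ⊗ₜ c') * w) ψ = T w (ψ.comp (LinearMap.mulLeft k c')) := fun w ψ => by
    induction w using TensorProduct.induction_on with
    | zero => simp only [mul_zero, map_zero, LinearMap.zero_apply]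
    | tmul x a => simp only [Algebra.TensorProduct.tmul_mul_tmul, one_mul, hT, LinearMap.coe_comp, Function.comp_apply, LinearMap.mulLeft_apply]
    | add v w hv hw => simp only [mul_add, map_add, LinearMap.add_apply, hv, hw]
  have h3 : ∀ w, (LinearMap.range (T w)).FG := fun w => by
    induction w using TensorProduct.induction_on with
    | zero => simpa using Submodule.fg_bot
    | tmul x a =>
      refine Submodule.FG.of_le (Submodule.fg_span_singleton x) ?_
      rintro _ ⟨ψ, rfl⟩
      exact Submodule.smul_mem _ _ (Submodule.mem_span_singleton_self x)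
    | add v w hv hw =>
      rw [map_add]
      exact Submodule.FG.of_le (hv.sup hw) (LinearMap.range_add_le _ _)
  let b := Module.Basis.ofVectorSpace k A
  have h4 : ∀ w i, cf F b w i = T w (b.coord i) := fun w i => by
    induction w using TensorProduct.induction_on with
    | zero => simp [cf]
    | tmul x a => rw [cf_tmul, hT]; rfl
    | add v w hv hw => rw [cf_add, hv, hw, map_add, LinearMap.add_apply]
  refine isIntegral_of_smul_mem_submodule (LinearMap.range (T s)) (fun e => hs ?_) (h3 s) c ?_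
  · refine cf_ext b fun i => ?_
    rw [h4, LinearMap.range_eq_bot.1 e]; simp only [LinearMap.zero_apply, cf, map_zero, Finsupp.coe_zero, Pi.zero_apply]
  · rintro _ ⟨ψ, rfl⟩
    exact ⟨_, by rw [← h2, ← h, h1, smul_eq_mul]⟩

end RIG

variable {k A : Type} [Field k] [CommRing A] [Algebra k A]

open RIG in
/-- ROW RIG. -/
theorem rig [IsAlgClosed k] {F : Type} [Field F] [Algebra k F] {κ : Type}
    (b : Module.Basis κ k A) (dg : κ → ℕ) (hdg : Function.Injective dg) {n : ℕ}
    (hn : (n : k) ≠ 0) {a a' u r r' : F ⊗[k] A} (h : TC n a a' u r r')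
    (ha : ∀ w, a * w = 0 → w = 0) (i0 : κ) (h1 : cf F b a i0 = 1)
    (h2 : ∀ i, cf F b a i ≠ 0 → dg i ≤ dg i0)
    (hmin : ∀ w, (∀ i, cf F b w i ≠ 0 → dg i < dg i0) → a ∣ w * u → w = 0) :
    ∃ a0 : A, a = 1 ⊗ₜ a0 := by
  classical
  obtain ⟨m, rfl⟩ : ∃ m, n = m + 1 := Nat.exists_eq_succ_of_ne_zero (by rintro rfl; simp at hn)
  let B := Algebra.TensorProduct.basis F b
  let S : Finset F := ({a, a', u, r, r'} : Finset (F ⊗[k] A)).biUnion fun w => (B.repr w).frange
  let R0 : Subalgebra k F := Algebra.adjoin k (S : Set F)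
  let ι := Algebra.TensorProduct.map R0.val (AlgHom.id k A)
  have inj : Function.Injective ι := fun v w e => cf_ext b fun i => Subtype.ext (by
    have := cf_map b R0.val v i
    rw [show Algebra.TensorProduct.map R0.val (AlgHom.id k A) v = _ from e, cf_map] at this
    exact this.symm)
  have lift : ∀ w ∈ ({a, a', u, r, r'} : Finset (F ⊗[k] A)), ∃ v, ι v = w := fun w hw => by
    rw [← B.linearCombination_repr w, Finsupp.linearCombination_apply]
    refine sum_mem (S := ι.range) fun i hi => ⟨(⟨B.repr w i, Algebra.subset_adjoin ?_⟩ : R0) ⊗ₜ b i, ?_⟩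
    · exact Finset.mem_coe.2 (Finset.mem_biUnion.2 ⟨w, hw,
        Finsupp.mem_frange.2 ⟨Finsupp.mem_support_iff.1 hi, i, rfl⟩⟩)
    · simp [ι, B, TensorProduct.smul_tmul']
  obtain ⟨a1, e1⟩ := lift a (by simp)
  obtain ⟨a1', e2⟩ := lift a' (by simp)
  obtain ⟨u1, e3⟩ := lift u (by simp)
  obtain ⟨r1, e4⟩ := lift r (by simp)
  obtain ⟨r1', e5⟩ := lift r' (by simp)
  have t1 : a1 * a1' = u1 ^ (m + 1) := inj (by rw [map_mul, map_pow, e1, e2, e3, h.1])
  have t2 : r1 * a1 + r1' * a1' = 1 :=
    inj (by rw [map_add, map_mul, map_mul, map_one, e1, e2, e4, e5, h.2])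
  have : Algebra.FiniteType k R0 :=
    (Subalgebra.fg_iff_finiteType _).1 (Subalgebra.fg_adjoin_finset S)
  have : IsNoetherianRing (F ⊗[k] R0) := Algebra.FiniteType.isNoetherianRing F _
  let μ : F ⊗[k] R0 →ₐ[F] F :=
    Algebra.TensorProduct.lift (AlgHom.id F F) R0.val fun _ _ => .all _ _
  let ht := Algebra.TensorProduct.map
    (Algebra.TensorProduct.includeRight : R0 →ₐ[k] F ⊗[k] R0) (AlgHom.id k A)
  have c1 : ∀ v i, cf (F ⊗[k] R0) b (ht v - sc k A F (F ⊗[k] R0) (ι v)) i =
      1 ⊗ₜ cf R0 b v i - (cf R0 b v i : F) ⊗ₜ 1 := fun v i => by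
    rw [cf_sub, sc, cf_map, cf_map, cf_map]; rfl
  have c2 : ∀ v, ht v - sc k A F (F ⊗[k] R0) (ι v) ∈
      (RingHom.ker μ).map (algebraMap _ ((F ⊗[k] R0) ⊗[k] A)) := fun v =>
    (mem_map b _ _).2 fun i => by rw [c1, RingHom.mem_ker]; simp only [μ, map_sub, Algebra.TensorProduct.lift_tmul, AlgHom.coe_id, id_eq, Subalgebra.coe_val, one_mul, OneMemClass.coe_one, mul_one, sub_self]
  have c3 : ∀ i, cf F b a i = cf R0 b a1 i := fun i => by rw [← e1]; exact cf_map b _ _ i
  have key := loc b dg hn h ha (dg i0) hmin (A1 := ht a1) (A' := ht a1') (U := ht u1)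
    (R1 := ht r1) (R' := ht r1') ⟨by rw [← map_mul, t1, map_pow],
      by rw [← map_mul, ← map_mul, ← map_add, t2, map_one]⟩ (RingHom.ker μ)
    (e1 ▸ c2 a1) (e3 ▸ c2 u1) (fun i hi => by
      rw [← e1, c1] at hi
      have h3 : cf F b a i ≠ 0 := fun e => hi (by
        have : cf R0 b a1 i = 0 := Subtype.ext ((c3 i).symm.trans e)
        simp only [this, TensorProduct.tmul_zero, ZeroMemClass.coe_zero, TensorProduct.zero_tmul, sub_self])
      refine lt_of_le_of_ne (h2 i h3) fun e => hi ?_
      obtain rfl := hdg e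
      have : cf R0 b a1 i = 1 := Subtype.ext ((c3 i).symm.trans h1)
      simp [this])
  have c4 : ∀ i, ∃ c : k, algebraMap k F c = cf F b a i := fun i => by
    have h3 : (1 ⊗ₜ cf R0 b a1 i - (cf R0 b a1 i : F) ⊗ₜ 1 : F ⊗[k] R0) ∈
        (⨅ j : ℕ, RingHom.ker μ ^ j • ⊤ : Submodule (F ⊗[k] R0) (F ⊗[k] R0)) := by
      refine (Submodule.mem_iInf _).2 fun j => ?_
      have h4 := (key j).1
      rw [← Ideal.map_pow, mem_map b, ← e1] at h4
      rw [smul_eq_mul, Ideal.mul_top, ← c1]
      exact Ideal.pow_le_pow_right (Nat.le_succ j) (h4 i)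
    obtain ⟨ρ, hρ⟩ := (Ideal.mem_iInf_smul_pow_eq_bot_iff _ _).1 h3
    have h5 : (1 - ρ.1 : F ⊗[k] R0) ≠ 0 := fun e => by
      have := congrArg μ e
      rw [map_sub, map_one, RingHom.mem_ker.1 ρ.2, map_zero, sub_zero] at this
      exact one_ne_zero this
    have h6 := integral h5 (cf R0 b a1 i : F) (cf R0 b a1 i) (by
      rw [smul_eq_mul] at hρ
      linear_combination hρ)
    rw [c3]
    exact RingHom.mem_range.1 (minpoly.mem_range_of_degree_eq_one k _
      (IsAlgClosed.degree_eq_one_of_irreducible k (minpoly.irreducible h6)))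
  have : a ∈ (Algebra.TensorProduct.includeRight : A →ₐ[k] F ⊗[k] A).range := by
    rw [← B.linearCombination_repr a, Finsupp.linearCombination_apply]
    refine sum_mem fun i _ => ?_
    obtain ⟨c, hc⟩ := c4 i
    refine ⟨c • b i, ?_⟩
    beta_reduce
    rw [show B.repr a i = algebraMap k F c from hc.symm, algebraMap_smul]
    simp [B]
  obtain ⟨a0, h0⟩ := this
  exact ⟨a0, h0.symm⟩

end Pool.Agent.MP_855f4c_ag.WD.Tor
end

section
/-! h86d section II, row ULT: the ultrapower of the ground field. -/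

namespace Pool.Agent.MP_855f4c_ag.WD.Tor

open scoped TensorProduct
open Filter

variable {k A : Type} [Field k] [CommRing A] [Algebra k A]

namespace ULT

theorem last {I : Type} (U : Filter I) {κ : Type} (b : Module.Basis κ k A) {F : Type} [Field F]
    [Algebra k F] (π : (I → k) →ₐ[k] F) (hk : ∀ c, π c = 0 ↔ ∀ᶠ j in U, c j = 0)
    (hs : Function.Surjective π) (Φ : F ⊗[k] A →+* Germ U A)
    (hΦ : ∀ (c : I → k) (a : A), Φ (π c ⊗ₜ a) = ((fun j => c j • a : I → A) : Germ U A))
    (w : F ⊗[k] A) (z : I → A) (hz : Φ w = (z : Germ U A)) (i : κ) :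
    cf F b w i = π fun j => b.repr (z j) i := by
  have key : ∀ w : F ⊗[k] A, ∃ z : I → A, Φ w = (z : Germ U A) ∧
      cf F b w i = π fun j => b.repr (z j) i := by
    intro w
    induction w using TensorProduct.induction_on with
    | zero =>
      refine ⟨0, by rw [map_zero]; rfl, ?_⟩
      have : (fun j => b.repr ((0 : I → A) j) i) = 0 := by funext j; simp
      rw [this, map_zero]; simp [cf]
    | tmul x a =>
      obtain ⟨c, rfl⟩ := hs x
      refine ⟨fun j => c j • a, hΦ c a, ?_⟩
      have : (fun j => b.repr (c j • a) i) = (b.repr a i) • c := by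
        funext j; simp [mul_comm]
      rw [this, map_smul, Algebra.smul_def]
      simp [cf, Algebra.TensorProduct.basis_repr_tmul, mul_comm]
    | add x y hx hy =>
      obtain ⟨z1, h1, h1'⟩ := hx
      obtain ⟨z2, h2, h2'⟩ := hy
      refine ⟨z1 + z2, by rw [map_add, h1, h2]; rfl, ?_⟩
      have : (fun j => b.repr ((z1 + z2) j) i) =
          (fun j => b.repr (z1 j) i) + fun j => b.repr (z2 j) i := by
        funext j; simp
      rw [this, map_add, ← h1', ← h2']
      simp only [cf, map_add, Finsupp.coe_add, Pi.add_apply]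
  obtain ⟨z', h1, h2⟩ := key w
  have he : z' =ᶠ[U] z := Germ.coe_eq.1 (h1.symm.trans hz)
  rw [h2, ← sub_eq_zero, ← map_sub, hk]
  filter_upwards [he] with j hj
  simp [hj]

theorem bdd {I : Type} (U : Filter I) {F : Type} [Field F]
    [Algebra k F] (π : (I → k) →ₐ[k] F) (Φ : F ⊗[k] A →+* Germ U A)
    (hΦ : ∀ (c : I → k) (a : A), Φ (π c ⊗ₜ a) = ((fun j => c j • a : I → A) : Germ U A))
    (V : Submodule k A) [FiniteDimensional k V] (z : I → A) (hz : ∀ j, z j ∈ V) :
    ∃ w, Φ w = (z : Germ U A) := by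
  let v := Module.finBasis k V
  refine ⟨∑ s, π (fun j => v.repr ⟨z j, hz j⟩ s) ⊗ₜ (v s : A), ?_⟩
  rw [map_sum]
  simp only [hΦ]
  have h1 : z = ∑ s, fun j => v.repr ⟨z j, hz j⟩ s • (v s : A) := by
    funext j
    have := congrArg (Submodule.subtype V) (v.sum_repr ⟨z j, hz j⟩)
    rw [map_sum] at this
    rw [Finset.sum_apply]
    exact this.symm
  have h2 := map_sum (Germ.coeRingHom (R := A) U)
    (fun s => fun j => v.repr ⟨z j, hz j⟩ s • (v s : A)) Finset.univ
  rw [← h1] at h2
  exact h2.symm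

/-- Germs of functions with values in an algebra, as an algebra. -/
@[reducible] noncomputable def gAlg {I : Type} (U : Filter I) (k R : Type) [Field k] [CommRing R]
    [Algebra k R] : Algebra k (Germ U R) :=
  ((Germ.coeRingHom U).comp ((Pi.constRingHom I R).comp (algebraMap k R))).toAlgebra

/-- Germs of scalars as germs of algebra elements. -/
noncomputable def gMap {I : Type} (U : Filter I) (k A : Type) [Field k] [CommRing A]
    [Algebra k A] : Germ U k →+* Germ U A where
  toFun := Germ.map (algebraMap k A)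
  map_one' := congrArg Germ.ofFun (funext fun _ => map_one (algebraMap k A))
  map_zero' := congrArg Germ.ofFun (funext fun _ => map_zero (algebraMap k A))
  map_mul' x y := Germ.inductionOn₂ x y fun f g =>
    congrArg Germ.ofFun (funext fun j => map_mul (algebraMap k A) (f j) (g j))
  map_add' x y := Germ.inductionOn₂ x y fun f g =>
    congrArg Germ.ofFun (funext fun j => map_add (algebraMap k A) (f j) (g j))

end ULT

/-- ROW ULT. The ultrapower `F` of `k`; `F ⊗ A` is the ring of bounded germs. -/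
theorem ult {I : Type} (U : Ultrafilter I) {κ : Type} (b : Module.Basis κ k A) :
    ∃ (F : Type) (_ : Field F) (_ : Algebra k F) (π : (I → k) →ₐ[k] F)
      (Φ : F ⊗[k] A →+* Germ (U : Filter I) A),
      (∀ c, π c = 0 ↔ ∀ᶠ j in (U : Filter I), c j = 0) ∧ Function.Surjective π ∧
      (∀ (c : I → k) (a : A), Φ (π c ⊗ₜ a) = ((fun j => c j • a : I → A) : Germ (U : Filter I) A)) ∧
      Function.Injective Φ ∧
      (∀ (V : Submodule k A) [FiniteDimensional k V] (z : I → A), (∀ j, z j ∈ V) →
        ∃ w, Φ w = (z : Germ (U : Filter I) A)) ∧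
      ∀ (w : F ⊗[k] A) (z : I → A), Φ w = (z : Germ (U : Filter I) A) →
        ∀ i, cf F b w i = π fun j => b.repr (z j) i := by
  let fF : Field (Germ (U : Filter I) k) := Germ.instField
  let aF : Algebra k (Germ (U : Filter I) k) := ULT.gAlg (U : Filter I) k k
  let aG : Algebra k (Germ (U : Filter I) A) := ULT.gAlg (U : Filter I) k A
  let π : (I → k) →ₐ[k] Germ (U : Filter I) k := ⟨Germ.coeRingHom (U : Filter I), fun _ => rfl⟩
  let f : Germ (U : Filter I) k →ₐ[k] Germ (U : Filter I) A := ⟨ULT.gMap (U : Filter I) k A, fun _ => rfl⟩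
  let g : A →ₐ[k] Germ (U : Filter I) A :=
    ⟨(Germ.coeRingHom (U : Filter I)).comp (Pi.constRingHom I A), fun _ => rfl⟩
  let Φ := (Algebra.TensorProduct.productMap f g).toRingHom
  have hk : ∀ c, π c = 0 ↔ ∀ᶠ j in (U : Filter I), c j = 0 := fun c =>
    Germ.coe_eq (l := (U : Filter I)) (f := c) (g := 0)
  have hs : Function.Surjective π := fun x => Germ.inductionOn x fun c => ⟨c, rfl⟩
  have hΦ : ∀ (c : I → k) (a : A),
      Φ (π c ⊗ₜ a) = ((fun j => c j • a : I → A) : Germ (U : Filter I) A) := fun c a =>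
    (Algebra.TensorProduct.productMap_apply_tmul f g (π c) a).trans
      (congrArg Germ.ofFun (funext fun j => (Algebra.smul_def (c j) a).symm))
  have hl := ULT.last (U : Filter I) b π hk hs Φ hΦ
  refine ⟨Germ (U : Filter I) k, fF, aF, π, Φ, hk, hs, hΦ, ?_,
    fun V _ z hz => ULT.bdd (U : Filter I) π Φ hΦ V z hz, hl⟩
  rw [injective_iff_map_eq_zero]
  intro w hw
  apply (Algebra.TensorProduct.basis (Germ (U : Filter I) k) b).repr.injective
  ext i
  have h0 : (fun j => b.repr ((0 : I → A) j) i) = 0 := by funext j; simp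
  have := hl w 0 hw i
  rw [h0, map_zero] at this
  rw [map_zero]
  exact this

end Pool.Agent.MP_855f4c_ag.WD.Tor
end

section
namespace Pool.Agent.MP_855f4c_ag.WD.Tor

open scoped TensorProduct
open Filter

variable {k A : Type} [Field k] [CommRing A] [Algebra k A]

/-- ROW FINA (from `rig` and `ult`, with the hyperfilter on an infinite set of `a`). -/
theorem fin_abs [IsAlgClosed k] [IsDomain A] {κ : Type} (b : Module.Basis κ k A) (dg : κ → ℕ)
    (hdg : Function.Injective dg) {n : ℕ} (hn : (n : k) ≠ 0) (V : Submodule k A)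
    [FiniteDimensional k V] (i0 : κ) :
    {a : A | b.repr a i0 = 1 ∧ (∀ i, b.repr a i ≠ 0 → dg i ≤ dg i0) ∧
      ∃ a' ∈ V, ∃ u ∈ V, ∃ r ∈ V, ∃ r' ∈ V, TC n a a' u r r' ∧
        ∀ w : A, (∀ i, b.repr w i ≠ 0 → dg i < dg i0) → a ∣ w * u → w = 0}.Finite := by
  classical
  by_contra hI
  set S := {a : A | b.repr a i0 = 1 ∧ (∀ i, b.repr a i ≠ 0 → dg i ≤ dg i0) ∧
      ∃ a' ∈ V, ∃ u ∈ V, ∃ r ∈ V, ∃ r' ∈ V, TC n a a' u r r' ∧
        ∀ w : A, (∀ i, b.repr w i ≠ 0 → dg i < dg i0) → a ∣ w * u → w = 0} with hS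
  have : Infinite S := Set.infinite_coe_iff.2 hI
  have hm : ∀ j : S, b.repr j.1 i0 = 1 ∧ (∀ i, b.repr j.1 i ≠ 0 → dg i ≤ dg i0) ∧
      ∃ a' ∈ V, ∃ u ∈ V, ∃ r ∈ V, ∃ r' ∈ V, TC n j.1 a' u r r' ∧
        ∀ w : A, (∀ i, b.repr w i ≠ 0 → dg i < dg i0) → j.1 ∣ w * u → w = 0 := fun j => j.2
  choose m1 m2 a' ha' u hu r hr r' hr' htc hmin using hm
  obtain ⟨F, _, _, π, Φ, p0, ps, pt, pi, pb, pc⟩ := ult (Filter.hyperfilter S) b
  have hfin : {i | dg i ≤ dg i0}.Finite := (Set.finite_Iic (dg i0)).preimage hdg.injOn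
  have : FiniteDimensional k (Submodule.span k (b '' {i | dg i ≤ dg i0})) :=
    FiniteDimensional.span_of_finite k (hfin.image _)
  obtain ⟨xa, ea⟩ := pb (Submodule.span k (b '' {i | dg i ≤ dg i0})) Subtype.val fun j =>
    b.mem_span_image.2 fun i hi => m2 j i (Finsupp.mem_support_iff.1 hi)
  obtain ⟨xa', ea'⟩ := pb V a' ha'
  obtain ⟨xu, eu⟩ := pb V u hu
  obtain ⟨xr, er⟩ := pb V r hr
  obtain ⟨xr', er'⟩ := pb V r' hr'
  have h0 : ∀ j : S, j.1 ≠ 0 := fun j e => by simpa [e] using m1 j
  obtain ⟨a0, e0⟩ := rig b dg hdg hn (a := xa) (a' := xa') (u := xu) (r := xr) (r' := xr')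
    ⟨pi (by
      rw [map_mul, map_pow, ea, ea', eu, ← Germ.coe_mul, ← Germ.coe_pow]
      exact congrArg _ (funext fun j => (htc j).1)), pi (by
      rw [map_add, map_mul, map_mul, ea, ea', er, er', map_one, ← Germ.coe_mul, ← Germ.coe_mul,
        ← Germ.coe_add, ← Germ.coe_one]
      exact congrArg _ (funext fun j => (htc j).2))⟩
    (fun w hw => pi (by
      have h1 := congrArg Φ hw
      rw [map_mul, ea, map_zero] at h1
      rw [map_zero]
      induction h : Φ w using Germ.inductionOn with
      | h z =>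
      rw [h, ← Germ.coe_mul, ← Germ.coe_zero, Germ.coe_eq] at h1
      rw [← Germ.coe_zero, Germ.coe_eq]
      exact h1.mono fun j hj => (mul_eq_zero.1 hj).resolve_left (h0 j))) i0
    (by rw [pc xa _ ea, funext m1]; exact map_one π)
    (fun i hi => by
      rw [pc xa _ ea] at hi
      by_contra hlt
      exact hi ((p0 _).2 (Eventually.of_forall fun j => by
        by_contra h; exact hlt (m2 j i h))))
    (fun w hw ⟨q, hq⟩ => pi (by
      choose c hc using fun i => ps (cf F b w i)
      set T := ((Algebra.TensorProduct.basis F b).repr w).support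
      have h1 : w = ∑ i ∈ T, π (c i) ⊗ₜ b i := by
        conv_lhs => rw [← (Algebra.TensorProduct.basis F b).linearCombination_repr w,
          Finsupp.linearCombination_apply, Finsupp.sum]
        refine Finset.sum_congr rfl fun i _ => ?_
        rw [hc, Algebra.TensorProduct.basis_apply, TensorProduct.smul_tmul', smul_eq_mul, mul_one]
        rfl
      have h2 : Φ w = ((fun j => ∑ i ∈ T, c i j • b i : S → A) : Germ _ A) := by
        rw [h1, map_sum]
        simp only [pt]
        rw [← Finset.sum_fn]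
        exact (map_sum (Germ.coeRingHom _) _ _).symm
      have h3 := congrArg Φ hq
      rw [map_mul, map_mul, h2, eu, ea] at h3
      induction h : Φ q using Germ.inductionOn with
      | h y =>
      rw [h, ← Germ.coe_mul, ← Germ.coe_mul, Germ.coe_eq] at h3
      rw [h2, map_zero, ← Germ.coe_zero, Germ.coe_eq]
      refine h3.mono fun j hj => hmin j _ (fun i hi => hw i ?_) ⟨y j, hj⟩
      by_contra h4
      have h5 : i ∉ T := Finsupp.notMem_support_iff.2 h4
      refine hi ?_
      rw [map_sum, Finsupp.finsetSum_apply]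
      refine Finset.sum_eq_zero fun l hl => ?_
      have : l ≠ i := fun e => h5 (e ▸ hl)
      simp [this]))
  have h1 := pt 1 a0
  rw [map_one, ← e0, ea, Germ.coe_eq] at h1
  have h2 : {j : S | j.1 = a0}.Finite :=
    (Set.finite_singleton a0).preimage Subtype.val_injective.injOn
  exact h2.notMem_hyperfilter (h1.mono fun j hj => by simpa using hj)

end Pool.Agent.MP_855f4c_ag.WD.Tor
end

section
/-! h86d section II, row SPEC: specialisation of finitely many tensors. -/

namespace Pool.Agent.MP_855f4c_ag.WD.Tor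

open scoped TensorProduct
open Filter

variable {k A : Type} [Field k] [CommRing A] [Algebra k A]

/-- Nullstellensatz: a nontrivial algebra of finite type has a point in a closed extension. -/
lemma SPEC.pt (K R L : Type) [Field K] [CommRing R] [Nontrivial R] [Algebra K R]
    [Algebra.FiniteType K R] [Field L] [IsAlgClosed L] [Algebra K L] : Nonempty (R →ₐ[K] L) := by
  obtain ⟨m, hm⟩ := Ideal.exists_maximal R
  let := Ideal.Quotient.field m
  have : Module.Finite K (R ⧸ m) := finite_of_finite_type_of_isJacobsonRing K (R ⧸ m)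
  exact ⟨(IsAlgClosed.lift : (R ⧸ m) →ₐ[K] L).comp (Ideal.Quotient.mkₐ K m)⟩

/-- ROW SPEC. Nullstellensatz for finitely many tensors. -/
theorem spec {K F L : Type} [Field K] [CommRing F] [Nontrivial F] [Field L] [IsAlgClosed L]
    [Algebra k K] [Algebra k F] [Algebra k L] (f : K →ₐ[k] F) (g : K →ₐ[k] L)
    (S : Set (F ⊗[k] A)) (hS : S.Finite) :
    ∃ (C : Type) (_ : CommRing C) (i : C →+* F ⊗[k] A) (j : C →+* L ⊗[k] A)
      (s : K ⊗[k] A →+* C), Function.Injective i ∧ S ⊆ Set.range i ∧
      (∀ c a, i (s (c ⊗ₜ a)) = f c ⊗ₜ a) ∧ ∀ c a, j (s (c ⊗ₜ a)) = g c ⊗ₜ a := by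
  let : Algebra K F := f.toRingHom.toAlgebra
  let : Algebra K L := g.toRingHom.toAlgebra
  have : IsScalarTower k K F := IsScalarTower.of_algebraMap_eq fun c => (f.commutes c).symm
  have : IsScalarTower k K L := IsScalarTower.of_algebraMap_eq fun c => (g.commutes c).symm
  choose P hP using fun w : F ⊗[k] A => TensorProduct.exists_finset w
  set T : Set F := ⋃ w ∈ S, Prod.fst '' (P w : Set (F × A)) with hT
  have hTf : T.Finite := hS.biUnion fun w _ => (P w).finite_toSet.image _
  set R := Algebra.adjoin K T with hR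
  have : Algebra.FiniteType K R := Algebra.FiniteType.adjoin_of_finite hTf
  obtain ⟨φ⟩ := SPEC.pt K R L
  refine ⟨R ⊗[k] A, inferInstance,
    (Algebra.TensorProduct.map (R.val.restrictScalars k) (AlgHom.id k A)).toRingHom,
    (Algebra.TensorProduct.map (φ.restrictScalars k) (AlgHom.id k A)).toRingHom,
    (Algebra.TensorProduct.map (IsScalarTower.toAlgHom k K R) (AlgHom.id k A)).toRingHom,
    ?_, fun w hw => ?_, fun c a => rfl, fun c a => ?_⟩
  · exact Module.Flat.rTensor_preserves_injective_linearMap (M := A)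
      (R.val.restrictScalars k).toLinearMap Subtype.val_injective
  · rw [hP w]
    refine sum_mem (S := RingHom.range _) fun p hp => ⟨(⟨p.1, Algebra.subset_adjoin ?_⟩ : R) ⊗ₜ p.2, rfl⟩
    exact Set.mem_biUnion hw ⟨p, hp, rfl⟩
  · change φ (algebraMap K R c) ⊗ₜ[k] a = _
    rw [φ.commutes]; rfl

/-- ROW SPEC, second half (`spec` with `K = L = k`). -/
theorem desc_abs [IsAlgClosed k] {F ι : Type} [CommRing F] [Nontrivial F] [Algebra k F] [Fintype ι]
    {n : ℕ} (t : ι → A) (h : GC n (fun j => ((1 : F) ⊗ₜ[k] t j)) Set.univ) :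
    GC n t Set.univ := by
  obtain ⟨a, u, c, r, α, β, γ, -, -, -, -, h1, h2, h3⟩ := h
  obtain ⟨C, _, i, j, s, hi, hS, hs, hj⟩ := spec (Algebra.ofId k F) (AlgHom.id k k)
    ({a, u, c} ∪ Set.range r ∪ Set.range α ∪ Set.range β ∪ Set.range γ)
    ((((Set.toFinite _).union (Set.finite_range r)).union (Set.finite_range α)).union
      (Set.finite_range β) |>.union (Set.finite_range γ))
  obtain ⟨a, rfl⟩ := hS (a := a) (by simp only [Set.mem_union, Set.mem_insert_iff, Set.mem_singleton_iff, true_or, Set.mem_range])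
  obtain ⟨u, rfl⟩ := hS (a := u) (by simp only [Set.mem_union, Set.mem_insert_iff, Set.mem_singleton_iff, true_or, or_true, Set.mem_range])
  obtain ⟨c, rfl⟩ := hS (a := c) (by simp only [Set.mem_union, Set.mem_insert_iff, Set.mem_singleton_iff, or_true, Set.mem_range, true_or])
  choose r' hr using fun x => hS (a := r x) (by simp only [Set.mem_union, Set.mem_insert_iff, Set.mem_singleton_iff, Set.mem_range, exists_apply_eq_apply, or_true, true_or])
  choose α' hα using fun x => hS (a := α x) (by simp only [Set.mem_union, Set.mem_insert_iff, Set.mem_singleton_iff, Set.mem_range, exists_apply_eq_apply, or_true, true_or])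
  choose β' hβ using fun x => hS (a := β x) (by simp only [Set.mem_union, Set.mem_insert_iff, Set.mem_singleton_iff, Set.mem_range, exists_apply_eq_apply, or_true, true_or])
  choose γ' hγ using fun x => hS (a := γ x) (by simp only [Set.mem_union, Set.mem_insert_iff, Set.mem_singleton_iff, Set.mem_range, exists_apply_eq_apply, or_true])
  have ht : ∀ x, ((1 : F) ⊗ₜ[k] t x) = i (s (1 ⊗ₜ t x)) := fun x => by rw [hs, map_one]
  set l : C →+* A := (Algebra.TensorProduct.lid k A).toRingEquiv.toRingHom.comp j with hl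
  have hl' : ∀ x, l (s (1 ⊗ₜ t x)) = t x := fun x => by simp only [hl, RingEquiv.toRingHom_eq_coe, AlgEquiv.toRingEquiv_toRingHom, RingHom.coe_comp, RingHom.coe_coe, Function.comp_apply, hj, AlgHom.coe_id, id_eq, Algebra.TensorProduct.lid_tmul, one_smul]
  simp only [ht, ← hr, ← hα, ← hβ, ← hγ, ← map_mul, ← map_pow, ← map_add, ← map_sum] at h1 h2 h3
  rw [← map_one i] at h2 h3
  refine ⟨l a, l u, l c, fun x => l (r' x), fun x => l (α' x), fun x => l (β' x),
    fun x => l (γ' x), trivial, trivial, trivial, fun _ => ⟨trivial, trivial, trivial, trivial⟩,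
    fun x => ?_, ?_, ?_⟩
  · simpa only [map_mul, hl', map_pow] using congrArg l (hi (h1 x))
  · simpa only [map_sum, map_add, map_mul, hl', map_one] using congrArg l (hi h2)
  · simpa only [map_add, map_mul, map_sum, hl', map_one] using congrArg l (hi h3)

end Pool.Agent.MP_855f4c_ag.WD.Tor
end

section
namespace Pool.Agent.MP_855f4c_ag.WD.Tor

open scoped TensorProduct
open Filter

namespace GENA

variable {B C ι : Type} [CommRing B] [CommRing C] [Fintype ι] {n : ℕ}

lemma gc_map (φ : B →+* C) {t : ι → B} {W : Set B} (h : GC n t W) :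
    GC n (fun j => φ (t j)) Set.univ := by
  obtain ⟨a, u, c, r, α, β, γ, -, -, -, -, h1, h2, h3⟩ := h
  refine ⟨φ a, φ u, φ c, fun j => φ (r j), fun j => φ (α j), fun j => φ (β j), fun j => φ (γ j),
    trivial, trivial, trivial, fun _ => ⟨trivial, trivial, trivial, trivial⟩, fun j => ?_, ?_, ?_⟩
  · simpa only [map_mul, map_pow] using congrArg φ (h1 j)
  · simpa only [map_sum, map_add, map_mul, map_one] using congrArg φ h2
  · simpa only [map_add, map_mul, map_sum, map_one] using congrArg φ h3

lemma gc_pull (φ : C →+* B) (hφ : Function.Injective φ) (t : ι → C)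
    (h : GC n (fun j => φ (t j)) (Set.range φ)) : GC n t Set.univ := by
  obtain ⟨_, _, _, r, α, β, γ, ⟨a, rfl⟩, ⟨u, rfl⟩, ⟨c, rfl⟩, h0, h1, h2, h3⟩ := h
  choose r' hr using fun j => (h0 j).1
  choose α' hα using fun j => (h0 j).2.1
  choose β' hβ using fun j => (h0 j).2.2.1
  choose γ' hγ using fun j => (h0 j).2.2.2
  refine ⟨a, u, c, r', α', β', γ', trivial, trivial, trivial,
    fun _ => ⟨trivial, trivial, trivial, trivial⟩, fun j => hφ ?_, hφ ?_, hφ ?_⟩
  · simpa only [map_mul, map_pow, hr] using h1 j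
  · simpa only [map_sum, map_add, map_mul, hα, hr, hβ, map_one] using h2
  · simpa only [map_add, map_mul, map_sum, hγ, map_one] using h3

lemma gc_fin {t : ι → B} {W : Set B} (h : GC n t W) :
    ∃ S : Set B, S.Finite ∧ ∀ W' : Set B, S ⊆ W' → GC n t W' := by
  obtain ⟨a, u, c, r, α, β, γ, -, -, -, -, h1, h2, h3⟩ := h
  refine ⟨{a, u, c} ∪ (Set.range r ∪ Set.range α ∪ Set.range β ∪ Set.range γ), ?_, fun W' hW =>
    ⟨a, u, c, r, α, β, γ, hW (by simp only [Set.mem_union, Set.mem_insert_iff, Set.mem_singleton_iff, true_or, Set.mem_range]), hW (by simp only [Set.mem_union, Set.mem_insert_iff, Set.mem_singleton_iff, true_or, or_true, Set.mem_range]), hW (by simp only [Set.mem_union, Set.mem_insert_iff, Set.mem_singleton_iff, or_true, Set.mem_range, true_or]),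
      fun j => ⟨hW (by simp only [Set.mem_union, Set.mem_insert_iff, Set.mem_singleton_iff, Set.mem_range, exists_apply_eq_apply, true_or, or_true]), hW (by simp only [Set.mem_union, Set.mem_insert_iff, Set.mem_singleton_iff, Set.mem_range, exists_apply_eq_apply, or_true, true_or]), hW (by simp only [Set.mem_union, Set.mem_insert_iff, Set.mem_singleton_iff, Set.mem_range, exists_apply_eq_apply, or_true, true_or]), hW (by simp only [Set.mem_union, Set.mem_insert_iff, Set.mem_singleton_iff, Set.mem_range, exists_apply_eq_apply, or_true])⟩, h1, h2, h3⟩⟩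
  exact (Set.toFinite _).union
    ((((Set.finite_range _).union (Set.finite_range _)).union (Set.finite_range _)).union
      (Set.finite_range _))

lemma gc_pi {I : Type} (t : ι → I → B) (W : Set B) (h : ∀ x, GC n (fun j => t j x) W) :
    GC n t {z : I → B | ∀ x, z x ∈ W} := by
  choose a u c r α β γ ha hu hc h0 h1 h2 h3 using h
  refine ⟨a, u, c, fun j x => r x j, fun j x => α x j, fun j x => β x j, fun j x => γ x j,
    ha, hu, hc, fun j => ⟨fun x => (h0 x j).1, fun x => (h0 x j).2.1, fun x => (h0 x j).2.2.1,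
      fun x => (h0 x j).2.2.2⟩, fun j => funext fun x => h1 x j, funext fun x => ?_,
    funext fun x => ?_⟩
  · simpa only [Finset.sum_apply, Pi.add_apply, Pi.mul_apply, Pi.one_apply] using h2 x
  · simpa only [Pi.add_apply, Pi.mul_apply, Finset.sum_apply, Pi.one_apply] using h3 x

lemma gc_map' (φ : B →+* C) {t : ι → B} {W : Set B} {W' : Set C} (hW : ∀ z ∈ W, φ z ∈ W')
    (h : GC n t W) : GC n (fun j => φ (t j)) W' := by
  obtain ⟨a, u, c, r, α, β, γ, ha, hu, hc, h0, h1, h2, h3⟩ := h
  refine ⟨φ a, φ u, φ c, fun j => φ (r j), fun j => φ (α j), fun j => φ (β j), fun j => φ (γ j),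
    hW _ ha, hW _ hu, hW _ hc, fun j => ⟨hW _ (h0 j).1, hW _ (h0 j).2.1, hW _ (h0 j).2.2.1,
      hW _ (h0 j).2.2.2⟩, fun j => ?_, ?_, ?_⟩
  · simpa only [map_mul, map_pow] using congrArg φ (h1 j)
  · simpa only [map_sum, map_add, map_mul, map_one] using congrArg φ h2
  · simpa only [map_add, map_mul, map_sum, map_one] using congrArg φ h3

end GENA

variable {k A : Type} [Field k] [CommRing A] [Algebra k A]

open GENA in
/-- ROW GENA (from `ult`, `spec` with `K = FractionRing A`). -/
theorem gen_abs [IsDomain A] {L ι : Type} [Field L] [IsAlgClosed L] [Algebra k L] [Fintype ι]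
    {n : ℕ} (y : ι → A) (V : Submodule k A) [FiniteDimensional k V] (X : Set (A →ₐ[k] k))
    (hX : X.Infinite) (hfin : ∀ f : A, f ≠ 0 → {x ∈ X | x f = 0}.Finite)
    (h : ∀ x ∈ X, GC n (fun j => y j - algebraMap k A (x (y j))) V)
    (ψ : A →ₐ[k] L) (hψ : Function.Injective ψ) :
    GC n (fun j => ((1 : L) ⊗ₜ[k] y j - ψ (y j) ⊗ₜ[k] (1 : A))) Set.univ := by
  have : Infinite X := hX.to_subtype
  obtain ⟨F, _, _, π, Φ, p1, -, p3, p4, p5, -⟩ :=
    ult (k := k) (A := A) (hyperfilter X) (Module.Basis.ofVectorSpace k A)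
  let ξ : A →ₐ[k] F := π.comp (AlgHom.pi fun x : X => x.1)
  have hξ : Function.Injective ξ := by
    rw [injective_iff_map_eq_zero]
    intro f hf
    by_contra h0
    have h1 : {x : X | x.1 f = 0} ∈ hyperfilter X := (p1 _).1 hf
    have h2 : {x : X | x.1 f = 0}.Finite :=
      ((hfin f h0).preimage Subtype.val_injective.injOn).subset fun x hx => ⟨x.2, hx⟩
    exact h2.notMem_hyperfilter h1
  have g1 := gc_map' (Germ.coeRingHom (hyperfilter X : Filter X)) (W' := Set.range Φ)
    (fun z hz => p5 V z hz)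
    (gc_pi (fun j (x : X) => y j - algebraMap k A (x.1 (y j))) V fun x => h x.1 x.2)
  have g2 : GC n (fun j => ((1 : F) ⊗ₜ[k] y j - ξ (y j) ⊗ₜ[k] (1 : A))) Set.univ := by
    refine gc_pull Φ p4 _ ?_
    convert g1 using 2 with j
    have e1 := p3 1 (y j)
    have e2 := p3 (fun x : X => x.1 (y j)) 1
    rw [map_one] at e1
    rw [map_sub, e1]
    refine (congrArg _ e2).trans ?_
    rw [← Germ.coe_sub]
    refine congrArg _ (funext fun x => ?_)
    simp [Algebra.algebraMap_eq_smul_one]
  obtain ⟨S, hS, g3⟩ := gc_fin g2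
  obtain ⟨C, _, i, j, s, q1, q2, q3, q4⟩ := spec (k := k) (A := A)
    (IsFractionRing.liftAlgHom (K := FractionRing A) hξ)
    (IsFractionRing.liftAlgHom (K := FractionRing A) hψ) S hS
  have g4 := gc_pull i q1 (fun m => s ((1 : FractionRing A) ⊗ₜ[k] y m) -
      s (algebraMap A (FractionRing A) (y m) ⊗ₜ[k] (1 : A))) (n := n) (by
    convert g3 _ q2 using 2 with m
    rw [map_sub, q3, q3]
    simp only [IsFractionRing.coe_liftAlgHom, AlgHom.toRingHom_eq_coe, map_one, IsFractionRing.lift_algebraMap, RingHom.coe_coe])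
  convert gc_map j g4 using 2 with m
  rw [map_sub, q4, q4]
  simp only [IsFractionRing.coe_liftAlgHom, AlgHom.toRingHom_eq_coe, map_one, IsFractionRing.lift_algebraMap, RingHom.coe_coe]

end Pool.Agent.MP_855f4c_ag.WD.Tor
end

section
namespace Pool.Agent.MP_855f4c_ag.WD.Tor

open scoped TensorProduct
open Filter

/-- ROW GRP. A torsion group with finite `n`-torsion has finitely many classes modulo `n`. -/
theorem grp_pigeon {G I : Type} [AddCommGroup G] [Infinite I] (n : ℕ)
    (hfin : {g : G | n • g = 0}.Finite) (c : I → G) (hc : ∀ i, IsOfFinAddOrder (c i)) :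
    ∃ i1, {i | ∃ g : G, c i - c i1 = n • g}.Infinite := by
  classical
  let φ : G →+ G := nsmulAddMonoidHom n
  let q : I → G ⧸ φ.range := fun i => (c i : G ⧸ φ.range)
  have hq : ∀ i j, q i = q j ↔ ∃ g : G, c i - c j = n • g := fun i j => by
    simp only [q, QuotientAddGroup.eq_iff_sub_mem, AddMonoidHom.mem_range]
    exact exists_congr fun g => eq_comm
  have key : (Set.range q).Finite := by
    by_contra hinf
    obtain ⟨T, hT, hT'⟩ := Set.Infinite.exists_subset_card_eq hinf (Nat.card {g : G | n • g = 0} + 1)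
    choose! s hs using fun t : T => hT t.2
    let H := AddSubgroup.closure (Set.range fun t : T => c (s t))
    have h1 : H ≤ AddCommGroup.torsion G := (AddSubgroup.closure_le _).2 (by
      rintro _ ⟨t, rfl⟩; exact hc _)
    have h2 : AddGroup.FG H := (AddGroup.fg_iff_addSubgroup_fg H).2
      ((AddSubgroup.fg_iff H).2 ⟨_, rfl, Set.finite_range _⟩)
    have h3 : Finite H := AddCommGroup.finite_of_fg_isAddTorsion H fun x =>
      (AddSubgroup.subtype_injective H).isOfFinAddOrder_iff.1 (h1 x.2)
    let ψ : H →+ H := nsmulAddMonoidHom n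
    have h4 : ψ.range.index = Nat.card ψ.ker := AddSubgroup.index_range
    have h5 : Nat.card ψ.ker ≤ Nat.card {g : G | n • g = 0} := by
      have := hfin.to_subtype
      exact Nat.card_le_card_of_injective (fun x => ⟨x.1.1, congrArg Subtype.val x.2⟩)
        fun x y h => Subtype.ext (Subtype.ext (Subtype.mk.inj h))
    have h6 : Nat.card T ≤ ψ.range.index := by
      refine Nat.card_le_card_of_injective (fun t : T => ((⟨c (s t),
        AddSubgroup.subset_closure ⟨t, rfl⟩⟩ : H) : H ⧸ ψ.range)) fun t t' h => Subtype.ext ?_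
      obtain ⟨g, hg⟩ := QuotientAddGroup.eq_iff_sub_mem.1 h
      rw [← hs t, ← hs t', hq]
      exact ⟨g, (congrArg Subtype.val hg).symm⟩
    rw [Nat.card_eq_fintype_card, Fintype.card_coe] at h6
    omega
  have := key.to_subtype
  obtain ⟨⟨_, i1, rfl⟩, h⟩ := Finite.exists_infinite_fiber (Set.rangeFactorization q)
  refine ⟨i1, (Set.infinite_coe_iff.1 h).mono fun i hi => (hq i i1).1 ?_⟩
  exact congrArg Subtype.val hi

/-- ROW GRP, second half. -/
theorem grp_free {M : Type} [AddCommGroup M] (l m n : ℕ) (hl : l.Prime) (hm : 0 < m)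
    (hn : n = l ^ m) [Module (ZMod n) M] [Finite M]
    (h : ∀ x : M, l • x = 0 → ∃ y : M, l ^ (m - 1) • y = x) : Module.Free (ZMod n) M := by
  subst hn
  have h1 : 1 < l ^ m := Nat.one_lt_pow hm.ne' hl.one_lt
  have : Fact (1 < l ^ m) := ⟨h1⟩
  have : NeZero (l ^ m) := ⟨by omega⟩
  have hu : ∀ a : ZMod (l ^ m), ¬ IsUnit a ↔ (l : ZMod (l ^ m)) ∣ a := fun a => by
    constructor
    · intro ha
      rw [← ZMod.natCast_zmod_val a, ZMod.isUnit_natCast_iff_not_dvd_pow hl hm, not_not] at ha
      rw [← ZMod.natCast_zmod_val a]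
      exact Nat.cast_dvd_cast ha
    · intro ha hb
      exact (ZMod.isUnit_natCast_iff_not_dvd_pow hl hm).1 (isUnit_of_dvd_unit ha hb) dvd_rfl
  have : IsLocalRing (ZMod (l ^ m)) := IsLocalRing.of_nonunits_add fun a b ha hb =>
    (hu _).2 (dvd_add ((hu a).1 ha) ((hu b).1 hb))
  have : Module.FinitePresentation (ZMod (l ^ m)) M := Module.finitePresentation_of_finite _ _
  refine Module.free_of_maximalIdeal_rTensor_injective ((injective_iff_map_eq_zero _).2 ?_)
  let L : IsLocalRing.maximalIdeal (ZMod (l ^ m)) := ⟨l, (hu _).2 dvd_rfl⟩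
  have hs : ∀ z : IsLocalRing.maximalIdeal (ZMod (l ^ m)) ⊗[ZMod (l ^ m)] M, ∃ x, z = L ⊗ₜ x := by
    intro z
    induction z with
    | zero => exact ⟨0, by simp⟩
    | tmul a x =>
      obtain ⟨b, hb⟩ := (hu a).1 a.2
      refine ⟨b • x, ?_⟩
      rw [← TensorProduct.smul_tmul]
      congr 1
      exact Subtype.ext (by rw [hb, mul_comm]; rfl)
    | add x y hx hy =>
      obtain ⟨x, rfl⟩ := hx
      obtain ⟨y, rfl⟩ := hy
      exact ⟨x + y, (TensorProduct.tmul_add _ _ _).symm⟩
  intro z hz
  obtain ⟨x, rfl⟩ := hs z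
  have h2 := congrArg (TensorProduct.lid (ZMod (l ^ m)) M) hz
  rw [map_zero, LinearMap.rTensor_tmul, TensorProduct.lid_tmul] at h2
  obtain ⟨y, rfl⟩ := h x (by rw [← Nat.cast_smul_eq_nsmul (ZMod (l ^ m))]; exact h2)
  rw [← Nat.cast_smul_eq_nsmul (ZMod (l ^ m)), ← TensorProduct.smul_tmul]
  have h3 : ((l ^ (m - 1) : ℕ) : ZMod (l ^ m)) • L = 0 := Subtype.ext (by
    change ((l ^ (m - 1) : ℕ) : ZMod (l ^ m)) * l = 0
    rw [← Nat.cast_mul, ← pow_succ, Nat.sub_add_cancel hm, ZMod.natCast_self])
  rw [h3, TensorProduct.zero_tmul]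

end Pool.Agent.MP_855f4c_ag.WD.Tor
end

section
/-! h86d section II, row FROB. -/

namespace Pool.Agent.MP_855f4c_ag.WD.Tor

open scoped TensorProduct
open Filter

variable {k A : Type} [Field k] [CommRing A] [Algebra k A]

namespace FROB

/-- Finitely many elements algebraic over the prime field are fixed by one power of Frobenius. -/
theorem fix_fin (p : ℕ) [Fact p.Prime] [Algebra (ZMod p) k] [Algebra.IsAlgebraic (ZMod p) k]
    (S : Set k) (hS : S.Finite) : ∃ e : ℕ, 0 < e ∧ ∀ c ∈ S, c ^ p ^ e = c := by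
  have : Finite S := hS.to_subtype
  let K := IntermediateField.adjoin (ZMod p) S
  have : FiniteDimensional (ZMod p) K :=
    IntermediateField.finiteDimensional_adjoin fun x _ =>
      (Algebra.IsAlgebraic.isAlgebraic (R := ZMod p) x).isIntegral
  have : Finite K := Module.finite_of_finite (ZMod p)
  let : Fintype K := Fintype.ofFinite K
  have : CharP K p := charP_of_injective_algebraMap (algebraMap (ZMod p) K).injective p
  obtain ⟨e, -, he⟩ := FiniteField.card K p
  refine ⟨e, e.pos, fun c hc => ?_⟩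
  have h1 := FiniteField.pow_card (⟨c, IntermediateField.subset_adjoin _ _ hc⟩ : K)
  rw [he] at h1
  simpa using congrArg Subtype.val h1

end FROB

/-- ROW FROB. A finitely generated algebra over the closure of a prime field has a Frobenius. -/
theorem frob_abs (p : ℕ) [Fact p.Prime] [Algebra (ZMod p) k] [Algebra.IsAlgebraic (ZMod p) k]
    [IsAlgClosed k] {ι : Type} [Finite ι] (y : ι → A) (hy : Algebra.adjoin k (Set.range y) = ⊤) :
    ∃ (e : ℕ) (σ : A ≃+* A), 0 < e ∧ (∀ j, σ (y j) = y j) ∧
      ∀ c : k, σ (algebraMap k A c) = algebraMap k A (c ^ p ^ e) := by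
  classical
  have : CharP k p := charP_of_injective_algebraMap (algebraMap (ZMod p) k).injective p
  let φ : MvPolynomial ι k →+* A := (MvPolynomial.aeval y : MvPolynomial ι k →ₐ[k] A).toRingHom
  have hφ : Function.Surjective φ := by
    rw [Algebra.adjoin_range_eq_range_aeval] at hy
    intro a
    have : a ∈ (MvPolynomial.aeval y : MvPolynomial ι k →ₐ[k] A).range := by
      rw [hy]; trivial
    exact this
  obtain ⟨G, hG⟩ : (RingHom.ker φ).FG := IsNoetherian.noetherian _
  obtain ⟨e, he, hfix⟩ := FROB.fix_fin p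
    (↑(G.biUnion fun g => g.support.image fun m => g.coeff m) : Set k) (Finset.finite_toSet _)
  let τ : MvPolynomial ι k ≃+* MvPolynomial ι k :=
    MvPolynomial.mapEquiv ι (iterateFrobeniusEquiv k p e)
  have hτ : ∀ g ∈ G, τ g = g := by
    intro g hg
    ext m
    have : (τ g).coeff m = (g.coeff m) ^ p ^ e := by
      simp [τ, MvPolynomial.coeff_map, iterateFrobenius_def]
    rw [this]
    by_cases hm : m ∈ g.support
    · exact hfix _ (by
        simp only [Finset.coe_biUnion, Set.mem_iUnion, Finset.mem_coe, Finset.mem_image]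
        exact ⟨g, hg, m, hm, rfl⟩)
    · rw [MvPolynomial.notMem_support_iff.mp hm]
      exact zero_pow (pow_ne_zero _ (Fact.out : p.Prime).ne_zero)
  have hI : RingHom.ker φ = (RingHom.ker φ).map (τ : MvPolynomial ι k →+* MvPolynomial ι k) := by
    rw [← hG, Ideal.map_span]
    congr 1
    ext x
    constructor
    · intro hx
      exact ⟨x, hx, hτ x hx⟩
    · rintro ⟨z, hz, rfl⟩
      have := hτ z hz
      simpa [this] using hz
  let q := RingHom.quotientKerEquivOfSurjective hφ
  let σ : A ≃+* A := q.symm.trans ((Ideal.quotientEquiv _ _ τ hI).trans q)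
  have hσ : ∀ x, σ (φ x) = φ (τ x) := by
    intro x
    have h1 : q.symm (φ x) = Ideal.Quotient.mk _ x := by
      rw [RingEquiv.symm_apply_eq]; rfl
    show q (Ideal.quotientEquiv _ _ τ hI (q.symm (φ x))) = _
    rw [h1]; rfl
  refine ⟨e, σ, he, fun j => ?_, fun c => ?_⟩
  · have h := hσ (MvPolynomial.X j)
    simpa [φ, τ] using h
  · have h := hσ (MvPolynomial.C c)
    simpa [φ, τ, iterateFrobenius_def] using h

end Pool.Agent.MP_855f4c_ag.WD.Tor
end

end

section

attribute [-instance] IsPurelyInseparable.isIntegral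
  ContinuousSemilinearMapClass.toSemilinearMapClass Algebra.WeaklyEtale.flat RKHS.instFunLike
  CoalgHomClass.toSemilinearMapClass RingHomClass.toLinearMapClassNNRat
  MonTypeEquivalenceMon.monMonoid Algebra.Smooth.flat NormedSpace.toModule NeZero.charZero_one
  Algebra.IsFiniteSplit.instFree NonUnitalAlgSemiHomClass.toMulHomClass
  RingHomClass.toLinearMapClassRat SemilinearIsometryClass.toSemilinearMapClass
  instNonUnitalAlgHomClassOfNonUnitalAlgEquivClass RightPreLieAlgebra.toModule
  LeftPreLieAlgebra.toModule Algebra.Generators.instRing CommRing.Pic.instFreeOfSubsingleton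
  NonUnitalAlgHomClass.instSemilinearMapClassOfNonUnitalAlgSemiHomClassToMonoidHomRingHom
  Module.IsNoetherian.finite bot_nonempty SubmonoidClass.toOneMemClass instCoeTCOfCoe
  instNontrivialOfCharZero SetLike.GradeZero.instSemiring littleWedderburn
  KleeneAlgebra.toIdemSemiring IdemCommSemiring.toIdemSemiring Algebra.IsQuadraticExtension.toFree
  AlgHomClass.linearMapClass NonUnitalAlgHomClass.toNonUnitalRingHomClass
  AddSubmonoidWithOneClass.toOneMemClass BialgEquivClass.toBialgHomClass
  CommMonTypeEquivalenceCommMon.commMonCommMonoid RingConeClass.toSubsemiringClass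
  Nontrivial.to_nonempty NormMulClass.toNoZeroDivisors TestFunctionClass.toDFunLike
  LinearOrderedCommMonoidWithZero.toIsBotZeroClass Zero.instNonempty
  ContDiffMapSupportedInClass.toDFunLike IsDedekindDomainDvr.isDedekindDomain

open MvPolynomial

namespace Tsen23

lemma height_max (k : Type) [Field k] (σ : Type) [Finite σ] :
    ∀ M : Ideal (MvPolynomial σ k), M.IsMaximal → M.height = Nat.card σ := by
  induction σ using Finite.induction_empty_option with
  | of_equiv e H =>
    intro M hM
    have h1 := H (M.map (renameEquiv k e.symm).toRingEquiv) (Ideal.map_isMaximal_of_equiv _)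
    rw [RingEquiv.height_map] at h1
    rw [h1, Nat.card_congr e]
  | h_empty =>
    intro M hM
    have h1 := Ideal.height_le_ringKrullDim_of_ne_top hM.ne_top
    rw [MvPolynomial.ringKrullDim_of_isNoetherianRing, ringKrullDim_eq_zero_of_field] at h1
    simp only [Nat.card_eq_fintype_card, Fintype.card_pempty, Nat.cast_zero, add_zero] at h1 ⊢
    exact nonpos_iff_eq_zero.1 (by exact_mod_cast h1)
  | @h_option α _ IH =>
    intro M hM
    let e := (MvPolynomial.optionEquivLeft k α).toRingEquiv
    have hm : (M.map e).IsMaximal := Ideal.map_isMaximal_of_equiv _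
    have h2 : ((M.map e).under (MvPolynomial α k)).IsMaximal :=
      Polynomial.isMaximal_comap_C_of_isJacobsonRing _
    have : (M.map e).LiesOver ((M.map e).under (MvPolynomial α k)) := ⟨rfl⟩
    have h3 := Polynomial.height_eq_height_add_one ((M.map e).under (MvPolynomial α k)) (M.map e)
    rw [RingEquiv.height_map, IH _ h2] at h3
    rw [h3]
    simp only [Nat.card_eq_fintype_card, Fintype.card_option, Nat.cast_add, Nat.cast_one]

/-- Fewer polynomials than variables, all vanishing at `0`, have another common zero. -/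
theorem other_zero {k σ ι : Type} [Field k] [IsAlgClosed k] [Finite σ] [Finite ι]
    (h : Nat.card ι < Nat.card σ) (Q : ι → MvPolynomial σ k) (h0 : ∀ i, eval 0 (Q i) = 0) :
    ∃ x : σ → k, x ≠ 0 ∧ ∀ i, eval x (Q i) = 0 := by
  classical
  by_contra hne
  push Not at hne
  have hz : zeroLocus k (Ideal.span (Set.range Q)) = {0} := by
    rw [zeroLocus_span]
    ext x
    simp only [Set.mem_range, forall_exists_index, forall_apply_eq_imp_iff, Set.mem_ofPred_eq,
      Set.mem_singleton_iff]
    refine ⟨fun hx => by_contra fun hx0 => ?_, fun hx i => hx ▸ h0 i⟩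
    obtain ⟨i, hi⟩ := hne x hx0
    exact hi (hx i)
  have hr := vanishingIdeal_zeroLocus_eq_radical (K := k) (Ideal.span (Set.range Q))
  rw [hz] at hr
  have hM : (vanishingIdeal k ({0} : Set (σ → k))).IsMaximal := inferInstance
  have hmin : vanishingIdeal k ({0} : Set (σ → k)) ∈ (Ideal.span (Set.range Q)).minimalPrimes := by
    rw [← Ideal.radical_minimalPrimes, ← hr, Ideal.minimalPrimes_eq_subsingleton_self]
    rfl
  have h1 := Ideal.height_le_card_of_mem_minimalPrimes_span (Set.finite_range Q) hmin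
  rw [height_max k σ _ hM] at h1
  have h2 : (Set.range Q).ncard ≤ Nat.card ι := by
    rw [← Set.image_univ, ← Set.ncard_univ]
    exact Set.ncard_image_le
  have h3 : Nat.card σ ≤ (Set.range Q).ncard := by exact_mod_cast h1
  omega

/-- A polynomial over `K` whose values on `k`-points lie in a small `k`-subspace. -/
theorem other_zero' {k K σ : Type} [Field k] [IsAlgClosed k] [CommRing K] [Algebra k K] [Finite σ]
    (U : Submodule k K) [Module.Finite k U] (h : Module.finrank k U < Nat.card σ)
    (P : MvPolynomial σ K) (hU : ∀ x : σ → k, eval (fun s => algebraMap k K (x s)) P ∈ U)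
    (h0 : eval 0 P = 0) :
    ∃ x : σ → k, x ≠ 0 ∧ eval (fun s => algebraMap k K (x s)) P = 0 := by
  classical
  obtain ⟨π, hπ⟩ := LinearMap.exists_leftInverse_of_injective U.subtype U.ker_subtype
  let b := Module.finBasis k U
  have key : ∀ (l : K →ₗ[k] k) (P : MvPolynomial σ K), ∃ Q : MvPolynomial σ k,
      ∀ x : σ → k, eval x Q = l (eval (fun s => algebraMap k K (x s)) P) := by
    intro l P
    induction P using MvPolynomial.induction_on' with
    | monomial m a =>
      refine ⟨monomial m (l a), fun x => ?_⟩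
      rw [eval_monomial, eval_monomial, mul_comm, ← smul_eq_mul, ← map_smul, Algebra.smul_def,
        mul_comm, map_finsuppProd]
      simp only [map_pow]
    | add p q hp hq =>
      obtain ⟨p', hp⟩ := hp
      obtain ⟨q', hq⟩ := hq
      exact ⟨p' + q', fun x => by rw [map_add, map_add, map_add, hp, hq]⟩
  choose Q hQ using fun i => key (b.coord i ∘ₗ π) P
  obtain ⟨x, hx, hx'⟩ := other_zero (ι := Fin (Module.finrank k U)) (by simpa only [Nat.card_eq_fintype_card, Fintype.card_fin] using h) Q (by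
    intro i
    rw [hQ]
    simp only [Pi.zero_apply, map_zero]
    rw [show (fun _ : σ => (0 : K)) = 0 from rfl, h0, map_zero])
  refine ⟨x, hx, ?_⟩
  have h1 : π (eval (fun s => algebraMap k K (x s)) P) = ⟨_, hU x⟩ :=
    LinearMap.congr_fun hπ ⟨_, hU x⟩
  have h2 : (⟨_, hU x⟩ : U) = 0 := by
    refine b.ext_elem fun i => ?_
    have := hx' i
    rw [hQ, LinearMap.comp_apply, h1] at this
    simpa only [map_zero, Finsupp.coe_zero, Pi.zero_apply, Module.Basis.coord_apply] using this
  exact congrArg Subtype.val h2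

section

variable {k K : Type} [Field k] [Field K] [Algebra k K]

/-- Polynomials of degree at most `m` in `t`. -/
def T (k : Type) {K : Type} [Field k] [Field K] [Algebra k K] (t : K) (m : ℕ) : Submodule k K :=
  Submodule.span k (Set.range fun a : Fin (m + 1) => t ^ (a : ℕ))

lemma pow_mem_T (t : K) {a m : ℕ} (h : a ≤ m) : t ^ a ∈ T k t m :=
  Submodule.subset_span ⟨⟨a, by omega⟩, rfl⟩

lemma T_mono (t : K) {a m : ℕ} (h : a ≤ m) : T k t a ≤ T k t m :=
  Submodule.span_le.2 (by rintro _ ⟨i, rfl⟩; exact pow_mem_T t (by omega))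

lemma T_mul (t : K) (a m : ℕ) : T k t a * T k t m ≤ T k t (a + m) := by
  rw [T, T, Submodule.span_mul_span, Submodule.span_le]
  rintro _ ⟨_, ⟨i, rfl⟩, _, ⟨j, rfl⟩, rfl⟩
  simp only [← pow_add]
  exact pow_mem_T t (by omega)

lemma aeval_mem_T (t : K) (p : Polynomial k) : Polynomial.aeval t p ∈ T k t p.natDegree := by
  rw [Polynomial.aeval_eq_sum_range]
  exact Submodule.sum_mem _ fun i hi => Submodule.smul_mem _ _
    (pow_mem_T t (by simpa [Nat.lt_succ_iff] using hi))

lemma TV_mul (t : K) {a m : ℕ} {V : Submodule k K} {y z : K} (hy : y ∈ T k t a)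
    (hz : z ∈ T k t m * V) : y * z ∈ T k t (a + m) * V := by
  have := Submodule.mul_mem_mul hy hz
  rw [← mul_assoc] at this
  exact mul_le_mul' (T_mul t a m) le_rfl this

lemma prod_mem (t : K) (m : ℕ) (V : Submodule k K) {ι : Type} (s : Finset ι) (z : ι → K)
    (hz : ∀ i ∈ s, z i ∈ T k t m * V) : ∏ i ∈ s, z i ∈ T k t (s.card * m) * V ^ s.card := by
  classical
  induction s using Finset.induction_on with
  | empty =>
    simpa using pow_mem_T (k := k) t (le_refl 0)
  | insert i s hi ih =>
    rw [Finset.prod_insert hi, Finset.card_insert_of_notMem hi]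
    have := Submodule.mul_mem_mul (hz i (by simp)) (ih fun j hj => hz j (by simp [hj]))
    rw [mul_mul_mul_comm, ← pow_succ'] at this
    refine SetLike.le_def.1 (mul_le_mul' ?_ le_rfl) this
    rw [Nat.succ_mul, add_comm]
    exact T_mul t _ _

open IntermediateField in
/-- Common denominators. -/
lemma denom (t : K) {d : ℕ} (b : Module.Basis (Fin d) k⟮t⟯ K)
    (V : Submodule k K) (hV : V.FG) : ∃ y : K, y ≠ 0 ∧ ∃ c, ∀ v ∈ V,
      y * v ∈ T k t c * Submodule.span k (Set.range b) := by
  set B := Submodule.span k (Set.range b)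
  let G : K → Prop := fun z => ∃ y : K, y ≠ 0 ∧ ∃ c, y ∈ T k t c ∧ y * z ∈ T k t c * B
  have hadd : ∀ z z', G z → G z' → G (z + z') := by
    rintro z z' ⟨y, hy, c, h1, h2⟩ ⟨y', hy', c', h1', h2'⟩
    refine ⟨y * y', mul_ne_zero hy hy', c + c', T_mul t _ _ (Submodule.mul_mem_mul h1 h1'), ?_⟩
    rw [show y * y' * (z + z') = y' * (y * z) + y * (y' * z') by ring]
    exact add_mem (add_comm c c' ▸ TV_mul t h1' h2) (TV_mul t h1 h2')
  have hG : ∀ z, G z := by
    intro z
    rw [← b.sum_repr z]
    refine Finset.sum_induction _ G hadd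
      ⟨1, one_ne_zero, 0, by simpa using pow_mem_T (k := k) t (le_refl 0), by simp⟩ fun j _ => ?_
    obtain ⟨r, s, hrs⟩ := (mem_adjoin_simple_iff k _).1 (b.repr z j).2
    by_cases hs : Polynomial.aeval t s = 0
    · refine ⟨1, one_ne_zero, 0, by simpa using pow_mem_T (k := k) t (le_refl 0), ?_⟩
      rw [IntermediateField.smul_def, hrs, hs]
      simp
    · refine ⟨_, hs, s.natDegree + r.natDegree, T_mono t (by omega) (aeval_mem_T t s), ?_⟩
      rw [IntermediateField.smul_def, hrs, smul_eq_mul, ← mul_assoc, mul_div_cancel₀ _ hs]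
      exact Submodule.mul_mem_mul (T_mono t (by omega) (aeval_mem_T t r))
        (Submodule.subset_span ⟨j, rfl⟩)
  obtain ⟨s, rfl⟩ := hV
  have key : ∃ y : K, y ≠ 0 ∧ ∃ c, y ∈ T k t c ∧ ∀ v ∈ s, y * v ∈ T k t c * B := by
    classical
    induction s using Finset.induction_on with
    | empty => exact ⟨1, one_ne_zero, 0, by simpa using pow_mem_T (k := k) t (le_refl 0), by simp⟩
    | insert z s _ ih =>
      obtain ⟨y, hy, c, h1, h2⟩ := ih
      obtain ⟨y', hy', c', h1', h2'⟩ := hG z
      refine ⟨y * y', mul_ne_zero hy hy', c + c', T_mul t _ _ (Submodule.mul_mem_mul h1 h1'),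
        fun v hv => ?_⟩
      rcases Finset.mem_insert.1 hv with rfl | hv
      · rw [mul_assoc]
        exact TV_mul t h1 h2'
      · rw [mul_comm y, mul_assoc, add_comm]
        exact TV_mul t h1' (h2 v hv)
  obtain ⟨y, hy, c, -, h⟩ := key
  refine ⟨y, hy, c, fun v hv => ?_⟩
  exact (Submodule.span_le (p := (T k t c * B).comap (LinearMap.mulLeft k y))).2 h hv

lemma lin_pow {t : K} (ht : Transcendental k t) {m : ℕ} (x : Fin (m + 1) → k)
    (h : ∑ a, x a • t ^ (a : ℕ) = 0) (a : Fin (m + 1)) : x a = 0 := by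
  have h1 : Polynomial.aeval t (∑ a : Fin (m + 1), Polynomial.monomial (a : ℕ) (x a)) = 0 := by
    simpa only [map_sum, Polynomial.aeval_monomial, Algebra.smul_def] using h
  have h2 := congrArg (Polynomial.coeff · a) (transcendental_iff.1 ht _ h1)
  simpa [Polynomial.coeff_monomial, Fin.val_inj] using h2

open IntermediateField in
/-- Tsen: norms from finite extensions of a function field over an algebraically closed field are
surjective. -/
theorem tsen_norm [IsAlgClosed k] {t : K} (ht : Transcendental k t) [FiniteDimensional k⟮t⟯ K]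
    (K' : Type) [Field K'] [Algebra K K'] [FiniteDimensional K K'] (f : K) :
    ∃ w : K', Algebra.norm K w = f := by
  classical
  obtain ⟨d, ⟨b⟩⟩ : ∃ d, Nonempty (Module.Basis (Fin d) k⟮t⟯ K) := ⟨_, ⟨Module.finBasis _ _⟩⟩
  obtain ⟨n, hn, ⟨e⟩⟩ : ∃ n, n = Module.finrank K K' ∧ Nonempty (Module.Basis (Fin n) K K') :=
    ⟨_, rfl, ⟨Module.finBasis _ _⟩⟩
  have hn0 : 0 < n := hn ▸ Module.finrank_pos
  let C : Submodule k K := Submodule.span k (Set.range fun p : (Fin d × Fin n) × Fin n × Fin n =>
    Algebra.leftMulMatrix e (b p.1.1 • e p.1.2) p.2.1 p.2.2)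
  have hC : C.FG := Submodule.fg_span (Set.finite_range _)
  obtain ⟨y, hy, c, hc⟩ := denom t b (C ^ n ⊔ Submodule.span k {f})
    ((hC.pow n).sup (Submodule.fg_span_singleton f))
  let m := (c + 1) * d
  let U : Submodule k K := Submodule.span k
    (Set.range fun p : Fin (n * m + c + 1) × Fin d => t ^ (p.1 : ℕ) * b p.2)
  have : Module.Finite k U := Module.Finite.span_of_finite _ (Set.finite_range _)
  have hU : ∀ z ∈ T k t (n * m) * (C ^ n ⊔ Submodule.span k {f}), y * z ∈ U := by
    intro z hz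
    have h1 : y * z ∈ T k t (n * m + c) * Submodule.span k (Set.range b) := by
      refine Submodule.mul_induction_on hz (fun r hr v hv => ?_) fun z z' h h' => ?_
      · rw [mul_left_comm y r v]
        exact TV_mul t hr (hc v hv)
      · rw [mul_add]
        exact add_mem h h'
    rw [T, Submodule.span_mul_span] at h1
    refine Submodule.span_mono ?_ h1
    rintro _ ⟨_, ⟨i, rfl⟩, _, ⟨j, rfl⟩, rfl⟩
    exact ⟨(i, j), rfl⟩
  let σ := (Fin (m + 1) × Fin d × Fin n) ⊕ Fin (m + 1)
  let w : (σ → K) → K' := fun x =>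
    ∑ s : Fin (m + 1) × Fin d × Fin n, x (.inl s) • t ^ (s.1 : ℕ) • b s.2.1 • e s.2.2
  let v : (σ → K) → K := fun x => ∑ a : Fin (m + 1), x (.inr a) * t ^ (a : ℕ)
  have hw : ∀ x i j, Algebra.leftMulMatrix e (w x) i j = ∑ s : Fin (m + 1) × Fin d × Fin n,
      x (.inl s) * (t ^ (s.1 : ℕ) * Algebra.leftMulMatrix e (b s.2.1 • e s.2.2) i j) := by
    intro x i j
    simp only [w, map_sum, Matrix.sum_apply]
    refine Finset.sum_congr rfl fun s _ => ?_
    rw [map_smul, map_smul]
    rfl
  have hent : ∀ (x : σ → k) i j,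
      Algebra.leftMulMatrix e (w fun s => algebraMap k K (x s)) i j ∈ T k t m * C := by
    intro x i j
    rw [hw (fun s => algebraMap k K (x s)) i j]
    refine Submodule.sum_mem _ fun s _ => ?_
    rw [← Algebra.smul_def]
    exact Submodule.smul_mem _ _ (Submodule.mul_mem_mul
      (pow_mem_T t (Nat.lt_succ_iff.1 s.1.2)) (Submodule.subset_span ⟨(s.2, _, _), rfl⟩))
  let P : MvPolynomial σ K := MvPolynomial.C y * ((Matrix.of fun i j : Fin n =>
    ∑ s : Fin (m + 1) × Fin d × Fin n, X (.inl s) * MvPolynomial.C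
      (t ^ (s.1 : ℕ) * Algebra.leftMulMatrix e (b s.2.1 • e s.2.2) i j)).det -
      (∑ a : Fin (m + 1), X (.inr a) * MvPolynomial.C (t ^ (a : ℕ))) ^ n * MvPolynomial.C f)
  have hP : ∀ x, eval x P = y * ((Algebra.leftMulMatrix e (w x)).det - v x ^ n * f) := by
    intro x
    simp only [P, v, map_mul, map_sub, map_pow, map_sum, eval_C, eval_X, RingHom.map_det]
    congr 3
    ext i j
    simp only [map_smul, Matrix.smul_apply, smul_eq_mul, C_mul, RingHom.mapMatrix_apply, Matrix.map_apply, Matrix.of_apply, map_sum, map_mul, eval_X, map_pow, eval_C, hw]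
  obtain ⟨x, hx, hx'⟩ := other_zero' U (σ := σ) (by
      refine (finrank_range_le_card _).trans_lt ?_
      simp only [σ, Nat.card_eq_fintype_card, Fintype.card_sum, Fintype.card_prod, Fintype.card_fin]
      have : m = (c + 1) * d := rfl
      linarith only [Nat.zero_le (d * n), this]) P (by
      intro x
      rw [hP]
      refine hU _ (sub_mem ?_ ?_)
      · rw [Matrix.det_apply]
        refine Submodule.sum_mem _ fun s _ => ?_
        rw [Units.smul_def]
        refine zsmul_mem (SetLike.le_def.1 (mul_le_mul' le_rfl le_sup_left) ?_) _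
        have := prod_mem t m C Finset.univ _ fun i _ => hent x (s i) i
        simpa only [Finset.card_univ, Fintype.card_fin] using this
      · refine Submodule.mul_mem_mul ?_
          (Submodule.mem_sup_right (Submodule.mem_span_singleton_self f))
        have := prod_mem t m 1 (Finset.univ : Finset (Fin n))
          (fun _ => v fun s => algebraMap k K (x s)) (by
            intro i _
            rw [mul_one]
            refine (T k t m).sum_mem fun s _ => ?_
            rw [← Algebra.smul_def]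
            exact Submodule.smul_mem _ _ (pow_mem_T t (Nat.lt_succ_iff.1 s.2)))
        simpa using this) (by
      have : Nonempty (Fin n) := ⟨⟨0, hn0⟩⟩
      rw [hP]
      simp only [w, Pi.zero_apply, zero_smul, Finset.sum_const_zero, map_zero, Matrix.det_zero, v, zero_mul, ne_eq, hn0.ne', not_false_eq_true, zero_pow, sub_self, mul_zero])
  rw [hP, mul_eq_zero, or_iff_right hy, sub_eq_zero, ← Algebra.norm_eq_matrix_det] at hx'
  set x' : σ → K := fun s => algebraMap k K (x s)
  by_cases hv : v x' = 0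
  · exfalso
    rw [hv, zero_pow hn0.ne', zero_mul, Algebra.norm_eq_zero_iff] at hx'
    refine hx (funext fun s => ?_)
    rcases s with ⟨a, j, i⟩ | a
    · have h1 : ∑ i, (∑ j, (∑ a : Fin (m + 1), x (.inl (a, j, i)) • AdjoinSimple.gen k t ^ (a : ℕ))
          • b j) • e i = 0 := by
        rw [← hx']
        simp only [w, x', Fintype.sum_prod_type, Finset.sum_smul]
        rw [Finset.sum_comm]
        rw [Finset.sum_congr rfl fun j _ => Finset.sum_comm, Finset.sum_comm]
        refine Finset.sum_congr rfl fun a _ => Finset.sum_congr rfl fun j _ =>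
          Finset.sum_congr rfl fun i _ => ?_
        simp [Algebra.smul_def, mul_assoc]
      have h2 := Fintype.linearIndependent_iff.1 e.linearIndependent _ h1 i
      have h3 := congrArg Subtype.val (Fintype.linearIndependent_iff.1 b.linearIndependent _ h2 j)
      exact lin_pow ht (fun a => x (.inl (a, j, i))) (by simpa only [AddSubmonoidClass.coe_finsetSum, SetLike.val_smul, SubmonoidClass.coe_pow, AdjoinSimple.coe_gen, ZeroMemClass.coe_zero] using h3) a
    · exact lin_pow ht (fun a => x (.inr a)) (by simpa only [Algebra.smul_def, v, x'] using hv) a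
  · refine ⟨algebraMap K K' (v x')⁻¹ * w x', ?_⟩
    rw [map_mul, Algebra.norm_algebraMap, hx', ← hn, ← mul_assoc, ← mul_pow, inv_mul_cancel₀ hv,
      one_pow, one_mul]

end

end Tsen23

end

section

namespace Theta23

/-- Commuting operators that preserve a non-zero finite-dimensional subspace have a common
eigenvector in it. -/
theorem common_eigen {k V ι : Type} [Field k] [IsAlgClosed k] [AddCommGroup V] [Module k V]
    (T : ι → Module.End k V) (hT : ∀ i j x, T i (T j x) = T j (T i x)) (n : ℕ) :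
    ∀ (W : Submodule k V) [Module.Finite k W], Module.finrank k W = n → W ≠ ⊥ →
      (∀ i, ∀ x ∈ W, T i x ∈ W) → ∃ v ∈ W, v ≠ 0 ∧ ∀ i, ∃ c : k, T i v = c • v := by
  induction n using Nat.strong_induction_on with
  | _ n ih =>
  intro W _ hn hW hs
  by_cases h : ∀ i, ∃ c : k, ∀ x ∈ W, T i x = c • x
  · obtain ⟨v, hv, hv0⟩ := (Submodule.ne_bot_iff W).1 hW
    exact ⟨v, hv, hv0, fun i => (h i).imp fun c hc => hc v hv⟩
  push Not at h
  obtain ⟨i, hi⟩ := h
  have : Nontrivial W := Submodule.nontrivial_iff_ne_bot.2 hW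
  obtain ⟨c, hc⟩ := Module.End.exists_eigenvalue ((T i).restrict (hs i))
  obtain ⟨v, hv⟩ := hc.exists_hasEigenvector
  obtain ⟨x, hx, hx'⟩ := hi c
  have hle : W ⊓ (T i).eigenspace c ≤ W := inf_le_left
  have : Module.Finite k (W ⊓ (T i).eigenspace c : Submodule k V) :=
    Submodule.finiteDimensional_of_le hle
  obtain ⟨w, hw, hw'⟩ := ih _ (hn ▸ Submodule.finrank_lt_finrank_of_lt (hle.lt_of_ne fun e =>
      hx' (Module.End.mem_eigenspace_iff.1 (e.ge hx).2))) (W ⊓ (T i).eigenspace c) rfl
    ((Submodule.ne_bot_iff _).2 ⟨v, ⟨v.2, Module.End.mem_eigenspace_iff.2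
      (congrArg Subtype.val hv.apply_eq_smul)⟩, fun e => hv.2 (Subtype.ext e)⟩)
    fun j y hy => ⟨hs j y hy.1, Module.End.mem_eigenspace_iff.2 (by
      rw [hT, Module.End.mem_eigenspace_iff.1 hy.2, map_smul])⟩
  exact ⟨w, hw.1, hw'⟩

/-- A family `u` whose coboundary is constant and symmetric is, up to constants, `v / σ v`. -/
theorem theta {k K H : Type} [Field k] [IsAlgClosed k] [Field K] [Algebra k K] [Finite H]
    [Nonempty H] (σ : H → K ≃ₐ[k] K) (u : H → K) (hu : ∀ h, u h ≠ 0)
    (hσ : ∀ g h x, σ g (σ h x) = σ h (σ g x))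
    (hc : ∀ g h, ∃ (j : H) (c : k), u g * σ g (u h) = algebraMap k K c * u j)
    (hs : ∀ g h, u g * σ g (u h) = u h * σ h (u g)) :
    ∃ v : K, v ≠ 0 ∧ ∀ h, ∃ c : k, c ≠ 0 ∧ u h * σ h v = algebraMap k K c * v := by
  have : Module.Finite k (Submodule.span k (Set.range u)) :=
    Module.Finite.span_of_finite _ (Set.finite_range _)
  obtain ⟨v, -, hv, h⟩ := common_eigen
    (fun h => LinearMap.mulLeft k (u h) ∘ₗ (σ h).toLinearMap) (fun g h x => by
      simp only [LinearMap.comp_apply, LinearMap.mulLeft_apply, AlgEquiv.toLinearMap_apply, map_mul]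
      rw [← mul_assoc, hs, hσ, mul_assoc]) _ (Submodule.span k (Set.range u)) rfl
    ((Submodule.ne_bot_iff _).2
      ⟨_, Submodule.subset_span ⟨Classical.arbitrary H, rfl⟩, hu _⟩) fun g x hx => by
      refine (Submodule.span_le (p := (Submodule.span k (Set.range u)).comap _)).2 ?_ hx
      rintro _ ⟨h, rfl⟩
      obtain ⟨j, c, hj⟩ := hc g h
      change u g * σ g (u h) ∈ Submodule.span k (Set.range u)
      rw [hj, ← Algebra.smul_def]
      exact Submodule.smul_mem _ _ (Submodule.subset_span ⟨j, rfl⟩)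
  refine ⟨v, hv, fun g => (h g).imp fun c hc => ?_⟩
  change u g * σ g v = c • v at hc
  refine ⟨?_, hc.trans (Algebra.smul_def c v)⟩
  rintro rfl
  simp [hu, hv] at hc

end Theta23

end
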