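import Pool.Agent.MP_855f4c_ag.WD.A
import Pool.Agent.MP_855f4c_ag.WD.T

section

attribute [-instance] IsPurelyInseparable.isIntegral SMulZeroClass.toSMul Module.IsNoetherian.finite
  ContinuousSemilinearMapClass.toSemilinearMapClass NormedSpace.toModule
  instNonUnitalAlgHomClassOfNonUnitalAlgEquivClass Algebra.WeaklyEtale.flat IdemSemiring.toSemiring
  RingHomClass.toLinearMapClassNNRat CoalgHomClass.toSemilinearMapClass RightPreLieAlgebra.toModule
  LieAlgebra.toModule WithZero.instDistrib LeftPreLieAlgebra.toModule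
  NonUnitalAlgHomClass.instSemilinearMapClassOfNonUnitalAlgSemiHomClassToMonoidHomRingHom
  AddMonoid.toAddSemigroup Algebra.Smooth.flat RKHS.instFunLike NeZero.charZero_one
  CommRing.Pic.instFreeOfSubsingleton CommGroup.toDivisionCommMonoid
  SemilinearIsometryClass.toSemilinearMapClass Algebra.IsFiniteSplit.instFree
  MonTypeEquivalenceMon.monMonoid AddCommMonoid.toAddCommSemigroup RingHomClass.toLinearMapClassRat
  MulRingSeminormClass.toMonoidWithZeroHomClass BialgHomClass.toAlgHomClass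
  NonUnitalAlgHomClass.toNonUnitalRingHomClass SetLike.GradeZero.instSemiring
  CompletePartialOrder.toPartialOrder RingHom.Finite.instFinite
  Algebra.instFiniteOfIsQuadraticExtension IdemCommSemiring.toCommSemiring
  SemilinearEquivClass.instSemilinearMapClass AlgHomClass.linearMapClass littleWedderburn
  Algebra.IsQuadraticExtension.toFree UniformSpace.toTopologicalSpace
  LieRinehartAlgebra.toIsScalarTower GradedMonoid.GradeZero.smul BialgHomClass.toMonoidHomClass
  instFiniteOfFinitePresentation MulSemiringActionSemiHomClass.toDistribMulActionSemiHomClass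
  Quantale.instMulRightMono LinearOrderedAddCommMonoidWithTop.toAddCommMonoid Torsor.toMulAction
  NormMulClass.toNoZeroDivisors TestFunctionClass.toDFunLike WithZero.instSemiring
  Finsupp.instNonUnitalNonAssocSemiring

/-! Base change of a function field, part A: the field `BC`, constant places, Galois action. -/

namespace Pool.Agent.MP_855f4c_ag.WD

open IntermediateField WithZero
open scoped TensorProduct

variable {k K : Type} [Field k] [Field K] [Algebra k K]

section co

variable {L : Type} [Field L] [Algebra k L]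

/-- The coordinate of a tensor along a linear form on `L`. -/
noncomputable def co (φ : L →ₗ[k] k) : L ⊗[k] K →ₗ[k] K :=
  (TensorProduct.lid k K).toLinearMap ∘ₗ φ.rTensor K

@[simp] lemma co_tmul (φ : L →ₗ[k] k) (c : L) (f : K) : co φ (c ⊗ₜ[k] f) = φ c • f := by
  simp [co]

lemma co_mul (φ : L →ₗ[k] k) (a : L ⊗[k] K) (f : K) : co φ (a * 1 ⊗ₜ[k] f) = co φ a * f := by
  induction a with
  | zero => simp
  | tmul c g => simp
  | add a b ha hb => rw [add_mul, map_add, map_add, ha, hb, add_mul]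

lemma co_sum {ι : Type} (s : Finset ι) (c : ι → L) (hc : LinearIndependent k c) (a : ι → K)
    (j : ι) (hj : j ∈ s) : ∃ φ : L →ₗ[k] k, co φ (∑ i ∈ s, c i ⊗ₜ[k] a i) = a j := by
  classical
  obtain ⟨g, hg⟩ := (Finsupp.linearCombination k c).exists_leftInverse_of_injective
    (LinearMap.ker_eq_bot.2 hc)
  have h1 : ∀ i, g (c i) = Finsupp.single i 1 := fun i => by
    have := LinearMap.congr_fun hg (Finsupp.single i 1)
    simpa using this
  refine ⟨Finsupp.lapply j ∘ₗ g, ?_⟩
  rw [map_sum, Finset.sum_eq_single j]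
  · simp [h1]
  · intro i _ hi; simp [h1, hi]
  · intro h; exact absurd hj h

/-- If all coordinates lie in a subspace, the tensor is a combination of elements of it. -/
lemma mem_span_of_co {a : L ⊗[k] K} (W : Submodule k K) (h : ∀ φ : L →ₗ[k] k, co φ a ∈ W) :
    a ∈ Submodule.span L ((fun f : K => (1 : L) ⊗ₜ[k] f) '' W) := by
  obtain ⟨c, rfl⟩ := TensorProduct.eq_repr_basis_left (Module.Basis.ofVectorSpace k L) a
  refine Submodule.sum_mem _ fun j hj => ?_
  obtain ⟨φ, hφ⟩ := co_sum c.support _ (Module.Basis.ofVectorSpace k L).linearIndependent c j hj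
  have h2 : c j ∈ W := hφ ▸ h φ
  have h3 : (Module.Basis.ofVectorSpace k L j) ⊗ₜ[k] c j =
      (Module.Basis.ofVectorSpace k L j) • ((1 : L) ⊗ₜ[k] c j) := by
    simp [TensorProduct.smul_tmul']
  beta_reduce
  rw [h3]
  exact Submodule.smul_mem _ _ (Submodule.subset_span ⟨_, h2, rfl⟩)

lemma eq_zero_of_co {a : L ⊗[k] K} (h : ∀ φ : L →ₗ[k] k, co φ a = 0) : a = 0 := by
  have := mem_span_of_co (a := a) ⊥ (fun φ => by simp [h φ])
  simpa only [Submodule.bot_coe, Set.image_singleton, TensorProduct.tmul_zero, Submodule.span_zero_singleton, Submodule.mem_bot] using this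

namespace BCa

variable (y : Place k K)

lemma ex_max (a : L ⊗[k] K) :
    ∃ φ : L →ₗ[k] k, ∀ ψ : L →ₗ[k] k, y.v (co ψ a) ≤ y.v (co φ a) := by
  have hb : ∃ m : ℤ, ∀ ψ : L →ₗ[k] k, y.v (co ψ a) ≤ exp m := by
    induction a with
    | zero => exact ⟨0, by simp only [map_zero, exp_zero, zero_le, implies_true]⟩
    | tmul c f =>
      refine ⟨-y.ord f, fun ψ => ?_⟩
      rw [co_tmul, Algebra.smul_def, map_mul]
      exact (mul_le_of_le_one_left' (y.const _)).trans (Place.v_le_exp.2 (Or.inr (by simp)))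
    | add a b ha hb =>
      obtain ⟨m, hm⟩ := ha
      obtain ⟨n, hn⟩ := hb
      refine ⟨max m n, fun ψ => ?_⟩
      rw [map_add]
      exact y.v.map_add_le ((hm ψ).trans (exp_le_exp.2 (le_max_left _ _)))
        ((hn ψ).trans (exp_le_exp.2 (le_max_right _ _)))
  obtain ⟨m, hm⟩ := hb
  by_cases h0 : ∀ ψ : L →ₗ[k] k, co ψ a = 0
  · exact ⟨0, fun ψ => by simp only [h0, map_zero, Std.le_refl]⟩
  push Not at h0
  obtain ⟨n, ⟨φ, hφ, rfl⟩, hn⟩ := Int.exists_greatest_of_bdd
    (P := fun n => ∃ ψ : L →ₗ[k] k, co ψ a ≠ 0 ∧ -y.ord (co ψ a) = n)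
    ⟨m, by
      rintro _ ⟨ψ, h1, rfl⟩
      have := hm ψ
      rwa [Place.v_eq h1, exp_le_exp] at this⟩
    (h0.elim fun ψ h => ⟨_, ψ, h, rfl⟩)
  refine ⟨φ, fun ψ => ?_⟩
  by_cases h1 : co ψ a = 0
  · simp only [h1, map_zero, zero_le]
  · rw [Place.v_eq h1, Place.v_eq hφ, exp_le_exp]; exact hn _ ⟨ψ, h1, rfl⟩

/-- the maximum of the valuations of the coordinates -/
noncomputable def nv (a : L ⊗[k] K) : ℤᵐ⁰ := y.v (co (ex_max y a).choose a)

lemma nv_le (a : L ⊗[k] K) (γ : ℤᵐ⁰) : nv y a ≤ γ ↔ ∀ φ : L →ₗ[k] k, y.v (co φ a) ≤ γ :=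
  ⟨fun h φ => ((ex_max y a).choose_spec φ).trans h, fun h => h _⟩

lemma nv_lt (a : L ⊗[k] K) (γ : ℤᵐ⁰) : nv y a < γ ↔ ∀ φ : L →ₗ[k] k, y.v (co φ a) < γ :=
  ⟨fun h φ => ((ex_max y a).choose_spec φ).trans_lt h, fun h => h _⟩

lemma nv_mul_tmul (a : L ⊗[k] K) (f : K) : nv y (a * 1 ⊗ₜ[k] f) = nv y a * y.v f := by
  refine le_antisymm ((nv_le _ _ _).2 fun φ => ?_) ?_
  · rw [co_mul, map_mul]; exact mul_le_mul_left ((nv_le _ _ _).1 le_rfl φ) _
  · rw [nv, ← map_mul, ← co_mul]; exact (nv_le _ _ _).1 le_rfl _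

lemma nv_eq_zero {a : L ⊗[k] K} : nv y a = 0 ↔ a = 0 := by
  rw [← le_zero_iff, nv_le]
  exact ⟨fun h => eq_zero_of_co fun φ => by simpa only [nonpos_iff_eq_zero, map_eq_zero] using h φ, by rintro rfl; simp only [map_zero, Std.le_refl, implies_true]⟩

variable (L) in
/-- inclusion of the integral tensors -/
noncomputable def io : L ⊗[k] y.O →ₐ[L] L ⊗[k] K :=
  Algebra.TensorProduct.map (AlgHom.id L L) y.O.val

variable (L) in
/-- reduction of the integral tensors -/
noncomputable def red : L ⊗[k] y.O →ₐ[L] L :=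
  Algebra.TensorProduct.lift (AlgHom.id L L) ((Algebra.ofId k L).comp y.valHom)
    fun _ _ => Commute.all _ _

lemma co_io (G : L ⊗[k] y.O) (φ : L →ₗ[k] k) :
    0 ≤ y.ord (co φ (io L y G)) ∧ y.val (co φ (io L y G)) = φ (red L y G) := by
  induction G with
  | zero => simp
  | tmul c f =>
    have hf : 0 ≤ y.ord (f : K) := Place.mem_O'.1 f.2
    have h1 : co φ (io L y (c ⊗ₜ f)) = φ c • (f : K) := by simp [io]
    rw [h1]
    refine ⟨Place.mem_O'.1 (y.O.smul_mem f.2 _), ?_⟩
    have h2 : red L y (c ⊗ₜ f) = y.val (f : K) • c := by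
      simp [red, Place.valHom_apply, Algebra.smul_def, mul_comm, Algebra.ofId_apply]
    rw [Place.val_smul hf, h2, map_smul, smul_eq_mul, mul_comm]
  | add a b ha hb =>
    simp only [map_add]
    exact ⟨Place.ord_add_nonneg ha.1 hb.1, by rw [Place.val_add ha.1 hb.1, ha.2, hb.2]⟩

lemma nv_io_le (G : L ⊗[k] y.O) : nv y (io L y G) ≤ 1 :=
  (nv_le _ _ _).2 fun φ => Place.v_le_one.2 (co_io y G φ).1

lemma nv_io_lt (G : L ⊗[k] y.O) : nv y (io L y G) < 1 ↔ red L y G = 0 := by
  rw [nv_lt, ← Module.forall_dual_apply_eq_zero_iff k]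
  refine forall_congr' fun φ => ?_
  rw [← (co_io y G φ).2, Place.val_eq_zero (co_io y G φ).1, Place.v_lt_one]

lemma nv_io_eq (G : L ⊗[k] y.O) : nv y (io L y G) = 1 ↔ red L y G ≠ 0 := by
  rw [Ne, ← nv_io_lt, not_lt]
  exact ⟨fun h => h.ge, fun h => le_antisymm (nv_io_le y G) h⟩

lemma ex_io {a : L ⊗[k] K} (h : nv y a ≤ 1) : ∃ G, io L y G = a := by
  have := mem_span_of_co (a := a) y.O.toSubmodule fun φ => (nv_le _ _ _).1 h φ
  refine (Submodule.span_le (p := (io L y).range.toSubmodule)).2 ?_ this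
  rintro _ ⟨f, hf, rfl⟩
  exact ⟨1 ⊗ₜ ⟨f, hf⟩, by simp [io]⟩

lemma ex_norm {a : L ⊗[k] K} (h : a ≠ 0) :
    ∃ f : K, f ≠ 0 ∧ nv y a * y.v f = 1 ∧ ∃ G, red L y G ≠ 0 ∧ io L y G = a * 1 ⊗ₜ[k] f := by
  have h0 : nv y a ≠ 0 := fun h1 => h ((nv_eq_zero y).1 h1)
  obtain ⟨f, hf0, hf⟩ := y.exists_ord (log (nv y a))
  have h1 : nv y a * y.v f = 1 := by
    rw [Place.v_eq hf0, hf, exp_neg, exp_log h0, mul_inv_cancel₀ h0]
  obtain ⟨G, hG⟩ := ex_io y (a := a * 1 ⊗ₜ[k] f) (by rw [nv_mul_tmul, h1])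
  exact ⟨f, hf0, h1, G, (nv_io_eq y G).1 (by rw [hG, nv_mul_tmul, h1]), hG⟩

lemma nv_one : nv y (1 : L ⊗[k] K) = 1 := by
  rw [← map_one (io L y), nv_io_eq]; simp

lemma nv_mul (a b : L ⊗[k] K) : nv y (a * b) = nv y a * nv y b := by
  by_cases ha : a = 0
  · simp [ha, (nv_eq_zero y).2 rfl]
  by_cases hb : b = 0
  · simp [hb, (nv_eq_zero y).2 rfl]
  obtain ⟨f, hf, h1, G, hG, hG'⟩ := ex_norm y ha
  obtain ⟨g, hg, h2, H, hH, hH'⟩ := ex_norm y hb
  have h3 := (nv_io_eq y (G * H)).2 (by rw [map_mul]; exact mul_ne_zero hG hH)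
  rw [map_mul, hG', hH', ← mul_assoc, mul_right_comm a, nv_mul_tmul, nv_mul_tmul] at h3
  have h4 : y.v f * y.v g ≠ 0 := mul_ne_zero (by simpa only [ne_eq, map_eq_zero] using hf) (by simpa only [ne_eq, map_eq_zero] using hg)
  refine mul_right_cancel₀ h4 ?_
  rw [← mul_assoc, h3, mul_mul_mul_comm, h1, h2, mul_one]

variable (L) in
/-- the constant extension of a place to the tensor product -/
noncomputable def vT : Valuation (L ⊗[k] K) ℤᵐ⁰ where
  toFun := nv y
  map_zero' := (nv_eq_zero y).2 rfl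
  map_one' := nv_one y
  map_mul' := nv_mul y
  map_add_le_max' a b := (nv_le _ _ _).2 fun φ => by
    rw [map_add]
    exact y.v.map_add_le (((nv_le _ _ _).1 le_rfl φ).trans (le_max_left _ _))
      (((nv_le _ _ _).1 le_rfl φ).trans (le_max_right _ _))

end BCa

end co

open BCa

instance bcDomain (k K L : Type) [Field k] [Field K] [Algebra k K] [FF k K] [Field L]
    [Algebra k L] : IsDomain (L ⊗[k] K) := by
  obtain ⟨y⟩ : Nonempty (Place k K) := inferInstance
  have : Nontrivial (L ⊗[k] K) := ⟨1, 0, fun h => by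
    have := nv_one (L := L) y
    rw [h, (nv_eq_zero y).2 rfl] at this
    exact zero_ne_one this⟩
  have : NoZeroDivisors (L ⊗[k] K) := ⟨fun {a b} h => by
    rwa [← nv_eq_zero y, nv_mul, mul_eq_zero, nv_eq_zero, nv_eq_zero] at h⟩
  exact NoZeroDivisors.to_isDomain _

/-- The function field of the curve over `L`. -/
def BC (k K L : Type) [Field k] [Field K] [Algebra k K] [Field L] [Algebra k L] : Type :=
  FractionRing (L ⊗[k] K)

section BC

variable [FF k K] (L : Type) [Field L] [Algebra k L]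

noncomputable instance bcField : Field (BC k K L) :=
  inferInstanceAs (Field (FractionRing (L ⊗[k] K)))
noncomputable instance bcAlgT : Algebra (L ⊗[k] K) (BC k K L) :=
  inferInstanceAs (Algebra (L ⊗[k] K) (FractionRing (L ⊗[k] K)))
noncomputable instance bcAlg : Algebra L (BC k K L) :=
  inferInstanceAs (Algebra L (FractionRing (L ⊗[k] K)))
instance bcFrac : IsFractionRing (L ⊗[k] K) (BC k K L) :=
  inferInstanceAs (IsFractionRing (L ⊗[k] K) (FractionRing (L ⊗[k] K)))
instance bcTower : IsScalarTower L (L ⊗[k] K) (BC k K L) :=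
  inferInstanceAs (IsScalarTower L (L ⊗[k] K) (FractionRing (L ⊗[k] K)))

/-- Constant functions. -/
noncomputable def iK : K →+* BC k K L :=
  (algebraMap (L ⊗[k] K) (BC k K L)).comp Algebra.TensorProduct.includeRight.toRingHom

lemma iK_eq (f : K) : iK L f = algebraMap (L ⊗[k] K) (BC k K L) (1 ⊗ₜ f) := rfl

lemma alg_eq (c : L) :
    algebraMap L (BC k K L) c = algebraMap (L ⊗[k] K) (BC k K L) (c ⊗ₜ 1) :=
  IsScalarTower.algebraMap_apply L (L ⊗[k] K) (BC k K L) c

lemma alg_tmul (c : L) (f : K) :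
    algebraMap (L ⊗[k] K) (BC k K L) (c ⊗ₜ f) = algebraMap L (BC k K L) c * iK L f := by
  rw [iK_eq, alg_eq, ← map_mul]; simp

lemma iK_alg (c : k) :
    iK L (algebraMap k K c) = algebraMap L (BC k K L) (algebraMap k L c) := by
  rw [iK_eq, alg_eq]; congr 1
  simp [Algebra.algebraMap_eq_smul_one, TensorProduct.smul_tmul]

lemma iK_aeval (t : K) (p : Polynomial k) :
    iK L (Polynomial.aeval t p) =
      Polynomial.aeval (iK (k := k) L t) (p.map (algebraMap k L)) := by
  induction p using Polynomial.induction_on' with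
  | add p q hp hq => simp only [map_add, Polynomial.map_add, hp, hq]
  | monomial n c => simp only [Polynomial.aeval_monomial, map_mul, iK_alg, map_pow, Polynomial.map_monomial]

lemma iK_mem {t f : K} (hf : f ∈ k⟮t⟯) : iK (k := k) L f ∈ L⟮iK (k := k) L t⟯ := by
  obtain ⟨p, q, rfl⟩ := (IntermediateField.mem_adjoin_simple_iff k f).1 hf
  rw [map_div₀, iK_aeval, iK_aeval]
  exact (IntermediateField.mem_adjoin_simple_iff L _).2 ⟨_, _, rfl⟩

lemma aeval_tensor (t : K) (p : Polynomial L) : ∃ a : L ⊗[k] K,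
    algebraMap _ (BC k K L) a = Polynomial.aeval (iK (k := k) L t) p ∧
      ∀ φ : L →ₗ[k] k, co φ a = ∑ n ∈ p.support, φ (p.coeff n) • t ^ n := by
  refine ⟨∑ n ∈ p.support, p.coeff n ⊗ₜ (t ^ n), ?_, fun φ => by simp⟩
  rw [map_sum, Polynomial.aeval_def, Polynomial.eval₂_eq_sum, Polynomial.sum_def]
  exact Finset.sum_congr rfl fun n _ => by rw [alg_tmul, map_pow]

lemma iK_trans {t : K} (ht : Transcendental k t) : Transcendental L (iK (k := k) L t) := by
  refine (transcendental_iff (R := L)).2 fun p hp => ?_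
  obtain ⟨a, h1, h2⟩ := aeval_tensor (k := k) L t p
  rw [hp, IsFractionRing.to_map_eq_zero_iff] at h1
  ext n
  by_cases hn : n ∈ p.support
  · refine (Module.forall_dual_apply_eq_zero_iff k _).1 fun φ => ?_
    have h3 := h2 φ
    rw [h1, map_zero] at h3
    have h4 := transcendental_iff.1 ht (∑ n ∈ p.support, Polynomial.monomial n (φ (p.coeff n)))
      (by rw [h3, map_sum]; simp [Polynomial.aeval_monomial, Algebra.smul_def])
    have h5 := congrArg (Polynomial.coeff · n) h4
    simpa only [Polynomial.finsetSum_coeff, Polynomial.coeff_monomial, Finset.sum_ite_eq', hn, ↓ reduceIte, Polynomial.coeff_zero] using h5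
  · simpa using hn

lemma BCa.div_mem_span {E M ι : Type} [Field E] [Field M] [Algebra E M] [Finite ι] (v : ι → M)
    {d a : M} (hd : d ≠ 0) (h : ∀ i, d * v i ∈ Submodule.span E (Set.range v))
    (ha : a ∈ Submodule.span E (Set.range v)) : a / d ∈ Submodule.span E (Set.range v) := by
  have h2 : ∀ w ∈ Submodule.span E (Set.range v),
      LinearMap.mulLeft E d w ∈ Submodule.span E (Set.range v) := fun w hw => by
    induction hw using Submodule.span_induction with
    | mem x hx => obtain ⟨i, rfl⟩ := hx; exact h i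
    | zero => simp
    | add x y _ _ hx hy => rw [map_add]; exact add_mem hx hy
    | smul c x _ hx => rw [map_smul]; exact Submodule.smul_mem _ _ hx
  have : FiniteDimensional E (Submodule.span E (Set.range v)) :=
    FiniteDimensional.span_of_finite _ (Set.finite_range _)
  obtain ⟨w, hw⟩ := LinearMap.surjective_of_injective (f := LinearMap.restrict _ h2)
    (fun x y h => Subtype.ext (mul_left_cancel₀ hd (congrArg Subtype.val h))) ⟨_, ha⟩
  have h3 : d * w = a := congrArg Subtype.val hw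
  rw [← h3, mul_div_cancel_left₀ _ hd]
  exact w.2

/-- A basis of `K` over `k(t)` is a basis of `BC` over `L(t)`. -/
lemma bc_basis {t : K} {ι : Type} [Finite ι] (b : Module.Basis ι k⟮t⟯ K) :
    ∃ B : Module.Basis ι L⟮iK (k := k) L t⟯ (BC k K L), ∀ i, B i = iK L (b i) := by
  classical
  cases nonempty_fintype ι
  have hli : LinearIndependent L⟮iK (k := k) L t⟯ fun i => iK (k := k) L (b i) := by
    refine Fintype.linearIndependent_iff.2 fun g hg i => ?_
    have h1 : ∀ i, ∃ p q : Polynomial L, Polynomial.aeval (iK (k := k) L t) q ≠ 0 ∧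
        (g i : BC k K L) * Polynomial.aeval (iK (k := k) L t) q =
          Polynomial.aeval (iK (k := k) L t) p := fun i => by
      obtain ⟨p, q, h⟩ := (IntermediateField.mem_adjoin_simple_iff L _).1 (g i).2
      by_cases hq : Polynomial.aeval (iK (k := k) L t) q = 0
      · exact ⟨0, 1, by simp, by simp [h, hq]⟩
      · exact ⟨p, q, hq, by rw [h, div_mul_cancel₀ _ hq]⟩
    choose p q hq hpq using h1
    choose a ha ha' using fun i => aeval_tensor (k := k) L t (p i * ∏ j ∈ Finset.univ.erase i, q j)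
    have h2 : ∀ i, algebraMap _ (BC k K L) (a i) =
        (∏ j, Polynomial.aeval (iK (k := k) L t) (q j)) * g i := fun i => by
      rw [ha, map_mul, map_prod, ← hpq, ← Finset.mul_prod_erase _ _ (Finset.mem_univ i)]; ring
    have h3 : ∑ i, a i * 1 ⊗ₜ[k] b i = 0 := by
      rw [← IsFractionRing.to_map_eq_zero_iff (K := BC k K L), map_sum]
      simp only [map_mul, h2, ← iK_eq, mul_assoc, ← Finset.mul_sum]
      exact mul_eq_zero_of_right _ hg
    have h4 : a i = 0 := eq_zero_of_co fun φ => by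
      have h5 : ∀ i, co φ (a i) ∈ k⟮t⟯ := fun i => by
        rw [ha']
        exact sum_mem fun n _ => IntermediateField.smul_mem _
          (pow_mem (IntermediateField.mem_adjoin_simple_self k t) n)
      have h6 := congrArg (co φ) h3
      rw [map_sum, map_zero] at h6
      simp only [co_mul] at h6
      exact congrArg Subtype.val (Fintype.linearIndependent_iff.1 b.linearIndependent
        (fun i => ⟨_, h5 i⟩) h6 i)
    have h7 := h2 i
    rw [h4, map_zero, eq_comm, mul_eq_zero] at h7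
    exact Subtype.ext (h7.resolve_left (Finset.prod_ne_zero_iff.2 fun j _ => hq j))
  set W := Submodule.span L⟮iK (k := k) L t⟯ (Set.range fun i => iK (k := k) L (b i)) with hW
  have h1 : ∀ a : L ⊗[k] K, algebraMap _ (BC k K L) a ∈ W := fun a => by
    induction a with
    | zero => simp
    | add a b ha hb => rw [map_add]; exact add_mem ha hb
    | tmul c f =>
      rw [alg_tmul, ← b.sum_repr f, map_sum]
      refine W.smul_mem (algebraMap L _ c) (sum_mem fun i _ => ?_)
      rw [IntermediateField.smul_def, smul_eq_mul, map_mul]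
      exact W.smul_mem ⟨_, iK_mem L (b.repr f i).2⟩ (Submodule.subset_span ⟨i, rfl⟩)
  refine ⟨Module.Basis.mk hli fun F _ => ?_, fun i => Module.Basis.mk_apply _ _ i⟩
  obtain ⟨a, d, hd, rfl⟩ := IsFractionRing.div_surjective (A := L ⊗[k] K) F
  refine div_mem_span _ (IsFractionRing.to_map_ne_zero_of_mem_nonZeroDivisors hd)
    (fun i => ?_) (h1 a)
  have := h1 (d * 1 ⊗ₜ b i)
  rwa [map_mul] at this

lemma bc_fin {t : K} [FiniteDimensional k⟮t⟯ K] :
    FiniteDimensional L⟮iK (k := k) L t⟯ (BC k K L) := by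
  obtain ⟨B, -⟩ := bc_basis L (Module.finBasis k⟮t⟯ K)
  exact Module.Finite.of_basis B

lemma bc_finrank {t : K} [FiniteDimensional k⟮t⟯ K] :
    Module.finrank L⟮iK (k := k) L t⟯ (BC k K L) = Module.finrank k⟮t⟯ K := by
  obtain ⟨B, -⟩ := bc_basis L (Module.finBasis k⟮t⟯ K)
  rw [Module.finrank_eq_card_basis B, Fintype.card_fin]

instance bcFF [IsAlgClosed L] : FF L (BC k K L) where
  closed := inferInstance
  ex := by
    obtain ⟨t, ht, hf⟩ := FF.ex (k := k) (K := K)
    exact ⟨iK L t, iK_trans L ht, bc_fin L⟩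

/-- the constant extension of a place as a valuation -/
noncomputable def BCa.vB (y : Place k K) : Valuation (BC k K L) ℤᵐ⁰ :=
  (vT L y).extendToLocalization (S := nonZeroDivisors (L ⊗[k] K))
    (fun _ ha h => nonZeroDivisors.ne_zero ha ((nv_eq_zero y).1 h)) (BC k K L)

lemma BCa.vB_alg (y : Place k K) (a : L ⊗[k] K) : vB L y (algebraMap _ _ a) = nv y a :=
  Valuation.extendToLocalization_apply_map_apply _ _ _ _

lemma BCa.vB_iK (y : Place k K) (f : K) : vB L y (iK L f) = y.v f := by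
  rw [iK_eq, vB_alg, ← one_mul (1 ⊗ₜ f), nv_mul_tmul, nv_one, one_mul]

lemma BCa.rep (y : Place k K) (F : BC k K L) (h : vB L y F ≤ 1) : ∃ G H, red L y H ≠ 0 ∧
    F = algebraMap _ _ (io L y G) / algebraMap _ _ (io L y H) := by
  obtain ⟨a, b, hb, rfl⟩ := IsFractionRing.div_surjective (A := L ⊗[k] K) F
  have hb0 := nonZeroDivisors.ne_zero hb
  obtain ⟨g, hg, h2, H, hH, hH'⟩ := ex_norm y hb0
  have h0 : nv y b ≠ 0 := fun h1 => hb0 ((nv_eq_zero y).1 h1)
  rw [map_div₀, vB_alg, vB_alg, div_le_one₀ (zero_lt_iff.2 h0)] at h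
  obtain ⟨G, hG⟩ := ex_io y (a := a * 1 ⊗ₜ[k] g)
    (by rw [nv_mul_tmul, ← h2]; exact mul_le_mul_left h _)
  refine ⟨G, H, hH, ?_⟩
  rw [hG, hH', map_mul, map_mul, ← iK_eq, mul_div_mul_right _ _ ((map_ne_zero _).2 hg)]

/-- Constant places. -/
noncomputable def cst (y : Place k K) : Place L (BC k K L) where
  v := vB L y
  unif := y.unif.elim fun t ht => ⟨iK L t, by rw [vB_iK, ht]⟩
  const c := by
    have := nv_io_le y (c ⊗ₜ (1 : y.O))
    rw [alg_eq, vB_alg]; simpa only [ge_iff_le, io, Algebra.TensorProduct.map_tmul, AlgHom.coe_id, id_eq, Subalgebra.coe_val, OneMemClass.coe_one] using this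
  res F h := by
    obtain ⟨G, H, hH, rfl⟩ := rep L y F h
    have h1 := (nv_io_eq y H).2 hH
    have h2 : algebraMap _ (BC k K L) (io L y H) ≠ 0 := fun h0 => by
      rw [← vB_alg, h0, map_zero] at h1; exact zero_ne_one h1
    refine ⟨red L y G / red L y H, ?_⟩
    have h3 := (nv_io_lt y (G - algebraMap L _ (red L y G / red L y H) * H)).2 (by
      rw [map_sub, map_mul, AlgHom.commutes]; simp [div_mul_cancel₀ _ hH])
    rw [div_sub' h2, map_div₀, vB_alg, h1, div_one]
    rw [← vB_alg, map_sub, map_mul, AlgHom.commutes, map_sub, map_mul,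
      ← IsScalarTower.algebraMap_apply, mul_comm] at h3
    exact h3

/-- Constant divisors. -/
noncomputable def bc : Div k K →+ Div L (BC k K L) := Finsupp.mapDomain.addMonoidHom (cst L)

/-- The valuation of a tensor at a constant place is the maximum over its coordinates. -/
lemma cst_v_le (y : Place k K) (a : L ⊗[k] K) (γ : ℤᵐ⁰) :
    (cst L y).v (algebraMap _ (BC k K L) a) ≤ γ ↔ ∀ φ : L →ₗ[k] k, y.v (co φ a) ≤ γ := by
  rw [← nv_le, ← vB_alg]; rfl

lemma v_cst (y : Place k K) (f : K) : (cst L y).v (iK L f) = y.v f := vB_iK L y f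

/-- The same for a sum with `k`-independent coefficients. -/
lemma cst_v_sum (y : Place k K) {ι : Type} (s : Finset ι) (c : ι → L)
    (hc : LinearIndependent k c) (a : ι → K) (γ : ℤᵐ⁰) :
    (cst L y).v (∑ i ∈ s, algebraMap L (BC k K L) (c i) * iK L (a i)) ≤ γ ↔
      ∀ i ∈ s, y.v (a i) ≤ γ := by
  constructor
  · intro h i hi
    simp only [← alg_tmul, ← map_sum] at h
    obtain ⟨φ, hφ⟩ := co_sum s c hc a i hi
    exact hφ ▸ (cst_v_le L y _ γ).1 h φ
  · intro h
    refine Valuation.map_sum_le _ fun i hi => ?_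
    rw [map_mul, v_cst]
    exact (mul_le_of_le_one_left' ((cst L y).const _)).trans (h i hi)

lemma ord_cst (y : Place k K) (f : K) : (cst L y).ord (iK L f) = y.ord f := by
  rw [Place.ord, v_cst, Place.ord]

lemma val_cst (y : Place k K) (f : K) (h : 0 ≤ y.ord f) :
    (cst L y).val (iK L f) = algebraMap k L (y.val f) := by
  refine (Place.val_eq ?_).2
  rw [← iK_alg, ← map_sub, v_cst]
  exact Place.val_spec h

lemma cst_inj : Function.Injective (cst L : Place k K → _) := fun x y h =>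
  Place.ext_ord fun f => by rw [← ord_cst L x, h, ord_cst]

/-- A place over `L` whose ring contains `O_y` and which is not trivial on `K` is `cst y`. -/
lemma cst_unique (P : Place L (BC k K L)) (y : Place k K)
    (h : ∀ f : K, 0 ≤ y.ord f → 0 ≤ P.ord (iK L f)) (h2 : ∃ f : K, P.ord (iK L f) ≠ 0) :
    P = cst L y := by
  have h1 : ∀ G, P.v (algebraMap _ _ (io L y G)) ≤ 1 := fun G => by
    induction G with
    | zero => simp only [map_zero, zero_le]
    | tmul c f =>
      have : io L y (c ⊗ₜ f) = c ⊗ₜ (f : K) := by simp [io]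
      rw [this, alg_tmul, map_mul]
      exact mul_le_one' (P.const c) (Place.v_le_one.2 (h _ (Place.mem_O'.1 f.2)))
    | add a b ha hb => rw [map_add, map_add]; exact P.v.map_add_le ha hb
  obtain ⟨e, he, H⟩ := y.exists_e (P.v.comap (iK L))
    (fun f hf => Place.v_le_one.2 (h f (Place.v_le_one.1 hf))) (by
      obtain ⟨f, hf⟩ := h2
      rcases hf.lt_or_gt with hf | hf
      · exact ⟨f, Place.one_lt_v.2 hf⟩
      · refine ⟨f⁻¹, Place.one_lt_v.2 ?_⟩
        rw [map_inv₀]; simpa using hf)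
  obtain ⟨t, ht0, ht⟩ := y.exists_ord 1
  have h3 : P.v (iK L t) < 1 := Place.v_lt_one.2 (Or.inr (by
    have := H t
    rw [ht, mul_one] at this
    exact (Int.natCast_pos.2 he).trans_eq this.symm))
  have h4 : ∀ G, red L y G = 0 → P.v (algebraMap _ _ (io L y G)) < 1 := fun G hG => by
    have h5 := (nv_io_lt y G).2 hG
    obtain ⟨G', hG'⟩ := ex_io y (a := io L y G * 1 ⊗ₜ[k] t⁻¹) ((nv_le _ _ _).2 fun φ => by
      rw [co_mul]
      rcases Place.v_lt_one.1 ((nv_lt _ _ _).1 h5 φ) with h6 | h6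
      · simp only [h6, zero_mul, map_zero, zero_le]
      · rw [Place.v_le_one, Place.ord_mul (Place.ne_zero_of_ord h6.ne') (inv_ne_zero ht0)]
        simp only [Place.ord_inv]; omega)
    have h7 : io L y G = io L y G' * 1 ⊗ₜ[k] t := by
      rw [hG', mul_assoc]; simp [inv_mul_cancel₀ ht0, ← Algebra.TensorProduct.one_def]
    rw [h7, map_mul, map_mul, ← iK_eq]
    exact (mul_le_of_le_one_left' (h1 G')).trans_lt h3
  refine (Place.ext_le fun F hF => ?_).symm
  obtain ⟨G, G', hG', rfl⟩ := rep L y F (Place.v_le_one.2 hF)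
  have h8 := h4 (G' - algebraMap L _ (red L y G')) (by rw [map_sub, AlgHom.commutes]; simp)
  rw [map_sub, AlgHom.commutes, map_sub, ← IsScalarTower.algebraMap_apply] at h8
  have h9 : P.v (algebraMap _ _ (io L y G')) = 1 := by
    rw [← P.v_const hG']
    exact P.v.map_eq_of_sub_lt (by rwa [P.v_const hG'])
  rw [← Place.v_le_one, map_div₀, h9, div_one]
  exact h1 G

lemma bc_apply (E : Div k K) (y : Place k K) : bc L E (cst L y) = E y :=
  Finsupp.mapDomain_apply (cst_inj L) E y

lemma bc_apply_ne (E : Div k K) (P : Place L (BC k K L)) (h : ∀ y, P ≠ cst L y) :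
    bc L E P = 0 :=
  Finsupp.mapDomain_of_notMem_range E P fun ⟨y, hy⟩ => h y hy.symm

lemma deg_bc (E : Div k K) : deg (bc L E) = deg E := by
  induction E using Finsupp.induction_linear with
  | zero => simp only [map_zero]
  | add a b ha hb => simp only [map_add, ha, hb]
  | single y m => simp [bc]

variable {L}

/-- the action on the tensor product -/
noncomputable def BCa.gT (K : Type) [Field K] [Algebra k K] :
    (L ≃ₐ[k] L) →* (L ⊗[k] K ≃+* L ⊗[k] K) where
  toFun s := (Algebra.TensorProduct.congr s (AlgEquiv.refl (R := k) (A₁ := K))).toRingEquiv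
  map_one' := by
    ext a
    induction a with
    | zero => simp
    | tmul c f => simp only [RingEquiv.coe_mk, AlgEquiv.toEquiv_eq_coe, EquivLike.coe_coe, Algebra.TensorProduct.congr_apply, AlgEquiv.refl_toAlgHom, Algebra.TensorProduct.map_tmul, AlgEquiv.coe_toAlgHom, AlgEquiv.one_apply, AlgHom.coe_id, id_eq, RingAut.one_apply]
    | add a b ha hb => simp only [map_add, ha, hb]
  map_mul' s t := by
    ext a
    induction a with
    | zero => simp only [RingEquiv.coe_mk, AlgEquiv.toEquiv_eq_coe, EquivLike.coe_coe, Algebra.TensorProduct.congr_apply, AlgEquiv.refl_toAlgHom, map_zero, RingAut.mul_apply]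
    | tmul c f => simp
    | add a b ha hb => simp only [map_add, ha, hb]

/-- the action on the function field -/
noncomputable def BCa.gB (K : Type) [Field K] [Algebra k K] [FF k K] :
    (L ≃ₐ[k] L) →* (BC k K L ≃+* BC k K L) :=
  (IsFractionRing.ringEquivOfRingEquivHom (L ⊗[k] K) (BC k K L)).comp (gT K)

lemma BCa.gB_tmul (s : L ≃ₐ[k] L) (c : L) (f : K) :
    gB K s (algebraMap (L ⊗[k] K) (BC k K L) (c ⊗ₜ f)) = algebraMap _ _ (s c ⊗ₜ[k] f) := by
  simp only [gB, gT, MonoidHom.coe_comp, MonoidHom.coe_mk, OneHom.coe_mk, Function.comp_apply, IsFractionRing.ringEquivOfRingEquivHom_apply, IsFractionRing.ringEquivOfRingEquiv_apply, AlgEquiv.toRingEquiv_toRingHom, IsLocalization.map_eq, RingHom.coe_coe, Algebra.TensorProduct.congr_apply, AlgEquiv.refl_toAlgHom, Algebra.TensorProduct.map_tmul, AlgEquiv.coe_toAlgHom, AlgHom.coe_id, id_eq]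

/-- Automorphisms of `L` over `k` act on the curve over `L`. -/
noncomputable def gal (K : Type) [Field K] [Algebra k K] [FF k K] :
    (L ≃ₐ[k] L) →* SA L (BC k K L) :=
  (gB K).codRestrict _ fun s F => by
    constructor
    · rintro ⟨c, hc⟩
      refine ⟨s.symm c, (gB K s).injective ?_⟩
      rw [← hc, alg_eq, gB_tmul, alg_eq, s.apply_symm_apply]
    · rintro ⟨c, rfl⟩
      exact ⟨s c, by rw [alg_eq, alg_eq, gB_tmul]⟩

lemma gal_alg (s : L ≃ₐ[k] L) (c : L) :
    (gal K s).1 (algebraMap L (BC k K L) c) = algebraMap L (BC k K L) (s c) := by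
  rw [alg_eq, alg_eq]; exact gB_tmul s c 1

lemma gal_iK (s : L ≃ₐ[k] L) (f : K) : (gal K s).1 (iK L f) = iK L f := by
  have := gB_tmul s 1 f
  rwa [map_one s] at this

lemma gal_cst (s : L ≃ₐ[k] L) (y : Place k K) : gal K s • cst L y = cst L y := by
  have h : ∀ f : K, (gal K s • cst L y).ord (iK L f) = y.ord f := fun f => by
    have h1 : (gal K s • cst L y).v (iK L f) = (cst L y).v ((gal K s)⁻¹.1 (iK L f)) := rfl
    rw [Place.ord, h1, ← map_inv, gal_iK, v_cst, Place.ord]
  obtain ⟨t, -, ht⟩ := y.exists_ord 1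
  exact cst_unique L _ y (fun f hf => by rwa [h]) ⟨t, by rw [h, ht]; exact one_ne_zero⟩

end BC

end Pool.Agent.MP_855f4c_ag.WD

end

section

attribute [-instance] instCharZeroOfIsSemireal Module.FaithfullyFlat.of_isIntegral_of_isDomain
  FloorSemiring.instCharZero RCLike.charZero_rclike
  NonUnitalAlgHomClass.instSemilinearMapClassOfNonUnitalAlgSemiHomClassToMonoidHomRingHom
  ContinuousSemilinearMapClass.toSemilinearMapClass NumberField.to_charZero NormedSpace.toModule
  RightPreLieAlgebra.toModule LeftPreLieAlgebra.toModule LieAlgebra.toModule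
  CoalgHomClass.toSemilinearMapClass IdemSemiring.toSemiring NonUnitalNormedRing.toNormedAddCommGroup
  instNonUnitalAlgHomClassOfNonUnitalAlgEquivClass IsStrictOrderedRing.toCharZero
  MulRingSeminormClass.toMonoidWithZeroHomClass LieRinehartAlgebra.toIsScalarTower
  GrpTypeEquivalenceGrp.grpGroup

/-! The maximal ideal of `L ⊗ K` at an embedding `K → L` is locally principal. -/

namespace Pool.Agent.MP_855f4c_ag.WD

open IntermediateField Polynomial
open scoped TensorProduct

variable {k K L : Type} [Field k] [Field K] [Algebra k K] [Field L] [Algebra k L]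

lemma sep_elt (k K : Type) [Field k] [Field K] [Algebra k K] [FF k K] :
    ∃ t : K, Transcendental k t ∧ Algebra.IsSeparable k⟮t⟯ K := by
  obtain ⟨x⟩ : Nonempty (Place k K) := inferInstance
  obtain ⟨t, -, ht⟩ := x.exists_ord 1
  exact ⟨t, FF.transc (x.not_const (by omega)), sep_of_ord ht⟩

/-- The `L`-point of `L ⊗ K` given by an embedding. -/
noncomputable def evT (ψ : K →ₐ[k] L) : L ⊗[k] K →ₐ[L] L :=
  Algebra.TensorProduct.lift (AlgHom.id L L) ψ fun _ _ => Commute.all _ _

@[simp] lemma evT_tmul (ψ : K →ₐ[k] L) (l : L) (f : K) : evT ψ (l ⊗ₜ f) = l * ψ f := by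
  simp [evT]

/-- Elements that are local multiples of `τ`. -/
def locI (ψ : K →ₐ[k] L) (τ : L ⊗[k] K) : Ideal (L ⊗[k] K) where
  carrier := {x | ∃ s r, evT ψ s ≠ 0 ∧ s * x = τ * r}
  zero_mem' := ⟨1, 0, by simp, by simp⟩
  add_mem' := by
    rintro x y ⟨s, r, h, e⟩ ⟨s', r', h', e'⟩
    exact ⟨s * s', s' * r + s * r', by simp [h, h'], by linear_combination s' * e + s * e'⟩
  smul_mem' := by
    rintro c x ⟨s, r, h, e⟩
    exact ⟨s, c * r, h, by rw [smul_eq_mul]; linear_combination c * e⟩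

lemma locI_sat {ψ : K →ₐ[k] L} {τ s x : L ⊗[k] K} (hs : evT ψ s ≠ 0) (h : s * x ∈ locI ψ τ) :
    x ∈ locI ψ τ := by
  obtain ⟨s', r, h', e⟩ := h
  exact ⟨s' * s, r, by simp [hs, h'], by linear_combination e⟩

lemma loc_prin [FF k K] (ψ : K →ₐ[k] L) : ∃ τ : L ⊗[k] K, τ ≠ 0 ∧ evT ψ τ = 0 ∧
    ∀ x, evT ψ x = 0 → ∃ s r, evT ψ s ≠ 0 ∧ s * x = τ * r := by
  obtain ⟨t, ht, hsep⟩ := sep_elt k K
  let δ : K → L ⊗[k] K := fun f => 1 ⊗ₜ f - ψ f ⊗ₜ 1
  have hδ : ∀ f, evT ψ (δ f) = 0 := fun f => by simp [δ]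
  refine ⟨δ t, ?_, hδ t, ?_⟩
  · have hli : LinearIndependent k ![t, 1] := by
      rw [LinearIndependent.pair_iff]
      intro a b hab
      by_cases ha : a = 0
      · simpa [ha] using hab
      · exfalso
        apply ht
        have : t = algebraMap k K (-b / a) := by
          rw [Algebra.smul_def, Algebra.smul_def, mul_one] at hab
          have : algebraMap k K a ≠ 0 := by simpa using ha
          rw [map_div₀, map_neg]
          field_simp
          linear_combination hab
        rw [this]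
        exact isAlgebraic_algebraMap _
    obtain ⟨l, hl⟩ := (Finsupp.linearCombination k ![t, 1]).exists_leftInverse_of_injective
      (LinearMap.ker_eq_bot.2 hli)
    have e0 : l t = Finsupp.single 0 1 := by simpa using LinearMap.congr_fun hl (.single 0 1)
    have e1 : l 1 = Finsupp.single 1 1 := by simpa using LinearMap.congr_fun hl (.single 1 1)
    intro h0
    have := congrArg ((TensorProduct.rid k L).toLinearMap ∘ₗ
      LinearMap.lTensor L (Finsupp.lapply (0 : Fin 2) ∘ₗ l)) h0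
    simp [δ, e0, e1] at this
  set M := locI ψ (δ t)
  have hA : ∀ g ∈ k⟮t⟯, δ g ∈ M := by
    intro g hg
    induction hg using IntermediateField.adjoin_induction with
    | mem x hx =>
      obtain rfl := Set.mem_singleton_iff.1 hx
      exact ⟨1, 1, by simp, by ring⟩
    | algebraMap c =>
      have : δ (algebraMap k K c) = 0 := by
        simp only [δ, Algebra.algebraMap_eq_smul_one, TensorProduct.tmul_smul,
          TensorProduct.smul_tmul', map_smul, map_one, sub_self]
      rw [this]; exact M.zero_mem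
    | add x y _ _ hx hy =>
      have : δ (x + y) = δ x + δ y := by
        simp only [δ, map_add, TensorProduct.tmul_add, TensorProduct.add_tmul]; ring
      rw [this]; exact M.add_mem hx hy
    | inv x _ hx =>
      by_cases h0 : x = 0
      · simpa [h0] using hx
      have : δ x⁻¹ = -((ψ x)⁻¹ ⊗ₜ x⁻¹) * δ x := by
        have : ψ x ≠ 0 := by simpa using h0
        simp only [δ, map_inv₀, mul_sub, neg_mul, Algebra.TensorProduct.tmul_mul_tmul, mul_one,
          inv_mul_cancel₀ h0, inv_mul_cancel₀ this]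
        ring
      rw [this]; exact M.mul_mem_left _ hx
    | mul x y _ _ hx hy =>
      have : δ (x * y) = (1 ⊗ₜ x) * δ y + (ψ y ⊗ₜ 1) * δ x := by
        simp only [δ, map_mul, mul_sub, Algebra.TensorProduct.tmul_mul_tmul, mul_one, one_mul,
          mul_comm (ψ y)]
        ring
      rw [this]; exact M.add_mem (M.mul_mem_left _ hy) (M.mul_mem_left _ hx)
  have hB : ∀ f, δ f ∈ M := by
    intro f
    let μ := minpoly k⟮t⟯ f
    let iR : K →+* L ⊗[k] K := Algebra.TensorProduct.includeRight.toRingHom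
    let iL : K →+* L ⊗[k] K := Algebra.TensorProduct.includeLeftRingHom.comp ψ.toRingHom
    let j : k⟮t⟯ →+* K := algebraMap _ _
    have hj : (Ideal.Quotient.mk M).comp (iL.comp j) = (Ideal.Quotient.mk M).comp (iR.comp j) := by
      ext g
      exact (Ideal.Quotient.eq.2 (hA g g.2)).symm
    have e0 : ∀ (i : K →+* L ⊗[k] K) (ν : k⟮t⟯[X]), (ν.map (i.comp j)).eval (i f) = i (aeval f ν) :=
      fun i ν => by rw [eval_map, aeval_def, hom_eval₂]
    have e1 : (μ.map (iL.comp j)).eval (iR f) ∈ M := by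
      rw [← Ideal.Quotient.eq_zero_iff_mem, eval_map, hom_eval₂, hj, ← hom_eval₂, ← eval_map, e0,
        minpoly.aeval, map_zero, map_zero]
    obtain ⟨c, hc⟩ := (μ.map (iL.comp j)).binomExpansion (iL f) (δ f)
    have e2 : iL f + δ f = iR f := by simp [δ, iL, iR]
    rw [e2, e0, minpoly.aeval, map_zero, zero_add, derivative_map, e0] at hc
    have e3 : aeval f (derivative μ) ≠ 0 :=
      (Algebra.IsSeparable.isSeparable k⟮t⟯ f).aeval_derivative_ne_zero (minpoly.aeval _ _)
    refine locI_sat (s := iL (aeval f (derivative μ)) + c * δ f) ?_ ?_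
    · simpa [hδ, iL] using e3
    · convert e1 using 1
      rw [hc]; ring
  have hC : ∀ x, x - evT ψ x ⊗ₜ 1 ∈ M := by
    intro x
    induction x using TensorProduct.induction_on with
    | zero => simp
    | tmul l f =>
      have : l ⊗ₜ f - evT ψ (l ⊗ₜ f) ⊗ₜ 1 = (l ⊗ₜ 1) * δ f := by simp [δ, mul_sub]
      rw [this]; exact M.mul_mem_left _ (hB f)
    | add x y hx hy =>
      convert M.add_mem hx hy using 1
      rw [map_add, TensorProduct.add_tmul]; ring
  intro x hx
  have := hC x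
  rw [hx, TensorProduct.zero_tmul, sub_zero] at this
  exact this

end Pool.Agent.MP_855f4c_ag.WD

end

section

attribute [-instance] Module.FaithfullyFlat.of_isIntegral_of_isDomain
  SemilinearMapClass.distribMulActionSemiHomClass instCharZeroOfIsSemireal SMulZeroClass.toSMul
  IdemSemiring.toSemiring instNonUnitalAlgHomClassOfNonUnitalAlgEquivClass
  ContinuousSemilinearMapClass.toSemilinearMapClass RKHS.instFunLike LieAdmissibleAlgebra.toModule
  FloorSemiring.instCharZero CoalgHomClass.toSemilinearMapClass BialgHomClass.toAlgHomClass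
  NormedSpace.toModule RCLike.charZero_rclike LieAlgebra.toModule RightPreLieAlgebra.toModule
  LeftPreLieAlgebra.toModule NonUnitalAlgHomClass.toNonUnitalRingHomClass
  CompletePartialOrder.toPartialOrder MonTypeEquivalenceMon.monMonoid NumberField.to_charZero
  NormMulClass.toNoZeroDivisors Algebra.toSMul instCoeOTCOfCoeTC BialgHomClass.toMonoidHomClass
  RingHomClass.toLinearMapClassNNRat

/-! Base change of a function field, part B: the non-constant places. -/

namespace Pool.Agent.MP_855f4c_ag.WD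

open IntermediateField WithZero
open scoped TensorProduct

variable {k K : Type} [Field k] [Field K] [Algebra k K] [FF k K]
  {L : Type} [Field L] [Algebra k L]

/-- The tensor product inside its field of fractions. -/
noncomputable abbrev al : L ⊗[k] K →+* BC k K L := algebraMap (L ⊗[k] K) (BC k K L)

set_option linter.unusedSectionVars false in
lemma al_ne {a : L ⊗[k] K} (h : a ≠ 0) : al a ≠ 0 :=
  (map_ne_zero_iff _ (IsFractionRing.injective _ _)).2 h

/-- `P` is regular on the tensor product and evaluates it through `ψ`. -/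
def Over (P : Place L (BC k K L)) (ψ : K →ₐ[k] L) : Prop :=
  ∀ a : L ⊗[k] K, P.v (al a - algebraMap L _ (evT ψ a)) < 1

lemma over_of_iK {P : Place L (BC k K L)} {ψ : K →ₐ[k] L}
    (h : ∀ f, 0 ≤ P.ord (iK L f) ∧ P.val (iK L f) = ψ f) : Over P ψ := by
  intro a
  induction a using TensorProduct.induction_on with
  | zero => simp only [map_zero, sub_self, zero_lt_one]
  | tmul c f =>
    rw [alg_tmul, evT_tmul, map_mul, ← mul_sub, map_mul, ← (h f).2]
    exact mul_lt_one_of_nonneg_of_lt_one_right (P.const c) zero_le (Place.val_spec (h f).1)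
  | add x y hx hy =>
    have := P.v.map_add_lt hx hy
    rwa [sub_add_sub_comm, ← map_add, ← map_add, ← map_add] at this

namespace Over

variable {P Q : Place L (BC k K L)} {ψ : K →ₐ[k] L}

lemma reg (h : Over P ψ) (a : L ⊗[k] K) : 0 ≤ P.ord (al a) := (Place.val_eq (h a)).1

lemma val (h : Over P ψ) (a : L ⊗[k] K) : P.val (al a) = evT ψ a := (Place.val_eq (h a)).2

lemma unit (h : Over P ψ) {a : L ⊗[k] K} (ha : evT ψ a ≠ 0) : al a ≠ 0 ∧ P.ord (al a) = 0 :=
  Place.val_ne_zero.1 (by rwa [h.val])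

lemma pos (h : Over P ψ) {a : L ⊗[k] K} (h0 : a ≠ 0) (ha : evT ψ a = 0) : 0 < P.ord (al a) :=
  ((Place.val_eq_zero (h.reg a)).1 (by rwa [h.val])).resolve_left (al_ne h0)

/-- A function that is regular at `P` lies in the localisation of the tensor product. -/
lemma frac (h : Over P ψ) {F : BC k K L} (hF : 0 ≤ P.ord F) :
    ∃ a s : L ⊗[k] K, evT ψ s ≠ 0 ∧ F * al s = al a := by
  obtain ⟨τ, hτ0, hτ, H⟩ := loc_prin ψ
  have hp := h.pos hτ0 hτ
  have fac : ∀ (N : ℕ) (r : L ⊗[k] K), r ≠ 0 → P.ord (al r) < N →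
      ∃ (n : ℕ) (s u : L ⊗[k] K), evT ψ s ≠ 0 ∧ evT ψ u ≠ 0 ∧ s * r = τ ^ n * u := by
    intro N
    induction N with
    | zero => intro r _ hr; have := h.reg r; omega
    | succ N ih =>
      intro r hr0 hr
      by_cases hv : evT ψ r = 0
      · obtain ⟨s, r', hs, e⟩ := H r hv
        have hr' : r' ≠ 0 := by
          rintro rfl
          rw [mul_zero, mul_eq_zero] at e
          exact e.elim (fun e => hs (by simp [e])) hr0
        have e' := congrArg (fun a => P.ord (al a)) e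
        simp only [map_mul] at e'
        rw [Place.ord_mul (h.unit hs).1 (al_ne hr0), Place.ord_mul (al_ne hτ0) (al_ne hr'),
          (h.unit hs).2] at e'
        obtain ⟨n, s', u, hs', hu, e2⟩ := ih r' hr' (by push_cast at hr; omega)
        exact ⟨n + 1, s' * s, u, by simp [hs, hs'], hu, by linear_combination s' * e + τ * e2⟩
      · exact ⟨0, 1, r, by simp, hv, by simp⟩
  have fac' : ∀ r : L ⊗[k] K, r ≠ 0 → ∃ (n : ℕ) (s u : L ⊗[k] K), evT ψ s ≠ 0 ∧ evT ψ u ≠ 0 ∧
      s * r = τ ^ n * u ∧ P.ord (al r) = n * P.ord (al τ) := by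
    intro r hr
    obtain ⟨n, s, u, hs, hu, e⟩ := fac ((P.ord (al r)).toNat + 1) r hr (by push_cast; omega)
    refine ⟨n, s, u, hs, hu, e, ?_⟩
    have e' := congrArg (fun a => P.ord (al a)) e
    simp only [map_mul, map_pow] at e'
    rw [Place.ord_mul (h.unit hs).1 (al_ne hr), Place.ord_mul (pow_ne_zero _ (al_ne hτ0))
      (h.unit hu).1, (h.unit hs).2, (h.unit hu).2, Place.ord_pow] at e'
    omega
  obtain ⟨x, y, hy, rfl⟩ := IsFractionRing.div_surjective (A := L ⊗[k] K) F
  have hy0 := nonZeroDivisors.ne_zero hy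
  by_cases hx0 : x = 0
  · exact ⟨0, 1, by simp, by simp [hx0]⟩
  obtain ⟨n, s, u, hs, hu, e, o⟩ := fac' x hx0
  obtain ⟨m, s', u', hs', hu', e', o'⟩ := fac' y hy0
  rw [Place.ord_div (al_ne hx0) (al_ne hy0), o, o'] at hF
  obtain ⟨d, rfl⟩ : ∃ d, n = m + d := Nat.exists_eq_add_of_le (by
    by_contra hc
    have : (n : ℤ) < m := by omega
    nlinarith only [hp, hF, hc])
  refine ⟨τ ^ d * u * s', s * u', by simp [hs, hu'], ?_⟩
  rw [div_mul_eq_mul_div, div_eq_iff (al_ne hy0), ← map_mul, ← map_mul]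
  congr 1
  linear_combination u' * e - τ ^ d * u * e'

lemma unique (h : Over P ψ) (h' : Over Q ψ) : P = Q := by
  refine Place.ext_le fun F hF => ?_
  obtain ⟨a, s, hs, e⟩ := h.frac hF
  by_cases h0 : F = 0
  · simp [h0]
  have := h'.reg a
  rw [← e, Place.ord_mul h0 (h'.unit hs).1, (h'.unit hs).2] at this
  omega

end Over

variable [IsAlgClosed L]

lemma exists_dom (M : Ideal (L ⊗[k] K)) (h1 : M ≠ ⊤) (h0 : M ≠ ⊥) :
    ∃ P : Place L (BC k K L), (∀ a, 0 ≤ P.ord (al a)) ∧ ∀ a ∈ M, P.v (al a) < 1 := by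
  let e := AlgEquiv.ofInjective (IsScalarTower.toAlgHom L (L ⊗[k] K) (BC k K L))
    (IsFractionRing.injective _ _)
  obtain ⟨P, hP, hI⟩ := exists_place_dom (k := L) _ (M.comap e.symm)
    (Ideal.comap_ne_top _ h1) (fun h => h0 (eq_bot_iff.2 fun a ha => by
      have : e a ∈ M.comap e.symm := by simpa using ha
      simpa only [Submodule.mem_bot, h, EmbeddingLike.map_eq_zero_iff] using this))
  exact ⟨P, fun a => hP _ ⟨a, rfl⟩, fun a ha => hI (e a) (by simpa using ha)⟩

lemma exists_over (ψ : K →ₐ[k] L) : ∃ P : Place L (BC k K L), Over P ψ := by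
  obtain ⟨τ, hτ0, hτ, -⟩ := loc_prin ψ
  obtain ⟨P, -, hP⟩ := exists_dom (RingHom.ker (evT ψ)) (RingHom.ker_ne_top _)
    (fun h => hτ0 (by simpa [h] using (RingHom.mem_ker.2 hτ : τ ∈ RingHom.ker (evT ψ))))
  refine ⟨P, fun a => ?_⟩
  have := hP (a - evT ψ a ⊗ₜ 1) (by simp [RingHom.mem_ker])
  rwa [RingHom.map_sub, alg_tmul, map_one, mul_one] at this

/-- The place of an embedding of `K` into `L`. -/
noncomputable def gen (ψ : K →ₐ[k] L) : Place L (BC k K L) := (exists_over ψ).choose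

lemma over_gen (ψ : K →ₐ[k] L) : Over (gen ψ) ψ := (exists_over ψ).choose_spec

/-- The place `gen ψ` is determined by its values on the constant functions. -/
lemma gen_unique {P : Place L (BC k K L)} {ψ : K →ₐ[k] L}
    (h : ∀ f, 0 ≤ P.ord (iK L f) ∧ P.val (iK L f) = ψ f) : P = gen ψ :=
  (over_of_iK h).unique (over_gen ψ)

lemma ord_gen (ψ : K →ₐ[k] L) (f : K) : (gen ψ).ord (iK L f) = 0 := by
  by_cases hf : f = 0
  · simp [hf]
  · exact ((over_gen ψ).unit (a := 1 ⊗ₜ f) (by simpa using hf)).2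

lemma val_gen (ψ : K →ₐ[k] L) (f : K) : (gen ψ).val (iK L f) = ψ f := by
  simpa [iK_eq] using (over_gen ψ).val (1 ⊗ₜ f)

lemma gen_inj : Function.Injective (gen : (K →ₐ[k] L) → _) := fun ψ χ h =>
  AlgHom.ext fun f => by rw [← val_gen, h, val_gen]

lemma gen_ne_cst (ψ : K →ₐ[k] L) (y : Place k K) : gen ψ ≠ cst L y := fun h => by
  obtain ⟨t, -, ht⟩ := y.exists_ord 1
  have := ord_gen ψ t
  rw [h, ord_cst] at this
  omega

lemma cst_or_gen (P : Place L (BC k K L)) :
    (∃ y, P = cst L y) ∨ ∃ ψ : K →ₐ[k] L, P = gen ψ := by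
  by_cases h : ∃ f : K, P.ord (iK L f) ≠ 0
  · obtain ⟨y, H⟩ := exists_place (k := k) (P.v.comap (iK L))
      (fun c => by rw [Valuation.comap_apply, iK_alg]; exact P.const _) (by
        obtain ⟨f, hf⟩ := h
        rcases lt_or_gt_of_ne hf with hf | hf
        · exact ⟨f, Place.one_lt_v.2 hf⟩
        · exact ⟨f⁻¹, Place.one_lt_v.2 (by rw [map_inv₀, Place.ord_inv]; omega)⟩)
    exact .inl ⟨y, cst_unique L P y (fun f hf => Place.v_le_one.1 ((H f).1 hf)) h⟩
  · push Not at h
    exact .inr ⟨⟨⟨⟨⟨fun f => P.val (iK L f), by simp⟩, fun f g => by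
      simp only [map_mul]; exact Place.val_mul (h f).ge (h g).ge⟩, by simp, fun f g => by
      simp only [map_add]; exact Place.val_add (h f).ge (h g).ge⟩, fun c => by simp [iK_alg]⟩,
      gen_unique fun f => ⟨(h f).ge, rfl⟩⟩

/-- A function without poles at the non-constant places lies in the tensor product. -/
lemma mem_tensor (F : BC k K L) (h : ∀ ψ : K →ₐ[k] L, 0 ≤ (gen ψ).ord F) :
    ∃ a : L ⊗[k] K, F = algebraMap _ _ a := by
  let D : Ideal (L ⊗[k] K) :=
    { carrier := {s | ∃ a, F * al s = al a}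
      zero_mem' := ⟨0, by simp⟩
      add_mem' := by
        rintro x y ⟨a, e⟩ ⟨b, e'⟩
        exact ⟨a + b, by rw [map_add, map_add, mul_add, e, e']⟩
      smul_mem' := by
        rintro c x ⟨a, e⟩
        exact ⟨c * a, by rw [smul_eq_mul, map_mul, map_mul, ← e]; ring⟩ }
  by_cases h1 : D = ⊤
  · obtain ⟨a, e⟩ : (1 : L ⊗[k] K) ∈ D := h1 ▸ trivial
    exact ⟨a, by simpa using e⟩
  exfalso
  obtain ⟨P, hP, hD⟩ := exists_dom D h1 (fun h0 => by
    obtain ⟨x, y, hy, e⟩ := IsFractionRing.div_surjective (A := L ⊗[k] K) F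
    have hy0 := nonZeroDivisors.ne_zero hy
    have : y ∈ D := ⟨x, by rw [← e, div_mul_cancel₀ _ (al_ne hy0)]⟩
    exact hy0 (by simpa [h0] using this))
  obtain ⟨y, rfl⟩ | ⟨ψ, rfl⟩ := cst_or_gen P
  · obtain ⟨t, -, ht⟩ := y.exists_ord (-1)
    have := hP (1 ⊗ₜ t)
    rw [← iK_eq, ord_cst] at this
    omega
  · obtain ⟨a, s, hs, e⟩ := (over_gen ψ).frac (h ψ)
    exact (hD s ⟨a, e⟩).ne (Place.v_eq_one.2 ((over_gen ψ).unit hs))

lemma gal_gen (s : L ≃ₐ[k] L) (ψ : K →ₐ[k] L) :
    gal K s • gen ψ = gen ((s : L →ₐ[k] L).comp ψ) := by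
  refine gen_unique fun f => ?_
  rw [← gal_iK s f, SA.ord_act, SA.val_act, ord_gen, val_gen]
  exact ⟨le_rfl, SA.cst_eq _ _ _ (gal_alg s _)⟩

variable (L)

lemma bc_gen (E : Div k K) (ψ : K →ₐ[k] L) : bc L E (gen ψ) = 0 :=
  bc_apply_ne L E _ (gen_ne_cst ψ)

lemma dv_iK (f : K) : dv L (iK (k := k) L f) = bc L (dv k f) := by
  ext P
  obtain ⟨y, rfl⟩ | ⟨ψ, rfl⟩ := cst_or_gen P
  · rw [dv_apply, ord_cst, bc_apply, dv_apply]
  · rw [dv_apply, ord_gen, bc_gen]

/-- A constant divisor that is principal over `L` is principal over `k`. -/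
lemma bc_prin (E : Div k K) (F : BC k K L) (hF : F ≠ 0) (h : dv L F = bc L E) :
    ∃ f : K, f ≠ 0 ∧ dv k f = E := by
  obtain ⟨a, rfl⟩ := mem_tensor F fun ψ => by rw [← dv_apply, h, bc_gen]
  obtain ⟨φ, hφ⟩ : ∃ φ : L →ₗ[k] k, co φ a ≠ 0 := by
    by_contra! hc
    exact hF (by rw [eq_zero_of_co hc, map_zero])
  refine ⟨co φ a, hφ, (eq_of_le_of_deg (fun y => ?_) ?_).symm⟩
  · have h1 := (cst_v_le L y a (exp (-E y))).1
      (by rw [Place.v_eq hF, ← dv_apply, h, bc_apply]) φ
    have := (Place.v_le_exp.1 h1).resolve_left hφ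
    rw [dv_apply]
    omega
  · rw [deg_dv, ← deg_bc L, ← h, deg_dv]

end Pool.Agent.MP_855f4c_ag.WD

end

section

attribute [-instance] Subalgebra.smulCommClass_right instNonUnitalAlgHomClassOfNonUnitalAlgEquivClass
  NonUnitalAlgHomClass.instSemilinearMapClassOfNonUnitalAlgSemiHomClassToMonoidHomRingHom
  MonTypeEquivalenceMon.monMonoid Module.FaithfullyFlat.of_isIntegral_of_isDomain
  ContinuousSemilinearMapClass.toSemilinearMapClass instCharZeroOfIsSemireal
  CoalgHomClass.toSemilinearMapClass RKHS.instFunLike IdemSemiring.toSemiring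
  BialgHomClass.toAlgHomClass RingHomClass.toLinearMapClassNNRat littleWedderburn
  AlgHomClass.linearMapClass NonUnitalAlgHomClass.toNonUnitalRingHomClass
  RingHomClass.toLinearMapClassRat NormedSpace.toModule SemilinearIsometryClass.toSemilinearMapClass
  NormMulClass.toNoZeroDivisors NeZero.charZero_one RightPreLieAlgebra.toModule
  CompletePartialOrder.toPartialOrder LieAlgebra.toModule LeftPreLieAlgebra.toModule
  BialgHomClass.toMonoidHomClass GradedMonoid.instNatPowOfNat AlgEquivClass.toAlgHomClass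
  CommMonTypeEquivalenceCommMon.commMonCommMonoid NonUnitalNonAssocSemiring.toMulZeroClass
  IsScalarTower.subalgebra' RCLike.charZero_rclike IdemCommSemiring.toCommSemiring
  GeneralizedCoheytingAlgebra.toLattice GrpTypeEquivalenceGrp.grpGroup NumberField.to_charZero
  SetLike.GradeZero.instCommSemiring Quantale.instMulLeftMono SetLike.GradeZero.instSemiring
  NormedField.toField ContinuousMonoidHom.instCoeOutOfMonoidHomClassOfContinuousMapClass
  AddQuantale.instAddRightMono FloorSemiring.instCharZero NormedRing.toRing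
  MulCharClass.toMonoidHomClass SemilinearEquivClass.instSemilinearMapClass FunLike.toDecidableEq
  LieRinehartAlgebra.toIsScalarTower MulDistribMulActionSemiHomClass.toMonoidHomClass
  Finsupp.instNonUnitalNonAssocSemiring instZeroLEOneClass instNontrivialOfCharZero
  NonUnitalNonAssocSemiring.toDistrib IsDomain.toNontrivial
  MulSemiringActionSemiHomClass.toDistribMulActionSemiHomClass BooleanRing.toRing
  LieAdmissibleRing.toNonUnitalNonAssocRing instCoeTCOfCoe CentroidHomClass.toAddMonoidHomClass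
  NormedCommRing.toCommRing

/-! Reduction of the curve over `L` along a valuation ring of `L` with residue field `k`. -/

namespace Pool.Agent.MP_855f4c_ag.WD

open scoped TensorProduct

/-- A valuation ring of `L` that contains `k` and has residue field `k`. -/
structure VR (k L : Type) [Field k] [Field L] [Algebra k L] where
  O : ValuationSubring L
  const : ∀ c : k, algebraMap k L c ∈ O
  res : ∀ x ∈ O, ∃ c : k, O.valuation (x - algebraMap k L c) < 1

variable {k K L : Type} [Field k] [Field K] [Algebra k K] [FF k K] [Field L] [Algebra k L]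
  [IsAlgClosed L]

/-- leading coefficient of `F` at `P` for the uniformiser `τ` -/
noncomputable def lc {k K : Type} [Field k] [Field K] [Algebra k K] (P : Place k K) (τ F : K) : k :=
  P.val (F / τ ^ P.ord F)

/-- `t - t(P)` -/
noncomputable def dl (P : Place L (BC k K L)) (t : K) : BC k K L :=
  iK L t - algebraMap L _ (P.val (iK L t))

omit [Algebra k L] [IsAlgClosed L] in
open Polynomial in
/-- a relation with integral coefficients, one of which is `1` -/
lemma RF_rel {M : Type} [Field M] [Algebra k M] [Algebra M L] (z : Place k M) {x : L}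
    (hx : IsAlgebraic M x) : ∃ q : M[X], aeval x q = 0 ∧ (∀ i, z.v (q.coeff i) ≤ 1) ∧
      ∃ i, q.coeff i = 1 := by
  obtain ⟨p, hp, h0⟩ := hx
  obtain ⟨i, hi, hm⟩ := p.support.exists_max_image (fun j => z.v (p.coeff j))
    (support_nonempty.2 hp)
  have hc : p.coeff i ≠ 0 := mem_support_iff.1 hi
  have hv : 0 < z.v (p.coeff i) := zero_lt_iff.2 (z.v.ne_zero_iff.2 hc)
  refine ⟨C (p.coeff i)⁻¹ * p, by rw [map_mul, h0, mul_zero], fun j => ?_,
    i, by rw [coeff_C_mul, inv_mul_cancel₀ hc]⟩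
  rw [coeff_C_mul, map_mul, map_inv₀, inv_mul_le_iff₀ hv, mul_one]
  by_cases hj : j ∈ p.support
  · exact hm j hj
  · rw [notMem_support_iff.1 hj, map_zero]; exact zero_le

omit [IsAlgClosed L] in
open Polynomial in
lemma RF_root [IsAlgClosed k] (B : ValuationSubring L) (hc : ∀ c : k, algebraMap k L c ∈ B)
    {x : L} (hx : x ∈ B) {r : k[X]} (hr : r ≠ 0) (h : B.valuation (aeval x r) < 1) :
    ∃ c : k, B.valuation (x - algebraMap k L c) < 1 := by
  by_contra hn
  push Not at hn
  have h1 : ∀ c : k, B.valuation (x - algebraMap k L c) = 1 := fun c =>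
    le_antisymm ((B.valuation_le_one_iff _).2 (B.toSubring.sub_mem hx (hc c))) (hn c)
  have h2 : ∀ c : k, c ≠ 0 → B.valuation (algebraMap k L c) = 1 := fun c h0 => by
    refine le_antisymm ((B.valuation_le_one_iff _).2 (hc c)) ?_
    have h3 := (B.valuation_le_one_iff _).2 (hc c⁻¹)
    rw [map_inv₀, map_inv₀] at h3
    exact (inv_le_one₀ (zero_lt_iff.2 (B.valuation.ne_zero_iff.2 (by simpa using h0)))).1 h3
  have h4 : ∀ s : Multiset k, B.valuation (aeval x (s.map fun a => X - C a).prod) = 1 := by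
    intro s
    induction s using Multiset.induction_on with
    | empty => simp only [Multiset.map_zero, Multiset.prod_zero, map_one]
    | cons a s ih =>
      rw [Multiset.map_cons, Multiset.prod_cons, map_mul, map_mul, ih, map_sub, aeval_X, aeval_C,
        h1, mul_one]
  rw [(IsAlgClosed.splits r).eq_prod_roots, map_mul, map_mul, h4, aeval_C,
    h2 _ (leadingCoeff_ne_zero.2 hr), mul_one] at h
  exact lt_irrefl _ h

open Polynomial in
/-- ROW RF: a place of a subfield over which `L` is algebraic extends to a valuation ring. -/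
lemma exists_VR (M : Type) [Field M] [Algebra k M] [Algebra M L] [IsScalarTower k M L]
    [Algebra.IsAlgebraic M L] [IsAlgClosed k] (z : Place k M) :
    ∃ V : VR k L, ∀ f : M, algebraMap M L f ∈ V.O ↔ 0 ≤ z.ord f := by
  obtain ⟨t, ht0, ht⟩ := z.exists_ord 1
  let A : Subring L := z.O.toSubring.map (algebraMap M L)
  have hA : ∀ f, 0 ≤ z.ord f → algebraMap M L f ∈ A := fun f hf => ⟨f, Place.mem_O'.2 hf, rfl⟩
  have hI : Ideal.span {(⟨_, hA t (by omega)⟩ : A)} ≠ ⊤ := by
    rw [Ne, Ideal.span_singleton_eq_top, isUnit_iff_exists_inv]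
    rintro ⟨⟨_, u, hu, rfl⟩, h⟩
    have h1 : t * u = 1 := (algebraMap M L).injective (by
      rw [map_mul, map_one]; exact congrArg Subtype.val h)
    have h2 : 0 ≤ z.ord u := Place.mem_O'.1 hu
    have h3 := z.ord_mul ht0 (right_ne_zero_of_mul_eq_one h1)
    rw [h1, Place.ord_one] at h3
    omega
  obtain ⟨B, hB, hN⟩ := Ideal.image_subset_nonunits_valuationSubring _ hI
  have hle : ∀ f, 0 ≤ z.ord f → B.valuation (algebraMap M L f) ≤ 1 := fun f hf =>
    (B.valuation_le_one_iff _).2 (hB (hA f hf))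
  have hlt : ∀ f, z.v f < 1 → B.valuation (algebraMap M L f) < 1 := fun f hf => by
    rcases Place.v_lt_one.1 hf with rfl | h
    · simp only [map_zero, zero_lt_one]
    · have h0 : f ≠ 0 := Place.ne_zero_of_ord h.ne'
      have h1 : B.valuation (algebraMap M L t) < 1 :=
        B.mem_nonunits_iff.1 (hN ⟨_, Ideal.subset_span rfl, rfl⟩)
      have h2 := hle (f / t) (by rw [Place.ord_div h0 ht0]; omega)
      rw [← div_mul_cancel₀ f ht0, map_mul, map_mul]
      exact lt_of_le_of_lt (mul_le_of_le_one_left' h2) h1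
  have hc : ∀ c : k, algebraMap k L c ∈ B := fun c => by
    rw [IsScalarTower.algebraMap_apply k M L]
    exact hB (hA _ (Place.v_le_one.1 (z.const c)))
  refine ⟨⟨B, hc, fun x hx => ?_⟩, fun f => ⟨fun hf => ?_, fun hf => hB (hA f hf)⟩⟩
  · obtain ⟨q, h0, h1, i, hi⟩ := RF_rel z (Algebra.IsAlgebraic.isAlgebraic (R := M) x)
    have hco : ∀ j, (∑ j ∈ q.support, monomial j (z.val (q.coeff j))).coeff j =
        z.val (q.coeff j) := fun j => by
      rw [finsetSum_coeff, Finset.sum_eq_single j]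
      · rw [coeff_monomial_same]
      · exact fun b _ hb => coeff_monomial_of_ne _ hb.symm
      · exact fun hj => by rw [notMem_support_iff.1 hj, Place.val_zero, map_zero, coeff_zero]
    refine RF_root B hc hx (r := ∑ j ∈ q.support, monomial j (z.val (q.coeff j)))
      (fun h => ?_) ?_
    · have := hco i
      rw [h, hi, Place.val_one, coeff_zero] at this
      exact zero_ne_one this
    · rw [← Valuation.map_neg, ← zero_sub, ← h0, map_sum, aeval_eq_sum_range'
        (n := q.natDegree + 1) (Nat.lt_succ_self _), Finset.sum_subset supp_subset_range_natDegree_succ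
        (fun j _ hj => by rw [notMem_support_iff.1 hj, Place.val_zero, map_zero, map_zero]),
        ← Finset.sum_sub_distrib]
      refine B.valuation.map_sum_lt one_ne_zero fun j _ => ?_
      rw [aeval_monomial, Algebra.smul_def, ← sub_mul, IsScalarTower.algebraMap_apply k M L,
        ← map_sub, map_mul]
      exact lt_of_le_of_lt (mul_le_of_le_one_right'
        ((B.valuation_le_one_iff _).2 (B.toSubring.pow_mem hx j)))
        (hlt _ (Place.val_spec (Place.v_le_one.1 (h1 j))))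
  · by_contra h
    have h0 : f ≠ 0 := Place.ne_zero_of_ord (x := z) (by omega)
    have h1 := hlt f⁻¹ (Place.v_lt_one.2 (.inr (by rw [Place.ord_inv]; omega)))
    rw [map_inv₀, map_inv₀, inv_lt_one₀ (zero_lt_iff.2 (B.valuation.ne_zero_iff.2
      (by simpa using h0)))] at h1
    exact absurd ((B.valuation_le_one_iff _).2 hf) (not_le.2 h1)

/-- ROW RF: the valuation ring of a place is a localisation of a finitely generated algebra. -/
lemma O_essfin (y : Place k K) : ∃ S : Finset K, (∀ f ∈ S, 0 ≤ y.ord f) ∧ ∀ f, 0 ≤ y.ord f →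
    ∃ b ∈ Algebra.adjoin k (S : Set K), ∃ s ∈ Algebra.adjoin k (S : Set K),
      y.val s ≠ 0 ∧ f * s = b := by
  obtain ⟨o, ho⟩ := exists_ne y
  obtain ⟨S, hS⟩ := (Subalgebra.fg_top (Rg o)).1
    (Algebra.FiniteType.out (R := k) (A := Rg o))
  refine ⟨S, fun f hf => mem_Rg.1 (hS ▸ Algebra.subset_adjoin hf) y ho.symm, fun f hf => ?_⟩
  obtain ⟨b, hb, h0, hbf, h1⟩ := exists_den {y} (by simpa using ho) f (by simpa only [Finset.mem_singleton, forall_eq] using hf)
  rw [hS]
  exact ⟨_, hbf, b, hb, Place.val_ne_zero.2 ⟨h0, h1 y (by simp)⟩, mul_comm _ _⟩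

/-- ROW RB helper: Nakayama for the graph of a point `φ : O → A` in `A ⊗ O`. -/
lemma RB_nak {k A O : Type} [Field k] [CommRing A] [Algebra k A] [CommRing O] [Algebra k O]
    (r : A →ₐ[k] k) (hr : ∀ x, r x ≠ 0 → IsUnit x) (v : O →ₐ[k] k) (t : O) (ht0 : v t = 0)
    (ht : ∀ f, v f = 0 → ∃ g, f = t * g) (φ : O →ₐ[k] A) (hφ : ∀ f, r (φ f) = v f)
    (S : Set O) (hS : S.Finite) (H : ∀ f, ∃ b ∈ Algebra.adjoin k S, ∃ s ∈ Algebra.adjoin k S,
      v s ≠ 0 ∧ f * s = b) (a : A ⊗[k] O)
    (ha : Algebra.TensorProduct.productMap (AlgHom.id k A) φ a = 0) :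
    ∃ s c : A ⊗[k] O, Algebra.TensorProduct.productMap r v s = 1 ∧
      s * a = (1 ⊗ₜ[k] t - φ t ⊗ₜ[k] 1) * c := by
  set e := Algebra.TensorProduct.productMap (AlgHom.id k A) φ with he
  set w := Algebra.TensorProduct.productMap r v with hw
  have hI : ∀ f : O, (1 ⊗ₜ[k] f - φ f ⊗ₜ[k] 1 : A ⊗[k] O) ∈ RingHom.ker e := fun f => by
    simp [RingHom.mem_ker, he]
  have key : ∀ N : Ideal (A ⊗[k] O), (∀ f : O, (1 ⊗ₜ[k] f - φ f ⊗ₜ[k] 1 : A ⊗[k] O) ∈ N) →
      RingHom.ker e ≤ N := fun N hN x hx => by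
    have h1 : ∀ z : A ⊗[k] O, z - e z ⊗ₜ[k] 1 ∈ N := fun z => by
      induction z using TensorProduct.induction_on with
      | zero => simp
      | tmul p f =>
        have h2 : (p ⊗ₜ[k] f - e (p ⊗ₜ[k] f) ⊗ₜ[k] 1 : A ⊗[k] O) =
            p ⊗ₜ[k] 1 * (1 ⊗ₜ[k] f - φ f ⊗ₜ[k] 1) := by
          simp [he, mul_sub, Algebra.TensorProduct.tmul_mul_tmul]
        rw [h2]; exact N.mul_mem_left _ (hN f)
      | add p q hp hq =>
        rw [map_add, TensorProduct.add_tmul, add_sub_add_comm]; exact N.add_mem hp hq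
    have h2 := h1 x
    rwa [(RingHom.mem_ker.1 hx : e x = 0), TensorProduct.zero_tmul, sub_zero] at h2
  have hfg : (RingHom.ker e).FG := by
    set J : Ideal (A ⊗[k] O) :=
      Ideal.span ((fun f : O => (1 ⊗ₜ[k] f - φ f ⊗ₜ[k] 1 : A ⊗[k] O)) '' S) with hJ
    have h1 : J ≤ RingHom.ker e := Ideal.span_le.2 (by rintro _ ⟨f, -, rfl⟩; exact hI f)
    set π := Ideal.Quotient.mkₐ k J with hπ
    set p1 : O →ₐ[k] _ := π.comp Algebra.TensorProduct.includeRight with hp1
    set p2 : O →ₐ[k] _ := π.comp (Algebra.TensorProduct.includeLeft.comp φ) with hp2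
    have h2 : ∀ f, p1 f = p2 f ↔ (1 ⊗ₜ[k] f - φ f ⊗ₜ[k] 1 : A ⊗[k] O) ∈ J := fun f =>
      Ideal.Quotient.eq
    have h3 : Algebra.adjoin k S ≤ AlgHom.equalizer p1 p2 := Algebra.adjoin_le fun f hf =>
      (h2 f).2 (Ideal.subset_span ⟨f, hf, rfl⟩)
    have h4 : RingHom.ker e ≤ J := key J fun f => by
      obtain ⟨b, hb, s, hs, hs0, hfs⟩ := H f
      have hu : IsUnit (p2 s) :=
        (hr (φ s) (by rwa [hφ])).map (π.comp Algebra.TensorProduct.includeLeft)
      refine (h2 f).1 (hu.mul_right_cancel ?_)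
      have e1 : p1 s = p2 s := h3 hs
      have e2 : p1 b = p2 b := h3 hb
      rw [← map_mul p2, hfs, ← e1, ← e2, ← map_mul, hfs]
    rw [← le_antisymm h1 h4]
    exact Submodule.fg_span (hS.image _)
  have hle : RingHom.ker e ≤ Ideal.span {(1 ⊗ₜ[k] t - φ t ⊗ₜ[k] 1 : A ⊗[k] O)} ⊔
      RingHom.ker w • RingHom.ker e := key _ fun f => by
    obtain ⟨g, hg⟩ := ht (f - algebraMap k O (v f)) (by simp)
    have h1 : f = algebraMap k O (v f) + t * g := by rw [← hg]; ring
    have h2 : (1 ⊗ₜ[k] f - φ f ⊗ₜ[k] 1 : A ⊗[k] O) = 1 ⊗ₜ[k] g * (1 ⊗ₜ[k] t - φ t ⊗ₜ[k] 1) +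
        (φ t ⊗ₜ[k] 1 : A ⊗[k] O) • (1 ⊗ₜ[k] g - φ g ⊗ₜ[k] 1) := by
      have h3 : (1 ⊗ₜ[k] algebraMap k O (v f) : A ⊗[k] O) = algebraMap k A (v f) ⊗ₜ[k] 1 := by
        rw [Algebra.algebraMap_eq_smul_one, Algebra.algebraMap_eq_smul_one, TensorProduct.smul_tmul]
      conv_lhs => rw [h1]
      simp only [map_add, map_mul, AlgHom.commutes, TensorProduct.tmul_add, TensorProduct.add_tmul,
        h3, smul_eq_mul, mul_sub, Algebra.TensorProduct.tmul_mul_tmul, one_mul, mul_one, mul_comm g t]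
      abel
    rw [h2]
    refine Submodule.add_mem_sup (Ideal.mul_mem_left _ _ (Ideal.subset_span rfl))
      (Submodule.smul_mem_smul ?_ (hI g))
    simp [RingHom.mem_ker, hw, hφ, ht0]
  obtain ⟨s, hs1, hs⟩ := Submodule.exists_sub_one_mem_and_smul_le_of_fg_of_le_sup hfg le_rfl hle
  obtain ⟨c, hc⟩ := Ideal.mem_span_singleton'.1 (hs (Submodule.smul_mem_pointwise_smul a s _ ha))
  refine ⟨s, c, ?_, by rw [mul_comm _ c, hc, smul_eq_mul]⟩
  have h1 : w (s - 1) = 0 := hs1
  rwa [map_sub, map_one, sub_eq_zero] at h1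
section lc
variable {k K : Type} [Field k] [Field K] [Algebra k K] {P : Place k K} {τ F G : K}

lemma lc_ord (hτ : P.ord τ = 1) (hF : F ≠ 0) :
    F / τ ^ P.ord F ≠ 0 ∧ P.ord (F / τ ^ P.ord F) = 0 := by
  have h := zpow_ne_zero (P.ord F) (Place.ne_zero_of_ord (x := P) (f := τ) (by omega))
  exact ⟨div_ne_zero hF h, by rw [Place.ord_div hF h, Place.ord_zpow, hτ, mul_one, sub_self]⟩

lemma lc_mul (hτ : P.ord τ = 1) (hF : F ≠ 0) (hG : G ≠ 0) :
    lc P τ (F * G) = lc P τ F * lc P τ G := by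
  rw [lc, lc, lc, ← Place.val_mul (lc_ord hτ hF).2.ge (lc_ord hτ hG).2.ge, Place.ord_mul hF hG,
    zpow_add₀ (Place.ne_zero_of_ord (x := P) (f := τ) (by omega)), div_mul_div_comm]

lemma lc_unit (h : P.ord F = 0) : lc P τ F = P.val F := by rw [lc, h, zpow_zero, div_one]

lemma lc_const (c : k) : lc P τ (algebraMap k K c) = c := by
  rw [lc_unit (Place.ord_const c), Place.val_const]

lemma lc_self (hτ : P.ord τ = 1) : lc P τ τ = 1 := by
  rw [lc, hτ, zpow_one, div_self (Place.ne_zero_of_ord (x := P) (f := τ) (by omega)),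
    Place.val_one]

end lc

namespace VR

variable (V : VR k L)

/-- the ring as a `k`-subalgebra -/
def A : Subalgebra k L where
  carrier := V.O
  mul_mem' := V.O.mul_mem _ _
  add_mem' := V.O.add_mem _ _
  algebraMap_mem' := V.const

omit [IsAlgClosed L] in
lemma RA_le {x : L} (h : x ∈ V.O) : V.O.valuation x ≤ 1 := (V.O.valuation_le_one_iff x).2 h

omit [IsAlgClosed L] in
lemma RA_const {c : k} (hc : c ≠ 0) : V.O.valuation (algebraMap k L c) = 1 := by
  refine le_antisymm (V.RA_le (V.const c)) ?_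
  have h := V.RA_le (V.const c⁻¹)
  rw [map_inv₀, map_inv₀] at h
  have h0 : V.O.valuation (algebraMap k L c) ≠ 0 := by simpa only [ne_eq, map_eq_zero] using hc
  exact (inv_le_one₀ (zero_lt_iff.2 h0)).1 h

omit [IsAlgClosed L] in
lemma RA_uniq {x : L} {c d : k} (h : V.O.valuation (x - algebraMap k L c) < 1)
    (h' : V.O.valuation (x - algebraMap k L d) < 1) : d = c := by
  by_contra hne
  have h1 := V.O.valuation.map_sub_lt h h'
  rw [sub_sub_sub_cancel_left, ← map_sub, V.RA_const (sub_ne_zero.2 hne)] at h1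
  exact lt_irrefl _ h1

omit [IsAlgClosed L] in
lemma RA_mul {x y : L} {c d : k} (hx : x ∈ V.O) (h : V.O.valuation (x - algebraMap k L c) < 1)
    (h' : V.O.valuation (y - algebraMap k L d) < 1) :
    V.O.valuation (x * y - algebraMap k L (c * d)) < 1 := by
  have e : x * y - algebraMap k L (c * d) = x * (y - algebraMap k L d) +
    (x - algebraMap k L c) * algebraMap k L d := by rw [map_mul]; ring
  rw [e]
  refine V.O.valuation.map_add_lt ?_ ?_ <;> rw [map_mul]
  · exact (mul_le_of_le_one_left' (V.RA_le hx)).trans_lt h'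
  · exact (mul_le_of_le_one_right' (V.RA_le (V.const _))).trans_lt h

omit [IsAlgClosed L] in
lemma RA_add {x y : L} {c d : k} (h : V.O.valuation (x - algebraMap k L c) < 1)
    (h' : V.O.valuation (y - algebraMap k L d) < 1) :
    V.O.valuation (x + y - algebraMap k L (c + d)) < 1 := by
  have := V.O.valuation.map_add_lt h h'
  rwa [(algebraMap k L).map_add, add_sub_add_comm]

/-- ROW RA -/
lemma exists_rs : ∃ r : V.A →ₐ[k] k, ∀ x : V.A, V.O.valuation (x.1 - algebraMap k L (r x)) < 1 := by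
  choose r hr using fun x : V.A => V.res x.1 x.2
  have hc : ∀ c : k, r (algebraMap k V.A c) = c := fun c =>
    V.RA_uniq (x := algebraMap k L c) (by simp only [sub_self, map_zero, zero_lt_one]) (hr (algebraMap k V.A c))
  exact ⟨{ toFun := r
           map_one' := by simpa using hc 1
           map_zero' := by simpa using hc 0
           map_mul' := fun x y => V.RA_uniq (V.RA_mul x.2 (hr x) (hr y)) (hr (x * y))
           map_add' := fun x y => V.RA_uniq (V.RA_add (hr x) (hr y)) (hr (x + y))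
           commutes' := hc }, hr⟩

/-- the residue map -/
noncomputable def rs : V.A →ₐ[k] k := V.exists_rs.choose

lemma rs_spec (x : V.A) : V.O.valuation (x.1 - algebraMap k L (V.rs x)) < 1 :=
  V.exists_rs.choose_spec x

/-- ROW RA -/
lemma rs_ne_zero (x : V.A) : V.rs x ≠ 0 ↔ V.O.valuation x.1 = 1 := by
  have h := V.rs_spec x
  refine ⟨fun h0 => ?_, fun h1 h0 => ?_⟩
  · rw [← V.RA_const h0] at h
    rw [← V.RA_const h0]
    exact V.O.valuation.map_eq_of_sub_lt h
  · rw [h0, map_zero, sub_zero, h1] at h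
    exact lt_irrefl _ h

lemma RA_inv (P : Place L (BC k K L)) {F : BC k K L} (hF : F ≠ 0) (h0 : 0 ≤ P.ord F)
    (h : P.val F ∈ V.O) :
    V.O.valuation (P.val F) < 1 ↔ ¬ (0 ≤ P.ord F⁻¹ ∧ P.val F⁻¹ ∈ V.O) := by
  rw [Place.ord_inv]
  refine ⟨fun h1 ⟨h2, h3⟩ => ?_, fun h1 => lt_of_le_of_ne (V.RA_le h) fun h2 => ?_⟩
  · have e : P.ord F = 0 := by omega
    have h4 := V.RA_le h3
    rw [Place.val_inv e, map_inv₀] at h4
    have h5 : V.O.valuation (P.val F) ≠ 0 := by simpa only [ne_eq, map_eq_zero] using Place.val_ne_zero.2 ⟨hF, e⟩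
    exact h1.not_ge ((inv_le_one₀ (zero_lt_iff.2 h5)).1 h4)
  · have h3 : P.val F ≠ 0 := fun e => by simp only [e, map_zero, zero_ne_one] at h2
    have e := (Place.val_ne_zero.1 h3).2
    refine h1 ⟨by omega, (V.O.valuation_le_one_iff _).1 ?_⟩
    rw [Place.val_inv e, map_inv₀, h2, inv_one]

omit [IsAlgClosed L] in
lemma RA_sub (P : Place L (BC k K L)) {F : BC k K L} (h0 : 0 ≤ P.ord F) (c : L) :
    0 ≤ P.ord (F - algebraMap L _ c) ∧ P.val (F - algebraMap L _ c) = P.val F - c :=
  ⟨Place.ord_sub_nonneg h0 (by simp), by rw [Place.val_sub h0 (by simp), Place.val_const]⟩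

/-- ROW RA: the functions `f` with `f(P) ∈ O` form a proper valuation ring of `K`. -/
lemma exists_red (P : Place L (BC k K L)) : ∃ y : Place k K, ∀ f : K,
    0 ≤ y.ord f ↔ 0 ≤ P.ord (iK L f) ∧ P.val (iK L f) ∈ V.O := by
  let W : ValuationSubring K :=
    { carrier := {f | 0 ≤ P.ord (iK L f) ∧ P.val (iK L f) ∈ V.O}
      mul_mem' := fun {a b} ha hb => ⟨by rw [map_mul]; exact Place.ord_mul_nonneg ha.1 hb.1,
        by rw [map_mul, Place.val_mul ha.1 hb.1]; exact V.O.mul_mem _ _ ha.2 hb.2⟩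
      one_mem' := ⟨by simp, by simp⟩
      add_mem' := fun {a b} ha hb => ⟨by rw [map_add]; exact Place.ord_add_nonneg ha.1 hb.1,
        by rw [map_add, Place.val_add ha.1 hb.1]; exact V.O.add_mem _ _ ha.2 hb.2⟩
      zero_mem' := ⟨by simp, by simp⟩
      neg_mem' := fun {a} ha => ⟨by rw [map_neg, Place.ord_neg]; exact ha.1,
        by rw [map_neg, Place.val_neg]; exact V.O.neg_mem _ ha.2⟩
      mem_or_inv_mem' := fun f => by
        change (_ ∧ _) ∨ (_ ∧ _)
        rw [map_inv₀, Place.ord_inv]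
        rcases lt_trichotomy (P.ord (iK L f)) 0 with h | h | h
        · refine Or.inr ⟨by omega, ?_⟩
          rw [(Place.val_eq_zero (by rw [Place.ord_inv]; omega)).2
            (Or.inr (by rw [Place.ord_inv]; omega))]
          exact V.O.zero_mem
        · rw [Place.val_inv h]
          exact (V.O.mem_or_inv_mem _).imp (fun h' => ⟨h.ge, h'⟩) fun h' => ⟨by omega, h'⟩
        · refine Or.inl ⟨h.le, ?_⟩
          rw [(Place.val_eq_zero h.le).2 (Or.inr h)]
          exact V.O.zero_mem }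
  refine exists_place_subring W (fun c => ⟨?_, ?_⟩) fun e => ?_
  · rw [iK_alg]; simp
  · rw [iK_alg, Place.val_const]; exact V.const c
  · have hW : ∀ f, 0 ≤ P.ord (iK L f) ∧ P.val (iK L f) ∈ V.O := fun f =>
      (e ▸ trivial : f ∈ W)
    obtain ⟨t, ht, -⟩ := FF.ex (k := k) (K := K)
    obtain ⟨c, hc⟩ := V.res _ (hW t).2
    have hg : t - algebraMap k K c ≠ 0 := fun h =>
      ht (by rw [sub_eq_zero.1 h]; exact isAlgebraic_algebraMap c)
    have h1 := hW (t - algebraMap k K c)⁻¹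
    have h2 := hW (t - algebraMap k K c)
    rw [map_inv₀] at h1
    refine (V.RA_inv P ((map_ne_zero _).2 hg) h2.1 h2.2).1 ?_ h1
    rwa [map_sub, iK_alg, (RA_sub P (hW t).1 _).2]

/-- the reduction of a place -/
noncomputable def red (P : Place L (BC k K L)) : Place k K := (V.exists_red P).choose

lemma red_iff (P : Place L (BC k K L)) (f : K) :
    0 ≤ (V.red P).ord f ↔ 0 ≤ P.ord (iK L f) ∧ P.val (iK L f) ∈ V.O :=
  (V.exists_red P).choose_spec f

lemma red_eq {P : Place L (BC k K L)} {y : Place k K}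
    (h : ∀ f, 0 ≤ y.ord f → 0 ≤ P.ord (iK L f) ∧ P.val (iK L f) ∈ V.O) : V.red P = y :=
  (Place.ext_le fun f hf => (V.red_iff P f).2 (h f hf)).symm

/-- ROW RA -/
lemma red_val (P : Place L (BC k K L)) (f : K) (h : 0 ≤ (V.red P).ord f) :
    V.O.valuation (P.val (iK L f) - algebraMap k L ((V.red P).val f)) < 1 := by
  have h1 := (V.red_iff P f).1 h
  rw [← (RA_sub P h1.1 _).2, ← iK_alg, ← map_sub]
  rcases Place.v_lt_one.1 (Place.val_spec h) with h0 | h0
  · simp only [h0, map_zero, Place.val_zero, zero_lt_one]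
  · have h2 := (V.red_iff P _).1 h0.le
    refine (V.RA_inv P ((map_ne_zero _).2 (Place.ne_zero_of_ord h0.ne')) h2.1 h2.2).2 fun h3 => ?_
    rw [← map_inv₀, ← V.red_iff, Place.ord_inv] at h3
    omega

lemma red_cst (y : Place k K) : V.red (cst L y) = y :=
  V.red_eq fun f hf => ⟨by rwa [ord_cst], by rw [val_cst L y f hf]; exact V.const _⟩

/-- `O ⊗ K → BC` -/
noncomputable def emb (K : Type) [Field K] [Algebra k K] [FF k K] : V.A ⊗[k] K →+* BC k K L :=
  (algebraMap (L ⊗[k] K) (BC k K L)).comp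
    (Algebra.TensorProduct.map V.A.val (AlgHom.id k K)).toRingHom

/-- reduction `O ⊗ K → K` -/
noncomputable def rho (K : Type) [Field K] [Algebra k K] : V.A ⊗[k] K →ₐ[k] K :=
  Algebra.TensorProduct.productMap ((Algebra.ofId k K).comp V.rs) (AlgHom.id k K)

/-- the image of `O ⊗ O_y` -/
noncomputable def T (y : Place k K) : Subalgebra k (V.A ⊗[k] K) :=
  (Algebra.TensorProduct.map (AlgHom.id k V.A) y.O.val).range

/-- ROW RA -/
lemma emb_inj : Function.Injective (V.emb K) :=
  (IsFractionRing.injective (L ⊗[k] K) (BC k K L)).comp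
    (Module.Flat.rTensor_preserves_injective_linearMap (M := K) V.A.val.toLinearMap
      Subtype.val_injective)

omit [IsAlgClosed L] in
lemma RA_emb (x : V.A) (f : K) : V.emb K (x ⊗ₜ[k] f) = algebraMap L _ x.1 * iK L f := by
  rw [IsScalarTower.algebraMap_apply L (L ⊗[k] K) (BC k K L)]
  change algebraMap (L ⊗[k] K) (BC k K L) (x.1 ⊗ₜ[k] f) =
    algebraMap _ _ (x.1 ⊗ₜ[k] (1 : K)) * algebraMap _ _ ((1 : L) ⊗ₜ[k] f)
  rw [← map_mul, Algebra.TensorProduct.tmul_mul_tmul, mul_one, one_mul]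

omit [FF k K] in
lemma RA_rho (x : V.A) (f : K) : V.rho K (x ⊗ₜ[k] f) = algebraMap k K (V.rs x) * f := rfl

lemma RA_prim (a : L ⊗[k] K) (ha : a ≠ 0) : ∃ (c : L) (b : V.A ⊗[k] K), c ≠ 0 ∧ V.rho K b ≠ 0 ∧
    algebraMap _ (BC k K L) a = algebraMap L _ c * V.emb K b := by
  classical
  let e := Module.Basis.ofVectorSpace k K
  let E := Algebra.TensorProduct.basis L e
  let l := E.repr a
  have hl : l.support.Nonempty := Finsupp.support_nonempty_iff.2 (E.repr.map_ne_zero_iff.2 ha)
  obtain ⟨i, hi, hm⟩ := l.support.exists_max_image (fun i => V.O.valuation (l i)) hl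
  have hc : l i ≠ 0 := Finsupp.mem_support_iff.1 hi
  have hO : ∀ j, l j / l i ∈ V.O := fun j => by
    rw [← V.O.valuation_le_one_iff, map_div₀]
    refine div_le_one_of_le₀ ?_ zero_le
    by_cases hj : j ∈ l.support
    · exact hm j hj
    · simp only [Finsupp.notMem_support_iff.1 hj, map_zero, zero_le]
  let u : _ → V.A := fun j => ⟨l j / l i, hO j⟩
  refine ⟨l i, ∑ j ∈ l.support, u j ⊗ₜ[k] e j, hc, fun h => ?_, ?_⟩
  · rw [map_sum] at h
    simp only [RA_rho, ← Algebra.smul_def] at h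
    have h1 := linearIndependent_iff'.1 e.linearIndependent _ _ h i hi
    have h2 : u i = 1 := Subtype.ext (div_self hc)
    rw [h2, map_one] at h1
    exact one_ne_zero h1
  · have h1 : a = ∑ j ∈ l.support, l j • E j := (E.linearCombination_repr a).symm
    rw [map_sum, Finset.mul_sum]
    conv_lhs => rw [h1, map_sum]
    refine Finset.sum_congr rfl fun j _ => ?_
    rw [RA_emb, ← mul_assoc, ← map_mul, mul_div_cancel₀ _ hc, Algebra.smul_def, map_mul,
      ← IsScalarTower.algebraMap_apply, Algebra.TensorProduct.basis_apply]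
    rfl

/-- ROW RA: every non-zero function is a constant times a quotient of primitive elements. -/
lemma exists_prim (F : BC k K L) (hF : F ≠ 0) : ∃ (c : L) (a b : V.A ⊗[k] K), c ≠ 0 ∧
    V.rho K a ≠ 0 ∧ V.rho K b ≠ 0 ∧ F * V.emb K b = algebraMap L _ c * V.emb K a := by
  obtain ⟨a, b, hb, rfl⟩ := IsFractionRing.div_surjective (A := L ⊗[k] K) F
  have hb0 := nonZeroDivisors.ne_zero hb
  have ha0 : a ≠ 0 := fun h => hF (by simp [h])
  obtain ⟨c, a', hc, ha', e1⟩ := V.RA_prim a ha0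
  obtain ⟨d, b', hd, hb', e2⟩ := V.RA_prim b hb0
  have h1 : V.emb K b' ≠ 0 := fun h => hb' (by rw [V.emb_inj (h.trans (map_zero _).symm), map_zero])
  have h2 : algebraMap L (BC k K L) d ≠ 0 := (map_ne_zero _).2 hd
  refine ⟨c / d, a', b', div_ne_zero hc hd, ha', hb', ?_⟩
  rw [e1, e2, map_div₀]
  field_simp

omit [FF k K] [IsAlgClosed L] in
lemma RA_T {y : Place k K} (x : V.A) {f : K} (hf : 0 ≤ y.ord f) : x ⊗ₜ[k] f ∈ V.T y :=
  ⟨x ⊗ₜ[k] ⟨f, Place.mem_O'.2 hf⟩, rfl⟩

/-- ROW RA: clearing the pole at `y` -/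
lemma exists_T (y : Place k K) (t : K) (ht : y.ord t = 1) (a : V.A ⊗[k] K) :
    ∃ m : ℕ, (1 ⊗ₜ[k] t) ^ m * a ∈ V.T y := by
  have h1 : (1 ⊗ₜ[k] t : V.A ⊗[k] K) ∈ V.T y := V.RA_T 1 (by omega)
  induction a using TensorProduct.induction_on with
  | zero => exact ⟨0, by rw [mul_zero]; exact zero_mem _⟩
  | tmul x f =>
    refine ⟨(-y.ord f).toNat, ?_⟩
    rw [Algebra.TensorProduct.tmul_pow, Algebra.TensorProduct.tmul_mul_tmul]
    refine V.RA_T _ ?_
    by_cases hf : f = 0
    · simp [hf]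
    · rw [Place.ord_mul (pow_ne_zero _ (Place.ne_zero_of_ord (x := y) (by omega))) hf, Place.ord_pow, ht]
      omega
  | add a b ha hb =>
    obtain ⟨m, hm⟩ := ha
    obtain ⟨n, hn⟩ := hb
    refine ⟨m + n, ?_⟩
    have e : (1 ⊗ₜ[k] t : V.A ⊗[k] K) ^ (m + n) * (a + b) =
      (1 ⊗ₜ[k] t) ^ n * ((1 ⊗ₜ[k] t) ^ m * a) + (1 ⊗ₜ[k] t) ^ m * ((1 ⊗ₜ[k] t) ^ n * b) := by ring
    rw [e]
    exact add_mem (mul_mem (pow_mem h1 _) hm) (mul_mem (pow_mem h1 _) hn)

/-- ROW RA: elements of `O ⊗ O_y` at a point over `y` -/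
lemma T_val {y : Place k K} {P : Place L (BC k K L)} (hP : V.red P = y) {a : V.A ⊗[k] K}
    (ha : a ∈ V.T y) : 0 ≤ P.ord (V.emb K a) ∧ 0 ≤ y.ord (V.rho K a) ∧
      V.O.valuation (P.val (V.emb K a) - algebraMap k L (y.val (V.rho K a))) < 1 := by
  obtain ⟨a, rfl⟩ := ha
  subst hP
  induction a using TensorProduct.induction_on with
  | zero => simp only [AlgHom.toRingHom_eq_coe, RingHom.coe_coe, map_zero, Place.ord_zero, Std.le_refl, Place.val_zero, sub_self, zero_lt_one, and_self]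
  | tmul x f =>
    have hf := Place.mem_O'.1 f.2
    have h1 := ((V.red_iff P f).1 hf).1
    change 0 ≤ P.ord (V.emb K (x ⊗ₜ[k] f.1)) ∧ 0 ≤ (V.red P).ord (V.rho K (x ⊗ₜ[k] f.1)) ∧
      V.O.valuation (P.val (V.emb K (x ⊗ₜ[k] f.1)) -
        algebraMap k L ((V.red P).val (V.rho K (x ⊗ₜ[k] f.1)))) < 1
    rw [RA_emb, RA_rho, Place.val_mul (by simp) h1, Place.val_mul (by simp) hf, Place.val_const,
      Place.val_const]
    exact ⟨Place.ord_mul_nonneg (by simp) h1, Place.ord_mul_nonneg (by simp) hf,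
      V.RA_mul x.2 (V.rs_spec x) (V.red_val P f hf)⟩
  | add a b ha hb =>
    simp only [map_add] at ha hb ⊢
    rw [Place.val_add ha.1 hb.1, Place.val_add ha.2.1 hb.2.1]
    exact ⟨Place.ord_add_nonneg ha.1 hb.1, Place.ord_add_nonneg ha.2.1 hb.2.1, V.RA_add ha.2.2 hb.2.2⟩

omit [IsAlgClosed L] in
lemma RB_emb_tmul (x : V.A) (f : K) :
    V.emb K (x ⊗ₜ[k] f) = algebraMap L (BC k K L) x.1 * iK L f := by
  have h : (x.1 ⊗ₜ[k] f : L ⊗[k] K) = algebraMap L (L ⊗[k] K) x.1 * (1 ⊗ₜ[k] f) := by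
    simp [Algebra.TensorProduct.algebraMap_apply, Algebra.TensorProduct.tmul_mul_tmul]
  change algebraMap (L ⊗[k] K) (BC k K L) (x.1 ⊗ₜ[k] f) = _
  rw [h, map_mul, ← IsScalarTower.algebraMap_apply]
  rfl

/-- evaluation at a point over `y` -/
noncomputable def RB_phi {y : Place k K} {P : Place L (BC k K L)} (hP : V.red P = y) :
    y.O →ₐ[k] V.A :=
  have h : ∀ f : y.O, 0 ≤ P.ord (iK L f.1) ∧ P.val (iK L f.1) ∈ V.O := fun f =>
    (V.red_iff P f.1).1 (by rw [hP]; exact Place.mem_O'.1 f.2)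
  { toFun := fun f => ⟨P.val (iK L f.1), (h f).2⟩
    map_one' := Subtype.ext (by simp only [OneMemClass.coe_one, map_one, Place.val_one])
    map_zero' := Subtype.ext (by simp only [ZeroMemClass.coe_zero, map_zero, Place.val_zero])
    map_mul' := fun f g => Subtype.ext (by simpa only [MulMemClass.coe_mul, map_mul] using Place.val_mul (h f).1 (h g).1)
    map_add' := fun f g => Subtype.ext (by simpa only [AddMemClass.coe_add, map_add] using Place.val_add (h f).1 (h g).1)
    commutes' := fun c => Subtype.ext (by simp [iK_alg]) }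

/-- ROW RB (Nakayama): near `y` the ideal of the point `P` is generated by `t - t(P)`. -/
lemma delta {y : Place k K} {P : Place L (BC k K L)} (hP : V.red P = y) {t : K}
    (ht : y.ord t = 1) {a : V.A ⊗[k] K} (ha : a ∈ V.T y) (h0 : P.val (V.emb K a) = 0) :
    ∃ s ∈ V.T y, ∃ c ∈ V.T y, y.val (V.rho K s) ≠ 0 ∧
      V.emb K s * V.emb K a = dl P t * V.emb K c := by
  obtain ⟨a, rfl⟩ := ha
  obtain ⟨S, hS, H⟩ := O_essfin y
  set ι := Algebra.TensorProduct.map (AlgHom.id k V.A) y.O.val with hι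
  have hφ : ∀ f : y.O, ((V.RB_phi hP f : V.A) : L) = P.val (iK L f.1) := fun _ => rfl
  have hO : ∀ f : y.O, 0 ≤ y.ord f.1 := fun f => Place.mem_O'.1 f.2
  have ht0 : t ≠ 0 := Place.ne_zero_of_ord (x := y) (by omega)
  have hT : ∀ z, ι z ∈ V.T y := fun z => ⟨z, rfl⟩
  have he : ∀ z, P.val (V.emb K (ι z)) = ((Algebra.TensorProduct.productMap (AlgHom.id k V.A)
      (V.RB_phi hP) z : V.A) : L) := fun z => by
    induction z using TensorProduct.induction_on with
    | zero => simp only [map_zero, Place.val_zero, ZeroMemClass.coe_zero]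
    | tmul x f =>
      have h1 := ((V.red_iff P f.1).1 (by rw [hP]; exact hO f)).1
      simp only [hι, Algebra.TensorProduct.map_tmul, AlgHom.coe_id, id_eq, Subalgebra.coe_val, RB_emb_tmul, Place.ord_const, Std.le_refl, Place.val_mul _ h1, Place.val_const, Algebra.TensorProduct.productMap_apply_tmul, MulMemClass.coe_mul, hφ]
    | add p q hp hq =>
      rw [map_add, map_add, Place.val_add (V.T_val hP (hT p)).1 (V.T_val hP (hT q)).1, hp, hq,
        map_add, AddMemClass.coe_add]
  have hw : ∀ z, y.val (V.rho K (ι z)) = Algebra.TensorProduct.productMap V.rs y.valHom z :=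
    fun z => by
    induction z using TensorProduct.induction_on with
    | zero => simp only [map_zero, Place.val_zero]
    | tmul x f => simp [hι, rho, Place.val_mul _ (hO f), Place.valHom_apply]
    | add p q hp hq =>
      rw [map_add, map_add, Place.val_add (V.T_val hP (hT p)).2.1 (V.T_val hP (hT q)).2.1, hp,
        hq, map_add]
  have hadj : ∀ b ∈ Algebra.adjoin k (S : Set K),
      ∃ b' ∈ Algebra.adjoin k (y.O.val ⁻¹' (S : Set K)), b'.1 = b := fun b hb => by
    have h1 : (S : Set K) = y.O.val '' (y.O.val ⁻¹' (S : Set K)) :=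
      (Set.image_preimage_eq_of_subset fun f hf => ⟨⟨f, Place.mem_O'.2 (hS f hf)⟩, rfl⟩).symm
    rw [h1, ← AlgHom.map_adjoin] at hb
    exact hb
  obtain ⟨s, c, hs, hc⟩ := RB_nak V.rs
    (fun x hx => by
      have h1 := (V.rs_ne_zero x).1 hx
      have h2 : x.1 ≠ 0 := fun h => by simp only [h, map_zero, zero_ne_one] at h1
      refine IsUnit.of_mul_eq_one ⟨x.1⁻¹, ?_⟩ (Subtype.ext (mul_inv_cancel₀ h2))
      exact V.O.mem_of_valuation_le_one _ (by rw [map_inv₀, h1, inv_one]))
    y.valHom ⟨t, Place.mem_O'.2 (by omega)⟩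
    ((Place.val_eq_zero (by simp [ht])).2 (.inr (by simp [ht])))
    (fun f hf => by
      refine ⟨⟨f.1 / t, Place.mem_O'.2 ?_⟩, Subtype.ext (mul_div_cancel₀ f.1 ht0).symm⟩
      rcases (Place.val_eq_zero (hO f)).1 hf with h | h
      · simp [h]
      · rw [Place.ord_div (Place.ne_zero_of_ord (x := y) (by omega)) ht0]; omega)
    (V.RB_phi hP)
    (fun f => by
      have h1 := V.red_val P f.1 (by rw [hP]; exact hO f)
      rw [hP] at h1
      have h2 : V.rs (V.RB_phi hP f - algebraMap k V.A (y.val f.1)) = 0 := by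
        by_contra h
        exact h1.ne ((V.rs_ne_zero _).1 h)
      rw [map_sub, AlgHom.commutes, sub_eq_zero] at h2
      exact h2)
    (y.O.val ⁻¹' (S : Set K)) (S.finite_toSet.preimage Subtype.val_injective.injOn)
    (fun f => by
      obtain ⟨b, hb, s, hs, hs0, hfs⟩ := H f.1 (hO f)
      obtain ⟨b, hb', rfl⟩ := hadj b hb
      obtain ⟨s, hs', rfl⟩ := hadj s hs
      exact ⟨b, hb', s, hs', hs0, Subtype.ext hfs⟩)
    a (Subtype.ext (by rw [← he]; exact h0))
  refine ⟨ι s, hT s, ι c, hT c, by rw [hw, hs]; exact one_ne_zero, ?_⟩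
  have h1 := congrArg (fun z => V.emb K (ι z)) hc
  simp only [map_mul, map_sub] at h1
  refine h1.trans ?_
  simp [hι, RB_emb_tmul, dl, hφ]

lemma RC_dl {y : Place k K} {P : Place L (BC k K L)} (hP : V.red P = y) {t : K}
    (ht : y.ord t = 1) : dl P t ≠ 0 ∧ 0 < P.ord (dl P t) := by
  have h0 : dl P t ≠ 0 := fun h => by
    have h1 := ord_cst L y t
    rw [sub_eq_zero.1 h, Place.ord_const] at h1
    omega
  exact ⟨h0, (Place.v_lt_one.1 (Place.val_spec ((V.red_iff P t).1 (by rw [hP]; omega)).1)).resolve_left h0⟩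

lemma RC_unit {y : Place k K} {P : Place L (BC k K L)} (hP : V.red P = y) {s : V.A ⊗[k] K}
    (hs : s ∈ V.T y) (h0 : y.val (V.rho K s) ≠ 0) :
    V.emb K s ≠ 0 ∧ P.ord (V.emb K s) = 0 := by
  refine Place.val_ne_zero.1 fun h => ?_
  have h1 := (V.T_val hP hs).2.2
  rw [h, zero_sub, Valuation.map_neg] at h1
  have h2 := (V.O.valuation_le_one_iff _).2 (V.const (y.val (V.rho K s))⁻¹)
  have h3 := mul_lt_one_of_lt_of_le h1 h2
  rw [← map_mul, ← map_mul, mul_inv_cancel₀ h0, map_one, map_one] at h3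
  exact lt_irrefl _ h3

lemma RC_step {y : Place k K} {P Q : Place L (BC k K L)} (hP : V.red P = y) (hQ : V.red Q = y)
    {t : K} (ht : y.ord t = 1) {a : V.A ⊗[k] K} (ha : a ∈ V.T y) (h0 : V.emb K a ≠ 0)
    (h1 : P.ord (V.emb K a) ≠ 0) : ∃ c ∈ V.T y, V.emb K c ≠ 0 ∧
      P.ord (V.emb K a) = P.ord (dl P t) + P.ord (V.emb K c) ∧
      Q.ord (V.emb K a) = Q.ord (dl P t) + Q.ord (V.emb K c) := by
  obtain ⟨s, hs, c, hc, e0, e1⟩ := V.delta hP ht ha
    (by by_contra h; exact h1 (Place.val_ne_zero.1 h).2)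
  have a1 := V.RC_unit hP hs e0
  have a2 := V.RC_unit hQ hs e0
  have a3 := (V.RC_dl hP ht).1
  have a4 : V.emb K c ≠ 0 := fun h => mul_ne_zero a1.1 h0 (by rw [e1, h, mul_zero])
  refine ⟨c, hc, a4, ?_, ?_⟩
  · rw [← Place.ord_mul a3 a4, ← e1, Place.ord_mul a1.1 h0, a1.2, zero_add]
  · rw [← Place.ord_mul a3 a4, ← e1, Place.ord_mul a1.1 h0, a2.2, zero_add]

lemma RC_fac {y : Place k K} {P Q : Place L (BC k K L)} (hP : V.red P = y) (hQ : V.red Q = y)
    {t : K} (ht : y.ord t = 1) (h : dl P t = dl Q t) (n : ℕ) : ∀ a ∈ V.T y, V.emb K a ≠ 0 →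
      P.ord (V.emb K a) < n → ∃ m : ℤ, P.ord (V.emb K a) = m * P.ord (dl P t) ∧
        Q.ord (V.emb K a) = m * Q.ord (dl P t) := by
  have hd := (V.RC_dl hP ht).2
  induction n with
  | zero => intro a ha _ h1; have := (V.T_val hP ha).1; omega
  | succ n ih =>
    intro a ha h0 h1
    by_cases h2 : P.ord (V.emb K a) = 0
    · refine ⟨0, by rw [h2, zero_mul], ?_⟩
      rw [zero_mul]
      by_contra h3
      obtain ⟨c, hc, -, -, e⟩ := V.RC_step hQ hP ht ha h0 h3
      have := (V.T_val hP hc).1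
      rw [← h] at e
      omega
    · obtain ⟨c, hc, c0, e1, e2⟩ := V.RC_step hP hQ ht ha h0 h2
      obtain ⟨m, m1, m2⟩ := ih c hc c0 (by omega)
      exact ⟨m + 1, by rw [e1, m1]; ring, by rw [e2, m2]; ring⟩

lemma RC_all {y : Place k K} {P Q : Place L (BC k K L)} (hP : V.red P = y) (hQ : V.red Q = y)
    {t : K} (ht : y.ord t = 1) (h : dl P t = dl Q t) (F : BC k K L) (hF : F ≠ 0) :
    ∃ m : ℤ, P.ord F = m * P.ord (dl P t) ∧ Q.ord F = m * Q.ord (dl P t) := by
  have ne : ∀ a, a ≠ 0 → V.emb K a ≠ 0 := fun a ha => (map_ne_zero_iff _ V.emb_inj).2 ha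
  have h1 : ∀ a ∈ V.T y, V.emb K a ≠ 0 → ∃ m : ℤ, P.ord (V.emb K a) = m * P.ord (dl P t) ∧
      Q.ord (V.emb K a) = m * Q.ord (dl P t) := fun a ha h0 =>
    V.RC_fac hP hQ ht h ((P.ord (V.emb K a)).toNat + 1) a ha h0 (by omega)
  have t0 : V.emb K (1 ⊗ₜ[k] t) ≠ 0 := ne _ fun h0 => by
    have := congrArg (V.rho K) h0
    rw [map_zero, rho, Algebra.TensorProduct.productMap_apply_tmul, map_one, one_mul] at this
    exact Place.ne_zero_of_ord (x := y) (f := t) (by omega) this
  obtain ⟨j, j1, j2⟩ := h1 (1 ⊗ₜ[k] t) ⟨1 ⊗ₜ[k] ⟨t, Place.mem_O'.2 (by omega)⟩, rfl⟩ t0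
  have h2 : ∀ a, V.rho K a ≠ 0 → V.emb K a ≠ 0 ∧ ∃ m : ℤ,
      P.ord (V.emb K a) = m * P.ord (dl P t) ∧ Q.ord (V.emb K a) = m * Q.ord (dl P t) := by
    intro a ha
    have a0 := ne a fun h0 => ha (by rw [h0, map_zero])
    obtain ⟨i, hi⟩ := V.exists_T y t ht a
    obtain ⟨m, m1, m2⟩ := h1 _ hi (by rw [map_mul, map_pow]; exact mul_ne_zero (pow_ne_zero _ t0) a0)
    rw [map_mul, map_pow, Place.ord_mul (pow_ne_zero _ t0) a0, Place.ord_pow] at m1 m2
    exact ⟨a0, m - i * j, by linear_combination m1 - i * j1, by linear_combination m2 - i * j2⟩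
  obtain ⟨c, a, b, hc, ha, hb, e⟩ := V.exists_prim F hF
  obtain ⟨a0, m, m1, m2⟩ := h2 a ha
  obtain ⟨b0, n, n1, n2⟩ := h2 b hb
  have c0 : algebraMap L (BC k K L) c ≠ 0 := (map_ne_zero _).2 hc
  have e1 := congrArg P.ord e
  have e2 := congrArg Q.ord e
  rw [Place.ord_mul hF b0, Place.ord_mul c0 a0, Place.ord_const] at e1 e2
  exact ⟨m - n, by linear_combination e1 + m1 - n1, by linear_combination e2 + m2 - n2⟩

/-- ROW RC -/
lemma ord_dl {y : Place k K} {P : Place L (BC k K L)} (hP : V.red P = y) {t : K}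
    (ht : y.ord t = 1) : P.ord (dl P t) = 1 := by
  obtain ⟨F, hF, h1⟩ := P.exists_ord 1
  obtain ⟨m, hm, -⟩ := V.RC_all hP hP ht rfl F hF
  exact Int.eq_one_of_mul_eq_one_left (V.RC_dl hP ht).2.le (hm.symm.trans h1)

/-- ROW RC: `t` separates the points over `y`. -/
lemma val_ne {y : Place k K} {P Q : Place L (BC k K L)} (hP : V.red P = y) (hQ : V.red Q = y)
    {t : K} (ht : y.ord t = 1) (h : P.val (iK L t) = Q.val (iK L t)) : P = Q := by
  have hd : dl P t = dl Q t := by rw [dl, dl, h]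
  refine Place.ext_ord fun F => ?_
  by_cases hF : F = 0
  · simp [hF]
  obtain ⟨m, m1, m2⟩ := V.RC_all hP hQ ht hd F hF
  rw [m1, m2, V.ord_dl hP ht, hd, V.ord_dl hQ ht]

lemma RD_unit {y : Place k K} {P : Place L (BC k K L)} (hP : V.red P = y) {s : V.A ⊗[k] K}
    (hs : s ∈ V.T y) (h : y.val (V.rho K s) ≠ 0) : V.emb K s ≠ 0 ∧ P.ord (V.emb K s) = 0 := by
  refine Place.val_ne_zero.1 fun h0 => ?_
  have h1 := (V.T_val hP hs).2.2
  have h2 := (V.rs_ne_zero (algebraMap k V.A (y.val (V.rho K s)))).1 (by simpa using h)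
  rw [h0, zero_sub, Valuation.map_neg] at h1
  exact h1.ne h2

lemma RD_ord {y : Place k K} {P Q : Place L (BC k K L)} (hP : V.red P = y) (hQ : V.red Q = y)
    {t : K} (ht : y.ord t = 1) (h : P ≠ Q) : P.ord (dl Q t) = 0 := by
  refine (Place.val_ne_zero.1 fun h0 => h (V.val_ne hP hQ ht ?_)).2
  rw [dl, Place.val_sub ((V.red_iff P t).1 (by rw [hP, ht]; norm_num)).1 (by simp),
    Place.val_const] at h0
  exact sub_eq_zero.1 h0

lemma RD_lift {y : Place k K} {Q : Place L (BC k K L)} (hQ : V.red Q = y) {t : K}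
    (ht : y.ord t = 1) : ∃ e, V.emb K e = dl Q t ∧ V.rho K e = t := by
  have h1 : 0 ≤ (V.red Q).ord t := by rw [hQ, ht]; norm_num
  have h2 := V.red_val Q t h1
  rw [hQ, (Place.val_eq_zero (x := y) (f := t) (by omega)).2 (Or.inr (by omega)), map_zero,
    sub_zero] at h2
  have h3 : V.rs ⟨Q.val (iK L t), ((V.red_iff Q t).1 h1).2⟩ = 0 :=
    by_contra fun h => h2.ne ((V.rs_ne_zero _).1 h)
  refine ⟨1 ⊗ₜ t - (⟨Q.val (iK L t), ((V.red_iff Q t).1 h1).2⟩ : V.A) ⊗ₜ 1, ?_, ?_⟩
  · rw [map_sub]; rfl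
  · simp [rho, h3]

open Classical in
lemma RD_map (E : Div L (BC k K L)) (y : Place k K) :
    Finsupp.mapDomain V.red E y = deg (E.filter (V.red · = y)) := by
  rw [deg_eq_sum' (S := E.support)
      (by rw [Finsupp.support_filter]; exact Finset.filter_subset _ _),
    Finsupp.mapDomain, Finsupp.sum_apply, Finsupp.sum]
  exact Finset.sum_congr rfl fun Q _ => by rw [Finsupp.single_apply, Finsupp.filter_apply]

open Classical in
/-- ROW RD: division by all zeros over `y`. -/
lemma divide {y : Place k K} {t : K} (ht : y.ord t = 1) {a : V.A ⊗[k] K} (ha : a ∈ V.T y)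
    (h0 : V.rho K a ≠ 0) : ∃ s ∈ V.T y, ∃ c ∈ V.T y, y.val (V.rho K s) ≠ 0 ∧
      V.emb K s * V.emb K a = V.emb K c *
        ((dv L (V.emb K a)).filter (V.red · = y)).prod (fun Q m => dl Q t ^ m) ∧
      V.rho K c ≠ 0 ∧ y.ord (V.rho K a) =
        Finsupp.mapDomain V.red (dv L (V.emb K a)) y + y.ord (V.rho K c) := by
  rw [RD_map]
  have nn : ∀ a ∈ V.T y, 0 ≤ (dv L (V.emb K a)).filter (V.red · = y) := fun a ha Q => by
    rw [Finsupp.filter_apply, dv_apply]
    split_ifs with h
    exacts [(V.T_val h ha).1, le_rfl]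
  have ne : ∀ a, V.rho K a ≠ 0 → V.emb K a ≠ 0 := fun a h h' =>
    h (by rw [V.emb_inj (h'.trans (map_zero _).symm), map_zero])
  obtain ⟨n, hn⟩ := Int.eq_ofNat_of_zero_le (deg_nonneg (nn a ha))
  induction n generalizing a with
  | zero =>
    refine ⟨1, one_mem _, a, ha, by simp, ?_, h0, by simp [hn]⟩
    rw [← eq_of_le_of_deg (nn a ha) (by simp [hn])]
    simp
  | succ n ih =>
    obtain ⟨Q, hQ⟩ : ∃ Q, ((dv L (V.emb K a)).filter (V.red · = y)) Q ≠ 0 := by
      by_contra h
      push Not at h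
      rw [Finsupp.ext (g := 0) h] at hn
      simp at hn
      omega
    have h1 := nn a ha Q
    rw [Finsupp.filter_apply, dv_apply] at hQ h1
    have hy : V.red Q = y := by_contra fun h => hQ (if_neg h)
    rw [if_pos hy] at hQ h1
    obtain ⟨s, hs, c, hc, s0, e⟩ := V.delta hy ht ha
      ((Place.val_eq_zero h1).2 (Or.inr (lt_of_le_of_ne h1 hQ.symm)))
    obtain ⟨d, d1, d2⟩ := V.RD_lift hy ht
    have e' : V.rho K s * V.rho K a = t * V.rho K c := by
      rw [← d2, ← map_mul, ← map_mul, V.emb_inj (a₁ := s * a) (a₂ := d * c)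
        (by rw [map_mul, map_mul, d1, e])]
    obtain ⟨s1, s2⟩ := Place.val_ne_zero.1 s0
    have c0 : V.rho K c ≠ 0 := right_ne_zero_of_mul (e' ▸ mul_ne_zero s1 h0)
    have o1 := congrArg y.ord e'
    rw [Place.ord_mul s1 h0, Place.ord_mul (Place.ne_zero_of_ord (x := y) (by omega)) c0] at o1
    have dn : ∀ P, V.red P = y → dl P t ≠ 0 := fun P h =>
      Place.ne_zero_of_ord (x := P) (by rw [V.ord_dl h ht]; norm_num)
    have hD : (dv L (V.emb K a)).filter (V.red · = y) =
        (dv L (V.emb K c)).filter (V.red · = y) + Finsupp.single Q 1 := by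
      ext P
      rw [Finsupp.add_apply, Finsupp.filter_apply, Finsupp.filter_apply, dv_apply, dv_apply,
        Finsupp.single_apply]
      by_cases h : V.red P = y
      · have o2 := congrArg P.ord e
        rw [Place.ord_mul (V.RD_unit h hs s0).1 (ne a h0), (V.RD_unit h hs s0).2,
          Place.ord_mul (dn Q hy) (ne c c0)] at o2
        rw [if_pos h, if_pos h]
        split_ifs with h'
        · rw [← h', V.ord_dl hy ht] at o2
          rw [← h']; omega
        · rw [V.RD_ord h hy ht (Ne.symm h')] at o2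
          omega
      · rw [if_neg h, if_neg h, if_neg (by rintro rfl; exact h hy), add_zero]
    rw [hD, map_add, deg_single] at hn ⊢
    obtain ⟨s', hs', c', hc', t0, f, f0, f1⟩ := ih hc c0 (by push_cast at hn; omega)
    obtain ⟨t1, t2⟩ := Place.val_ne_zero.1 t0
    refine ⟨s' * s, mul_mem hs' hs, c', hc', ?_, ?_, f0, by omega⟩
    · rw [map_mul]
      exact Place.val_ne_zero.2 ⟨mul_ne_zero t1 s1, by rw [Place.ord_mul t1 s1, t2, s2, add_zero]⟩
    · rw [Finsupp.prod_add_index (fun _ _ => zpow_zero _) fun P hP m m' => zpow_add₀ (dn P ?_) m m',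
        Finsupp.prod_single_index (zpow_zero _), zpow_one, map_mul, mul_assoc, e, mul_left_comm, f]
      · ring
      · rcases Finset.mem_union.1 hP with h | h
        · rw [Finsupp.support_filter] at h
          exact (Finset.mem_filter.1 h).2
        · rwa [Finset.mem_singleton.1 (Finsupp.support_single_subset h)]

open Classical in
/-- `∏ (t(P) - t(Q)) ^ E(Q)` over the points `Q ≠ P` over `y` -/
noncomputable def J (y : Place k K) (t : K) (P : Place L (BC k K L)) (E : Div L (BC k K L)) : L :=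
  E.prod fun Q m => if V.red Q = y ∧ Q ≠ P then (P.val (iK L t) - Q.val (iK L t)) ^ m else 1

/-- ROW RE -/
lemma J_ne {y : Place k K} {t : K} (ht : y.ord t = 1) {P : Place L (BC k K L)} (hP : V.red P = y)
    (E : Div L (BC k K L)) : V.J y t P E ≠ 0 := by
  refine Finset.prod_ne_zero_iff.2 fun Q _ => ?_
  beta_reduce
  split_ifs with h
  · exact zpow_ne_zero _ (sub_ne_zero.2 fun e => h.2 (V.val_ne hP h.1 ht e).symm)
  · exact one_ne_zero

/-- ROW RE -/
lemma J_add {y : Place k K} {t : K} (ht : y.ord t = 1) {P : Place L (BC k K L)} (hP : V.red P = y)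
    (E E' : Div L (BC k K L)) : V.J y t P (E + E') = V.J y t P E * V.J y t P E' := by
  refine Finsupp.prod_add_index' (fun Q => by simp) fun Q a b => ?_
  split_ifs with h
  · exact zpow_add₀ (sub_ne_zero.2 fun e => h.2 (V.val_ne hP h.1 ht e).symm) _ _
  · exact (mul_one _).symm

lemma RE_zero {y : Place k K} {t : K} {P : Place L (BC k K L)} {E : Div L (BC k K L)}
    (h : ∀ Q, V.red Q = y → Q ≠ P → E Q = 0) : V.J y t P E = 1 := by
  refine Finset.prod_eq_one fun Q _ => ?_
  beta_reduce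
  split_ifs with h'
  · rw [h Q h'.1 h'.2, zpow_zero]
  · rfl

/-- the leading coefficient has the valuation of `c * J` -/
def RE_P (y : Place k K) (t : K) (P : Place L (BC k K L)) (c : L) (F : BC k K L) : Prop :=
  F ≠ 0 ∧ V.O.valuation (lc P (dl P t) F) = V.O.valuation (c * V.J y t P (dv L F))

section
variable {V} {y : Place k K} {t : K} {P : Place L (BC k K L)} (ht : y.ord t = 1)
  (hP : V.red P = y) {c d : L} {F G : BC k K L}
include ht hP

lemma RE_mul (h : V.RE_P y t P c F) (h' : V.RE_P y t P d G) : V.RE_P y t P (c * d) (F * G) := by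
  refine ⟨mul_ne_zero h.1 h'.1, ?_⟩
  rw [lc_mul (V.ord_dl hP ht) h.1 h'.1, map_mul, h.2, h'.2, dv_mul h.1 h'.1, V.J_add ht hP,
    ← map_mul, mul_mul_mul_comm]

lemma RE_cancel (h : V.RE_P y t P c (F * G)) (h' : V.RE_P y t P 1 G) : V.RE_P y t P c F := by
  have h0 := left_ne_zero_of_mul h.1
  have h2 := h.2
  rw [lc_mul (V.ord_dl hP ht) h0 h'.1, map_mul, h'.2, dv_mul h0 h'.1, V.J_add ht hP, one_mul,
    ← mul_assoc, map_mul V.O.valuation (c * _)] at h2
  exact ⟨h0, mul_right_cancel₀ ((map_ne_zero _).2 (V.J_ne ht hP _)) h2⟩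

omit ht hP in
lemma RE_const (hc : c ≠ 0) : V.RE_P y t P c (algebraMap L _ c) :=
  ⟨(map_ne_zero _).2 hc, by rw [lc_const, dv_const, V.RE_zero fun _ _ _ => rfl, mul_one]⟩

lemma RE_zpow (h : V.RE_P y t P 1 F) (m : ℤ) : V.RE_P y t P 1 (F ^ m) := by
  have h1 : V.RE_P y t P 1 1 := by simpa only [map_one] using RE_const (V := V) (y := y) (t := t) (P := P) one_ne_zero
  have h2 : ∀ n : ℕ, V.RE_P y t P 1 (F ^ n) := fun n => by
    induction n with
    | zero => rwa [pow_zero]
    | succ n ih => simpa only [pow_succ, mul_one] using RE_mul ht hP ih h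
  cases m with
  | ofNat n => simpa using h2 n
  | negSucc n =>
    rw [zpow_negSucc]
    exact RE_cancel ht hP (by rwa [inv_mul_cancel₀ (h2 _).1]) (h2 (n + 1))

lemma RE_dl {Q : Place L (BC k K L)} (hQ : V.red Q = y) : V.RE_P y t P 1 (dl Q t) := by
  have h0 : ∀ R, V.red R = y → 0 ≤ R.ord (iK L t) := fun R hR =>
    ((V.red_iff R t).1 (by rw [hR]; omega)).1
  have h1 : ∀ R, V.red R = y → R.val (dl Q t) = R.val (iK L t) - Q.val (iK L t) := fun R hR => by
    rw [dl, Place.val_sub (h0 R hR) (by simp), Place.val_const]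
  have h2 : ∀ R, V.red R = y → R ≠ Q → R.ord (dl Q t) = 0 := fun R hR hne =>
    (Place.val_ne_zero.1 (by rw [h1 R hR, sub_ne_zero]; exact fun e => hne (V.val_ne hR hQ ht e))).2
  have h3 := V.ord_dl hQ ht
  refine ⟨Place.ne_zero_of_ord (x := Q) (by omega), congrArg _ ?_⟩
  rw [one_mul]
  by_cases h : Q = P
  · subst h
    rw [lc_self h3, V.RE_zero fun R hR hne => by rw [dv_apply, h2 R hR hne]]
  · rw [lc_unit (h2 P hP (Ne.symm h)), h1 P hP,
      ← sub_add_cancel (dv L (dl Q t)) (Finsupp.single Q 1), V.J_add ht hP, V.RE_zero, one_mul, J,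
      Finsupp.prod_single_index (by simp), if_pos ⟨hQ, h⟩, zpow_one]
    intro R hR _
    by_cases e : R = Q
    · simp [e, h3]
    · simp [h2 R hR e, Finsupp.single_eq_of_ne e]

omit ht in
lemma RE_unit {s : V.A ⊗[k] K} (hs : s ∈ V.T y) (h0 : y.val (V.rho K s) ≠ 0) :
    V.RE_P y t P 1 (V.emb K s) := by
  have h1 := V.RC_unit hP hs h0
  refine ⟨h1.1, ?_⟩
  rw [lc_unit h1.2, V.RE_zero fun R hR _ => by rw [dv_apply, (V.RC_unit hR hs h0).2], mul_one,
    map_one]
  have h2 := (V.O.valuation_le_one_iff _).2 (V.const (y.val (V.rho K s))⁻¹)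
  have h3 := (V.O.valuation_le_one_iff _).2 (V.const (y.val (V.rho K s)))
  have h4 : V.O.valuation (algebraMap k L (y.val (V.rho K s))) = 1 := by
    refine le_antisymm h3 ?_
    rwa [map_inv₀, map_inv₀, inv_le_one₀ (zero_lt_iff.2 (by simpa only [ne_eq, map_eq_zero] using h0))] at h2
  rw [← h4]
  exact Valuation.map_eq_of_sub_lt _ (h4 ▸ (V.T_val hP hs).2.2)

end

lemma RE_t (t : K) : V.emb K (1 ⊗ₜ[k] t) = iK L t ∧ V.rho K (1 ⊗ₜ[k] t) = t :=
  ⟨rfl, by rw [rho, Algebra.TensorProduct.productMap_apply_tmul, map_one, one_mul]; rfl⟩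

lemma RE_red (a : V.A ⊗[k] K) (ha : V.rho K a ≠ 0) :
    Finsupp.mapDomain V.red (dv L (V.emb K a)) = dv k (V.rho K a) := by
  have hd : ∀ E : Div L (BC k K L), deg (Finsupp.mapDomain V.red E) = deg E := fun E => by
    induction E using Finsupp.induction_linear with
    | zero => simp
    | add a b ha hb => rw [Finsupp.mapDomain_add, map_add, map_add, ha, hb]
    | single a b => rw [Finsupp.mapDomain_single, deg_single, deg_single]
  refine eq_of_le_of_deg (fun y => ?_) (by rw [hd, deg_dv, deg_dv])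
  obtain ⟨t, t0, ht⟩ := y.exists_ord 1
  obtain ⟨m, hm⟩ := V.exists_T y t ht a
  have a0 : V.emb K a ≠ 0 := (map_ne_zero_iff _ V.emb_inj).2 fun h => ha (by rw [h, map_zero])
  have p0 := pow_ne_zero m t0
  obtain ⟨s, -, c, hc, -, -, -, e⟩ := V.divide ht hm
    (by rw [map_mul, map_pow, (V.RE_t t).2]; exact mul_ne_zero p0 ha)
  have h1 := (V.T_val (V.red_cst y) hc).2.1
  have h2 : Finsupp.mapDomain V.red (dv L (iK (k := k) L t)) = dv k t := by
    rw [dv_iK, bc, Finsupp.mapDomain.addMonoidHom_apply, ← Finsupp.mapDomain_comp,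
      show V.red ∘ cst L = id from funext V.red_cst, Finsupp.mapDomain_id]
  rw [map_mul, map_pow, map_mul, map_pow, (V.RE_t t).1, (V.RE_t t).2, Place.ord_mul p0 ha,
    dv_mul (pow_ne_zero _ ((map_ne_zero _).2 t0)) a0, dv_pow, Finsupp.mapDomain_add,
    Finsupp.mapDomain_smul, h2] at e
  simp only [Place.ord_pow, Finsupp.add_apply, Finsupp.smul_apply, dv_apply, nsmul_eq_mul] at e
  rw [dv_apply]
  omega

lemma RE_prim {y : Place k K} {t : K} {P : Place L (BC k K L)} (ht : y.ord t = 1)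
    (hP : V.red P = y) (a : V.A ⊗[k] K) (ha : V.rho K a ≠ 0) : V.RE_P y t P 1 (V.emb K a) := by
  classical
  obtain ⟨m, hm⟩ := V.exists_T y t ht a
  have t0 : t ≠ 0 := Place.ne_zero_of_ord (x := y) (by omega)
  have h0 : V.rho K ((1 ⊗ₜ[k] t) ^ m * a) ≠ 0 := by
    rw [map_mul, map_pow, (V.RE_t t).2]; exact mul_ne_zero (pow_ne_zero m t0) ha
  obtain ⟨s, hs, c, hc, s0, e1, c0, e2⟩ := V.divide ht hm h0
  rw [V.RE_red _ h0, dv_apply] at e2
  have h1 := RE_unit (t := t) hP hc (Place.val_ne_zero.2 ⟨c0, by omega⟩)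
  have h2 : V.RE_P y t P 1 (iK L t) := by
    have := RE_dl ht hP (V.red_cst y)
    rwa [dl, val_cst L y t (by omega), (Place.val_eq_zero (by omega)).2 (Or.inr (by omega)),
      map_zero, map_zero, sub_zero] at this
  have h3 := RE_mul ht hP h1 (Finset.prod_induction (p := V.RE_P y t P 1)
    (s := ((dv L (V.emb K ((1 ⊗ₜ[k] t) ^ m * a))).filter (V.red · = y)).support)
    (fun Q => dl Q t ^ ((dv L (V.emb K ((1 ⊗ₜ[k] t) ^ m * a))).filter (V.red · = y)) Q)
    (fun _ _ h h' => by simpa only [mul_one] using RE_mul ht hP h h')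
    (by simpa only [zpow_zero] using RE_zpow ht hP h2 0)
    fun Q hQ => RE_zpow ht hP (RE_dl ht hP (by
      rw [Finsupp.support_filter] at hQ; exact (Finset.mem_filter.1 hQ).2)) _)
  rw [mul_one] at h3
  have h4 : V.RE_P y t P 1 (V.emb K a * iK L t ^ (m : ℤ) * V.emb K s) := by
    rw [zpow_natCast, mul_comm (V.emb K a), mul_comm _ (V.emb K s), ← (V.RE_t t).1, ← map_pow,
      ← map_mul _ _ a, e1]
    exact h3
  exact RE_cancel ht hP (RE_cancel ht hP h4 (RE_unit hP hs s0)) (RE_zpow ht hP h2 m)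

/-- ROW RE: the valuation of a leading coefficient is a sum of local distances. -/
theorem red_main (F : BC k K L) (hF : F ≠ 0) : ∃ c : L, c ≠ 0 ∧ ∀ (y : Place k K) (t : K),
    y.ord t = 1 → ∀ P : Place L (BC k K L), V.red P = y →
      V.O.valuation (lc P (dl P t) F) = V.O.valuation (c * V.J y t P (dv L F)) := by
  obtain ⟨c, a, b, hc, ha, hb, e⟩ := V.exists_prim F hF
  refine ⟨c, hc, fun y t ht P hP => (RE_cancel ht hP (c := c) ?_ (V.RE_prim ht hP b hb)).2⟩
  rw [e]
  simpa only [mul_one] using RE_mul ht hP (RE_const hc) (V.RE_prim ht hP a ha)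

end VR

end Pool.Agent.MP_855f4c_ag.WD

end

section

attribute [-instance] Finsupp.smulZeroClass Subgroup.instMulAction
  Subgroup.instDistribMulActionSubtypeMem MonTypeEquivalenceMon.monMonoid
  NonUnitalRingHomClass.toMulHomClass SemilinearMapClass.toAddHomClass Finsupp.tsub
  Algebra.WeaklyEtale.flat littleWedderburn IsPurelyInseparable.isIntegral IdemSemiring.toSemiring
  Algebra.Smooth.flat SubringClass.toRing SetLike.GradeZero.instSemiring
  Algebra.IsFiniteSplit.instFree SetLike.GradeZero.instCommRing SetLike.GradeZero.instCommSemiring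
  SetLike.GradeZero.instAlgebraSubtypeMemOfNat SetLike.GradeZero.instMonoid RKHS.instFunLike
  SetLike.GradeZero.instRing IsPurelyInseparable.normal
  FunctionField.instFiniteDimensionalSubtypeMemIntermediateFieldOfIsAlgebraic MonoidWithZero.toMonoid
  NormedCommRing.toCommRing CommRing.Pic.instFreeOfSubsingleton NormedSpace.toModule
  BialgEquivClass.toBialgHomClass CommMonTypeEquivalenceCommMon.commMonCommMonoid
  NonUnitalNonAssocSemiring.toDistrib LieRinehartAlgebra.toIsScalarTower NormedAlgebra.toAlgebra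
  SeminormedCommRing.toCommRing RightPreLieAlgebra.toModule IdemCommSemiring.toCommSemiring
  LeftPreLieAlgebra.toModule Algebra.IsQuadraticExtension.toFree
  ContinuousMonoidHom.instCoeOutOfMonoidHomClassOfContinuousMapClass instCoeOTCOfCoeTC
  NormedRing.toRing Algebra.ofSubsemiring MulZeroClass.toMul IsStrictOrderedRing.noZeroDivisors
  Bialgebra.toAlgebra instCharZeroOfIsSemireal instNonUnitalAlgHomClassOfNonUnitalAlgEquivClass
  NormedField.toField IsFormallyReal.instIsReduced ValuationClass.toMonoidWithZeroHomClass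
  EuclideanDomain.toCommRing instSMulZeroClass GroupConeClass.toSubmonoidClass Torsor.toMulAction
  BialgHomClass.toAlgHomClass CommGroup.toDivisionCommMonoid SubsemiringClass.toSemiring
  BooleanRing.toRing SeminormedRing.toRing ESeminormedAddMonoid.toAddMonoid
  FloorSemiring.instCharZero BialgHomClass.toMonoidHomClass MulSemiringAction.toDistribMulAction
  MulCharClass.toMonoidHomClass

/-! Invariant divisor classes on an unramified abelian cover: the degree is read off the
commutator. -/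

namespace Pool.Agent.MP_855f4c_ag.WD

open SA

variable {k K M : Type} [Field k] [Field K] [Algebra k K] [FF k K] [Field M] [Algebra k M] [FF k M]
  [Algebra K M] [IsScalarTower k K M] [IsGalois K M]

variable (k K M) in
/-- the Galois group is commutative and acts freely on the places -/
structure Unr : Prop where
  comm : ∀ g h : M ≃ₐ[K] M, g * h = h * g
  free : ∀ (h : M ≃ₐ[K] M) (z : Place k M), ofGal k K h • z = z → h = 1

/-- ROW TH -/
theorem theta_deg (H : Unr k K M) (N : Div k M) (w : (M ≃ₐ[K] M) → M) (hw0 : ∀ h, w h ≠ 0)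
    (hw : ∀ h, dv k (w h) = ofGal k K h • N - N)
    (hs : ∀ g h, w g * g (w h) = w h * h (w g)) : (Module.finrank K M : ℤ) ∣ deg N := by
  have := FF.finite_ext k K M
  have := FF.closed (k := k) (K := K)
  have e : ∀ (h : M ≃ₐ[K] M) (f : M), dv k (h f) = ofGal k K h • dv k f := fun h f =>
    dv_act (ofGal k K h) f
  obtain ⟨v, hv, h⟩ := Theta23.theta (fun h : M ≃ₐ[K] M => h.restrictScalars k) w hw0
    (fun g h x => by
      change (g * h) x = (h * g) x
      rw [H.comm]) (fun g h => by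
      have h0 : g (w h) ≠ 0 := by simpa using hw0 h
      obtain ⟨c, -, hc⟩ := eq_smul_of_dv (k := k) (mul_ne_zero (hw0 g) h0) (hw0 (g * h)) (by
        rw [dv_mul (hw0 g) h0, e, hw, hw, hw, smul_sub, map_mul, mul_smul]; abel)
      exact ⟨g * h, c, hc.trans (Algebra.smul_def _ _)⟩) hs
  obtain ⟨E, hE⟩ := exists_pull (K := K) (N + dv k v) (fun g => by
    obtain ⟨c, hc, h1⟩ := h g
    have h2 := congrArg (dv k) h1
    change dv k (w g * g v) = _ at h2
    rw [dv_mul (hw0 g) (by simpa using hv), ← Algebra.smul_def, dv_smul hc, e, hw] at h2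
    rw [smul_add, eq_sub_of_add_eq' h2]
    abel) fun x _ => (ee_eq_one_iff x).2 fun g => H.free g x
  have h3 := congrArg deg hE
  rw [deg_pull, dgr_inc, map_add, deg_dv, add_zero] at h3
  exact ⟨_, h3.symm⟩

/-- `y` is an `n`-th root of a function with divisor `n A`, with Kummer character `j`. -/
structure Rt (n : ℕ) (ζ : k) (A : Div k K) (f : K) (y : M) (j : (M ≃ₐ[K] M) → ZMod n) : Prop where
  ne : f ≠ 0
  dv : dv k f = n • A
  pow : y ^ n = algebraMap K M f
  act : ∀ h, h y = algebraMap k M ζ ^ (j h).val * y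

/-- ROW CY: on a cyclic unramified cover a divisor of trace zero is `s E - E`. -/
theorem cyc_div (H : Unr k K M) (s : M ≃ₐ[K] M) (hs : ∀ h, h ∈ Subgroup.zpowers s) (D : Div k M)
    (hD : push (inc k K M) D = 0) : ∃ E : Div k M, D = ofGal k K s • E - E := by
  have := FF.finite_ext k K M
  have h1 : ∀ (n : ℕ) (D : Div k M),
      ∃ E : Div k M, ofGal k K (s ^ n) • D - D = ofGal k K s • E - E := fun n D => by
    induction n with
    | zero => exact ⟨0, by simp only [pow_zero, map_one, one_smul, sub_self, smul_zero]⟩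
    | succ n ih =>
      obtain ⟨E, hE⟩ := ih
      refine ⟨E + ofGal k K (s ^ n) • D, ?_⟩
      rw [pow_succ', map_mul, mul_smul, smul_add, ← sub_add_cancel (ofGal k K s • E) E, ← hE]
      abel
  choose r hr using res_surj (inc k K M)
  have h2 : ∀ D : Div k M, ∃ E : Div k M,
      D - Finsupp.mapDomain r (push (inc k K M) D) = ofGal k K s • E - E := fun D => by
    induction D using Finsupp.induction_linear with
    | zero => exact ⟨0, by simp⟩
    | add a b ha hb =>
      obtain ⟨E, hE⟩ := ha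
      obtain ⟨F, hF⟩ := hb
      refine ⟨E + F, ?_⟩
      rw [map_add, Finsupp.mapDomain_add, smul_add, add_sub_add_comm, add_sub_add_comm, hE, hF]
    | single z m =>
      obtain ⟨g, hg⟩ := gal_trans (hr (res (inc k K M) z))
      obtain ⟨n, rfl⟩ := mem_powers_iff_mem_zpowers.2 (hs g)
      obtain ⟨E, hE⟩ := h1 n (Finsupp.single (r (res (inc k K M) z)) m)
      refine ⟨E, ?_⟩
      rw [← hE, act_single, hg, push_single, Finsupp.mapDomain_single]
  simpa [hD] using h2 D

/-- ROW WA: the cyclic cover. -/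
theorem w2_cyc (H : Unr k K M) {n : ℕ} (hn : 0 < n) {ζ : k} (hζ : IsPrimitiveRoot ζ n)
    (hM : Module.finrank K M = n) (s : M ≃ₐ[K] M) (hs : ∀ h, h ∈ Subgroup.zpowers s)
    {A B : Div k K} {f g : K} (hf0 : f ≠ 0) (hf : dv k f = n • A) (hg0 : g ≠ 0)
    (hg : dv k g = n • B) (hAB : ∀ x, A x ≠ 0 → B x = 0) {y : M} (hy : y ^ n = algebraMap K M f)
    (hsy : s y = algebraMap k M ζ * y) : ∃ (w : M) (E : Div k M), w ≠ 0 ∧
      Algebra.norm K w * g = 1 ∧ dv k w = ofGal k K s • E - E - pull (inc k K M) B ∧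
      ζ ^ deg E * ev f B = ev g A := by
  have := FF.closed (k := k) (K := K)
  have := FF.finite_ext k K M
  obtain ⟨t, ht, _⟩ := FF.ex (k := k) (K := K)
  obtain ⟨u, hu⟩ := Tsen23.tsen_norm ht M g⁻¹
  have hu0 : u ≠ 0 := by
    rintro rfl
    exact inv_ne_zero hg0 (by rw [← hu, Algebra.norm_zero])
  have hd : dgr (inc k K M) = n := dgr_inc.trans hM
  obtain ⟨E₀, hE⟩ := cyc_div H s hs (dv k u + pull (inc k K M) B)
    (by rw [map_add, ← dv_norm, hu, push_pull, hd, dv_inv, hg, neg_add_cancel])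
  obtain ⟨v, hv, hv'⟩ := move E₀ (pull (inc k K M) A).support
  have hsv : s v ≠ 0 := by simpa using hv
  have hw0 : u * s v * v⁻¹ ≠ 0 := mul_ne_zero (mul_ne_zero hu0 hsv) (inv_ne_zero hv)
  have hN : Algebra.norm K (u * s v * v⁻¹) = g⁻¹ := by
    rw [map_mul, map_mul, hu, Algebra.norm_eq_of_algEquiv, mul_assoc, ← map_mul,
      mul_inv_cancel₀ hv, map_one, mul_one]
  have hw : dv k (u * s v * v⁻¹) =
      ofGal k K s • (E₀ + dv k v) - (E₀ + dv k v) - pull (inc k K M) B := by
    rw [dv_mul (mul_ne_zero hu0 hsv) (inv_ne_zero hv), dv_mul hu0 hsv, dv_inv, smul_add, ← dv_act,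
      eq_sub_of_add_eq hE, ofGal_apply]
    abel
  refine ⟨_, _, hw0, by rw [hN, inv_mul_cancel₀ hg0], hw, ?_⟩
  generalize E₀ + dv k v = E at hv' hw
  have hy0 : y ≠ 0 := by
    rintro rfl
    exact hf0 (by simpa [hn.ne'] using hy.symm)
  have hdy : dv k y = pull (inc k K M) A := by
    have h1 := dv_map (inc k K M) f
    rw [hf, map_nsmul, IsScalarTower.toAlgHom_apply, ← hy, dv_pow] at h1
    exact smul_right_injective _ hn.ne' h1
  have hO : ∀ D : Div k M, (∀ x, D x ≠ 0 → pull (inc k K M) A x = 0) → Off y D :=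
    fun D h => ⟨hy0, fun x hx => by rw [← dv_apply, hdy, h x hx]⟩
  have h0 : ∀ x, E x ≠ 0 → pull (inc k K M) A x = 0 := fun x hx =>
    by_contra fun e => hx (hv' x (Finsupp.mem_support_iff.2 e))
  have h1 := hO E h0
  have h2 := hO (ofGal k K s • E) fun x hx => by
    rw [← gal_pull s, div_apply, h0 _ (div_apply _ x E ▸ hx)]
  have h3 := hO (pull (inc k K M) B) fun x hx => by_contra fun e =>
    hx (by rw [pull_apply, hAB _ (right_ne_zero_of_mul e), mul_zero])
  have h4 : Off y (dv k (u * s v * v⁻¹)) := hw ▸ (h2.sub h1).sub h3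
  have h5 := recip hw0 h4
  have h6 := ev_norm (hdy ▸ h4.symm hw0)
  have hζ0 := hζ.ne_zero hn.ne'
  have h7 := ev_act (ofGal k K s) y E
  rw [ofGal_apply, hsy, ev_mul (off_const hζ0) h2, ev_const hζ0, deg_act, cst_ofGal] at h7
  obtain ⟨h8, h9⟩ := ev_norm h3
  obtain ⟨c, hc, e⟩ := eq_smul_of_dv (k := k) h8.1 hf0
    (by rw [dv_norm, hdy, push_pull, hd, hf])
  have hB : deg B = 0 := by simpa only [hg, map_nsmul, Int.nsmul_eq_mul, mul_eq_zero, Int.natCast_eq_zero, hn.ne', false_or] using deg_dv (k := k) g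
  have hfB : Off f B := ⟨hf0, fun x hx => by
    rw [← Place.ord_smul hc, ← e, h8.2 x hx]⟩
  rw [e, Algebra.smul_def, ev_mul (off_const hc) hfB, ev_const hc, hB, zpow_zero, one_mul] at h9
  have hgA : Off g A := by simpa [hN] using h6.1.inv
  rw [hw, ev_sub (h2.sub h1) h3, ev_sub h2 h1, hdy, ← h6.2, hN, ev_inv hgA, ← h9,
    ← show _ = ev y E from h7] at h5
  have := h2.ev_ne
  have := hfB.ev_ne
  have := hgA.ev_ne
  field_simp at h5
  exact h5.symm

lemma WB_unr (H : Unr k K M) (N : IntermediateField K M) [FF k N] [IsAbelianGalois K N]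
    [IsScalarTower k N M] : Unr k K N := by
  refine ⟨fun g h => IsMulCommutative.is_comm.comm g h, fun h z => ?_⟩
  obtain ⟨z', rfl⟩ := res_surj (inc k N M) z
  have h1 := (res_comp (inc k K N) (inc k N M) z').2
  rw [show (inc k N M).comp (inc k K N) = inc k K M from rfl,
    (ee_eq_one_iff z').2 fun g => H.free g z'] at h1
  exact (ee_eq_one_iff _).1 (Nat.eq_one_of_mul_eq_one_left h1.symm) h

omit [FF k K] [FF k M] [IsGalois K M] in
lemma WB_const (h : M ≃ₐ[K] M) (c : k) : h (algebraMap k M c) = algebraMap k M c := by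
  rw [IsScalarTower.algebraMap_apply k K M, AlgEquiv.commutes]

omit [FF k K] [FF k M] [IsGalois K M] in
lemma WB_pow (h : M ≃ₐ[K] M) {c : k} {y : M} (hy : h y = algebraMap k M c * y) (a : ℕ) :
    (h ^ a) y = algebraMap k M c ^ a * y := by
  induction a with
  | zero => simp
  | succ a ih => rw [pow_succ', AlgEquiv.mul_apply, ih, map_mul, map_pow, WB_const, hy]; ring

omit [FF k K] [IsGalois K M] in
lemma WB_dv (s : M ≃ₐ[K] M) {u : M} (hu : u ≠ 0) {E : Div k M} (h : dv k u = ofGal k K s • E - E)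
    (a : ℕ) : dv k (∏ i ∈ Finset.range a, (s ^ i) u) = ofGal k K (s ^ a) • E - E := by
  induction a with
  | zero => simp only [Finset.range_zero, AlgEquiv.coe_pow, Finset.prod_empty, dv_one, pow_zero, map_one, one_smul, sub_self]
  | succ a ih =>
    rw [Finset.prod_range_succ, dv_mul (Finset.prod_ne_zero_iff.2 fun i _ => (map_ne_zero _).2 hu)
      ((map_ne_zero _).2 hu), ih, ← ofGal_apply (k := k), dv_act, h, smul_sub, ← mul_smul,
      ← map_mul, pow_succ]
    abel

/-- ROW WB: a divisor with commutator `m ∧ j`. -/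
theorem w2 (H : Unr k K M) {n : ℕ} (hn : 0 < n) {ζ : k} (hζ : IsPrimitiveRoot ζ n)
    {A B : Div k K} {f g : K} {y x : M} {j m : (M ≃ₐ[K] M) → ZMod n} (hA : Rt n ζ A f y j)
    (hB : Rt n ζ B g x m) (hj : ∃ h, j h = 1) (hAB : ∀ x, A x ≠ 0 → B x = 0) :
    ∃ (E : Div k M) (w : (M ≃ₐ[K] M) → M) (ε : ℤ), (∀ h, w h ≠ 0) ∧
      (∀ h, dv k (w h) = ofGal k K h • E - E) ∧
      (∀ g h, w g * g (w h) * algebraMap k M ζ ^ (m h * j g).val =
        w h * h (w g) * algebraMap k M ζ ^ (m g * j h).val) ∧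
      n * deg E = Module.finrank K M * ε ∧ ζ ^ ε * ev f B = ev g A := by
  obtain ⟨s, hs⟩ := hj
  have : NeZero n := ⟨hn.ne'⟩
  have : FiniteDimensional K M := FF.finite_ext k K M
  have : IsAbelianGalois K M := { is_comm := ⟨H.comm⟩ }
  obtain ⟨N, hN⟩ : ∃ N : IntermediateField K M, N = IntermediateField.adjoin K {y} := ⟨_, rfl⟩
  have : FF k N := FF.of_finite k K N
  have : IsScalarTower k N M := .of_algebraMap_eq fun _ => rfl
  have hz : algebraMap k M ζ ^ n = 1 := by rw [← map_pow, hζ.pow_eq_one, map_one]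
  have hsy : s y = algebraMap k M ζ * y := by
    rw [hA.act, hs, ZMod.val_one_eq_one_mod, ← pow_eq_pow_mod _ hz, pow_one]
  have y0 : y ≠ 0 := fun h => by
    have := hA.pow
    rw [h, zero_pow hn.ne', eq_comm, map_eq_zero] at this
    exact hA.ne this
  have x0 : x ≠ 0 := fun h => by
    have := hB.pow
    rw [h, zero_pow hn.ne', eq_comm, map_eq_zero] at this
    exact hB.ne this
  have hyN : y ∈ N := hN ▸ IntermediateField.mem_adjoin_simple_self K y
  let r : (M ≃ₐ[K] M) →* (N ≃ₐ[K] N) := AlgEquiv.restrictNormalHom N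
  have hr : ∀ h (a : N), (r h a : M) = h a := AlgEquiv.restrictNormalHom_apply N
  have hext : ∀ g h : M ≃ₐ[K] M, g y = h y → r g = r h := fun g h e => by
    have := IntermediateField.algHom_ext_of_eq_adjoin K hN (φ₁ := g.toAlgHom.comp N.val)
      (φ₂ := h.toAlgHom.comp N.val) (fun a ha => by obtain rfl : a = y := ha; exact e)
    exact AlgEquiv.ext fun a => Subtype.ext (by rw [hr, hr]; exact DFunLike.congr_fun this a)
  have hrs : ∀ h, r h = r (s ^ (j h).val) := fun h => hext _ _ (by rw [WB_pow s hsy, hA.act])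
  have hgen : ∀ h, h ∈ Subgroup.zpowers (r s) := fun h => by
    obtain ⟨h, rfl⟩ : ∃ g, r g = h := AlgEquiv.restrictNormalHom_surjective M h
    rw [hrs h, map_pow]
    exact Subgroup.npow_mem_zpowers _ _
  have hrk : Module.finrank K N = n := by
    rw [← IsGalois.card_aut_eq_finrank, ← orderOf_eq_card_of_forall_mem_zpowers hgen]
    refine Nat.dvd_antisymm (orderOf_dvd_of_pow_eq_one ?_) (hζ.dvd_of_pow_eq_one _ ?_)
    · exact (map_pow r s n).symm.trans ((hext _ 1
        (by rw [WB_pow s hsy, hz, one_mul, AlgEquiv.one_apply])).trans (map_one r))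
    · have h1 := hr (s ^ orderOf (r s)) ⟨y, hyN⟩
      rw [map_pow, pow_orderOf_eq_one, WB_pow s hsy, ← map_pow] at h1
      exact (algebraMap k M).injective
        ((mul_right_cancel₀ y0 ((one_mul y).trans h1)).symm.trans (map_one _).symm)
  obtain ⟨w, E, w0, -, hw, hε⟩ := w2_cyc (WB_unr H N) hn hζ hrk (r s) hgen hA.ne hA.dv hB.ne hB.dv
    hAB (y := ⟨y, hyN⟩) (Subtype.ext hA.pow) (Subtype.ext ((hr s _).trans hsy))
  have hp : ∀ h, ofGal k K h • pull (inc k N M) E = pull (inc k N M) (ofGal k K (r h) • E) :=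
    fun h => act_pull (ofGal k K (r h)) E (inc k N M) (ofGal k K h) fun a => (hr h a).symm
  have hx : dv k x = pull (inc k K M) B := by
    have h1 := dv_map (inc k K M) g
    rw [hB.dv, map_nsmul, IsScalarTower.toAlgHom_apply, ← hB.pow, dv_pow] at h1
    exact nsmul_right_injective hn.ne' h1
  have w0' : (w : M) ≠ 0 := fun h => w0 (Subtype.ext h)
  have hu : dv k (x * w) = ofGal k K s • pull (inc k N M) E - pull (inc k N M) E := by
    have h1 := dv_map (inc k N M) w
    rw [hw, map_sub, map_sub, ← pull_comp, ← hp] at h1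
    rw [dv_mul x0 w0', hx]
    exact (congrArg _ h1).trans (add_sub_cancel _ _)
  let c : ℕ → M := fun a => ∏ i ∈ Finset.range a, (s ^ i) w
  let d : ℕ → M := fun a => ∏ i ∈ Finset.range a, algebraMap k M ζ ^ (m (s ^ i)).val
  have hc : ∀ a, ∏ i ∈ Finset.range a, (s ^ i) (x * w) = d a * (x ^ a * c a) := fun a => by
    simp only [map_mul, hB.act, Finset.prod_mul_distrib, Finset.prod_const, Finset.card_range, c, d,
      mul_assoc]
  have hd : ∀ a, ∃ e : ℕ, d a = algebraMap k M (ζ ^ e) := fun a =>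
    ⟨_, (Finset.prod_pow_eq_pow_sum _ _ _).trans (map_pow _ _ _).symm⟩
  have c0 : ∀ a, x ^ a * c a ≠ 0 := fun a => mul_ne_zero (pow_ne_zero _ x0)
    (Finset.prod_ne_zero_iff.2 fun i _ => (map_ne_zero _).2 w0')
  have hgc : ∀ g b, c (j g).val * g (c b) = c ((j g).val + b) := fun g b => by
    simp only [c, Finset.prod_range_add, map_prod]
    refine congrArg _ (Finset.prod_congr rfl fun i _ => ?_)
    rw [pow_add, AlgEquiv.mul_apply, ← hr (s ^ i), ← hr, ← hr, hrs g]
  refine ⟨pull (inc k N M) E, fun h => x ^ (j h).val * c (j h).val, deg E, fun h => c0 _,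
    fun h => ?_, fun g h => ?_, ?_, hε⟩
  · obtain ⟨e, he⟩ := hd (j h).val
    have h1 := WB_dv s (mul_ne_zero x0 w0') hu (j h).val
    rw [hc, he, dv_mul ((map_ne_zero _).2 (pow_ne_zero _ (hζ.ne_zero hn.ne'))) (c0 _), dv_const,
      zero_add, hp, ← hrs, ← hp] at h1
    exact h1
  · have e1 := hgc g (j h).val
    have e2 := hgc h (j g).val
    rw [add_comm, ← e1] at e2
    simp only [map_mul, map_pow, hB.act, ZMod.val_mul, ← pow_eq_pow_mod _ hz, pow_mul, mul_pow]
    linear_combination (-x ^ (j g).val * x ^ (j h).val *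
      (algebraMap k M ζ ^ (m g).val) ^ (j h).val * (algebraMap k M ζ ^ (m h).val) ^ (j g).val) * e2
  · rw [deg_pull, dgr_inc, ← Module.finrank_mul_finrank K N M, hrk, Nat.cast_mul, mul_assoc]

/-- powers of an `n`-th root of unity with exponents in `ZMod n` -/
lemma TF_add {R : Type} [CommMonoid R] {n : ℕ} (hn : 0 < n) {z : R} (hz : z ^ n = 1)
    (a b : ZMod n) : z ^ (a + b).val = z ^ a.val * z ^ b.val := by
  have : NeZero n := ⟨hn.ne'⟩
  rw [ZMod.val_add, ← pow_eq_pow_mod _ hz, pow_add]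

lemma TF_sum {R : Type} [CommMonoid R] {n : ℕ} (hn : 0 < n) {z : R} (hz : z ^ n = 1)
    {ι : Type} (s : Finset ι) (a : ι → ZMod n) : z ^ (∑ i ∈ s, a i).val = ∏ i ∈ s, z ^ (a i).val := by
  classical
  induction s using Finset.induction_on with
  | empty => simp
  | insert i s hi ih => rw [Finset.sum_insert hi, Finset.prod_insert hi, TF_add hn hz, ih]

lemma TF_mul {R : Type} [CommMonoid R] {n : ℕ} (hn : 0 < n) {z : R} (hz : z ^ n = 1)
    (c : ℕ) (a : ZMod n) : z ^ ((c : ZMod n) * a).val = (z ^ a.val) ^ c := by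
  induction c with
  | zero => simp
  | succ c ih => rw [Nat.cast_succ, add_mul, one_mul, TF_add hn hz, ih, pow_succ]

/-- ROW TF -/
theorem theta_fin (H : Unr k K M) {n : ℕ} (hn : 0 < n) {ζ : k} (hζ : IsPrimitiveRoot ζ n)
    {ι : Type} [Fintype ι] {A B : ι → Div k K} {f g : ι → K} {y x : ι → M}
    {j m : ι → (M ≃ₐ[K] M) → ZMod n} (hA : ∀ i, Rt n ζ (A i) (f i) (y i) (j i))
    (hB : ∀ i, Rt n ζ (B i) (g i) (x i) (m i)) (hj : ∀ i, ∃ h, j i h = 1)
    (hAB : ∀ i x, A i x ≠ 0 → B i x = 0) (ε : ι → ZMod n)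
    (hε : ∀ i, ζ ^ (ε i).val * ev (f i) (B i) = ev (g i) (A i)) (c : ℕ) (E : Div k K) (W : M)
    (hW0 : W ≠ 0) (hW : ∀ z : Place k M, z.ord W ≡ c * E (res (inc k K M) z) [ZMOD n])
    (w : (M ≃ₐ[K] M) → M) (hw : ∀ h, w h ^ n * W = h W)
    (hc : ∀ g h, w g * g (w h) * algebraMap k M ζ ^ ((c : ZMod n) * ∑ i, m i h * j i g).val =
      w h * h (w g) * algebraMap k M ζ ^ ((c : ZMod n) * ∑ i, m i g * j i h).val) :
    (c : ZMod n) * ((deg E : ZMod n) + ∑ i, ε i) = 0 := by
  have : NeZero n := ⟨hn.ne'⟩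
  have hfin := FF.finite_ext k K M
  have hn' : (n : ℤ) ≠ 0 := by exact_mod_cast hn.ne'
  have hζ0 : ζ ≠ 0 := hζ.ne_zero hn.ne'
  have hz : algebraMap k M ζ ^ n = 1 := by rw [← map_pow, hζ.pow_eq_one, map_one]
  have hz0 : algebraMap k M ζ ≠ 0 := by simpa using hζ0
  have hee : ∀ z, ee (inc k K M) z = 1 := fun z =>
    (ee_eq_one_iff z).2 fun g hg => H.free g z hg
  obtain ⟨N0, hN0⟩ : ∃ N0 : Div k M, dv k W = n • N0 + c • pull (inc k K M) E := by
    refine ⟨Finsupp.mapRange (· / (n : ℤ)) (by simp) (dv k W - c • pull (inc k K M) E), ?_⟩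
    ext z
    simp only [Finsupp.add_apply, Finsupp.smul_apply, Finsupp.mapRange_apply, Finsupp.sub_apply,
      dv_apply, pull_apply, hee, nsmul_eq_mul, Nat.cast_one, one_mul]
    rw [Int.mul_ediv_cancel' (hW z).symm.dvd]; ring
  have hw0 : ∀ h, w h ≠ 0 := fun h e => by
    have := hw h
    rw [e, zero_pow hn.ne', zero_mul] at this
    exact hW0 (h.injective (by rw [← this, map_zero]))
  have hdw : ∀ h, dv k (w h) = ofGal k K h • N0 - N0 := fun h => by
    have h1 := congrArg (dv k) (hw h)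
    have h2 : dv k (h W) = ofGal k K h • dv k W := SA.dv_act (ofGal k K h) W
    rw [dv_mul (pow_ne_zero _ (hw0 h)) hW0, dv_pow, h2, hN0, smul_add, SA.act_nsmul, SA.act_nsmul,
      gal_pull] at h1
    ext z
    have h3 := DFunLike.congr_fun h1 z
    simp only [Finsupp.add_apply, Finsupp.smul_apply, nsmul_eq_mul] at h3
    refine mul_left_cancel₀ hn' ?_
    rw [Finsupp.sub_apply]; linarith only [h3]
  choose E' w' ε' h0 h1 h2 h3 h4 using fun i => w2 H hn hζ (hA i) (hB i) (hj i) (hAB i)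
  have hU0 : ∀ h, (∏ i, w' i h) ^ c ≠ 0 := fun h =>
    pow_ne_zero _ (Finset.prod_ne_zero_iff.2 fun i _ => h0 i h)
  have hU : ∀ g h, (∏ i, w' i g) ^ c * g ((∏ i, w' i h) ^ c) *
      algebraMap k M ζ ^ ((c : ZMod n) * ∑ i, m i h * j i g).val =
      (∏ i, w' i h) ^ c * h ((∏ i, w' i g) ^ c) *
      algebraMap k M ζ ^ ((c : ZMod n) * ∑ i, m i g * j i h).val := fun g h => by
    simp only [TF_mul hn hz, TF_sum hn hz, map_pow, map_prod, ← mul_pow,
      ← Finset.prod_mul_distrib, h2 _ g h]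
  obtain ⟨q, hq⟩ := theta_deg H (N0 - c • ∑ i, E' i) (fun h => w h / (∏ i, w' i h) ^ c)
    (fun h => div_ne_zero (hw0 h) (hU0 h))
    (fun h => by
      rw [dv_div (hw0 h) (hU0 h), dv_pow, dv_prod _ _ fun i _ => h0 i h, hdw, smul_sub,
        SA.act_nsmul, Finset.smul_sum (r := ofGal k K h)]
      simp only [h1, Finset.sum_sub_distrib, smul_sub]
      abel)
    (fun g h => by
      rw [map_div₀, map_div₀, div_mul_div_comm, div_mul_div_comm,
        ← mul_div_mul_right _ _ (pow_ne_zero ((c : ZMod n) * ∑ i, m i h * j i g).val hz0), hc, hU,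
        mul_div_mul_right _ _ (pow_ne_zero _ hz0)])
  have hd : (Module.finrank K M : ℤ) ≠ 0 := by exact_mod_cast Module.finrank_pos.ne'
  have h5 := congrArg deg hN0
  rw [deg_dv, map_add, map_nsmul, map_nsmul, deg_pull, dgr_inc, nsmul_eq_mul, nsmul_eq_mul] at h5
  rw [map_sub, map_nsmul, map_sum, nsmul_eq_mul] at hq
  have h6 : (n : ℤ) * ∑ i, deg (E' i) = Module.finrank K M * ∑ i, ε' i := by
    simp only [Finset.mul_sum, h3]
  have h7 : (c : ℤ) * (deg E + ∑ i, ε' i) = n * (-q) :=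
    mul_left_cancel₀ hd (by linear_combination -h5 - c * h6 - n * hq)
  have h8 : ∀ i, (ε' i : ZMod n) = ε i := fun i => by
    have ho : Off (f i) (B i) := ⟨(hA i).ne, fun x hx => by
      have := DFunLike.congr_fun (hA i).dv x
      rw [dv_apply, Finsupp.smul_apply, not_not.1 (fun e => hx (hAB i x e)), smul_zero] at this
      exact this⟩
    have h9 : ζ ^ ε' i = ζ ^ ((ε i).val : ℤ) :=
      mul_right_cancel₀ ho.ev_ne (by rw [h4, zpow_natCast, hε])
    have h10 : (n : ℤ) ∣ ((ε i).val : ℤ) - ε' i := by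
      rw [← hζ.zpow_eq_one_iff_dvd, zpow_sub₀ hζ0, h9, div_self (zpow_ne_zero _ hζ0)]
    rw [(ZMod.intCast_eq_intCast_iff_dvd_sub _ _ _).2 h10, Int.cast_natCast, ZMod.natCast_zmod_val]
  have h11 := congrArg (Int.cast : ℤ → ZMod n) h7
  push_cast at h11
  simpa only [h8, CharP.cast_eq_zero, mul_neg, zero_mul, neg_zero] using h11

end Pool.Agent.MP_855f4c_ag.WD

end
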