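import Pool.Agent.MP_855f4c_ag.WD.T
import Pool.Agent.MP_855f4c_ag.WD.A
import Pool.Agent.MP_855f4c_ag.WD.B

section

attribute [-instance] Module.FaithfullyFlat.of_isIntegral_of_isDomain SMulWithZero.toSMulZeroClass
  IsAddCyclic.isAddCommutative ContinuousSemilinearMapClass.toSemilinearMapClass
  SubsemiringClass.instCharZero RKHS.instFunLike CoalgHomClass.toSemilinearMapClass littleWedderburn
  instNonUnitalAlgHomClassOfNonUnitalAlgEquivClass MonTypeEquivalenceMon.monMonoid
  Subgroup.instDistribMulActionSubtypeMem IdemSemiring.toCanonicallyOrderedAdd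
  SemilinearIsometryClass.toSemilinearMapClass IdemSemiring.toSemiring BialgHomClass.toAlgHomClass
  SubsemiringClass.toCommSemiring instCharZeroOfIsSemireal CompletePartialOrder.toPartialOrder
  ESeminormedAddMonoid.toAddMonoid instSMulZeroClass SubringClass.toRing
  TensorProduct.isScalarTower_right ESeminormedAddCommMonoid.toAddCommMonoid
  RingHomClass.toLinearMapClassNNRat SetLike.GradeZero.instMonoid SetLike.GradeZero.instSemiring
  SetLike.GradeZero.instCommSemiring SetLike.GradeZero.instRing instCoeTCOfCoe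
  LieAdmissibleAlgebra.toModule Subgroup.instMulAction NonUnitalNonAssocRing.toAddCommGroup
  isNoetherian_submodule'
  NonUnitalAlgHomClass.instSemilinearMapClassOfNonUnitalAlgSemiHomClassToMonoidHomRingHom
  SeminormedAddCommGroup.toAddCommGroup NormedAddCommGroup.toAddCommGroup NormedSpace.toModule
  Group.IsPerfect.subsingleton_of_isMulCommutative FloorSemiring.instCharZero
  RightPreLieAlgebra.toModule NormedRing.toRing LeftPreLieAlgebra.toModule NormedCommRing.toCommRing
  RCLike.charZero_rclike RingHomClass.toLinearMapClassRat LieAlgebra.toModule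
  IdemCommSemiring.toCommSemiring AddQuantale.instAddRightMono MonoidWithZero.toMonoid
  AlgHomClass.linearMapClass NonUnitalNonAssocSemiring.toMulZeroClass NormedAlgebra.toAlgebra
  NormedField.toField SetLike.GradeZero.instCommRing SetLike.GradeZero.instAlgebraSubtypeMemOfNat
  LinearOrder.toDecidableEq AddGroupConeClass.toAddSubmonoidClass TestFunctionClass.toDFunLike
  IsStrictOrderedRing.noZeroDivisors AddCommGroupWithOne.toAddGroupWithOne
  IsFormallyReal.instIsReduced ContDiffMapSupportedInClass.toDFunLike BooleanRing.toRing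
  instCoeTOfCoeDep SeminormedCommRing.toCommRing SeminormedRing.toRing EuclideanDomain.toCommRing
  NonUnitalRing.toNonUnitalNonAssocRing BialgHomClass.toMonoidHomClass SubsemiringClass.toSemiring
  MulSemiringAction.toDistribMulAction Finsupp.distribSMul
  NonUnitalSemiring.toNonUnitalNonAssocSemiring OmegaCompletePartialOrder.toPartialOrder
  LieRing.toAddCommGroup NonAssocCommSemiring.toNonAssocSemiring Bialgebra.toAlgebra
  CoheytingAlgebra.toOrderTop LieAdmissibleRing.toNonUnitalNonAssocRing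
  LinearOrderedAddCommMonoidWithTop.toAddCommMonoid

section
/-! h86d section II: definitions on the curve. -/

namespace Pool.Agent.MP_855f4c_ag.WD.Tor

variable {k K : Type} [Field k] [Field K] [Algebra k K]

/-- `D` is effective and `L(D - o) = 0`. -/
def IsMin (o : Place k K) (D : Div k K) : Prop := 0 ≤ D ∧ LL (D - Finsupp.single o 1) = ⊥

/-- elements of `Rg o` of degree at most `N` -/
noncomputable def VN (o : Place k K) (N : ℕ) : Submodule k (Rg o) :=
  (LL (Finsupp.single o (N : ℤ))).comap (Rg o).val.toLinearMap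

/-- the generators `y j - y j (x)` of the ideal of `x` -/
noncomputable def tau {o : Place k K} {ι : Type} (y : ι → Rg o) (x : Place k K) (j : ι) : Rg o :=
  y j - algebraMap k (Rg o) (x.val (y j : K))

lemma GC.map {B B' ι : Type} [CommRing B] [CommRing B'] [Fintype ι] {n : ℕ} {t : ι → B} {W : Set B}
    (h : GC n t W) (f : B →+* B') : GC n (fun j => f (t j)) Set.univ := by
  obtain ⟨a, u, c, r, α, β, γ, -, -, -, -, h1, h2, h3⟩ := h
  refine ⟨f a, f u, f c, fun j => f (r j), fun j => f (α j), fun j => f (β j), fun j => f (γ j),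
    trivial, trivial, trivial, fun _ => ⟨trivial, trivial, trivial, trivial⟩, fun j => ?_, ?_, ?_⟩
  · simpa only [map_mul, map_pow] using congrArg f (h1 j)
  · simpa only [map_sum, map_add, map_mul, map_one] using congrArg f h2
  · simpa only [map_add, map_mul, map_sum, map_one] using congrArg f h3

variable [FF k K] {o : Place k K}

lemma mem_VN {N : ℕ} {a : Rg o} : a ∈ VN o N ↔ 0 ≤ o.ord (a : K) + N := by
  change (a : K) ∈ LL _ ↔ _
  rw [mem_LL_single]; exact and_iff_right a.2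

instance (N : ℕ) : FiniteDimensional k (VN o N) :=
  Module.Finite.of_injective ((Rg o).val.toLinearMap.restrict
    (p := VN o N) (q := LL (Finsupp.single o (N : ℤ))) fun _ h => h)
    fun _ _ h => Subtype.ext (Subtype.ext
      (congrArg (fun z : LL (Finsupp.single o (N : ℤ)) => (z : K)) h))

/-- the class of `x - o` is divisible by `n` -/
def Dv (n : ℕ) (x o : Place k K) : Prop :=
  ∃ c : Pic k K, cls (Finsupp.single x 1) - cls (Finsupp.single o 1) = n • c

end Pool.Agent.MP_855f4c_ag.WD.Tor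
end

section
/-! h86d section II, row MIN: minimal representatives. -/

namespace Pool.Agent.MP_855f4c_ag.WD.Tor

open WithZero

variable {k K : Type} [Field k] [Field K] [Algebra k K] [FF k K] {o : Place k K}

omit [FF k K] in
theorem IsMin.apply_o {D : Div k K} (h : IsMin o D) : D o = 0 := by
  by_contra hn
  have h1 : (1 : K) ∈ LL (D - Finsupp.single o 1) := mem_LL.2 (.inr fun x => by
    have := h.1 x
    by_cases hx : x = o
    · subst hx
      simp only [Finsupp.coe_zero, Pi.zero_apply, Place.ord_one, Finsupp.sub_apply,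
        Finsupp.single_eq_same] at this ⊢
      omega
    · simpa only [Place.ord_one, Finsupp.coe_sub, Pi.sub_apply, Finsupp.single_eq_of_ne hx, sub_zero, zero_add, ge_iff_le, Finsupp.coe_zero, Pi.zero_apply] using this)
  rw [h.2] at h1
  exact one_ne_zero h1

theorem IsMin.alone {D D' : Div k K} (h : IsMin o D) (h0 : 0 ≤ D') (h1 : cls D' = cls D) :
    D' = D := by
  obtain ⟨f, f0, e⟩ := cls_eq.1 h1
  have hf : f ∈ LL D := mem_LL'.2 (.inr (by rw [add_comm, ← e]; exact h0))
  have ho : 0 ≤ o.ord f := by simpa only [h.apply_o, add_zero] using (mem_LL.1 hf).resolve_left f0 o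
  have hc : algebraMap k K (o.val f) ∈ LL D := mem_LL.2 (.inr fun x => by simpa only [Place.ord_const, zero_add, Finsupp.coe_zero, Pi.zero_apply] using h.1 x)
  have h2 : f - algebraMap k K (o.val f) ∈ LL (D - Finsupp.single o 1) := by
    rcases mem_LL.1 (sub_mem hf hc) with h3 | h3
    · rw [h3]; exact zero_mem _
    rcases Place.v_lt_one.1 (Place.val_spec ho) with h4 | h4
    · rw [h4]; exact zero_mem _
    refine mem_LL.2 (.inr fun x => ?_)
    by_cases hx : x = o
    · subst hx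
      rw [Finsupp.sub_apply, Finsupp.single_eq_same, h.apply_o]
      omega
    · simpa only [Finsupp.coe_sub, Pi.sub_apply, Finsupp.single_eq_of_ne hx, sub_zero] using h3 x
  rw [h.2, Submodule.mem_bot, sub_eq_zero] at h2
  rw [e, h2]
  ext x
  simp

theorem MIN.le {D D' : Div k K} (h' : IsMin o D') (h0 : 0 ≤ D) (hd : deg D ≤ deg D')
    (h1 : cls (D - deg D • Finsupp.single o 1) = cls (D' - deg D' • Finsupp.single o 1)) :
    D + (deg D' - deg D) • Finsupp.single o 1 = D' := by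
  refine h'.alone (add_nonneg h0 (zsmul_nonneg (Finsupp.single_nonneg.2 zero_le_one)
    (sub_nonneg.2 hd))) ?_
  simp only [map_sub, map_add, map_zsmul, sub_smul] at h1 ⊢
  rw [sub_eq_iff_eq_add] at h1
  rw [h1]
  abel

theorem IsMin.unique {D D' : Div k K} (h : IsMin o D) (h' : IsMin o D')
    (h1 : cls (D - deg D • Finsupp.single o 1) = cls (D' - deg D' • Finsupp.single o 1)) :
    D = D' := by
  have key : ∀ {D D' : Div k K}, IsMin o D → IsMin o D' → deg D ≤ deg D' →
      cls (D - deg D • Finsupp.single o 1) = cls (D' - deg D' • Finsupp.single o 1) → D = D' := by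
    intro D D' h h' hd h1
    have e := MIN.le h' h.1 hd h1
    have e1 := congrArg (· o) e
    simp only [Finsupp.add_apply, Finsupp.smul_apply, Finsupp.single_eq_same, h.apply_o,
      h'.apply_o, smul_eq_mul, mul_one, zero_add] at e1
    rwa [e1, zero_smul, add_zero] at e
  rcases le_total (deg D) (deg D') with hd | hd
  exacts [key h h' hd h1, (key h' h hd h1.symm).symm]

variable (k K) in
theorem exists_min : ∃ g : ℕ, ∀ (o : Place k K) (c : Pic k K), degP c = 0 →
    ∃ D : Div k K, IsMin o D ∧ deg D ≤ g ∧ cls (D - deg D • Finsupp.single o 1) = c := by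
  classical
  obtain ⟨g, hg⟩ := R1 k K
  refine ⟨g, fun o c hc => ?_⟩
  obtain ⟨E, rfl⟩ := cls_surj c
  rw [degP_cls] at hc
  have hP : ∃ f : K, f ≠ 0 ∧ 0 ≤ dv k f + (E + Finsupp.single o (g : ℤ)) := hg _ (by simp [hc])
  have hex : ∃ d : ℕ, ∃ f : K, f ≠ 0 ∧ 0 ≤ dv k f + (E + Finsupp.single o (d : ℤ)) := ⟨g, hP⟩
  obtain ⟨f, f0, hf⟩ := Nat.find_spec hex
  have hle := Nat.find_min' hex hP
  have hmin := fun m => Nat.find_min hex (m := m)
  generalize Nat.find hex = d at hf hle hmin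
  have hd : deg (dv k f + (E + Finsupp.single o (d : ℤ))) = d := by simp [hc]
  refine ⟨_, ⟨hf, ?_⟩, by omega, ?_⟩
  · cases d with
    | zero => exact LL_eq_bot (by rw [map_sub, hd]; simp)
    | succ d =>
      refine (Submodule.eq_bot_iff _).2 fun u hu => by_contra fun u0 => ?_
      refine hmin d d.lt_succ_self ⟨u * f, mul_ne_zero u0 f0, ?_⟩
      have := (mem_LL'.1 hu).resolve_left u0
      rw [Nat.cast_succ, Finsupp.single_add] at this
      rw [dv_mul u0 f0]
      convert this using 1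
      abel
  · rw [hd, Finsupp.smul_single, smul_eq_mul, mul_one, add_sub_assoc, add_sub_cancel_right, map_add,
      cls_dv, zero_add]

omit [FF k K] in
/-- leading index in a basis with distinct degrees -/
theorem repr_deg {κ : Type} (b : Module.Basis κ k (Rg o)) (dg : κ → ℕ)
    (hdg : Function.Injective dg) (hb : ∀ i, o.ord (b i : K) = -(dg i : ℤ)) {w : Rg o}
    (hw : w ≠ 0) : ∃ i0, b.repr w i0 ≠ 0 ∧ o.ord (w : K) = -(dg i0 : ℤ) ∧
      ∀ i, b.repr w i ≠ 0 → dg i ≤ dg i0 := by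
  classical
  obtain ⟨i0, h0, hm⟩ := (b.repr w).support.exists_max_image dg
    (Finsupp.support_nonempty_iff.2 (by simpa using hw))
  have hv : ∀ i ∈ (b.repr w).support, o.v (b.repr w i • (b i : K)) = exp (dg i : ℤ) := fun i hi => by
    have h1 := Finsupp.mem_support_iff.1 hi
    rw [Place.v_eq (smul_ne_zero h1 fun e => b.ne_zero i (Subtype.ext e)), Place.ord_smul h1, hb,
      neg_neg]
  have e : (w : K) = ∑ i ∈ (b.repr w).support, b.repr w i • (b i : K) := by
    conv_lhs => rw [← b.linearCombination_repr w, Finsupp.linearCombination_apply, Finsupp.sum]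
    simp only [AddSubmonoidClass.coe_finsetSum, SetLike.val_smul]
  refine ⟨i0, Finsupp.mem_support_iff.1 h0, ?_, fun i hi => hm i (Finsupp.mem_support_iff.2 hi)⟩
  rw [Place.ord, e, o.v.map_sum_eq_of_lt h0 fun i hi => ?_, hv i0 h0, log_exp]
  obtain ⟨h1, h2⟩ := Finset.mem_sdiff.1 hi
  rw [hv i0 h0, hv i h1, exp_lt_exp, Nat.cast_lt]
  exact (hm i h1).lt_of_ne fun h3 => h2 (by simpa using hdg h3)

end Pool.Agent.MP_855f4c_ag.WD.Tor
end

section
/-! h86d section II, row BEZ. -/

namespace Pool.Agent.MP_855f4c_ag.WD.Tor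

open scoped TensorProduct
open WithZero

variable {k K : Type} [Field k] [Field K] [Algebra k K] [FF k K] {o : Place k K}

namespace BEZ

lemma VN_mono {M N : ℕ} (h : M ≤ N) {a : Rg o} (ha : a ∈ VN o M) : a ∈ VN o N := by
  rw [mem_VN] at ha ⊢; omega

lemma VN_mul {M N : ℕ} {a b : Rg o} (ha : a ∈ VN o M) (hb : b ∈ VN o N) :
    a * b ∈ VN o (M + N) := by
  by_cases h1 : a = 0
  · rw [h1, zero_mul]; exact zero_mem _
  by_cases h2 : b = 0
  · rw [h2, mul_zero]; exact zero_mem _
  rw [mem_VN] at ha hb ⊢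
  rw [Subalgebra.coe_mul, Place.ord_mul (by simpa using h1) (by simpa using h2)]
  push_cast; omega

lemma VN_one (N : ℕ) : (1 : Rg o) ∈ VN o N := by
  rw [mem_VN]; simp only [OneMemClass.coe_one, Place.ord_one, zero_add, Nat.cast_nonneg]

lemma VN_of_mul {N : ℕ} {a b : Rg o} (hb : b ≠ 0) (h : a * b ∈ VN o N) : a ∈ VN o N := by
  by_cases h1 : a = 0
  · rw [h1]; exact zero_mem _
  rw [mem_VN] at h ⊢
  rw [Subalgebra.coe_mul, Place.ord_mul (by simpa using h1) (by simpa using hb)] at h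
  have := ord_nonpos b.2
  omega

end BEZ

/-- Bezout with bounded degrees -/
theorem bez (o : Place k K) (M : ℕ) : ∃ M' : ℕ, ∀ (ι : Type) [Fintype ι] (r : ι → Rg o),
    (∀ j, r j ∈ VN o M) → (∀ x : Place k K, x ≠ o → ∃ j, x.val (r j : K) ≠ 0) →
    ∃ α : ι → Rg o, (∀ j, α j ∈ VN o M') ∧ ∑ j, α j * r j = 1 := by
  classical
  obtain ⟨c, hc⟩ := exists_red o
  refine ⟨M + c + M, fun ι _ r hr hx => ?_⟩
  have htop : Ideal.span (Set.range r) = ⊤ := by
    by_contra hne
    obtain ⟨x, hxo, h0⟩ := exists_common_zero _ hne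
    obtain ⟨j, hj⟩ := hx x hxo
    exact hj (h0 _ (Ideal.subset_span ⟨j, rfl⟩))
  obtain ⟨β, hβ⟩ := Ideal.mem_span_range_iff_exists_fun.1
    (show (1 : Rg o) ∈ Ideal.span (Set.range r) by rw [htop]; trivial)
  obtain ⟨i0, hi0⟩ : ∃ i0, r i0 ≠ 0 := by
    by_contra hne
    push Not at hne
    simp [hne] at hβ
  choose q hq hq' using fun j => hc (r i0) (r i0).2 (by simpa using hi0) (β j) (β j).2
  let Q : ι → Rg o := fun j => ⟨q j, hq j⟩
  have hρ : ∀ j, β j - Q j * r i0 ∈ VN o (M + c) := fun j => by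
    have h1 := mem_VN.1 (hr i0)
    have h2 := hq' j
    rw [mem_VN]
    have e : ((β j - Q j * r i0 : Rg o) : K) = β j - q j * r i0 := rfl
    rw [e]; push_cast; omega
  have e1 : (∑ j, Q j * r j) * r i0 = 1 - ∑ j, (β j - Q j * r i0) * r j := by
    rw [← hβ, ← Finset.sum_sub_distrib, Finset.sum_mul]
    exact Finset.sum_congr rfl fun j _ => by ring
  have hs : ∑ j, Q j * r j ∈ VN o (M + c + M) := by
    refine BEZ.VN_of_mul hi0 ?_
    rw [e1]
    exact sub_mem (BEZ.VN_one _) (sum_mem fun j _ => BEZ.VN_mul (hρ j) (hr j))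
  refine ⟨fun j => β j - Q j * r i0 + if j = i0 then ∑ j, Q j * r j else 0, fun j => ?_, ?_⟩
  · refine add_mem (BEZ.VN_mono (by omega) (hρ j)) ?_
    split_ifs
    · exact hs
    · exact zero_mem _
  · simp only [add_mul, Finset.sum_add_distrib, ite_mul, zero_mul, Finset.sum_ite_eq',
      Finset.mem_univ, if_true]
    rw [e1]; ring

theorem tau_sep {ι : Type} {y : ι → Rg o} (hy : Algebra.adjoin k (Set.range y) = ⊤)
    {x z : Place k K} (hx : x ≠ o) (hz : z ≠ o) (h : z ≠ x) :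
    ∃ j, z.val (tau y x j : K) ≠ 0 := by
  by_contra hne
  push Not at hne
  have e : pt hz = pt hx := by
    refine AlgHom.ext_of_adjoin_eq_top hy ?_
    rintro _ ⟨j, rfl⟩
    have h1 := hne j
    rw [← pt_apply hz, tau, map_sub, AlgHom.commutes, sub_eq_zero] at h1
    exact h1
  exact h (pt_inj hz hx fun a ha => DFunLike.congr_fun e ⟨a, ha⟩)

theorem tau_val {ι : Type} (y : ι → Rg o) {x : Place k K} (hx : x ≠ o) (j : ι) :
    x.val (tau y x j : K) = 0 := by
  rw [← pt_apply hx, tau, map_sub, AlgHom.commutes, sub_eq_zero]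
  rfl

theorem tau_ord {ι : Type} {y : ι → Rg o} (hy : Algebra.adjoin k (Set.range y) = ⊤)
    {x : Place k K} (hx : x ≠ o) : ∃ j, x.ord (tau y x j : K) = 1 := by
  by_contra hne
  push Not at hne
  have key : ∀ a : Rg o, x.v ((a : K) - algebraMap k K (x.val (a : K))) ≤ exp (-2 : ℤ) := by
    intro a
    have ha : a ∈ Algebra.adjoin k (Set.range y) := by rw [hy]; trivial
    induction ha using Algebra.adjoin_induction with
    | mem a ha =>
      obtain ⟨j, rfl⟩ := ha
      have h1 := (Place.val_eq_zero (mem_Rg.1 (tau y x j).2 x hx)).1 (tau_val y hx j)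
      have h2 := hne j
      change x.v (tau y x j : K) ≤ _
      rw [Place.v_le_exp]
      rcases h1 with h1 | h1
      · exact .inl h1
      · right; omega
    | algebraMap c => simp only [SubalgebraClass.coe_algebraMap, Place.val_const, sub_self, map_zero, Int.reduceNeg, exp_neg, zero_le]
    | add a b _ _ ha hb =>
      rw [Subalgebra.coe_add, Place.val_add (mem_Rg.1 a.2 x hx) (mem_Rg.1 b.2 x hx),
        (algebraMap k K).map_add, add_sub_add_comm]
      exact x.v.map_add_le ha hb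
    | mul a b _ _ ha hb =>
      rw [Subalgebra.coe_mul, Place.val_mul (mem_Rg.1 a.2 x hx) (mem_Rg.1 b.2 x hx)]
      have e : (a : K) * b - algebraMap k K (x.val (a : K) * x.val (b : K)) =
          a * (b - algebraMap k K (x.val (b : K))) +
            (a - algebraMap k K (x.val (a : K))) * algebraMap k K (x.val (b : K)) := by
        rw [map_mul]; ring
      rw [e]
      refine x.v.map_add_le ?_ ?_ <;> rw [map_mul]
      · exact (mul_le_of_le_one_left' (Place.v_le_one.2 (mem_Rg.1 a.2 x hx))).trans hb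
      · exact (mul_le_of_le_one_right' (x.const _)).trans ha
  obtain ⟨a, ha, ha0, -, h1⟩ := exists_Rg_ord (o := o) {x} (by simpa using hx.symm)
    (Finsupp.single x 1) (Finsupp.single_nonneg.2 zero_le_one)
  have h2 : x.ord a = 1 := by simpa using h1 x (by simp)
  have h3 : x.val a = 0 := (Place.val_eq_zero (by omega)).2 (.inr (by omega))
  have h4 := key ⟨a, ha⟩
  simp only [h3, map_zero, sub_zero] at h4
  rw [Place.v_le_exp] at h4
  rcases h4 with h4 | h4
  · exact ha0 h4
  · omega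

end Pool.Agent.MP_855f4c_ag.WD.Tor
end

section
/-! h86d section II, row TCE: bounded certificates for torsion classes. -/

namespace Pool.Agent.MP_855f4c_ag.WD.Tor

open scoped TensorProduct

variable {k K : Type} [Field k] [Field K] [Algebra k K] [FF k K] {o : Place k K}

lemma TCE.mono {M N : ℕ} (h : M ≤ N) {a : Rg o} (ha : a ∈ VN o M) : a ∈ VN o N := by
  rw [mem_VN] at ha ⊢; omega

/-- A torsion class has a monic minimal certificate of bounded degree. -/
theorem tce (o : Place k K) {κ : Type} (b : Module.Basis κ k (Rg o)) (dg : κ → ℕ)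
    (hdg : Function.Injective dg) (hb : ∀ i, o.ord (b i : K) = -(dg i : ℤ)) {n : ℕ} (hn : n ≠ 0) :
    ∃ N : ℕ, ∀ c : Pic k K, n • c = 0 → ∃ (D : Div k K) (a : Rg o) (i0 : κ), cls D = c ∧ a ≠ 0 ∧
      dv k (a : K) = n • D ∧ dg i0 ≤ N ∧ b.repr a i0 = 1 ∧ (∀ i, b.repr a i ≠ 0 → dg i ≤ dg i0) ∧
      ∃ a' ∈ VN o N, ∃ u ∈ VN o N, ∃ r ∈ VN o N, ∃ r' ∈ VN o N, TC n a a' u r r' ∧
        ∀ w : Rg o, (∀ i, b.repr w i ≠ 0 → dg i < dg i0) → a ∣ w * u → w = 0 := by
  classical
  obtain ⟨g, hg⟩ := exists_min k K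
  obtain ⟨c2, hc2⟩ := R2 k K
  obtain ⟨M', hM'⟩ := bez o (n * (c2 + g))
  refine ⟨M' + n * (c2 + g) + (c2 + g), fun c hc => ?_⟩
  have hc0 : degP c = 0 := by
    have h1 := congrArg degP hc
    rw [map_nsmul, map_zero, nsmul_eq_mul] at h1
    exact (mul_eq_zero.1 h1).resolve_left (by exact_mod_cast hn)
  obtain ⟨Dm, hm, hdg', hcl⟩ := hg o c hc0
  have hm0 : Dm o = 0 := hm.apply_o
  have hmx : ∀ x, 0 ≤ Dm x := hm.1
  have hd0 : 0 ≤ deg Dm := deg_nonneg hm.1
  have hn0 : (0 : ℤ) ≤ n := Int.natCast_nonneg n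
  obtain ⟨f, hf0, hf⟩ := cls_eq_zero.1
    (show cls (n • (Dm - deg Dm • Finsupp.single o 1)) = 0 by rw [map_nsmul, hcl, hc])
  have hfx : ∀ {f : K}, dv k f = n • (Dm - deg Dm • Finsupp.single o 1) →
      (∀ x, x ≠ o → x.ord f = n * Dm x) ∧ o.ord f = -(n * deg Dm) := fun {f} hf =>
    ⟨fun x hx => by simpa [hx.symm] using DFunLike.congr_fun hf x,
      by simpa [hm0] using DFunLike.congr_fun hf o⟩
  set a0 : Rg o := ⟨f, mem_Rg.2 fun x hx => by
    rw [(hfx hf).1 x hx]; exact mul_nonneg hn0 (hmx x)⟩ with ha0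
  have ha00 : a0 ≠ 0 := fun h => hf0 (congrArg Subtype.val h)
  obtain ⟨i0, h1, h2, h3⟩ := repr_deg b dg hdg hb ha00
  set a : Rg o := (b.repr a0 i0)⁻¹ • a0 with ha
  have hane : a ≠ 0 := smul_ne_zero (inv_ne_zero h1) ha00
  have haK : (a : K) ≠ 0 := fun h => hane (Subtype.ext h)
  have hdv : dv k (a : K) = n • (Dm - deg Dm • Finsupp.single o 1) :=
    (dv_smul (inv_ne_zero h1)).trans hf
  obtain ⟨hax, hao⟩ := hfx hdv
  have hi0 : (dg i0 : ℤ) = n * deg Dm := by
    have h4 := (hfx hf).2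
    have h5 : o.ord f = -(dg i0 : ℤ) := h2
    omega
  have hng : (n : ℤ) * deg Dm ≤ n * (c2 + g) := mul_le_mul_of_nonneg_left (by omega) hn0
  obtain ⟨u, hu0, hu, huS⟩ := hc2 (Finsupp.single o (c2 + g : ℤ) - Dm)
    (by rw [map_sub, deg_single]; omega) Dm.support
  have hux : ∀ x, x ≠ o → Dm x ≤ x.ord u := fun x hx => by
    simpa only [Finsupp.coe_zero, Pi.zero_apply, Finsupp.single_add, Finsupp.coe_add, Finsupp.coe_sub, Pi.add_apply, dv_apply, Pi.sub_apply, ne_eq, hx.symm, not_false_eq_true, Finsupp.single_eq_of_ne', add_zero, zero_sub, le_add_neg_iff_add_le, zero_add] using hu x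
  have huo : -(c2 + g : ℤ) ≤ o.ord u := by
    have h4 : 0 ≤ o.ord u + (c2 + g) := by simpa only [Finsupp.coe_zero, Pi.zero_apply, Finsupp.single_add, Finsupp.coe_add, Finsupp.coe_sub, Pi.add_apply, dv_apply, Pi.sub_apply, Finsupp.single_eq_same, hm0, sub_zero] using hu o
    omega
  have hue : ∀ x, x ≠ o → Dm x ≠ 0 → x.ord u = Dm x := fun x hx h0 => by
    have h4 := huS x (Finsupp.mem_support_iff.2 h0)
    simp only [Finsupp.sub_apply, Finsupp.single_eq_of_ne hx] at h4
    omega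
  have hq : ∀ x : Place k K, x.ord (u ^ n / a) = n * x.ord u - x.ord (a : K) := fun x => by
    rw [Place.ord_div (pow_ne_zero _ hu0) haK]; simp
  set u1 : Rg o := ⟨u, mem_Rg.2 fun x hx => (hmx x).trans (hux x hx)⟩ with hu1
  set a' : Rg o := ⟨u ^ n / a, mem_Rg.2 fun x hx => by
    rw [hq, hax x hx, sub_nonneg]; exact mul_le_mul_of_nonneg_left (hux x hx) hn0⟩ with ha'
  have hV : a ∈ VN o (n * (c2 + g)) := mem_VN.2 (by rw [hao]; push_cast; omega)
  have hV' : a' ∈ VN o (n * (c2 + g)) := mem_VN.2 (by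
    change 0 ≤ o.ord (u ^ n / a) + _
    have h4 := mul_le_mul_of_nonneg_left huo hn0
    have h5 := mul_nonneg hn0 hd0
    rw [hq, hao]; push_cast; linarith only [hi0, h4])
  obtain ⟨α, hα, hs⟩ := hM' (Fin 2) ![a, a'] (Fin.forall_fin_two.2 ⟨hV, hV'⟩) fun x hx => by
    by_cases h0 : Dm x = 0
    · exact ⟨0, Place.val_ne_zero.2 ⟨haK, by simpa [h0] using hax x hx⟩⟩
    · refine ⟨1, Place.val_ne_zero.2 ⟨div_ne_zero (pow_ne_zero _ hu0) haK, ?_⟩⟩
      change x.ord (u ^ n / a) = 0
      rw [hq, hax x hx, hue x hx h0, sub_self]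
  refine ⟨_, a, i0, hcl, hane, hdv, ?_, by simp [ha, h1], fun i hi => h3 i fun h => hi (by simp only [ha, map_smul, Finsupp.coe_smul, Pi.smul_apply, h, smul_eq_mul, mul_zero]),
    a', TCE.mono (by omega) hV', u1, TCE.mono (M := c2 + g) (by omega) (mem_VN.2 ?_),
    α 0, TCE.mono (by omega) (hα 0), α 1, TCE.mono (by omega) (hα 1),
    ⟨Subtype.ext (mul_div_cancel₀ _ haK), by simpa only [Fin.isValue, Fin.sum_univ_two, Matrix.cons_val_zero, Matrix.cons_val_one, Matrix.cons_val_fin_one] using hs⟩, ?_⟩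
  · zify; omega
  · change 0 ≤ o.ord u + _
    push_cast; omega
  · rintro w hw ⟨q, hwq⟩
    by_contra hw0
    have hwK : (w : K) ≠ 0 := fun h => hw0 (Subtype.ext h)
    obtain ⟨i1, e1, e2, -⟩ := repr_deg b dg hdg hb hw0
    have e3 := hw i1 e1
    have e4 : (w : K) * u = a * q := congrArg Subtype.val hwq
    have hq0 : (q : K) ≠ 0 := fun h => mul_ne_zero hwK hu0 (by rw [e4, h, mul_zero])
    have e5 : (w : K) / a ∈ LL (Dm - Finsupp.single o 1) := mem_LL.2 (.inr fun x => by
      rw [Place.ord_div hwK haK]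
      by_cases hx : x = o
      · subst hx
        simp only [Finsupp.sub_apply, Finsupp.single_eq_same]
        omega
      · have e6 := congrArg x.ord e4
        rw [Place.ord_mul hwK hu0, Place.ord_mul haK hq0] at e6
        have e7 := mem_Rg.1 q.2 x hx
        have e8 := mem_Rg.1 w.2 x hx
        simp only [Finsupp.sub_apply, Finsupp.single_eq_of_ne hx]
        by_cases h0 : Dm x = 0
        · have e9 := hax x hx
          rw [h0, mul_zero] at e9
          omega
        · have e9 := hue x hx h0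
          omega)
    rw [hm.2, Submodule.mem_bot] at e5
    exact div_ne_zero hwK haK e5

end Pool.Agent.MP_855f4c_ag.WD.Tor
end

section
/-! h86d section II, row GCE. -/

namespace Pool.Agent.MP_855f4c_ag.WD.Tor

variable {k K : Type} [Field k] [Field K] [Algebra k K] [FF k K] {o : Place k K}

namespace GCE

lemma mono {M N : ℕ} (h : M ≤ N) {a : Rg o} (ha : a ∈ VN o M) : a ∈ VN o N := by
  rw [mem_VN] at *; omega

lemma data (c₀ : ℕ) (hc : ∀ D : Div k K, (c₀ : ℤ) ≤ deg D → ∀ S : Finset (Place k K),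
    ∃ f : K, f ≠ 0 ∧ 0 ≤ dv k f + D ∧ ∀ x ∈ S, x.ord f + D x = 0) {n : ℕ} (hn : n ≠ 0)
    {x : Place k K} (hx : x ≠ o) (h : Dv n x o) : ∃ (D : Div k K) (a u : K), 0 ≤ D ∧ D x = 0 ∧
      a ≠ 0 ∧ u ≠ 0 ∧ x.ord a = 1 ∧ (∀ z, z ≠ o → z ≠ x → z.ord a = n * D z) ∧
      0 ≤ o.ord a + (1 + n * c₀ : ℕ) ∧ (∀ z, z ≠ o → D z ≤ z.ord u) ∧
      (∀ z, z ≠ o → z = x ∨ D z ≠ 0 → z.ord u = D z) ∧ 0 ≤ o.ord u + (2 * c₀ : ℕ) := by
  classical
  obtain ⟨c, h⟩ := h
  obtain ⟨E, rfl⟩ := cls_surj c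
  have hE : deg E = 0 := by
    have := congrArg degP h
    simpa only [eq_comm, map_sub, degP_cls, deg_single, sub_self, map_nsmul, Int.nsmul_eq_mul, zero_eq_mul, Int.natCast_eq_zero, hn, false_or] using this
  obtain ⟨f, -, h1, h2⟩ := hc (Finsupp.single o (c₀ : ℤ) - E) (by simp [hE]) {x}
  set D := dv k f + (Finsupp.single o (c₀ : ℤ) - E) with hD
  have hx0 : D x = 0 := by simpa only [hD, Finsupp.coe_add, Finsupp.coe_sub, Pi.add_apply, dv_apply, Pi.sub_apply] using h2 x (by simp)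
  have hd : deg D = c₀ := by simp [hD, hE]
  obtain ⟨a, ha, h3⟩ := (cls_eq_zero (D := Finsupp.single x 1 + n • D -
      Finsupp.single o (1 + n * c₀ : ℤ))).1 (by
    have e : (Finsupp.single o (1 + n * c₀ : ℤ) : Div k K) =
        Finsupp.single o 1 + n • Finsupp.single o (c₀ : ℤ) := by simp [Finsupp.single_add]
    rw [e, hD]
    simp only [map_sub, map_add, map_nsmul, cls_dv, zero_add, nsmul_sub]
    rw [← h]; abel)
  have h4 : ∀ z, z.ord a = (Finsupp.single x 1 + n • D -
      Finsupp.single o (1 + n * c₀ : ℤ) : Div k K) z := fun z => by rw [← h3, dv_apply]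
  have hde : deg (D.erase o) ≤ c₀ := hd ▸ deg_mono fun z => by
    rw [Finsupp.erase_apply]; split_ifs; exacts [h1 z, le_rfl]
  obtain ⟨u, hu, h5, h6⟩ := hc (Finsupp.single o ((2 * c₀ : ℕ) : ℤ) - D.erase o)
    (by rw [map_sub, deg_single]; omega)
    (insert x (D.erase o).support)
  refine ⟨D, a, u, h1, hx0, ha, hu, ?_, fun z hz hzx => ?_, ?_, fun z hz => ?_,
    fun z hz hzx => ?_, ?_⟩
  · simp only [h4, Finsupp.single_add, Finsupp.single_mul, Finsupp.coe_sub, Finsupp.coe_add, Finsupp.coe_smul, nsmul_eq_mul, Pi.sub_apply, Pi.add_apply, Finsupp.single_eq_same, Pi.mul_apply, Pi.natCast_apply, hx0, mul_zero, add_zero, Finsupp.single_eq_of_ne hx, Finsupp.mul_apply, sub_zero]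
  · simp only [h4, Finsupp.single_add, Finsupp.single_mul, Finsupp.coe_sub, Finsupp.coe_add, Finsupp.coe_smul, nsmul_eq_mul, Pi.sub_apply, Pi.add_apply, Finsupp.single_eq_of_ne hzx, Pi.mul_apply, Pi.natCast_apply, zero_add, Finsupp.single_eq_of_ne hz, Finsupp.mul_apply, mul_zero, add_zero, sub_zero]
  · have : 0 ≤ (n : ℤ) * D o := mul_nonneg (by omega) (h1 o)
    simp only [h4, Finsupp.single_add, Finsupp.single_mul, Finsupp.coe_sub, Finsupp.coe_add, Finsupp.coe_smul, nsmul_eq_mul, Pi.sub_apply, Pi.add_apply, Finsupp.single_eq_of_ne hx.symm, Pi.mul_apply, Pi.natCast_apply, zero_add, Finsupp.single_eq_same, Finsupp.mul_apply, Nat.cast_add, Nat.cast_one, Nat.cast_mul, sub_add_cancel, this]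
  · simpa only [Finsupp.coe_zero, Pi.zero_apply, Nat.cast_mul, Nat.cast_ofNat, Finsupp.single_mul, Finsupp.coe_add, Finsupp.coe_sub, Pi.add_apply, dv_apply, Pi.sub_apply, Finsupp.mul_apply, Finsupp.single_eq_of_ne hz, mul_zero, Finsupp.erase_ne hz, zero_sub, le_add_neg_iff_add_le, zero_add] using h5 z
  · have := h6 z (by simpa only [Finsupp.support_erase, Finset.mem_insert, Finset.mem_erase, ne_eq, hz, not_false_eq_true, Finsupp.mem_support_iff, true_and] using hzx)
    simp only [Finsupp.sub_apply, Finsupp.single_eq_of_ne hz, Finsupp.erase_ne hz] at this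
    omega
  · simpa only [Nat.cast_mul, Nat.cast_ofNat, Finsupp.coe_zero, Pi.zero_apply, Finsupp.single_mul, Finsupp.coe_add, Finsupp.coe_sub, Pi.add_apply, dv_apply, Pi.sub_apply, Finsupp.mul_apply, Finsupp.single_eq_same, Finsupp.erase_same, sub_zero] using h5 o

end GCE

theorem gce {ι : Type} [Fintype ι] {y : ι → Rg o} (hy : Algebra.adjoin k (Set.range y) = ⊤)
    {n : ℕ} (hn : n ≠ 0) : ∃ N : ℕ, ∀ x : Place k K, x ≠ o → Dv n x o →
      GC n (tau y x) (VN o N) := by
  obtain ⟨c₀, hc⟩ := R2 k K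
  obtain ⟨My, hMy⟩ : ∃ My : ℕ, ∀ j, y j ∈ VN o My :=
    ⟨Finset.univ.sup fun j => (-o.ord (y j : K)).toNat, fun j => by
      have := Finset.le_sup (f := fun j => (-o.ord (y j : K)).toNat) (Finset.mem_univ j)
      rw [mem_VN]; omega⟩
  obtain ⟨M', hM'⟩ := bez o (My + (1 + n * c₀) + (n + 1) * (2 * c₀))
  refine ⟨My + (1 + n * c₀) + (n + 1) * (2 * c₀) + M', fun x hx h => ?_⟩
  obtain ⟨D, a, u, hD, hDx, ha, hu, hax, haz, hao, huz, hue, huo⟩ := GCE.data c₀ hc hn hx h
  have hτ : ∀ j, 0 ≤ o.ord (tau y x j : K) + My := fun j => mem_VN.1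
    (sub_mem (hMy j) (mem_VN.2 (by simp)))
  have hτ0 : ∀ j z, z ≠ o → 0 ≤ z.ord (tau y x j : K) := fun j => mem_Rg.1 (tau y x j).2
  have haR : a ∈ Rg o := mem_Rg.2 fun z hz => by
    by_cases hzx : z = x
    · rw [hzx, hax]; omega
    · rw [haz z hz hzx]; exact mul_nonneg (by omega) (hD z)
  have huR : u ∈ Rg o := mem_Rg.2 fun z hz => (hD z).trans (huz z hz)
  have hr : ∀ j z, (tau y x j : K) ≠ 0 → Place.ord (k := k) z (tau y x j * u ^ n / a : K) =
      z.ord (tau y x j : K) + n * z.ord u - z.ord a := fun j z h0 => by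
    rw [Place.ord_div (mul_ne_zero h0 (pow_ne_zero _ hu)) ha, Place.ord_mul h0 (pow_ne_zero _ hu),
      Place.ord_pow]
  have hrR : ∀ j, (tau y x j * u ^ n / a : K) ∈ Rg o := fun j => mem_Rg.2 fun z hz => by
    by_cases h0 : (tau y x j : K) = 0
    · simp [h0]
    rw [hr j z h0]
    have h1 := mul_le_mul_of_nonneg_left (huz z hz) (Int.natCast_nonneg n)
    by_cases hzx : z = x
    · subst hzx
      have := ((Place.val_eq_zero (hτ0 j z hz)).1 (tau_val y hx j)).resolve_left h0
      rw [hDx] at h1; omega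
    · have := hτ0 j z hz
      rw [haz z hz hzx]; omega
  have h2 : 0 ≤ (n : ℤ) * (o.ord u + (2 * c₀ : ℕ)) := mul_nonneg (by omega) huo
  have h3 := ord_nonpos haR
  have hrV : ∀ j, (⟨_, hrR j⟩ : Rg o) ∈ VN o (My + (1 + n * c₀) + (n + 1) * (2 * c₀)) := fun j => by
    rw [mem_VN]
    by_cases h0 : (tau y x j : K) = 0
    · simp only [h0, zero_mul, zero_div, Place.ord_zero]; omega
    have := hτ j
    have h4 : (0 : ℤ) ≤ n * c₀ := by positivity
    simp only [hr j o h0]; push_cast at *; linarith only [h3, this, h4, h2]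
  obtain ⟨α, hα, hα1⟩ := hM' (ι ⊕ ι) (Sum.elim (fun j => ⟨_, hrR j⟩) fun j => tau y x j * ⟨a, haR⟩)
    (by
      rintro (j | j)
      · exact hrV j
      · rw [mem_VN]
        by_cases h0 : (tau y x j : K) = 0
        · simp only [Sum.elim_inr, MulMemClass.coe_mul, h0, zero_mul, Place.ord_zero]; omega
        have := hτ j
        simp only [Sum.elim_inr, MulMemClass.coe_mul, Place.ord_mul h0 ha]; omega)
    fun z hz => by
      by_cases hzx : z = x
      · subst hzx
        obtain ⟨j, hj⟩ := tau_ord hy hx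
        have h0 : (tau y z j : K) ≠ 0 := Place.ne_zero_of_ord (x := z) (by omega)
        refine ⟨.inl j, Place.val_ne_zero.2
          ⟨div_ne_zero (mul_ne_zero h0 (pow_ne_zero _ hu)) ha, ?_⟩⟩
        simp only [Sum.elim_inl, hr j z h0, hj, hue z hz (.inl rfl), hDx, mul_zero, add_zero, hax, sub_self]
      · obtain ⟨j, hj⟩ := tau_sep hy hx hz hzx
        obtain ⟨h0, hj⟩ := Place.val_ne_zero.1 hj
        by_cases hDz : D z = 0
        · refine ⟨.inr j, Place.val_ne_zero.2 ⟨mul_ne_zero h0 ha, ?_⟩⟩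
          simp only [Sum.elim_inr, MulMemClass.coe_mul, Place.ord_mul h0 ha, hj, haz z hz hzx, hDz, mul_zero, add_zero]
        · refine ⟨.inl j, Place.val_ne_zero.2
            ⟨div_ne_zero (mul_ne_zero h0 (pow_ne_zero _ hu)) ha, ?_⟩⟩
          simp only [Sum.elim_inl, hr j z h0, hj, hue z hz (.inr hDz), zero_add, haz z hz hzx, sub_self]
  have huV : (⟨u, huR⟩ : Rg o) ∈ VN o (My + (1 + n * c₀) + (n + 1) * (2 * c₀)) :=
    GCE.mono (by nlinarith only []) (mem_VN.2 huo)
  obtain ⟨γ, hγ, hγ1⟩ := hM' (Option ι) (fun j => j.elim ⟨u, huR⟩ (tau y x))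
    (by
      rintro (_ | j)
      · exact huV
      · exact GCE.mono (by omega) (mem_VN.2 (hτ j)))
    fun z hz => by
      by_cases hzx : z = x
      · exact ⟨none, Place.val_ne_zero.2 ⟨hu, by rw [← hDx, ← hzx]; exact hue z hz (.inl hzx)⟩⟩
      · obtain ⟨j, hj⟩ := tau_sep hy hx hz hzx
        exact ⟨some j, hj⟩
  refine ⟨⟨a, haR⟩, ⟨u, huR⟩, γ none, fun j => ⟨_, hrR j⟩, fun j => α (.inl j), fun j => α (.inr j),
    fun j => γ (some j), GCE.mono (by omega) (mem_VN.2 hao), GCE.mono (by omega) huV,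
    GCE.mono (by omega) (hγ _), fun j => ⟨GCE.mono (by omega) (hrV j), GCE.mono (by omega) (hα _),
      GCE.mono (by omega) (hα _), GCE.mono (by omega) (hγ _)⟩, fun j => Subtype.ext ?_, ?_, ?_⟩
  · simp only [MulMemClass.coe_mul, SubmonoidClass.coe_pow]; field_simp
  · rw [← hα1, Fintype.sum_sum_type, Finset.sum_add_distrib]; rfl
  · rw [← hγ1, Fintype.sum_option]; rfl

end Pool.Agent.MP_855f4c_ag.WD.Tor
end

section
/-! h86d section II, row GCC: a certificate gives divisibility of the class of `x - o`. -/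

namespace Pool.Agent.MP_855f4c_ag.WD.Tor

open scoped TensorProduct

variable {k K : Type} [Field k] [Field K] [Algebra k K] [FF k K] {o : Place k K}

namespace GCC

theorem dv_of {n : ℕ} {x : Place k K} (a : K)
    (h : ∀ z, z ≠ o → (n : ℤ) ∣ (dv k a - Finsupp.single x 1 : Div k K) z) : Dv n x o := by
  classical
  have h1 : cls (dv k a - Finsupp.single x 1) = -cls (Finsupp.single x 1) := by simp
  have h2 : deg (dv k a - Finsupp.single x 1) = -1 := by simp
  generalize (dv k a - Finsupp.single x 1 : Div k K) = E at h h1 h2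
  obtain ⟨B, e, rfl⟩ : ∃ (B : Div k K) (e : ℤ), E = n • B + e • Finsupp.single o 1 := by
    refine ⟨(E.erase o).mapRange (· / (n : ℤ)) (by simp), E o, ?_⟩
    ext z
    by_cases hz : z = o
    · subst hz; simp only [Finsupp.smul_single, Int.zsmul_eq_mul, mul_one, Finsupp.coe_add, Finsupp.coe_smul, nsmul_eq_mul, Pi.add_apply, Pi.mul_apply, Pi.natCast_apply, Finsupp.mapRange_apply, Finsupp.erase_same, EuclideanDomain.zero_div, mul_zero, Finsupp.single_eq_same, zero_add]
    · have := Int.mul_ediv_cancel' (h z hz)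
      simp only [Finsupp.smul_single, Int.zsmul_eq_mul, mul_one, Finsupp.coe_add, Finsupp.coe_smul, nsmul_eq_mul, Pi.add_apply, Pi.mul_apply, Pi.natCast_apply, Finsupp.mapRange_apply, ne_eq, hz, not_false_eq_true, Finsupp.erase_ne, this, Finsupp.single_eq_of_ne, add_zero]
  rw [map_add, map_nsmul, map_zsmul, deg_single, nsmul_eq_mul, smul_eq_mul, mul_one] at h2
  obtain rfl : e = -1 - n * deg B := by linarith only [h2]
  refine ⟨deg B • cls (Finsupp.single o 1) - cls B, ?_⟩
  rw [← neg_eq_iff_eq_neg.2 h1, map_add, map_nsmul, map_zsmul]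
  module

end GCC

theorem gcc {ι : Type} [Fintype ι] {y : ι → Rg o} (hy : Algebra.adjoin k (Set.range y) = ⊤)
    {n : ℕ} (hn : n ≠ 0) {x : Place k K} (hx : x ≠ o) (h : GC n (tau y x) Set.univ) :
    Dv n x o := by
  classical
  have _ := hn
  obtain ⟨a, u, c, r, α, β, γ, -, -, -, -, h1, h2, h3⟩ := h
  have hv : ∀ j, pt hx (tau y x j) = 0 := fun j => tau_val y hx j
  have hu : (u : K) ≠ 0 := by
    intro h0
    have := congrArg (pt hx) h3
    simp only [map_add, map_sum, map_mul, hv, mul_zero, Finset.sum_const_zero, map_one] at this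
    simp [h0] at this
  have e : ∀ j, (tau y x j : K) * (u : K) ^ n = a * r j := fun j => congrArg Subtype.val (h1 j)
  have ho : ∀ j, (tau y x j : K) ≠ 0 → (a : K) ≠ 0 ∧ ∀ z : Place k K,
      z.ord (tau y x j : K) + n * z.ord (u : K) = z.ord (a : K) + z.ord (r j : K) := fun j hj => by
    have h0 := mul_ne_zero hj (pow_ne_zero n hu)
    rw [e, mul_ne_zero_iff] at h0
    refine ⟨h0.1, fun z => ?_⟩
    rw [← Place.ord_mul h0.1 h0.2, ← e, Place.ord_mul hj (pow_ne_zero n hu), Place.ord_pow]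
  obtain ⟨j0, hj0⟩ := tau_ord hy hx
  have t0 : (tau y x j0 : K) ≠ 0 := Place.ne_zero_of_ord (x := x) (by omega)
  have ha := (ho j0 t0).1
  refine GCC.dv_of (a : K) fun z hz => ?_
  have reg : ∀ w : Rg o, 0 ≤ z.ord (w : K) := fun w => mem_Rg.1 w.2 z hz
  rw [Finsupp.sub_apply, dv_apply]
  have hex : ∃ j, z.val (r j : K) ≠ 0 ∨ z.val (tau y x j : K) ≠ 0 ∧ z.val (a : K) ≠ 0 := by
    by_contra hc
    have := congrArg (pt hz) h2
    rw [map_sum, map_one, Finset.sum_eq_zero] at this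
    · exact zero_ne_one this
    · intro j _
      have h4 := not_or.1 (not_exists.1 hc j)
      rw [map_add, map_mul, map_mul, map_mul, pt_apply hz (r j), pt_apply hz (tau y x j),
        pt_apply hz a, not_not.1 h4.1,
        not_not.1 (mul_ne_zero_iff.not.2 h4.2), mul_zero, mul_zero, add_zero]
  obtain ⟨j, hj | ⟨hj, hj'⟩⟩ := hex
  · obtain ⟨r0, r1⟩ := Place.val_ne_zero.1 hj
    have tj : (tau y x j : K) ≠ 0 := fun h0 => by
      have := e j
      rw [h0, zero_mul] at this
      exact mul_ne_zero ha r0 this.symm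
    have h4 := (ho j tj).2 z
    refine ⟨z.ord (u : K), ?_⟩
    by_cases hzx : z = x
    · subst hzx
      have h5 := (ho j0 t0).2 z
      have h6 := reg (r j0)
      have h7 := ((Place.val_eq_zero (reg (tau y z j))).1 (hv j)).resolve_left tj
      rw [Finsupp.single_eq_same]
      omega
    · obtain ⟨j1, hj1⟩ := tau_sep hy hx hz hzx
      obtain ⟨t1, t2⟩ := Place.val_ne_zero.1 hj1
      have h5 := (ho j1 t1).2 z
      have h6 := reg (r j1)
      have h7 := reg (tau y x j)
      rw [Finsupp.single_eq_of_ne hzx]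
      omega
  · have hzx : z ≠ x := by
      rintro rfl
      exact hj (hv j)
    rw [Finsupp.single_eq_of_ne hzx, (Place.val_ne_zero.1 hj').2]
    exact ⟨0, by simp⟩

end Pool.Agent.MP_855f4c_ag.WD.Tor
end

section
/-! h86d section II, row TORS: degree zero classes are torsion over the closure of a prime field. -/

namespace Pool.Agent.MP_855f4c_ag.WD.Tor

variable {k K : Type} [Field k] [Field K] [Algebra k K] [FF k K] {o : Place k K}

lemma TORS.pow_fix {G X : Type} [Group G] [MulAction G X] {s : G} {x : X} {m n : ℕ}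
    (h : s ^ m • x = x) (hd : m ∣ n) : s ^ n • x = x := by
  obtain ⟨c, rfl⟩ := hd
  rw [pow_mul]
  exact (MulAction.stabilizer G x).pow_mem h c

theorem exists_frob (p : ℕ) [Fact p.Prime] [Algebra (ZMod p) k] [Algebra.IsAlgebraic (ZMod p) k]
    (o : Place k K) : ∃ s : SA k K, s • o = o ∧ (∀ x : Place k K, ∃ m, 0 < m ∧ s ^ m • x = x) ∧
      ∀ m, 0 < m → {x : Place k K | s ^ m • x = x}.Finite := by
  classical
  have := FF.closed (k := k) (K := K)
  have : CharP k p := charP_of_injective_algebraMap (algebraMap (ZMod p) k).injective p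
  obtain ⟨S, hS⟩ := Algebra.FiniteType.out (R := k) (A := Rg o)
  have hy : Algebra.adjoin k (Set.range (Subtype.val : S → Rg o)) = ⊤ := by
    rw [Subtype.range_coe_subtype]; exact hS
  obtain ⟨e, σ, he, h1, h2⟩ := frob_abs p (Subtype.val : S → Rg o) hy
  let σK : K ≃+* K := IsFractionRing.ringEquivOfRingEquiv σ
  have hK : ∀ a : Rg o, σK a = σ a := fun a => IsFractionRing.ringEquivOfRingEquiv_algebraMap σ a
  have hc : ∀ c, σK (algebraMap k K c) = algebraMap k K (iterateFrobeniusEquiv k p e c) := fun c =>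
    (hK (algebraMap k _ c)).trans (by rw [h2]; rfl)
  let s : SA k K := SA.mk' σK _ hc
  have hs : ∀ c, SA.cst s c = c ^ p ^ e := fun c => SA.cst_eq s c _ (hc c)
  have ho : s • o = o := by
    by_contra hne
    obtain ⟨c, hc⟩ := exists_deg o
    obtain ⟨a, ha, -, ha'⟩ := hc (c + 1) (by omega)
    have h3 : σK (σ.symm ⟨a, ha⟩ : Rg o) ∈ Rg (s • o) := (SA.mem_Rg_act s o _).2 (Subtype.prop _)
    rw [hK, σ.apply_symm_apply] at h3
    have := mem_Rg.1 h3 o (Ne.symm hne)
    simp only at this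
    omega
  have hne : ∀ m {x : Place k K}, x ≠ o → s ^ m • x ≠ o := fun m x hx e =>
    hx (MulAction.injective (s ^ m) (e.trans (TORS.pow_fix (m := 1) (by simpa using ho)
      (one_dvd m)).symm))
  have hv : ∀ (m : ℕ) (x : Place k K) (j : S),
      (s ^ m • x).val (j.1 : K) = x.val (j.1 : K) ^ p ^ (e * m) := fun m x j => by
    induction m with
    | zero => simp
    | succ m ih =>
      have h3 := SA.val_act s (s ^ m • x) (j.1 : K)
      rw [show s.1 (j.1 : K) = (j.1 : K) from (hK _).trans (congrArg _ (h1 j)), hs, ih,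
        ← mul_smul, ← pow_succ', ← pow_mul, ← pow_add] at h3
      exact h3
  have hinj : ∀ {x z : Place k K}, x ≠ o → z ≠ o → (∀ j : S, x.val (j.1 : K) = z.val (j.1 : K)) →
      x = z := fun {x z} hx hz h => pt_inj hx hz fun a ha => by
    have : pt hx = pt hz := AlgHom.ext_of_adjoin_eq_top hy (by rintro _ ⟨j, rfl⟩; exact h j)
    exact DFunLike.congr_fun this ⟨a, ha⟩
  refine ⟨s, ho, fun x => ?_, fun m hm => ?_⟩
  · by_cases hx : x = o
    · exact ⟨1, one_pos, by rw [pow_one, hx, ho]⟩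
    obtain ⟨m, hm, h⟩ := FROB.fix_fin p _ (Set.finite_range fun j : S => x.val (j.1 : K))
    refine ⟨m, hm, hinj (hne m hx) hx fun j => ?_⟩
    have h3 : x.val (j.1 : K) ^ p ^ m = x.val (j.1 : K) := h _ ⟨j, rfl⟩
    rw [hv, mul_comm]
    generalize e = e'
    induction e' with
    | zero => simp
    | succ n ih => rw [mul_add_one, pow_add, pow_mul, ih, h3]
  · have hq : 1 < p ^ (e * m) := Nat.one_lt_pow (by positivity) (Fact.out : p.Prime).one_lt
    have hr : {c : k | c ^ p ^ (e * m) = c}.Finite :=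
      (Polynomial.rootSet_finite (Polynomial.X ^ p ^ (e * m) - Polynomial.X : Polynomial k) k).subset
        fun c hc => by
        rw [Polynomial.mem_rootSet]
        exact ⟨FiniteField.X_pow_card_sub_X_ne_zero k hq, by simpa [sub_eq_zero] using hc⟩
    have h3 := (Set.Finite.pi' fun _ : S => hr).preimage
      (f := fun (x : {x : Place k K // x ≠ o}) (j : S) => x.1.val (j.1 : K))
      fun x _ z _ h => Subtype.ext (hinj x.2 z.2 (congrFun h))
    refine ((h3.image Subtype.val).insert o).subset fun x hx => ?_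
    by_cases hxo : x = o
    · exact .inl hxo
    · refine .inr ⟨⟨x, hxo⟩, fun j => ?_, rfl⟩
      have h4 := hv m x j
      rw [show s ^ m • x = x from hx] at h4
      exact h4.symm

omit [FF k K] in
lemma TORS.div_fix {s : SA k K} {D : Div k K} (h : ∀ x ∈ D.support, s • x = x) : s • D = D := by
  conv_lhs => rw [← Finsupp.sum_single D, Finsupp.sum, Finset.smul_sum]
  conv_rhs => rw [← Finsupp.sum_single D, Finsupp.sum]
  exact Finset.sum_congr rfl fun x hx => by rw [SA.act_single, h x hx]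

omit [FF k K] in
lemma TORS.supp_fix {t : SA k K} {D : Div k K} (h : t • D = D) (h0 : 0 ≤ D) {g : ℕ}
    (hg : deg D ≤ g) {x : Place k K} (hx : x ∈ D.support) : t ^ g.factorial • x = x := by
  have h1 : ∀ i : ℕ, t ^ i • x ∈ D.support := fun i => by
    have h2 : t ^ i • D = D := TORS.pow_fix (m := 1) (by simpa using h) (one_dvd i)
    rw [Finsupp.mem_support_iff, ← h2, SA.div_apply, inv_smul_smul]
    exact Finsupp.mem_support_iff.1 hx
  have h2 : D.support.card ≤ g := by
    have := Finset.card_nsmul_le_sum D.support (fun x => D x) 1 fun x hx => by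
      have h3 : (0 : ℤ) ≤ D x := h0 x
      have := Finsupp.mem_support_iff.1 hx
      omega
    rw [← deg_eq_sum, nsmul_eq_mul, mul_one] at this
    omega
  obtain ⟨i, hi, j, hj, hij, e⟩ := Finset.exists_ne_map_eq_of_card_lt_of_maps_to
    (s := Finset.range (g + 1)) (t := D.support) (by simp; omega) (f := fun i => t ^ i • x)
    fun i _ => h1 i
  wlog hlt : i < j generalizing i j
  · exact this j hj i hi hij.symm e.symm (by omega)
  have h3 : t ^ (j - i) • x = x := MulAction.injective (t ^ i) (by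
    simp only [← mul_smul, ← pow_add]
    rw [Nat.add_sub_cancel' hlt.le]; exact e.symm)
  exact TORS.pow_fix h3 (Nat.dvd_factorial (by omega) (by have := Finset.mem_range.1 hj; omega))

theorem tors_of (s : SA k K) (ho : s • o = o) (h1 : ∀ x : Place k K, ∃ m, 0 < m ∧ s ^ m • x = x)
    (h2 : ∀ m, 0 < m → {x : Place k K | s ^ m • x = x}.Finite) (c : Pic k K) (hc : degP c = 0) :
    IsOfFinAddOrder c := by
  classical
  obtain ⟨g, hg⟩ := exists_min k K
  choose D d1 d2 d3 using fun j : ℕ => hg o (j • c) (by rw [map_nsmul, hc, smul_zero])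
  obtain ⟨E, rfl⟩ := cls_surj c
  choose m m0 hm using h1
  set t := s ^ ∏ x ∈ E.support, m x with ht
  have hE : t • E = E := TORS.div_fix fun x hx => TORS.pow_fix (hm x) (Finset.dvd_prod_of_mem m hx)
  have hto : t • o = o := TORS.pow_fix (m := 1) (by simpa using ho) (one_dvd _)
  have hD : ∀ j, t • D j = D j := fun j => by
    refine IsMin.unique (o := o) ⟨SA.act_nonneg t (d1 j).1, (Submodule.eq_bot_iff _).2 fun f hf => ?_⟩
      (d1 j) ?_
    · have h3 := (SA.mem_LL_act t (t.1.symm f) (D j - Finsupp.single o 1)).1 (by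
        rwa [RingEquiv.apply_symm_apply, smul_sub, SA.act_single, hto])
      rw [(d1 j).2, Submodule.mem_bot] at h3
      simpa using h3
    · have h3 := congrArg (t • ·) (d3 j)
      simp only [SA.act_cls, smul_sub, SA.act_zsmul, SA.act_single, hto] at h3
      rw [SA.deg_act, h3, d3, ← map_nsmul, SA.act_cls, SA.act_nsmul, hE]
  have hF := h2 ((∏ x ∈ E.support, m x) * g.factorial)
    (Nat.mul_pos (Finset.prod_pos fun x _ => m0 x) g.factorial_pos)
  have hfin : ∀ j, D j ∈ Set.Icc (0 : Div k K) (∑ x ∈ hF.toFinset, Finsupp.single x (g : ℤ)) :=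
    fun j => ⟨(d1 j).1, fun x => by
      rw [Finsupp.finsetSum_apply]
      simp only [Finsupp.single_apply, Finset.sum_ite_eq']
      by_cases hx : x ∈ (D j).support
      · rw [if_pos (hF.mem_toFinset.2 (by
          rw [Set.mem_ofPred_eq, pow_mul]; exact TORS.supp_fix (hD j) (d1 j).1 (d2 j) hx))]
        exact (Finset.single_le_sum (f := fun x => D j x) (fun y _ => (d1 j).1 y) hx).trans (d2 j)
      · rw [Finsupp.notMem_support_iff.1 hx]; split_ifs <;> omega⟩
  by_contra hn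
  refine Set.infinite_of_injective_forall_mem (fun i j h => ?_) hfin (Set.finite_Icc _ _)
  refine injective_nsmul_iff_not_isOfFinAddOrder.2 hn ?_
  simp only [← d3, h]

end Pool.Agent.MP_855f4c_ag.WD.Tor
end

section
namespace Pool.Agent.MP_855f4c_ag.WD.Tor

open scoped TensorProduct

variable {k K : Type} [Field k] [Field K] [Algebra k K] [FF k K]

theorem exists_iso (L : Type) [Field L] [Algebra k L] [IsAlgClosed L] (o : Place k K) :
    ∃ e : L ⊗[k] Rg o ≃ₐ[L] Rg (cst L o), ∀ a : Rg o, (e (1 ⊗ₜ a) : BC k K L) = iK L (a : K) := by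
  let i : L ⊗[k] Rg o →ₐ[L] L ⊗[k] K := Algebra.TensorProduct.map (AlgHom.id L L) (Rg o).val
  have hi : Function.Injective i :=
    Module.Flat.lTensor_preserves_injective_linearMap (M := L) (Rg o).val.toLinearMap
      Subtype.val_injective
  let j : L ⊗[k] Rg o →ₐ[L] BC k K L := (IsScalarTower.toAlgHom L (L ⊗[k] K) (BC k K L)).comp i
  have hj : Function.Injective j := (IsFractionRing.injective (L ⊗[k] K) (BC k K L)).comp hi
  have h1 : ∀ a : Rg o, j (1 ⊗ₜ a) = iK L (a : K) := fun a => rfl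
  have h2 : j.range = Rg (cst L o) := by
    refine le_antisymm ?_ fun F hF => ?_
    · rintro _ ⟨w, rfl⟩
      change j w ∈ _
      induction w with
      | zero => simp
      | add x y hx hy => rw [map_add]; exact add_mem hx hy
      | tmul c a =>
        have : c ⊗ₜ[k] a = c • ((1 : L) ⊗ₜ[k] a) := by simp [TensorProduct.smul_tmul']
        rw [this, map_smul, h1]
        refine Subalgebra.smul_mem _ (mem_Rg.2 fun P hP => ?_) _
        rcases cst_or_gen P with ⟨y, rfl⟩ | ⟨ψ, rfl⟩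
        · rw [ord_cst]; exact mem_Rg.1 a.2 y fun h => hP (by rw [h])
        · rw [ord_gen]
    · obtain ⟨a, rfl⟩ := mem_tensor F fun ψ => mem_Rg.1 hF _ (gen_ne_cst ψ o)
      have h3 := mem_span_of_co (a := a) (Rg o).toSubmodule fun φ => mem_Rg.2 fun y hy =>
        Place.v_le_one.1 ((cst_v_le L y a 1).1 (Place.v_le_one.2
          (mem_Rg.1 hF _ fun h => hy (cst_inj L h))) φ)
      have h4 : Submodule.span L ((fun f : K => (1 : L) ⊗ₜ[k] f) '' (Rg o).toSubmodule) ≤
          i.range.toSubmodule := Submodule.span_le.2 (by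
        rintro _ ⟨f, hf, rfl⟩; exact ⟨1 ⊗ₜ ⟨f, hf⟩, rfl⟩)
      obtain ⟨w, rfl⟩ := h4 h3
      exact ⟨w, rfl⟩
  exact ⟨(AlgEquiv.ofInjective j hj).trans (Subalgebra.equivOfEq _ _ h2), h1⟩

end Pool.Agent.MP_855f4c_ag.WD.Tor
end

section
/-! h86d section II: finiteness and rigidity of the torsion, divisibility. -/

namespace Pool.Agent.MP_855f4c_ag.WD.Tor

open scoped TensorProduct

variable {k K : Type} [Field k] [Field K] [Algebra k K] [FF k K] {o : Place k K}

/-- Minimal representatives: an effective divisor that is alone in its class. -/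
theorem minrep (o : Place k K) (E : Div k K) (hE : deg E = 0) :
    ∃ D : Div k K, 0 ≤ D ∧ D - deg D • Finsupp.single o 1 - E ∈ prin k K ∧
      ∀ D' : Div k K, 0 ≤ D' → D' - D ∈ prin k K → D' = D := by
  obtain ⟨g, H⟩ := exists_min k K
  obtain ⟨D, h1, -, h2⟩ := H o (cls E) hE
  refine ⟨D, h1.1, cls_eq_zero.1 (by rw [map_sub, h2, sub_self]), fun D' h3 h4 => h1.alone h3 ?_⟩
  have := cls_eq_zero.2 h4
  rwa [map_sub, sub_eq_zero] at this

theorem jn_finite (n : ℕ) (hn : (n : k) ≠ 0) : Finite (JJ k K n) := by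
  have : IsAlgClosed k := FF.closed K
  have hn0 : n ≠ 0 := by rintro rfl; simp at hn
  obtain ⟨o⟩ : Nonempty (Place k K) := inferInstance
  obtain ⟨b, hb⟩ := exists_basis o
  obtain ⟨N, H⟩ := tce o b Subtype.val Subtype.val_injective hb hn0
  choose D a i0 h1 h2 h3 h4 h5 using fun c : JJ k K n =>
    H c (AddSubgroup.torsionBy.nsmul_iff.1 c.2)
  have hfin : {i : Degs o | (i : ℕ) ≤ N}.Finite :=
    (Set.finite_Iic N).preimage Subtype.val_injective.injOn
  have hU := hfin.biUnion fun i _ =>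
    fin_abs b Subtype.val Subtype.val_injective hn (VN o N) i
  refine Set.finite_univ_iff.1 (Set.Finite.of_finite_image (f := a) (hU.subset ?_)
    fun c _ c' _ h6 => ?_)
  · rintro _ ⟨c, -, rfl⟩
    exact Set.mem_biUnion (h4 c) (h5 c)
  have h7 : n • D c = n • D c' := by rw [← h3, ← h3, h6]
  refine Subtype.ext ?_
  rw [← h1, ← h1, nsmul_right_injective hn0 h7]

lemma exists_gens (o : Place k K) : ∃ (m : ℕ) (y : Fin m → Rg o),
    Algebra.adjoin k (Set.range y) = ⊤ := by
  obtain ⟨s, hs⟩ := (inferInstance : Algebra.FiniteType k (Rg o)).out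
  exact ⟨s.card, fun i => s.equivFin.symm i, by
    rw [← hs]; congr 1; ext a; simp only [Set.mem_range, Equiv.exists_congr_left s.equivFin.symm, Equiv.symm_symm, Equiv.symm_apply_apply, Subtype.exists, exists_prop, exists_eq_right, SetLike.mem_coe]⟩

section abstract

variable {A B L : Type} [CommRing A] [Algebra k A] [Field L] [Algebra k L] [CommRing B]
  [Algebra L B] (e : L ⊗[k] A ≃ₐ[L] B)

lemma gens_bc {ι : Type} {y : ι → A} (hy : Algebra.adjoin k (Set.range y) = ⊤) :
    Algebra.adjoin L (Set.range fun j => e (1 ⊗ₜ y j)) = ⊤ := by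
  refine eq_top_iff.2 fun w _ => ?_
  obtain ⟨w, rfl⟩ := e.surjective w
  induction w using TensorProduct.induction_on with
  | zero => simp
  | add x y hx hy => rw [map_add]; exact add_mem (hx trivial) (hy trivial)
  | tmul c a =>
    have : c ⊗ₜ[k] a = c • ((1 : L) ⊗ₜ[k] a) := by simp [TensorProduct.smul_tmul']
    rw [this, map_smul]
    refine Subalgebra.smul_mem _ ?_ _
    clear this
    have ha : a ∈ Algebra.adjoin k (Set.range y) := hy ▸ trivial
    induction ha using Algebra.adjoin_induction with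
    | mem x hx => obtain ⟨j, rfl⟩ := hx; exact Algebra.subset_adjoin ⟨j, rfl⟩
    | algebraMap r =>
      rw [← Algebra.TensorProduct.algebraMap_apply', IsScalarTower.algebraMap_apply k L,
        e.commutes]
      exact Subalgebra.algebraMap_mem _ _
    | add x y _ _ hx hy =>
      rw [TensorProduct.tmul_add, map_add]; exact add_mem (hx trivial) (hy trivial)
    | mul x y _ _ hx hy =>
      have := mul_mem (hx trivial) (hy trivial)
      rwa [← map_mul, Algebra.TensorProduct.tmul_mul_tmul, one_mul] at this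

lemma rig_bc [IsAlgClosed k] [IsDomain B] {κ : Type} (b : Module.Basis κ k A) (dg : κ → ℕ)
    (hdg : Function.Injective dg) {n : ℕ} (hn : (n : k) ≠ 0) :
    ∃ b' : Module.Basis κ L B, (∀ i, b' i = e (1 ⊗ₜ b i)) ∧ ∀ (a a' u r r' : B) (i0 : κ), a ≠ 0 →
      b'.repr a i0 = 1 → (∀ i, b'.repr a i ≠ 0 → dg i ≤ dg i0) → TC n a a' u r r' →
      (∀ w, (∀ i, b'.repr w i ≠ 0 → dg i < dg i0) → a ∣ w * u → w = 0) →
      ∃ a0, a = e (1 ⊗ₜ a0) := by
  let b' := (Algebra.TensorProduct.basis L b).map e.toLinearEquiv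
  have hr : ∀ w i, cf L b (e.symm w) i = b'.repr w i := fun w i => by simp [b', cf]
  refine ⟨b', fun i => by simp [b'], fun a a' u r r' i0 h2 h5 h6 h7 h8 => ?_⟩
  obtain ⟨a0, ha0⟩ := rig b dg hdg hn (a := e.symm a) (a' := e.symm a')
    (u := e.symm u) (r := e.symm r) (r' := e.symm r')
    ⟨by rw [← map_mul, h7.1, map_pow], by rw [← map_mul, ← map_mul, ← map_add, h7.2, map_one]⟩
    (fun w hw => by
      have := congrArg e hw
      rw [map_mul, e.apply_symm_apply, map_zero] at this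
      exact e.injective (by simpa [h2] using this))
    i0 (by rw [hr, h5]) (fun i hi => h6 i (by rwa [hr] at hi))
    (fun w hw hd => by
      have := h8 (e w) (fun i hi => hw i (by rwa [← hr, e.symm_apply_apply] at hi))
        (by simpa only [AlgEquiv.apply_symm_apply, map_mul] using map_dvd e hd)
      exact e.injective (by simpa using this))
  exact ⟨a0, by rw [← ha0, e.apply_symm_apply]⟩

end abstract

section abstract2

variable {L M : Type} [Field L] [Algebra k L] [Field M] [Algebra L M] [FF L M] {O P : Place L M}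
  (e : L ⊗[k] Rg o ≃ₐ[L] Rg O)

lemma const_abs (he : ∀ a : Rg o, O.ord (e (1 ⊗ₜ a) : M) = o.ord (a : K)) {n : ℕ}
    (hn : (n : k) ≠ 0) (c : Pic L M) (hc : n • c = 0) :
    ∃ (D : Div L M) (a0 : Rg o), cls D = c ∧ dv L (e (1 ⊗ₜ a0) : M) = n • D := by
  have : IsAlgClosed k := FF.closed K
  have hn0 : n ≠ 0 := by rintro rfl; simp at hn
  obtain ⟨b, hb⟩ := exists_basis o
  obtain ⟨b', h1, h2⟩ := rig_bc e b Subtype.val Subtype.val_injective hn
  obtain ⟨N, H⟩ := tce O b' Subtype.val Subtype.val_injective (fun i => by rw [h1, he, hb]) hn0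
  obtain ⟨D, a, i0, g1, g2, g3, -, g5, g6, a', -, u, -, r, -, r', -, g7, g8⟩ := H c hc
  obtain ⟨a0, rfl⟩ := h2 a a' u r r' i0 g2 g5 g6 g7 g8
  exact ⟨D, a0, g1, g3⟩

lemma gen_abs' {n : ℕ} (hn : n ≠ 0) (h : {x : Place k K | Dv n x o}.Infinite)
    (ψ : Rg o →ₐ[k] L) (hψ : Function.Injective ψ) (hP : P ≠ O)
    (he : ∀ a : Rg o, P.val (e (1 ⊗ₜ a) : M) = ψ a) : Dv n P O := by
  have : IsAlgClosed L := FF.closed M
  obtain ⟨m, y, hy⟩ := exists_gens o
  obtain ⟨N, H⟩ := gce hy hn
  let X : Set (Rg o →ₐ[k] k) := {χ | ∃ (x : Place k K) (hx : x ≠ o), Dv n x o ∧ χ = pt hx}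
  have hX : X.Infinite := by
    have h' := (h.sdiff (Set.finite_singleton o)).to_subtype
    refine Set.infinite_of_injective_forall_mem
      (f := fun x : ↥({x : Place k K | Dv n x o} \ {o}) => pt (o := o) (x := x.1) x.2.2)
      (fun x z hxz => Subtype.ext (pt_inj x.2.2 z.2.2 fun a ha => ?_))
      fun x => ⟨x.1, x.2.2, x.2.1, rfl⟩
    exact congrArg (fun χ : Rg o →ₐ[k] k => χ ⟨a, ha⟩) hxz
  have hfin : ∀ f : Rg o, f ≠ 0 → {χ ∈ X | χ f = 0}.Finite := fun f hf => by
    classical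
    refine ((finite_ord (k := k) (f : K)).image
      fun x => if hx : x ≠ o then pt hx else hX.nonempty.choose).subset ?_
    rintro _ ⟨⟨x, hx, -, rfl⟩, h0⟩
    refine ⟨x, ?_, dif_pos hx⟩
    rcases (Place.val_eq_zero (mem_Rg.1 f.2 x hx)).1 h0 with h1 | h1
    · exact absurd (Subtype.ext h1) hf
    · exact h1.ne'
  have G := gen_abs y (VN o N) X hX hfin (by rintro _ ⟨x, hx, hd, rfl⟩; exact H x hx hd) ψ hψ
  refine gcc (gens_bc e hy) hn hP ?_
  convert G.map (e : L ⊗[k] Rg o →+* Rg O) using 2 with j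
  rw [tau, he, RingHom.coe_coe, map_sub, ← e.commutes]
  rfl

lemma desc_abs' {n : ℕ} (hn : n ≠ 0) {x : Place k K} (hx : x ≠ o) (hP : P ≠ O)
    (he : ∀ a : Rg o, P.val (e (1 ⊗ₜ a) : M) = algebraMap k L (x.val (a : K))) (h : Dv n P O) :
    Dv n x o := by
  have : IsAlgClosed k := FF.closed K
  obtain ⟨m, y, hy⟩ := exists_gens o
  obtain ⟨N, H⟩ := gce (gens_bc e hy) hn
  have G := (H _ hP h).map (e.symm : Rg O →+* L ⊗[k] Rg o)
  refine gcc hy hn hx (desc_abs (k := k) (F := L) _ ?_)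
  convert G using 2 with j
  rw [tau, tau, he, RingHom.coe_coe, map_sub, e.symm_apply_apply, e.symm.commutes,
    TensorProduct.tmul_sub, ← Algebra.TensorProduct.algebraMap_apply',
    ← IsScalarTower.algebraMap_apply]

end abstract2

section

variable (L : Type) [Field L] [Algebra k L] [IsAlgClosed L]

/-- Torsion classes over an algebraically closed extension are constant. -/
theorem jn_const (n : ℕ) (hn : (n : k) ≠ 0)
    (E : Div L (BC k K L)) (h : n • E ∈ prin _ _) : ∃ B : Div k K, E - bc L B ∈ prin _ _ := by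
  have hn0 : n ≠ 0 := by rintro rfl; simp at hn
  obtain ⟨o⟩ : Nonempty (Place k K) := inferInstance
  obtain ⟨e, he⟩ := exists_iso L o
  obtain ⟨D, a0, h1, h3⟩ := const_abs e (fun a => by rw [he, ord_cst]) hn (cls E)
    (by rw [← map_nsmul]; exact cls_eq_zero.2 h)
  rw [he, dv_iK] at h3
  refine ⟨D.comapDomain (cst L) (cst_inj L).injOn, ?_⟩
  have h10 : bc L (D.comapDomain (cst L) (cst_inj L).injOn) = D := by
    ext P
    rcases cst_or_gen P with ⟨y, rfl⟩ | ⟨ψ, rfl⟩
    · rw [bc_apply]; rfl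
    · have := congrArg (fun Z => Z (gen ψ)) h3
      simp only [bc_gen, Finsupp.coe_smul, Pi.smul_apply, nsmul_eq_mul] at this
      rw [bc_gen]
      exact ((mul_eq_zero.1 this.symm).resolve_left (by exact_mod_cast hn0)).symm
  rw [h10]
  exact cls_eq_zero.1 (by rw [map_sub, h1, sub_self])

theorem dv_gen {n : ℕ} (hn : n ≠ 0)
    (h : {x : Place k K | Dv n x o}.Infinite) (ψ : K →ₐ[k] L) : Dv n (gen ψ) (cst L o) := by
  obtain ⟨e, he⟩ := exists_iso L o
  exact gen_abs' e hn h (ψ.comp (Rg o).val) (ψ.toRingHom.injective.comp Subtype.val_injective)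
    (gen_ne_cst ψ o) fun a => by rw [he, val_gen]; rfl

theorem dv_desc {n : ℕ} (hn : n ≠ 0)
    {x : Place k K} (h : Dv n (cst L x) (cst L o)) : Dv n x o := by
  by_cases hx : x = o
  · exact ⟨0, by simp [hx]⟩
  obtain ⟨e, he⟩ := exists_iso L o
  exact desc_abs' e hn hx (fun h0 => hx (cst_inj L h0))
    (fun a => by rw [he, val_cst L x _ (mem_Rg.1 a.2 x hx)]) h

end

omit [FF k K] in
lemma dv_all' {G : Type} [AddCommGroup G] (φ : Div k K →+ G) {n : ℕ} (D : Div k K)
    (h : ∀ x, D x ≠ 0 → ∃ c, φ (Finsupp.single x 1) - φ (Finsupp.single o 1) = n • c) :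
    ∃ c, φ D - deg D • φ (Finsupp.single o 1) = n • c := by
  classical
  choose! c hc using h
  refine ⟨∑ x ∈ D.support, D x • c x, ?_⟩
  have h1 : φ D = ∑ x ∈ D.support, φ (Finsupp.single x (D x)) := by
    rw [← map_sum]; exact congrArg φ (Finsupp.sum_single D).symm
  rw [deg_eq_sum, Finset.sum_smul, h1, ← Finset.sum_sub_distrib, Finset.smul_sum]
  refine Finset.sum_congr rfl fun x hx => ?_
  rw [smul_comm, ← hc x (Finsupp.mem_support_iff.1 hx), smul_sub, ← map_zsmul φ _ (Finsupp.single x 1),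
    Finsupp.smul_single, smul_eq_mul, mul_one]

/-- If all points are divisible, so is every class of degree zero. -/
lemma dv_all {n : ℕ} (D : Div k K) (h : ∀ x, D x ≠ 0 → Dv n x o) :
    ∃ c : Pic k K, cls D - deg D • cls (Finsupp.single o 1) = n • c := dv_all' cls D h

theorem dv_cst (L : Type) [Field L] [Algebra k L] [IsAlgClosed L] {n : ℕ}
    (hL : ∃ t : L, t ∉ Set.range (algebraMap k L))
    (h : ∀ ψ : K →ₐ[k] L, Dv n (gen ψ) (cst L o)) (x : Place k K) :
    Dv n (cst L x) (cst L o) := by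
  classical
  by_cases hx : x = o
  · exact ⟨0, by simp [hx]⟩
  obtain ⟨t, ht⟩ := hL
  obtain ⟨c, H⟩ := R2 k K
  obtain ⟨f, hf0, hf, hfx⟩ := H (Finsupp.single x 1 + Finsupp.single o (c : ℤ)) (by simp) {x}
  have h1 : x.ord f = -1 := by
    have := hfx x (by simp)
    simp only [Finsupp.coe_add, Pi.add_apply, Finsupp.single_eq_same, ne_eq, Ne.symm hx, not_false_eq_true, Finsupp.single_eq_of_ne', add_zero] at this
    omega
  let F : BC k K L := iK L f - algebraMap L _ t
  have h2 : F ≠ 0 ∧ (cst L x).ord F = -1 := by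
    have := Place.ord_add_of_lt (x := cst L x) (f := iK L f) (g := -algebraMap L _ t)
      (by simpa using hf0) (.inr (by simp [ord_cst, h1]))
    rwa [← sub_eq_add_neg, ord_cst, h1] at this
  obtain ⟨d, hd⟩ := dv_all (o := cst L o) (n := n) (-dv L F - Finsupp.single (cst L x) 1)
    fun P hP => by
      rcases cst_or_gen P with ⟨z, rfl⟩ | ⟨ψ, rfl⟩
      · by_cases hz : z = o
        · exact ⟨0, by simp [hz]⟩
        refine absurd ?_ hP
        by_cases hzx : z = x
        · simp [hzx, h2.2]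
        have h3 : 0 ≤ z.ord f := by
          simpa only [Finsupp.coe_zero, Pi.zero_apply, Finsupp.coe_add, Pi.add_apply, dv_apply, ne_eq, Ne.symm hzx, not_false_eq_true, Finsupp.single_eq_of_ne', Ne.symm hz, add_zero] using hf z
        have h4 : (cst L z).val F ≠ 0 := by
          rw [Place.val_sub (by rwa [ord_cst]) (by simp), val_cst L z f h3, Place.val_const]
          exact sub_ne_zero.2 fun h5 => ht ⟨_, h5⟩
        have h5 : cst L x ≠ cst L z := fun h6 => hzx (cst_inj L h6).symm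
        simp [(Place.val_ne_zero.1 h4).2, h5]
      · exact h ψ
  refine ⟨-d, ?_⟩
  rw [neg_nsmul, ← hd]
  simp only [map_sub, map_neg, cls_dv, neg_zero, zero_sub, deg_dv, deg_single, Int.reduceNeg, neg_smul, one_smul, sub_neg_eq_add, neg_add_rev, neg_neg]
  abel

section Main

variable (p : ℕ) [Fact p.Prime] [Algebra (ZMod p) k] [Algebra.IsAlgebraic (ZMod p) k]
include p

lemma dv_closure (n : ℕ) (hn : (n : k) ≠ 0) : ∃ o : Place k K,
    ∀ P, Dv n P (cst (AlgebraicClosure K) o) := by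
  have hn0 : n ≠ 0 := by rintro rfl; simp at hn
  obtain ⟨o⟩ : Nonempty (Place k K) := inferInstance
  obtain ⟨s, h0, h1, h2⟩ := exists_frob p o
  have hfin : {g : Pic k K | n • g = 0}.Finite := by
    have := jn_finite (K := K) n hn
    exact (Set.toFinite (JJ k K n : Set (Pic k K))).subset
      fun g hg => AddSubgroup.torsionBy.nsmul_iff.2 hg
  obtain ⟨x1, hx1⟩ := grp_pigeon n hfin
    (fun x : Place k K => cls (Finsupp.single x 1) - cls (Finsupp.single o 1))
    fun x => tors_of s h0 h1 h2 _ (by simp)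
  have hg := dv_gen (o := x1) (AlgebraicClosure K) hn0 (by simpa only [Dv, sub_sub_sub_cancel_right] using hx1)
  refine ⟨x1, fun P => ?_⟩
  rcases cst_or_gen P with ⟨y, rfl⟩ | ⟨ψ, rfl⟩
  · refine dv_cst _ ?_ hg y
    obtain ⟨a, ha⟩ := FF.exists_not_const k K
    refine ⟨algebraMap K _ a, ?_⟩
    rintro ⟨c, hc⟩
    rw [IsScalarTower.algebraMap_apply k K] at hc
    exact ha ⟨c, (algebraMap K _).injective hc⟩
  · exact hg ψ

theorem pic_div (n : ℕ) (hn : (n : k) ≠ 0) (E : Div k K) (hE : deg E = 0) :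
    ∃ B : Div k K, E - n • B ∈ prin k K := by
  have hn0 : n ≠ 0 := by rintro rfl; simp at hn
  obtain ⟨o, ho⟩ := dv_closure (K := K) p n hn
  obtain ⟨c, hc⟩ := dv_all (o := o) E fun x _ => dv_desc _ hn0 (ho _)
  obtain ⟨B, rfl⟩ := cls_surj c
  exact ⟨B, cls_eq_zero.1 (by rw [map_sub, map_nsmul, ← hc, hE]; simp only [zero_zsmul, sub_zero, sub_self])⟩

/-- Over the algebraic closure of `K` the classes of degree zero are divisible as well. -/
theorem pic_div_bc (n : ℕ) (hn : (n : k) ≠ 0)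
    (E : Div (AlgebraicClosure K) (BC k K (AlgebraicClosure K))) (hE : deg E = 0) :
    ∃ B, E - n • B ∈ prin _ _ := by
  obtain ⟨o, ho⟩ := dv_closure (K := K) p n hn
  obtain ⟨c, hc⟩ := dv_all E fun x _ => ho x
  obtain ⟨B, rfl⟩ := cls_surj c
  exact ⟨B, cls_eq_zero.1 (by rw [map_sub, map_nsmul, ← hc, hE]; simp only [zero_zsmul, sub_zero, sub_self])⟩

theorem gen_div (n : ℕ) (hn : (n : k) ≠ 0) (o : Place k K) :
    ∃ B : Div (AlgebraicClosure K) (BC k K (AlgebraicClosure K)),
      Finsupp.single (gen (IsScalarTower.toAlgHom k K (AlgebraicClosure K))) 1 -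
        Finsupp.single (cst _ o) 1 - n • B ∈ prin _ _ :=
  pic_div_bc p n hn _ (by simp)

theorem jn_free (l m n : ℕ) (hl : l.Prime) (hlk : (l : k) ≠ 0) (hm : 0 < m) (hn : n = l ^ m) :
    Module.Free (ZMod n) (JJ k K n) := by
  have hnk : (n : k) ≠ 0 := by rw [hn]; exact_mod_cast pow_ne_zero _ hlk
  have := jn_finite (K := K) n hnk
  refine grp_free l m n hl hm hn fun x hx => ?_
  obtain ⟨E, hE⟩ := cls_surj (x : Pic k K)
  have h1 : l • cls E = 0 := by rw [hE]; exact congrArg Subtype.val hx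
  have h2 : deg E = 0 := by
    have := congrArg degP h1
    rw [map_nsmul, degP_cls, map_zero, nsmul_eq_mul] at this
    exact (mul_eq_zero.1 this).resolve_left (by exact_mod_cast hl.ne_zero)
  obtain ⟨B, hB⟩ := pic_div p (l ^ (m - 1)) (by exact_mod_cast pow_ne_zero _ hlk) E h2
  have h3 : l ^ (m - 1) • cls B = cls E := by
    have := cls_eq_zero.2 hB
    rw [map_sub, map_nsmul, sub_eq_zero] at this
    exact this.symm
  refine ⟨⟨cls B, AddSubgroup.torsionBy.nsmul_iff.2 ?_⟩, Subtype.ext (h3.trans hE)⟩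
  rw [hn, ← Nat.sub_add_cancel hm, pow_succ', mul_smul, h3, h1]

end Main

end Pool.Agent.MP_855f4c_ag.WD.Tor
end

end

section

attribute [-instance] Finsupp.smulZeroClass SMulWithZero.toSMulZeroClass
  Subgroup.instDistribMulActionSubtypeMem SetLike.GradeZero.instCommRing
  SetLike.GradeZero.instAlgebraSubtypeMemOfNat Module.free_of_finite_type_torsion_free'
  MonTypeEquivalenceMon.monMonoid Action.FintypeCat.instMulActionObjFiniteOf
  SetLike.GradeZero.instMonoid SetLike.GradeZero.instSemiring CommGroup.toDivisionCommMonoid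
  RKHS.instFunLike SetLike.GradeZero.instRing SetLike.GradeZero.instCommSemiring littleWedderburn
  IdemSemiring.toSemiring IsAddCyclic.isAddCommutative IsPurelyInseparable.instOfHasExponent
  SubringClass.toRing ContinuousSemilinearMapClass.toSemilinearMapClass RCLike.charZero_rclike
  instCharZeroOfIsSemireal instCoeTCOfCoe Algebra.WeaklyEtale.flat Finsupp.tsub
  NormedCommRing.toCommRing ESeminormedAddMonoid.toAddMonoid NonUnitalRing.toNonUnitalNonAssocRing
  ESeminormedAddCommMonoid.toAddCommMonoid BialgEquivClass.toBialgHomClass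
  instNonUnitalAlgHomClassOfNonUnitalAlgEquivClass FloorSemiring.instCharZero
  ContinuousMonoidHom.instCoeOutOfMonoidHomClassOfContinuousMapClass
  SeminormedAddCommGroup.toAddCommGroup NormedAddCommGroup.toAddCommGroup
  LieRinehartAlgebra.toIsScalarTower CommMonTypeEquivalenceCommMon.commMonCommMonoid
  IdemCommSemiring.toCommSemiring CoalgHomClass.toSemilinearMapClass instSMulZeroClass
  NormedField.toField instIsLeftCancelAddOfAddLeftReflectLE SeminormedCommRing.toCommRing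
  NormedRing.toRing NormedSpace.toModule Algebra.Smooth.flat Torsor.toMulAction
  NormedAlgebra.toAlgebra EuclideanDomain.toCommRing NonUnitalSemiring.toNonUnitalNonAssocSemiring
  BooleanRing.toRing NonUnitalNonAssocRing.toAddCommGroup AddCommGroupWithOne.toAddGroupWithOne
  SubsemiringClass.toSemiring TestFunctionClass.toDFunLike NonAssocCommSemiring.toNonAssocSemiring
  ContDiffMapSupportedInClass.toDFunLike Finsupp.instNonUnitalNonAssocSemiring
  RingHomClass.toLinearMapClassNNRat SeminormedRing.toRing LeftPreLieAlgebra.toModule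
  SemilinearIsometryClass.toSemilinearMapClass RightPreLieAlgebra.toModule
  BialgHomClass.toAlgHomClass Algebra.ofSubsemiring LinearOrder.toDecidableEq LieAlgebra.toModule
  GradedMonoid.GradeZero.smul NonUnitalNonAssocCommSemiring.toNonUnitalNonAssocSemiring
  GroupConeClass.toSubmonoidClass SemilinearEquivClass.instSemilinearMapClass
  IsDedekindDomainDvr.isDedekindDomain Bialgebra.toAlgebra MulSemiringAction.toDistribMulAction
  IsFormallyReal.instIsReduced LieRing.toAddCommGroup NonUnitalNormedCommRing.toNonUnitalCommRing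
  NonUnitalAlgHomClass.instSemilinearMapClassOfNonUnitalAlgSemiHomClassToMonoidHomRingHom
  NumberField.to_charZero CompletePartialOrder.toPartialOrder RingConeClass.toSubsemiringClass
  IsometryClass.instCoeOutIsometryEquiv IsStrictOrderedRing.noZeroDivisors BooleanRing.toCommRing
  RingHomClass.toLinearMapClassRat BialgHomClass.toMonoidHomClass
  NonUnitalAlgHomClass.toNonUnitalRingHomClass MulCharClass.toMonoidHomClass
  NonAssocRing.toNonUnitalNonAssocRing SubringClass.toCommRing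
  Group.IsPerfect.subsingleton_of_isMulCommutative MulDistribMulActionSemiHomClass.toMonoidHomClass
  Module.End.instDivisionRing SubfieldClass.toField instCoeTCOfCoe_1
  LieAdmissibleRing.toNonUnitalNonAssocRing instCoeTOfCoeDep
  ContinuousAddMonoidHom.instCoeOutOfAddMonoidHomClassOfContinuousMapClass
  NonUnitalSeminormedCommRing.toNonUnitalCommRing AlgHomClass.linearMapClass
  NormedDivisionRing.toDivisionRing HomeomorphClass.instCoeOutHomeomorph

/-! The trace formula on `J_n`. -/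

namespace Pool.Agent.MP_855f4c_ag.WD

open SA

variable {k K L : Type} [Field k] [Field K] [Algebra k K] [FF k K] [Field L] [Algebra k L]
  [Algebra K L] [IsScalarTower k K L] [IsAlgClosed L] [Algebra.IsAlgebraic K L]

instance ffInter (M : IntermediateField K L) [FiniteDimensional K M] : FF k M :=
  FF.of_finite k K M

variable (k) in
/-- automorphisms of `L / K` act on the curve over `L` -/
noncomputable def gl (s : L ≃ₐ[K] L) : SA L (BC k K L) := gal K (s.restrictScalars k)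

omit [Algebra.IsAlgebraic K L] [IsAlgClosed L] in
lemma gl_mul (s t : L ≃ₐ[K] L) : gl k (s * t) = gl k s * gl k t := by
  rw [gl, gl, gl, ← map_mul]; rfl

omit [FF k K] [Algebra k K] [Algebra k L] [IsScalarTower k K L] in
lemma KP_normal : Normal K L :=
  normal_iff.2 fun x => ⟨Algebra.IsIntegral.isIntegral x, IsAlgClosed.splits _⟩

/-- ROW KP: an element fixed by all automorphisms over `M` is purely inseparable over `M`. -/
theorem perf (p : ℕ) [Fact p.Prime] [CharP L p] (M : IntermediateField K L) (c : L)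
    (h : ∀ s ∈ M.fixingSubgroup, s c = c) : ∃ e : ℕ, c ^ p ^ e ∈ M := by
  classical
  have hN : Normal M L := KP_normal
  have hc : IsAlgebraic M c := Algebra.IsAlgebraic.isAlgebraic c
  have : CharP M p := (algebraMap M L).charP (algebraMap M L).injective p
  have : ExpChar M p := ExpChar.prime Fact.out
  have h1 : (minpoly M c).natSepDegree = 1 := by
    rw [Polynomial.natSepDegree_eq_of_isAlgClosed L, Finset.card_eq_one]
    refine ⟨c, Finset.eq_singleton_iff_unique_mem.2 ⟨?_, fun x hx => ?_⟩⟩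
    · simp [minpoly.ne_zero hc.isIntegral]
    · rw [Multiset.mem_toFinset, Polynomial.mem_aroots] at hx
      obtain ⟨σ, hσ⟩ := minpoly.exists_algEquiv_of_root' hc hx.2
      rw [← hσ]
      exact h (σ.restrictScalars K) fun y => σ.commutes y
  obtain ⟨e, y, hy⟩ := (minpoly.natSepDegree_eq_one_iff_pow_mem p).1 h1
  exact ⟨e, hy ▸ y.2⟩

lemma KP_ex {F : Type} [Field F] {n : ℕ} (hn : 0 < n) {ζ : F} (hζ : IsPrimitiveRoot ζ n) {x : F}
    (hx : x ^ n = 1) : ∃ j : ZMod n, x = ζ ^ j.val := by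
  have : NeZero n := ⟨hn.ne'⟩
  obtain ⟨i, hi, rfl⟩ := hζ.eq_pow_of_pow_eq_one hx
  exact ⟨i, by rw [ZMod.val_natCast, Nat.mod_eq_of_lt hi]⟩

lemma KP_inj {F : Type} [Field F] {n : ℕ} (hn : 0 < n) {ζ : F} (hζ : IsPrimitiveRoot ζ n)
    {i j : ZMod n} (h : ζ ^ i.val = ζ ^ j.val) : i = j := by
  have : NeZero n := ⟨hn.ne'⟩
  exact ZMod.val_injective n (hζ.pow_inj (ZMod.val_lt i) (ZMod.val_lt j) h)

lemma KP_add {F : Type} [Field F] {n : ℕ} (hn : 0 < n) {ζ : F} (hζ : IsPrimitiveRoot ζ n)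
    (i j : ZMod n) : ζ ^ (i + j).val = ζ ^ i.val * ζ ^ j.val := by
  have : NeZero n := ⟨hn.ne'⟩
  rw [ZMod.val_add, ← pow_add, ← pow_eq_pow_mod _ hζ.pow_eq_one]

/-- a family of linear forms without common zero that is closed under addition is everything -/
lemma KP_surj {k : Type} [Field k] [IsAlgClosed k] {n : ℕ} (hn : 0 < n) {ζ : k}
    (hζ : IsPrimitiveRoot ζ n) {V : Type} [AddCommGroup V] [Module (ZMod n) V] [Finite V]
    [Module.Free (ZMod n) V] (H : AddSubgroup (Module.Dual (ZMod n) V))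
    (h : ∀ a : V, (∀ φ ∈ H, φ a = 0) → a = 0) : H = ⊤ := by
  have : NeZero n := ⟨hn.ne'⟩
  have : NeZero (n : k) := hζ.neZero'
  have : Module.Finite (ZMod n) V := Module.Finite.of_finite
  have : Finite (Module.Dual (ZMod n) V) := Finite.of_injective _ DFunLike.coe_injective
  rw [eq_top_iff]
  intro φ₀ _
  by_contra h0
  have hq : ∀ q : Multiplicative (Module.Dual (ZMod n) V ⧸ H), q ^ n = 1 := fun q => by
    obtain ⟨φ, hφ⟩ := QuotientAddGroup.mk_surjective q.toAdd
    apply Multiplicative.toAdd.injective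
    rw [toAdd_pow, ← hφ, ← QuotientAddGroup.mk_nsmul, ← Nat.cast_smul_eq_nsmul (ZMod n)]
    simp only [CharP.cast_eq_zero, zero_smul, QuotientAddGroup.mk_zero, toAdd_one]
  have : HasEnoughRootsOfUnity k (Monoid.exponent (Multiplicative (Module.Dual (ZMod n) V ⧸ H))) :=
    HasEnoughRootsOfUnity.of_dvd k (Monoid.exponent_dvd_of_forall_pow_eq_one hq)
  obtain ⟨χ, hχ⟩ := CommGroup.exists_apply_ne_one_of_hasEnoughRootsOfUnity
    (Multiplicative (Module.Dual (ZMod n) V ⧸ H)) k
    (a := Multiplicative.ofAdd (QuotientAddGroup.mk φ₀))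
    (fun e => h0 ((QuotientAddGroup.eq_zero_iff φ₀).1 e))
  choose j hj using fun φ : Module.Dual (ZMod n) V => KP_ex hn hζ
    (x := χ (Multiplicative.ofAdd (QuotientAddGroup.mk φ)))
    (by rw [← Units.val_pow_eq_pow_val, ← map_pow, hq, map_one, Units.val_one])
  have hadd : ∀ φ ψ, j (φ + ψ) = j φ + j ψ := fun φ ψ => KP_inj hn hζ (by
    rw [KP_add hn hζ, ← hj, ← hj, ← hj, QuotientAddGroup.mk_add, ofAdd_add, map_mul,
      Units.val_mul])
  obtain ⟨a, ha⟩ := (Module.evalEquiv (ZMod n) V).surjective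
    ((AddMonoidHom.mk' j hadd).toZModLinearMap n)
  have h1 : ∀ φ : Module.Dual (ZMod n) V, φ a = j φ := fun φ => LinearMap.congr_fun ha φ
  have h2 := h a fun φ hφ => by
    rw [h1]
    refine KP_inj hn hζ ?_
    rw [← hj, (QuotientAddGroup.eq_zero_iff φ).2 hφ]; simp only [ofAdd_zero, map_one, Units.val_one, ZMod.val_zero, pow_zero]
  refine hχ (Units.ext ?_)
  rw [hj, ← h1, h2]; simp only [map_zero, ZMod.val_zero, pow_zero, Units.val_one]

/-- `y` is an `n`-th root that belongs to the class `a` -/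
def Root (n : ℕ) (a : JJ k K n) (y : L) : Prop :=
  ∃ (A : Div k K) (f : K), f ≠ 0 ∧ cls A = a ∧ dv k f = n • A ∧ y ^ n = algebraMap K L f

/-- the Kummer pairing and the cover cut out by it -/
structure Kum (n : ℕ) (ζ : k) (κ : (L ≃ₐ[K] L) → Module.Dual (ZMod n) (JJ k K n))
    (M : IntermediateField K L) [FiniteDimensional K M] : Prop where
  mul : ∀ s t, κ (s * t) = κ s + κ t
  act : ∀ s a (y : L), Root n a y → s y = algebraMap k L ζ ^ (κ s a).val * y
  surj : Function.Surjective κ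
  fix : ∀ s, s ∈ M.fixingSubgroup ↔ κ s = 0
  mem : ∀ (a : JJ k K n) (y : L), Root n a y → y ∈ M
  gal : IsGalois K M
  unr : Unr k K M

omit [Algebra k L] [IsScalarTower k K L] [Algebra.IsAlgebraic K L] in
lemma KP_root {n : ℕ} (hn : 0 < n) (a : JJ k K n) {A : Div k K} (hA : cls A = a) :
    ∃ (f : K) (y : L), f ≠ 0 ∧ dv k f = n • A ∧ y ^ n = algebraMap K L f := by
  obtain ⟨f, hf0, hf⟩ := cls_mem_JJ.1 (hA ▸ a.2)
  obtain ⟨y, hy⟩ := IsAlgClosed.exists_pow_nat_eq (algebraMap K L f) hn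
  exact ⟨f, y, hf0, hf, hy⟩

omit [Algebra k L] [IsScalarTower k K L] [Algebra.IsAlgebraic K L] [IsAlgClosed L] in
lemma KP_ne {n : ℕ} (hn : 0 < n) {a : JJ k K n} {y : L} (h : Root n a y) : y ≠ 0 := by
  obtain ⟨A, f, hf, -, -, hy⟩ := h
  rintro rfl
  rw [zero_pow hn.ne', eq_comm, map_eq_zero] at hy
  exact hf hy

omit [Algebra k L] [IsScalarTower k K L] [Algebra.IsAlgebraic K L] [IsAlgClosed L] in
lemma KP_mul {n : ℕ} {a b : JJ k K n} {y x : L} (h : Root n a y) (h' : Root n b x) :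
    Root n (a + b) (y * x) := by
  obtain ⟨A, f, hf, h1, h2, h3⟩ := h
  obtain ⟨B, g, hg, h4, h5, h6⟩ := h'
  exact ⟨A + B, f * g, mul_ne_zero hf hg, by rw [map_add, h1, h4]; rfl,
    by rw [dv_mul hf hg, h2, h5, nsmul_add], by rw [mul_pow, h3, h6, map_mul]⟩

omit [Algebra.IsAlgebraic K L] [IsAlgClosed L] in
lemma KP_rel {n : ℕ} (hn : 0 < n) {ζ : k} (hζ : IsPrimitiveRoot ζ n) {a : JJ k K n} {y x : L}
    (h : Root n a y) (h' : Root n a x) : ∃ g : K, x = algebraMap K L g * y := by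
  have := FF.closed (k := k) (K := K)
  have hy0 := KP_ne hn h
  obtain ⟨A, f, hf, h1, h2, h3⟩ := h
  obtain ⟨B, g, hg, h4, h5, h6⟩ := h'
  obtain ⟨u, hu, hB⟩ := cls_eq.1 (h4.trans h1.symm)
  obtain ⟨c, hc0, hc⟩ := eq_smul_of_dv (k := k) hg (mul_ne_zero hf (pow_ne_zero n hu))
    (by rw [dv_mul hf (pow_ne_zero n hu), h5, h2, hB, dv_pow, nsmul_add])
  obtain ⟨b, rfl⟩ := IsAlgClosed.exists_pow_nat_eq c hn
  have hb : algebraMap K L (b • u) * y ≠ 0 :=
    mul_ne_zero ((map_ne_zero _).2 (smul_ne_zero (fun e => hc0 (by simp [e, hn.ne'])) hu)) hy0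
  obtain ⟨j, hj⟩ := KP_ex hn (hζ.map_of_injective (algebraMap k L).injective)
    (x := x / (algebraMap K L (b • u) * y)) (by
      rw [div_pow, div_eq_one_iff_eq (pow_ne_zero _ hb), mul_pow, h3, h6, ← map_pow, ← map_mul, hc,
        smul_pow, smul_mul_assoc, mul_comm f])
  refine ⟨algebraMap k K ζ ^ j.val * (b • u), ?_⟩
  rw [map_mul, map_pow, ← IsScalarTower.algebraMap_apply, ← hj, mul_assoc, div_mul_cancel₀ _ hb]

variable (K L) in
/-- ROW KP -/
theorem exists_kum (p : ℕ) [Fact p.Prime] [CharP k p] {n : ℕ} (hn : 0 < n) {ζ : k}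
    (hζ : IsPrimitiveRoot ζ n) [Finite (JJ k K n)] [Module.Free (ZMod n) (JJ k K n)] :
    ∃ (κ : (L ≃ₐ[K] L) → Module.Dual (ZMod n) (JJ k K n)) (M : IntermediateField K L)
      (_ : FiniteDimensional K M), Kum n ζ κ M := by
  have := FF.closed (k := k) (K := K)
  have : Normal K L := KP_normal
  have : NeZero n := ⟨hn.ne'⟩
  have hnk : (n : k) ≠ 0 := hζ.neZero'.ne
  have hnK : (n : K) ≠ 0 := by rw [← map_natCast (algebraMap k K)]; exact (map_ne_zero _).2 hnk
  have hζ' := hζ.map_of_injective (algebraMap k L).injective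
  have hs : ∀ (s : L ≃ₐ[K] L) (c : k), s (algebraMap k L c) = algebraMap k L c := fun s c => by
    rw [IsScalarTower.algebraMap_apply k K L, s.commutes]
  have h0 : ∀ a : JJ k K n, ∃ y : L, Root n a y := fun a => by
    obtain ⟨A, hA⟩ := cls_surj (a : Pic k K)
    obtain ⟨f, y, h1, h2, h3⟩ := KP_root (L := L) hn a hA
    exact ⟨y, A, f, h1, hA, h2, h3⟩
  choose y hy using h0
  have h1 : ∀ (s : L ≃ₐ[K] L) (a : JJ k K n), ∃ j : ZMod n, ∀ x : L, Root n a x →
      s x = algebraMap k L ζ ^ j.val * x := fun s a => by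
    have h2 := KP_ne hn (hy a)
    obtain ⟨j, hj⟩ := KP_ex hn hζ' (x := s (y a) / y a) (by
      obtain ⟨A, f, -, -, -, h3⟩ := hy a
      rw [div_pow, ← map_pow, div_eq_one_iff_eq (pow_ne_zero _ h2), h3, s.commutes])
    refine ⟨j, fun x hx => ?_⟩
    obtain ⟨g, rfl⟩ := KP_rel hn hζ (hy a) hx
    rw [map_mul, s.commutes, ← hj]; field_simp
  choose j hj using h1
  have hadd : ∀ s a b, j s (a + b) = j s a + j s b := fun s a b => KP_inj hn hζ' (by
    have h2 := KP_mul (hy a) (hy b)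
    refine mul_right_cancel₀ (KP_ne hn h2) ?_
    rw [← hj s _ _ h2, map_mul, hj s a _ (hy a), hj s b _ (hy b), KP_add hn hζ']; ring)
  obtain ⟨κ, hκ⟩ : ∃ κ : (L ≃ₐ[K] L) → Module.Dual (ZMod n) (JJ k K n), ∀ s a, κ s a = j s a :=
    ⟨fun s => (AddMonoidHom.mk' (j s) (hadd s)).toZModLinearMap n, fun _ _ => rfl⟩
  simp only [← hκ] at hj
  have hmul : ∀ s t, κ (s * t) = κ s + κ t := fun s t => LinearMap.ext fun a => KP_inj hn hζ' (by
    refine mul_right_cancel₀ (KP_ne hn (hy a)) ?_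
    rw [← hj _ _ _ (hy a), AlgEquiv.mul_apply, hj t a _ (hy a), map_mul, map_pow, hs,
      hj s a _ (hy a), LinearMap.add_apply, KP_add hn hζ']; ring)
  have hone : κ 1 = 0 := by simpa using hmul 1 1
  have hz : ∀ s a x, Root n a x → (s x = x ↔ κ s a = 0) := fun s a x hx => by
    rw [hj s a x hx, mul_eq_right₀ (KP_ne hn hx)]
    exact ⟨fun h => KP_inj hn hζ' (by rw [h]; simp), fun h => by rw [h]; simp⟩
  set M := IntermediateField.adjoin K (Set.range y) with hM
  have hfd : FiniteDimensional K M :=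
    IntermediateField.finiteDimensional_adjoin fun x _ => Algebra.IsIntegral.isIntegral x
  have hmem : ∀ (a : JJ k K n) (x : L), Root n a x → x ∈ M := fun a x hx => by
    obtain ⟨g, rfl⟩ := KP_rel hn hζ (hy a) hx
    exact mul_mem (M.algebraMap_mem g) (IntermediateField.subset_adjoin _ _ ⟨a, rfl⟩)
  have heq : ∀ s t, κ s = κ t → ∀ x ∈ M, s x = t x := fun s t h x hx => by
    induction hx using IntermediateField.adjoin_induction with
    | mem x hx => obtain ⟨a, rfl⟩ := hx; rw [hj s a _ (hy a), hj t a _ (hy a), h]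
    | algebraMap x => simp
    | add x y _ _ hx hy => simp only [map_add, hx, hy]
    | inv x _ hx => simp only [map_inv₀, hx]
    | mul x y _ _ hx hy => simp only [map_mul, hx, hy]
  have hfix : ∀ s, s ∈ M.fixingSubgroup ↔ κ s = 0 := fun s => by
    rw [IntermediateField.mem_fixingSubgroup_iff]
    exact ⟨fun h => LinearMap.ext fun a => (hz s a _ (hy a)).1 (h _ (hmem a _ (hy a))),
      fun h => heq s 1 (h.trans hone.symm)⟩
  have hnor : Normal K M := IntermediateField.normal_iff_forall_map_le'.2 fun s => by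
    rw [hM, IntermediateField.adjoin_map, IntermediateField.adjoin_le_iff]
    rintro _ ⟨_, ⟨a, rfl⟩, rfl⟩
    change s (y a) ∈ M
    rw [hj s a _ (hy a), IsScalarTower.algebraMap_apply k K L]
    exact mul_mem (pow_mem (M.algebraMap_mem _) _) (hmem a _ (hy a))
  have hsep : Algebra.IsSeparable K M :=
    (IntermediateField.isSeparable_adjoin_iff_isSeparable K L).2 (by
      rintro _ ⟨a, rfl⟩
      obtain ⟨A, f, h2, -, -, h3⟩ := hy a
      exact (Polynomial.separable_X_pow_sub_C f hnK h2).of_dvd (minpoly.dvd K _ (by simp [h3])))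
  have hgal : IsGalois K M := ⟨⟩
  have hl : ∀ h : M ≃ₐ[K] M, ∃ s : L ≃ₐ[K] L, ∀ x : M, s x = h x := fun h =>
    ⟨h.liftNormal L, fun x => h.liftNormal_commutes L x⟩
  have hr : ∀ s : L ≃ₐ[K] L, ∃ h : M ≃ₐ[K] M, ∀ x : M, s x = h x := fun s =>
    ⟨s.restrictNormal M, fun x => (s.restrictNormal_commutes M x).symm⟩
  refine ⟨κ, M, hfd, hmul, hj, fun φ => ?_, hfix, hmem, hgal, fun g h => ?_, fun h z hz' => ?_⟩
  · have hinv : ∀ s, κ s⁻¹ = -κ s := fun s =>
      eq_neg_of_add_eq_zero_left (by rw [← hmul, inv_mul_cancel, hone])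
    let H : AddSubgroup (Module.Dual (ZMod n) (JJ k K n)) :=
      { carrier := Set.range κ
        add_mem' := by rintro _ _ ⟨s, rfl⟩ ⟨t, rfl⟩; exact ⟨s * t, hmul s t⟩
        zero_mem' := ⟨1, hone⟩
        neg_mem' := by rintro _ ⟨s, rfl⟩; exact ⟨s⁻¹, hinv s⟩ }
    have hH : H = ⊤ := KP_surj hn hζ H fun a ha => by
      obtain ⟨g, hg⟩ := (IsGalois.mem_range_algebraMap_iff_fixed (F := K)
        (⟨y a, hmem a _ (hy a)⟩ : M)).2 fun h => by
          obtain ⟨s, hs'⟩ := hl h
          exact Subtype.ext ((hs' _).symm.trans ((hz s a _ (hy a)).2 (ha _ ⟨s, rfl⟩)))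
      have h2 : algebraMap K L g = y a := congrArg Subtype.val hg
      have h3 := KP_ne hn (hy a)
      obtain ⟨A, f, -, h4, h5, h6⟩ := hy a
      rw [← h2, ← map_pow] at h6
      rw [← (algebraMap K L).injective h6, dv_pow] at h5
      refine Subtype.ext (h4.symm.trans (cls_eq_zero.2 ⟨g, fun e => h3 (by simp [← h2, e]), ?_⟩))
      ext x
      have h7 := DFunLike.congr_fun h5 x
      simp only [Finsupp.smul_apply, nsmul_eq_mul] at h7
      exact mul_left_cancel₀ (by exact_mod_cast hn.ne') h7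
    exact (hH ▸ AddSubgroup.mem_top φ : φ ∈ H)
  · obtain ⟨s, hs'⟩ := hl g
    obtain ⟨t, ht⟩ := hl h
    ext x
    have := heq (s * t) (t * s) (by rw [hmul, hmul, add_comm]) x x.2
    rwa [AlgEquiv.mul_apply, AlgEquiv.mul_apply, ht, hs', hs', ht] at this
  · obtain ⟨s, hs'⟩ := hl h
    have h2 : κ s = 0 := LinearMap.ext fun a => by
      obtain ⟨A, hA, hA'⟩ := cls_surj_off (a : Pic k K) {res (inc k K M) z}
      obtain ⟨f, x, h3, h4, h5⟩ := KP_root (L := L) hn a hA
      have hx : Root n a x := ⟨A, f, h3, hA, h4, h5⟩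
      obtain ⟨w, rfl⟩ : ∃ w : M, (w : L) = x := ⟨⟨x, hmem a x hx⟩, rfl⟩
      have hw0 : w ≠ 0 := fun e => KP_ne hn hx (by simp [e])
      have h6 : w ^ n = inc k K M f := Subtype.ext h5
      have h7 : z.ord w = 0 := by
        have h8 := ord_res (inc k K M) z f
        rw [← h6, ← dv_apply (k := k) f, h4, Finsupp.smul_apply, hA' _ (Finset.mem_singleton_self _)]
          at h8
        simpa [hn.ne'] using h8
      have h9 : h w = (ζ ^ (κ s a).val) • w := Subtype.ext (by
        rw [← hs', hj s a _ hx, Algebra.smul_def, IntermediateField.coe_mul, map_pow,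
          IntermediateField.coe_pow]
        rfl)
      have h10 := val_act (ofGal k K h) z w
      rw [hz', ofGal_apply, cst_ofGal, h9, Place.val_smul h7.ge] at h10
      have h11 : z.val w ≠ 0 := Place.val_ne_zero.2 ⟨hw0, h7⟩
      exact KP_inj hn hζ (by simpa only [LinearMap.zero_apply, ZMod.val_zero, pow_zero] using mul_right_cancel₀ h11 (h10.trans (one_mul _).symm))
    ext x
    rw [← hs']
    exact heq s 1 (h2.trans hone.symm) x x.2

/-- `dv G = ξ + n D - (1 + n d) o` -/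
structure Th (n : ℕ) (o : Place k K) (D : Div L (BC k K L)) (d : ℤ) (G : BC k K L) : Prop where
  ne : G ≠ 0
  dv : dv L G = Finsupp.single (gen (inc k K L)) 1 + n • D - (1 + n * d) • Finsupp.single (cst L o) 1

section W1
omit [Algebra K L] [IsScalarTower k K L] [Algebra.IsAlgebraic K L]

lemma bc_single (x : Place k K) (m : ℤ) :
    bc L (Finsupp.single x m) = Finsupp.single (cst L x) m := Finsupp.mapDomain_single
lemma exists_of_bc {E : Div k K} {P : Place L (BC k K L)} (h : bc L E P ≠ 0) :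
    ∃ x, E x ≠ 0 ∧ cst L x = P := by
  classical
  simpa only [ne_eq, Finset.mem_image, Finsupp.mem_support_iff] using Finsupp.mapDomain_support (Finsupp.mem_support_iff.2 h)
lemma iK_ne {f : K} (h : f ≠ 0) : iK (k := k) L f ≠ 0 := (map_ne_zero _).2 h
lemma Off.bc {f : K} {E : Div k K} (h : Off f E) : Off (iK L f) (bc L E) :=
  ⟨iK_ne h.1, fun P hP => by
    obtain ⟨x, hx, rfl⟩ := exists_of_bc hP
    rw [ord_cst, h.2 x hx]⟩
lemma ev_iK {f : K} {E : Div k K} (h : Off f E) :
    ev (iK L f) (bc L E) = algebraMap k L (ev f E) := by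
  rw [ev, show bc L E = E.mapDomain (cst L) from rfl,
    Finsupp.prod_mapDomain_index_inj (cst_inj L), ev, Finsupp.prod, Finsupp.prod, map_prod]
  refine Finset.prod_congr rfl fun x hx => ?_
  rw [val_cst L x f (h.2 x (Finsupp.mem_support_iff.1 hx)).ge, map_zpow₀]
end W1

section W1
omit [Algebra.IsAlgebraic K L]
variable (s : L ≃ₐ[K] L)

lemma cst_gl (c : L) : SA.cst (gl k s) c = s c := SA.cst_eq _ _ _ (gal_alg _ c)
lemma gl_iK (f : K) : (gl k s).1 (iK L f) = iK L f := gal_iK _ f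
lemma gl_cst (x : Place k K) : gl k s • cst L x = cst L x := gal_cst _ x
lemma gl_gen_inc : gl k s • gen (inc k K L) = gen (inc k K L) :=
  (gal_gen _ _).trans (congrArg gen (AlgHom.ext fun f => s.commutes f))
lemma gl_bc (E : Div k K) : gl k s • bc L E = bc L E := by
  induction E using Finsupp.induction_linear with
  | zero => simp
  | add a b ha hb => rw [map_add, smul_add, ha, hb]
  | single x m => rw [bc_single, act_single, gl_cst]
end W1

omit [Algebra.IsAlgebraic K L] in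
/-- ROW W1 -/
theorem w1 {n : ℕ} (hn : (n : k) ≠ 0) {o : Place k K} {D : Div L (BC k K L)} {d : ℤ} {G : BC k K L}
    (hG : Th n o D d G) (s : L ≃ₐ[K] L) {B : Div k K} {u : BC k K L} (hu0 : u ≠ 0)
    (hu : gl k s • D - D = bc L B + dv L u) {g : K} (hg0 : g ≠ 0) (hg : dv k g = n • B)
    {A : Div k K} {f : K} (hf0 : f ≠ 0) (hf : dv k f = n • A) {y : L}
    (hy : y ^ n = algebraMap K L f) (hA : ∀ x, A x ≠ 0 → x ≠ o ∧ B x = 0 ∧ D (cst L x) = 0) :
    s y * algebraMap k L (ev f B) = algebraMap k L (ev g A) * y := by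
  have := FF.closed (k := k) (K := K)
  have n0 : n ≠ 0 := fun e => hn (by rw [e, Nat.cast_zero])
  have F0 : iK (k := k) L f ≠ 0 := iK_ne hf0
  have h1 : ∀ x : Place k K, A x = 0 → x.ord f = 0 := fun x h => by
    rw [← dv_apply, hf]; simp [h]
  have hdF : dv L (iK (k := k) L f) = n • bc L A := by rw [dv_iK, hf, map_nsmul]
  have ho : o.ord f = 0 := h1 o (by by_contra h; exact (hA o h).1 rfl)
  have fB : Off f B := ⟨hf0, fun x hx => h1 x (by by_contra h; exact hx (hA x h).2.1)⟩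
  have gA : Off g A := ⟨hg0, fun x hx => by rw [← dv_apply, hg]; simp [(hA x hx).2.1]⟩
  have FD : Off (iK L f) D := ⟨F0, fun P hP => by
    rcases cst_or_gen P with ⟨x, rfl⟩ | ⟨ψ, rfl⟩
    · rw [ord_cst]; exact h1 x (by by_contra h; exact hP (hA x h).2.2)
    · exact ord_gen ψ f⟩
  have Fx : Off (iK L f) (Finsupp.single (gen (inc k K L)) 1) := ⟨F0, fun P hP => by
    obtain rfl := (Finsupp.mem_support_single _ _ _).1 (Finsupp.mem_support_iff.2 hP) |>.1
    exact ord_gen _ f⟩
  have Fo : Off (iK L f) (Finsupp.single (cst L o) 1) := ⟨F0, fun P hP => by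
    obtain rfl := (Finsupp.mem_support_single _ _ _).1 (Finsupp.mem_support_iff.2 hP) |>.1
    rw [ord_cst, ho]⟩
  have FG : Off (iK L f) (dv L G) := hG.dv ▸ (Fx.add (FD.nsmul n)).sub (Fo.zsmul _)
  have Fs : Off (iK L f) (gl k s • D) := by
    have := (off_act (gl k s) _ D).2 FD
    rwa [gl_iK] at this
  have e1 : gl k s • D = D + bc L B + dv L u := by rw [add_assoc, ← hu]; abel
  have Fu : Off (iK L f) (dv L u) := by
    rw [show dv L u = gl k s • D - D - bc L B by rw [hu]; abel]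
    exact (Fs.sub FD).sub fB.bc
  have sw : ∀ {H : BC k K L}, H ≠ 0 → Off (iK L f) (dv L H) → Off H (bc L A) ∧
      ev (iK L f) (dv L H) = ev H (bc L A) ^ n := fun {H} H0 h =>
    ⟨⟨H0, fun P hP => (h.symm H0).2 P (by rw [hdF]; simpa only [Finsupp.coe_smul, Pi.smul_apply, Int.nsmul_eq_mul, ne_eq, mul_eq_zero, Int.natCast_eq_zero, n0, false_or] using hP)⟩,
      by rw [recip H0 h, hdF, ev_nsmul]⟩
  obtain ⟨Ga, r1⟩ := sw hG.ne FG
  obtain ⟨ua, r2⟩ := sw hu0 Fu
  rw [hG.dv, ev_sub (Fx.add (FD.nsmul n)) (Fo.zsmul _), ev_add Fx (FD.nsmul n), ev_nsmul, ev_zsmul,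
    ev_single, ev_single, zpow_one, zpow_one, val_gen, val_cst L o f ho.ge, inc_apply, ← hy,
    ← map_zpow₀] at r1
  have c0 : algebraMap k L (o.val f ^ (1 + n * d)) ≠ 0 :=
    (map_ne_zero _).2 (zpow_ne_zero _ (Place.val_ne_zero.2 ⟨hf0, ho⟩))
  have r3 : (y * ev (iK L f) D / ev G (bc L A)) ^ n = algebraMap k L (o.val f ^ (1 + n * d)) := by
    rw [div_pow, mul_pow, ← r1, div_div_cancel₀]
    exact fun e => pow_ne_zero n Ga.ev_ne (by rw [← r1, e, zero_div])
  have r4 : IsIntegral k (y * ev (iK L f) D / ev G (bc L A)) :=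
    IsIntegral.of_pow (Nat.pos_of_ne_zero n0) (r3 ▸ isIntegral_algebraMap)
  obtain ⟨c, hc⟩ := minpoly.mem_range_of_degree_eq_one k _
    (IsAlgClosed.degree_eq_one_of_irreducible k (minpoly.irreducible r4))
  have r5 : s (y * ev (iK L f) D / ev G (bc L A)) = y * ev (iK L f) D / ev G (bc L A) := by
    rw [← hc, IsScalarTower.algebraMap_apply k K L, s.commutes]
  have r6 : s (ev (iK L f) D) =
      ev (iK L f) D * algebraMap k L (ev f B) * ev u (bc L A) ^ n := by
    rw [← cst_gl (k := k), ← ev_act, gl_iK, e1, ev_add (FD.add fB.bc) Fu, ev_add FD fB.bc,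
      ev_iK fB, r2]
  have g0 : iK (k := k) L g ≠ 0 := iK_ne hg0
  obtain ⟨b, b0, hb⟩ := eq_smul_of_dv (k := L) (f := (gl k s).1 G) (g := G * iK L g * u ^ n)
    ((map_ne_zero _).2 hG.ne) (mul_ne_zero (mul_ne_zero hG.ne g0) (pow_ne_zero _ hu0)) (by
      rw [dv_act, dv_mul (mul_ne_zero hG.ne g0) (pow_ne_zero _ hu0), dv_mul hG.ne g0, dv_pow,
        dv_iK, hg, map_nsmul, hG.dv, smul_sub, smul_add, act_nsmul, act_zsmul, act_single,
        act_single, gl_gen_inc, gl_cst, e1, nsmul_add, nsmul_add]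
      abel)
  have dA : deg (bc L A) = 0 := by
    have := deg_dv (k := k) f
    rw [hf, map_nsmul] at this
    rw [deg_bc]; simpa [n0] using this
  have r7 : s (ev G (bc L A)) =
      ev G (bc L A) * algebraMap k L (ev g A) * ev u (bc L A) ^ n := by
    rw [← cst_gl (k := k), ← ev_act, gl_bc, hb, Algebra.smul_def,
      ev_mul (off_const b0) ((Ga.mul gA.bc).mul (ua.pow n)), ev_const b0, dA, zpow_zero, one_mul,
      ev_mul (Ga.mul gA.bc) (ua.pow n), ev_mul Ga gA.bc, ev_pow ua, ev_iK gA]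
  rw [map_div₀, map_mul, r6, r7] at r5
  have p1 := FD.ev_ne
  have p2 := Ga.ev_ne
  have p3 := ua.ev_ne
  have p4 : algebraMap k L (ev g A) ≠ 0 := (map_ne_zero _).2 gA.ev_ne
  field_simp at r5
  linear_combination r5

variable (L) in
/-- constant classes -/
noncomputable def BE_bc : Pic k K →+ Pic L (BC k K L) :=
  QuotientAddGroup.map _ _ (bc L) (by
    rintro _ ⟨f, hf, rfl⟩; exact ⟨iK L f, (map_ne_zero _).2 hf, dv_iK L f⟩)

omit [Algebra K L] [IsScalarTower k K L] [Algebra.IsAlgebraic K L] in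
lemma BE_bc_cls (B : Div k K) : BE_bc L (cls B) = cls (bc L B) := rfl

omit [Algebra K L] [IsScalarTower k K L] [Algebra.IsAlgebraic K L] in
lemma BE_bc_inj : Function.Injective (BE_bc (k := k) (K := K) L) := by
  refine (injective_iff_map_eq_zero _).2 fun c hc => ?_
  obtain ⟨B, rfl⟩ := cls_surj c
  obtain ⟨F, hF, h⟩ := cls_eq_zero.1 (BE_bc_cls (L := L) B ▸ hc)
  exact cls_eq_zero.2 (bc_prin L B F hF h)

omit [Algebra.IsAlgebraic K L] in
lemma BE_gl_bc (s : L ≃ₐ[K] L) (B : Div k K) : gl k s • bc L B = bc L B := by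
  induction B using Finsupp.induction_linear with
  | zero => simp
  | add a b ha hb => rw [map_add, smul_add, ha, hb]
  | single x m =>
    have e : bc L (Finsupp.single x m) = Finsupp.single (cst L x) m := Finsupp.mapDomain_single
    rw [e, act_single, gl, gal_cst]

omit [Algebra.IsAlgebraic K L] in
lemma BE_tors {n : ℕ} {o : Place k K} {D : Div L (BC k K L)} {d : ℤ} {G : BC k K L}
    (hG : Th n o D d G) (s : L ≃ₐ[K] L) : n • (gl k s • D - D) ∈ prin L (BC k K L) := by
  have h0 : (gl k s).1 G ≠ 0 := (map_ne_zero _).2 hG.ne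
  refine ⟨(gl k s).1 G / G, div_ne_zero h0 hG.ne, ?_⟩
  have e : (s.restrictScalars k : L →ₐ[k] L).comp (inc k K L) = inc k K L :=
    AlgHom.ext fun f => s.commutes f
  have h1 : gl k s • gen (inc k K L) = gen (inc k K L) := by rw [gl, gal_gen, e]
  have h2 : gl k s • cst L o = cst L o := gal_cst _ _
  rw [dv_div h0 hG.ne, dv_act, hG.dv, smul_sub, smul_add, act_zsmul, act_nsmul, act_single,
    act_single, h1, h2, smul_sub]
  abel

/-- ROW BE -/
theorem beta {n : ℕ} (hn : 0 < n) {ζ : k} (hζ : IsPrimitiveRoot ζ n) [Finite (JJ k K n)]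
    [Module.Free (ZMod n) (JJ k K n)] {κ : (L ≃ₐ[K] L) → Module.Dual (ZMod n) (JJ k K n)}
    {M : IntermediateField K L} [FiniteDimensional K M] (H : Kum n ζ κ M)
    (hc : ∀ E : Div L (BC k K L), n • E ∈ prin _ _ → ∃ B : Div k K, E - bc L B ∈ prin _ _)
    {o : Place k K} {D : Div L (BC k K L)} {d : ℤ} {G : BC k K L} (hG : Th n o D d G) (hD : 0 ≤ D)
    (hmin : ∀ D', 0 ≤ D' → D' - D ∈ prin _ _ → D' = D) :
    ∃ β : Module.Dual (ZMod n) (JJ k K n) →ₗ[ZMod n] JJ k K n,
      (∀ s (B : Div k K), cls B = β (κ s) →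
        ∃ u : BC k K L, u ≠ 0 ∧ gl k s • D - D = bc L B + dv L u) ∧
      ∀ s, κ s = 0 → gl k s • D = D := by
  classical
  have : NeZero n := ⟨hn.ne'⟩
  have hnk : (n : k) ≠ 0 := hζ.neZero'.ne
  have hb : ∀ s : L ≃ₐ[K] L, ∃ b : JJ k K n, BE_bc L (b : Pic k K) = cls (gl k s • D - D) := by
    intro s
    obtain ⟨B, hB⟩ := hc _ (BE_tors hG s)
    have h1 : BE_bc L (cls B) = cls (gl k s • D - D) := by
      have := cls_eq_zero.2 hB
      rw [map_sub, sub_eq_zero] at this
      exact this.symm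
    refine ⟨⟨cls B, AddSubgroup.torsionBy.nsmul_iff.2 (BE_bc_inj (L := L) ?_)⟩, h1⟩
    rw [map_nsmul, h1, ← map_nsmul, map_zero]
    exact cls_eq_zero.2 (BE_tors hG s)
  choose b hb using hb
  have hrel : ∀ s (B : Div k K), cls B = b s →
      ∃ u : BC k K L, u ≠ 0 ∧ gl k s • D - D = bc L B + dv L u := fun s B h =>
    cls_eq.1 (by rw [← hb, ← h, BE_bc_cls])
  have hmul : ∀ s t, b (s * t) = b s + b t := fun s t => by
    refine Subtype.ext (BE_bc_inj (L := L) ?_)
    obtain ⟨B, hB⟩ := cls_surj (b t : Pic k K)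
    have h1 : gl k s • cls (gl k t • D - D) = cls (gl k t • D - D) := by
      rw [← hb, ← hB, BE_bc_cls, act_cls, BE_gl_bc]
    rw [AddSubgroup.coe_add, map_add, hb, hb, hb, ← h1, act_cls, ← map_add, gl_mul, mul_smul,
      smul_sub]
    congr 1; abel
  have hker : ∀ s, b s = 0 → κ s = 0 := fun s hs => by
    obtain ⟨u, hu0, hu⟩ := hrel s 0 (by rw [hs, map_zero]; rfl)
    ext a
    obtain ⟨A, hA, hS⟩ := cls_surj_off (a : Pic k K)
      (insert o (D.support.preimage (cst L) (cst_inj L).injOn))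
    obtain ⟨f, hf0, hf⟩ := cls_mem_JJ.1 (hA ▸ a.2)
    obtain ⟨y, hy⟩ := IsAlgClosed.exists_pow_nat_eq (algebraMap K L f) hn
    have h1 := w1 hnk hG s hu0 hu (g := 1) one_ne_zero (by simp) hf0 hf hy fun x hx =>
      ⟨fun h => hx (hS x (by simp only [h, Finset.mem_insert, Finset.mem_preimage, Finsupp.mem_support_iff, ne_eq, true_or])), rfl, by
        by_contra h
        exact hx (hS x (Finset.mem_insert_of_mem
          (Finset.mem_preimage.2 (Finsupp.mem_support_iff.2 h))))⟩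
    have h2 := H.act s a y ⟨A, f, hf0, hA, hf, hy⟩
    have hy0 : y ≠ 0 := fun h => by
      rw [h, zero_pow hn.ne'] at hy
      exact (map_ne_zero _).2 hf0 hy.symm
    have h3 : ev (1 : K) A = 1 := by simp [ev]
    rw [ev_zero, h3, map_one, mul_one, h2, mul_left_inj' hy0, ← map_pow,
      map_eq_one_iff _ (algebraMap k L).injective, hζ.pow_eq_one_iff_dvd] at h1
    exact (ZMod.val_eq_zero _).1 (Nat.eq_zero_of_dvd_of_lt h1 (ZMod.val_lt _))
  have hkey : ∀ s t, b s = b t → κ s = κ t := fun s t h => by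
    have h1 := hmul (s * t⁻¹) t
    have h2 := H.mul (s * t⁻¹) t
    rw [inv_mul_cancel_right] at h1 h2
    rw [h2, hker (s * t⁻¹) (by rw [h] at h1; exact (left_eq_add.1 (h1.trans (add_comm _ _)))),
      zero_add]
  choose r hr using H.surj
  have hinj : Function.Injective fun ξ => b (r ξ) := fun ξ η h => by
    rw [← hr ξ, ← hr η]; exact hkey _ _ h
  let e := (Module.Free.chooseBasis (ZMod n) (JJ k K n)).toDualEquiv.toEquiv
  have : Finite (Module.Dual (ZMod n) (JJ k K n)) := Finite.of_equiv _ e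
  have hsurj := (Finite.injective_iff_surjective_of_equiv e.symm).1 hinj
  have hβ : ∀ s, b (r (κ s)) = b s := fun s => by
    obtain ⟨ξ, h⟩ := hsurj (b s)
    rw [← hkey _ _ h, hr]; exact h
  have hadd : ∀ ξ η, b (r (ξ + η)) = b (r ξ) + b (r η) := fun ξ η => by
    rw [← hmul, ← hβ (r ξ * r η), H.mul, hr, hr]
  refine ⟨AddMonoidHom.toZModLinearMap n (AddMonoidHom.mk' (fun ξ => b (r ξ)) hadd),
    fun s B h => hrel s B (by rw [← hβ]; exact h), fun s hs => ?_⟩
  have h0 : b s = 0 := by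
    rw [← hβ, hs]
    have h1 := hadd 0 0
    rw [add_zero] at h1
    exact left_eq_add.1 h1
  obtain ⟨u, hu0, hu⟩ := hrel s 0 (by rw [h0, map_zero]; rfl)
  exact hmin _ (act_nonneg _ hD) ⟨u, hu0, by rw [hu, map_zero, zero_add]⟩

/-- quotient of the leading coefficients at the graph of `π` and at the origin -/
noncomputable def Lam (π : K →ₐ[k] K) (t₀ : K) (o : Place k K) (t₁ : K) (F : BC k K L) : L :=
  lc (gen ((inc k K L).comp π)) (dl (gen ((inc k K L).comp π)) t₀) F / lc (cst L o) (iK L t₁) F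

variable (L) in
/-- the two uniformisers -/
structure Un (π : K →ₐ[k] K) (t₀ : K) (o : Place k K) (t₁ : K) : Prop where
  h0 : (gen ((inc k K L).comp π)).ord (dl (gen ((inc k K L).comp π)) t₀) = 1
  h1 : o.ord t₁ = 1

section Lam
variable {π : K →ₐ[k] K} {t₀ t₁ : K} {o : Place k K}

section
variable {k K : Type} [Field k] [Field K] [Algebra k K] {P : Place k K} {τ F F' : K}

lemma LA_ne (h : P.ord τ = 1) : τ ≠ 0 := Place.ne_zero_of_ord (x := P) (by rw [h]; exact one_ne_zero)

lemma LA_ord (h : P.ord τ = 1) (hF : F ≠ 0) : P.ord (F / τ ^ P.ord F) = 0 := by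
  rw [Place.ord_div hF (zpow_ne_zero _ (LA_ne h)), Place.ord_zpow, h, mul_one, sub_self]

lemma LA_lc_ne (h : P.ord τ = 1) (hF : F ≠ 0) : lc P τ F ≠ 0 :=
  Place.val_ne_zero.2 ⟨div_ne_zero hF (zpow_ne_zero _ (LA_ne h)), LA_ord h hF⟩

lemma LA_lc_mul (h : P.ord τ = 1) (hF : F ≠ 0) (hF' : F' ≠ 0) :
    lc P τ (F * F') = lc P τ F * lc P τ F' := by
  rw [lc, Place.ord_mul hF hF', zpow_add₀ (LA_ne h), mul_div_mul_comm,
    Place.val_mul (LA_ord h hF).ge (LA_ord h hF').ge]; rfl

lemma LA_lc_smul (h : P.ord τ = 1) (hF : F ≠ 0) {c : k} (hc : c ≠ 0) :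
    lc P τ (c • F) = c * lc P τ F := by
  rw [lc, Place.ord_smul hc, smul_div_assoc, Place.val_smul (LA_ord h hF).ge]; rfl

lemma LA_lc_act (σ : SA k K) (hP : σ • P = P) (hτ : σ.1 τ = τ) :
    lc P τ (σ.1 F) = SA.cst σ (lc P τ F) := by
  have h1 := ord_act σ P F
  have h2 := val_act σ P (F / τ ^ P.ord F)
  rw [hP] at h1 h2
  rw [lc, lc, h1, ← h2, map_div₀, map_zpow₀, hτ]
end

omit [Algebra K L] [IsScalarTower k K L] [Algebra.IsAlgebraic K L] in
lemma LA_h1 (h : o.ord t₁ = 1) : (cst L o).ord (iK L t₁) = 1 := by rw [ord_cst, h]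

variable (L) in
/-- ROW LA -/
theorem exists_un (π : K →ₐ[k] K) (o : Place k K) : ∃ t₀ t₁, Un L π t₀ o t₁ := by
  have := FF.closed (k := k) (K := K)
  obtain ⟨V, -⟩ := exists_VR (L := L) K o
  obtain ⟨t₀, -, h0⟩ := (V.red (gen ((inc k K L).comp π))).exists_ord 1
  obtain ⟨t₁, -, h1⟩ := o.exists_ord 1
  exact ⟨t₀, t₁, V.ord_dl rfl h0, h1⟩

/-- ROW LA -/
theorem Lam_ne (H : Un L π t₀ o t₁) {F : BC k K L} (hF : F ≠ 0) : Lam π t₀ o t₁ F ≠ 0 :=
  div_ne_zero (LA_lc_ne H.h0 hF) (LA_lc_ne (LA_h1 H.h1) hF)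

/-- ROW LA -/
theorem Lam_mul (H : Un L π t₀ o t₁) {F F' : BC k K L} (hF : F ≠ 0) (hF' : F' ≠ 0) :
    Lam π t₀ o t₁ (F * F') = Lam π t₀ o t₁ F * Lam π t₀ o t₁ F' := by
  rw [Lam, LA_lc_mul H.h0 hF hF', LA_lc_mul (LA_h1 H.h1) hF hF', mul_div_mul_comm]; rfl

/-- ROW LA -/
theorem Lam_pow (H : Un L π t₀ o t₁) {F : BC k K L} (hF : F ≠ 0) (m : ℕ) :
    Lam π t₀ o t₁ (F ^ m) = Lam π t₀ o t₁ F ^ m := by
  induction m with
  | zero => simp [Lam, lc]
  | succ m ih => rw [pow_succ, Lam_mul H (pow_ne_zero _ hF) hF, ih, pow_succ]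

/-- ROW LA -/
theorem Lam_congr (H : Un L π t₀ o t₁) {F F' : BC k K L} (hF : F ≠ 0) (hF' : F' ≠ 0)
    (h : dv L F = dv L F') : Lam π t₀ o t₁ F = Lam π t₀ o t₁ F' := by
  obtain ⟨c, hc, rfl⟩ := eq_smul_of_dv hF hF' h
  rw [Lam, LA_lc_smul H.h0 hF' hc, LA_lc_smul (LA_h1 H.h1) hF' hc, mul_div_mul_left _ _ hc]; rfl

/-- ROW LA -/
theorem Lam_gl (s : L ≃ₐ[K] L) (F : BC k K L) :
    Lam π t₀ o t₁ ((gl k s).1 F) = s (Lam π t₀ o t₁ F) := by
  have hc : ∀ c, SA.cst (gl k s) c = s c := fun c => cst_eq _ _ _ (gal_alg _ c)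
  have hP : gl k s • gen ((inc k K L).comp π) = gen ((inc k K L).comp π) := by
    rw [gl, gal_gen]; congr 1; ext f; exact s.commutes _
  have hτ : (gl k s).1 (dl (gen ((inc k K L).comp π)) t₀) = dl (gen ((inc k K L).comp π)) t₀ := by
    rw [dl, map_sub, SA.map_const, hc, gl, gal_iK, val_gen]; congr 2; exact s.commutes _
  rw [Lam, Lam, LA_lc_act _ hP hτ, LA_lc_act (gl k s) (gal_cst _ o) (gal_iK _ t₁), hc, hc, map_div₀]

/-- ROW LA -/
theorem Lam_iK (H : Un L π t₀ o t₁) {f : K} (hf : f ≠ 0) : ∃ c : k, c ≠ 0 ∧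
    Lam π t₀ o t₁ (iK L f) = algebraMap k L c * algebraMap K L (π f) := by
  refine ⟨(lc o t₁ f)⁻¹, inv_ne_zero (LA_lc_ne H.h1 hf), ?_⟩
  rw [Lam, lc, lc, ord_gen, ord_cst, zpow_zero, div_one, val_gen, ← map_zpow₀, ← map_div₀,
    val_cst L o _ (LA_ord H.h1 hf).ge, map_inv₀, div_eq_inv_mul]; rfl

/-- `g = γ ^ a` up to `n`-th powers and `p`-power roots -/
def LO_R {Γ : Type} [CommGroupWithZero Γ] (p n : ℕ) (γ g : Γ) (a : ℤ) : Prop :=
  ∃ (e : ℕ) (m : ℤ), g ^ p ^ e = γ ^ (((p ^ e : ℕ) : ℤ) * a + n * m)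

section LO_R
variable {Γ : Type} [CommGroupWithZero Γ] {p n : ℕ} {γ g g' : Γ} {a a' : ℤ}

lemma LO_R.base (m : ℤ) : LO_R p n γ (γ ^ (a + n * m)) a := ⟨0, m, by simp⟩

lemma LO_R.one : LO_R p n γ 1 0 := ⟨0, 0, by simp⟩

lemma LO_R.mul (hγ : γ ≠ 0) (h : LO_R p n γ g a) (h' : LO_R p n γ g' a') :
    LO_R p n γ (g * g') (a + a') := by
  obtain ⟨e, m, h⟩ := h
  obtain ⟨e', m', h'⟩ := h'
  refine ⟨e + e', (p ^ e' : ℕ) * m + (p ^ e : ℕ) * m', ?_⟩
  have e1 : g ^ p ^ (e + e') = (g ^ p ^ e) ^ p ^ e' := by rw [← pow_mul, ← pow_add]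
  have e2 : g' ^ p ^ (e + e') = (g' ^ p ^ e') ^ p ^ e := by rw [← pow_mul, ← pow_add, add_comm]
  rw [mul_pow, e1, e2, h, h', ← zpow_natCast, ← zpow_natCast, ← zpow_mul, ← zpow_mul,
    ← zpow_add₀ hγ]
  congr 1
  push_cast
  ring

lemma LO_R.zpow (h : LO_R p n γ g a) (j : ℤ) : LO_R p n γ (g ^ j) (j * a) := by
  obtain ⟨e, m, h⟩ := h
  refine ⟨e, j * m, ?_⟩
  rw [← zpow_natCast, ← zpow_mul, mul_comm j, zpow_mul, zpow_natCast, h, ← zpow_mul]
  congr 1
  ring

lemma LO_R.div (hγ : γ ≠ 0) (h : LO_R p n γ g a) (h' : LO_R p n γ g' a') :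
    LO_R p n γ (g / g') (a - a') := by
  have := h.mul hγ (h'.zpow (-1))
  rwa [zpow_neg_one, neg_one_mul, ← div_eq_mul_inv, ← sub_eq_add_neg] at this

lemma LO_R.root {e : ℕ} {m : ℤ} (h : g ^ p ^ e = γ ^ m) (j : ℤ) :
    LO_R p n γ (g ^ ((n : ℤ) * j)) 0 := by
  refine ⟨e, m * j, ?_⟩
  rw [← zpow_natCast, ← zpow_mul, mul_comm ((n : ℤ) * j), zpow_mul, zpow_natCast, h, ← zpow_mul]
  congr 1
  ring

lemma LO_R.fin (hγ : ∀ i j : ℤ, γ ^ i = γ ^ j → i = j) (hc : n.Coprime p) {w : ℤ}
    (h : LO_R p n γ (γ ^ w) a) : w ≡ a [ZMOD n] := by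
  obtain ⟨e, m, h⟩ := h
  rw [← zpow_natCast, ← zpow_mul] at h
  have h1 := hγ _ _ h
  have h2 : IsCoprime (n : ℤ) ((p ^ e : ℕ) : ℤ) := Nat.isCoprime_iff_coprime.2 (hc.pow_right e)
  refine (Int.modEq_iff_dvd.2 (h2.dvd_of_dvd_mul_left ⟨-m, ?_⟩))
  linear_combination -h1

end LO_R

omit [Algebra.IsAlgebraic K L] in
lemma LO_val_gl (s : L ≃ₐ[K] L) (P : Place L (BC k K L)) (F : BC k K L) :
    (gl k s • P).val ((gl k s).1 F) = s (P.val F) := by
  rw [SA.val_act]
  exact SA.cst_eq _ _ _ (gal_alg (K := K) (s.restrictScalars k) _)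

omit [Algebra.IsAlgebraic K L] in
lemma LO_gl_iK (s : L ≃ₐ[K] L) (f : K) : (gl k s).1 (iK L f) = iK L f := gal_iK _ f

omit [Algebra.IsAlgebraic K L] in
lemma LO_val_iK (s : L ≃ₐ[K] L) (P : Place L (BC k K L)) (f : K) :
    (gl k s • P).val (iK L f) = s (P.val (iK L f)) := by
  rw [← LO_val_gl, LO_gl_iK]

omit [Algebra.IsAlgebraic K L] in
lemma LO_gl_dl (s : L ≃ₐ[K] L) (P : Place L (BC k K L)) (t : K) :
    (gl k s).1 (dl P t) = dl (gl k s • P) t := by
  rw [dl, dl, map_sub, LO_gl_iK, LO_val_iK]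
  congr 1
  exact gal_alg (K := K) (s.restrictScalars k) _

omit [Algebra.IsAlgebraic K L] in
lemma LO_gl_gen (s : L ≃ₐ[K] L) (π : K →ₐ[k] K) :
    gl k s • gen ((inc k K L).comp π) = gen ((inc k K L).comp π) := by
  rw [gl, gal_gen]
  congr 1
  ext f
  exact s.commutes (π f)

/-- change of the uniformiser -/
lemma LO_lc {k K : Type} [Field k] [Field K] [Algebra k K] (P : Place k K) {τ δ F : K}
    (hτ : P.ord τ = 1) (hδ : P.ord δ = 1) (hF : F ≠ 0) :
    P.val (δ / τ) ≠ 0 ∧ lc P τ F = lc P δ F * P.val (δ / τ) ^ P.ord F := by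
  have τ0 : τ ≠ 0 := Place.ne_zero_of_ord (x := P) (by omega)
  have δ0 : δ ≠ 0 := Place.ne_zero_of_ord (x := P) (by omega)
  have h1 : P.ord (δ / τ) = 0 := by rw [Place.ord_div δ0 τ0]; omega
  refine ⟨Place.val_ne_zero.2 ⟨div_ne_zero δ0 τ0, h1⟩, ?_⟩
  rw [lc, lc, ← Place.val_zpow h1, ← Place.val_mul, div_zpow,
    div_mul_div_cancel₀ (zpow_ne_zero _ δ0)]
  · rw [Place.ord_div hF (zpow_ne_zero _ δ0), Place.ord_zpow, hδ]; omega
  · rw [Place.ord_zpow, h1]; omega

open Classical in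
/-- `∏ (t(P) - t(Q)) ^ E(Q)` over all points `Q ≠ P` -/
noncomputable def LO_pr (t : K) (P : Place L (BC k K L)) (E : Div L (BC k K L)) : L :=
  E.prod fun Q m => if Q ≠ P then (P.val (iK L t) - Q.val (iK L t)) ^ m else 1

omit [Algebra.IsAlgebraic K L] in
lemma LO_pr_gl (s : L ≃ₐ[K] L) (t : K) (P : Place L (BC k K L)) (E : Div L (BC k K L)) :
    LO_pr t (gl k s • P) (gl k s • E) = s (LO_pr t P E) := by
  classical
  rw [Finsupp.comapSMul_def, LO_pr, Finsupp.prod_mapDomain_index_inj (MulAction.injective _), LO_pr,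
    Finsupp.prod, Finsupp.prod, map_prod]
  refine Finset.prod_congr rfl fun Q _ => ?_
  by_cases h : Q = P
  · simp [h]
  · rw [if_pos h, if_pos ((MulAction.injective _).ne h), LO_val_iK, LO_val_iK, map_zpow₀, map_sub]

omit [Algebra K L] [IsScalarTower k K L] [Algebra.IsAlgebraic K L] in
lemma LO_J (V : VR k L) (P : Place L (BC k K L)) (E : Div L (BC k K L)) :
    ∃ t : K, (V.red P).ord t = 1 ∧ LO_pr t P E ≠ 0 ∧
      V.O.valuation (V.J (V.red P) t P E) = V.O.valuation (LO_pr t P E) := by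
  classical
  obtain ⟨t, t0, ht⟩ := exists_ord_eq (insert (V.red P) (E.support.image V.red))
    fun x => if x = V.red P then 1 else 0
  have h1 : (V.red P).ord t = 1 := by simpa using ht _ (Finset.mem_insert_self _ _)
  have h2 : ∀ Q ∈ E.support, V.red Q ≠ V.red P →
      V.O.valuation (P.val (iK L t) - Q.val (iK L t)) = 1 := fun Q hQ hne => by
    have h3 : (V.red Q).ord t = 0 := by
      simpa [hne] using ht _ (Finset.mem_insert_of_mem (Finset.mem_image_of_mem _ hQ))
    have h4 := V.red_val P t (by omega)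
    have h5 := V.red_val Q t h3.ge
    rw [(Place.val_eq_zero (x := V.red P) (by omega)).2 (.inr (by omega)), map_zero, sub_zero] at h4
    have h6 : (V.red Q).val t ≠ 0 := Place.val_ne_zero.2 ⟨t0, h3⟩
    have h7 : V.O.valuation (algebraMap k L ((V.red Q).val t)) = 1 :=
      (V.rs_ne_zero (algebraMap k V.A _)).1 (by rwa [AlgHom.commutes])
    have h8 := V.O.valuation.map_sub_lt h4 h5
    rw [← h7] at h8
    have h9 := V.O.valuation.map_sub_eq_of_lt_right h8
    rw [h7] at h9
    rw [← h9]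
    congr 1
    ring
  refine ⟨t, h1, Finset.prod_ne_zero_iff.2 fun Q hQ => ?_, ?_⟩
  · beta_reduce
    split_ifs with h
    · refine zpow_ne_zero _ fun h0 => ?_
      by_cases hr : V.red Q = V.red P
      · exact h (V.val_ne rfl hr h1 (sub_eq_zero.1 h0)).symm
      · have := h2 Q hQ hr
        rw [h0, map_zero] at this
        exact zero_ne_one this
    · exact one_ne_zero
  · rw [VR.J, LO_pr, Finsupp.prod, Finsupp.prod, map_prod, map_prod]
    refine Finset.prod_congr rfl fun Q hQ => ?_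
    by_cases h : Q = P
    · simp only [h, ne_eq, not_true_eq_false, and_false, ↓ reduceIte, map_one]
    · by_cases hr : V.red Q = V.red P
      · rw [if_pos ⟨hr, h⟩, if_pos h]
      · rw [if_neg fun h' => hr h'.1, if_pos h, map_zpow₀, h2 Q hQ hr, map_one, one_zpow]

open Classical in
omit [Algebra K L] [IsScalarTower k K L] [Algebra.IsAlgebraic K L] in
lemma LO_split (V : VR k L) {y : Place k K} {t : K} (ht : y.ord t = 1) {P : Place L (BC k K L)}
    (hP : V.red P = y) (n : ℕ) (D : Div L (BC k K L)) (Q R : Place L (BC k K L)) (m : ℤ) :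
    V.J y t P (Finsupp.single Q 1 + n • D - m • Finsupp.single R 1) =
      (if V.red Q = y ∧ Q ≠ P then P.val (iK L t) - Q.val (iK L t) else 1) *
        V.J y t P D ^ ((n : ℤ) * 1) /
        (if V.red R = y ∧ R ≠ P then (P.val (iK L t) - R.val (iK L t)) ^ m else 1) := by
  have h1 : ∀ (Q : Place L (BC k K L)) (m : ℤ), V.J y t P (Finsupp.single Q m) =
      if V.red Q = y ∧ Q ≠ P then (P.val (iK L t) - Q.val (iK L t)) ^ m else 1 := fun Q m => by
    rw [VR.J, Finsupp.prod_single_index]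
    simp
  have h2 : V.J y t P (n • D) = V.J y t P D ^ n := by
    induction n with
    | zero => rw [zero_smul, pow_zero, VR.J, Finsupp.prod_zero_index]
    | succ n ih => rw [succ_nsmul, V.J_add ht hP, ih, pow_succ]
  rw [← h1 R m, eq_div_iff (V.J_ne ht hP _), ← V.J_add ht hP, Finsupp.smul_single, smul_eq_mul,
    mul_one, sub_add_cancel, V.J_add ht hP, h1, h2, mul_one, zpow_natCast, zpow_one]

lemma LO_v {k M L : Type} [Field k] [Field M] [Algebra k M] [Field L] [Algebra k L] [Algebra M L]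
    (V : VR k L) {z : Place k M} (hV : ∀ f : M, algebraMap M L f ∈ V.O ↔ 0 ≤ z.ord f) :
    ∃ γ : V.O.ValueGroup, γ ≠ 0 ∧ (∀ i j : ℤ, γ ^ i = γ ^ j → i = j) ∧
      ∀ c : M, c ≠ 0 → V.O.valuation (algebraMap M L c) = γ ^ z.ord c := by
  obtain ⟨s, s0, hs⟩ := z.exists_ord 1
  have h0 : V.O.valuation (algebraMap M L s) ≠ 0 := by simpa only [ne_eq, map_eq_zero] using s0
  have h1 : V.O.valuation (algebraMap M L s) < 1 := by
    have h := (hV s⁻¹).not.2 (by rw [Place.ord_inv]; omega)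
    rw [← V.O.valuation_le_one_iff, not_le, map_inv₀, map_inv₀] at h
    exact (one_lt_inv₀ (zero_lt_iff.2 h0)).1 h
  refine ⟨_, h0, fun i j h => zpow_right_injective₀ (zero_lt_iff.2 h0) h1.ne h, fun c c0 => ?_⟩
  have u0 : c / s ^ z.ord c ≠ 0 := div_ne_zero c0 (zpow_ne_zero _ s0)
  have hu : z.ord (c / s ^ z.ord c) = 0 := by
    rw [Place.ord_div c0 (zpow_ne_zero _ s0), Place.ord_zpow, hs]; omega
  have h2 := (V.O.valuation_le_one_iff _).2 ((hV _).2 hu.ge)
  have h3 := (V.O.valuation_le_one_iff _).2 ((hV (c / s ^ z.ord c)⁻¹).2 (by rw [Place.ord_inv]; omega))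
  rw [map_inv₀, map_inv₀] at h3
  have h4 := le_antisymm h2 ((inv_le_one₀ (zero_lt_iff.2
    (V.O.valuation.ne_zero_iff.2 ((map_ne_zero _).2 u0)))).1 h3)
  rw [map_div₀, map_div₀, map_zpow₀, map_zpow₀] at h4
  exact (div_eq_one_iff_eq (zpow_ne_zero _ h0)).1 h4

open Classical in
/-- ROW LO -/
theorem loc (p : ℕ) [Fact p.Prime] [CharP k p] {n : ℕ} (hn : (n : k) ≠ 0) (H : Un L π t₀ o t₁)
    (hπ : π ≠ AlgHom.id k K) {D : Div L (BC k K L)} {d : ℤ} {G : BC k K L} (hG : Th n o D d G)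
    (M : IntermediateField K L) [FiniteDimensional K M]
    (hD : ∀ s ∈ M.fixingSubgroup, gl k s • D = D) (z : Place k M) (he : ee (inc k K M) z = 1)
    {x y : Place k K} (hx : res (inc k K M) z = x) (hy : res π x = y)
    (hfix : y = x → ∀ t, x.ord t = 1 → x.ord (π t - t) = 1)
    (W : M) (e : ℕ) (hW : (W : L) = Lam π t₀ o t₁ G ^ p ^ e) :
    z.ord W ≡ (p ^ e : ℕ) * ((if y = x then 1 else 0) - ee π x * (if y = o then 1 else 0) -
      (if x = o then 1 else 0) : ℤ) [ZMOD n] := by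
  have : IsAlgClosed k := FF.closed K
  have : CharP L p := charP_of_injective_algebraMap (algebraMap k L).injective p
  have : IsScalarTower k M L := ⟨fun a b c => smul_assoc a (b : L) c⟩
  obtain ⟨V, hV⟩ := exists_VR (L := L) M z
  obtain ⟨γ, γ0, γi, hγ⟩ := LO_v V hV
  have hz : ∀ f : K, z.ord (algebraMap K M f) = x.ord f := fun f => by
    have := ord_res (inc k K M) z f
    rwa [he, hx, Nat.cast_one, one_mul] at this
  have hK : ∀ f : K, f ≠ 0 → V.O.valuation (algebraMap K L f) = γ ^ x.ord f := fun f hf => by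
    rw [IsScalarTower.algebraMap_apply K M L, hγ _ (by simpa using hf), hz]
  have hfx : ∀ c : L, c ≠ 0 → (∀ s ∈ M.fixingSubgroup, s c = c) → ∀ j : ℤ,
      LO_R p n γ (V.O.valuation c ^ ((n : ℤ) * j)) 0 := fun c c0 hc j => by
    obtain ⟨e', he'⟩ := perf p M c hc
    have h := hγ ⟨_, he'⟩ fun h => pow_ne_zero _ c0 (congrArg Subtype.val h)
    exact LO_R.root (e := e') ((map_pow _ _ _).symm.trans h) j
  have hred : ∀ (φ : K →ₐ[k] K), V.red (gen ((inc k K L).comp φ)) = res φ x := fun φ =>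
    V.red_eq fun f hf => ⟨(ord_gen _ f).ge, by
      rw [val_gen]
      change algebraMap K L (φ f) ∈ V.O
      rw [IsScalarTower.algebraMap_apply K M L, hV, hz, ord_res]
      positivity⟩
  have hξ : V.red (gen (inc k K L)) = x := by
    have := hred (AlgHom.id k K)
    rwa [AlgHom.comp_id, res_eq (AlgHom.id k K) fun _ hf => hf] at this
  have hP := hred π
  rw [hy] at hP
  have hne : gen (inc k K L) ≠ gen ((inc k K L).comp π) := fun h => hπ (AlgHom.ext fun f =>
    ((algebraMap K L).injective (DFunLike.congr_fun (gen_inj h) f)).symm)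
  obtain ⟨c, c0, hc⟩ := V.red_main G hG.ne
  have hJ : ∀ P : Place L (BC k K L), (∀ s : L ≃ₐ[K] L, gl k s • P = P) → ∃ t : K,
      (V.red P).ord t = 1 ∧
        LO_R p n γ (V.O.valuation (V.J (V.red P) t P D) ^ ((n : ℤ) * 1)) 0 := fun P hs => by
    obtain ⟨t, h1, h2, h3⟩ := LO_J V P D
    refine ⟨t, h1, ?_⟩
    rw [h3]
    exact hfx _ h2 (fun s h => by rw [← LO_pr_gl, hs, hD s h]) 1
  -- the graph
  have R1 : ∃ g, V.O.valuation (lc (gen ((inc k K L).comp π))
      (dl (gen ((inc k K L).comp π)) t₀) G) = V.O.valuation c * g ∧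
      LO_R p n γ g ((if y = x then 1 else 0) - ee π x * (if y = o then 1 else 0)) := by
    obtain ⟨t, ht, hR⟩ := hJ _ fun s => LO_gl_gen s π
    rw [hP] at ht hR
    obtain ⟨u0, hu⟩ := LO_lc _ H.h0 (V.ord_dl hP ht) hG.ne
    have ho : (gen ((inc k K L).comp π)).ord G = n * D (gen ((inc k K L).comp π)) := by
      rw [← dv_apply, hG.dv, Finsupp.sub_apply, Finsupp.add_apply, Finsupp.smul_apply,
        Finsupp.smul_apply, Finsupp.single_eq_of_ne hne.symm,
        Finsupp.single_eq_of_ne (gen_ne_cst _ o)]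
      simp
    have hu2 := hfx _ u0 (fun s _ => by
      rw [← LO_val_gl, map_div₀, LO_gl_dl, LO_gl_dl, LO_gl_gen]) (D (gen ((inc k K L).comp π)))
    rw [hu, map_mul, hc y t ht _ hP, map_mul, mul_assoc, map_zpow₀, ho, hG.dv, LO_split V ht hP,
      map_div₀, map_mul, map_zpow₀]
    refine ⟨_, rfl, ?_⟩
    have t0 : t ≠ 0 := Place.ne_zero_of_ord (x := y) (by omega)
    have A : LO_R p n γ (V.O.valuation (if V.red (gen (inc k K L)) = y ∧
        gen (inc k K L) ≠ gen ((inc k K L).comp π) then (gen ((inc k K L).comp π)).val (iK L t) -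
        (gen (inc k K L)).val (iK L t) else 1)) (if y = x then 1 else 0) := by
      by_cases h : y = x
      · have h1 := hfix h t (h ▸ ht)
        rw [if_pos ⟨hξ.trans h.symm, hne⟩, if_pos h, val_gen, val_gen]
        change LO_R p n γ (V.O.valuation (algebraMap K L (π t) - algebraMap K L t)) 1
        rw [← map_sub, hK _ (Place.ne_zero_of_ord (x := x) (by omega)), h1]
        simpa using LO_R.base (p := p) (n := n) (γ := γ) (a := 1) 0
      · rw [if_neg fun h' => h (h'.1.symm.trans hξ), if_neg h, map_one]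
        exact LO_R.one
    have B : LO_R p n γ (V.O.valuation (if V.red (cst L o) = y ∧
        cst L o ≠ gen ((inc k K L).comp π) then ((gen ((inc k K L).comp π)).val (iK L t) -
        (cst L o).val (iK L t)) ^ (1 + n * d) else 1)) (ee π x * (if y = o then 1 else 0)) := by
      by_cases h : y = o
      · rw [if_pos ⟨(V.red_cst o).trans h.symm, (gen_ne_cst _ o).symm⟩, if_pos h, val_gen,
          val_cst L o t (by rw [← h]; omega),
          (Place.val_eq_zero (x := o) (by rw [← h]; omega)).2 (.inr (by rw [← h]; omega)),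
          map_zero, sub_zero, map_zpow₀]
        change LO_R p n γ (V.O.valuation (algebraMap K L (π t)) ^ _) _
        rw [hK _ (by simpa using t0), ord_res, hy, ht, ← zpow_mul]
        convert LO_R.base (p := p) (n := n) (γ := γ) (ee π x * d) using 2
        ring
      · rw [if_neg fun h' => h (h'.1.symm.trans (V.red_cst o)), if_neg h, map_one, mul_zero]
        exact LO_R.one
    simpa only [ne_eq, mul_one, zpow_natCast, mul_ite, mul_zero, add_zero] using ((A.mul γ0 hR).div γ0 B).mul γ0 hu2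
  -- the origin
  have R2 : ∃ g, V.O.valuation (lc (cst L o) (iK L t₁) G) = V.O.valuation c * g ∧
      LO_R p n γ g (if x = o then 1 else 0) := by
    obtain ⟨t, ht, hR⟩ := hJ (cst L o) fun s => gal_cst _ o
    have hQ := V.red_cst o
    rw [hQ] at ht hR
    have t0 : t ≠ 0 := Place.ne_zero_of_ord (x := o) (by omega)
    have hv : (cst L o).val (iK L t) = 0 := by
      rw [val_cst L o t (by omega), (Place.val_eq_zero (x := o) (by omega)).2 (.inr (by omega)),
        map_zero]
    obtain ⟨u0, hu⟩ := LO_lc _ ((ord_cst L o t₁).trans H.h1) (V.ord_dl hQ ht) hG.ne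
    have h1 := H.h1
    have hu2 : V.O.valuation ((cst L o).val (dl (cst L o) t / iK L t₁)) = 1 := by
      rw [dl, hv, map_zero, sub_zero, ← map_div₀, val_cst L o _ (by
        rw [Place.ord_div t0 (Place.ne_zero_of_ord (x := o) (by omega))]; omega)] at u0 ⊢
      exact (V.rs_ne_zero (algebraMap k V.A _)).1 (by
        rw [AlgHom.commutes]; simpa using u0)
    rw [hu, map_mul, hc o t ht _ hQ, map_mul, map_zpow₀, hu2, one_zpow, mul_one, hG.dv,
      LO_split V ht hQ, if_neg fun h : _ ∧ cst L o ≠ cst L o => h.2 rfl, div_one, map_mul, map_zpow₀]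
    refine ⟨_, rfl, ?_⟩
    have A : LO_R p n γ (V.O.valuation (if V.red (gen (inc k K L)) = o ∧
        gen (inc k K L) ≠ cst L o then (cst L o).val (iK L t) -
        (gen (inc k K L)).val (iK L t) else 1)) (if x = o then 1 else 0) := by
      by_cases h : x = o
      · rw [if_pos ⟨hξ.trans h, gen_ne_cst _ o⟩, if_pos h, val_gen, hv, zero_sub, Valuation.map_neg]
        change LO_R p n γ (V.O.valuation (algebraMap K L t)) 1
        rw [hK _ t0, h, ht]
        simpa using LO_R.base (p := p) (n := n) (γ := γ) (a := 1) 0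
      · rw [if_neg fun h' => h (hξ.symm.trans h'.1), if_neg h, map_one]
        exact LO_R.one
    simpa only [ne_eq, mul_one, zpow_natCast, add_zero] using A.mul γ0 hR
  obtain ⟨g₁, e₁, r₁⟩ := R1
  obtain ⟨g₂, e₂, r₂⟩ := R2
  have W0 : W ≠ 0 := fun h => pow_ne_zero (p ^ e) (Lam_ne H hG.ne) (by rw [← hW, h]; rfl)
  have h := (r₁.div γ0 r₂).zpow (p ^ e : ℕ)
  rw [← mul_div_mul_left _ _ (V.O.valuation.ne_zero_iff.2 c0), ← e₁, ← e₂, ← map_div₀, zpow_natCast,
    ← map_pow] at h
  change LO_R p n γ (V.O.valuation (Lam π t₀ o t₁ G ^ p ^ e)) _ at h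
  rw [← hW] at h
  change LO_R p n γ (V.O.valuation (algebraMap M L W)) _ at h
  rw [hγ W W0] at h
  exact h.fin γi (((Fact.out : p.Prime).coprime_iff_not_dvd.2
    fun h' => hn ((CharP.cast_eq_zero_iff k p n).2 h')).symm)

end Lam

/-- the linear map `f ↦ (σ⁻¹ f) ^ Q` -/
structure Pi (σ : SA k K) (Q : ℕ) (π : K →ₐ[k] K) : Prop where
  ne : π ≠ AlgHom.id k K
  hres : ∀ x, res π x = σ • x
  hee : ∀ x, ee π x = Q
  hpull : ∀ B : Div k K, pull π B = Q • σ⁻¹ • B
  hpush : ∀ A : Div k K, push π A = σ • A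
  hev : ∀ (f : K) (B : Div k K), ev (σ.1 f) B = ev f (Q • σ⁻¹ • B)
  fix : ∀ x : Place k K, σ • x = x → ∀ t, x.ord t = 1 → x.ord (π t - t) = 1
  fin : {x : Place k K | σ • x = x}.Finite

omit [FF k K] in
lemma PI_hom (p : ℕ) [Fact p.Prime] [CharP k p] (σ : SA k K) (a : ℕ)
    (hσ : ∀ c, SA.cst σ c = c ^ p ^ a) : ∃ π : K →ₐ[k] K, ∀ f, π f = σ⁻¹.1 f ^ p ^ a := by
  have : CharP K p := charP_of_injective_algebraMap (algebraMap k K).injective p
  refine ⟨{ (iterateFrobenius K p a).comp (σ⁻¹.1 : K →+* K) with commutes' := fun c => ?_ },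
    fun f => rfl⟩
  change σ⁻¹.1 (algebraMap k K c) ^ p ^ a = algebraMap k K c
  rw [← map_pow, ← map_pow, ← hσ, ← SA.map_const, SA.inv_apply_self]

omit [FF k K] in
lemma PI_tame (p : ℕ) [Fact p.Prime] [CharP k p] (σ : SA k K) (hσ : ∀ c, SA.cst σ c = c)
    (h1 : σ ≠ 1) {r : ℕ} (hr : ¬ p ∣ r) (hr1 : σ ^ r = 1) (x : Place k K) (hx : σ • x = x)
    {t : K} (ht : x.ord t = 1) : x.ord (σ⁻¹.1 t - t) = 1 := by
  have hc : ∀ c, σ⁻¹.1 (algebraMap k K c) = algebraMap k K c := fun c => by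
    conv_lhs => rw [← hσ c, ← SA.map_const, SA.inv_apply_self]
  let g : K ≃ₐ[k] K := { σ⁻¹.1 with commutes' := hc }
  have hg : ofGal k k g = σ⁻¹ := Subtype.ext (RingEquiv.ext fun _ => rfl)
  have hinj : Function.Injective (ofGal k k : (K ≃ₐ[k] K) →* SA k K) := fun u v h =>
    AlgEquiv.ext fun f => congrArg (fun s : SA k K => s.1 f) h
  have hgr : g ^ r = 1 := hinj (by rw [map_pow, hg, inv_pow, hr1, inv_one, map_one])
  have ho : (orderOf g : k) ≠ 0 := fun h =>
    hr (((CharP.cast_eq_zero_iff k p _).1 h).trans (orderOf_dvd_of_pow_eq_one hgr))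
  have hx' : ofGal k k g • x = x := by rw [hg, inv_smul_eq_iff, hx]
  have hv : x.val (g t / t) ≠ 1 := fun h => h1 (by
    rw [← inv_eq_one, ← hg, tame g ho x hx' ht h, map_one])
  have ht0 : t ≠ 0 := Place.ne_zero_of_ord (x := x) (by omega)
  have hgt : x.ord (g t) = 1 := by
    rw [← ht]
    conv_rhs => rw [← hx, SA.ord_act']
    rfl
  have hgt0 : g t ≠ 0 := Place.ne_zero_of_ord (x := x) (by omega)
  have h0 : x.ord (g t / t) = 0 := by rw [Place.ord_div hgt0 ht0]; omega
  have h2 : x.val (g t / t - 1) ≠ 0 := by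
    rw [Place.val_sub h0.ge (by simp), Place.val_one]; exact sub_ne_zero.2 hv
  obtain ⟨h3, h4⟩ := Place.val_ne_zero.1 h2
  have h5 : g t - t = (g t / t - 1) * t := by field_simp
  change x.ord (g t - t) = 1
  rw [h5, Place.ord_mul h3 ht0, h4, ht, zero_add]

/-- ROW PI -/
theorem exists_pi (p : ℕ) [Fact p.Prime] [CharP k p] (σ : SA k K) (a : ℕ)
    (hσ : ∀ c, SA.cst σ c = c ^ p ^ a) (h1 : a = 0 → σ ≠ 1 ∧ ∃ r : ℕ, ¬ p ∣ r ∧ σ ^ r = 1) :
    ∃ π : K →ₐ[k] K, Pi σ (p ^ a) π := by
  obtain ⟨π, hπ⟩ := PI_hom p σ a hσ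
  have hp : p.Prime := Fact.out
  have hQ : 0 < p ^ a := pow_pos hp.pos a
  have hord : ∀ (x : Place k K) f, x.ord (π f) = (p ^ a : ℕ) * (σ • x).ord f := fun x f => by
    rw [hπ, Place.ord_pow, SA.ord_act']
  have hre : ∀ x, res π x = σ • x ∧ ee π x = p ^ a := fun x => res_ee_eq π hQ (hord x)
  have hne : π ≠ AlgHom.id k K := fun h => by
    rcases Nat.eq_zero_or_pos a with rfl | ha
    · refine (h1 rfl).1 (inv_eq_one.1 (Subtype.ext (RingEquiv.ext fun f => ?_)))
      have := hπ f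
      rw [h, pow_zero, pow_one] at this
      exact this.symm
    · obtain ⟨f, hf⟩ := FF.exists_not_const k K
      obtain ⟨x, -⟩ := exists_pole hf
      have h2 : ee π x = 1 :=
        (res_ee_eq π (y := x) one_pos fun f => by rw [h]; simp).2
      rw [(hre x).2] at h2
      exact (Nat.one_lt_pow ha.ne' hp.one_lt).ne' h2
  refine ⟨π, hne, fun x => (hre x).1, fun x => (hre x).2, fun B => ?_, fun A => ?_,
    fun f B => ?_, fun x hx t ht => ?_, ?_⟩
  · ext x
    rw [pull_apply, (hre x).1, (hre x).2, Finsupp.smul_apply, SA.div_apply, inv_inv, nsmul_eq_mul]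
  · induction A using Finsupp.induction_linear with
    | zero => simp
    | add u v hu hv => rw [map_add, smul_add, hu, hv]
    | single x m => rw [push_single, SA.act_single, (hre x).1]
  · rw [ev_nsmul, ← hσ, ← SA.ev_act, smul_inv_smul]
  · rcases Nat.eq_zero_or_pos a with rfl | ha
    · obtain ⟨h2, r, hr, hr1⟩ := h1 rfl
      rw [hπ, pow_zero, pow_one]
      exact PI_tame p σ (fun c => by simpa using hσ c) h2 hr hr1 x hx ht
    · have ht0 : t ≠ 0 := Place.ne_zero_of_ord (x := x) (by omega)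
      have h2 : (1 : ℤ) < (p ^ a : ℕ) := by exact_mod_cast Nat.one_lt_pow ha.ne' hp.one_lt
      have h3 : x.ord (-t) < x.ord (π t) := by rw [Place.ord_neg, hord, hx, ht, mul_one]; exact h2
      rw [sub_eq_neg_add, (Place.ord_add_of_lt (neg_ne_zero.2 ht0) (.inr h3)).2, Place.ord_neg, ht]
  · obtain ⟨f, hf⟩ : ∃ f, π f ≠ f := by
      by_contra h; push Not at h; exact hne (AlgHom.ext h)
    refine ((finite_ord (k := k) f).union (finite_ord (π f - f))).subset fun x hx => ?_
    by_contra h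
    simp only [Set.mem_union, Function.mem_support, not_or, not_not] at h
    have hx' : σ • x = x := hx
    have h2 : x.ord (π f) = 0 := by rw [hord, hx', h.1, mul_zero]
    have h3 : x.val (π f) = x.val f := by rw [val_res, (hre x).1, hx']
    refine Place.val_ne_zero.2 ⟨sub_ne_zero.2 hf, h.2⟩ ?_
    rw [Place.val_sub h2.ge h.1.ge, h3, sub_self]

omit [Algebra.IsAlgebraic K L] in
lemma CO_bc (s : L ≃ₐ[K] L) (B : Div k K) : gl k s • bc L B = bc L B := by
  induction B using Finsupp.induction_linear with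
  | zero => simp
  | add a b ha hb => rw [map_add, smul_add, ha, hb]
  | single x m =>
    have : bc L (Finsupp.single x m) = Finsupp.single (cst L x) m := Finsupp.mapDomain_single
    rw [this, act_single, gl, gal_cst]

omit [Algebra.IsAlgebraic K L] in
lemma CO_dv {n : ℕ} {o : Place k K} {D : Div L (BC k K L)} {d : ℤ} {G : BC k K L}
    (hG : Th n o D d G) (s : L ≃ₐ[K] L) :
    dv L ((gl k s).1 G) = dv L G + n • (gl k s • D - D) := by
  have e : ((s.restrictScalars k : L ≃ₐ[k] L) : L →ₐ[k] L).comp (inc k K L) = inc k K L :=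
    AlgHom.ext fun f => s.commutes f
  rw [dv_act, hG.dv, smul_sub, smul_add, act_nsmul, act_zsmul, act_single, act_single, gl, gal_cst,
    gal_gen, e, nsmul_sub]
  abel

omit [Algebra.IsAlgebraic K L] [IsAlgClosed L] in
lemma CO_congr {A : Type} [AddGroup A] {κ : (L ≃ₐ[K] L) → A}
    (hm : ∀ s t, κ (s * t) = κ s + κ t) {D : Div L (BC k K L)}
    (hD : ∀ s, κ s = 0 → gl k s • D = D) {s t : L ≃ₐ[K] L} (h : κ s = κ t) :
    gl k s • D = gl k t • D := by
  have e := hm t (t⁻¹ * s)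
  rw [mul_inv_cancel_left, h, left_eq_add] at e
  conv_rhs => rw [← hD _ e, ← mul_smul, ← gl_mul, mul_inv_cancel_left]

lemma CO_pow {R : Type} [Monoid R] {n : ℕ} (hn : 0 < n) {z : R} (hz : z ^ n = 1) (q : ℕ)
    (x : ZMod n) : z ^ ((q : ZMod n) * x).val = (z ^ x.val) ^ q := by
  have : NeZero n := ⟨hn.ne'⟩
  rw [← pow_mul]
  exact pow_eq_pow_of_modEq ((ZMod.natCast_eq_natCast_iff _ _ _).1 (by simp [mul_comm])) hz

/-- ROW CO: the cochain and its commutator. -/
theorem cochain (p : ℕ) [Fact p.Prime] [CharP k p] {n : ℕ} (hn : 0 < n) {ζ : k}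
    (hζ : IsPrimitiveRoot ζ n) {κ : (L ≃ₐ[K] L) → Module.Dual (ZMod n) (JJ k K n)}
    {M : IntermediateField K L} [FiniteDimensional K M] [IsGalois K M] (H : Kum n ζ κ M)
    {o : Place k K} {D : Div L (BC k K L)} {d : ℤ} {G : BC k K L} (hG : Th n o D d G)
    {β : Module.Dual (ZMod n) (JJ k K n) →ₗ[ZMod n] JJ k K n}
    (hβ : ∀ s (B : Div k K), cls B = β (κ s) →
      ∃ u : BC k K L, u ≠ 0 ∧ gl k s • D - D = bc L B + dv L u)
    (hD : ∀ s, κ s = 0 → gl k s • D = D) {π : K →ₐ[k] K} {t₀ t₁ : K} (U : Un L π t₀ o t₁)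
    (πJ : JJ k K n →ₗ[ZMod n] JJ k K n) (hπ : ∀ a, (πJ a : Pic k K) = pullP π a)
    (lift : (M ≃ₐ[K] M) → (L ≃ₐ[K] L)) (hl : ∀ h (x : M), lift h x = h x) :
    ∃ (e : ℕ) (W : M) (w : (M ≃ₐ[K] M) → M), (W : L) = Lam π t₀ o t₁ G ^ p ^ e ∧
      (∀ h, w h ^ n * W = h W) ∧ ∀ g h,
        w g * g (w h) * algebraMap k M ζ ^
            (((p ^ e : ℕ) : ZMod n) * κ (lift h) (πJ (β (κ (lift g))))).val =
          w h * h (w g) * algebraMap k M ζ ^
            (((p ^ e : ℕ) : ZMod n) * κ (lift g) (πJ (β (κ (lift h))))).val := by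
  have : CharP L p := charP_of_injective_algebraMap (algebraMap k L).injective p
  have ne : ∀ (s : L ≃ₐ[K] L) {F : BC k K L}, F ≠ 0 → (gl k s).1 F ≠ 0 := fun s F hF => by
    simpa using hF
  choose B hB using fun h => cls_surj (β (κ (lift h)) : Pic k K)
  choose u u0 hu using fun h => hβ (lift h) (B h) (hB h)
  choose g g0 hg using fun h => cls_mem_JJ.1 (hB h ▸ (β (κ (lift h))).2)
  choose c c0 hc using fun h => Lam_iK U (g0 h)
  choose y hy using fun h =>
    IsAlgClosed.exists_pow_nat_eq (algebraMap k L (c h) * algebraMap K L (π (g h))) hn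
  have hR : ∀ h, Root n (πJ (β (κ (lift h)))) (y h) := fun h =>
    ⟨pull π (B h), c h • π (g h), smul_ne_zero (c0 h) (by simpa using g0 h),
      by rw [hπ, ← hB, pullP_cls], by rw [dv_smul (c0 h), dv_map, hg, map_nsmul],
      by rw [hy, Algebra.smul_def, map_mul, ← IsScalarTower.algebraMap_apply]⟩
  have du : ∀ h, dv L (u h) = gl k (lift h) • D - D - bc L (B h) := fun h => by rw [hu]; abel
  have dsu : ∀ s h, dv L ((gl k s).1 (u h)) = gl k (s * lift h) • D - gl k s • D - bc L (B h) :=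
    fun s h => by rw [dv_act, du, smul_sub, smul_sub, CO_bc, gl_mul, mul_smul]
  obtain ⟨e₀, he₀⟩ := perf p M (Lam π t₀ o t₁ G) fun s hs => by
    rw [← Lam_gl]
    exact Lam_congr U (ne s hG.ne) hG.ne (by rw [CO_dv hG, hD s ((H.fix s).1 hs)]; simp)
  choose e he using fun h => perf p M (y h * Lam π t₀ o t₁ (u h)) fun s hs => by
    have h0 := (H.fix s).1 hs
    rw [map_mul, ← Lam_gl, (IntermediateField.mem_fixingSubgroup_iff _ _).1 hs _ (H.mem _ _ (hR h)),
      Lam_congr U (ne s (u0 h)) (u0 h) (by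
        rw [dsu, du, hD s h0, CO_congr H.mul hD (s := s * lift h) (t := lift h)
          (by rw [H.mul, h0, zero_add])])]
  obtain ⟨E, hE⟩ := (Set.finite_range e).bddAbove
  have up : ∀ (x : L) (a b : ℕ), a ≤ b → x ^ p ^ a ∈ M → x ^ p ^ b ∈ M := fun x a b hab hx => by
    rw [← Nat.add_sub_cancel' hab, pow_add, pow_mul]; exact pow_mem hx _
  refine ⟨e₀ + E, ⟨_, up _ _ _ (Nat.le_add_right _ _) he₀⟩,
    fun h => ⟨_, up _ _ _ ((hE ⟨h, rfl⟩).trans (Nat.le_add_left E e₀)) (he h)⟩, rfl,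
    fun h => Subtype.ext ?_, fun a b => Subtype.ext ?_⟩
  · have i0 : iK (k := k) L (g h) ≠ 0 := by simpa using g0 h
    have key : (y h * Lam π t₀ o t₁ (u h)) ^ n * Lam π t₀ o t₁ G = lift h (Lam π t₀ o t₁ G) := by
      rw [← Lam_gl, Lam_congr U (ne _ hG.ne) (F' := G * (iK L (g h) * u h ^ n))
        (mul_ne_zero hG.ne (mul_ne_zero i0 (pow_ne_zero _ (u0 h)))) (by
          rw [CO_dv hG, dv_mul hG.ne (mul_ne_zero i0 (pow_ne_zero _ (u0 h))),
            dv_mul i0 (pow_ne_zero _ (u0 h)), dv_iK, dv_pow, hg, map_nsmul, hu, nsmul_add]),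
        Lam_mul U hG.ne (mul_ne_zero i0 (pow_ne_zero _ (u0 h))),
        Lam_mul U i0 (pow_ne_zero _ (u0 h)), Lam_pow U (u0 h), hc, ← hy]
      ring
    rw [← hl]
    simp only [MulMemClass.coe_mul, SubmonoidClass.coe_pow, map_pow]
    rw [← key, ← pow_mul, mul_comm _ n, pow_mul, ← mul_pow]
  · have one : ∀ a b, y a * Lam π t₀ o t₁ (u a) * lift a (y b * Lam π t₀ o t₁ (u b)) =
        y a * y b * algebraMap k L ζ ^ (κ (lift a) (πJ (β (κ (lift b))))).val *
          Lam π t₀ o t₁ (u a * (gl k (lift a)).1 (u b)) := fun a b => by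
      rw [map_mul, H.act _ _ _ (hR b), ← Lam_gl, Lam_mul U (u0 a) (ne _ (u0 b))]
      ring
    have two : Lam π t₀ o t₁ (u a * (gl k (lift a)).1 (u b)) =
        Lam π t₀ o t₁ (u b * (gl k (lift b)).1 (u a)) :=
      Lam_congr U (mul_ne_zero (u0 a) (ne _ (u0 b))) (mul_ne_zero (u0 b) (ne _ (u0 a))) (by
        rw [dv_mul (u0 a) (ne _ (u0 b)), dv_mul (u0 b) (ne _ (u0 a)), dsu, dsu, du, du,
          CO_congr H.mul hD (s := lift a * lift b) (t := lift b * lift a)
            (by rw [H.mul, H.mul, add_comm])]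
        abel)
    have hz : algebraMap k M ζ ^ n = 1 := by rw [← map_pow, hζ.pow_eq_one, map_one]
    have hc : ((algebraMap k M ζ : M) : L) = algebraMap k L ζ := by
      rw [IsScalarTower.algebraMap_apply k K M, IsScalarTower.algebraMap_apply k K L]; rfl
    rw [CO_pow hn hz, CO_pow hn hz]
    simp only [MulMemClass.coe_mul, SubmonoidClass.coe_pow, ← hl, map_pow, hc]
    rw [← mul_pow, ← mul_pow, ← mul_pow, ← mul_pow, one, one, two]
    congr 1
    ring

end Pool.Agent.MP_855f4c_ag.WD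

end

section

attribute [-instance] SMulWithZero.toSMulZeroClass SubsemiringClass.toCommSemiring
  Finsupp.smulZeroClass SetLike.GradeZero.instSemiring RKHS.instFunLike SetLike.GradeZero.instRing
  littleWedderburn SetLike.GradeZero.instCommSemiring SubringClass.toRing
  MonTypeEquivalenceMon.monMonoid NonUnitalRing.toNonUnitalNonAssocRing instCoeOTCOfCoeTC
  IdemSemiring.toSemiring ESeminormedAddMonoid.toAddMonoid instCharZeroOfIsSemireal
  AddSubgroupClass.instZModSMul SeminormedAddCommGroup.toAddCommGroup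
  NormedAddCommGroup.toAddCommGroup ESeminormedAddCommMonoid.toAddCommMonoid
  Group.IsPerfect.subsingleton_of_isMulCommutative
  NonUnitalAlgSemiHomClass.toDistribMulActionSemiHomClass IsSepClosure.isGalois instSMulZeroClass
  NonUnitalSubringClass.toNonUnitalCommRing NonUnitalSemiring.toNonUnitalNonAssocSemiring
  ContinuousMonoidHom.instCoeOutOfMonoidHomClassOfContinuousMapClass

namespace Pool.Agent.MP_855f4c_ag.WD

open SA Tor

variable {k K : Type} [Field k] [Field K] [Algebra k K] [FF k K]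

section
variable {L : Type} [Field L] [Algebra k L] [Algebra K L] [IsScalarTower k K L] [IsAlgClosed L]

omit [Algebra k L] [IsScalarTower k K L] in
lemma FI_root {n : ℕ} (hn : 0 < n) (a : JJ k K n) {A : Div k K} {f : K} (hf0 : f ≠ 0)
    (hA : cls A = a) (hf : dv k f = n • A) :
    ∃ y : L, y ^ n = algebraMap K L f ∧ Root n a y := by
  obtain ⟨y, hy⟩ := IsAlgClosed.exists_pow_nat_eq (algebraMap K L f) hn
  exact ⟨y, hy, A, f, hf0, hA, hf, hy⟩

omit [IsAlgClosed L] in
lemma FI_congr {n : ℕ} {ζ : k} {κ : (L ≃ₐ[K] L) → Module.Dual (ZMod n) (JJ k K n)}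
    {M : IntermediateField K L} [FiniteDimensional K M] (H : Kum n ζ κ M) {s t : L ≃ₐ[K] L}
    (h : ∀ x : M, s x = t x) : κ s = κ t := by
  have h1 : κ (t⁻¹ * s) = 0 := (H.fix _).1 ((IntermediateField.mem_fixingSubgroup_iff _ _).2
    fun x hx => by
      rw [AlgEquiv.mul_apply, h ⟨x, hx⟩]; exact t.symm_apply_apply x)
  rw [← mul_inv_cancel_left t s, H.mul, h1, add_zero]

omit [IsAlgClosed L] in
lemma FI_rt {n : ℕ} {ζ : k} {κ : (L ≃ₐ[K] L) → Module.Dual (ZMod n) (JJ k K n)}
    {M : IntermediateField K L} [FiniteDimensional K M] (H : Kum n ζ κ M)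
    (lift : (M ≃ₐ[K] M) → (L ≃ₐ[K] L)) (hl : ∀ h (x : M), lift h x = h x) (a : JJ k K n)
    {A : Div k K} {f : K} (hf0 : f ≠ 0) (hf : dv k f = n • A) {y : L}
    (hy : y ^ n = algebraMap K L f) (hr : Root n a y) :
    Rt n ζ A f (⟨y, H.mem a y hr⟩ : M) fun h => κ (lift h) a :=
  ⟨hf0, hf, Subtype.ext hy, fun h => Subtype.ext (by
    rw [← hl]; exact H.act _ a y hr)⟩

end

/-- The trace formula. -/
theorem trace_formula (p : ℕ) [Fact p.Prime] [Algebra (ZMod p) k] [Algebra.IsAlgebraic (ZMod p) k]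
    (l m n : ℕ) (hl : l.Prime) (hlk : (l : k) ≠ 0) (hm : 0 < m) (hn : n = l ^ m) (σ : SA k K)
    (a : ℕ) (hσ : ∀ c, SA.cst σ c = c ^ p ^ a)
    (h1 : a = 0 → σ ≠ 1 ∧ ∃ r : ℕ, ¬ p ∣ r ∧ σ ^ r = 1) :
    {x : Place k K | σ • x = x}.Finite ∧ LinearMap.trace (ZMod n) _ (SA.jac σ n) =
      1 + (p : ZMod n) ^ a - (Nat.card {x : Place k K // σ • x = x} : ZMod n) := by
  classical
  have : IsAlgClosed k := FF.closed K
  have : CharP k p := charP_of_injective_algebraMap (algebraMap (ZMod p) k).injective p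
  have hn0 : 0 < n := hn ▸ pow_pos hl.pos m
  have hnk : (n : k) ≠ 0 := by rw [hn, Nat.cast_pow]; exact pow_ne_zero _ hlk
  have : NeZero n := ⟨hn0.ne'⟩
  have : NeZero (n : k) := ⟨hnk⟩
  obtain ⟨ζ, hζ⟩ : ∃ ζ : k, IsPrimitiveRoot ζ n := HasEnoughRootsOfUnity.exists_primitiveRoot k n
  have : Finite (JJ k K n) := jn_finite n hnk
  have : Module.Free (ZMod n) (JJ k K n) := jn_free p l m n hl hlk hm hn
  have : Module.Finite (ZMod n) (JJ k K n) := Module.Finite.of_finite
  obtain ⟨π, P⟩ := exists_pi p σ a hσ h1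
  refine ⟨P.fin, ?_⟩
  obtain ⟨κ, M, _, H⟩ := exists_kum K (AlgebraicClosure K) p hn0 hζ
  have := H.gal
  obtain ⟨o⟩ : Nonempty (Place k K) := inferInstance
  obtain ⟨B₀, hB₀⟩ := gen_div p n hnk o
  have hdB : deg (-B₀) = 0 := by
    obtain ⟨F, -, hF⟩ := hB₀
    have := congrArg deg hF
    simp only [deg_dv, map_sub, deg_single, map_nsmul, sub_self, zero_sub, nsmul_eq_mul] at this
    have h2 : (n : ℤ) * deg B₀ = 0 := by omega
    rw [map_neg, (mul_eq_zero.1 h2).resolve_left (by exact_mod_cast hn0.ne'), neg_zero]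
  obtain ⟨D, hD0, hD1, hmin⟩ := minrep (cst (AlgebraicClosure K) o) (-B₀) hdB
  obtain ⟨G, hG0, hG1⟩ := add_mem hB₀ (nsmul_mem hD1 n)
  have hG : Th n o D (deg D) G := ⟨hG0, by
    rw [hG1, add_smul, one_smul, mul_smul, natCast_zsmul, smul_sub, smul_sub, smul_neg]; abel⟩
  obtain ⟨β, hβ, hβ0⟩ := beta hn0 hζ H (jn_const _ n hnk) hG hD0 hmin
  obtain ⟨t₀, t₁, U⟩ := exists_un (AlgebraicClosure K) π o
  let πJ : JJ k K n →ₗ[ZMod n] JJ k K n := p ^ a • SA.jac σ⁻¹ n
  have hπJ : ∀ c, (πJ c : Pic k K) = pullP π c := fun c => by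
    obtain ⟨B, hB⟩ := cls_surj (c : Pic k K)
    rw [← hB, pullP_cls, P.hpull, map_nsmul, ← SA.act_cls, hB]; rfl
  let lift : (M ≃ₐ[K] M) → (AlgebraicClosure K ≃ₐ[K] AlgebraicClosure K) :=
    fun h => h.liftNormal (AlgebraicClosure K)
  have hlift : ∀ h (x : M), lift h x = h x := fun h x => AlgEquiv.liftNormal_commutes h _ x
  obtain ⟨e, W, w, hW, hw, hc⟩ := cochain p hn0 hζ H hG hβ hβ0 U πJ hπJ lift hlift
  let b := Module.Free.chooseBasis (ZMod n) (JJ k K n)
  choose s hs using fun i => H.surj (b.coord i)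
  choose B hB using fun i => cls_surj (β (κ (s i)) : Pic k K)
  choose u hu0 hu using fun i => hβ (s i) (B i) (hB i)
  choose g hg0 hg using fun i => cls_mem_JJ.1 (hB i ▸ (β (κ (s i))).2)
  choose A hA hAo using fun i => cls_surj_off (b i : Pic k K)
    ((insert o ((B i).support ∪ D.support.preimage (cst _) (cst_inj _).injOn)).image (σ⁻¹ • ·))
  have hAo' : ∀ i x, (σ • A i) x ≠ 0 → x ≠ o ∧ B i x = 0 ∧ D (cst _ x) = 0 := fun i x hx => by
    have : x ∉ insert o ((B i).support ∪ D.support.preimage (cst _) (cst_inj _).injOn) :=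
      fun h => hx (by rw [SA.div_apply]; exact hAo i _ (Finset.mem_image_of_mem _ h))
    simpa only [ne_eq, Finset.mem_insert, Finset.mem_union, Finsupp.mem_support_iff, Finset.mem_preimage, not_or, Decidable.not_not] using this
  have hAB : ∀ i x, A i x ≠ 0 → pull π (B i) x = 0 := fun i x hx => by
    rw [pull_apply, P.hres, (hAo' i (σ • x) (by rwa [SA.div_apply, inv_smul_smul])).2.1, mul_zero]
  choose f hf0 hf using fun i => cls_mem_JJ.1 (hA i ▸ (b i).2)
  choose y hy hyr using fun i => FI_root (L := AlgebraicClosure K) hn0 (b i) (hf0 i) (hA i) (hf i)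
  have hπg0 : ∀ i, π (g i) ≠ 0 := fun i => by simpa using hg0 i
  have hπg : ∀ i, dv k (π (g i)) = n • pull π (B i) := fun i => by rw [dv_map, hg, map_nsmul]
  choose x hx hxr using fun i => FI_root (L := AlgebraicClosure K) hn0 (πJ (β (κ (s i)))) (hπg0 i)
    (by rw [hπJ, ← hB, pullP_cls]) (hπg i)
  have hexp : ∀ g h, κ (lift h) (πJ (β (κ (lift g)))) =
      ∑ i, κ (lift h) (πJ (β (κ (s i)))) * κ (lift g) (b i) := fun g h => by
    have : κ (lift g) = ∑ i, κ (lift g) (b i) • κ (s i) := by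
      simp only [hs]; exact (b.sum_dual_apply_smul_coord _).symm
    conv_lhs => rw [this]
    simp only [map_sum, map_smul, smul_eq_mul]
    exact Finset.sum_congr rfl fun i _ => mul_comm _ _
  let S := P.fin.toFinset
  let E : Div k K := ∑ x ∈ S, Finsupp.single x 1 - p ^ a • Finsupp.single (σ⁻¹ • o) 1 -
    Finsupp.single o 1
  have hE : ∀ x, E x = (if σ • x = x then 1 else 0) - ((p ^ a : ℕ) : ℤ) *
      (if σ • x = o then 1 else 0) - (if x = o then 1 else 0) := fun x => by
    simp only [E, S, Finsupp.smul_single, Int.nsmul_eq_mul, Nat.cast_pow, mul_one, Finsupp.coe_sub, Finsupp.coe_finsetSum, Pi.sub_apply, Finset.sum_apply, Finsupp.single_apply, eq_comm (b := x), Finset.sum_ite_eq, Set.Finite.mem_toFinset, Set.mem_ofPred_eq, eq_inv_smul_iff, mul_ite, mul_zero]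
  have key := theta_fin H.unr hn0 hζ
    (fun i => FI_rt H lift hlift (b i) (hf0 i) (hf i) (hy i) (hyr i))
    (fun i => FI_rt H lift hlift _ (hπg0 i) (hπg i) (hx i) (hxr i))
    (fun i => ⟨(s i).restrictNormal M, by
      rw [FI_congr H (t := s i) fun z => (hlift _ z).trans
        (AlgEquiv.restrictNormal_commutes (s i) M z), hs]; simp⟩)
    hAB (fun i => b.coord i (SA.jac σ n (b i))) (fun i => ?_) (p ^ e) E W
    (fun h => Lam_ne U hG0 (pow_eq_zero_iff (pow_ne_zero e (Fact.out : p.Prime).ne_zero) |>.1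
      (by rw [← hW, h]; rfl)))
    (fun z => ?_) w hw (fun g h => by rw [← hexp, ← hexp]; exact hc g h)
  · have hu : IsUnit ((p ^ e : ℕ) : ZMod n) := by
      refine (ZMod.isUnit_iff_coprime _ _).2 (Nat.Coprime.pow_left e ?_)
      exact ((Fact.out : p.Prime).coprime_iff_not_dvd).2 fun h =>
        hnk ((CharP.cast_eq_zero_iff k p n).2 h)
    have h2 := (hu.mul_right_eq_zero).1 key
    have h3 : deg E = (S.card : ℤ) - (p : ℤ) ^ a - 1 := by simp only [E, Finsupp.smul_single, Int.nsmul_eq_mul, Nat.cast_pow, mul_one, map_sub, map_sum, deg_single, Finset.sum_const]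
    have h4 : Nat.card {x : Place k K // σ • x = x} = S.card := by
      rw [← Nat.card_eq_card_finite_toFinset]; rfl
    rw [LinearMap.trace_eq_matrix_trace (ZMod n) b, Matrix.trace, h4]
    simp only [Matrix.diag_apply, LinearMap.toMatrix_apply]
    rw [h3] at h2
    push_cast at h2
    simp only [Module.Basis.coord_apply] at h2
    linear_combination h2
  · have hσf0 : σ.1 (f i) ≠ 0 := by simpa using hf0 i
    have hσf : dv k (σ.1 (f i)) = n • σ • A i := by rw [SA.dv_act, hf, SA.act_nsmul]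
    obtain ⟨y', hy', hr'⟩ := FI_root (L := AlgebraicClosure K) hn0 (SA.jac σ n (b i)) hσf0
      (by rw [SA.coe_jac, ← hA, SA.act_cls]) hσf
    have h2 := w1 hnk hG (s i) (hu0 i) (hu i) (hg0 i) (hg i) hσf0 hσf hy' (hAo' i)
    have hy0 : y' ≠ 0 := fun h => hσf0 (by
      rw [h, zero_pow hn0.ne'] at hy'; simpa using hy'.symm)
    rw [H.act _ _ _ hr', hs, mul_right_comm, mul_left_inj' hy0, ← map_pow, ← map_mul,
      (algebraMap k _).injective.eq_iff, P.hev, ← P.hpull, ← P.hpush] at h2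
    rw [h2, ev_map]
    refine ⟨hπg0 i, fun z hz => ?_⟩
    rw [← dv_apply, hπg, Finsupp.smul_apply, hAB i z hz, smul_zero]
  · have := loc p hnk U P.ne hG M (fun s hs => hβ0 s ((H.fix s).1 hs)) z
      ((ee_eq_one_iff z).2 fun g hg => H.unr.free g z hg) rfl (P.hres _)
      (P.fix _) W e hW
    rwa [hE, ← P.hee (res (inc k K M) z)]

end Pool.Agent.MP_855f4c_ag.WD

end
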