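import Pool.Agent.MP_855f4c_ag.WD.H
import Pool.Agent.MP_855f4c_ag.WD.D
import Pool.Agent.MP_855f4c_ag.NG.Semi

section

namespace Pool.Agent.MP_855f4c_ag.H47

open WD WD.Tor H7 Polynomial

lemma inp {p l : ℕ} {k : Type} [Field k] (hp : p.Prime) (hl : l.Prime) (hlp : l ≠ p) [CharP k p]
    (alg : ∀ c : k, ∃ n, n ≠ 0 ∧ c ^ p ^ n = c) : Inp p l k := by
  have : Fact p.Prime := ⟨hp⟩
  let _ : Algebra (ZMod p) k := ZMod.algebra k p
  have : Algebra.IsAlgebraic (ZMod p) k := ⟨fun c => by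
    obtain ⟨n, hn, h⟩ := alg c
    exact ⟨X ^ p ^ n - X, FiniteField.X_pow_card_pow_sub_X_ne_zero _ hn hp.one_lt, by simp [h]⟩⟩
  have h1 : ¬ p ∣ l := fun h => hlp ((Nat.prime_dvd_prime_iff_eq hp hl).1 h).symm
  have hlk : (l : k) ≠ 0 := fun h => h1 ((CharP.cast_eq_zero_iff k p l).1 h)
  refine ⟨fun F _ _ _ => pic_div p, fun F _ _ _ => jn_finite,
    fun F _ _ _ m n => jn_free p l m n hl hlk, fun F _ _ _ m n hm hn s e he hs => ?_,
    fun F _ _ _ m n hm hn s hs hs1 ⟨a, ha⟩ => ?_⟩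
  · rw [Nat.cast_pow]
    exact trace_formula p l m n hl hlk hm hn s e hs fun h => (he h).elim
  · rw [(trace_formula p l m n hl hlk hm hn s 0 (fun c => by rw [hs, pow_zero, pow_one]; rfl)
      fun _ => ⟨hs1, l ^ a, fun h => h1 (hp.dvd_of_dvd_pow h), ha⟩).2]
    norm_num

/-- KUM: the Kummer sequence and the trace formula on the open curve. -/
theorem kum {p q l : ℕ} {k K Ω : Type} [Field k] [Field K] [Field Ω] [Algebra k K] [Algebra K Ω]
    [Algebra k Ω] [IsScalarTower k K Ω] (D : Cv p q l k K Ω) : D.Kum :=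
  have := D.char
  kum_of D (inp D.hp D.hl D.hlp D.alg)

end Pool.Agent.MP_855f4c_ag.H47

end

section

namespace Pool.Agent.MP_855f4c_ag.LP

open PowerSeries

/-- Weil II 1.8.4. -/
theorem wd_main (p l : ℕ) [Fact p.Prime] [Fact l.Prime] (hlp : l ≠ p) {A : Type} [CommRing A]
    (L : LocSys A ℚ_[l]) (hL : Lisse L) (i : ℤ) [Algebra A (Omp p)]
    (ha : ∀ a, IsAlgebraic (Polynomial (ZMod p)) (algebraMap A (Omp p) a)) (s : Finset A)
    (hs : ∀ a, algebraMap A (Omp p) a ∈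
      Subring.closure (algebraMap A (Omp p) '' s ∪ {c | ∃ n, n ≠ 0 ∧ c ^ p ^ n = c}))
    (hP : ∀ [Algebra A (AlgebraicClosure (ZMod p))],
      (∀ a, algebraMap A (Omp p) a = 0 → algebraMap A (AlgebraicClosure (ZMod p)) a = 0) →
      Pure L i (AlgebraicClosure (ZMod p))) :
    WM L l i (ZMod p)⟦X⟧ (Omp p) :=
  H7.wd_of_kum (fun _ _ _ _ _ _ _ _ _ _ _ _ _ D => H47.kum D) p l hlp L hL i ha s hs hP

end Pool.Agent.MP_855f4c_ag.LP

end

section

namespace Pool.Agent.MP_855f4c_ag.LP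

open CategoryTheory CommAlgCat PowerSeries

lemma gl_sum {l : ℕ} [Fact l.Prime] {d : ℕ} (M : Matrix (Fin d) (Fin d) ℚ_[l]) (v : Fin d → ℚ_[l])
    (c : ℝ) (hc : 0 ≤ c) (hM : ∀ a b, ‖M a b‖ ≤ c) (hv : ∀ b, ‖v b‖ ≤ 1) (a : Fin d) :
    ‖M.mulVec v a‖ ≤ c := by
  change ‖∑ b, M a b * v b‖ ≤ c
  refine IsUltrametricDist.norm_sum_le_of_forall_le_of_nonneg hc fun b _ => ?_
  rw [norm_mul]
  exact (mul_le_of_le_one_right (norm_nonneg _) (hv b)).trans (hM a b)

lemma Lisse.adic {A : Type} [CommRing A] {l : ℕ} [Fact l.Prime] {L : LocSys A ℚ_[l]}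
    (h : Lisse L) : Adic L l := by
  obtain ⟨d, e, h1, h2⟩ := h
  have hl0 : (l : ℚ_[l]) ≠ 0 := Nat.cast_ne_zero.2 (Fact.out : l.Prime).ne_zero
  let V : ∀ Φ : (FiniteEtale.{0} A)ᵒᵖ ⥤ FintypeCat.{0}, AddSubgroup (L.obj ⟨Φ⟩) := fun Φ =>
    { carrier := {v | ∀ a, ‖(e Φ).repr v a‖ ≤ 1}
      zero_mem' := fun a => by simp
      add_mem' := fun {v w} hv hw a => by
        rw [map_add, Finsupp.add_apply]
        exact (IsUltrametricDist.norm_add_le_max _ _).trans (max_le (hv a) (hw a))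
      neg_mem' := fun {v} hv a => by
        rw [map_neg, Finsupp.neg_apply, norm_neg]
        exact hv a }
  have hV : ∀ Φ v, v ∈ V Φ ↔ ∀ a, ‖(e Φ).repr v a‖ ≤ 1 := fun _ _ => Iff.rfl
  refine ⟨V, fun Φ => ⟨?_, fun v hv => ?_, fun g v hv => ?_⟩, fun n => ?_⟩
  · rw [eq_top_iff, ← (e Φ).span_eq]
    refine Submodule.span_mono ?_
    rintro _ ⟨b, rfl⟩ a
    rw [Module.Basis.repr_self, Finsupp.single_apply]
    split_ifs <;> simp
  · refine (e Φ).repr.injective (Finsupp.ext fun a => ?_)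
    rw [map_zero, Finsupp.zero_apply, ← norm_le_zero_iff]
    have hlt : ‖(l : ℚ_[l])‖ < 1 := Padic.norm_p_lt_one
    refine ge_of_tendsto' (tendsto_pow_atTop_nhds_zero_of_lt_one (norm_nonneg _) hlt) fun n => ?_
    obtain ⟨w, hw, rfl⟩ := hv n
    rw [map_nsmul, Finsupp.smul_apply, nsmul_eq_mul, norm_mul, Nat.cast_pow, norm_pow]
    exact mul_le_of_le_one_right (by positivity) (hw a)
  · intro a
    have := gl_sum _ ((e Φ).repr v) 1 zero_le_one (h1 Φ g) hv a
    rwa [LinearMap.toMatrix_mulVec_repr] at this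
  · obtain ⟨S, hS⟩ := h2 n
    refine ⟨S, fun Φ g hg v hv => ⟨((l : ℚ_[l]) ^ n)⁻¹ • ((L.map ⟨g⟩).hom v - v), fun a => ?_, ?_⟩⟩
    · have := gl_sum _ ((e Φ).repr v) _ (norm_nonneg _) (hS Φ g hg) hv a
      rw [Matrix.sub_mulVec, Matrix.one_mulVec, LinearMap.toMatrix_mulVec_repr] at this
      rw [map_smul, Finsupp.smul_apply, smul_eq_mul, norm_mul, norm_inv, map_sub,
        inv_mul_le_iff₀ (norm_pos_iff.2 (pow_ne_zero n hl0)), mul_one]
      exact this
    · rw [← Nat.cast_smul_eq_nsmul ℚ_[l], smul_smul, Nat.cast_pow,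
        mul_inv_cancel₀ (pow_ne_zero n hl0), one_smul]

lemma gl_closure {O A Ω : Type} [CommRing O] [CommRing A] [Algebra O A] [Algebra.FiniteType O A]
    [Field Ω] (y : A →+* Ω) (T : Set Ω) (h : ∀ c, y (algebraMap O A c) ∈ Subring.closure T) :
    ∃ s : Finset A, ∀ a, y a ∈ Subring.closure (y '' s ∪ T) := by
  obtain ⟨s, hs⟩ := Algebra.FiniteType.out (R := O) (A := A)
  refine ⟨s, fun a => ?_⟩
  have ha : a ∈ Algebra.adjoin O (s : Set A) := hs ▸ Algebra.mem_top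
  induction ha using Algebra.adjoin_induction with
  | mem x hx => exact Subring.subset_closure (Or.inl ⟨x, hx, rfl⟩)
  | algebraMap c => exact Subring.closure_mono Set.subset_union_right (h c)
  | add x z _ _ hx hz => rw [map_add]; exact add_mem hx hz
  | mul x z _ _ hx hz => rw [map_mul]; exact mul_mem hx hz

theorem lp_pure (R : Type) [CommRing R] [Algebra.FiniteType ℤ R] :
    ∃ M : ℕ, M ≠ 0 ∧ ∀ (p l : ℕ) [Fact p.Prime] [Fact l.Prime], ¬ p ∣ M → l ≠ p →
      ∀ (A : Type) [CommRing A] [Algebra R A] [IsLocalization.Away (l : R) A]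
        (L : LocSys A ℚ_[l]) (i : ℤ), Lisse L →
        (∀ [Algebra A (AlgebraicClosure (ZMod p))], Pure L i (AlgebraicClosure (ZMod p))) →
        ∀ [Algebra A (PadicAlgCl p)], WM L l i ℤ_[p] (PadicAlgCl p) := by
  obtain ⟨M, hM, h⟩ := main R
  refine ⟨M, hM, fun p l _ _ hp hlp A _ _ _ L i hL hP _ => ?_⟩
  refine h p l hp Fact.out hlp A ℚ_[l] L i fun ha => ?_
  have : Algebra.FiniteType R A := IsLocalization.finiteType_of_monoid_fg (Submonoid.powers (l : R)) A
  have : Algebra.FiniteType ℤ A := Algebra.FiniteType.trans (S := R) inferInstance inferInstance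
  obtain ⟨s, hs⟩ := gl_closure (O := ℤ) (algebraMap A (Omp p))
    {c | ∃ n, n ≠ 0 ∧ c ^ p ^ n = c} fun c => by
      rw [eq_intCast, map_intCast]
      exact intCast_mem _ c
  exact wd_main p l hlp L hL i ha s hs fun _ => hP

/-- An integral element is congruent to a root of `T ^ p ^ n - T` up to a power. -/
lemma gl_res {p : ℕ} [Fact p.Prime] {O Ω : Type} [CommRing O] [Algebra O (PadicAlgCl p)] [Field Ω]
    [CharP Ω p] (y : O →+* Ω) (hy : ∀ c, ‖algebraMap O (PadicAlgCl p) c‖ < 1 → y c = 0) (c : O)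
    (hc : ‖algebraMap O (PadicAlgCl p) c‖ ≤ 1) : ∃ n, n ≠ 0 ∧ y c ^ p ^ n = y c := by
  obtain ⟨q, hq, hz⟩ := (norm_le_iff _).1 hc
  have hs : Function.Surjective (Int.castRingHom (ZMod p)) := ZMod.ringHom_surjective _
  obtain ⟨q0, h1, -, h2⟩ := Polynomial.lifts_and_natDegree_eq_and_monic
    (f := Int.castRingHom (ZMod p)) (p := q.map PadicInt.toZMod)
    ((Polynomial.lifts_iff_coeff_lifts _).2 fun n => hs _) (hq.map _)
  have h3 : ‖algebraMap O (PadicAlgCl p) (Polynomial.aeval c q0)‖ < 1 := by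
    have e1 : algebraMap O (PadicAlgCl p) (Polynomial.aeval c q0) =
        Polynomial.aeval (algebraMap O (PadicAlgCl p) c) (q0.map (Int.castRingHom ℤ_[p]) - q) := by
      rw [map_sub, Polynomial.aeval_def _ q, hz, sub_zero, ← Polynomial.aeval_algebraMap_apply]
      exact (Polynomial.aeval_map_algebraMap ℤ_[p] _ q0).symm
    rw [e1, Polynomial.aeval_eq_sum_range]
    refine f0_sum _ _ fun i _ => ?_
    rw [Algebra.smul_def, mul_comm]
    refine f0_mul (f0_powle hc i) ?_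
    rw [f0_norm_alg, ← PadicInt.mem_nonunits, ← IsLocalRing.mem_maximalIdeal,
      ← PadicInt.ker_toZMod, RingHom.mem_ker, ← Polynomial.coeff_map, Polynomial.map_sub,
      Polynomial.map_map, ← h1]
    have : (PadicInt.toZMod (p := p)).comp (Int.castRingHom ℤ_[p]) = Int.castRingHom (ZMod p) :=
      RingHom.ext_int _ _
    rw [this, sub_self, Polynomial.coeff_zero]
  have h4 := hy _ h3
  let _ := ZMod.algebra Ω p
  have h5 : IsIntegral (ZMod p) (y c) := by
    refine IsIntegral.tower_top (R := ℤ) ⟨q0, h2, ?_⟩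
    rw [← h4, Polynomial.aeval_def, Polynomial.hom_eval₂]
    congr 1
    exact RingHom.ext_int _ _
  have : FiniteDimensional (ZMod p) (IntermediateField.adjoin (ZMod p) {y c}) :=
    IntermediateField.adjoin.finiteDimensional h5
  have : Finite (IntermediateField.adjoin (ZMod p) {y c}) := Module.finite_of_finite (ZMod p)
  let _ := Fintype.ofFinite (IntermediateField.adjoin (ZMod p) {y c})
  have h6 := congrArg Subtype.val (FiniteField.pow_card (IntermediateField.AdjoinSimple.gen (ZMod p) (y c)))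
  rw [Module.card_eq_pow_finrank (K := ZMod p), ZMod.card] at h6
  exact ⟨_, Module.finrank_pos.ne', h6⟩

theorem ng_pure (p l : ℕ) [Fact p.Prime] [Fact l.Prime] (hlp : l ≠ p)
    (K : IntermediateField ℚ_[p] (PadicAlgCl p)) [FiniteDimensional ℚ_[p] K] (O A : Type)
    [CommRing O] [Algebra O (PadicAlgCl p)]
    (hO : ∀ c, algebraMap O (PadicAlgCl p) c ∈ K ∧ ‖algebraMap O (PadicAlgCl p) c‖ ≤ 1)
    (c₀ : O) (hc0 : algebraMap O (PadicAlgCl p) c₀ ≠ 0) (hc1 : ‖algebraMap O (PadicAlgCl p) c₀‖ < 1)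
    {P : Type} [CommRing P] [Algebra O P] [Algebra.FiniteType O P] {j₀ : ℕ} {t₀ : Fin j₀ → P}
    (hP : SP c₀ t₀) [CommRing A] [Algebra O A] [Algebra P A] [IsScalarTower O P A]
    [Algebra.Smooth P A] (s : Set A) (hs : Algebra.adjoin O s = ⊤)
    (L : LocSys A ℚ_[l]) (hL : Lisse L) :
    ∃ r : ℝ, 1 < r ∧ ∀ i : ℤ,
      (∀ [Algebra A (AlgebraicClosure (ZMod p))],
        (∀ c, ‖algebraMap O (PadicAlgCl p) c‖ < 1 →
          algebraMap A (AlgebraicClosure (ZMod p)) (algebraMap O A c) = 0) →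
        Pure L i (AlgebraicClosure (ZMod p))) →
      ∀ [Algebra A (PadicAlgCl p)] [IsScalarTower O A (PadicAlgCl p)],
        (∀ a ∈ s, ‖algebraMap A (PadicAlgCl p) a‖ ≤ r) → WM L l i ℤ_[p] (PadicAlgCl p) := by
  obtain ⟨r, hr, h⟩ := sm_main p l Fact.out hlp K O A ℚ_[l] hO c₀ hc0 hc1 hP s hs L hL.adic
  refine ⟨r, hr, fun i H => h i fun h0 ha => ?_⟩
  have : Algebra.FiniteType O A := Algebra.FiniteType.trans (S := P) inferInstance inferInstance
  have := gp_char (p := p)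
  obtain ⟨t, ht⟩ := gl_closure (O := O) (algebraMap A (Omp p))
    {c | ∃ n, n ≠ 0 ∧ c ^ p ^ n = c} fun c => Subring.subset_closure
      (gl_res ((algebraMap A (Omp p)).comp (algebraMap O A)) h0 c (hO c).2)
  exact wd_main p l hlp L hL i ha t ht fun h1 => H fun c hc => h1 _ (h0 c hc)

end Pool.Agent.MP_855f4c_ag.LP

end
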